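import Pool.Agent.Lib.MP_629a14_nt.Rob.DivSum
import Pool.Agent.Lib.MP_3e612f_nt.MuPNT

/-! The prime number theorem. -/

set_option autoImplicit false

namespace Pool.Agent.Lib.MP_629a14_nt.Rob

open Finset

open Filter Topology

namespace PsiOneAux

open ArithmeticFunction Pool.Agent.Lib.MP_3e612f_nt.SA

private noncomputable def FF (m : ℕ) : ℝ :=
  Real.log m - (m.divisors.card : ℝ) + 2 * Real.eulerMascheroniConstant

private noncomputable def gg0 : ArithmeticFunction ℝ :=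
  ArithmeticFunction.log + -((ArithmeticFunction.zeta : ArithmeticFunction ℝ) * (ArithmeticFunction.zeta : ArithmeticFunction ℝ))
    + (2 * Real.eulerMascheroniConstant) • (ArithmeticFunction.zeta : ArithmeticFunction ℝ)

private lemma gg0_apply {m : ℕ} (hm : 1 ≤ m) : gg0 m = FF m := by
  unfold gg0 FF
  have hm0 : m ≠ 0 := by omega
  have h1 : ((ArithmeticFunction.zeta : ArithmeticFunction ℝ) * (ArithmeticFunction.zeta : ArithmeticFunction ℝ)) m = (m.divisors.card : ℝ) := by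
    rw [ArithmeticFunction.coe_zeta_mul_apply]
    rw [Finset.sum_congr rfl (g := fun _ => (1 : ℝ))]
    · simp
    · intro i hi
      have : i ≠ 0 := by
        rintro rfl
        simp at hi
      simp [ArithmeticFunction.natCoe_apply, ArithmeticFunction.zeta_apply, this]
  simp only [ArithmeticFunction.add_apply, ArithmeticFunction.neg_apply]
  rw [h1]
  simp [ArithmeticFunction.log_apply, ArithmeticFunction.natCoe_apply, ArithmeticFunction.zeta_apply, hm0]
  ring

private lemma conv_eq : (ArithmeticFunction.moebius : ArithmeticFunction ℝ) * gg0 =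
    ArithmeticFunction.vonMangoldt + -(ArithmeticFunction.zeta : ArithmeticFunction ℝ)
      + (2 * Real.eulerMascheroniConstant) • (1 : ArithmeticFunction ℝ) := by
  unfold gg0
  rw [mul_add, mul_add, mul_neg, ← mul_assoc, ArithmeticFunction.coe_moebius_mul_coe_zeta,
    ArithmeticFunction.moebius_mul_log_eq_vonMangoldt, one_mul, mul_smul_comm,
    ArithmeticFunction.coe_moebius_mul_coe_zeta]

private noncomputable def SF (y : ℕ) : ℝ := ∑ m ∈ Icc 1 y, FF m

private noncomputable def MM (y : ℕ) : ℝ := ∑ n ∈ Icc 1 y, ((ArithmeticFunction.moebius n : ℤ) : ℝ)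

private noncomputable def SS (N : ℕ) : ℝ :=
  ∑ d ∈ Icc 1 N, ((ArithmeticFunction.moebius d : ℤ) : ℝ) * SF (N / d)

private lemma psi_eq (N : ℕ) (hN : 1 ≤ N) :
    ∑ n ∈ Icc 1 N, ArithmeticFunction.vonMangoldt n =
      N + SS N - 2 * Real.eulerMascheroniConstant := by
  have h := ArithmeticFunction.sum_Ioc_mul_eq_sum_sum
    (ArithmeticFunction.moebius : ArithmeticFunction ℝ) gg0 N
  have hI : ∀ y : ℕ, Ioc 0 y = Icc 1 y := fun y => by ext; simp [Nat.succ_le_iff]
  rw [conv_eq] at h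
  simp only [hI] at h
  have h1 : ∑ n ∈ Icc 1 N, (ArithmeticFunction.vonMangoldt +
      -(ArithmeticFunction.zeta : ArithmeticFunction ℝ)
      + (2 * Real.eulerMascheroniConstant) • (1 : ArithmeticFunction ℝ)) n =
      ∑ n ∈ Icc 1 N, ArithmeticFunction.vonMangoldt n - N
        + 2 * Real.eulerMascheroniConstant := by
    simp only [ArithmeticFunction.add_apply, ArithmeticFunction.neg_apply, Finset.sum_add_distrib,
      Finset.sum_neg_distrib]
    have h2 : ∑ n ∈ Icc 1 N, (ArithmeticFunction.zeta : ArithmeticFunction ℝ) n = N := by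
      rw [Finset.sum_congr rfl (g := fun _ => (1 : ℝ))]
      · simp
      · intro i hi
        have : i ≠ 0 := by
          have := (Finset.mem_Icc.mp hi).1
          omega
        simp [ArithmeticFunction.natCoe_apply, ArithmeticFunction.zeta_apply, this]
    have h3 : ∑ n ∈ Icc 1 N, ((2 * Real.eulerMascheroniConstant) •
        (1 : ArithmeticFunction ℝ)) n = 2 * Real.eulerMascheroniConstant := by
      rw [Finset.sum_eq_single 1]
      · simp
      · intro b _ hb
        simp [ArithmeticFunction.one_apply_ne hb]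
      · intro h
        exact absurd (Finset.mem_Icc.mpr ⟨le_refl 1, hN⟩) h
    rw [h2, h3]
    ring
  rw [h1] at h
  have h4 : ∑ n ∈ Icc 1 N, (ArithmeticFunction.moebius : ArithmeticFunction ℝ) n *
      ∑ m ∈ Icc 1 (N / n), gg0 m = SS N := by
    unfold SS SF
    refine Finset.sum_congr rfl fun d _ => ?_
    congr 1
    refine Finset.sum_congr rfl fun m hm => ?_
    exact gg0_apply (Finset.mem_Icc.mp hm).1
  rw [h4] at h
  linarith

private lemma SF_min (y K : ℕ) : SF (min y K) = ∑ m ∈ Icc 1 K, if m ≤ y then FF m else 0 := by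
  unfold SF
  rw [← Finset.sum_filter]
  refine Finset.sum_congr ?_ fun _ _ => rfl
  ext m
  simp only [mem_Icc, mem_filter, le_min_iff]
  tauto

private lemma main_part (N K : ℕ) :
    ∑ d ∈ Icc 1 N, ((ArithmeticFunction.moebius d : ℤ) : ℝ) * SF (min (N / d) K) =
      ∑ m ∈ Icc 1 K, FF m * MM (N / m) := by
  have h1 : ∀ d ∈ Icc 1 N, ((ArithmeticFunction.moebius d : ℤ) : ℝ) * SF (min (N / d) K) =
      ∑ m ∈ Icc 1 K, if m * d ≤ N then FF m * ((ArithmeticFunction.moebius d : ℤ) : ℝ) else 0 := by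
    intro d hd
    rw [SF_min, Finset.mul_sum]
    refine Finset.sum_congr rfl fun m _ => ?_
    have : m ≤ N / d ↔ m * d ≤ N := Nat.le_div_iff_mul_le (Finset.mem_Icc.mp hd).1
    by_cases h : m * d ≤ N
    · rw [if_pos h, if_pos (this.mpr h), mul_comm]
    · rw [if_neg h, if_neg (fun h' => h (this.mp h')), mul_zero]
  rw [Finset.sum_congr rfl h1, Finset.sum_comm]
  refine Finset.sum_congr rfl fun m hm => ?_
  unfold MM
  rw [← Finset.sum_filter, Finset.mul_sum]
  refine Finset.sum_congr ?_ fun _ _ => rfl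
  ext d
  have hm1 := (Finset.mem_Icc.mp hm).1
  have : d ≤ N / m ↔ m * d ≤ N := by
    rw [Nat.le_div_iff_mul_le hm1, mul_comm]
  simp only [mem_Icc, mem_filter, this]
  constructor
  · rintro ⟨⟨h1, h2⟩, h3⟩
    exact ⟨h1, h3⟩
  · rintro ⟨h1, h3⟩
    exact ⟨⟨h1, (Nat.le_mul_of_pos_left d hm1).trans h3⟩, h3⟩

private lemma sum_inv_sqrt (D : ℕ) : ∑ d ∈ Icc 1 D, 1 / Real.sqrt d ≤ 2 * Real.sqrt D := by
  induction D with
  | zero => simp
  | succ n ih =>
    rw [Finset.sum_Icc_succ_top (by omega)]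
    have hpos : 0 < Real.sqrt ((n + 1 : ℕ) : ℝ) := Real.sqrt_pos.mpr (by positivity)
    have h1 : Real.sqrt ((n : ℕ) : ℝ) ^ 2 = n := Real.sq_sqrt (by positivity)
    have h2 : Real.sqrt ((n + 1 : ℕ) : ℝ) ^ 2 = n + 1 := by
      rw [Real.sq_sqrt (by positivity)]; push_cast; ring
    have h3 : 1 / Real.sqrt ((n + 1 : ℕ) : ℝ) ≤
        2 * Real.sqrt ((n + 1 : ℕ) : ℝ) - 2 * Real.sqrt (n : ℝ) := by
      rw [div_le_iff₀ hpos]
      nlinarith [sq_nonneg (Real.sqrt ((n + 1 : ℕ) : ℝ) - Real.sqrt (n : ℝ))]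
    linarith

private lemma SF_bound : ∃ C : ℝ, 0 < C ∧ ∀ y : ℕ, |SF y| ≤ C * Real.sqrt y := by
  obtain ⟨C, hC, h⟩ := divsum
  exact ⟨C, hC, h⟩

private lemma abs_mu_le (d : ℕ) : |((ArithmeticFunction.moebius d : ℤ) : ℝ)| ≤ 1 := by
  have := ArithmeticFunction.abs_moebius_le_one (n := d)
  exact_mod_cast this

private lemma tail_part {C : ℝ} (hC : 0 < C) (hCF : ∀ y : ℕ, |SF y| ≤ C * Real.sqrt y)
    (N K : ℕ) (hK : 1 ≤ K) :
    |∑ d ∈ Icc 1 N, ((ArithmeticFunction.moebius d : ℤ) : ℝ) *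
      (SF (N / d) - SF (min (N / d) K))| ≤ 4 * C * N / Real.sqrt K := by
  have hKr : (0 : ℝ) < K := by exact_mod_cast hK
  have h1 : ∀ d ∈ Icc 1 N, |((ArithmeticFunction.moebius d : ℤ) : ℝ) *
      (SF (N / d) - SF (min (N / d) K))| ≤
      if d ≤ N / K then 2 * C * Real.sqrt N * (1 / Real.sqrt d) else 0 := by
    intro d hd
    have hd1 := (Finset.mem_Icc.mp hd).1
    by_cases h : N / d ≤ K
    · rw [min_eq_left h, sub_self, mul_zero, abs_zero]
      split_ifs
      · positivity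
      · exact le_refl 0
    · push Not at h
      have h2 : d ≤ N / K := by
        rw [Nat.le_div_iff_mul_le hK]
        have := (Nat.le_div_iff_mul_le hd1).mp h.le
        rwa [mul_comm]
      rw [if_pos h2, min_eq_right h.le, abs_mul]
      have h3 : |SF (N / d) - SF K| ≤ 2 * C * Real.sqrt ((N / d : ℕ) : ℝ) := by
        have ha := hCF (N / d)
        have hb := hCF K
        have hc : Real.sqrt (K : ℝ) ≤ Real.sqrt ((N / d : ℕ) : ℝ) :=
          Real.sqrt_le_sqrt (by exact_mod_cast h.le)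
        have hd := abs_sub (SF (N / d)) (SF K)
        have he : C * Real.sqrt (K : ℝ) ≤ C * Real.sqrt ((N / d : ℕ) : ℝ) :=
          mul_le_mul_of_nonneg_left hc hC.le
        linarith
      have h4 : Real.sqrt ((N / d : ℕ) : ℝ) ≤ Real.sqrt N * (1 / Real.sqrt d) := by
        rw [mul_one_div, ← Real.sqrt_div (by positivity)]
        exact Real.sqrt_le_sqrt Nat.cast_div_le
      calc |((ArithmeticFunction.moebius d : ℤ) : ℝ)| * |SF (N / d) - SF K|
          ≤ 1 * (2 * C * Real.sqrt ((N / d : ℕ) : ℝ)) :=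
            mul_le_mul (abs_mu_le d) h3 (abs_nonneg _) zero_le_one
        _ ≤ 2 * C * (Real.sqrt N * (1 / Real.sqrt d)) := by
            rw [one_mul]
            exact mul_le_mul_of_nonneg_left h4 (by positivity)
        _ = _ := by ring
  calc |∑ d ∈ Icc 1 N, ((ArithmeticFunction.moebius d : ℤ) : ℝ) *
      (SF (N / d) - SF (min (N / d) K))|
      ≤ ∑ d ∈ Icc 1 N, |((ArithmeticFunction.moebius d : ℤ) : ℝ) *
      (SF (N / d) - SF (min (N / d) K))| := Finset.abs_sum_le_sum_abs _ _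
    _ ≤ ∑ d ∈ Icc 1 N, if d ≤ N / K then 2 * C * Real.sqrt N * (1 / Real.sqrt d) else 0 :=
        Finset.sum_le_sum h1
    _ = ∑ d ∈ Icc 1 (N / K), 2 * C * Real.sqrt N * (1 / Real.sqrt d) := by
        rw [← Finset.sum_filter]
        refine Finset.sum_congr ?_ fun _ _ => rfl
        ext d
        simp only [mem_Icc, mem_filter]
        constructor
        · rintro ⟨⟨a, b⟩, c⟩
          exact ⟨a, c⟩
        · rintro ⟨a, c⟩
          exact ⟨⟨a, c.trans (Nat.div_le_self _ _)⟩, c⟩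
    _ = 2 * C * Real.sqrt N * ∑ d ∈ Icc 1 (N / K), (1 / Real.sqrt d) := by
        rw [Finset.mul_sum]
    _ ≤ 2 * C * Real.sqrt N * (2 * Real.sqrt ((N / K : ℕ) : ℝ)) :=
        mul_le_mul_of_nonneg_left (sum_inv_sqrt _) (by positivity)
    _ ≤ 2 * C * Real.sqrt N * (2 * (Real.sqrt N / Real.sqrt K)) := by
        refine mul_le_mul_of_nonneg_left ?_ (by positivity)
        rw [← Real.sqrt_div (by positivity)]
        exact mul_le_mul_of_nonneg_left (Real.sqrt_le_sqrt Nat.cast_div_le) (by norm_num)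
    _ = 4 * C * N / Real.sqrt K := by
        have : Real.sqrt (N : ℝ) * Real.sqrt N = N := Real.mul_self_sqrt (by positivity)
        calc 2 * C * Real.sqrt N * (2 * (Real.sqrt N / Real.sqrt K))
            = 4 * C * (Real.sqrt N * Real.sqrt N) / Real.sqrt K := by ring
          _ = _ := by rw [this]

private lemma MM_tendsto : Tendsto (fun N : ℕ => MM N / N) atTop (𝓝 0) := by
  have h := mu_ap 1 0 (le_refl 1)
  refine h.congr fun N => ?_
  unfold MM
  congr 1
  refine Finset.sum_congr rfl fun n _ => ?_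
  rw [if_pos (Nat.mod_one n)]
  rfl

private lemma MM_div_tendsto (m : ℕ) (hm : 1 ≤ m) :
    Tendsto (fun N : ℕ => MM (N / m) / N) atTop (𝓝 0) := by
  have h1 : Tendsto (fun N : ℕ => N / m) atTop atTop :=
    Nat.tendsto_div_const_atTop (by omega)
  have h2 : Tendsto (fun N : ℕ => |MM (N / m) / ((N / m : ℕ) : ℝ)|) atTop (𝓝 0) := by
    have := (MM_tendsto.comp h1).abs
    simpa using this
  refine squeeze_zero_norm (fun N => ?_) h2
  rw [Real.norm_eq_abs, abs_div, abs_div]
  rcases Nat.eq_zero_or_pos (N / m) with h0 | h0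
  · rw [h0]
    simp [MM]
  · have h3 : (0 : ℝ) < ((N / m : ℕ) : ℝ) := by exact_mod_cast h0
    have h4 : ((N / m : ℕ) : ℝ) ≤ (N : ℝ) := by exact_mod_cast Nat.div_le_self N m
    rw [abs_of_pos h3, abs_of_pos (h3.trans_le h4)]
    exact div_le_div_of_nonneg_left (abs_nonneg _) h3 h4

private lemma SS_tendsto : Tendsto (fun N : ℕ => SS N / N) atTop (𝓝 0) := by
  obtain ⟨C, hC, hCF⟩ := SF_bound
  rw [Metric.tendsto_atTop]
  intro ε hε
  obtain ⟨K, hK⟩ := exists_nat_gt ((8 * C / ε) ^ 2)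
  have hKr : (0 : ℝ) < K := lt_of_le_of_lt (sq_nonneg _) hK
  have hK1 : 1 ≤ K := by exact_mod_cast hKr
  have hsq : 8 * C / ε < Real.sqrt K := by
    rw [show 8 * C / ε = Real.sqrt ((8 * C / ε) ^ 2) from (Real.sqrt_sq (by positivity)).symm]
    exact Real.sqrt_lt_sqrt (sq_nonneg _) hK
  have hsqpos : 0 < Real.sqrt K := Real.sqrt_pos.mpr hKr
  have hsmall : 4 * C / Real.sqrt K < ε / 2 := by
    rw [div_lt_iff₀ hsqpos]
    rw [div_lt_iff₀ hε] at hsq
    linarith
  have hfin : Tendsto (fun N : ℕ => ∑ m ∈ Icc 1 K, FF m * (MM (N / m) / N)) atTop (𝓝 0) := by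
    have : Tendsto (fun N : ℕ => ∑ m ∈ Icc 1 K, FF m * (MM (N / m) / N)) atTop
        (𝓝 (∑ m ∈ Icc 1 K, FF m * 0)) :=
      tendsto_finsetSum _ fun m hm => (MM_div_tendsto m (Finset.mem_Icc.mp hm).1).const_mul _
    simpa using this
  rw [Metric.tendsto_atTop] at hfin
  obtain ⟨N₀, hN₀⟩ := hfin (ε / 2) (by positivity)
  refine ⟨max N₀ 1, fun N hN => ?_⟩
  have hN1 : 1 ≤ N := le_of_max_le_right hN
  have hNr : (0 : ℝ) < N := by exact_mod_cast hN1
  have h1 := hN₀ N (le_of_max_le_left hN)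
  rw [dist_zero_right, Real.norm_eq_abs] at h1 ⊢
  have hsplit : SS N = ∑ m ∈ Icc 1 K, FF m * MM (N / m) +
      ∑ d ∈ Icc 1 N, ((ArithmeticFunction.moebius d : ℤ) : ℝ) *
      (SF (N / d) - SF (min (N / d) K)) := by
    rw [← main_part N K, ← Finset.sum_add_distrib]
    unfold SS
    refine Finset.sum_congr rfl fun d _ => ?_
    ring
  have h2 : (∑ m ∈ Icc 1 K, FF m * MM (N / m)) / N = ∑ m ∈ Icc 1 K, FF m * (MM (N / m) / N) := by
    rw [Finset.sum_div]
    refine Finset.sum_congr rfl fun m _ => ?_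
    rw [mul_div_assoc]
  have h3 := tail_part hC hCF N K hK1
  rw [hsplit, add_div, h2]
  have h4 : |(∑ d ∈ Icc 1 N, ((ArithmeticFunction.moebius d : ℤ) : ℝ) *
      (SF (N / d) - SF (min (N / d) K))) / N| ≤ 4 * C / Real.sqrt K := by
    rw [abs_div, abs_of_pos hNr, div_le_iff₀ hNr]
    calc _ ≤ _ := h3
      _ = _ := by ring
  calc |∑ m ∈ Icc 1 K, FF m * (MM (N / m) / N) +
        (∑ d ∈ Icc 1 N, ((ArithmeticFunction.moebius d : ℤ) : ℝ) *
        (SF (N / d) - SF (min (N / d) K))) / N|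
      ≤ |∑ m ∈ Icc 1 K, FF m * (MM (N / m) / N)| +
        |(∑ d ∈ Icc 1 N, ((ArithmeticFunction.moebius d : ℤ) : ℝ) *
        (SF (N / d) - SF (min (N / d) K))) / N| := abs_add_le _ _
    _ < ε := by linarith

end PsiOneAux

open PsiOneAux in
/-- With `F(m) = log m - τ(m) + 2γ`: `∑_{n ≤ x} (Λ(n) - 1) = ∑_{dm ≤ x} μ(d) F(m) - 2γ`.
Hyperbola with a fixed parameter `K`, `divsum`, and `∑ μ = o(x)` (`mu_ap 1 0`). -/
theorem psi_one : Tendsto (fun N : ℕ => (∑ n ∈ Icc 1 N, ArithmeticFunction.vonMangoldt n) / (N : ℝ))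
    atTop (𝓝 1) := by
  have h1 : Tendsto (fun N : ℕ => 1 + SS N / N - 2 * Real.eulerMascheroniConstant / N)
      atTop (𝓝 (1 + 0 - 0)) :=
    (tendsto_const_nhds.add SS_tendsto).sub (tendsto_const_div_atTop_nhds_zero_nat _)
  have h2 : (1 + 0 - 0 : ℝ) = 1 := by norm_num
  rw [h2] at h1
  refine h1.congr' ?_
  filter_upwards [eventually_ge_atTop 1] with N hN
  have hNr : (0 : ℝ) < N := by exact_mod_cast hN
  rw [psi_eq N hN]
  field_simp

end Pool.Agent.Lib.MP_629a14_nt.Rob
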