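import Pool.Agent.Lib.MP_629a14_nt.Rob.PsiChi
import Pool.Agent.Lib.MP_629a14_nt.Rob.PsiOne

/-! The prime number theorem in arithmetic progressions. -/

set_option autoImplicit false

namespace Pool.Agent.Lib.MP_629a14_nt.Rob

open Finset

open Filter Topology

namespace PiAP

theorem log_pow_div (k : ℕ) : Tendsto (fun N : ℕ => Real.log N ^ k / (N : ℝ)) atTop (𝓝 0) := by
  have h1 := (Real.isLittleO_pow_log_id_atTop (n := k)).tendsto_div_nhds_zero
  have h2 := h1.comp tendsto_natCast_atTop_atTop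
  exact h2

theorem natLog_le (N : ℕ) (hN : 1 ≤ N) : (Nat.log 2 N : ℝ) ≤ 2 * Real.log N := by
  have h1 : 2 ^ Nat.log 2 N ≤ N := Nat.pow_log_le_self 2 (by omega)
  have h2 : ((2 : ℝ)) ^ Nat.log 2 N ≤ N := by exact_mod_cast h1
  have h3 := Real.log_le_log (by positivity) h2
  rw [Real.log_pow] at h3
  have h4 : (1 : ℝ) / 2 ≤ Real.log 2 := by
    have := Real.log_two_gt_d9
    linarith
  have h5 : (0 : ℝ) ≤ Nat.log 2 N := by positivity
  nlinarith

theorem bad_le (q N : ℕ) (hq : 1 ≤ q) (hN : 1 ≤ N) :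
    ∑ n ∈ (Icc 1 N).filter (fun n => ¬ Nat.Coprime n q), ArithmeticFunction.vonMangoldt n ≤
      q.primeFactors.card * ((Nat.log 2 N + 1) * Real.log N) := by
  classical
  rw [← Finset.sum_filter_ne_zero]
  set S := ((Icc 1 N).filter (fun n => ¬ Nat.Coprime n q)).filter
    (fun n => ArithmeticFunction.vonMangoldt n ≠ 0) with hS
  have hlog : 0 ≤ Real.log N := Real.log_natCast_nonneg N
  have h1 : ∀ n ∈ S, ArithmeticFunction.vonMangoldt n ≤ Real.log N := by
    intro n hn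
    rw [hS, mem_filter, mem_filter, mem_Icc] at hn
    refine ArithmeticFunction.vonMangoldt_le_log.trans ?_
    exact Real.log_le_log (by exact_mod_cast hn.1.1.1) (by exact_mod_cast hn.1.1.2)
  have h2 : S ⊆ (q.primeFactors ×ˢ range (Nat.log 2 N + 1)).image (fun v => v.1 ^ v.2) := by
    intro n hn
    rw [hS, mem_filter, mem_filter, mem_Icc] at hn
    obtain ⟨⟨⟨hn1, hn2⟩, hn3⟩, hn4⟩ := hn
    rw [ArithmeticFunction.vonMangoldt_ne_zero_iff, isPrimePow_nat_iff] at hn4
    obtain ⟨p, k, hp, hk, rfl⟩ := hn4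
    rw [mem_image]
    refine ⟨(p, k), ?_, rfl⟩
    rw [mem_product, mem_range, Nat.mem_primeFactors]
    refine ⟨⟨hp, ?_, by omega⟩, ?_⟩
    · by_contra h
      exact hn3 ((Nat.coprime_pow_left_iff hk p q).2 ((Nat.Prime.coprime_iff_not_dvd hp).2 h))
    · have h3 : 2 ^ k ≤ N := (Nat.pow_le_pow_left hp.two_le k).trans hn2
      have h4 := Nat.le_log_of_pow_le (by norm_num) h3
      show k < Nat.log 2 N + 1
      omega
  have h3 : (S.card : ℝ) ≤ q.primeFactors.card * (Nat.log 2 N + 1) := by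
    have := (Finset.card_le_card h2).trans Finset.card_image_le
    rw [card_product, card_range] at this
    exact_mod_cast this
  calc ∑ n ∈ S, ArithmeticFunction.vonMangoldt n ≤ ∑ n ∈ S, Real.log N := Finset.sum_le_sum h1
    _ = S.card * Real.log N := by rw [sum_const, nsmul_eq_mul]
    _ ≤ (q.primeFactors.card * (Nat.log 2 N + 1)) * Real.log N :=
        mul_le_mul_of_nonneg_right h3 hlog
    _ = q.primeFactors.card * ((Nat.log 2 N + 1) * Real.log N) := by ring

/-- the principal character -/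
theorem psi_one_char (q : ℕ) [NeZero q] :
    Tendsto (fun N : ℕ => (∑ n ∈ Icc 1 N, (1 : DirichletCharacter ℂ q) (n : ZMod q) *
      (ArithmeticFunction.vonMangoldt n : ℂ)) / (N : ℂ)) atTop (𝓝 1) := by
  classical
  have hq : 1 ≤ q := Nat.one_le_iff_ne_zero.2 (NeZero.ne q)
  have hbad : Tendsto (fun N : ℕ => (∑ n ∈ (Icc 1 N).filter (fun n => ¬ Nat.Coprime n q),
      ArithmeticFunction.vonMangoldt n) / (N : ℝ)) atTop (𝓝 0) := by
    have h1 : Tendsto (fun N : ℕ => (q.primeFactors.card : ℝ) *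
        (2 * (Real.log N ^ 2 / (N : ℝ)) + Real.log N ^ 1 / (N : ℝ))) atTop (𝓝 0) := by
      have h2 := (((log_pow_div 2).const_mul 2).add (log_pow_div 1)).const_mul
        (q.primeFactors.card : ℝ)
      simpa using h2
    refine squeeze_zero' (Filter.Eventually.of_forall fun N => ?_) ?_ h1
    · exact div_nonneg (Finset.sum_nonneg fun n _ => ArithmeticFunction.vonMangoldt_nonneg)
        (Nat.cast_nonneg N)
    · filter_upwards [eventually_ge_atTop 1] with N hN
      have hN' : (0 : ℝ) < N := by exact_mod_cast hN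
      rw [div_le_iff₀ hN']
      refine (bad_le q N hq hN).trans ?_
      have h3 := natLog_le N hN
      have hlog : 0 ≤ Real.log N := Real.log_natCast_nonneg N
      have h4 : (q.primeFactors.card : ℝ) * (2 * (Real.log N ^ 2 / (N : ℝ)) +
          Real.log N ^ 1 / (N : ℝ)) * N = q.primeFactors.card *
          ((2 * Real.log N + 1) * Real.log N) := by
        field_simp
      rw [h4]
      refine mul_le_mul_of_nonneg_left ?_ (by positivity)
      exact mul_le_mul_of_nonneg_right (by linarith) hlog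
  have hreal : Tendsto (fun N : ℕ => (∑ n ∈ Icc 1 N, ArithmeticFunction.vonMangoldt n) / (N : ℝ) -
      (∑ n ∈ (Icc 1 N).filter (fun n => ¬ Nat.Coprime n q),
      ArithmeticFunction.vonMangoldt n) / (N : ℝ)) atTop (𝓝 (1 - 0)) := psi_one.sub hbad
  rw [sub_zero] at hreal
  have hc := (Complex.continuous_ofReal.tendsto (1 : ℝ)).comp hreal
  rw [Complex.ofReal_one] at hc
  refine hc.congr fun N => ?_
  rw [Function.comp_apply, ← sub_div, Complex.ofReal_div, Complex.ofReal_natCast]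
  congr 1
  have h5 := Finset.sum_filter_add_sum_filter_not (Icc 1 N) (fun n => Nat.Coprime n q)
    (fun n => ArithmeticFunction.vonMangoldt n)
  have h6 : (∑ n ∈ Icc 1 N, ArithmeticFunction.vonMangoldt n) -
      (∑ n ∈ (Icc 1 N).filter (fun n => ¬ Nat.Coprime n q), ArithmeticFunction.vonMangoldt n) =
      ∑ n ∈ (Icc 1 N).filter (fun n => Nat.Coprime n q), ArithmeticFunction.vonMangoldt n := by
    linarith
  rw [h6, Finset.sum_filter, Complex.ofReal_sum]
  refine Finset.sum_congr rfl fun n _ => ?_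
  by_cases h : Nat.Coprime n q
  · rw [if_pos h, MulChar.one_apply ((ZMod.isUnit_iff_coprime n q).2 h), one_mul]
  · rw [if_neg h, MulChar.map_nonunit _ (fun h' => h ((ZMod.isUnit_iff_coprime n q).1 h')),
      zero_mul, Complex.ofReal_zero]

/-- from `θ` to `π` -/
theorem theta_ap (q b : ℕ) (hq : 1 ≤ q) (hpsi : Tendsto (fun N : ℕ =>
      (∑ n ∈ (Icc 1 N).filter (fun n => n ≡ b [MOD q]),
      ArithmeticFunction.vonMangoldt n) / (N : ℝ)) atTop (𝓝 (1 / (q.totient : ℝ)))) :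
    Tendsto (fun N : ℕ => (∑ n ∈ (Icc 1 N).filter (fun n => n.Prime ∧ n ≡ b [MOD q]),
      Real.log n) / (N : ℝ)) atTop (𝓝 (1 / (q.totient : ℝ))) := by
  classical
  have hdiff : ∀ N : ℕ, 1 ≤ N → 0 ≤ (∑ n ∈ (Icc 1 N).filter (fun n => n ≡ b [MOD q]),
      ArithmeticFunction.vonMangoldt n) -
      (∑ n ∈ (Icc 1 N).filter (fun n => n.Prime ∧ n ≡ b [MOD q]), Real.log n) ∧
      (∑ n ∈ (Icc 1 N).filter (fun n => n ≡ b [MOD q]), ArithmeticFunction.vonMangoldt n) -
      (∑ n ∈ (Icc 1 N).filter (fun n => n.Prime ∧ n ≡ b [MOD q]), Real.log n) ≤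
      2 * Real.sqrt N * Real.log N := by
    intro N hN
    have h1 : (∑ n ∈ (Icc 1 N).filter (fun n => n ≡ b [MOD q]), ArithmeticFunction.vonMangoldt n) -
        (∑ n ∈ (Icc 1 N).filter (fun n => n.Prime ∧ n ≡ b [MOD q]), Real.log n) =
        ∑ n ∈ (Icc 1 N).filter (fun n => n ≡ b [MOD q] ∧ ¬ n.Prime),
          ArithmeticFunction.vonMangoldt n := by
      rw [sum_filter, sum_filter, sum_filter, ← sum_sub_distrib]
      refine sum_congr rfl fun n _ => ?_
      by_cases h2 : n ≡ b [MOD q]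
      · by_cases h3 : n.Prime
        · rw [if_pos h2, if_pos ⟨h3, h2⟩, if_neg (fun h => h.2 h3),
            ArithmeticFunction.vonMangoldt_apply_prime h3, sub_self]
        · rw [if_pos h2, if_neg (fun h => h3 h.1), if_pos ⟨h2, h3⟩, sub_zero]
      · rw [if_neg h2, if_neg (fun h => h2 h.2), if_neg (fun h => h2 h.1), sub_zero]
    rw [h1]
    refine ⟨Finset.sum_nonneg fun n _ => ArithmeticFunction.vonMangoldt_nonneg, ?_⟩
    have h4 := Chebyshev.psi_sub_theta_le (x := (N : ℝ)) (by exact_mod_cast hN)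
    rw [Chebyshev.psi_sub_theta_eq_sum_not_prime, Nat.floor_natCast] at h4
    refine le_trans ?_ h4
    refine Finset.sum_le_sum_of_subset_of_nonneg ?_
      fun n _ _ => ArithmeticFunction.vonMangoldt_nonneg
    intro n hn
    rw [mem_filter, mem_Icc] at hn
    rw [mem_filter, mem_Ioc]
    exact ⟨⟨by omega, hn.1.2⟩, hn.2.2⟩
  have hsm : Tendsto (fun N : ℕ => 2 * Real.sqrt N * Real.log N / (N : ℝ)) atTop (𝓝 0) := by
    have h1 := (isLittleO_log_rpow_atTop (r := 1 / 2) (by norm_num)).tendsto_div_nhds_zero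
    have h2 := (h1.comp tendsto_natCast_atTop_atTop).const_mul 2
    rw [mul_zero] at h2
    refine h2.congr' ?_
    filter_upwards [eventually_ge_atTop 1] with N hN
    have hN' : (0 : ℝ) < N := by exact_mod_cast hN
    rw [Function.comp_apply, ← Real.sqrt_eq_rpow]
    have h3 : 0 < Real.sqrt N := Real.sqrt_pos.2 hN'
    have h4 : Real.sqrt N * Real.sqrt N = N := Real.mul_self_sqrt hN'.le
    rw [← mul_div_assoc, div_eq_div_iff h3.ne' hN'.ne']
    linear_combination (-(2 * Real.log N)) * h4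
  have h5 : Tendsto (fun N : ℕ => ((∑ n ∈ (Icc 1 N).filter (fun n => n ≡ b [MOD q]),
      ArithmeticFunction.vonMangoldt n) -
      (∑ n ∈ (Icc 1 N).filter (fun n => n.Prime ∧ n ≡ b [MOD q]), Real.log n)) / (N : ℝ))
      atTop (𝓝 0) := by
    refine squeeze_zero' ?_ ?_ hsm
    · filter_upwards [eventually_ge_atTop 1] with N hN
      exact div_nonneg (hdiff N hN).1 (Nat.cast_nonneg N)
    · filter_upwards [eventually_ge_atTop 1] with N hN
      have hN' : (0 : ℝ) < N := by exact_mod_cast hN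
      exact div_le_div_of_nonneg_right (hdiff N hN).2 hN'.le
  have h6 := hpsi.sub h5
  rw [sub_zero] at h6
  refine h6.congr fun N => ?_
  rw [← sub_div, sub_sub_cancel]

theorem card_le_real (N : ℕ) (X : ℝ) (hX : 0 ≤ X) :
    (((Icc 1 N).filter (fun n : ℕ => (n : ℝ) ≤ X)).card : ℝ) ≤ X := by
  have h1 : (Icc 1 N).filter (fun n : ℕ => (n : ℝ) ≤ X) ⊆ Icc 1 ⌊X⌋₊ := by
    intro n hn
    rw [mem_filter, mem_Icc] at hn
    rw [mem_Icc]
    exact ⟨hn.1.1, Nat.le_floor hn.2⟩
  have h2 := Finset.card_le_card h1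
  rw [Nat.card_Icc, Nat.add_sub_cancel] at h2
  have h3 : (((Icc 1 N).filter (fun n : ℕ => (n : ℝ) ≤ X)).card : ℝ) ≤ (⌊X⌋₊ : ℝ) := by
    exact_mod_cast h2
  exact h3.trans (Nat.floor_le hX)

theorem pi_upper (S : Finset ℕ) (N : ℕ) (hN : 1 ≤ N) (hS : S ⊆ Icc 1 N) (η : ℝ) (hη0 : 0 < η)
    (hη1 : η < 1) :
    (S.card : ℝ) * Real.log N ≤ (∑ n ∈ S, Real.log n) / (1 - η) +
      (N : ℝ) ^ (1 - η) * Real.log N := by
  classical
  have hN' : (1 : ℝ) ≤ N := by exact_mod_cast hN
  have hlog : 0 ≤ Real.log N := Real.log_natCast_nonneg N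
  have h1η : 0 < 1 - η := by linarith
  have hX : 0 ≤ (N : ℝ) ^ (1 - η) := by positivity
  have h1 : ∀ n ∈ S, Real.log N ≤ Real.log n / (1 - η) +
      (if (n : ℝ) ≤ (N : ℝ) ^ (1 - η) then Real.log N else 0) := by
    intro n hn
    have hn' := hS hn
    rw [mem_Icc] at hn'
    by_cases h : (n : ℝ) ≤ (N : ℝ) ^ (1 - η)
    · rw [if_pos h]
      have : 0 ≤ Real.log n / (1 - η) := div_nonneg (Real.log_natCast_nonneg n) h1η.le
      linarith
    · rw [if_neg h, add_zero, le_div_iff₀ h1η]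
      push Not at h
      have h2 := Real.log_le_log (by positivity) h.le
      rw [Real.log_rpow (by linarith)] at h2
      linarith
  have h2 : (∑ n ∈ S, (if (n : ℝ) ≤ (N : ℝ) ^ (1 - η) then Real.log N else 0)) ≤
      (N : ℝ) ^ (1 - η) * Real.log N := by
    rw [← Finset.sum_filter, Finset.sum_const, nsmul_eq_mul]
    refine mul_le_mul_of_nonneg_right ?_ hlog
    refine le_trans ?_ (card_le_real N _ hX)
    exact_mod_cast Finset.card_le_card (Finset.filter_subset_filter _ hS)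
  calc (S.card : ℝ) * Real.log N = ∑ n ∈ S, Real.log N := by rw [sum_const, nsmul_eq_mul]
    _ ≤ ∑ n ∈ S, (Real.log n / (1 - η) +
        (if (n : ℝ) ≤ (N : ℝ) ^ (1 - η) then Real.log N else 0)) := Finset.sum_le_sum h1
    _ = (∑ n ∈ S, Real.log n) / (1 - η) +
        ∑ n ∈ S, (if (n : ℝ) ≤ (N : ℝ) ^ (1 - η) then Real.log N else 0) := by
        rw [Finset.sum_add_distrib, Finset.sum_div]
    _ ≤ _ := by linarith

theorem rpow_log (η : ℝ) (hη0 : 0 < η) :
    Tendsto (fun N : ℕ => (N : ℝ) ^ (1 - η) * Real.log N / (N : ℝ)) atTop (𝓝 0) := by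
  have h1 := (isLittleO_log_rpow_atTop (r := η) hη0).tendsto_div_nhds_zero
  have h2 := h1.comp tendsto_natCast_atTop_atTop
  refine h2.congr' ?_
  filter_upwards [eventually_ge_atTop 1] with N hN
  have hN' : (0 : ℝ) < N := by exact_mod_cast hN
  rw [Function.comp_apply, Real.rpow_sub hN', Real.rpow_one]
  have h3 : 0 < (N : ℝ) ^ η := by positivity
  field_simp

theorem pi_of_theta (c : ℝ) (hc : 0 ≤ c) (S : ℕ → Finset ℕ) (hS : ∀ N, S N ⊆ Icc 1 N)
    (hθ : Tendsto (fun N : ℕ => (∑ n ∈ S N, Real.log n) / (N : ℝ)) atTop (𝓝 c)) :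
    Tendsto (fun N : ℕ => ((S N).card : ℝ) * Real.log N / (N : ℝ)) atTop (𝓝 c) := by
  rw [tendsto_order]
  constructor
  · intro l hl
    filter_upwards [(tendsto_order.1 hθ).1 l hl, eventually_ge_atTop 1] with N h1 hN
    have hN' : (0 : ℝ) < N := by exact_mod_cast hN
    refine h1.trans_le (div_le_div_of_nonneg_right ?_ hN'.le)
    rw [← nsmul_eq_mul, ← Finset.sum_const]
    refine Finset.sum_le_sum fun n hn => ?_
    have hn' := hS N hn
    rw [mem_Icc] at hn'
    exact Real.log_le_log (by exact_mod_cast hn'.1) (by exact_mod_cast hn'.2)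
  · intro r hr
    have hr0 : 0 < r := hc.trans_lt hr
    have hcr : c / r < 1 := (div_lt_one hr0).2 hr
    have hcr0 : 0 ≤ c / r := by positivity
    obtain ⟨η, hη⟩ : ∃ η, η = (1 - c / r) / 2 := ⟨_, rfl⟩
    have hη0 : 0 < η := by rw [hη]; linarith
    have hη1 : η < 1 := by rw [hη]; linarith
    have h1η : 0 < 1 - η := by linarith
    have hlim : c / (1 - η) < r := by
      rw [div_lt_iff₀ h1η]
      have h1 : c / r < 1 - η := by rw [hη]; linarith
      rw [div_lt_iff₀ hr0] at h1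
      linarith
    have h2 : Tendsto (fun N : ℕ => (∑ n ∈ S N, Real.log n) / (N : ℝ) / (1 - η) +
        (N : ℝ) ^ (1 - η) * Real.log N / (N : ℝ)) atTop (𝓝 (c / (1 - η) + 0)) :=
      (hθ.div_const _).add (rpow_log η hη0)
    rw [add_zero] at h2
    filter_upwards [(tendsto_order.1 h2).2 r hlim, eventually_ge_atTop 1] with N h3 hN
    have hN' : (0 : ℝ) < N := by exact_mod_cast hN
    refine lt_of_le_of_lt ?_ h3
    have h4 := pi_upper (S N) N hN (hS N) η hη0 hη1
    have h5 := div_le_div_of_nonneg_right h4 hN'.le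
    refine h5.trans (le_of_eq ?_)
    rw [add_div]
    ring

end PiAP

/-- Orthogonality of characters; for the principal character only the prime powers dividing a power
of `q` are lost. -/
theorem psi_ap (q b : ℕ) (hq : 1 ≤ q) (hb : Nat.Coprime b q) :
    Tendsto (fun N : ℕ => (∑ n ∈ (Icc 1 N).filter (fun n => n ≡ b [MOD q]),
      ArithmeticFunction.vonMangoldt n) / (N : ℝ)) atTop (𝓝 (1 / (q.totient : ℝ))) := by
  classical
  have : NeZero q := ⟨by omega⟩
  have hu : IsUnit (b : ZMod q) := (ZMod.isUnit_iff_coprime b q).2 hb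
  have hchar : ∀ χ : DirichletCharacter ℂ q, Tendsto (fun N : ℕ => (∑ n ∈ Icc 1 N,
      χ (n : ZMod q) * (ArithmeticFunction.vonMangoldt n : ℂ)) / (N : ℂ)) atTop
      (𝓝 (if χ = 1 then 1 else 0)) := by
    intro χ
    by_cases h : χ = 1
    · subst h
      rw [if_pos rfl]
      exact PiAP.psi_one_char q
    · rw [if_neg h]
      exact psi_chi χ h
  have hsum : Tendsto (fun N : ℕ => (q.totient : ℂ)⁻¹ * ∑ χ : DirichletCharacter ℂ q,
      χ (b : ZMod q)⁻¹ * ((∑ n ∈ Icc 1 N, χ (n : ZMod q) *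
        (ArithmeticFunction.vonMangoldt n : ℂ)) / (N : ℂ))) atTop
      (𝓝 ((q.totient : ℂ)⁻¹ * ∑ χ : DirichletCharacter ℂ q, χ (b : ZMod q)⁻¹ *
        (if χ = 1 then 1 else 0))) :=
    (tendsto_finsetSum _ fun χ _ => (hchar χ).const_mul _).const_mul _
  have hlim : (q.totient : ℂ)⁻¹ * ∑ χ : DirichletCharacter ℂ q, χ (b : ZMod q)⁻¹ *
        (if χ = 1 then 1 else 0) = ((1 / (q.totient : ℝ) : ℝ) : ℂ) := by
    simp only [mul_ite, mul_one, mul_zero, Finset.sum_ite_eq', Finset.mem_univ, if_true]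
    rw [MulChar.one_apply]
    · push_cast
      ring
    · obtain ⟨u, hu'⟩ := hu
      rw [← hu', ZMod.inv_coe_unit]
      exact u⁻¹.isUnit
  have heq : ∀ N : ℕ, (q.totient : ℂ)⁻¹ * ∑ χ : DirichletCharacter ℂ q,
      χ (b : ZMod q)⁻¹ * ((∑ n ∈ Icc 1 N, χ (n : ZMod q) *
        (ArithmeticFunction.vonMangoldt n : ℂ)) / (N : ℂ)) =
      (((∑ n ∈ (Icc 1 N).filter (fun n => n ≡ b [MOD q]),
      ArithmeticFunction.vonMangoldt n) / (N : ℝ) : ℝ) : ℂ) := by
    intro N
    have h1 : (∑ n ∈ (Icc 1 N).filter (fun n => n ≡ b [MOD q]),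
        ArithmeticFunction.vonMangoldt n) =
        ∑ n ∈ Icc 1 N, ArithmeticFunction.vonMangoldt.residueClass (b : ZMod q) n := by
      rw [sum_filter]
      refine sum_congr rfl fun n _ => ?_
      rw [ArithmeticFunction.vonMangoldt.residueClass, Set.indicator_apply]
      by_cases h : n ≡ b [MOD q]
      · rw [if_pos h, if_pos]
        exact (ZMod.natCast_eq_natCast_iff n b q).2 h
      · rw [if_neg h, if_neg]
        exact fun h' => h ((ZMod.natCast_eq_natCast_iff n b q).1 h')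
    rw [h1, Complex.ofReal_div, Complex.ofReal_sum, Complex.ofReal_natCast]
    simp only [ArithmeticFunction.vonMangoldt.residueClass_apply hu]
    rw [← Finset.mul_sum, Finset.sum_comm, mul_div_assoc, Finset.sum_div]
    congr 1
    refine sum_congr rfl fun χ _ => ?_
    rw [← mul_div_assoc, Finset.mul_sum]
    congr 1
    refine sum_congr rfl fun n _ => ?_
    ring
  rw [hlim] at hsum
  have h2 : Tendsto (fun N : ℕ => (((∑ n ∈ (Icc 1 N).filter (fun n => n ≡ b [MOD q]),
      ArithmeticFunction.vonMangoldt n) / (N : ℝ) : ℝ) : ℂ)) atTop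
      (𝓝 ((1 / (q.totient : ℝ) : ℝ) : ℂ)) := hsum.congr heq
  have h3 := (Complex.continuous_re.tendsto _).comp h2
  simpa only [Function.comp_def, Complex.ofReal_re] using h3

/-- Prime powers contribute `O(√N log N)`; `θ ≤ π log N` and
`π(N) log N ≤ θ(N)/(1-η) + N^(1-η) log N`. -/
theorem pi_ap (q b : ℕ) (hq : 1 ≤ q) (hb : Nat.Coprime b q) :
    Tendsto (fun N : ℕ => (((Icc 1 N).filter (fun n => n.Prime ∧ n ≡ b [MOD q])).card : ℝ) *
      Real.log N / (N : ℝ)) atTop (𝓝 (1 / (q.totient : ℝ))) :=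
  PiAP.pi_of_theta _ (by positivity) _ (fun N => Finset.filter_subset _ _)
    (PiAP.theta_ap q b hq (psi_ap q b hq hb))

/-- Uniform version with the constant weight `log N` for all `x ≤ N`: for `x ≥ η N` from `pi_ap`
(`log N / log x → 1`), for smaller `x` by monotonicity. -/
theorem pi_unif (q b : ℕ) (hq : 1 ≤ q) (hb : Nat.Coprime b q) (ε : ℝ) (hε : 0 < ε) :
    ∃ N₀ : ℕ, ∀ N : ℕ, N₀ ≤ N → ∀ x : ℕ, x ≤ N →
      |Real.log N * (((Icc 1 x).filter (fun n => n.Prime ∧ n ≡ b [MOD q])).card : ℝ) -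
        (x : ℝ) / q.totient| ≤ ε * N := by
  classical
  obtain ⟨f, hf⟩ : ∃ f : ℕ → ℝ, ∀ x, f x =
      (((Icc 1 x).filter (fun n => n.Prime ∧ n ≡ b [MOD q])).card : ℝ) := ⟨_, fun _ => rfl⟩
  have hφ : (1 : ℝ) ≤ q.totient := by
    have := Nat.totient_pos.2 (show 0 < q by omega)
    exact_mod_cast this
  obtain ⟨c, hc⟩ : ∃ c : ℝ, c = 1 / (q.totient : ℝ) := ⟨_, rfl⟩
  have hc0 : 0 ≤ c := by rw [hc]; positivity
  have hc1 : c ≤ 1 := by
    rw [hc, div_le_one (by linarith)]
    exact hφ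
  have hf0 : ∀ x, 0 ≤ f x := fun x => by rw [hf]; positivity
  have hfx : ∀ x, f x ≤ x := by
    intro x
    rw [hf]
    have h1 := Finset.card_filter_le (Icc 1 x) (fun n => n.Prime ∧ n ≡ b [MOD q])
    rw [Nat.card_Icc, Nat.add_sub_cancel] at h1
    exact_mod_cast h1
  have hlim : Tendsto (fun N : ℕ => f N * Real.log N / (N : ℝ)) atTop (𝓝 c) := by
    rw [hc]
    refine (pi_ap q b hq hb).congr fun N => ?_
    rw [hf]
  -- `ε₁ = min (ε / 2) 1`
  obtain ⟨ε₁, hε₁, hε₁0, hε₁1⟩ : ∃ ε₁ : ℝ, 2 * ε₁ ≤ ε ∧ 0 < ε₁ ∧ ε₁ ≤ 1 :=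
    ⟨min (ε / 2) 1, by have := min_le_left (ε / 2) 1; linarith, by positivity, min_le_right _ _⟩
  have hev1 : ∀ᶠ x : ℕ in atTop, |f x * Real.log x / (x : ℝ) - c| < ε₁ := by
    have h1 := Metric.tendsto_nhds.1 hlim ε₁ hε₁0
    simpa only [Real.dist_eq] using h1
  have hev2 : ∀ᶠ x : ℕ in atTop, 2 / ε₁ ≤ Real.log x :=
    (Real.tendsto_log_atTop.comp tendsto_natCast_atTop_atTop).eventually_ge_atTop _
  obtain ⟨x₁, hx₁⟩ := eventually_atTop.1 (hev1.and (hev2.and (eventually_ge_atTop 2)))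
  have hev3 : ∀ᶠ N : ℕ in atTop, (x₁ : ℝ) * (Real.log N ^ 1 / (N : ℝ)) < ε₁ := by
    have h1 := (PiAP.log_pow_div 1).const_mul (x₁ : ℝ)
    rw [mul_zero] at h1
    exact (tendsto_order.1 h1).2 _ hε₁0
  have hev4 : ∀ᶠ N : ℕ in atTop, (x₁ : ℝ) / ε₁ ≤ (N : ℝ) :=
    tendsto_natCast_atTop_atTop.eventually_ge_atTop _
  obtain ⟨N₀, hN₀⟩ := eventually_atTop.1 (hev3.and (hev4.and (eventually_ge_atTop 1)))
  refine ⟨N₀, fun N hN x hx => ?_⟩
  obtain ⟨hN3, hN4, hN1⟩ := hN₀ N hN
  have hN' : (0 : ℝ) < N := by exact_mod_cast hN1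
  have hlogN : 0 ≤ Real.log N := Real.log_natCast_nonneg N
  have hxN : (x : ℝ) ≤ N := by exact_mod_cast hx
  rw [← hf, show (x : ℝ) / q.totient = c * x by rw [hc]; ring]
  rcases lt_or_ge x x₁ with hlt | hge
  · have h1 : (x : ℝ) ≤ x₁ := by exact_mod_cast hlt.le
    rw [pow_one, ← mul_div_assoc, div_lt_iff₀ hN'] at hN3
    rw [div_le_iff₀ hε₁0] at hN4
    have h2 : f x * Real.log N ≤ x₁ * Real.log N :=
      mul_le_mul_of_nonneg_right ((hfx x).trans h1) hlogN
    have h3 : 0 ≤ Real.log N * f x := mul_nonneg hlogN (hf0 x)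
    have h4 : 0 ≤ c * x := by positivity
    have h5 : c * x ≤ x₁ := by
      calc c * x ≤ 1 * x := mul_le_mul_of_nonneg_right hc1 (Nat.cast_nonneg x)
        _ ≤ x₁ := by rw [one_mul]; exact h1
    have h6 : 2 * ε₁ * N ≤ ε * N := mul_le_mul_of_nonneg_right hε₁ hN'.le
    rw [abs_le]
    constructor
    · nlinarith
    · nlinarith
  · obtain ⟨h1, h2, h3⟩ := hx₁ x hge
    have hx0 : (0 : ℝ) < x := by
      have : 0 < x := by omega
      exact_mod_cast this
    have hlx : 0 < Real.log x := lt_of_lt_of_le (by positivity) h2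
    have h4 : |f x * Real.log x - c * x| ≤ ε₁ * x := by
      have h5 : f x * Real.log x / (x : ℝ) - c = (f x * Real.log x - c * x) / x := by
        field_simp
      rw [h5, abs_div, abs_of_pos hx0, div_lt_iff₀ hx0] at h1
      exact h1.le
    have h5 : f x * Real.log x ≤ 2 * x := by
      have := (abs_le.1 h4).2
      nlinarith
    have h6 : x * (Real.log N - Real.log x) ≤ N := by
      have h7 := Real.log_le_sub_one_of_pos (show 0 < (N : ℝ) / x by positivity)
      rw [Real.log_div hN'.ne' hx0.ne'] at h7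
      have h8 := mul_le_mul_of_nonneg_left h7 hx0.le
      have h9 : (x : ℝ) * ((N : ℝ) / x - 1) = N - x := by
        field_simp
      linarith
    have h7 : 0 ≤ Real.log N - Real.log x := by
      have := Real.log_le_log hx0 hxN
      linarith
    have h8 : f x * (Real.log N - Real.log x) ≤ ε₁ * N := by
      -- `f x ≤ 2 x / log x ≤ ε₁ x`
      have h9 : f x ≤ ε₁ * x := by
        have h10 : f x * (2 / ε₁) ≤ 2 * x := (mul_le_mul_of_nonneg_left h2 (hf0 x)).trans h5
        rw [← mul_div_assoc, div_le_iff₀ hε₁0] at h10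
        linarith
      calc f x * (Real.log N - Real.log x) ≤ ε₁ * x * (Real.log N - Real.log x) :=
            mul_le_mul_of_nonneg_right h9 h7
        _ = ε₁ * (x * (Real.log N - Real.log x)) := by ring
        _ ≤ ε₁ * N := mul_le_mul_of_nonneg_left h6 hε₁0.le
    have h9 : 0 ≤ f x * (Real.log N - Real.log x) := mul_nonneg (hf0 x) h7
    have h10 : ε₁ * x ≤ ε₁ * N := mul_le_mul_of_nonneg_left hxN hε₁0.le
    have h11 : 2 * ε₁ * N ≤ ε * N := mul_le_mul_of_nonneg_right hε₁ hN'.le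
    obtain ⟨h12, h13⟩ := abs_le.1 h4
    rw [abs_le]
    constructor
    · nlinarith
    · nlinarith

end Pool.Agent.Lib.MP_629a14_nt.Rob
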