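import Pool.Agent.Lib.MP_629a14_nt.Rob.M3One

/-! The second theorem on sums over primes. -/

set_option autoImplicit false

namespace Pool.Agent.Lib.MP_629a14_nt.Rob

open Finset

open Filter Topology

private theorem m2_sum_succ (f : ℕ → ℝ) (n : ℕ) :
    ∑ p ∈ (Icc 1 (n + 1)).filter Nat.Prime, f p =
      ∑ p ∈ (Icc 1 n).filter Nat.Prime, f p + if (n + 1).Prime then f (n + 1) else 0 := by
  rw [sum_filter, sum_filter, Finset.sum_Icc_succ_top (by omega)]

private theorem m2_step (R S : ℕ → ℝ) (C : ℝ)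
    (hR : ∀ x : ℕ, R x = (∑ p ∈ (Icc 1 x).filter Nat.Prime, Real.log p / p) - Real.log x)
    (hS : ∀ x : ℕ, S x = (∑ p ∈ (Icc 1 x).filter Nat.Prime, 1 / (p : ℝ)) -
      Real.log (Real.log x) - R x / Real.log x)
    (hC : ∀ x : ℕ, 1 ≤ x → |R x| ≤ C) (n : ℕ) (hn : 2 ≤ n) :
    |S (n + 1) - S n| ≤ (C + 1) * (1 / Real.log n - 1 / Real.log ((n + 1 : ℕ) : ℝ)) := by
  have hn' : (2 : ℝ) ≤ n := by exact_mod_cast hn
  have hR1 : R (n + 1) = R n + (if (n + 1).Prime then
      Real.log ((n + 1 : ℕ) : ℝ) / ((n + 1 : ℕ) : ℝ) else 0) -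
      (Real.log ((n + 1 : ℕ) : ℝ) - Real.log n) := by
    rw [hR, hR, m2_sum_succ]
    ring
  have hS1 : S (n + 1) = (∑ p ∈ (Icc 1 n).filter Nat.Prime, 1 / (p : ℝ)) +
      (if (n + 1).Prime then 1 / ((n + 1 : ℕ) : ℝ) else 0) -
      Real.log (Real.log ((n + 1 : ℕ) : ℝ)) - R (n + 1) / Real.log ((n + 1 : ℕ) : ℝ) := by
    rw [hS, m2_sum_succ (fun p => 1 / (p : ℝ))]
  have hS0 := hS n
  have hCn := hC n (by omega)
  have hu : 0 < Real.log (n : ℝ) := Real.log_pos (by linarith)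
  have huv : Real.log (n : ℝ) < Real.log ((n + 1 : ℕ) : ℝ) := by
    refine Real.log_lt_log (by linarith) ?_
    push_cast
    linarith
  have hvu : Real.log ((n + 1 : ℕ) : ℝ) - Real.log (n : ℝ) ≤ 1 := by
    rw [← Real.log_div (by positivity) (by positivity)]
    refine (Real.log_le_sub_one_of_pos (by positivity)).trans ?_
    rw [div_sub_one (by positivity), div_le_one (by linarith)]
    push_cast
    linarith
  generalize Real.log (n : ℝ) = u at *
  generalize Real.log ((n + 1 : ℕ) : ℝ) = v at *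
  have hv : 0 < v := hu.trans huv
  have hd1 : Real.log v - Real.log u ≤ (v - u) / u := by
    rw [← Real.log_div hv.ne' hu.ne']
    refine (Real.log_le_sub_one_of_pos (by positivity)).trans (le_of_eq ?_)
    rw [div_sub_one hu.ne']
  have hd2 : (v - u) / v ≤ Real.log v - Real.log u := by
    rw [← Real.log_div hv.ne' hu.ne']
    refine le_trans (le_of_eq ?_) (Real.one_sub_inv_le_log_of_pos (by positivity))
    rw [inv_div, one_sub_div hv.ne']
  set b : ℝ := if (n + 1).Prime then 1 / ((n + 1 : ℕ) : ℝ) else 0 with hb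
  have hab : (if (n + 1).Prime then v / ((n + 1 : ℕ) : ℝ) else 0) = b * v := by
    rw [hb]
    split_ifs
    · ring
    · ring
  rw [hab] at hR1
  have hkey : S (n + 1) - S n = R n * (1 / u - 1 / v) -
      (Real.log v - Real.log u - (v - u) / v) := by
    rw [hS1, hS0, hR1]
    field_simp
    ring
  have h1 : 0 < 1 / u - 1 / v := sub_pos.2 (one_div_lt_one_div_of_lt hu huv)
  have h2 : (v - u) / u - (v - u) / v = (v - u) * (1 / u - 1 / v) := by ring
  have h3 : (v - u) * (1 / u - 1 / v) ≤ 1 * (1 / u - 1 / v) :=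
    mul_le_mul_of_nonneg_right hvu h1.le
  rw [hkey]
  have h4 : |R n * (1 / u - 1 / v)| ≤ C * (1 / u - 1 / v) := by
    rw [abs_mul, abs_of_pos h1]
    exact mul_le_mul_of_nonneg_right hCn h1.le
  rw [abs_le] at h4 ⊢
  constructor
  · linarith [h4.1]
  · linarith [h4.2]

private theorem m2_tele (K : ℝ) (hK : 0 ≤ K) : Summable fun n : ℕ =>
    K * (1 / Real.log ((n + 2 : ℕ) : ℝ) - 1 / Real.log ((n + 2 + 1 : ℕ) : ℝ)) := by
  refine Summable.mul_left K ?_
  have hpos : ∀ n : ℕ, 0 < Real.log ((n + 2 : ℕ) : ℝ) := fun n => Real.log_pos (by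
    push_cast
    have : (0 : ℝ) ≤ n := Nat.cast_nonneg n
    linarith)
  refine summable_of_sum_range_le (c := 1 / Real.log ((0 + 2 : ℕ) : ℝ)) (fun n => ?_) (fun N => ?_)
  · refine sub_nonneg.2 (one_div_le_one_div_of_le (hpos n) ?_)
    refine Real.log_le_log (by positivity) ?_
    push_cast
    linarith
  · have h := Finset.sum_range_sub' (fun n : ℕ => 1 / Real.log ((n + 2 : ℕ) : ℝ)) N
    have h2 : ∑ n ∈ range N, (1 / Real.log ((n + 2 : ℕ) : ℝ) -
        1 / Real.log ((n + 2 + 1 : ℕ) : ℝ)) =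
        ∑ n ∈ range N, (1 / Real.log ((n + 2 : ℕ) : ℝ) - 1 / Real.log ((n + 1 + 2 : ℕ) : ℝ)) := by
      refine Finset.sum_congr rfl fun n _ => ?_
      rw [show n + 2 + 1 = n + 1 + 2 by ring]
    rw [h2, h]
    have := one_div_pos.2 (hpos N)
    linarith

private theorem m2_recip : ∃ c : ℝ, Tendsto (fun x : ℕ =>
    (∑ p ∈ (Icc 1 x).filter Nat.Prime, 1 / (p : ℝ)) - Real.log (Real.log x)) atTop (𝓝 c) := by
  obtain ⟨C, hC⟩ := mert_one
  have hC0 : 0 ≤ C := (abs_nonneg _).trans (hC 1 le_rfl)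
  set R : ℕ → ℝ := fun x => (∑ p ∈ (Icc 1 x).filter Nat.Prime, Real.log p / p) - Real.log x with hR
  set S : ℕ → ℝ := fun x => (∑ p ∈ (Icc 1 x).filter Nat.Prime, 1 / (p : ℝ)) -
      Real.log (Real.log x) - R x / Real.log x with hS
  have hstep := m2_step R S C (fun _ => rfl) (fun _ => rfl) hC
  have hcau : CauchySeq fun n : ℕ => S (n + 2) := by
    refine cauchySeq_of_dist_le_of_summable _ (fun n => ?_) (m2_tele (C + 1) (by linarith))
    rw [dist_comm, Real.dist_eq]
    have h1 := hstep (n + 2) (by omega)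
    have h2 : n.succ + 2 = n + 2 + 1 := by omega
    rw [h2]
    exact h1
  obtain ⟨c, hc⟩ := cauchySeq_tendsto_of_complete hcau
  have hc' : Tendsto S atTop (𝓝 c) := (tendsto_add_atTop_iff_nat 2).1 hc
  refine ⟨c, ?_⟩
  have hlog : Tendsto (fun x : ℕ => Real.log (x : ℝ)) atTop atTop :=
    Real.tendsto_log_atTop.comp tendsto_natCast_atTop_atTop
  have hRl : Tendsto (fun x : ℕ => R x / Real.log x) atTop (𝓝 0) := by
    have h1 : Tendsto (fun x : ℕ => C / Real.log x) atTop (𝓝 0) := hlog.const_div_atTop C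
    refine squeeze_zero_norm' ?_ h1
    filter_upwards [eventually_ge_atTop 2] with x hx
    have hx' : (2 : ℝ) ≤ x := by exact_mod_cast hx
    have hl : 0 < Real.log (x : ℝ) := Real.log_pos (by linarith)
    rw [norm_div, Real.norm_eq_abs, Real.norm_eq_abs, abs_of_pos hl]
    exact div_le_div_of_nonneg_right (hC x (by omega)) hl.le
  have hsum := hc'.add hRl
  rw [add_zero] at hsum
  refine hsum.congr fun x => ?_
  simp only [hS]
  ring

private theorem m2_corr_bound {x : ℝ} (hx0 : 0 ≤ x) (hx : x ≤ 1 / 2) :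
    0 ≤ -Real.log (1 - x) - x ∧ -Real.log (1 - x) - x ≤ 2 * x ^ 2 := by
  have h0 : (0 : ℝ) < 1 - x := by linarith
  constructor
  · have h := Real.log_le_sub_one_of_pos h0
    linarith
  · have h := Real.one_sub_inv_le_log_of_pos h0
    have h1 : (1 - x)⁻¹ ≤ 1 + x + 2 * x ^ 2 := by
      rw [inv_le_iff_one_le_mul₀ h0]
      nlinarith [mul_nonneg (sq_nonneg x) (sub_nonneg.2 hx)]
    linarith

private theorem m2_corr : Summable fun n : ℕ =>
    if n.Prime then -Real.log (1 - 1 / (n : ℝ)) - 1 / (n : ℝ) else 0 := by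
  have h2 : Summable fun n : ℕ => 2 * (1 / (n : ℝ) ^ 2) :=
    (Real.summable_one_div_nat_pow.2 (by norm_num)).mul_left 2
  refine Summable.of_nonneg_of_le (fun n => ?_) (fun n => ?_) h2
  · split_ifs with hn
    · have h3 : (2 : ℝ) ≤ n := by exact_mod_cast hn.two_le
      exact (m2_corr_bound (by positivity) (one_div_le_one_div_of_le (by norm_num) h3)).1
    · exact le_rfl
  · split_ifs with hn
    · have h3 : (2 : ℝ) ≤ n := by exact_mod_cast hn.two_le
      have h4 := (m2_corr_bound (show (0 : ℝ) ≤ 1 / n by positivity)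
        (one_div_le_one_div_of_le (by norm_num) h3)).2
      rwa [one_div_pow] at h4
    · positivity

/-- Cauchy sequence: with `R n = ∑_{p ≤ n} log p / p - log n` bounded (`mert_one`),
`∑_{x < p ≤ y} 1/p = ∑_{x < n ≤ y} (R n - R (n-1) + log n - log (n-1)) / log n`, Abel summation for
`R`, and `(log n - log (n-1))/log n = log (log n) - log (log (n-1)) + O(1/n^2)` (mean value theorem).
Then `∑_p (-log (1 - 1/p) - 1/p)` converges absolutely. -/
theorem mert_two : ∃ c : ℝ, Tendsto (fun x : ℕ =>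
    (∑ p ∈ (Icc 1 x).filter Nat.Prime, -Real.log (1 - 1 / (p : ℝ))) - Real.log (Real.log x)) atTop
      (𝓝 c) := by
  obtain ⟨c, hc⟩ := m2_recip
  have h1 := (tendsto_add_atTop_iff_nat 1).2 m2_corr.hasSum.tendsto_sum_nat
  refine ⟨_, (hc.add h1).congr fun x => ?_⟩
  have h2 : ∑ n ∈ range (x + 1), (if n.Prime then -Real.log (1 - 1 / (n : ℝ)) - 1 / (n : ℝ)
      else 0) = ∑ p ∈ (Icc 1 x).filter Nat.Prime, (-Real.log (1 - 1 / (p : ℝ)) - 1 / (p : ℝ)) := by
    rw [← sum_filter]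
    refine Finset.sum_congr ?_ fun _ _ => rfl
    ext p
    simp only [mem_filter, mem_range, mem_Icc]
    constructor
    · rintro ⟨h3, h4⟩
      exact ⟨⟨h4.pos, by omega⟩, h4⟩
    · rintro ⟨h3, h4⟩
      exact ⟨by omega, h4⟩
  rw [h2, Finset.sum_sub_distrib]
  ring

end Pool.Agent.Lib.MP_629a14_nt.Rob
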