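import Pool.Agent.Lib.MP_629a14_nt.Rob.Defs

/-! Buchstab's identity in an interval and a residue class. -/

set_option autoImplicit false

namespace Pool.Agent.Lib.MP_629a14_nt.Rob

open Finset Pool.Agent.Lib.MP_629a14_nt

private theorem rough_anti {z z' n : ℕ} (h : z ≤ z') (hn : Rough z' n) : Rough z n :=
  fun p hp hpn => h.trans (hn p hp hpn)

private theorem exists_inv_class (q b : ℕ) (hq : 1 ≤ q) (hb : Nat.Coprime b q) (p : ℕ) :
    ∃ b' : ℕ, Nat.Coprime b' q ∧
      (Nat.Coprime p q → ∀ m, (p * m ≡ b [MOD q] ↔ m ≡ b' [MOD q])) := by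
  have : NeZero q := ⟨by omega⟩
  by_cases hp : Nat.Coprime p q
  · refine ⟨(((ZMod.unitOfCoprime p hp)⁻¹ * ZMod.unitOfCoprime b hb : (ZMod q)ˣ) : ZMod q).val,
      ZMod.val_coe_unit_coprime _, ?_⟩
    intro _ m
    rw [← ZMod.natCast_eq_natCast_iff, ← ZMod.natCast_eq_natCast_iff, ZMod.natCast_val,
      ZMod.cast_id', id]
    have h1 : ((ZMod.unitOfCoprime p hp : (ZMod q)ˣ) : ZMod q) = (p : ZMod q) :=
      ZMod.coe_unitOfCoprime p hp
    have h2 : ((ZMod.unitOfCoprime b hb : (ZMod q)ˣ) : ZMod q) = (b : ZMod q) :=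
      ZMod.coe_unitOfCoprime b hb
    rw [Units.val_mul, h2, Nat.cast_mul, ← h1]
    constructor
    · intro h
      rw [← h, ← mul_assoc, Units.inv_mul, one_mul]
    · intro h
      rw [h, ← mul_assoc, Units.mul_inv, one_mul]
  · exact ⟨b, hb, fun h => absurd h hp⟩

/-- Sort the `z₀`-rough but not `z`-rough numbers `n` by their least prime factor `p`:
`n = p m` with `m` in `(y / p, (y + h) / p]` (natural number division), `m` is `p`-rough and
`m ≡ b p⁻¹` modulo `q` (`p` does not divide `q` because `n` is prime to `q`). -/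
theorem buch (y h q b z₀ z : ℕ) (hq : 1 ≤ q) (hb : Nat.Coprime b q) (hz : z₀ ≤ z) :
    ∃ b' : ℕ → ℕ, (∀ p, Nat.Coprime (b' p) q) ∧
      cntR y h q b z₀ = cntR y h q b z +
        ∑ p ∈ (Ico z₀ z).filter (fun p => p.Prime ∧ ¬ p ∣ q),
          cntR (y / p) ((y + h) / p - y / p) q (b' p) p := by
  classical
  choose b' hb'1 hb'2 using exists_inv_class q b hq hb
  refine ⟨b', hb'1, ?_⟩
  set S0 := (Ioc y (y + h)).filter (fun n => n ≡ b [MOD q] ∧ Rough z₀ n) with hS0
  set S1 := (Ioc y (y + h)).filter (fun n => n ≡ b [MOD q] ∧ Rough z n) with hS1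
  have hsub : S1 ⊆ S0 := by
    intro n hn
    rw [hS1, mem_filter] at hn
    rw [hS0, mem_filter]
    exact ⟨hn.1, hn.2.1, rough_anti hz hn.2.2⟩
  have hc : S0.card = S1.card + (S0 \ S1).card := by
    have := card_sdiff_add_card_eq_card hsub
    omega
  have hmaps : ∀ n ∈ S0 \ S1, n.minFac ∈ (Ico z₀ z).filter (fun p => p.Prime ∧ ¬ p ∣ q) := by
    intro n hn
    rw [mem_sdiff, hS0, hS1, mem_filter, mem_filter] at hn
    obtain ⟨⟨hI, hmod, hr⟩, hn2⟩ := hn
    have hnr : ¬ Rough z n := fun h => hn2 ⟨hI, hmod, h⟩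
    unfold Rough at hnr
    push Not at hnr
    obtain ⟨p, hp, hpn, hpz⟩ := hnr
    have hn1 : n ≠ 1 := by
      rintro rfl
      exact hp.one_lt.ne' (Nat.dvd_one.1 hpn)
    have hmp := Nat.minFac_prime hn1
    rw [mem_filter, mem_Ico]
    refine ⟨⟨hr _ hmp (Nat.minFac_dvd n), lt_of_le_of_lt (Nat.minFac_le_of_dvd hp.two_le hpn) hpz⟩,
      hmp, ?_⟩
    intro hdq
    have hcop : Nat.Coprime n q := by
      unfold Nat.Coprime
      rw [hmod.gcd_eq]
      exact hb
    have h1 : n.minFac ∣ Nat.gcd n q := Nat.dvd_gcd (Nat.minFac_dvd n) hdq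
    rw [hcop] at h1
    exact hmp.one_lt.ne' (Nat.dvd_one.1 h1)
  have hfib := card_eq_sum_card_fiberwise (s := S0 \ S1)
    (t := (Ico z₀ z).filter (fun p => p.Prime ∧ ¬ p ∣ q)) (f := fun n => n.minFac)
    (fun n hn => hmaps n hn)
  have hterm : ∀ p ∈ (Ico z₀ z).filter (fun p => p.Prime ∧ ¬ p ∣ q),
      ((S0 \ S1).filter (fun n => n.minFac = p)).card =
        cntR (y / p) ((y + h) / p - y / p) q (b' p) p := by
    intro p hp
    rw [mem_filter, mem_Ico] at hp
    obtain ⟨⟨hp0, hpz⟩, hpp, hpq⟩ := hp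
    have hcop : Nat.Coprime p q := (Nat.Prime.coprime_iff_not_dvd hpp).2 hpq
    unfold cntR
    have hle : y / p ≤ (y + h) / p := Nat.div_le_div_right (Nat.le_add_right _ _)
    rw [Nat.add_sub_cancel' hle]
    have himg : (S0 \ S1).filter (fun n => n.minFac = p) =
        ((Ioc (y / p) ((y + h) / p)).filter (fun n => n ≡ b' p [MOD q] ∧ Rough p n)).image
          (fun m => p * m) := by
      ext n
      rw [mem_filter, mem_sdiff, hS0, hS1, mem_filter, mem_filter, mem_image]
      constructor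
      · rintro ⟨⟨⟨hI, hmod, hr⟩, hn2⟩, hmf⟩
        obtain ⟨m, rfl⟩ : p ∣ n := by
          rw [← hmf]
          exact Nat.minFac_dvd n
        rw [mem_Ioc] at hI
        refine ⟨m, ?_, rfl⟩
        rw [mem_filter, mem_Ioc]
        refine ⟨⟨?_, ?_⟩, (hb'2 p hcop m).1 hmod, ?_⟩
        · rw [Nat.div_lt_iff_lt_mul hpp.pos, mul_comm]
          exact hI.1
        · rw [Nat.le_div_iff_mul_le hpp.pos, mul_comm]
          exact hI.2
        · intro r hr' hrm
          have h1 := Nat.minFac_le_of_dvd hr'.two_le (Dvd.dvd.mul_left hrm p)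
          rw [hmf] at h1
          exact h1
      · rintro ⟨m, hm, rfl⟩
        rw [mem_filter, mem_Ioc] at hm
        obtain ⟨⟨hm1, hm2⟩, hmod, hr⟩ := hm
        rw [Nat.div_lt_iff_lt_mul hpp.pos, mul_comm] at hm1
        rw [Nat.le_div_iff_mul_le hpp.pos, mul_comm] at hm2
        have hrp : Rough p (p * m) := by
          intro r hr' hrm
          rcases (Nat.Prime.dvd_mul hr').1 hrm with h1 | h1
          · exact ((Nat.prime_dvd_prime_iff_eq hr' hpp).1 h1).symm.le
          · exact hr r hr' h1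
        have hne1 : p * m ≠ 1 := by
          intro h1
          exact hpp.one_lt.ne' (Nat.eq_one_of_mul_eq_one_right h1)
        have hmf : (p * m).minFac = p := by
          apply le_antisymm
          · exact Nat.minFac_le_of_dvd hpp.two_le (Dvd.intro _ rfl)
          · exact hrp _ (Nat.minFac_prime hne1) (Nat.minFac_dvd _)
        refine ⟨⟨⟨mem_Ioc.2 ⟨hm1, hm2⟩, (hb'2 p hcop m).2 hmod, rough_anti hp0 hrp⟩, ?_⟩, hmf⟩
        rintro ⟨_, _, h3⟩
        have := h3 p hpp (Dvd.intro _ rfl)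
        omega
    rw [himg, card_image_of_injective]
    intro m m' hmm
    exact Nat.eq_of_mul_eq_mul_left hpp.pos hmm
  rw [sum_congr rfl hterm] at hfib
  change S0.card = S1.card + _
  rw [hc, hfib]

theorem cntR_anti (y h q b : ℕ) {z z' : ℕ} (h' : z ≤ z') : cntR y h q b z' ≤ cntR y h q b z := by
  unfold cntR
  apply card_le_card
  intro n hn
  rw [mem_filter] at hn ⊢
  exact ⟨hn.1, hn.2.1, rough_anti h' hn.2.2⟩

end Pool.Agent.Lib.MP_629a14_nt.Rob
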