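import Pool.Agent.Lib.MP_629a14_nt.Rob.Rankin

/-! Legendre's sieve. -/

set_option autoImplicit false

namespace Pool.Agent.Lib.MP_629a14_nt.Rob

open Finset Pool.Agent.Lib.MP_629a14_nt

private theorem base_count (y h q b : ℕ) (hq : 1 ≤ q) :
    |(((Ioc y (y + h)).filter (fun n => n ≡ b [MOD q])).card : ℝ) - (h : ℝ) / q| ≤ 1 := by
  have hc := Nat.Ioc_filter_modEq_card y (y + h) (r := q) (by omega) b
  have hq0 : (0 : ℚ) < q := by exact_mod_cast hq
  set A : ℚ := (((y + h : ℕ) : ℚ) - b) / (q : ℚ) with hA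
  set B : ℚ := ((y : ℚ) - b) / (q : ℚ) with hB
  have hAB : A - B = (h : ℚ) / q := by
    rw [hA, hB, ← sub_div]
    congr 1
    push_cast
    ring
  have hge : (0 : ℚ) ≤ (h : ℚ) / q := by positivity
  have h1 := Int.floor_le A
  have h2 := Int.lt_floor_add_one A
  have h3 := Int.floor_le B
  have h4 := Int.lt_floor_add_one B
  have hmono : ⌊B⌋ ≤ ⌊A⌋ := Int.floor_le_floor (by linarith)
  rw [max_eq_left (by omega)] at hc
  have hc' : (((Ioc y (y + h)).filter (fun n => n ≡ b [MOD q])).card : ℚ) = ⌊A⌋ - ⌊B⌋ := by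
    exact_mod_cast hc
  have hfin : |(((Ioc y (y + h)).filter (fun n => n ≡ b [MOD q])).card : ℚ) - (h : ℚ) / q| ≤ 1 := by
    rw [hc', abs_le]
    constructor <;> linarith
  have hfin' : (((|(((Ioc y (y + h)).filter (fun n => n ≡ b [MOD q])).card : ℚ) -
      (h : ℚ) / q| : ℚ)) : ℝ) ≤ ((1 : ℚ) : ℝ) := Rat.cast_le.2 hfin
  push_cast at hfin'
  exact hfin'

private theorem leg_aux (y h : ℕ) (S : Finset ℕ) : ∀ q b : ℕ, 1 ≤ q →
    (∀ p ∈ S, p.Prime ∧ Nat.Coprime q p) →
    |(((Ioc y (y + h)).filter (fun n => n ≡ b [MOD q] ∧ ∀ p ∈ S, ¬ p ∣ n)).card : ℝ) -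
      (h : ℝ) / q * ∏ p ∈ S, (1 - 1 / (p : ℝ))| ≤ 2 ^ S.card := by
  induction S using Finset.induction_on with
  | empty =>
    intro q b hq _
    simpa using base_count y h q b hq
  | insert p S hp ih =>
    intro q b hq hS
    have hpp : p.Prime := (hS p (mem_insert_self _ _)).1
    have hcop : Nat.Coprime q p := (hS p (mem_insert_self _ _)).2
    obtain ⟨c, hc1, hc2⟩ := Nat.chineseRemainder hcop b 0
    have i1 := ih q b hq (fun r hr => hS r (mem_insert_of_mem hr))
    have i2 := ih (q * p) c (Nat.mul_pos hq hpp.pos) (fun r hr => by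
      have hr' := hS r (mem_insert_of_mem hr)
      refine ⟨hr'.1, ?_⟩
      refine Nat.Coprime.mul_left hr'.2 ?_
      rw [Nat.coprime_primes hpp hr'.1]
      rintro rfl
      exact hp hr)
    have hset : ((Ioc y (y + h)).filter (fun n => n ≡ b [MOD q] ∧ ∀ r ∈ S, ¬ r ∣ n)).card =
        ((Ioc y (y + h)).filter (fun n => n ≡ b [MOD q] ∧ ∀ r ∈ insert p S, ¬ r ∣ n)).card +
        ((Ioc y (y + h)).filter (fun n => n ≡ c [MOD (q * p)] ∧ ∀ r ∈ S, ¬ r ∣ n)).card := by
      rw [← card_union_of_disjoint]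
      · congr 1
        ext n
        have hkey : n ≡ c [MOD (q * p)] ↔ n ≡ b [MOD q] ∧ p ∣ n := by
          rw [← Nat.modEq_and_modEq_iff_modEq_mul hcop]
          constructor
          · rintro ⟨h1, h2⟩
            exact ⟨h1.trans hc1, (Nat.modEq_zero_iff_dvd).1 (h2.trans hc2)⟩
          · rintro ⟨h1, h2⟩
            exact ⟨h1.trans hc1.symm, ((Nat.modEq_zero_iff_dvd).2 h2).trans hc2.symm⟩
        simp only [mem_union, mem_filter, mem_insert, forall_eq_or_imp, hkey]
        tauto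
      · rw [Finset.disjoint_left]
        intro n h1 h2
        have hkey : p ∣ n := by
          have h3 := (mem_filter.1 h2).2.1
          have h4 := (Nat.modEq_and_modEq_iff_modEq_mul hcop).2 h3
          exact (Nat.modEq_zero_iff_dvd).1 (h4.2.trans hc2)
        exact (mem_filter.1 h1).2.2 p (mem_insert_self _ _) hkey
    rw [prod_insert hp, card_insert_of_notMem hp, pow_succ]
    have hset' : (((Ioc y (y + h)).filter
        (fun n => n ≡ b [MOD q] ∧ ∀ r ∈ S, ¬ r ∣ n)).card : ℝ) =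
        (((Ioc y (y + h)).filter
          (fun n => n ≡ b [MOD q] ∧ ∀ r ∈ insert p S, ¬ r ∣ n)).card : ℝ) +
        (((Ioc y (y + h)).filter (fun n => n ≡ c [MOD (q * p)] ∧ ∀ r ∈ S, ¬ r ∣ n)).card : ℝ) := by
      exact_mod_cast hset
    have hq0 : (q : ℝ) ≠ 0 := by
      have : (0 : ℝ) < q := by exact_mod_cast hq
      exact this.ne'
    have hp0 : (p : ℝ) ≠ 0 := by
      have : (0 : ℝ) < p := by exact_mod_cast hpp.pos
      exact this.ne'
    have hmain : (h : ℝ) / q * ((1 - 1 / (p : ℝ)) * ∏ r ∈ S, (1 - 1 / (r : ℝ))) =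
        (h : ℝ) / q * ∏ r ∈ S, (1 - 1 / (r : ℝ)) -
          (h : ℝ) / ((q * p : ℕ) : ℝ) * ∏ r ∈ S, (1 - 1 / (r : ℝ)) := by
      push_cast
      field_simp
    rw [hmain]
    rw [abs_le] at i1 i2 ⊢
    constructor <;> linarith [i1.1, i1.2, i2.1, i2.2]

/-- Möbius inversion over the divisors of `Pq q z`: at most `2 ^ z` divisors, each error at most
one. -/
theorem legendre (y h q b z : ℕ) (hq : 1 ≤ q) (hb : Nat.Coprime b q) :
    |(cntR y h q b z : ℝ) - (h : ℝ) / q * Vq q z| ≤ 2 ^ z := by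
  have h1 := leg_aux y h ((range z).filter (fun p => p.Prime ∧ ¬ p ∣ q)) q b hq (by
    intro p hp
    rw [mem_filter] at hp
    exact ⟨hp.2.1, Nat.Coprime.symm ((Nat.Prime.coprime_iff_not_dvd hp.2.1).2 hp.2.2)⟩)
  have h2 : (cntR y h q b z : ℕ) = ((Ioc y (y + h)).filter (fun n => n ≡ b [MOD q] ∧
      ∀ p ∈ (range z).filter (fun p : ℕ => p.Prime ∧ ¬ p ∣ q), ¬ p ∣ n)).card := by
    unfold cntR
    congr 1
    ext n
    rw [mem_filter, mem_filter, and_congr_right_iff, and_congr_right_iff]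
    intro hn hmod
    constructor
    · intro hr p hp hd
      rw [mem_filter, mem_range] at hp
      have := hr p hp.2.1 hd
      omega
    · intro hr p hp hd
      by_contra hz
      have hpq : ¬ p ∣ q := by
        intro hpq
        have h3 : p ∣ b := by
          have h4 : n ≡ b [MOD p] := Nat.ModEq.of_dvd hpq hmod
          exact (h4.dvd_iff (dvd_refl p)).1 hd
        exact hp.one_lt.ne' (Nat.dvd_one.1 (hb ▸ Nat.dvd_gcd h3 hpq))
      exact hr p (mem_filter.2 ⟨mem_range.2 (by omega), hp, hpq⟩) hd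
  rw [h2]
  unfold Vq
  refine h1.trans ?_
  refine pow_le_pow_right₀ (by norm_num) ?_
  exact (card_filter_le _ _).trans (by simp)

end Pool.Agent.Lib.MP_629a14_nt.Rob
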