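import Pool.Agent.Lib.MP_629a14_nt.Rob.Defs

/-! Mertens' first theorem, upper bound. -/

set_option autoImplicit false

namespace Pool.Agent.Lib.MP_629a14_nt.Rob

open Finset Pool.Agent.Lib.MP_629a14_nt

open ArithmeticFunction in
private theorem mert_psi_le (N : ℕ) : ∑ n ∈ Ioc 0 N, vonMangoldt n ≤ 6 * N := by
  have h1 := Chebyshev.psi_le_const_mul_self (x := (N : ℝ)) (Nat.cast_nonneg _)
  unfold Chebyshev.psi at h1
  rw [Nat.floor_natCast] at h1
  refine h1.trans ?_
  apply mul_le_mul_of_nonneg_right _ (Nat.cast_nonneg _)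
  have : Real.log 4 ≤ 2 := by
    have h2 : Real.log 4 = 2 * Real.log 2 := by
      rw [show (4 : ℝ) = 2 ^ 2 by norm_num, Real.log_pow]
      norm_num
    rw [h2]
    have := Real.log_two_lt_d9
    linarith
  linarith

open ArithmeticFunction in
open scoped ArithmeticFunction.zeta in
/-- Mertens upper bound with prime powers -/
private theorem mert_all (N : ℕ) (hN : 1 ≤ N) :
    ∑ n ∈ Ioc 0 N, vonMangoldt n / n ≤ Real.log N + 6 := by
  have hN0 : (0 : ℝ) < N := by exact_mod_cast hN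
  have h1 : ∑ n ∈ Ioc 0 N, Real.log n = ∑ n ∈ Ioc 0 N, vonMangoldt n * ((N / n : ℕ) : ℝ) := by
    rw [← sum_Ioc_mul_zeta_eq_sum]
    refine Finset.sum_congr rfl fun n _ => ?_
    rw [vonMangoldt_mul_zeta, log_apply]
  have h2 : ∑ n ∈ Ioc 0 N, Real.log n ≤ N * Real.log N := by
    refine (Finset.sum_le_card_nsmul _ _ (Real.log N) ?_).trans ?_
    · intro n hn
      rw [mem_Ioc] at hn
      exact Real.log_le_log (by exact_mod_cast hn.1) (by exact_mod_cast hn.2)
    · simp
  have h3 : N * ∑ n ∈ Ioc 0 N, vonMangoldt n / n - ∑ n ∈ Ioc 0 N, vonMangoldt n ≤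
      ∑ n ∈ Ioc 0 N, vonMangoldt n * ((N / n : ℕ) : ℝ) := by
    rw [Finset.mul_sum, ← Finset.sum_sub_distrib]
    refine Finset.sum_le_sum fun n hn => ?_
    rw [mem_Ioc] at hn
    have hn0 : (0 : ℝ) < n := by exact_mod_cast hn.1
    have h5 : (N : ℝ) / n ≤ ((N / n : ℕ) : ℝ) + 1 := by
      have := Nat.lt_div_mul_add (a := N) hn.1
      have h6 : (N : ℝ) < ((N / n : ℕ) : ℝ) * n + n := by exact_mod_cast this
      rw [div_le_iff₀ hn0]
      linarith
    have h6 : (0 : ℝ) ≤ vonMangoldt n := vonMangoldt_nonneg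
    have h7 : (N : ℝ) * (vonMangoldt n / n) = vonMangoldt n * (N / n) := by ring
    rw [h7]
    nlinarith
  have h4 := mert_psi_le N
  have h5 : (N : ℝ) * ∑ n ∈ Ioc 0 N, vonMangoldt n / n ≤ N * (Real.log N + 6) := by
    nlinarith
  exact le_of_mul_le_mul_left h5 hN0

/-- See `tm_mertens` in `Pool.Agent.Lib.MP_695920_nt.Refl.TwoMod` (sum of `Λ(n)/n`), copy its proof
or import that file. -/
theorem mert (z : ℕ) (hz : 1 ≤ z) :
    ∑ p ∈ (range z).filter Nat.Prime, Real.log p / p ≤ Real.log z + 6 := by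
  refine le_trans ?_ (mert_all z hz)
  have h1 : ∑ p ∈ (range z).filter Nat.Prime, Real.log p / p =
      ∑ p ∈ (range z).filter Nat.Prime, ArithmeticFunction.vonMangoldt p / (p : ℝ) := by
    refine Finset.sum_congr rfl fun p hp => ?_
    rw [ArithmeticFunction.vonMangoldt_apply_prime (mem_filter.mp hp).2]
  rw [h1]
  apply Finset.sum_le_sum_of_subset_of_nonneg
  · intro p hp
    rw [mem_filter, mem_range] at hp
    rw [mem_Ioc]
    exact ⟨hp.2.pos, hp.1.le⟩
  · intro n _ _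
    exact div_nonneg ArithmeticFunction.vonMangoldt_nonneg (Nat.cast_nonneg _)

end Pool.Agent.Lib.MP_629a14_nt.Rob
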