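import Pool.Agent.Lib.MP_629a14_nt.Rob.VBound
import Pool.Agent.Lib.MP_629a14_nt.Rob.Mert

/-! Telescoping of the sieve products and the tail sum in Buchstab's identity. -/

set_option autoImplicit false

namespace Pool.Agent.Lib.MP_629a14_nt.Rob

open Finset Pool.Agent.Lib.MP_629a14_nt

theorem telesc (q z₀ z : ℕ) (hz : z₀ ≤ z) :
    Vq q z₀ - ∑ p ∈ (Ico z₀ z).filter (fun p => p.Prime ∧ ¬ p ∣ q), 1 / (p : ℝ) * Vq q p =
      Vq q z := by
  induction z, hz using Nat.le_induction with
  | base => simp
  | succ z hz ih =>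
    have h1 : Ico z₀ (z + 1) = insert z (Ico z₀ z) := (insert_Ico_right_eq_Ico_add_one hz).symm
    have h2 : Vq q (z + 1) = if z.Prime ∧ ¬ z ∣ q then (1 - 1 / (z : ℝ)) * Vq q z else Vq q z := by
      unfold Vq
      rw [range_add_one, filter_insert]
      split_ifs with h
      · rw [prod_insert]
        intro hmem
        exact notMem_range_self (mem_filter.1 hmem).1
      · rfl
    rw [h1, filter_insert, h2]
    split_ifs with h
    · rw [sum_insert]
      · linear_combination ih
      · intro hmem
        have := (mem_Ico.1 (mem_filter.1 hmem).1).2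
        omega
    · exact ih

/-- With `A = log R ≥ log z ≥ u = log p`: `exp (-A/u) ≤ exp (-A/(2 log z)) * 8 u^2 / A^2`
(as `exp (-x) ≤ 2 / x^2`), then `mert`. -/
theorem tail : ∃ C : ℝ, 0 < C ∧ ∀ z R : ℕ, 2 ≤ z → z ≤ R →
    ∑ p ∈ (range z).filter Nat.Prime,
      1 / ((p : ℝ) * Real.log p) * Real.exp (-(Real.log R / Real.log p)) ≤
        C * Real.exp (-(Real.log R / (2 * Real.log z))) / Real.log z := by
  refine ⟨80, by norm_num, ?_⟩
  intro z R hz hzR
  have hz2 : (2 : ℝ) ≤ z := by exact_mod_cast hz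
  have hzR' : (z : ℝ) ≤ R := by exact_mod_cast hzR
  set L := Real.log z with hL
  set A := Real.log R with hA
  have hL2 : Real.log 2 ≤ L := Real.log_le_log (by norm_num) hz2
  have hlog2 : (0.69 : ℝ) < Real.log 2 := by
    have := Real.log_two_gt_d9
    linarith
  have hL0 : 0 < L := by linarith
  have hLA : L ≤ A := Real.log_le_log (by linarith) hzR'
  have hA0 : 0 < A := by linarith
  have hterm : ∀ p ∈ (range z).filter Nat.Prime,
      1 / ((p : ℝ) * Real.log p) * Real.exp (-(A / Real.log p)) ≤
        8 * Real.exp (-(A / (2 * L))) / A ^ 2 * (Real.log p / p) := by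
    intro p hp
    rw [mem_filter, mem_range] at hp
    have hp2 : (2 : ℝ) ≤ p := by exact_mod_cast hp.2.two_le
    have hpz : (p : ℝ) ≤ z := by exact_mod_cast hp.1.le
    set u := Real.log p with hu
    have hu2 : Real.log 2 ≤ u := Real.log_le_log (by norm_num) hp2
    have hu0 : 0 < u := by linarith
    have huL : u ≤ L := Real.log_le_log (by linarith) hpz
    have hp0 : (0 : ℝ) < p := by linarith
    have he1 : Real.exp (-(A / u)) = Real.exp (-(A / (2 * u))) * Real.exp (-(A / (2 * u))) := by
      rw [← Real.exp_add]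
      congr 1
      field_simp
      ring
    have he2 : Real.exp (-(A / (2 * u))) ≤ Real.exp (-(A / (2 * L))) := by
      apply Real.exp_le_exp.2
      apply neg_le_neg
      apply div_le_div_of_nonneg_left hA0.le (by linarith) (by linarith)
    have he3 : Real.exp (-(A / (2 * u))) ≤ 8 * u ^ 2 / A ^ 2 := by
      have hx0 : 0 < A / (2 * u) := by positivity
      have h1 : (A / (2 * u)) ^ 2 / 2 ≤ Real.exp (A / (2 * u)) := by
        have := Real.quadratic_le_exp_of_nonneg hx0.le
        nlinarith
      rw [Real.exp_neg]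
      have h2 : 0 < (A / (2 * u)) ^ 2 / 2 := by positivity
      calc (Real.exp (A / (2 * u)))⁻¹ ≤ ((A / (2 * u)) ^ 2 / 2)⁻¹ := inv_anti₀ h2 h1
        _ = 8 * u ^ 2 / A ^ 2 := by
          field_simp
          norm_num
    rw [he1]
    have hexp0 : 0 < Real.exp (-(A / (2 * u))) := Real.exp_pos _
    have hexp1 : 0 < Real.exp (-(A / (2 * L))) := Real.exp_pos _
    calc 1 / (p * u) * (Real.exp (-(A / (2 * u))) * Real.exp (-(A / (2 * u))))
        ≤ 1 / (p * u) * (Real.exp (-(A / (2 * L))) * (8 * u ^ 2 / A ^ 2)) := by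
          apply mul_le_mul_of_nonneg_left _ (by positivity)
          exact mul_le_mul he2 he3 hexp0.le hexp1.le
      _ = 8 * Real.exp (-(A / (2 * L))) / A ^ 2 * (u / p) := by
          field_simp
  have hexp1 : 0 < Real.exp (-(A / (2 * L))) := Real.exp_pos _
  calc ∑ p ∈ (range z).filter Nat.Prime,
      1 / ((p : ℝ) * Real.log p) * Real.exp (-(A / Real.log p))
      ≤ ∑ p ∈ (range z).filter Nat.Prime,
        8 * Real.exp (-(A / (2 * L))) / A ^ 2 * (Real.log p / p) := sum_le_sum hterm
    _ = 8 * Real.exp (-(A / (2 * L))) / A ^ 2 * ∑ p ∈ (range z).filter Nat.Prime,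
        Real.log p / p := by rw [mul_sum]
    _ ≤ 8 * Real.exp (-(A / (2 * L))) / A ^ 2 * (L + 6) :=
        mul_le_mul_of_nonneg_left (mert z (by omega)) (by positivity)
    _ ≤ 8 * Real.exp (-(A / (2 * L))) / L ^ 2 * (10 * L) := by
        apply mul_le_mul _ (by linarith) (by linarith) (by positivity)
        apply div_le_div_of_nonneg_left (by positivity) (by positivity)
        exact pow_le_pow_left₀ hL0.le hLA 2
    _ = 80 * Real.exp (-(A / (2 * L))) / L := by
        field_simp
        norm_num

end Pool.Agent.Lib.MP_629a14_nt.Rob
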