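import Pool.Agent.Lib.MP_629a14_nt.Rob.Upper
import Pool.Agent.Lib.MP_629a14_nt.Rob.Legendre
import Pool.Agent.Lib.MP_629a14_nt.Rob.Buch
import Pool.Agent.Lib.MP_629a14_nt.Rob.Telesc

/-! Fundamental lemma of the sieve for rough numbers in intervals and residue classes. -/

set_option autoImplicit false

namespace Pool.Agent.Lib.MP_629a14_nt.Rob

open Finset Pool.Agent.Lib.MP_629a14_nt

/-- length of the quotient interval -/
private theorem fund_hp (y h p : ℕ) (hp : 0 < p) :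
    (((y + h) / p - y / p : ℕ) : ℝ) ≤ (h : ℝ) / p + 1 := by
  have h1 : (y + h) / p ≤ y / p + h / p + 1 := by
    rw [Nat.add_div hp]
    split_ifs <;> omega
  have h2 : (y + h) / p - y / p ≤ h / p + 1 := by
    rw [Nat.sub_le_iff_le_add]
    refine h1.trans (le_of_eq ?_)
    ring
  have h3 : (((y + h) / p - y / p : ℕ) : ℝ) ≤ ((h / p + 1 : ℕ) : ℝ) := by exact_mod_cast h2
  have h4 : ((h / p : ℕ) : ℝ) ≤ (h : ℝ) / p := Nat.cast_div_le
  push_cast at h3 ⊢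
  linarith

/-- one term in Buchstab's identity -/
private theorem fund_term {C₀ : ℝ} (hC₀ : 1 ≤ C₀)
    (hup : ∀ y h q b z R : ℕ, 1 ≤ q → Nat.Coprime b q → 2 ≤ z → 1 ≤ R →
      C₀ * Real.exp (-(Real.log R / Real.log z)) ≤ 1 / 2 →
        (cntR y h q b z : ℝ) ≤ (h : ℝ) / q * Vq q z *
          (1 + 2 * C₀ * Real.exp (-(Real.log R / Real.log z))) + (R : ℝ) ^ 4)
    {y h q b z R p : ℕ} (hq : 1 ≤ q) (hb : Nat.Coprime b q) (hp : p.Prime) (hpz : p ≤ z)
    (hR : 1 ≤ R) (hsmall : C₀ * Real.exp (-(Real.log R / Real.log z)) ≤ 1 / 2) :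
    (cntR (y / p) ((y + h) / p - y / p) q b p : ℝ) ≤
      (h : ℝ) / q * (1 / (p : ℝ) * Vq q p) +
        2 * C₀ * ((h : ℝ) / q.totient) *
          (1 / ((p : ℝ) * Real.log p) * Real.exp (-(Real.log R / Real.log p))) +
        ((R : ℝ) ^ 4 + 2) := by
  have hp2 : 2 ≤ p := hp.two_le
  have hp2' : (2 : ℝ) ≤ p := by exact_mod_cast hp2
  have hp0 : (0 : ℝ) < p := by linarith
  have hpz' : (p : ℝ) ≤ z := by exact_mod_cast hpz
  have hlp : 0 < Real.log p := Real.log_pos (by linarith)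
  have hlz : Real.log p ≤ Real.log z := Real.log_le_log hp0 hpz'
  have hR' : (1 : ℝ) ≤ R := by exact_mod_cast hR
  have hlR : 0 ≤ Real.log R := Real.log_nonneg hR'
  have hq' : (1 : ℝ) ≤ q := by exact_mod_cast hq
  have hq0 : (0 : ℝ) < q := by linarith
  have hφ : (0 : ℝ) < q.totient := by exact_mod_cast Nat.totient_pos.2 hq
  have hh : (0 : ℝ) ≤ h := Nat.cast_nonneg h
  have hC0 : 0 < C₀ := by linarith
  have hexp : Real.exp (-(Real.log R / Real.log p)) ≤ Real.exp (-(Real.log R / Real.log z)) := by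
    apply Real.exp_le_exp.2
    apply neg_le_neg
    exact div_le_div_of_nonneg_left hlR hlp hlz
  have hsm : C₀ * Real.exp (-(Real.log R / Real.log p)) ≤ 1 / 2 :=
    (mul_le_mul_of_nonneg_left hexp hC0.le).trans hsmall
  have h1 := hup (y / p) ((y + h) / p - y / p) q b p R hq hb hp2 hR hsm
  obtain ⟨t, ht⟩ : ∃ t, t = 2 * C₀ * Real.exp (-(Real.log R / Real.log p)) := ⟨_, rfl⟩
  have ht0 : 0 ≤ t := by rw [ht]; positivity
  have ht1 : t ≤ 1 := by rw [ht]; linarith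
  rw [← ht] at h1
  have hV0 := Vq_pos q p
  have hV1 := Vq_le_one q p
  have hVφ : Vq q p / q ≤ 1 / ((q.totient : ℝ) * Real.log p) := by
    have e1 := Vq_le q p hq
    have e2 := V_le p hp2
    have e3 : Vq q p ≤ (q : ℝ) / q.totient * (1 / Real.log p) :=
      e1.trans (mul_le_mul_of_nonneg_left e2 (by positivity))
    rw [div_le_iff₀ hq0]
    refine e3.trans_eq ?_
    field_simp
  have h2 : (((y + h) / p - y / p : ℕ) : ℝ) / q * Vq q p * (1 + t) ≤
      ((h : ℝ) / p + 1) / q * Vq q p * (1 + t) := by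
    have := fund_hp y h p hp.pos
    gcongr
  have h3 : ((h : ℝ) / p + 1) / q * Vq q p * (1 + t) =
      (h : ℝ) / q * (1 / (p : ℝ) * Vq q p) + (h : ℝ) / p * (Vq q p / q) * t +
        Vq q p / q * (1 + t) := by
    field_simp
  have h4 : (h : ℝ) / p * (Vq q p / q) * t ≤
      2 * C₀ * ((h : ℝ) / q.totient) *
          (1 / ((p : ℝ) * Real.log p) * Real.exp (-(Real.log R / Real.log p))) := by
    have e1 : (h : ℝ) / p * (Vq q p / q) * t ≤
        (h : ℝ) / p * (1 / ((q.totient : ℝ) * Real.log p)) * t := by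
      gcongr
    refine e1.trans_eq ?_
    rw [ht]
    field_simp
  have h5 : Vq q p / q * (1 + t) ≤ 2 := by
    have e1 : Vq q p / q ≤ 1 := by
      rw [div_le_one hq0]
      linarith
    have e2 : 0 ≤ Vq q p / q := by positivity
    nlinarith
  linarith

private theorem fund_lower {C₀ C₁ : ℝ} (hC₀ : 1 ≤ C₀) (_hC₁ : 0 < C₁)
    (hup : ∀ y h q b z R : ℕ, 1 ≤ q → Nat.Coprime b q → 2 ≤ z → 1 ≤ R →
      C₀ * Real.exp (-(Real.log R / Real.log z)) ≤ 1 / 2 →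
        (cntR y h q b z : ℝ) ≤ (h : ℝ) / q * Vq q z *
          (1 + 2 * C₀ * Real.exp (-(Real.log R / Real.log z))) + (R : ℝ) ^ 4)
    (htail : ∀ z R : ℕ, 2 ≤ z → z ≤ R →
      ∑ p ∈ (range z).filter Nat.Prime,
        1 / ((p : ℝ) * Real.log p) * Real.exp (-(Real.log R / Real.log p)) ≤
          C₁ * Real.exp (-(Real.log R / (2 * Real.log z))) / Real.log z)
    {y h q b z₀ z R : ℕ} (hq : 1 ≤ q) (hb : Nat.Coprime b q) (hz₀ : z₀ ≤ z) (hz : 2 ≤ z)
    (hzR : z ≤ R) (hsmall : C₀ * Real.exp (-(Real.log R / Real.log z)) ≤ 1 / 2) :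
    (h : ℝ) / q * Vq q z - ((2 : ℝ) ^ z₀ + z * ((R : ℝ) ^ 4 + 2) +
      2 * C₀ * ((h : ℝ) / q.totient) *
        (C₁ * Real.exp (-(Real.log R / (2 * Real.log z))) / Real.log z)) ≤ cntR y h q b z := by
  obtain ⟨b', hb', hbu⟩ := buch y h q b z₀ z hq hb hz₀
  have hleg := (abs_le.1 (legendre y h q b z₀ hq hb)).1
  have hR1 : 1 ≤ R := by omega
  have hφ : (0 : ℝ) < q.totient := by exact_mod_cast Nat.totient_pos.2 hq
  have hbu' : (cntR y h q b z₀ : ℝ) = cntR y h q b z +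
      ∑ p ∈ (Ico z₀ z).filter (fun p => p.Prime ∧ ¬ p ∣ q),
        (cntR (y / p) ((y + h) / p - y / p) q (b' p) p : ℝ) := by
    exact_mod_cast hbu
  have hsum : ∑ p ∈ (Ico z₀ z).filter (fun p => p.Prime ∧ ¬ p ∣ q),
        (cntR (y / p) ((y + h) / p - y / p) q (b' p) p : ℝ) ≤
      ∑ p ∈ (Ico z₀ z).filter (fun p => p.Prime ∧ ¬ p ∣ q),
        ((h : ℝ) / q * (1 / (p : ℝ) * Vq q p) +
        2 * C₀ * ((h : ℝ) / q.totient) *
          (1 / ((p : ℝ) * Real.log p) * Real.exp (-(Real.log R / Real.log p))) +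
        ((R : ℝ) ^ 4 + 2)) := by
    refine sum_le_sum fun p hp => ?_
    rw [mem_filter, mem_Ico] at hp
    exact fund_term hC₀ hup hq (hb' p) hp.2.1 hp.1.2.le hR1 hsmall
  rw [sum_add_distrib, sum_add_distrib, ← mul_sum, ← mul_sum] at hsum
  have htel := telesc q z₀ z hz₀
  have ht1 : ∑ p ∈ (Ico z₀ z).filter (fun p => p.Prime ∧ ¬ p ∣ q),
      1 / ((p : ℝ) * Real.log p) * Real.exp (-(Real.log R / Real.log p)) ≤
      C₁ * Real.exp (-(Real.log R / (2 * Real.log z))) / Real.log z := by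
    refine le_trans ?_ (htail z R hz hzR)
    refine sum_le_sum_of_subset_of_nonneg ?_ ?_
    · intro p hp
      rw [mem_filter, mem_Ico] at hp
      rw [mem_filter, mem_range]
      exact ⟨hp.1.2, hp.2.1⟩
    · intro p hp _
      rw [mem_filter] at hp
      have : (1 : ℝ) ≤ p := by exact_mod_cast hp.2.one_lt.le
      have := Real.log_nonneg this
      positivity
  have hcard : (((Ico z₀ z).filter (fun p => p.Prime ∧ ¬ p ∣ q)).card : ℝ) ≤ z := by
    have e1 : ((Ico z₀ z).filter (fun p => p.Prime ∧ ¬ p ∣ q)).card ≤ z := by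
      refine (card_filter_le _ _).trans ?_
      rw [Nat.card_Ico]
      omega
    exact_mod_cast e1
  have ht2 : 2 * C₀ * ((h : ℝ) / q.totient) *
      ∑ p ∈ (Ico z₀ z).filter (fun p => p.Prime ∧ ¬ p ∣ q),
      1 / ((p : ℝ) * Real.log p) * Real.exp (-(Real.log R / Real.log p)) ≤
      2 * C₀ * ((h : ℝ) / q.totient) *
        (C₁ * Real.exp (-(Real.log R / (2 * Real.log z))) / Real.log z) :=
    mul_le_mul_of_nonneg_left ht1 (by positivity)
  have ht3 : ∑ _p ∈ (Ico z₀ z).filter (fun p => p.Prime ∧ ¬ p ∣ q), ((R : ℝ) ^ 4 + 2) ≤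
      z * ((R : ℝ) ^ 4 + 2) := by
    rw [sum_const, nsmul_eq_mul]
    exact mul_le_mul_of_nonneg_right hcard (by positivity)
  have ht4 : (h : ℝ) / q * ∑ p ∈ (Ico z₀ z).filter (fun p => p.Prime ∧ ¬ p ∣ q),
      1 / (p : ℝ) * Vq q p = (h : ℝ) / q * Vq q z₀ - (h : ℝ) / q * Vq q z := by
    rw [← htel]
    ring
  rw [ht4] at hsum
  linarith

/-- the requirements on `N` -/
private theorem fund_large (κ : ℝ) (hκ : 0 < κ) : ∃ N₀ : ℕ, ∀ N : ℕ, N₀ ≤ N →
    1 ≤ Real.log N ∧ (N : ℝ) ^ (κ / 2) + 2 ≤ (N : ℝ) ^ κ ∧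
      (N : ℝ) ^ (1 / 200 : ℝ) + 1 ≤ (N : ℝ) ^ (1 / 100 : ℝ) ∧
      Real.log N / 2 ≤ (N : ℝ) ^ κ ∧
      5 * κ * Real.exp (1 / (400 * κ)) * Real.log N ≤ (N : ℝ) ^ (1 / 4 : ℝ) := by
  have hcast : Filter.Tendsto (fun n : ℕ => (n : ℝ)) Filter.atTop Filter.atTop :=
    tendsto_natCast_atTop_atTop
  have hp : ∀ a : ℝ, 0 < a → Filter.Tendsto (fun n : ℕ => (n : ℝ) ^ a) Filter.atTop
      Filter.atTop := fun a ha => (tendsto_rpow_atTop ha).comp hcast
  have e1 := (Real.tendsto_log_atTop.comp hcast).eventually_ge_atTop 1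
  have e2 := (hp (κ / 2) (by positivity)).eventually_ge_atTop 2
  have e3 := (hp (1 / 200) (by norm_num)).eventually_ge_atTop 2
  have e4 := (isLittleO_log_rpow_atTop hκ).def (show (0 : ℝ) < 1 by norm_num)
  have e5 := (isLittleO_log_rpow_atTop (show (0 : ℝ) < 1 / 4 by norm_num)).def
    (show (0 : ℝ) < 1 / (5 * κ * Real.exp (1 / (400 * κ))) by positivity)
  obtain ⟨N₀, hN₀⟩ := Filter.eventually_atTop.1
    (e1.and (e2.and (e3.and ((hcast.eventually e4).and (hcast.eventually e5)))))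
  refine ⟨N₀, fun N hN => ?_⟩
  obtain ⟨h1, h2, h3, h4, h5⟩ := hN₀ N hN
  have h1' : 1 ≤ Real.log N := h1
  have hN0 : (0 : ℝ) < N := by
    rcases Nat.eq_zero_or_pos N with h | h
    · subst h
      rw [Nat.cast_zero, Real.log_zero] at h1'
      linarith
    · exact_mod_cast h
  refine ⟨h1', ?_, ?_, ?_, ?_⟩
  · have e : (N : ℝ) ^ κ = (N : ℝ) ^ (κ / 2) * (N : ℝ) ^ (κ / 2) := by
      rw [← Real.rpow_add hN0]
      congr 1
      ring
    rw [e]
    nlinarith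
  · have e : (N : ℝ) ^ (1 / 100 : ℝ) = (N : ℝ) ^ (1 / 200 : ℝ) * (N : ℝ) ^ (1 / 200 : ℝ) := by
      rw [← Real.rpow_add hN0]
      norm_num
    rw [e]
    nlinarith
  · rw [Real.norm_eq_abs, Real.norm_eq_abs, abs_of_nonneg (by linarith),
      abs_of_nonneg (Real.rpow_nonneg hN0.le _)] at h4
    linarith
  · rw [Real.norm_eq_abs, Real.norm_eq_abs, abs_of_nonneg (by linarith),
      abs_of_nonneg (Real.rpow_nonneg hN0.le _)] at h5
    have hc : 0 < 5 * κ * Real.exp (1 / (400 * κ)) := by positivity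
    have e := mul_le_mul_of_nonneg_left h5 hc.le
    refine e.trans_eq ?_
    field_simp

/-- Let `z = ⌊N^κ⌋`, `R = ⌊N^(1/100)⌋`, `z₀ = ⌊log N / 2⌋`. Upper bound: `upper` at `z`. Lower bound:
`buch` from `z₀` to `z`, `legendre` at `z₀` (error `2^z₀ ≤ N^(2/5)`), `upper` for each term
`cntR (y/p) h' q b' p` with `h' ≤ h/p + 1` (error `R^4 + 2` each, at most `z` terms), `telesc`, and
`tail` for the factors `2 C₀ exp (-log R / log p)` with `Vq q p / q ≤ 1/(φ(q) log p)` (`Vq_le`,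
`V_le`). Finally `Vq q z = q/φ(q) * Vq 1 z` by `Vq_eq`. The additive errors are at most
`N^(κ + 1/20 + 2/5)`, which is absorbed because `h ≥ N^(3/4)`, `φ(q) ≤ N^(κ/2)`. `κ₀` is chosen such
that `C₀ exp (-1/(200 κ₀)) ≤ 1/2`. -/
theorem fund : ∃ C : ℝ, 0 < C ∧ ∃ κ₀ : ℝ, 0 < κ₀ ∧ κ₀ ≤ 1 / 1000 ∧ ∀ κ : ℝ, 0 < κ → κ ≤ κ₀ →
    ∃ N₀ : ℕ, ∀ N : ℕ, N₀ ≤ N → ∀ y h q b : ℕ, 1 ≤ q → (q : ℝ) ≤ (N : ℝ) ^ (κ / 2) →
      Nat.Coprime b q → (N : ℝ) ^ (3 / 4 : ℝ) ≤ h → h ≤ N →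
      |(cntR y h q b ⌊(N : ℝ) ^ κ⌋₊ : ℝ) - (h : ℝ) / q.totient * Vq 1 ⌊(N : ℝ) ^ κ⌋₊| ≤
        C * Real.exp (-(1 / (400 * κ))) * ((h : ℝ) / ((q.totient : ℝ) * (κ * Real.log N))) := by
  obtain ⟨C₀, hC₀, hup⟩ := upper
  obtain ⟨C₁, hC₁, htail⟩ := tail
  have hl2 : 0 ≤ Real.log (2 * C₀) := Real.log_nonneg (by linarith)
  refine ⟨4 * C₀ + 4 * C₀ * C₁ + 1, by positivity,
    min (1 / 1000) (1 / (200 * (Real.log (2 * C₀) + 1))), by positivity, min_le_left _ _, ?_⟩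
  intro κ hκ hκ₀
  have hκ1 : κ ≤ 1 / 1000 := hκ₀.trans (min_le_left _ _)
  have hκ2 : κ ≤ 1 / (200 * (Real.log (2 * C₀) + 1)) := hκ₀.trans (min_le_right _ _)
  have hκC : C₀ * Real.exp (-(1 / (200 * κ))) ≤ 1 / 2 := by
    have e1 : Real.log (2 * C₀) + 1 ≤ 1 / (200 * κ) := by
      rw [le_div_iff₀ (by positivity)]
      rw [le_div_iff₀ (by positivity)] at hκ2
      linarith
    have e2 : Real.exp (-(1 / (200 * κ))) ≤ (2 * C₀)⁻¹ := by
      rw [Real.exp_neg]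
      refine inv_anti₀ (by positivity) ?_
      calc 2 * C₀ = Real.exp (Real.log (2 * C₀)) := (Real.exp_log (by positivity)).symm
        _ ≤ Real.exp (1 / (200 * κ)) := Real.exp_le_exp.2 (by linarith)
    calc C₀ * Real.exp (-(1 / (200 * κ))) ≤ C₀ * (2 * C₀)⁻¹ :=
          mul_le_mul_of_nonneg_left e2 (by linarith)
      _ = 1 / 2 := by field_simp
  obtain ⟨N₀, hN₀⟩ := fund_large κ hκ
  refine ⟨N₀, ?_⟩
  intro N hN y h q b hq hqN hb hh hhN
  obtain ⟨hL1, hE2, hE3, hE4, hE5⟩ := hN₀ N hN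
  have hNpos : (0 : ℝ) < N := by
    rcases Nat.eq_zero_or_pos N with hn | hn
    · subst hn
      rw [Nat.cast_zero, Real.log_zero] at hL1
      linarith
    · exact_mod_cast hn
  have hN1 : (1 : ℝ) ≤ N := by
    have : 1 ≤ N := Nat.one_le_iff_ne_zero.2 (by rintro rfl; simp at hNpos)
    exact_mod_cast this
  obtain ⟨L, hL⟩ : ∃ L, L = Real.log N := ⟨_, rfl⟩
  rw [← hL] at hL1 hE4 hE5 ⊢
  have hL0 : 0 < L := by linarith
  have hpow : ∀ a : ℝ, (N : ℝ) ^ a = Real.exp (L * a) := fun a => by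
    rw [hL, Real.rpow_def_of_pos hNpos]
  obtain ⟨z, hz⟩ : ∃ z, z = ⌊(N : ℝ) ^ κ⌋₊ := ⟨_, rfl⟩
  obtain ⟨R, hR⟩ : ∃ R, R = ⌊(N : ℝ) ^ (1 / 100 : ℝ)⌋₊ := ⟨_, rfl⟩
  obtain ⟨z₀, hz₀⟩ : ∃ z₀, z₀ = ⌊L / 2⌋₊ := ⟨_, rfl⟩
  rw [← hz]
  have hκ20 : 0 ≤ (N : ℝ) ^ (κ / 2) := Real.rpow_nonneg hNpos.le _
  have hzup : (z : ℝ) ≤ (N : ℝ) ^ κ := by
    rw [hz]; exact Nat.floor_le (Real.rpow_nonneg hNpos.le _)
  have hzlow : (N : ℝ) ^ κ < z + 1 := by rw [hz]; exact Nat.lt_floor_add_one _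
  have hzκ : (N : ℝ) ^ (κ / 2) < z := by linarith
  have hRup : (R : ℝ) ≤ (N : ℝ) ^ (1 / 100 : ℝ) := by
    rw [hR]; exact Nat.floor_le (Real.rpow_nonneg hNpos.le _)
  have hRlow : (N : ℝ) ^ (1 / 100 : ℝ) < R + 1 := by rw [hR]; exact Nat.lt_floor_add_one _
  have hR200 : (N : ℝ) ^ (1 / 200 : ℝ) ≤ R := by linarith
  have hone : 1 ≤ (N : ℝ) ^ (κ / 2) := Real.one_le_rpow hN1 (by positivity)
  have hz2 : 2 ≤ z := by
    have : (1 : ℝ) < z := by linarith
    have h1 : 1 < z := by exact_mod_cast this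
    omega
  have hqz : q < z := by
    have : (q : ℝ) < z := by linarith
    exact_mod_cast this
  have hzR : z ≤ R := by
    rw [hz, hR]
    refine Nat.floor_mono ?_
    exact Real.rpow_le_rpow_of_exponent_le hN1 (by linarith)
  have hzz : z₀ ≤ z := by
    rw [hz, hz₀]
    exact Nat.floor_mono hE4
  have hR1 : 1 ≤ R := by omega
  have hz0' : (0 : ℝ) < z := by linarith
  have hR0' : (0 : ℝ) < R := by
    have : (1 : ℝ) ≤ R := by exact_mod_cast hR1
    linarith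
  -- logarithms
  have hlz1 : κ / 2 * L ≤ Real.log z := by
    have := Real.log_le_log (Real.rpow_pos_of_pos hNpos _) hzκ.le
    rwa [Real.log_rpow hNpos, ← hL] at this
  have hlz2 : Real.log z ≤ κ * L := by
    have := Real.log_le_log hz0' hzup
    rwa [Real.log_rpow hNpos, ← hL] at this
  have hlR1 : L / 200 ≤ Real.log R := by
    have := Real.log_le_log (Real.rpow_pos_of_pos hNpos _) hR200
    rw [Real.log_rpow hNpos, ← hL] at this
    linarith
  have hlz0 : 0 < Real.log z := lt_of_lt_of_le (by positivity) hlz1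
  have hratio : 1 / (200 * κ) ≤ Real.log R / Real.log z := by
    rw [div_le_div_iff₀ (by positivity) hlz0]
    have e1 : 1 * Real.log z ≤ κ * L := by linarith
    have e2 : L / 200 * (200 * κ) ≤ Real.log R * (200 * κ) :=
      mul_le_mul_of_nonneg_right hlR1 (by positivity)
    have e3 : L / 200 * (200 * κ) = κ * L := by ring
    linarith
  have he1 : Real.exp (-(Real.log R / Real.log z)) ≤ Real.exp (-(1 / (200 * κ))) :=
    Real.exp_le_exp.2 (neg_le_neg hratio)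
  have he2 : Real.exp (-(1 / (200 * κ))) ≤ Real.exp (-(1 / (400 * κ))) := by
    apply Real.exp_le_exp.2
    apply neg_le_neg
    exact one_div_le_one_div_of_le (by positivity) (by linarith)
  have he3 : Real.exp (-(Real.log R / (2 * Real.log z))) ≤ Real.exp (-(1 / (400 * κ))) := by
    apply Real.exp_le_exp.2
    apply neg_le_neg
    have e1 : Real.log R / (2 * Real.log z) = (Real.log R / Real.log z) / 2 := by
      rw [div_div, mul_comm]
    have e2 : 1 / (400 * κ) = (1 / (200 * κ)) / 2 := by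
      rw [div_div]
      congr 1
      ring
    rw [e1, e2]
    linarith
  have hsmall : C₀ * Real.exp (-(Real.log R / Real.log z)) ≤ 1 / 2 :=
    (mul_le_mul_of_nonneg_left he1 (by linarith)).trans hκC
  obtain ⟨E, hE⟩ : ∃ E, E = Real.exp (-(1 / (400 * κ))) := ⟨_, rfl⟩
  have hE0 : 0 < E := by rw [hE]; exact Real.exp_pos _
  rw [← hE] at he2 he3 ⊢
  have he12 : Real.exp (-(Real.log R / Real.log z)) ≤ E := he1.trans he2
  -- the main term
  have hφ : (0 : ℝ) < q.totient := by exact_mod_cast Nat.totient_pos.2 hq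
  have hq0 : (0 : ℝ) < q := by exact_mod_cast hq
  have hh0 : (0 : ℝ) ≤ h := Nat.cast_nonneg h
  have hM : (h : ℝ) / q * Vq q z = (h : ℝ) / q.totient * Vq 1 z := by
    rw [Vq_eq q z hq hqz]
    field_simp
  obtain ⟨X, hX⟩ : ∃ X, X = (h : ℝ) / ((q.totient : ℝ) * (κ * L)) := ⟨_, rfl⟩
  have hX0 : 0 ≤ X := by rw [hX]; positivity
  have hinv : 1 / Real.log z ≤ 2 / (κ * L) := by
    rw [div_le_div_iff₀ hlz0 (by positivity)]
    linarith
  have hX2 : (h : ℝ) / q.totient * (1 / Real.log z) ≤ 2 * X := by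
    refine (mul_le_mul_of_nonneg_left hinv (by positivity)).trans_eq ?_
    rw [hX]
    field_simp
  have hMX : (h : ℝ) / q.totient * Vq 1 z ≤ 2 * X :=
    (mul_le_mul_of_nonneg_left (V_le z hz2) (by positivity)).trans hX2
  have hM0 : 0 ≤ (h : ℝ) / q.totient * Vq 1 z := mul_nonneg (by positivity) (Vq_pos 1 z).le
  -- upper and lower bound
  have hU := hup y h q b z R hq hb hz2 hR1 hsmall
  have hLo := fund_lower hC₀ hC₁ hup htail (y := y) (h := h) hq hb hzz hz2 hzR hsmall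
  rw [hM] at hU hLo
  rw [← hX]
  -- additive errors
  have hA1 : (R : ℝ) ^ 4 ≤ (N : ℝ) ^ (1 / 25 : ℝ) := by
    have e1 : (R : ℝ) ^ 4 ≤ ((N : ℝ) ^ (1 / 100 : ℝ)) ^ 4 := pow_le_pow_left₀ hR0'.le hRup 4
    have e2 : ((N : ℝ) ^ (1 / 100 : ℝ)) ^ 4 = (N : ℝ) ^ (1 / 25 : ℝ) := by
      rw [← Real.rpow_natCast, ← Real.rpow_mul hNpos.le]
      norm_num
    rwa [e2] at e1
  have hA2 : (2 : ℝ) ^ z₀ ≤ (N : ℝ) ^ (2 / 5 : ℝ) := by
    have e1 : (2 : ℝ) ^ z₀ = Real.exp (Real.log 2 * z₀) := by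
      rw [← Real.rpow_natCast, Real.rpow_def_of_pos (by norm_num)]
    rw [e1, hpow]
    apply Real.exp_le_exp.2
    have e2 : (z₀ : ℝ) ≤ L / 2 := by rw [hz₀]; exact Nat.floor_le (by positivity)
    have e3 : Real.log 2 < 0.7 := by
      have := Real.log_two_lt_d9
      linarith
    have e4 : 0 < Real.log 2 := Real.log_pos (by norm_num)
    have e5 : Real.log 2 * z₀ ≤ Real.log 2 * (L / 2) := mul_le_mul_of_nonneg_left e2 e4.le
    nlinarith
  have hA3 : (N : ℝ) ^ (1 / 25 : ℝ) ≤ (N : ℝ) ^ (2 / 5 : ℝ) :=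
    Real.rpow_le_rpow_of_exponent_le hN1 (by norm_num)
  have hA4 : (z : ℝ) * (R : ℝ) ^ 4 ≤ (N : ℝ) ^ (2 / 5 : ℝ) := by
    have e1 : (z : ℝ) * (R : ℝ) ^ 4 ≤ (N : ℝ) ^ κ * (N : ℝ) ^ (1 / 25 : ℝ) := by
      refine mul_le_mul hzup hA1 (by positivity) (Real.rpow_nonneg hNpos.le _)
    rw [← Real.rpow_add hNpos] at e1
    exact e1.trans (Real.rpow_le_rpow_of_exponent_le hN1 (by linarith))
  have hA5 : (z : ℝ) ≤ (N : ℝ) ^ (2 / 5 : ℝ) :=
    hzup.trans (Real.rpow_le_rpow_of_exponent_le hN1 (by linarith))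
  have hEX : 5 * (N : ℝ) ^ (2 / 5 : ℝ) ≤ E * X := by
    have hden : 0 < (q.totient : ℝ) * (κ * L) := by positivity
    have e1 : (q.totient : ℝ) ≤ (N : ℝ) ^ (κ / 2) := by
      have : (q.totient : ℝ) ≤ q := by exact_mod_cast Nat.totient_le q
      linarith
    have e2 : E * Real.exp (1 / (400 * κ)) = 1 := by
      rw [hE, ← Real.exp_add]
      simp
    have e3 : 5 * (N : ℝ) ^ (2 / 5 : ℝ) * ((q.totient : ℝ) * (κ * L)) *
        Real.exp (1 / (400 * κ)) ≤ h := by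
      calc 5 * (N : ℝ) ^ (2 / 5 : ℝ) * ((q.totient : ℝ) * (κ * L)) * Real.exp (1 / (400 * κ)) =
          ((N : ℝ) ^ (2 / 5 : ℝ) * (q.totient : ℝ)) *
            (5 * κ * Real.exp (1 / (400 * κ)) * L) := by ring
        _ ≤ ((N : ℝ) ^ (2 / 5 : ℝ) * (N : ℝ) ^ (κ / 2)) * (N : ℝ) ^ (1 / 4 : ℝ) := by
            refine mul_le_mul ?_ hE5 (by positivity) (by positivity)
            exact mul_le_mul_of_nonneg_left e1 (Real.rpow_nonneg hNpos.le _)
        _ = (N : ℝ) ^ (2 / 5 + κ / 2 + 1 / 4 : ℝ) := by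
            rw [Real.rpow_add hNpos, Real.rpow_add hNpos]
        _ ≤ (N : ℝ) ^ (3 / 4 : ℝ) := Real.rpow_le_rpow_of_exponent_le hN1 (by linarith)
        _ ≤ h := hh
    have e5 : X * ((q.totient : ℝ) * (κ * L)) = h := by
      rw [hX]
      field_simp
    rw [← e5] at e3
    have e6 : 5 * (N : ℝ) ^ (2 / 5 : ℝ) * Real.exp (1 / (400 * κ)) ≤ X := by
      have e7 : (5 * (N : ℝ) ^ (2 / 5 : ℝ) * Real.exp (1 / (400 * κ))) *
          ((q.totient : ℝ) * (κ * L)) ≤ X * ((q.totient : ℝ) * (κ * L)) := by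
        refine le_trans (le_of_eq ?_) e3
        ring
      exact le_of_mul_le_mul_right e7 hden
    calc 5 * (N : ℝ) ^ (2 / 5 : ℝ) =
        E * (5 * (N : ℝ) ^ (2 / 5 : ℝ) * Real.exp (1 / (400 * κ))) := by
          linear_combination (-(5 * (N : ℝ) ^ (2 / 5 : ℝ))) * e2
      _ ≤ E * X := mul_le_mul_of_nonneg_left e6 hE0.le
  have hN25 : 0 ≤ (N : ℝ) ^ (2 / 5 : ℝ) := Real.rpow_nonneg hNpos.le _
  rw [abs_le]
  constructor
  · -- lower bound
    have e1 : 2 * C₀ * ((h : ℝ) / q.totient) *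
        (C₁ * Real.exp (-(Real.log R / (2 * Real.log z))) / Real.log z) ≤
        4 * C₀ * C₁ * E * X := by
      calc 2 * C₀ * ((h : ℝ) / q.totient) *
          (C₁ * Real.exp (-(Real.log R / (2 * Real.log z))) / Real.log z) =
          2 * C₀ * C₁ * (Real.exp (-(Real.log R / (2 * Real.log z))) *
            ((h : ℝ) / q.totient * (1 / Real.log z))) := by ring
        _ ≤ 2 * C₀ * C₁ * (E * (2 * X)) := by
            refine mul_le_mul_of_nonneg_left ?_ (by positivity)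
            exact mul_le_mul he3 hX2 (by positivity) hE0.le
        _ = 4 * C₀ * C₁ * E * X := by ring
    have e2 : 0 ≤ 4 * C₀ * E * X := by positivity
    have e3 : (4 * C₀ + 4 * C₀ * C₁ + 1) * E * X =
        4 * C₀ * E * X + 4 * C₀ * C₁ * E * X + E * X := by ring
    rw [e3]
    have e4 : (2 : ℝ) ^ z₀ + z * ((R : ℝ) ^ 4 + 2) ≤ 4 * (N : ℝ) ^ (2 / 5 : ℝ) := by
      have : (z : ℝ) * ((R : ℝ) ^ 4 + 2) = z * (R : ℝ) ^ 4 + 2 * z := by ring
      rw [this]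
      linarith
    linarith
  · have e1 : (h : ℝ) / q.totient * Vq 1 z *
        (1 + 2 * C₀ * Real.exp (-(Real.log R / Real.log z))) ≤
        (h : ℝ) / q.totient * Vq 1 z + 4 * C₀ * E * X := by
      have e2 : (h : ℝ) / q.totient * Vq 1 z *
          (2 * C₀ * Real.exp (-(Real.log R / Real.log z))) ≤ 2 * X * (2 * C₀ * E) := by
        refine mul_le_mul hMX ?_ (by positivity) (by positivity)
        exact mul_le_mul_of_nonneg_left he12 (by positivity)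
      linarith
    have e3 : (4 * C₀ + 4 * C₀ * C₁ + 1) * E * X =
        4 * C₀ * E * X + 4 * C₀ * C₁ * E * X + E * X := by ring
    rw [e3]
    have e4 : 0 ≤ 4 * C₀ * C₁ * E * X := by positivity
    linarith

end Pool.Agent.Lib.MP_629a14_nt.Rob
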