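import Pool.Agent.Lib.MP_629a14_nt.Rob.Rankin
import Pool.Agent.Lib.MP_60b32f_nt.Selberg

/-! Selberg's upper bound sieve for rough numbers in an interval and a residue class. -/

set_option autoImplicit false

namespace Pool.Agent.Lib.MP_629a14_nt.Rob

open Finset Pool.Agent.Lib.MP_629a14_nt

open BoundingSieve Pool.Agent.Lib.MP_60b32f_nt

private theorem upper_count (y h D c : ℕ) (hD : 0 < D) :
    |(((Ioc y (y + h)).filter (fun n => n ≡ c [MOD D])).card : ℝ) - (h : ℝ) / D| ≤ 1 := by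
  have h1 := Nat.Ioc_filter_modEq_card y (y + h) hD c
  have hD' : (0 : ℚ) < D := by exact_mod_cast hD
  have hle : ⌊((y : ℚ) - c) / (D : ℚ)⌋ ≤ ⌊(((y + h : ℕ) : ℚ) - c) / (D : ℚ)⌋ := by
    apply Int.floor_le_floor
    gcongr
    push_cast
    have : (0 : ℚ) ≤ h := Nat.cast_nonneg h
    linarith
  rw [max_eq_left (by linarith)] at h1
  have h2 : (((Ioc y (y + h)).filter (fun n => n ≡ c [MOD D])).card : ℚ)
      = (⌊(((y + h : ℕ) : ℚ) - c) / (D : ℚ)⌋ : ℚ) - (⌊((y : ℚ) - c) / (D : ℚ)⌋ : ℚ) := by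
    have : ((((Ioc y (y + h)).filter (fun n => n ≡ c [MOD D])).card : ℤ) : ℚ) =
      ((⌊(((y + h : ℕ) : ℚ) - c) / (D : ℚ)⌋ - ⌊((y : ℚ) - c) / (D : ℚ)⌋ : ℤ) : ℚ) := by
      rw [h1]
    rw [Int.cast_sub] at this
    rw [← this]
    simp
  have a1 := Int.floor_le ((((y + h : ℕ) : ℚ) - c) / (D : ℚ))
  have a2 := Int.lt_floor_add_one ((((y + h : ℕ) : ℚ) - c) / (D : ℚ))
  have b1 := Int.floor_le (((y : ℚ) - c) / (D : ℚ))
  have b2 := Int.lt_floor_add_one (((y : ℚ) - c) / (D : ℚ))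
  have e2 : (h : ℚ) / D = (((y + h : ℕ) : ℚ) - c) / (D : ℚ) - ((y : ℚ) - c) / (D : ℚ) := by
    push_cast
    field_simp
    ring
  have h3 : |(((Ioc y (y + h)).filter (fun n => n ≡ c [MOD D])).card : ℚ) - (h : ℚ) / D| ≤ 1 := by
    rw [h2, e2, abs_le]
    constructor <;> linarith
  have h4 : ((|(((Ioc y (y + h)).filter (fun n => n ≡ c [MOD D])).card : ℚ)
      - (h : ℚ) / D| : ℚ) : ℝ) ≤ ((1 : ℚ) : ℝ) := Rat.cast_le.2 h3
  push_cast at h4
  exact h4

private noncomputable def upperInv : ArithmeticFunction ℝ := ⟨fun d => 1 / (d : ℝ), by simp⟩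

private theorem upperInv_apply (d : ℕ) : upperInv d = 1 / (d : ℝ) := rfl

private theorem upperInv_mult : upperInv.IsMultiplicative := by
  rw [ArithmeticFunction.IsMultiplicative.iff_ne_zero]
  constructor
  · simp [upperInv_apply]
  · intro a b _ _ _
    rw [upperInv_apply, upperInv_apply, upperInv_apply]
    push_cast
    ring

/-- the sieve problem -/
private noncomputable def upperS (y h q b z : ℕ) : BoundingSieve where
  support := (Ioc y (y + h)).filter (fun n => n ≡ b [MOD q])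
  prodPrimes := Pq q z
  prodPrimes_squarefree := Pq_squarefree q z
  weights := fun _ => 1
  weights_nonneg := fun _ => zero_le_one
  totalMass := (h : ℝ) / q
  nu := upperInv
  nu_mult := upperInv_mult
  nu_pos_of_prime := by
    intro p hp _
    rw [upperInv_apply]
    have : (0 : ℝ) < p := by exact_mod_cast hp.pos
    positivity
  nu_lt_one_of_prime := by
    intro p hp _
    rw [upperInv_apply]
    have : (1 : ℝ) < p := by exact_mod_cast hp.one_lt
    rw [div_lt_one (by linarith)]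
    exact this

private theorem upper_terms (y h q b z d : ℕ) :
    (upperS y h q b z).selbergTerms d = 1 / (d.totient : ℝ) := by
  rw [selbergTerms_apply]
  have h1 := Nat.totient_eq_mul_prod_factors d
  have h2 : ((d.totient : ℚ) : ℝ) = ((d * ∏ p ∈ d.primeFactors, (1 - (p : ℚ)⁻¹) : ℚ) : ℝ) := by
    rw [h1]
  push_cast at h2
  rw [h2]
  change upperInv d * ∏ p ∈ d.primeFactors, (1 - upperInv p)⁻¹ = _
  simp only [upperInv_apply]
  rw [prod_inv_distrib, one_div, one_div, mul_inv]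
  simp only [one_div]

private theorem upper_bigJ (y h q b z R : ℕ) :
    bigJ (upperS y h q b z) R
      = ∑ d ∈ (Pq q z).divisors.filter (fun d => d ≤ R), 1 / (d.totient : ℝ) := by
  unfold bigJ lev
  exact sum_congr rfl fun d _ => upper_terms y h q b z d

private theorem upper_sifted (y h q b z : ℕ) :
    (cntR y h q b z : ℝ) ≤ (upperS y h q b z).siftedSum := by
  unfold siftedSum cntR
  rw [card_eq_sum_ones]
  push_cast
  change _ ≤ ∑ d ∈ (Ioc y (y + h)).filter (fun n => n ≡ b [MOD q]),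
    if Nat.Coprime (Pq q z) d then (1 : ℝ) else 0
  rw [← sum_filter, filter_filter]
  apply sum_le_sum_of_subset_of_nonneg
  · intro n hn
    rw [mem_filter] at hn ⊢
    refine ⟨hn.1, hn.2.1, ?_⟩
    rw [Nat.coprime_iff_gcd_eq_one]
    by_contra hg
    obtain ⟨p, hp, hpd⟩ := Nat.exists_prime_and_dvd hg
    have p1 : p ∣ Pq q z := hpd.trans (Nat.gcd_dvd_left _ _)
    have p2 : p ∣ n := hpd.trans (Nat.gcd_dvd_right _ _)
    have p3 := ((prime_dvd_Pq hp).1 p1).1
    have p4 := hn.2.2 p hp p2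
    omega
  · intro n _ _
    exact zero_le_one

private theorem upper_rem {y h q b z d : ℕ} (hq : 1 ≤ q) (hd : d ∣ Pq q z) :
    |(upperS y h q b z).rem d| ≤ 1 := by
  have hd0 : 0 < d := Nat.pos_of_ne_zero (ne_zero_of_dvd_ne_zero (Pq_squarefree q z).ne_zero hd)
  have hco : Nat.Coprime d q := by
    rw [Nat.coprime_iff_gcd_eq_one]
    by_contra hg
    obtain ⟨p, hp, hpd⟩ := Nat.exists_prime_and_dvd hg
    have p1 : p ∣ d := hpd.trans (Nat.gcd_dvd_left _ _)
    have p2 : p ∣ q := hpd.trans (Nat.gcd_dvd_right _ _)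
    exact ((prime_dvd_Pq hp).1 (p1.trans hd)).2 p2
  obtain ⟨c', hc1, hc2⟩ := Nat.chineseRemainder hco 0 b
  have h3 : ((Ioc y (y + h)).filter (fun n => n ≡ b [MOD q])).filter (fun n => d ∣ n)
      = (Ioc y (y + h)).filter (fun n => n ≡ c' [MOD (d * q)]) := by
    rw [filter_filter]
    apply filter_congr
    intro n _
    rw [← Nat.modEq_and_modEq_iff_modEq_mul hco, ← Nat.modEq_zero_iff_dvd]
    constructor
    · rintro ⟨h, h'⟩; exact ⟨h'.trans hc1.symm, h.trans hc2.symm⟩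
    · rintro ⟨h, h'⟩; exact ⟨h'.trans hc2, h.trans hc1⟩
  have h4 : (upperS y h q b z).rem d
      = (((Ioc y (y + h)).filter (fun n => n ≡ c' [MOD (d * q)])).card : ℝ)
        - (h : ℝ) / ((d * q : ℕ) : ℝ) := by
    unfold rem multSum
    change (∑ n ∈ (Ioc y (y + h)).filter (fun n => n ≡ b [MOD q]), if d ∣ n then (1 : ℝ) else 0)
      - upperInv d * ((h : ℝ) / q) = _
    rw [← sum_filter, h3, card_eq_sum_ones]
    push_cast
    rw [upperInv_apply, div_mul_div_comm, one_mul]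
  rw [h4]
  exact upper_count y h (d * q) c' (Nat.mul_pos hd0 hq)

/-- Apply `Pool.Agent.Lib.MP_60b32f_nt.selberg_bound` to the `BoundingSieve` with support the
numbers of `(y, y + h]` congruent to `b` modulo `q`, weights one, `prodPrimes = Pq q z`,
`nu d = 1/d`, `totalMass = h / q`; `|rem d| ≤ 1` for `d | Pq q z` (so `d` is prime to `q`), hence the
error is at most `(∑_{d ≤ R} d)^2 ≤ R^4`; the Selberg terms are `1/φ(d)`, so `bigJ` is the sum in
`rankin`. Numbers congruent to `b` are prime to `q`, so roughness only concerns primes not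
dividing `q`. Finally `1 / (1 - x) ≤ 1 + 2 x` for `0 ≤ x ≤ 1/2`. -/
theorem upper : ∃ C₀ : ℝ, 1 ≤ C₀ ∧ ∀ y h q b z R : ℕ, 1 ≤ q → Nat.Coprime b q → 2 ≤ z → 1 ≤ R →
    C₀ * Real.exp (-(Real.log R / Real.log z)) ≤ 1 / 2 →
      (cntR y h q b z : ℝ) ≤
        (h : ℝ) / q * Vq q z * (1 + 2 * C₀ * Real.exp (-(Real.log R / Real.log z))) + (R : ℝ) ^ 4 := by
  obtain ⟨C₀, hC₀, hrk⟩ := rankin
  refine ⟨C₀, hC₀, ?_⟩
  intro y h q b z R hq hb hz hR hx
  have hS := selberg_bound (upperS y h q b z) R hR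
  have h1 := upper_sifted y h q b z
  have h2 := hrk q z R hq hz hR
  rw [← upper_bigJ y h q b z R] at h2
  set J := bigJ (upperS y h q b z) R with hJ
  set x := C₀ * Real.exp (-(Real.log R / Real.log z)) with hxd
  have hx0 : 0 ≤ x := by positivity
  have hV := Vq_pos q z
  have hJpos : 0 < J := bigJ_pos hR
  have hJinv : J⁻¹ ≤ Vq q z * (1 + 2 * x) := by
    rw [inv_le_comm₀ hJpos (by positivity)]
    refine le_trans ?_ h2
    rw [mul_inv, mul_comm]
    apply mul_le_mul_of_nonneg_right _ (inv_nonneg.2 hV.le)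
    rw [inv_le_iff_one_le_mul₀ (by positivity)]
    nlinarith
  have herr : ∑ d1 ∈ lev (upperS y h q b z) R, ∑ d2 ∈ lev (upperS y h q b z) R,
      ((upperS y h q b z).nu d1)⁻¹ * ((upperS y h q b z).nu d2)⁻¹
        * |(upperS y h q b z).rem (d1.lcm d2)| ≤ (R : ℝ) ^ 4 := by
    have hnu : ∀ d, ((upperS y h q b z).nu d)⁻¹ = (d : ℝ) := by
      intro d
      change (upperInv d)⁻¹ = d
      rw [upperInv_apply, one_div, inv_inv]
    have h3 : ∀ d1 ∈ lev (upperS y h q b z) R, ∀ d2 ∈ lev (upperS y h q b z) R,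
        ((upperS y h q b z).nu d1)⁻¹ * ((upperS y h q b z).nu d2)⁻¹
        * |(upperS y h q b z).rem (d1.lcm d2)| ≤ (d1 : ℝ) * d2 := by
      intro d1 hd1 d2 hd2
      rw [hnu, hnu]
      have h4 : |(upperS y h q b z).rem (d1.lcm d2)| ≤ 1 :=
        upper_rem hq (Nat.lcm_dvd (mem_lev.1 hd1).1 (mem_lev.1 hd2).1)
      have h5 : (0 : ℝ) ≤ (d1 : ℝ) * d2 := by positivity
      nlinarith
    have h6 : ∑ d ∈ lev (upperS y h q b z) R, (d : ℝ) ≤ (R : ℝ) ^ 2 := by
      have hsub : lev (upperS y h q b z) R ⊆ Icc 1 R := by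
        intro d hd
        rw [mem_Icc]
        have := mem_lev.1 hd
        exact ⟨Nat.pos_of_ne_zero (ne_zero_of_dvd_ne_zero (Pq_squarefree q z).ne_zero this.1),
          this.2⟩
      calc ∑ d ∈ lev (upperS y h q b z) R, (d : ℝ) ≤ ∑ d ∈ Icc 1 R, (d : ℝ) :=
            sum_le_sum_of_subset_of_nonneg hsub (fun d _ _ => Nat.cast_nonneg d)
        _ ≤ ∑ _d ∈ Icc 1 R, (R : ℝ) :=
            sum_le_sum fun d hd => by exact_mod_cast (mem_Icc.1 hd).2
        _ = (R : ℝ) ^ 2 := by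
            rw [sum_const, Nat.card_Icc, nsmul_eq_mul, Nat.add_sub_cancel]
            ring
    have h7 : 0 ≤ ∑ d ∈ lev (upperS y h q b z) R, (d : ℝ) :=
      sum_nonneg fun d _ => Nat.cast_nonneg d
    calc _ ≤ ∑ d1 ∈ lev (upperS y h q b z) R, ∑ d2 ∈ lev (upperS y h q b z) R,
          (d1 : ℝ) * d2 := sum_le_sum fun d1 hd1 => sum_le_sum fun d2 hd2 => h3 d1 hd1 d2 hd2
      _ = (∑ d ∈ lev (upperS y h q b z) R, (d : ℝ)) ^ 2 := by
          rw [sq, sum_mul_sum]
      _ ≤ ((R : ℝ) ^ 2) ^ 2 := pow_le_pow_left₀ h7 h6 2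
      _ = (R : ℝ) ^ 4 := by ring
  have hM : (upperS y h q b z).totalMass = (h : ℝ) / q := rfl
  rw [hM] at hS
  have hM0 : (0 : ℝ) ≤ (h : ℝ) / q := by positivity
  have h8 : (h : ℝ) / q * J⁻¹ ≤ (h : ℝ) / q * (Vq q z * (1 + 2 * x)) :=
    mul_le_mul_of_nonneg_left hJinv hM0
  have e : (h : ℝ) / q * Vq q z * (1 + 2 * C₀ * Real.exp (-(Real.log R / Real.log z)))
      = (h : ℝ) / q * (Vq q z * (1 + 2 * x)) := by
    rw [hxd]; ring
  rw [e]
  linarith

end Pool.Agent.Lib.MP_629a14_nt.Rob
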