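import Pool.Agent.Lib.MP_629a14_nt.Rob.Upper
import Pool.Agent.Lib.MP_629a14_nt.Rob.Buch

/-! Brun-Titchmarsh bound for rough numbers and primes. -/

set_option autoImplicit false

namespace Pool.Agent.Lib.MP_629a14_nt.Rob

open Finset Pool.Agent.Lib.MP_629a14_nt

private theorem half_le_floor {x : ℝ} (hx : 1 ≤ x) : x / 2 ≤ (⌊x⌋₊ : ℝ) := by
  have h1 : 1 ≤ ⌊x⌋₊ := (Nat.one_le_floor_iff x).mpr hx
  have h2 : x < (⌊x⌋₊ : ℝ) + 1 := Nat.lt_floor_add_one x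
  have h3 : (1 : ℝ) ≤ (⌊x⌋₊ : ℝ) := by exact_mod_cast h1
  linarith

/-- `upper` with `R = ⌊N^(κ/16)⌋` and `z' = ⌊N^(κ/(16 (s+1)))⌋`, `C₀ exp (-s) ≤ 1/2`, and `cntR_anti`;
`Vq q z' ≤ q / (φ(q) log z')`, `R^4 ≤ N^(κ/4)`. -/
theorem bt (κ : ℝ) (hκ : 0 < κ) (hκ1 : κ ≤ 1) : ∃ C : ℝ, 0 < C ∧ ∃ N₀ : ℕ, ∀ N : ℕ, N₀ ≤ N →
    ∀ y h q b : ℕ, 1 ≤ q → (q : ℝ) ≤ (N : ℝ) ^ (κ / 16) → Nat.Coprime b q →
      (N : ℝ) ^ (κ / 2) ≤ h →
      (cntR y h q b ⌊(N : ℝ) ^ κ⌋₊ : ℝ) ≤ C * ((h : ℝ) / ((q.totient : ℝ) * Real.log N)) := by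
  obtain ⟨C₀, hC₀, hup⟩ := upper
  set s : ℝ := Real.log (2 * C₀) with hs
  have hs0 : 0 ≤ s := Real.log_nonneg (by linarith)
  set t : ℝ := κ / (16 * (s + 1)) with ht
  have ht0 : 0 < t := by positivity
  have htκ : t ≤ κ := by
    rw [ht, div_le_iff₀ (by positivity)]
    nlinarith
  have hts : t * (s + 1) = κ / 16 := by
    rw [ht]; field_simp
  obtain ⟨N₀, hN₀⟩ : ∃ N₀ : ℕ, ∀ N : ℕ, N₀ ≤ N → 2 * Real.log 2 / t ≤ Real.log N := by
    have h1 : Filter.Tendsto (fun N : ℕ => Real.log N) Filter.atTop Filter.atTop :=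
      Real.tendsto_log_atTop.comp tendsto_natCast_atTop_atTop
    exact Filter.eventually_atTop.mp (h1.eventually_ge_atTop _)
  refine ⟨64 * (s + 1) / κ + 16 / κ, by positivity, max N₀ 2, ?_⟩
  intro N hN y h q b hq hqN hb hh
  have hNN : N₀ ≤ N := le_of_max_le_left hN
  have hN2 : 2 ≤ N := le_of_max_le_right hN
  have hNr : (2 : ℝ) ≤ N := by exact_mod_cast hN2
  have hN1 : (1 : ℝ) ≤ N := by linarith
  have hNpos : (0 : ℝ) < N := by linarith
  set L : ℝ := Real.log N with hL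
  have hLpos : 0 < L := Real.log_pos (by linarith)
  have hlog2 : 0 < Real.log 2 := Real.log_pos (by norm_num)
  have htL : 2 * Real.log 2 ≤ t * L := by
    have := hN₀ N hNN
    rw [div_le_iff₀ ht0] at this
    linarith
  -- powers
  have hpow : ∀ a : ℝ, (N : ℝ) ^ a = Real.exp (a * L) := by
    intro a
    rw [Real.rpow_def_of_pos hNpos, mul_comm]
  have hpow1 : ∀ a : ℝ, 0 ≤ a → (1 : ℝ) ≤ (N : ℝ) ^ a := fun a ha =>
    Real.one_le_rpow hN1 ha
  set z' : ℕ := ⌊(N : ℝ) ^ t⌋₊ with hz'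
  set R : ℕ := ⌊(N : ℝ) ^ (κ / 16)⌋₊ with hR
  have hz4 : (4 : ℝ) ≤ (N : ℝ) ^ t := by
    rw [hpow]
    have : (4 : ℝ) = Real.exp (2 * Real.log 2) := by
      rw [two_mul, Real.exp_add, Real.exp_log (by norm_num)]; norm_num
    rw [this]
    exact Real.exp_le_exp.mpr htL
  have hz'le : (z' : ℝ) ≤ (N : ℝ) ^ t := Nat.floor_le (by linarith)
  have hz'ge : (N : ℝ) ^ t / 2 ≤ (z' : ℝ) := half_le_floor (by linarith)
  have hz'2 : 2 ≤ z' := by
    have : (2 : ℝ) ≤ z' := by linarith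
    exact_mod_cast this
  have hz'2r : (2 : ℝ) ≤ z' := by exact_mod_cast hz'2
  have hlogz_le : Real.log z' ≤ t * L := by
    have h1 := Real.log_le_log (by linarith) hz'le
    rwa [Real.log_rpow hNpos] at h1
  have hlogz_ge : t * L / 2 ≤ Real.log z' := by
    have h1 := Real.log_le_log (by linarith) hz'ge
    rw [Real.log_div (by linarith) (by norm_num), Real.log_rpow hNpos] at h1
    linarith
  have hlogz_pos : 0 < Real.log z' := Real.log_pos (by linarith)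
  have hR1r : (1 : ℝ) ≤ (N : ℝ) ^ (κ / 16) := hpow1 _ (by positivity)
  have hR1 : 1 ≤ R := (Nat.one_le_floor_iff _).mpr hR1r
  have hRr : (1 : ℝ) ≤ R := by exact_mod_cast hR1
  have hRle : (R : ℝ) ≤ (N : ℝ) ^ (κ / 16) := Nat.floor_le (by linarith)
  have hRge : (N : ℝ) ^ (κ / 16) / 2 ≤ (R : ℝ) := half_le_floor hR1r
  have hlogR : κ / 16 * L - Real.log 2 ≤ Real.log R := by
    have h1 := Real.log_le_log (by linarith) hRge
    rw [Real.log_div (by linarith) (by norm_num), Real.log_rpow hNpos] at h1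
    exact h1
  have hratio : s ≤ Real.log R / Real.log z' := by
    rw [le_div_iff₀ hlogz_pos]
    have h1 : s * Real.log z' ≤ s * (t * L) := mul_le_mul_of_nonneg_left hlogz_le hs0
    have h2 : κ / 16 * L = s * (t * L) + t * L := by
      rw [← hts]; ring
    linarith
  have hexp : C₀ * Real.exp (-(Real.log R / Real.log z')) ≤ 1 / 2 := by
    have h1 : Real.exp (-(Real.log R / Real.log z')) ≤ Real.exp (-s) :=
      Real.exp_le_exp.mpr (by linarith)
    have h2 : Real.exp (-s) = (2 * C₀)⁻¹ := by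
      rw [Real.exp_neg, hs, Real.exp_log (by linarith)]
    rw [h2] at h1
    calc C₀ * Real.exp (-(Real.log R / Real.log z')) ≤ C₀ * (2 * C₀)⁻¹ :=
          mul_le_mul_of_nonneg_left h1 (by linarith)
      _ = 1 / 2 := by
          have : C₀ ≠ 0 := by linarith
          field_simp
  have hmain := hup y h q b z' R hq hb hz'2 hR1 hexp
  have hanti : (cntR y h q b ⌊(N : ℝ) ^ κ⌋₊ : ℝ) ≤ (cntR y h q b z' : ℝ) := by
    have : z' ≤ ⌊(N : ℝ) ^ κ⌋₊ := Nat.floor_mono (Real.rpow_le_rpow_of_exponent_le hN1 htκ)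
    exact_mod_cast cntR_anti y h q b this
  have hq0 : (0 : ℝ) < q := by exact_mod_cast hq
  have hφ : (0 : ℝ) < q.totient := by exact_mod_cast Nat.totient_pos.mpr hq
  have hφq : (q.totient : ℝ) ≤ q := by exact_mod_cast Nat.totient_le q
  have hV : Vq q z' ≤ (q : ℝ) / q.totient * (2 / (t * L)) := by
    refine (Vq_le q z' hq).trans (mul_le_mul_of_nonneg_left ?_ (by positivity))
    refine (V_le z' hz'2).trans ?_
    rw [div_le_div_iff₀ hlogz_pos (by positivity)]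
    linarith
  have hVpos := Vq_pos q z'
  have hh0 : (0 : ℝ) ≤ h := Nat.cast_nonneg h
  have hfirst : (h : ℝ) / q * Vq q z' *
      (1 + 2 * C₀ * Real.exp (-(Real.log R / Real.log z'))) ≤
      64 * (s + 1) / κ * ((h : ℝ) / ((q.totient : ℝ) * L)) := by
    have h1 : 1 + 2 * C₀ * Real.exp (-(Real.log R / Real.log z')) ≤ 2 := by linarith
    have h2 : 0 ≤ (h : ℝ) / q * Vq q z' := by positivity
    calc (h : ℝ) / q * Vq q z' * (1 + 2 * C₀ * Real.exp (-(Real.log R / Real.log z')))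
        ≤ (h : ℝ) / q * Vq q z' * 2 := mul_le_mul_of_nonneg_left h1 h2
      _ ≤ (h : ℝ) / q * ((q : ℝ) / q.totient * (2 / (t * L))) * 2 := by
          refine mul_le_mul_of_nonneg_right ?_ (by norm_num)
          exact mul_le_mul_of_nonneg_left hV (by positivity)
      _ = 64 * (s + 1) / κ * ((h : ℝ) / ((q.totient : ℝ) * L)) := by
          rw [ht]
          field_simp
          ring
  have hsecond : (R : ℝ) ^ 4 ≤ 16 / κ * ((h : ℝ) / ((q.totient : ℝ) * L)) := by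
    have h1 : (R : ℝ) ^ 4 ≤ (N : ℝ) ^ (κ / 4) := by
      calc (R : ℝ) ^ 4 ≤ ((N : ℝ) ^ (κ / 16)) ^ 4 := pow_le_pow_left₀ (by linarith) hRle 4
        _ = (N : ℝ) ^ (κ / 4) := by
            rw [← Real.rpow_natCast, ← Real.rpow_mul hNpos.le]
            congr 1
            push_cast
            ring
    have h2 : L ≤ (N : ℝ) ^ (κ / 16) / (κ / 16) := Real.log_le_rpow_div hNpos.le (by positivity)
    have h3 : (q.totient : ℝ) ≤ (N : ℝ) ^ (κ / 16) := hφq.trans hqN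
    have h4 : (q.totient : ℝ) * L ≤ (N : ℝ) ^ (κ / 16) * ((N : ℝ) ^ (κ / 16) / (κ / 16)) :=
      mul_le_mul h3 h2 hLpos.le (by positivity)
    have h5 : (N : ℝ) ^ (κ / 4) * ((N : ℝ) ^ (κ / 16) * (N : ℝ) ^ (κ / 16)) ≤ (N : ℝ) ^ (κ / 2) := by
      rw [← Real.rpow_add hNpos, ← Real.rpow_add hNpos]
      exact Real.rpow_le_rpow_of_exponent_le hN1 (by linarith)
    rw [← mul_div_assoc, le_div_iff₀ (by positivity)]
    calc (R : ℝ) ^ 4 * ((q.totient : ℝ) * L)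
        ≤ (N : ℝ) ^ (κ / 4) * ((N : ℝ) ^ (κ / 16) * ((N : ℝ) ^ (κ / 16) / (κ / 16))) :=
          mul_le_mul h1 h4 (by positivity) (by positivity)
      _ = 16 / κ * ((N : ℝ) ^ (κ / 4) * ((N : ℝ) ^ (κ / 16) * (N : ℝ) ^ (κ / 16))) := by
          field_simp
      _ ≤ 16 / κ * (N : ℝ) ^ (κ / 2) := mul_le_mul_of_nonneg_left h5 (by positivity)
      _ ≤ 16 / κ * h := mul_le_mul_of_nonneg_left hh (by positivity)
  calc (cntR y h q b ⌊(N : ℝ) ^ κ⌋₊ : ℝ) ≤ (cntR y h q b z' : ℝ) := hanti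
    _ ≤ _ := hmain
    _ ≤ 64 * (s + 1) / κ * ((h : ℝ) / ((q.totient : ℝ) * L)) +
        16 / κ * ((h : ℝ) / ((q.totient : ℝ) * L)) := add_le_add hfirst hsecond
    _ = (64 * (s + 1) / κ + 16 / κ) * ((h : ℝ) / ((q.totient : ℝ) * L)) := by ring

/-- The primes in `(y, y + h]` congruent to `b` are `z`-rough if `z ≤ y + 1`. -/
theorem primes_le_cntR (y h q b z : ℕ) (hz : z ≤ y + 1) :
    ((Ioc y (y + h)).filter (fun p => p.Prime ∧ p ≡ b [MOD q])).card ≤ cntR y h q b z := by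
  unfold cntR
  apply card_le_card
  intro n hn
  rw [mem_filter] at hn ⊢
  refine ⟨hn.1, hn.2.2, ?_⟩
  intro p hp hpn
  have h1 : p = n := (Nat.prime_dvd_prime_iff_eq hp hn.2.1).mp hpn
  have h2 := (mem_Ioc.mp hn.1).1
  omega

end Pool.Agent.Lib.MP_629a14_nt.Rob
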