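import Pool.Agent.Lib.MP_629a14_nt.Rob.Defs

/-! Bounds for the sieve products. -/

set_option autoImplicit false

namespace Pool.Agent.Lib.MP_629a14_nt.Rob

open Finset Pool.Agent.Lib.MP_629a14_nt

private theorem fac_pos {p : ℕ} (hp : p.Prime) : 0 < 1 - 1 / (p : ℝ) := by
  have h : (2 : ℝ) ≤ p := by exact_mod_cast hp.two_le
  rw [sub_pos, div_lt_one (by linarith)]
  linarith

private theorem fac_le {p : ℕ} : 1 - 1 / (p : ℝ) ≤ 1 := by
  have : 0 ≤ 1 / (p : ℝ) := by positivity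
  linarith

theorem Vq_pos (q z : ℕ) : 0 < Vq q z := by
  unfold Vq
  exact Finset.prod_pos fun p hp => fac_pos (mem_filter.mp hp).2.1

theorem Vq_le_one (q z : ℕ) : Vq q z ≤ 1 := by
  unfold Vq
  exact Finset.prod_le_one (fun p hp => (fac_pos (mem_filter.mp hp).2.1).le) fun p _ => fac_le

private theorem Vq_one (z : ℕ) : Vq 1 z = ∏ p ∈ z.primesBelow, (1 - 1 / (p : ℝ)) := by
  unfold Vq Nat.primesBelow
  refine Finset.prod_congr ?_ fun _ _ => rfl
  refine Finset.filter_congr fun p _ => ?_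
  constructor
  · exact fun h => h.1
  · exact fun h => ⟨h, fun h1 => h.one_lt.ne' (Nat.dvd_one.mp h1)⟩

/-- `n ↦ 1/n` -/
private noncomputable def invHom : ℕ →* ℝ where
  toFun n := ((n : ℝ))⁻¹
  map_one' := by simp
  map_mul' m n := by push_cast; rw [mul_inv]

/-- `1 / V(z) = ∏ (1 - 1/p)⁻¹ ≥ ∑_{n < z} 1/n ≥ log z`. -/
theorem V_le (z : ℕ) (hz : 2 ≤ z) : Vq 1 z ≤ 1 / Real.log z := by
  have hlog : 0 < Real.log z := Real.log_pos (by exact_mod_cast hz)
  have hpos : 0 < Vq 1 z := Vq_pos 1 z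
  rw [le_div_iff₀ hlog]
  have hlt : ∀ {p : ℕ}, p.Prime → ‖invHom p‖ < 1 := by
    intro p hp
    have h : (2 : ℝ) ≤ p := by exact_mod_cast hp.two_le
    show ‖((p : ℝ))⁻¹‖ < 1
    rw [norm_inv, Real.norm_of_nonneg (by linarith)]
    exact inv_lt_one_of_one_lt₀ (by linarith)
  obtain ⟨-, hs⟩ :=
    EulerProduct.summable_and_hasSum_smoothNumbers_prod_primesBelow_geometric hlt z
  have hprod : ∏ p ∈ z.primesBelow, (1 - invHom p)⁻¹ = (Vq 1 z)⁻¹ := by
    rw [Vq_one, Finset.prod_inv_distrib]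
    congr 1
    refine Finset.prod_congr rfl fun p _ => ?_
    show 1 - ((p : ℝ))⁻¹ = 1 - 1 / (p : ℝ)
    rw [one_div]
  rw [hprod] at hs
  -- the partial sum
  have hsub : ∑ n ∈ Icc 1 (z - 1), ((n : ℝ))⁻¹ ≤ (Vq 1 z)⁻¹ := by
    let e : ℕ → Nat.smoothNumbers z := fun n =>
      if h : 0 < n ∧ n < z then ⟨n, Nat.mem_smoothNumbers_of_lt h.1 h.2⟩
      else ⟨1, Nat.mem_smoothNumbers_of_lt one_pos (by omega)⟩
    have he : ∀ n ∈ Icc 1 (z - 1), (e n : ℕ) = n := by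
      intro n hn
      rw [mem_Icc] at hn
      have h : 0 < n ∧ n < z := ⟨by omega, by omega⟩
      simp only [e, dif_pos h]
    have hinj : Set.InjOn e (Icc 1 (z - 1) : Finset ℕ) := by
      intro a ha b hb hab
      rw [← he a ha, ← he b hb, hab]
    have h1 : ∑ n ∈ Icc 1 (z - 1), ((n : ℝ))⁻¹ =
        ∑ m ∈ (Icc 1 (z - 1)).image e, invHom m := by
      rw [Finset.sum_image hinj]
      refine Finset.sum_congr rfl fun n hn => ?_
      rw [he n hn]
      rfl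
    rw [h1]
    exact sum_le_hasSum _ (fun m _ => inv_nonneg.mpr (Nat.cast_nonneg _)) hs
  have hharm : Real.log z ≤ ∑ n ∈ Icc 1 (z - 1), ((n : ℝ))⁻¹ := by
    have h1 := log_add_one_le_harmonic (z - 1)
    rw [show z - 1 + 1 = z by omega, harmonic_eq_sum_Icc] at h1
    push_cast at h1
    exact h1
  have h2 : Real.log z ≤ (Vq 1 z)⁻¹ := hharm.trans hsub
  calc Vq 1 z * Real.log z ≤ Vq 1 z * (Vq 1 z)⁻¹ := mul_le_mul_of_nonneg_left h2 hpos.le
    _ = 1 := mul_inv_cancel₀ hpos.ne'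

private theorem Vq_split (q z : ℕ) :
    Vq 1 z = Vq q z * ∏ p ∈ (range z).filter (fun p => p.Prime ∧ p ∣ q), (1 - 1 / (p : ℝ)) := by
  rw [Vq_one]
  unfold Vq Nat.primesBelow
  rw [← Finset.prod_filter_not_mul_prod_filter ((range z).filter Nat.Prime) (fun p => p ∣ q)]
  congr 1
  · refine Finset.prod_congr ?_ fun _ _ => rfl
    rw [Finset.filter_filter]
  · refine Finset.prod_congr ?_ fun _ _ => rfl
    rw [Finset.filter_filter]

private theorem tot_eq (q : ℕ) (hq : 1 ≤ q) :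
    ((q.totient : ℝ)) / q = ∏ p ∈ q.primeFactors, (1 - 1 / (p : ℝ)) := by
  have h := Nat.totient_eq_mul_prod_factors q
  have h2 : ((q.totient : ℚ) : ℝ) = ((q * ∏ p ∈ q.primeFactors, (1 - (p : ℚ)⁻¹) : ℚ) : ℝ) := by
    rw [h]
  push_cast at h2
  have hq0 : (q : ℝ) ≠ 0 := by exact_mod_cast (by omega : q ≠ 0)
  rw [h2, mul_div_cancel_left₀ _ hq0]
  refine Finset.prod_congr rfl fun p _ => ?_
  rw [one_div]

/-- `V_q(z) ∏_{p | q, p < z} (1 - 1/p) = V(z)` and `φ(q)/q = ∏_{p | q} (1 - 1/p)`. -/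
theorem Vq_le (q z : ℕ) (hq : 1 ≤ q) : Vq q z ≤ (q : ℝ) / q.totient * Vq 1 z := by
  have hq0 : (0 : ℝ) < q := by exact_mod_cast hq
  have ht0 : (0 : ℝ) < q.totient := by exact_mod_cast Nat.totient_pos.mpr hq
  have h1 : (q.totient : ℝ) / q ≤
      ∏ p ∈ (range z).filter (fun p => p.Prime ∧ p ∣ q), (1 - 1 / (p : ℝ)) := by
    rw [tot_eq q hq]
    refine Finset.prod_le_prod_of_subset_of_le_one ?_ ?_ ?_
    · intro p hp
      rw [mem_filter] at hp
      exact Nat.mem_primeFactors.mpr ⟨hp.2.1, hp.2.2, by omega⟩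
    · exact fun p hp => (fac_pos (Nat.prime_of_mem_primeFactors hp)).le
    · exact fun p _ _ => fac_le
  rw [Vq_split q z, ← mul_assoc, mul_comm ((q : ℝ) / q.totient), mul_assoc]
  refine le_mul_of_one_le_right (Vq_pos q z).le ?_
  calc (1 : ℝ) = (q : ℝ) / q.totient * ((q.totient : ℝ) / q) := by field_simp
    _ ≤ _ := mul_le_mul_of_nonneg_left h1 (by positivity)

theorem Vq_eq (q z : ℕ) (hq : 1 ≤ q) (hz : q < z) : Vq q z = (q : ℝ) / q.totient * Vq 1 z := by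
  have hq0 : (0 : ℝ) < q := by exact_mod_cast hq
  have ht0 : (0 : ℝ) < q.totient := by exact_mod_cast Nat.totient_pos.mpr hq
  have h1 : (q.totient : ℝ) / q =
      ∏ p ∈ (range z).filter (fun p => p.Prime ∧ p ∣ q), (1 - 1 / (p : ℝ)) := by
    rw [tot_eq q hq]
    refine Finset.prod_congr ?_ fun _ _ => rfl
    ext p
    simp only [Nat.mem_primeFactors, mem_filter, mem_range]
    constructor
    · rintro ⟨h1, h2, h3⟩
      exact ⟨lt_of_le_of_lt (Nat.le_of_dvd (by omega) h2) hz, h1, h2⟩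
    · rintro ⟨_, h1, h2⟩
      exact ⟨h1, h2, by omega⟩
  rw [Vq_split q z, ← h1]
  field_simp

end Pool.Agent.Lib.MP_629a14_nt.Rob
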