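import Mathlib
import Pool.Agent.Lib.MP_629a14_nt.Fourier

/-! Definitions for the robustness theorem for the binary Goldbach problem. -/

set_option autoImplicit false

namespace Pool.Agent.Lib.MP_629a14_nt.Rob

open Finset Pool.Agent.Lib.MP_629a14_nt

/-- `n` has no prime factor smaller than `z`. -/
def Rough (z n : ℕ) : Prop := ∀ p : ℕ, p.Prime → p ∣ n → z ≤ p

noncomputable instance (z : ℕ) : DecidablePred (Rough z) := fun _ => Classical.dec _

/-- Product of `1 - 1/p` over the primes `p < z` not dividing `q`. -/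
noncomputable def Vq (q z : ℕ) : ℝ :=
  ∏ p ∈ (range z).filter (fun p => p.Prime ∧ ¬ p ∣ q), (1 - 1 / (p : ℝ))

/-- The number of `z`-rough numbers in `(y, y + h]` congruent to `b` modulo `q`. -/
noncomputable def cntR (y h q b z : ℕ) : ℕ :=
  ((Ioc y (y + h)).filter (fun n => n ≡ b [MOD q] ∧ Rough z n)).card

/-- Exponential sum over the primes up to `N`. -/
noncomputable def SP (N : ℕ) (α : ℝ) : ℂ := ∑ p ∈ (Icc 1 N).filter Nat.Prime, ee (p * α)

/-- Exponential sum over the `z`-rough numbers up to `N`. -/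
noncomputable def SR (N z : ℕ) (α : ℝ) : ℂ := ∑ n ∈ (Icc 1 N).filter (Rough z), ee (n * α)

/-- The weights `1 / (1 + Ω(m))` on the rough numbers `m > 1`. -/
noncomputable def cc (z m : ℕ) : ℝ :=
  if 1 < m ∧ Rough z m then 1 / (1 + (ArithmeticFunction.cardFactors m : ℝ)) else 0

/-- The bilinear sum of Ramaré's identity. -/
noncomputable def SB (N z : ℕ) (α : ℝ) : ℂ :=
  ∑ p ∈ (Icc z N).filter Nat.Prime, ∑ m ∈ Icc 1 (N / p), (cc z m : ℂ) * ee ((p : ℝ) * m * α)

/-- Distance to the nearest integer. -/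
noncomputable def nn (x : ℝ) : ℝ := |x - round x|

/-- A smooth upper bound for `min Y (1 / (2 ‖x‖))`. -/
noncomputable def gK (Y x : ℝ) : ℝ := 2 * Y / (1 + Y * nn x)

/-- The weight `W / φ(W)` on the integers coprime to `W`, where `W` is the product of the primes
up to `v`. -/
noncomputable def nu (v m : ℕ) : ℝ :=
  if Nat.Coprime m (primorial v) then (primorial v : ℝ) / (primorial v).totient else 0

/-- Exponential sum with the weights `nu`. -/
noncomputable def SN (v N : ℕ) (α : ℝ) : ℂ := ∑ m ∈ Icc 1 N, (nu v m : ℂ) * ee (m * α)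

/-- The difference between the normalised primes and `nu`. -/
noncomputable def gg (v N m : ℕ) : ℝ := (if m.Prime then Real.log N else 0) - nu v m

/-- The number of elements of `B` which are primes up to `x`. -/
noncomputable def cntB (B : Set ℕ) (x : ℕ) : ℕ := by
  classical exact ((Icc 1 x).filter (fun p => p.Prime ∧ p ∈ B)).card

/-- The number of representations `n = p + q` with primes `p ∉ B₁`, `q ∉ B₂`. -/
noncomputable def reps (B₁ B₂ : Set ℕ) (n : ℕ) : ℕ := by
  classical exact ((range (n + 1)).filter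
    (fun p => p.Prime ∧ (n - p).Prime ∧ p ∉ B₁ ∧ n - p ∉ B₂)).card

/-- Product of `(p - 2) / (p - 1)` over the odd primes up to `w`. -/
noncomputable def Del (w : ℕ) : ℝ :=
  ∏ p ∈ (Icc 3 w).filter Nat.Prime, (((p : ℝ) - 2) / ((p : ℝ) - 1))

/-- The local density `(W / φ(W)) ∏ (p - 2) / (p - 1)` (odd primes `p ≤ v` not dividing `n`). -/
noncomputable def sig (v n : ℕ) : ℝ := (primorial v : ℝ) / (primorial v).totient *
  ∏ p ∈ (Icc 3 v).filter (fun p => p.Prime ∧ ¬ p ∣ n), (((p : ℝ) - 2) / ((p : ℝ) - 1))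

end Pool.Agent.Lib.MP_629a14_nt.Rob
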