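import Mathlib

/-! An Abelian theorem. -/

set_option autoImplicit false

namespace Pool.Agent.Lib.MP_629a14_nt.Rob

open Finset

open Filter Topology

/-- `∫_0^∞ exp(-u) log u du = -γ`: `Real.eulerMascheroniConstant_eq_neg_deriv` (in
`Mathlib/NumberTheory/Harmonic/GammaDeriv.lean`) and `Complex.hasDerivAt_GammaIntegral`. -/
theorem int_log_exp : ∫ u in Set.Ioi (0 : ℝ), Real.exp (-u) * Real.log u =
    -Real.eulerMascheroniConstant := by
  have h1 := Complex.hasDerivAt_GammaIntegral (s := 1) (by simp)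
  have h2 : HasDerivAt Complex.Gamma (∫ t : ℝ in Set.Ioi 0, (t : ℂ) ^ ((1 : ℂ) - 1) *
      ((Real.log t : ℂ) * (Real.exp (-t) : ℂ))) 1 := by
    refine h1.congr_of_eventuallyEq ?_
    have hopen : IsOpen {s : ℂ | 0 < s.re} := isOpen_lt continuous_const Complex.continuous_re
    filter_upwards [hopen.mem_nhds (show (0 : ℝ) < (1 : ℂ).re by simp)] with s hs
    rw [Complex.Gamma_eq_integral hs]
  have h3 := h2.unique Complex.hasDerivAt_Gamma_one
  have h4 : (∫ t : ℝ in Set.Ioi 0, (t : ℂ) ^ ((1 : ℂ) - 1) *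
      ((Real.log t : ℂ) * (Real.exp (-t) : ℂ))) =
      ((∫ u in Set.Ioi (0 : ℝ), Real.exp (-u) * Real.log u : ℝ) : ℂ) := by
    rw [← integral_complex_ofReal]
    refine MeasureTheory.integral_congr_ae (Filter.Eventually.of_forall fun t => ?_)
    simp only [sub_self, Complex.cpow_zero, one_mul]
    push_cast
    ring
  rw [h4] at h3
  exact_mod_cast h3

private theorem M3A.int_dom : MeasureTheory.IntegrableOn
    (fun u : ℝ => Real.exp (-u) * Real.log u) (Set.Ioi 0) := by
  have g1 := Real.GammaIntegral_convergent (s := 2) (by norm_num)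
  have g2 := Real.GammaIntegral_convergent (s := 1 / 2) (by norm_num)
  refine MeasureTheory.Integrable.mono' (g1.add (g2.const_mul 2)) ?_ ?_
  · exact (Real.measurable_exp.comp measurable_neg).mul Real.measurable_log |>.aestronglyMeasurable
  · refine (MeasureTheory.ae_restrict_mem measurableSet_Ioi).mono fun u hu => ?_
    have hu0 : (0 : ℝ) < u := hu
    simp only [Pi.add_apply]
    rw [Real.norm_eq_abs, abs_mul, abs_of_pos (Real.exp_pos _)]
    have e1 : u ^ ((2 : ℝ) - 1) = u := by norm_num
    rw [e1]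
    have hsq : 0 < u ^ ((1 / 2 : ℝ) - 1) := Real.rpow_pos_of_pos hu0 _
    have hup : Real.log u ≤ u := (Real.log_le_sub_one_of_pos hu0).trans (by linarith)
    have hlow : -Real.log u ≤ 2 * u ^ ((1 / 2 : ℝ) - 1) := by
      have := Real.log_le_sub_one_of_pos hsq
      rw [Real.log_rpow hu0] at this
      linarith
    have habs : |Real.log u| ≤ u + 2 * u ^ ((1 / 2 : ℝ) - 1) := by
      rw [abs_le]
      constructor
      · linarith
      · linarith
    calc Real.exp (-u) * |Real.log u| ≤ Real.exp (-u) * (u + 2 * u ^ ((1 / 2 : ℝ) - 1)) :=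
          mul_le_mul_of_nonneg_left habs (Real.exp_pos _).le
      _ = _ := by ring

/-- the substitution `t = exp (u / s)` -/
private theorem M3A.subst (g : ℝ → ℝ) {s : ℝ} (hs : 0 < s) :
    ∫ t in Set.Ioi (2 : ℝ), g t * (s * t ^ (-s - 1)) =
      ∫ u in Set.Ioi (s * Real.log 2), g (Real.exp (u / s)) * Real.exp (-u) := by
  have himg : (fun u : ℝ => Real.exp (u / s)) '' Set.Ioi (s * Real.log 2) = Set.Ioi 2 := by
    ext t
    simp only [Set.mem_image, Set.mem_Ioi]
    constructor
    · rintro ⟨u, hu, rfl⟩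
      rw [← Real.log_lt_iff_lt_exp (by norm_num)]
      rw [lt_div_iff₀ hs, mul_comm]
      exact hu
    · intro ht
      have ht0 : (0 : ℝ) < t := by linarith
      refine ⟨s * Real.log t, mul_lt_mul_of_pos_left (Real.log_lt_log (by norm_num) ht) hs, ?_⟩
      rw [mul_div_cancel_left₀ _ hs.ne', Real.exp_log ht0]
  have hder : ∀ u ∈ Set.Ioi (s * Real.log 2), HasDerivWithinAt
      (fun u : ℝ => Real.exp (u / s)) (Real.exp (u / s) * (1 / s))
      (Set.Ioi (s * Real.log 2)) u := by
    intro u _
    have h1 : HasDerivAt (fun u : ℝ => u / s) (1 / s) u := (hasDerivAt_id u).div_const s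
    exact h1.exp.hasDerivWithinAt
  have hinj : Set.InjOn (fun u : ℝ => Real.exp (u / s)) (Set.Ioi (s * Real.log 2)) := by
    intro x _ y _ hxy
    have h := Real.exp_injective hxy
    field_simp at h
    exact h
  rw [← himg, MeasureTheory.integral_image_eq_integral_abs_deriv_smul measurableSet_Ioi hder hinj]
  refine MeasureTheory.integral_congr_ae (Filter.Eventually.of_forall fun u => ?_)
  simp only [smul_eq_mul]
  have hp : Real.exp (u / s) ^ (-s - 1) = Real.exp (-u) * Real.exp (-(u / s)) := by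
    rw [← Real.exp_mul, ← Real.exp_add]
    congr 1
    field_simp
    ring
  rw [hp, abs_of_pos (by positivity), Real.exp_neg (u / s)]
  have := Real.exp_pos (u / s)
  field_simp

private theorem M3A.int_expneg (a : ℝ) : MeasureTheory.IntegrableOn
    (fun u : ℝ => Real.exp (-u)) (Set.Ioi a) := by
  have := integrableOn_exp_mul_Ioi (a := -1) (by norm_num) a
  refine this.congr_fun (fun x _ => ?_) measurableSet_Ioi
  simp

private theorem M3A.log_split {s : ℝ} (hs : 0 < s) :
    ∫ u in Set.Ioi (s * Real.log 2), Real.log (u / s) * Real.exp (-u) =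
      (∫ u in Set.Ioi (s * Real.log 2), Real.exp (-u) * Real.log u) -
        Real.log s * Real.exp (-(s * Real.log 2)) := by
  have ha : 0 < s * Real.log 2 := mul_pos hs (Real.log_pos (by norm_num))
  have hI1 : MeasureTheory.IntegrableOn (fun u : ℝ => Real.exp (-u) * Real.log u)
      (Set.Ioi (s * Real.log 2)) := M3A.int_dom.mono_set (Set.Ioi_subset_Ioi ha.le)
  have hI2 : MeasureTheory.IntegrableOn (fun u : ℝ => Real.log s * Real.exp (-u))
      (Set.Ioi (s * Real.log 2)) := (M3A.int_expneg _).const_mul _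
  have h1 : ∫ u in Set.Ioi (s * Real.log 2), Real.log (u / s) * Real.exp (-u) =
      ∫ u in Set.Ioi (s * Real.log 2), (Real.exp (-u) * Real.log u -
        Real.log s * Real.exp (-u)) := by
    refine MeasureTheory.setIntegral_congr_fun measurableSet_Ioi fun u hu => ?_
    have hu0 : 0 < u := ha.trans hu
    show Real.log (u / s) * Real.exp (-u) = _
    rw [Real.log_div hu0.ne' hs.ne']
    ring
  rw [h1, MeasureTheory.integral_sub hI1 hI2, MeasureTheory.integral_const_mul,
    integral_exp_neg_Ioi]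

private theorem M3A.log_lim : Tendsto (fun s : ℝ =>
    (∫ u in Set.Ioi (s * Real.log 2), Real.log (u / s) * Real.exp (-u)) + Real.log s) (𝓝[>] 0)
      (𝓝 (-Real.eulerMascheroniConstant)) := by
  have hl2 : 0 < Real.log 2 := Real.log_pos (by norm_num)
  have ha : Tendsto (fun s : ℝ => s * Real.log 2) (𝓝[>] 0) (𝓝 0) := by
    have : Tendsto (fun s : ℝ => s * Real.log 2) (𝓝 0) (𝓝 (0 * Real.log 2)) :=
      (continuous_id.mul continuous_const).tendsto 0
    rw [zero_mul] at this
    exact this.mono_left nhdsWithin_le_nhds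
  have hc := MeasureTheory.aecover_Ioi_of_Ioi (μ := MeasureTheory.volume) ha
  have h1 := hc.integral_tendsto_of_countably_generated M3A.int_dom
  rw [int_log_exp] at h1
  have h2 : Tendsto (fun s : ℝ => ∫ u in Set.Ioi (s * Real.log 2),
      Real.exp (-u) * Real.log u) (𝓝[>] 0) (𝓝 (-Real.eulerMascheroniConstant)) := by
    refine h1.congr' ?_
    filter_upwards [self_mem_nhdsWithin] with s hs
    have hs0 : (0 : ℝ) < s := hs
    rw [MeasureTheory.Measure.restrict_restrict measurableSet_Ioi]
    congr 2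
    rw [Set.inter_eq_left]
    exact Set.Ioi_subset_Ioi (mul_pos hs0 hl2).le
  have h3 : Tendsto (fun s : ℝ => Real.log s * (1 - Real.exp (-(s * Real.log 2)))) (𝓝[>] 0)
      (𝓝 0) := by
    have h4 : Tendsto (fun s : ℝ => Real.log 2 * |Real.log s * s|) (𝓝[>] 0) (𝓝 0) := by
      have : Tendsto (fun x : ℝ => Real.log x * x) (𝓝[>] 0) (𝓝 0) := by
        have h9 := tendsto_log_mul_rpow_nhdsGT_zero (r := 1) one_pos
        simpa using h9
      have h5 := (this.abs).const_mul (Real.log 2)
      rw [abs_zero, mul_zero] at h5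
      exact h5
    refine squeeze_zero_norm' ?_ h4
    filter_upwards [self_mem_nhdsWithin] with s hs
    have hs0 : (0 : ℝ) < s := hs
    have h6 : 0 ≤ 1 - Real.exp (-(s * Real.log 2)) := by
      have : Real.exp (-(s * Real.log 2)) ≤ 1 := Real.exp_le_one_iff.mpr (by nlinarith)
      linarith
    have h7 : 1 - Real.exp (-(s * Real.log 2)) ≤ s * Real.log 2 := by
      have := Real.add_one_le_exp (-(s * Real.log 2))
      linarith
    rw [Real.norm_eq_abs, abs_mul, abs_of_nonneg h6, abs_mul, abs_of_pos hs0]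
    calc |Real.log s| * (1 - Real.exp (-(s * Real.log 2))) ≤
          |Real.log s| * (s * Real.log 2) := mul_le_mul_of_nonneg_left h7 (abs_nonneg _)
      _ = _ := by ring
  have h8 := h2.add h3
  rw [add_zero] at h8
  refine h8.congr' ?_
  filter_upwards [self_mem_nhdsWithin] with s hs
  rw [M3A.log_split hs]
  ring

/-- `s ∫_2^∞ log (log t) t^(-s-1) dt = ∫_{s log 2}^∞ log (u/s) exp (-u) du = -γ - log s + o(1)`
(substitution `t = exp (u/s)`). -/
theorem int_loglog : Tendsto (fun s : ℝ =>
    (∫ t in Set.Ioi (2 : ℝ), Real.log (Real.log t) * (s * t ^ (-s - 1))) + Real.log s) (𝓝[>] 0)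
      (𝓝 (-Real.eulerMascheroniConstant)) := by
  refine M3A.log_lim.congr' ?_
  filter_upwards [self_mem_nhdsWithin] with s hs
  rw [M3A.subst (fun t => Real.log (Real.log t)) hs]
  simp only [Real.log_exp]

/-- the error term -/
private theorem M3A.err (g : ℝ → ℝ) (hg : Measurable g) (K c : ℝ)
    (hK : ∀ t, 2 ≤ t → |g t| ≤ K) (h : Tendsto g atTop (𝓝 c)) :
    Tendsto (fun s : ℝ => ∫ u in Set.Ioi (s * Real.log 2), g (Real.exp (u / s)) * Real.exp (-u))
      (𝓝[>] 0) (𝓝 c) := by
  have hl2 : 0 < Real.log 2 := Real.log_pos (by norm_num)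
  have key : Tendsto (fun s : ℝ => ∫ u in Set.Ioi (0 : ℝ), (Set.Ioi (s * Real.log 2)).indicator
      (fun u => g (Real.exp (u / s)) * Real.exp (-u)) u) (𝓝[>] 0)
      (𝓝 (∫ u in Set.Ioi (0 : ℝ), c * Real.exp (-u))) := by
    refine MeasureTheory.tendsto_integral_filter_of_dominated_convergence
      (fun u => |K| * Real.exp (-u)) ?_ ?_ ?_ ?_
    · refine Filter.Eventually.of_forall fun s => ?_
      refine Measurable.aestronglyMeasurable ?_
      refine Measurable.indicator ?_ measurableSet_Ioi
      exact (hg.comp (Real.measurable_exp.comp (measurable_id.div_const s))).mul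
        (Real.measurable_exp.comp measurable_neg)
    · filter_upwards [self_mem_nhdsWithin] with s hs
      have hs0 : (0 : ℝ) < s := hs
      refine Filter.Eventually.of_forall fun u => ?_
      by_cases hu : u ∈ Set.Ioi (s * Real.log 2)
      · rw [Set.indicator_of_mem hu, norm_mul, Real.norm_eq_abs, Real.norm_eq_abs,
          abs_of_pos (Real.exp_pos _)]
        refine mul_le_mul_of_nonneg_right ?_ (Real.exp_pos _).le
        refine (hK _ ?_).trans (le_abs_self K)
        rw [← Real.log_le_iff_le_exp (by norm_num), le_div_iff₀ hs0, mul_comm]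
        exact le_of_lt hu
      · rw [Set.indicator_of_notMem hu, norm_zero]
        positivity
    · exact (M3A.int_expneg 0).const_mul _
    · refine (MeasureTheory.ae_restrict_mem measurableSet_Ioi).mono fun u hu => ?_
      have hu0 : (0 : ℝ) < u := hu
      have h1 : Tendsto (fun s : ℝ => Real.exp (u / s)) (𝓝[>] 0) atTop := by
        refine Real.tendsto_exp_atTop.comp ?_
        have := (tendsto_inv_nhdsGT_zero (𝕜 := ℝ)).const_mul_atTop hu0
        refine this.congr fun s => ?_
        rw [div_eq_mul_inv]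
      have h2 := (h.comp h1).mul_const (Real.exp (-u))
      refine h2.congr' ?_
      have h3 : ∀ᶠ s : ℝ in 𝓝[>] 0, s < u / Real.log 2 :=
        nhdsWithin_le_nhds (eventually_lt_nhds (div_pos hu0 hl2))
      filter_upwards [h3] with s hs
      have : u ∈ Set.Ioi (s * Real.log 2) := by
        rw [Set.mem_Ioi]
        rwa [lt_div_iff₀ hl2] at hs
      rw [Set.indicator_of_mem this]
      rfl
  rw [MeasureTheory.integral_const_mul, integral_exp_neg_Ioi, neg_zero, Real.exp_zero,
    mul_one] at key
  refine key.congr' ?_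
  filter_upwards [self_mem_nhdsWithin] with s hs
  have hs0 : (0 : ℝ) < s := hs
  rw [MeasureTheory.setIntegral_indicator measurableSet_Ioi]
  congr 2
  rw [Set.inter_eq_right]
  exact Set.Ioi_subset_Ioi (mul_pos hs0 hl2).le

/-- log log of the floor -/
private theorem M3A.floor_lim : Tendsto (fun t : ℝ => Real.log (Real.log t) -
    Real.log (Real.log (⌊t⌋₊ : ℝ))) atTop (𝓝 0) := by
  -- 0 ≤ log log t - log log m ≤ (log t - log m)/log m ≤ (t - m)/(m log m) ≤ 1/m
  have hinv : Tendsto (fun t : ℝ => 1 / ((⌊t⌋₊ : ℕ) : ℝ)) atTop (𝓝 0) :=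
    tendsto_one_div_atTop_nhds_zero_nat.comp tendsto_nat_floor_atTop
  refine squeeze_zero' ?_ ?_ hinv
  · filter_upwards [eventually_ge_atTop (3 : ℝ)] with t ht
    have hm : 3 ≤ ⌊t⌋₊ := Nat.le_floor (by exact_mod_cast ht)
    have hmR : (3 : ℝ) ≤ (⌊t⌋₊ : ℝ) := by exact_mod_cast hm
    have hle : (⌊t⌋₊ : ℝ) ≤ t := Nat.floor_le (by linarith)
    have h1 : 0 < Real.log (⌊t⌋₊ : ℝ) := Real.log_pos (by linarith)
    have h2 : Real.log (⌊t⌋₊ : ℝ) ≤ Real.log t := Real.log_le_log (by linarith) hle
    have h3 := Real.log_le_log h1 h2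
    linarith
  · filter_upwards [eventually_ge_atTop (3 : ℝ)] with t ht
    have hm : 3 ≤ ⌊t⌋₊ := Nat.le_floor (by exact_mod_cast ht)
    have hmR : (3 : ℝ) ≤ (⌊t⌋₊ : ℝ) := by exact_mod_cast hm
    have hle : (⌊t⌋₊ : ℝ) ≤ t := Nat.floor_le (by linarith)
    have hlt : t < (⌊t⌋₊ : ℝ) + 1 := Nat.lt_floor_add_one t
    set m : ℝ := (⌊t⌋₊ : ℝ) with hmdef
    have hm0 : 0 < m := by linarith
    have hl1 : 1 ≤ Real.log m := by
      rw [Real.le_log_iff_exp_le hm0]
      have := Real.exp_one_lt_d9
      linarith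
    have ht0 : 0 < t := by linarith
    have h1 : Real.log t - Real.log m ≤ 1 / m := by
      rw [← Real.log_div ht0.ne' hm0.ne']
      have h2 := Real.log_le_sub_one_of_pos (div_pos ht0 hm0)
      have h3 : t / m - 1 ≤ 1 / m := by
        rw [div_sub_one hm0.ne']
        exact div_le_div_of_nonneg_right (by linarith) hm0.le
      linarith
    have hlm0 : 0 < Real.log m := by linarith
    have hlt0 : 0 < Real.log t := by
      have := Real.log_le_log hm0 hle
      linarith
    have h4 : Real.log (Real.log t) - Real.log (Real.log m) ≤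
        (Real.log t - Real.log m) / Real.log m := by
      rw [← Real.log_div hlt0.ne' hlm0.ne']
      have h2 := Real.log_le_sub_one_of_pos (div_pos hlt0 hlm0)
      rwa [div_sub_one hlm0.ne'] at h2
    have h5 : (Real.log t - Real.log m) / Real.log m ≤ 1 / m := by
      rw [div_le_iff₀ hlm0]
      have h6 : (0 : ℝ) < 1 / m := by positivity
      nlinarith
    linarith

/-- Let `P n = ∑_{m ≤ n} a m`, `w n = n^(-s) - (n+1)^(-s)`. Abel summation (the partial sums grow like
`log log`, so everything converges for `s > 0`): `∑' a n n^(-s) = ∑_{n ≥ 2} P n w n`. Write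
`P n = log (log n) + c + r n`, `r n → 0`; since `w n ≥ 0`, `∑_{n ≥ 2} w n = 2^(-s) → 1` and each `w n → 0`,
`∑ (c + r n) w n → c`. Finally `w n = ∫_n^(n+1) s t^(-s-1) dt`, so
`∑ log (log n) w n` differs from the integral of `int_loglog` by at most
`∑ (log (log (n+1)) - log (log n)) w n → 0`. -/
theorem abel_ll (a : ℕ → ℝ) (ha : ∀ n, 0 ≤ a n) (h0 : a 0 = 0) (h1 : a 1 = 0) (c : ℝ)
    (h : Tendsto (fun x : ℕ => (∑ n ∈ Icc 1 x, a n) - Real.log (Real.log x)) atTop (𝓝 c)) :
    Tendsto (fun s : ℝ => (∑' n : ℕ, a n * (n : ℝ) ^ (-s)) + Real.log s) (𝓝[>] 0)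
      (𝓝 (c - Real.eulerMascheroniConstant)) := by
  have hl2 : 0 < Real.log 2 := Real.log_pos (by norm_num)
  set P : ℕ → ℝ := fun x => ∑ n ∈ Icc 1 x, a n with hP
  set g : ℝ → ℝ := fun t => P ⌊t⌋₊ - Real.log (Real.log t) with hg
  have hgm : Measurable g := by
    refine Measurable.sub ?_ (Real.measurable_log.comp Real.measurable_log)
    exact (measurable_of_countable P).comp Nat.measurable_floor
  have hglim : Tendsto g atTop (𝓝 c) := by
    have e1 := (h.comp (tendsto_nat_floor_atTop (α := ℝ))).sub M3A.floor_lim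
    rw [sub_zero] at e1
    refine e1.congr fun t => ?_
    simp only [Function.comp, hg, hP]
    ring
  -- boundedness
  obtain ⟨K, hK⟩ : ∃ K : ℝ, ∀ t, 2 ≤ t → |g t| ≤ K := by
    have e1 : ∀ᶠ t in atTop, |g t| ≤ |c| + 1 := by
      have e2 : ∀ᶠ t in atTop, g t ∈ Metric.ball c 1 := hglim (Metric.ball_mem_nhds c one_pos)
      filter_upwards [e2] with t ht
      rw [Metric.mem_ball, Real.dist_eq] at ht
      have : |g t| ≤ |c| + |g t - c| := by
        calc |g t| = |c + (g t - c)| := by ring_nf
          _ ≤ _ := abs_add_le _ _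
      linarith
    obtain ⟨T, hT⟩ := Filter.eventually_atTop.mp e1
    have hPm : Monotone P := by
      intro x y hxy
      exact Finset.sum_le_sum_of_subset_of_nonneg (Icc_subset_Icc_right hxy)
        (fun i _ _ => ha i)
    have hP0 : ∀ x, 0 ≤ P x := fun x => Finset.sum_nonneg fun i _ => ha i
    refine ⟨(|c| + 1) + (P ⌊T⌋₊ + (|Real.log (Real.log 2)| + |Real.log (Real.log (max T 2))|)),
      fun t ht => ?_⟩
    by_cases htT : T ≤ t
    · have e0 := hT t htT
      have h2 := hP0 ⌊T⌋₊
      have h3 := abs_nonneg (Real.log (Real.log 2))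
      have h4 := abs_nonneg (Real.log (Real.log (max T 2)))
      linarith
    · rw [not_le] at htT
      have e3 : P ⌊t⌋₊ ≤ P ⌊T⌋₊ := hPm (Nat.floor_le_floor htT.le)
      have hlt : 0 < Real.log t := Real.log_pos (by linarith)
      have e4 : Real.log (Real.log 2) ≤ Real.log (Real.log t) :=
        Real.log_le_log hl2 (Real.log_le_log (by norm_num) ht)
      have e5 : Real.log (Real.log t) ≤ Real.log (Real.log (max T 2)) :=
        Real.log_le_log hlt (Real.log_le_log (by linarith) (htT.le.trans (le_max_left _ _)))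
      have e6 : |Real.log (Real.log t)| ≤ |Real.log (Real.log 2)| +
          |Real.log (Real.log (max T 2))| := by
        rw [abs_le]
        constructor
        · have := neg_abs_le (Real.log (Real.log 2))
          have := abs_nonneg (Real.log (Real.log (max T 2)))
          linarith
        · have := le_abs_self (Real.log (Real.log (max T 2)))
          have := abs_nonneg (Real.log (Real.log 2))
          linarith
      have e7 : |g t| ≤ |P ⌊t⌋₊| + |Real.log (Real.log t)| := by
        simp only [hg]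
        exact abs_sub _ _
      rw [abs_of_nonneg (hP0 _)] at e7
      have := abs_nonneg c
      linarith
  -- the Dirichlet series as an integral
  have hO : ∀ r : ℝ, 0 < r → (fun n ↦ ∑ k ∈ Icc 1 n, a k) =O[atTop] fun n : ℕ ↦ (n : ℝ) ^ r := by
    intro r hr
    have e1 : (fun n : ℕ => g n) =O[atTop] fun n : ℕ => (n : ℝ) ^ r := by
      refine Asymptotics.IsBigO.of_bound |K| ?_
      filter_upwards [eventually_ge_atTop 2] with n hn
      have hnR : (2 : ℝ) ≤ (n : ℝ) := by exact_mod_cast hn
      have e2 := hK n hnR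
      have e3 : (1 : ℝ) ≤ (n : ℝ) ^ r := Real.one_le_rpow (by linarith) hr.le
      rw [Real.norm_eq_abs, Real.norm_eq_abs, abs_of_pos (by linarith : (0 : ℝ) < (n : ℝ) ^ r)]
      calc |g n| ≤ K := e2
        _ ≤ |K| := le_abs_self K
        _ = |K| * 1 := (mul_one _).symm
        _ ≤ _ := mul_le_mul_of_nonneg_left e3 (abs_nonneg K)
    have e4 : (fun n : ℕ => Real.log (Real.log n)) =O[atTop] fun n : ℕ => (n : ℝ) ^ r := by
      have e5 : (fun x : ℝ => Real.log (Real.log x)) =O[atTop] fun x : ℝ => Real.log x :=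
        (Real.isLittleO_log_id_atTop.comp_tendsto Real.tendsto_log_atTop).isBigO
      have e6 : (fun x : ℝ => Real.log x) =O[atTop] fun x : ℝ => x ^ r :=
        (isLittleO_log_rpow_atTop hr).isBigO
      exact (e5.trans e6).comp_tendsto tendsto_natCast_atTop_atTop
    refine (e1.add e4).congr_left fun n => ?_
    simp only [hg, hP, Nat.floor_natCast]
    ring
  have hser : ∀ s : ℝ, 0 < s → ∑' n : ℕ, a n * (n : ℝ) ^ (-s) =
      ∫ t in Set.Ioi (2 : ℝ), P ⌊t⌋₊ * (s * t ^ (-s - 1)) := by
    intro s hs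
    have e1 := LSeries_eq_mul_integral_of_nonneg a (r := s / 2) (by positivity)
      (s := (s : ℂ)) (by rw [Complex.ofReal_re]; linarith) (hO (s / 2) (by positivity)) ha
    have e2 : LSeries (fun n ↦ (a n : ℂ)) s = ((∑' n : ℕ, a n * (n : ℝ) ^ (-s) : ℝ) : ℂ) := by
      rw [Complex.ofReal_tsum]
      unfold LSeries
      refine tsum_congr fun n => ?_
      rcases Nat.eq_zero_or_pos n with hn | hn
      · subst hn
        rw [LSeries.term_zero, h0]
        simp
      · rw [LSeries.term_of_ne_zero hn.ne', Complex.ofReal_mul,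
          Complex.ofReal_cpow (Nat.cast_nonneg n), Complex.ofReal_neg, Complex.ofReal_natCast,
          Complex.cpow_neg, div_eq_mul_inv]
    have e3 : (s : ℂ) * ∫ t in Set.Ioi (1 : ℝ), (∑ k ∈ Icc 1 ⌊t⌋₊, (a k : ℂ)) *
        (t : ℂ) ^ (-((s : ℂ) + 1)) =
        ((s * ∫ t in Set.Ioi (1 : ℝ), P ⌊t⌋₊ * t ^ (-(s + 1)) : ℝ) : ℂ) := by
      rw [Complex.ofReal_mul, ← integral_complex_ofReal]
      congr 1
      refine MeasureTheory.setIntegral_congr_fun measurableSet_Ioi fun t ht => ?_
      have ht0 : (0 : ℝ) ≤ t := by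
        have : (1 : ℝ) < t := ht
        linarith
      simp only [hP]
      rw [Complex.ofReal_mul, Complex.ofReal_cpow ht0, Complex.ofReal_sum]
      push_cast
      rfl
    rw [e2, e3] at e1
    have e4 : ∑' n : ℕ, a n * (n : ℝ) ^ (-s) =
        s * ∫ t in Set.Ioi (1 : ℝ), P ⌊t⌋₊ * t ^ (-(s + 1)) := by exact_mod_cast e1
    have e5 : ∫ t in Set.Ioi (1 : ℝ), P ⌊t⌋₊ * t ^ (-(s + 1)) =
        ∫ t in Set.Ici (2 : ℝ), P ⌊t⌋₊ * t ^ (-(s + 1)) := by
      refine MeasureTheory.setIntegral_eq_of_subset_of_forall_diff_eq_zero measurableSet_Ioi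
        (fun t ht => ?_) (fun t ht => ?_)
      · have : (2 : ℝ) ≤ t := ht
        rw [Set.mem_Ioi]; linarith
      · have ht1 : (1 : ℝ) < t := ht.1
        have ht2 : t < 2 := not_le.mp ht.2
        have hfl : ⌊t⌋₊ = 1 := by
          rw [Nat.floor_eq_iff (by linarith)]
          constructor
          · push_cast; linarith
          · push_cast; linarith
        rw [hfl]
        simp [hP, h1]
    rw [e4, e5, MeasureTheory.integral_Ici_eq_integral_Ioi, ← MeasureTheory.integral_const_mul]
    refine MeasureTheory.integral_congr_ae (Filter.Eventually.of_forall fun t => ?_)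
    simp only
    have e6 : -(s + 1) = -s - 1 := by ring
    rw [e6]
    ring
  have hfin : ∀ s : ℝ, 0 < s → ∑' n : ℕ, a n * (n : ℝ) ^ (-s) =
      (∫ u in Set.Ioi (s * Real.log 2), g (Real.exp (u / s)) * Real.exp (-u)) +
      ∫ u in Set.Ioi (s * Real.log 2), Real.log (u / s) * Real.exp (-u) := by
    intro s hs
    have ha0 : 0 < s * Real.log 2 := mul_pos hs hl2
    rw [hser s hs, M3A.subst (fun t => P ⌊t⌋₊) hs, ← MeasureTheory.integral_add]
    · refine MeasureTheory.integral_congr_ae (Filter.Eventually.of_forall fun u => ?_)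
      simp only [hg, Real.log_exp]
      ring
    · refine MeasureTheory.Integrable.mono' ((M3A.int_expneg (s * Real.log 2)).const_mul |K|) ?_ ?_
      · exact ((hgm.comp (Real.measurable_exp.comp (measurable_id.div_const s))).mul
          (Real.measurable_exp.comp measurable_neg)).aestronglyMeasurable
      · refine (MeasureTheory.ae_restrict_mem measurableSet_Ioi).mono fun u hu => ?_
        rw [norm_mul, Real.norm_eq_abs, Real.norm_eq_abs, abs_of_pos (Real.exp_pos _)]
        refine mul_le_mul_of_nonneg_right ?_ (Real.exp_pos _).le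
        refine (hK _ ?_).trans (le_abs_self K)
        rw [← Real.log_le_iff_le_exp (by norm_num), le_div_iff₀ hs, mul_comm]
        exact le_of_lt hu
    · have hI1 : MeasureTheory.IntegrableOn (fun u : ℝ => Real.exp (-u) * Real.log u)
          (Set.Ioi (s * Real.log 2)) := M3A.int_dom.mono_set (Set.Ioi_subset_Ioi ha0.le)
      have hI2 : MeasureTheory.IntegrableOn (fun u : ℝ => Real.log s * Real.exp (-u))
          (Set.Ioi (s * Real.log 2)) := (M3A.int_expneg _).const_mul _
      refine (hI1.sub hI2).congr_fun (fun u hu => ?_) measurableSet_Ioi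
      have hu0 : 0 < u := ha0.trans hu
      simp only [Pi.sub_apply]
      rw [Real.log_div hu0.ne' hs.ne']
      ring
  have hE := M3A.err g hgm K c hK hglim
  have hS := hE.add M3A.log_lim
  rw [← sub_eq_add_neg] at hS
  refine hS.congr' ?_
  filter_upwards [self_mem_nhdsWithin] with s hs
  rw [hfin s hs]
  ring

end Pool.Agent.Lib.MP_629a14_nt.Rob
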