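import Mathlib

/-! The sum over primes near one, from the zeta function. -/

set_option autoImplicit false

namespace Pool.Agent.Lib.MP_629a14_nt.Rob

open Finset

open Filter Topology

private theorem zs_g_nonneg {x : ℝ} (hx : x ≤ 1 / 2) : 0 ≤ -Real.log (1 - x) - x := by
  have h := Real.log_le_sub_one_of_pos (show (0 : ℝ) < 1 - x by linarith)
  linarith

private theorem zs_g_le {x : ℝ} (_ : 0 ≤ x) (hx : x ≤ 1 / 2) :
    -Real.log (1 - x) - x ≤ 2 * x ^ 2 := by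
  have h0 : (0 : ℝ) < 1 - x := by linarith
  have h := Real.one_sub_inv_le_log_of_pos h0
  have h1 : (1 - x)⁻¹ ≤ 1 + x + 2 * x ^ 2 := by
    rw [inv_le_iff_one_le_mul₀ h0]
    nlinarith [mul_nonneg (sq_nonneg x) (sub_nonneg.2 hx)]
  linarith

private theorem zs_rpow_le {p : Nat.Primes} {s : ℝ} (hs : 0 ≤ s) :
    ((p : ℕ) : ℝ) ^ (-(1 + s)) ≤ 1 / (p : ℕ) := by
  have hp : (1 : ℝ) ≤ (p : ℕ) := by exact_mod_cast p.2.one_lt.le
  have h1 : ((p : ℕ) : ℝ) ^ (-(1 + s)) ≤ ((p : ℕ) : ℝ) ^ (-1 : ℝ) :=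
    Real.rpow_le_rpow_of_exponent_le hp (by linarith)
  rwa [Real.rpow_neg_one, ← one_div] at h1

private theorem zs_inv_le (p : Nat.Primes) : 1 / ((p : ℕ) : ℝ) ≤ 1 / 2 := by
  have hp : (2 : ℝ) ≤ (p : ℕ) := by exact_mod_cast p.2.two_le
  exact one_div_le_one_div_of_le (by norm_num) hp

private theorem zs_term {p : Nat.Primes} {s : ℝ} (hs : 0 ≤ s) :
    |-Real.log (1 - 1 / ((p : ℕ) : ℝ)) * ((p : ℕ) : ℝ) ^ (-s) -
      -Real.log (1 - ((p : ℕ) : ℝ) ^ (-(1 + s)))| ≤ 2 * ((p : ℕ) : ℝ) ^ (-2 : ℝ) := by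
  have hp0 : (0 : ℝ) < (p : ℕ) := by exact_mod_cast p.2.pos
  have hp1 : (1 : ℝ) ≤ (p : ℕ) := by exact_mod_cast p.2.one_lt.le
  set y : ℝ := ((p : ℕ) : ℝ) ^ (-s) with hy
  set x : ℝ := 1 / ((p : ℕ) : ℝ) with hx
  have hx0 : 0 ≤ x := by positivity
  have hx2 : x ≤ 1 / 2 := zs_inv_le p
  have hy0 : 0 ≤ y := by positivity
  have hy1 : y ≤ 1 := by
    rw [hy, ← Real.rpow_zero ((p : ℕ) : ℝ)]
    exact Real.rpow_le_rpow_of_exponent_le hp1 (by linarith)
  have hxy : ((p : ℕ) : ℝ) ^ (-(1 + s)) = x * y := by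
    rw [neg_add, Real.rpow_add hp0, Real.rpow_neg_one, hx, one_div]
  have hx2' : ((p : ℕ) : ℝ) ^ (-2 : ℝ) = x ^ 2 := by
    rw [hx, one_div, inv_pow, ← Real.rpow_natCast, ← Real.rpow_neg hp0.le]
    norm_num
  rw [hxy, hx2']
  have hxy0 : 0 ≤ x * y := by positivity
  have hxy1 : x * y ≤ x := mul_le_of_le_one_right hx0 hy1
  have h1 := zs_g_nonneg hx2
  have h2 := zs_g_le hx0 hx2
  have h3 := zs_g_nonneg (hxy1.trans hx2)
  have h4 := zs_g_le hxy0 (hxy1.trans hx2)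
  have h5 : (-Real.log (1 - x) - x) * y ≤ 2 * x ^ 2 := by
    calc (-Real.log (1 - x) - x) * y ≤ (-Real.log (1 - x) - x) * 1 :=
          mul_le_mul_of_nonneg_left hy1 h1
      _ ≤ 2 * x ^ 2 := by linarith
  have h6 : 0 ≤ (-Real.log (1 - x) - x) * y := mul_nonneg h1 hy0
  have h7 : 2 * (x * y) ^ 2 ≤ 2 * x ^ 2 := by
    have := pow_le_pow_left₀ hxy0 hxy1 2
    linarith
  have h8 : -Real.log (1 - x) * y - -Real.log (1 - x * y) =
      (-Real.log (1 - x) - x) * y - (-Real.log (1 - x * y) - x * y) := by ring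
  rw [h8, abs_le]
  constructor <;> linarith

private theorem zs_sum_pow {s : ℝ} (hs : 0 < s) :
    Summable fun p : Nat.Primes => ((p : ℕ) : ℝ) ^ (-(1 + s)) :=
  Nat.Primes.summable_rpow.mpr (by linarith)

private theorem zs_summ {s : ℝ} (hs : 0 < s) :
    Summable fun p : Nat.Primes => -Real.log (1 - ((p : ℕ) : ℝ) ^ (-(1 + s))) := by
  refine Summable.of_nonneg_of_le (fun p => ?_) (fun p => ?_) ((zs_sum_pow hs).mul_left 2)
  · have h1 := zs_rpow_le (p := p) hs.le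
    have h0 : 0 ≤ ((p : ℕ) : ℝ) ^ (-(1 + s)) := by positivity
    have := zs_g_nonneg (h1.trans (zs_inv_le p))
    linarith
  · have h1 := zs_rpow_le (p := p) hs.le
    have h0 : 0 ≤ ((p : ℕ) : ℝ) ^ (-(1 + s)) := by positivity
    have h2 := zs_g_le h0 (h1.trans (zs_inv_le p))
    have h3 : 2 * (((p : ℕ) : ℝ) ^ (-(1 + s))) ^ 2 ≤ ((p : ℕ) : ℝ) ^ (-(1 + s)) := by
      have h4 := h1.trans (zs_inv_le p)
      nlinarith
    linarith

private theorem zs_zeta {s : ℝ} (hs : 0 < s) : riemannZeta ((1 + s : ℝ) : ℂ) =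
    ((Real.exp (∑' p : Nat.Primes, -Real.log (1 - ((p : ℕ) : ℝ) ^ (-(1 + s)))) : ℝ) : ℂ) := by
  have h1 := riemannZeta_eulerProduct_exp_log (s := ((1 + s : ℝ) : ℂ)) (by
    rw [Complex.ofReal_re]
    linarith)
  rw [← h1, Complex.ofReal_exp, Complex.ofReal_tsum]
  congr 1
  refine tsum_congr fun p => ?_
  have hx := (zs_rpow_le (p := p) hs.le).trans (zs_inv_le p)
  have hp0 : (0 : ℝ) ≤ (p : ℕ) := Nat.cast_nonneg _
  rw [Complex.ofReal_neg, Complex.ofReal_log (by linarith), Complex.ofReal_sub, Complex.ofReal_one,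
    Complex.ofReal_cpow hp0, Complex.ofReal_natCast, Complex.ofReal_neg]

private theorem zs_res : Tendsto (fun s : ℝ => Real.log s +
    ∑' p : Nat.Primes, -Real.log (1 - ((p : ℕ) : ℝ) ^ (-(1 + s)))) (𝓝[>] 0) (𝓝 0) := by
  have h1 := riemannZeta_residue_one
  have h2 : Tendsto (fun s : ℝ => ((1 + s : ℝ) : ℂ)) (𝓝[>] 0) (𝓝[≠] 1) := by
    refine tendsto_nhdsWithin_iff.2 ⟨?_, ?_⟩
    · have : Tendsto (fun s : ℝ => ((1 + s : ℝ) : ℂ)) (𝓝 0) (𝓝 ((1 + (0 : ℝ) : ℝ) : ℂ)) :=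
        (Complex.continuous_ofReal.comp (continuous_const.add continuous_id)).tendsto 0
      rw [add_zero, Complex.ofReal_one] at this
      exact this.mono_left nhdsWithin_le_nhds
    · refine eventually_nhdsWithin_of_forall fun s hs => ?_
      intro h
      have h3' : ((1 + s : ℝ) : ℂ) = 1 := h
      have h3 : (1 + s : ℝ) = 1 := by exact_mod_cast h3'
      have h4 : (0 : ℝ) < s := hs
      linarith
  have h3 := (Complex.continuous_re.tendsto _).comp (h1.comp h2)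
  have h4 : Tendsto (fun s : ℝ => s *
      Real.exp (∑' p : Nat.Primes, -Real.log (1 - ((p : ℕ) : ℝ) ^ (-(1 + s))))) (𝓝[>] 0) (𝓝 1) := by
    rw [Complex.one_re] at h3
    refine h3.congr' (eventually_nhdsWithin_of_forall fun s hs => ?_)
    have hs' : 0 < s := hs
    simp only [Function.comp]
    rw [zs_zeta hs', ← Complex.ofReal_one, ← Complex.ofReal_sub, ← Complex.ofReal_mul,
      Complex.ofReal_re]
    ring
  have h5 := (Real.continuousAt_log one_ne_zero).tendsto.comp h4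
  rw [Real.log_one] at h5
  refine h5.congr' (eventually_nhdsWithin_of_forall fun s hs => ?_)
  have hs' : 0 < s := hs
  simp only [Function.comp]
  rw [Real.log_mul hs'.ne' (Real.exp_pos _).ne', Real.log_exp]

/-- For real `s > 0`: `∑_p -log (1 - p^(-1-s)) = log ζ(1+s)` (`riemannZeta_eulerProduct_exp_log`, or
`riemannZeta_eulerProduct`), and `s ζ(1+s) → 1` (`riemannZeta_residue_one`). The differences
`-log (1 - p^(-1-s)) - p^(-s) (-log (1 - 1/p))` are bounded by `4/p^2` and tend to `0` for each `p`, so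
their sum tends to `0` (`tendsto_tsum_of_dominated_convergence`). -/
theorem zeta_side : Tendsto (fun s : ℝ =>
    (∑' n : ℕ, (if n.Prime then -Real.log (1 - 1 / (n : ℝ)) else 0) * (n : ℝ) ^ (-s)) + Real.log s)
      (𝓝[>] 0) (𝓝 0) := by
  have hD : Tendsto (fun s : ℝ => ∑' p : Nat.Primes,
      (-Real.log (1 - 1 / ((p : ℕ) : ℝ)) * ((p : ℕ) : ℝ) ^ (-s) -
      -Real.log (1 - ((p : ℕ) : ℝ) ^ (-(1 + s))))) (𝓝[>] 0) (𝓝 (∑' _ : Nat.Primes, (0 : ℝ))) := by
    refine tendsto_tsum_of_dominated_convergence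
      (bound := fun p : Nat.Primes => 2 * ((p : ℕ) : ℝ) ^ (-2 : ℝ))
      ((Nat.Primes.summable_rpow.mpr (by norm_num)).mul_left 2) (fun p => ?_) ?_
    · have hp0 : (0 : ℝ) < (p : ℕ) := by exact_mod_cast p.2.pos
      have hx2 := zs_inv_le p
      have hcont : ContinuousAt (fun s : ℝ => -Real.log (1 - 1 / ((p : ℕ) : ℝ)) *
          ((p : ℕ) : ℝ) ^ (-s) - -Real.log (1 - ((p : ℕ) : ℝ) ^ (-(1 + s)))) 0 := by
        have hc1 : Continuous fun s : ℝ => ((p : ℕ) : ℝ) ^ (-s) :=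
          Continuous.rpow continuous_const continuous_neg (fun _ => Or.inl hp0.ne')
        have hc2 : Continuous fun s : ℝ => ((p : ℕ) : ℝ) ^ (-(1 + s)) :=
          Continuous.rpow continuous_const (continuous_const.add continuous_id).neg
            (fun _ => Or.inl hp0.ne')
        refine ContinuousAt.sub (continuousAt_const.mul hc1.continuousAt) (ContinuousAt.neg ?_)
        refine ContinuousAt.log (continuousAt_const.sub hc2.continuousAt) ?_
        have : ((p : ℕ) : ℝ) ^ (-(1 + (0 : ℝ))) = 1 / ((p : ℕ) : ℝ) := by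
          rw [add_zero, Real.rpow_neg_one, one_div]
        rw [this]
        linarith
      have h0 := hcont.tendsto
      have hval : -Real.log (1 - 1 / ((p : ℕ) : ℝ)) * ((p : ℕ) : ℝ) ^ (-(0 : ℝ)) -
          -Real.log (1 - ((p : ℕ) : ℝ) ^ (-(1 + (0 : ℝ)))) = 0 := by
        rw [neg_zero, Real.rpow_zero, add_zero, Real.rpow_neg_one, one_div]
        ring
      rw [hval] at h0
      exact h0.mono_left nhdsWithin_le_nhds
    · exact eventually_nhdsWithin_of_forall fun s hs p => zs_term (le_of_lt hs)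
  rw [tsum_zero] at hD
  have hsum := hD.add zs_res
  rw [add_zero] at hsum
  refine hsum.congr' (eventually_nhdsWithin_of_forall fun s hs => ?_)
  have hs' : 0 < s := hs
  have hS1 : Summable fun p : Nat.Primes =>
      (-Real.log (1 - 1 / ((p : ℕ) : ℝ)) * ((p : ℕ) : ℝ) ^ (-s) -
      -Real.log (1 - ((p : ℕ) : ℝ) ^ (-(1 + s)))) := by
    refine Summable.of_norm_bounded
      ((Nat.Primes.summable_rpow.mpr (show (-2 : ℝ) < -1 by norm_num)).mul_left 2) fun p => ?_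
    exact zs_term hs'.le
  have hadd := hS1.tsum_add (zs_summ hs')
  simp only [sub_add_cancel] at hadd
  have hconv : ∑' n : ℕ, (if n.Prime then -Real.log (1 - 1 / (n : ℝ)) else 0) * (n : ℝ) ^ (-s) =
      ∑' p : Nat.Primes, -Real.log (1 - 1 / ((p : ℕ) : ℝ)) * ((p : ℕ) : ℝ) ^ (-s) := by
    have h1 := tsum_subtype {p : ℕ | p.Prime}
      (fun n : ℕ => -Real.log (1 - 1 / (n : ℝ)) * (n : ℝ) ^ (-s))
    have h2 : ∑' p : Nat.Primes, -Real.log (1 - 1 / ((p : ℕ) : ℝ)) * ((p : ℕ) : ℝ) ^ (-s) =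
        ∑' x : {p : ℕ | p.Prime}, -Real.log (1 - 1 / ((x : ℕ) : ℝ)) * ((x : ℕ) : ℝ) ^ (-s) := rfl
    rw [h2, h1]
    refine tsum_congr fun n => ?_
    by_cases hn : n.Prime
    · rw [if_pos hn, Set.indicator_of_mem (by exact hn)]
    · rw [if_neg hn, Set.indicator_of_notMem (by exact hn), zero_mul]
  beta_reduce
  rw [hconv, hadd]
  ring

end Pool.Agent.Lib.MP_629a14_nt.Rob
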