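import Pool.Agent.Lib.MP_629a14_nt.Rob.M3Two
import Pool.Agent.Lib.MP_629a14_nt.Rob.M3Abel
import Pool.Agent.Lib.MP_629a14_nt.Rob.M3Zeta
import Pool.Agent.Lib.MP_629a14_nt.Rob.Defs

/-! The product over primes and the limit of `log w * Del w`. -/

set_option autoImplicit false

namespace Pool.Agent.Lib.MP_629a14_nt.Rob

open Finset

open Filter Topology

/-- `mert_two`, `abel_ll` and `zeta_side` give `c = γ` by uniqueness of limits; exponentiate. -/
theorem mert_three : Tendsto (fun x : ℕ =>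
    Real.log x * ∏ p ∈ (Icc 1 x).filter Nat.Prime, (1 - 1 / (p : ℝ))) atTop
      (𝓝 (Real.exp (-Real.eulerMascheroniConstant))) := by
  obtain ⟨c, hc⟩ := mert_two
  set a : ℕ → ℝ := fun n => if n.Prime then -Real.log (1 - 1 / (n : ℝ)) else 0 with ha
  have hpos : ∀ p : ℕ, p.Prime → 0 < 1 - 1 / (p : ℝ) := by
    intro p hp
    have h2 : (2 : ℝ) ≤ p := by exact_mod_cast hp.two_le
    have : 1 / (p : ℝ) ≤ 1 / 2 := one_div_le_one_div_of_le (by norm_num) h2
    linarith
  have ha0 : ∀ n, 0 ≤ a n := by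
    intro n
    simp only [ha]
    split_ifs with hn
    · have h1 := hpos n hn
      have h2 : Real.log (1 - 1 / (n : ℝ)) ≤ 0 := by
        refine Real.log_nonpos h1.le ?_
        have : 0 ≤ 1 / (n : ℝ) := by positivity
        linarith
      linarith
    · exact le_rfl
  have hsum : ∀ x : ℕ, ∑ n ∈ Icc 1 x, a n =
      ∑ p ∈ (Icc 1 x).filter Nat.Prime, -Real.log (1 - 1 / (p : ℝ)) := by
    intro x
    rw [Finset.sum_filter]
  have hlim : Tendsto (fun x : ℕ => (∑ n ∈ Icc 1 x, a n) - Real.log (Real.log x)) atTop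
      (𝓝 c) := by
    refine hc.congr fun x => ?_
    rw [hsum]
  have hA := abel_ll a ha0 (by simp [ha, Nat.not_prime_zero]) (by simp [ha, Nat.not_prime_one])
    c hlim
  have hcγ : c - Real.eulerMascheroniConstant = 0 := tendsto_nhds_unique hA zeta_side
  have hc' : c = Real.eulerMascheroniConstant := by linarith
  rw [hc'] at hlim
  have hE := (Real.continuous_exp.tendsto _).comp hlim.neg
  refine hE.congr' ?_
  filter_upwards [eventually_ge_atTop 2] with x hx
  have hxR : (2 : ℝ) ≤ (x : ℝ) := by exact_mod_cast hx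
  have hlx : 0 < Real.log x := Real.log_pos (by linarith)
  simp only [Function.comp]
  rw [hsum x, neg_sub, Real.exp_sub, Real.exp_log hlx, Finset.sum_neg_distrib, Real.exp_neg,
    Real.exp_sum, div_inv_eq_mul]
  congr 1
  refine Finset.prod_congr rfl fun p hp => ?_
  rw [Real.exp_log (hpos p (mem_filter.mp hp).2)]

/-- The twin prime constant. -/
noncomputable def C2 : ℝ := ∏' p : ℕ, if p.Prime ∧ 2 < p then 1 - 1 / ((p : ℝ) - 1) ^ 2 else 1

private noncomputable def M3T.f (p : ℕ) : ℝ :=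
  if p.Prime ∧ 2 < p then 1 - 1 / ((p : ℝ) - 1) ^ 2 else 1

private theorem M3T.small {p : ℕ} (hp : 2 < p) : 1 / ((p : ℝ) - 1) ^ 2 ≤ 1 / 4 := by
  have h3 : (3 : ℝ) ≤ p := by exact_mod_cast hp
  refine one_div_le_one_div_of_le (by norm_num) ?_
  nlinarith

private theorem M3T.pos (p : ℕ) : 0 < M3T.f p := by
  unfold M3T.f
  split_ifs with h
  · have := M3T.small h.2
    linarith
  · exact one_pos

private theorem M3T.summable : Summable fun p => Real.log (M3T.f p) := by
  have hs : Summable fun n : ℕ => 8 * (1 / (n : ℝ) ^ 2) :=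
    (Real.summable_one_div_nat_pow.mpr (by norm_num)).mul_left 8
  refine Summable.of_norm_bounded hs fun p => ?_
  unfold M3T.f
  split_ifs with h
  · have h3 : (3 : ℝ) ≤ p := by exact_mod_cast h.2
    have hsm := M3T.small h.2
    set x : ℝ := 1 / ((p : ℝ) - 1) ^ 2 with hx
    have hx0 : 0 ≤ x := by positivity
    have h1 : 0 < 1 - x := by linarith
    have hneg : Real.log (1 - x) ≤ 0 := Real.log_nonpos h1.le (by linarith)
    rw [Real.norm_eq_abs, abs_of_nonpos hneg]
    have h2 : -Real.log (1 - x) ≤ 2 * x := by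
      rw [← Real.log_inv]
      have h4 := Real.log_le_sub_one_of_pos (inv_pos.mpr h1)
      have h5 : (1 - x)⁻¹ - 1 ≤ 2 * x := by
        rw [sub_le_iff_le_add, inv_le_iff_one_le_mul₀ h1]
        nlinarith
      linarith
    have h6 : x ≤ 4 * (1 / (p : ℝ) ^ 2) := by
      rw [hx, mul_one_div, div_le_div_iff₀ (by nlinarith) (by positivity)]
      nlinarith
    linarith
  · rw [Real.log_one, norm_zero]
    positivity

theorem C2_pos : 0 < C2 := by
  have h := Real.rexp_tsum_eq_tprod M3T.pos M3T.summable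
  have h2 : C2 = ∏' p, M3T.f p := rfl
  rw [h2, ← h]
  exact Real.exp_pos _

/-- `Del w = 2 ∏_{p ≤ w} (1 - 1/p) ∏_{3 ≤ p ≤ w} (1 - 1/(p-1)^2)` for `w ≥ 2`. -/
theorem del_lim : Tendsto (fun w : ℕ => Real.log w * Del w) atTop
    (𝓝 (2 * (C2 * Real.exp (-Real.eulerMascheroniConstant)))) := by
  have hm : Multipliable M3T.f := Real.multipliable_of_summable_log M3T.pos M3T.summable
  have h1 := hm.tendsto_prod_tprod_nat
  have h2 : C2 = ∏' p, M3T.f p := rfl
  rw [← h2] at h1
  have h3 := (h1.comp (tendsto_add_atTop_nat 1))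
  have h4 := (mert_three.mul h3).const_mul 2
  rw [mul_comm (Real.exp _) C2] at h4
  refine h4.congr' ?_
  filter_upwards [eventually_ge_atTop 2] with w hw
  simp only [Function.comp]
  have hsplit : (Icc 1 w).filter Nat.Prime = insert 2 ((Icc 3 w).filter Nat.Prime) := by
    ext p
    simp only [mem_filter, mem_Icc, mem_insert]
    constructor
    · rintro ⟨⟨_, h5⟩, hp⟩
      have := hp.two_le
      by_cases h6 : p = 2
      · left; exact h6
      · right
        exact ⟨⟨by omega, h5⟩, hp⟩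
    · rintro (h5 | ⟨⟨h5, h6⟩, hp⟩)
      · subst h5
        exact ⟨⟨by norm_num, hw⟩, Nat.prime_two⟩
      · exact ⟨⟨by omega, h6⟩, hp⟩
  have hnot : (2 : ℕ) ∉ (Icc 3 w).filter Nat.Prime := by
    simp
  have hP : ∏ p ∈ (Icc 1 w).filter Nat.Prime, (1 - 1 / (p : ℝ)) =
      (1 / 2) * ∏ p ∈ (Icc 3 w).filter Nat.Prime, (1 - 1 / (p : ℝ)) := by
    rw [hsplit, prod_insert hnot]
    norm_num
  have hT : ∏ p ∈ range (w + 1), M3T.f p =
      ∏ p ∈ (Icc 3 w).filter Nat.Prime, (1 - 1 / ((p : ℝ) - 1) ^ 2) := by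
    have e1 : (Icc 3 w).filter Nat.Prime =
        (range (w + 1)).filter (fun p => p.Prime ∧ 2 < p) := by
      ext p
      simp only [mem_filter, mem_Icc, mem_range]
      constructor
      · rintro ⟨⟨h5, h6⟩, hp⟩
        exact ⟨by omega, hp, by omega⟩
      · rintro ⟨h5, hp, h6⟩
        exact ⟨⟨by omega, by omega⟩, hp⟩
    rw [e1, prod_filter]
    rfl
  have hD : Del w = (∏ p ∈ (Icc 3 w).filter Nat.Prime, (1 - 1 / (p : ℝ))) *
      ∏ p ∈ (Icc 3 w).filter Nat.Prime, (1 - 1 / ((p : ℝ) - 1) ^ 2) := by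
    unfold Del
    rw [← prod_mul_distrib]
    refine prod_congr rfl fun p hp => ?_
    have h3p : (3 : ℝ) ≤ p := by exact_mod_cast (mem_Icc.mp (mem_filter.mp hp).1).1
    have hp1 : (p : ℝ) - 1 ≠ 0 := by linarith
    have hp0 : (p : ℝ) ≠ 0 := by linarith
    field_simp
    ring
  rw [hP, hT, hD]
  ring

end Pool.Agent.Lib.MP_629a14_nt.Rob
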