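import Pool.Agent.Lib.MP_629a14_nt.Rob.SDefs

/-! Lower bounds for the local density, and the tail of `n / φ(n)`. -/

set_option autoImplicit false

namespace Pool.Agent.Lib.MP_629a14_nt.Rob

open Finset Pool.Agent.Lib.MP_629a14_nt

namespace SigLow

/-- `n / φ(n)` as a product over the prime factors. -/
theorem ratio_eq (n : ℕ) (hn : 1 ≤ n) :
    (n : ℝ) / n.totient = ∏ p ∈ n.primeFactors, ((p : ℝ) / ((p : ℝ) - 1)) := by
  have h := Nat.totient_mul_prod_primeFactors n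
  have h' : ((n.totient : ℝ)) * ∏ p ∈ n.primeFactors, (p : ℝ)
      = (n : ℝ) * ∏ p ∈ n.primeFactors, ((p : ℝ) - 1) := by
    have h2 : ((n.totient * ∏ p ∈ n.primeFactors, p : ℕ) : ℝ)
        = ((n * ∏ p ∈ n.primeFactors, (p - 1) : ℕ) : ℝ) := by rw [h]
    push_cast at h2
    rw [h2]
    congr 1
    refine prod_congr rfl fun p hp => ?_
    rw [Nat.cast_sub (Nat.prime_of_mem_primeFactors hp).one_le]
    simp
  have hpos : 0 < ∏ p ∈ n.primeFactors, ((p : ℝ) - 1) := by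
    refine prod_pos fun p hp => ?_
    have : (2 : ℝ) ≤ p := by exact_mod_cast (Nat.prime_of_mem_primeFactors hp).two_le
    linarith
  have ht : (0 : ℝ) < n.totient := by exact_mod_cast Nat.totient_pos.mpr hn
  rw [prod_div_distrib, div_eq_div_iff ht.ne' hpos.ne', ← h']
  ring

/-- The primes from `3` to `v`. -/
def od (v : ℕ) : Finset ℕ := (Icc 3 v).filter Nat.Prime

theorem primesLE_eq (v : ℕ) (hv : 2 ≤ v) : (primorial v).primeFactors = insert 2 (od v) := by
  ext p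
  rw [Nat.mem_primeFactors_of_ne_zero (primorial_pos v).ne', mem_insert, od, mem_filter, mem_Icc]
  constructor
  · rintro ⟨hp, hd⟩
    have h1 : p ≤ v := hp.dvd_primorial_iff.mp hd
    rcases Nat.lt_or_ge p 3 with h | h
    · left
      have := hp.two_le
      omega
    · right
      exact ⟨⟨h, h1⟩, hp⟩
  · rintro (h | ⟨⟨h3, h1⟩, hp⟩)
    · subst h
      exact ⟨Nat.prime_two, Nat.prime_two.dvd_primorial_iff.mpr hv⟩
    · exact ⟨hp, hp.dvd_primorial_iff.mpr h1⟩

theorem two_not_mem (v : ℕ) : 2 ∉ od v := by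
  simp [od]

theorem ratio_primorial (v : ℕ) (hv : 2 ≤ v) :
    (primorial v : ℝ) / (primorial v).totient = 2 * ∏ p ∈ od v, ((p : ℝ) / ((p : ℝ) - 1)) := by
  rw [ratio_eq _ (primorial_pos v), primesLE_eq v hv, prod_insert (two_not_mem v)]
  norm_num

/-- The part of the local density coming from the primes dividing `n`. -/
noncomputable def RR (v n : ℕ) : ℝ := ∏ p ∈ (od v).filter (fun p => p ∣ n), ((p : ℝ) / ((p : ℝ) - 1))

/-- The part of the local density coming from the other primes. -/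
noncomputable def QQ (v n : ℕ) : ℝ := ∏ p ∈ (od v).filter (fun p => ¬ p ∣ n),
  ((p : ℝ) * ((p : ℝ) - 2) / ((p : ℝ) - 1) ^ 2)

theorem sig_eq (v n : ℕ) (hv : 2 ≤ v) : sig v n = 2 * RR v n * QQ v n := by
  unfold sig
  rw [ratio_primorial v hv, ← prod_filter_mul_prod_filter_not (od v) (fun p => p ∣ n)]
  have e : (Icc 3 v).filter (fun p => p.Prime ∧ ¬ p ∣ n) = (od v).filter (fun p => ¬ p ∣ n) := by
    rw [od, filter_filter]
  rw [e]
  unfold RR QQ
  rw [mul_assoc, mul_assoc, mul_assoc, ← prod_mul_distrib]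
  congr 2
  refine prod_congr rfl fun p hp => ?_
  rw [mem_filter, od, mem_filter, mem_Icc] at hp
  have : (3 : ℝ) ≤ p := by exact_mod_cast hp.1.1.1
  have h1 : (p : ℝ) - 1 ≠ 0 := by linarith
  field_simp

theorem telescope (v : ℕ) (hv : 2 ≤ v) :
    ∏ k ∈ Icc 3 v, ((k : ℝ) * ((k : ℝ) - 2) / ((k : ℝ) - 1) ^ 2) = v / (2 * ((v : ℝ) - 1)) := by
  induction v, hv using Nat.le_induction with
  | base => norm_num
  | succ v hv ih =>
    rw [prod_Icc_succ_top (by omega), ih]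
    push_cast
    have h2 : (2 : ℝ) ≤ v := by exact_mod_cast hv
    have h3 : (v : ℝ) - 1 ≠ 0 := by linarith
    have h4 : (v : ℝ) ≠ 0 := by linarith
    have e1 : (v : ℝ) + 1 - 2 = v - 1 := by ring
    have e2 : (v : ℝ) + 1 - 1 = v := by ring
    rw [e1, e2]
    field_simp

theorem half_le_QQ (v n : ℕ) (hv : 2 ≤ v) : 1 / 2 ≤ QQ v n := by
  have hf : ∀ k ∈ Icc 3 v, 0 ≤ ((k : ℝ) * ((k : ℝ) - 2) / ((k : ℝ) - 1) ^ 2) ∧
      ((k : ℝ) * ((k : ℝ) - 2) / ((k : ℝ) - 1) ^ 2) ≤ 1 := by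
    intro k hk
    have h3 : (3 : ℝ) ≤ k := by exact_mod_cast (mem_Icc.mp hk).1
    have h4 : (0 : ℝ) < ((k : ℝ) - 1) ^ 2 := by
      have : (0 : ℝ) < (k : ℝ) - 1 := by linarith
      positivity
    refine ⟨div_nonneg (mul_nonneg (by linarith) (by linarith)) h4.le, ?_⟩
    rw [div_le_one h4]
    nlinarith
  have hsub : (od v).filter (fun p => ¬ p ∣ n) ⊆ Icc 3 v := by
    intro p hp
    rw [mem_filter, od, mem_filter] at hp
    exact hp.1.1
  have h1 : ∏ k ∈ Icc 3 v, ((k : ℝ) * ((k : ℝ) - 2) / ((k : ℝ) - 1) ^ 2) ≤ QQ v n := by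
    rw [← prod_sdiff hsub]
    have h5 : ∏ k ∈ Icc 3 v \ (od v).filter (fun p => ¬ p ∣ n),
        ((k : ℝ) * ((k : ℝ) - 2) / ((k : ℝ) - 1) ^ 2) ≤ 1 :=
      prod_le_one (fun k hk => (hf k (mem_sdiff.mp hk).1).1) (fun k hk => (hf k (mem_sdiff.mp hk).1).2)
    have h6 : 0 ≤ QQ v n := prod_nonneg fun k hk => (hf k (hsub hk)).1
    calc _ ≤ 1 * QQ v n := mul_le_mul_of_nonneg_right h5 h6
      _ = QQ v n := one_mul _
  refine le_trans ?_ h1
  rw [telescope v hv]
  have h2 : (2 : ℝ) ≤ v := by exact_mod_cast hv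
  rw [le_div_iff₀ (by linarith)]
  linarith

theorem one_le_RR (v n : ℕ) : 1 ≤ RR v n := by
  unfold RR
  have h : ∏ p ∈ (od v).filter (fun p => p ∣ n), (1 : ℝ) ≤
      ∏ p ∈ (od v).filter (fun p => p ∣ n), ((p : ℝ) / ((p : ℝ) - 1)) := by
    refine prod_le_prod (fun _ _ => zero_le_one) (fun p hp => ?_)
    rw [mem_filter, od, mem_filter, mem_Icc] at hp
    have h3 : (3 : ℝ) ≤ p := by exact_mod_cast hp.1.1.1
    rw [le_div_iff₀ (by linarith)]
    linarith
  simpa using h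

end SigLow

open SigLow

/-- `sig v n ≥ 2 ∏_{3 ≤ p ≤ v} p (p-2)/(p-1)^2 ≥ 2 ∏_{2 ≤ k < v} (1 - 1/k^2) ≥ 1`. -/
theorem one_le_sig (v n : ℕ) (hv : 2 ≤ v) : 1 ≤ sig v n := by
  rw [sig_eq v n hv]
  have h1 := half_le_QQ v n hv
  have h2 := one_le_RR v n
  nlinarith

/-- `n / φ(n) = 2 ∏_{p ∣ n, 3 ≤ p ≤ v} p/(p-1) ∏_{p ∣ n, p > v} p/(p-1)`, and
`sig v n = 2 ∏_{p ∣ n, 3 ≤ p ≤ v} p/(p-1) ∏_{p ∤ n, 3 ≤ p ≤ v} p (p-2)/(p-1)^2`, where the last product
is at least `1/2`. -/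
theorem div_phi_le (v n : ℕ) (hv : 2 ≤ v) (hn : 1 ≤ n) (h2 : 2 ∣ n) :
    (n : ℝ) / n.totient ≤ 2 * sig v n *
      Real.exp (∑ p ∈ n.primeFactors.filter (fun p => v < p), 1 / (((p : ℕ) : ℝ) - 1)) := by
  rw [ratio_eq n hn, ← prod_filter_mul_prod_filter_not n.primeFactors (fun p => v < p), mul_comm]
  have hA : ∏ p ∈ n.primeFactors.filter (fun p => ¬ v < p), ((p : ℝ) / ((p : ℝ) - 1)) = 2 * RR v n := by
    have e : n.primeFactors.filter (fun p => ¬ v < p) = insert 2 ((od v).filter (fun p => p ∣ n)) := by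
      ext p
      rw [mem_filter, Nat.mem_primeFactors_of_ne_zero (by omega), mem_insert, mem_filter, od,
        mem_filter, mem_Icc]
      constructor
      · rintro ⟨⟨hp, hd⟩, hle⟩
        rcases Nat.lt_or_ge p 3 with h | h
        · left
          have := hp.two_le
          omega
        · right
          exact ⟨⟨⟨h, by omega⟩, hp⟩, hd⟩
      · rintro (h | ⟨⟨⟨h3, h1⟩, hp⟩, hd⟩)
        · subst h
          exact ⟨⟨Nat.prime_two, h2⟩, by omega⟩
        · exact ⟨⟨hp, hd⟩, by omega⟩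
    rw [e, prod_insert (by simp [two_not_mem v])]
    unfold RR
    norm_num
  have hB : ∏ p ∈ n.primeFactors.filter (fun p => v < p), ((p : ℝ) / ((p : ℝ) - 1)) ≤
      Real.exp (∑ p ∈ n.primeFactors.filter (fun p => v < p), 1 / (((p : ℕ) : ℝ) - 1)) := by
    rw [Real.exp_sum]
    refine prod_le_prod (fun p hp => ?_) (fun p hp => ?_)
    · have h3 : (2 : ℝ) ≤ p := by
        exact_mod_cast (Nat.prime_of_mem_primeFactors (mem_filter.mp hp).1).two_le
      exact div_nonneg (by linarith) (by linarith)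
    · have h3 : (2 : ℝ) ≤ p := by
        exact_mod_cast (Nat.prime_of_mem_primeFactors (mem_filter.mp hp).1).two_le
      have h4 : (p : ℝ) - 1 ≠ 0 := by linarith
      have e : (p : ℝ) / ((p : ℝ) - 1) = 1 / ((p : ℝ) - 1) + 1 := by
        field_simp
        ring
      rw [e]
      exact Real.add_one_le_exp _
  rw [hA]
  have h5 : 2 * RR v n ≤ 2 * sig v n := by
    rw [sig_eq v n hv]
    have h1 := half_le_QQ v n hv
    have h2 := one_le_RR v n
    nlinarith
  have h6 : 0 ≤ 2 * RR v n := by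
    have h2 := one_le_RR v n
    linarith
  calc 2 * RR v n * ∏ p ∈ n.primeFactors.filter (fun p => v < p), ((p : ℝ) / ((p : ℝ) - 1))
      ≤ 2 * RR v n * Real.exp (∑ p ∈ n.primeFactors.filter (fun p => v < p), 1 / (((p : ℕ) : ℝ) - 1)) :=
        mul_le_mul_of_nonneg_left hB h6
    _ ≤ _ := mul_le_mul_of_nonneg_right h5 (Real.exp_pos _).le

/-- `∑_{n ≤ N} ∑_{p ∣ n, p > v} 1/(p-1) ≤ ∑_{p > v} N / (p (p-1)) ≤ N / v`, `1 / log 2 ≤ 2`. -/
theorem phiTail (v N : ℕ) (hv : 2 ≤ v) :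
    (((Icc 1 N).filter (fun n => Real.log 2 ≤
      ∑ p ∈ n.primeFactors.filter (fun p => v < p), 1 / (((p : ℕ) : ℝ) - 1))).card : ℝ) ≤ 2 * N / v := by
  set F : ℕ → ℝ := fun n => ∑ p ∈ n.primeFactors.filter (fun p => v < p), 1 / (((p : ℕ) : ℝ) - 1) with hF
  have hF0 : ∀ n, 0 ≤ F n := by
    intro n
    refine sum_nonneg fun p hp => ?_
    have h3 : (2 : ℝ) ≤ p := by
      exact_mod_cast (Nat.prime_of_mem_primeFactors (mem_filter.mp hp).1).two_le
    exact div_nonneg zero_le_one (by linarith)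
  have hv0 : (0 : ℝ) < v := by exact_mod_cast (by omega : 0 < v)
  have hlog : (1 : ℝ) / 2 ≤ Real.log 2 := by
    have := Real.log_two_gt_d9
    linarith
  -- Markov
  have hM : (((Icc 1 N).filter (fun n => Real.log 2 ≤ F n)).card : ℝ) * (1 / 2) ≤
      ∑ n ∈ Icc 1 N, F n := by
    calc (((Icc 1 N).filter (fun n => Real.log 2 ≤ F n)).card : ℝ) * (1 / 2)
        = ∑ n ∈ (Icc 1 N).filter (fun n => Real.log 2 ≤ F n), (1 / 2 : ℝ) := by
          rw [sum_const, nsmul_eq_mul]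
      _ ≤ ∑ n ∈ (Icc 1 N).filter (fun n => Real.log 2 ≤ F n), F n :=
          sum_le_sum fun n hn => hlog.trans (mem_filter.mp hn).2
      _ ≤ ∑ n ∈ Icc 1 N, F n :=
          sum_le_sum_of_subset_of_nonneg (filter_subset _ _) fun n _ _ => hF0 n
  have hS : ∑ n ∈ Icc 1 N, F n ≤ ∑ k ∈ Ioc v N, (N : ℝ) / ((k : ℝ) * ((k : ℝ) - 1)) := by
    calc ∑ n ∈ Icc 1 N, F n
        ≤ ∑ n ∈ Icc 1 N, ∑ k ∈ Ioc v N, (if k ∣ n then 1 / ((k : ℝ) - 1) else 0) := by
          refine sum_le_sum fun n hn => ?_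
          rw [← sum_filter]
          refine sum_le_sum_of_subset_of_nonneg ?_ ?_
          · intro p hp
            rw [mem_filter] at hp
            rw [mem_filter, mem_Ioc]
            have hd := Nat.dvd_of_mem_primeFactors hp.1
            have hn' := mem_Icc.mp hn
            exact ⟨⟨hp.2, (Nat.le_of_dvd (by omega) hd).trans hn'.2⟩, hd⟩
          · intro k hk _
            rw [mem_filter, mem_Ioc] at hk
            have : (2 : ℝ) ≤ k := by exact_mod_cast (by omega : 2 ≤ k)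
            exact div_nonneg zero_le_one (by linarith)
      _ = ∑ k ∈ Ioc v N, ∑ n ∈ Icc 1 N, (if k ∣ n then 1 / ((k : ℝ) - 1) else 0) := sum_comm
      _ ≤ ∑ k ∈ Ioc v N, (N : ℝ) / ((k : ℝ) * ((k : ℝ) - 1)) := by
          refine sum_le_sum fun k hk => ?_
          rw [mem_Ioc] at hk
          have hk2 : (2 : ℝ) ≤ k := by exact_mod_cast (by omega : 2 ≤ k)
          rw [← sum_filter, sum_const, nsmul_eq_mul]
          have hc : ((Icc 1 N).filter (fun n => k ∣ n)).card = N / k := by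
            have := Nat.Ioc_filter_dvd_card_eq_div N k
            rw [← this]
            congr 1
          rw [hc]
          have h1 : ((N / k : ℕ) : ℝ) ≤ (N : ℝ) / k := Nat.cast_div_le
          have h2 : (0 : ℝ) < (k : ℝ) - 1 := by linarith
          calc ((N / k : ℕ) : ℝ) * (1 / ((k : ℝ) - 1)) ≤ (N : ℝ) / k * (1 / ((k : ℝ) - 1)) :=
                mul_le_mul_of_nonneg_right h1 (by positivity)
            _ = (N : ℝ) / ((k : ℝ) * ((k : ℝ) - 1)) := by
                rw [div_mul_div_comm, mul_one]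
  have hT : ∀ M : ℕ, v ≤ M → ∑ k ∈ Ioc v M, 1 / ((k : ℝ) * ((k : ℝ) - 1)) = 1 / v - 1 / M := by
    intro M hM
    induction M, hM using Nat.le_induction with
    | base => simp
    | succ M hM ih =>
      rw [sum_Ioc_succ_top hM, ih]
      have h1 : (0 : ℝ) < M := by exact_mod_cast (by omega : 0 < M)
      push_cast
      have e2 : (M : ℝ) + 1 - 1 = M := by ring
      rw [e2]
      field_simp
      ring
  have hS2 : ∑ k ∈ Ioc v N, (N : ℝ) / ((k : ℝ) * ((k : ℝ) - 1)) ≤ N / v := by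
    rcases Nat.lt_or_ge N v with h | h
    · rw [Ioc_eq_empty (by omega)]
      simp only [sum_empty]
      positivity
    · have : ∑ k ∈ Ioc v N, (N : ℝ) / ((k : ℝ) * ((k : ℝ) - 1))
          = N * ∑ k ∈ Ioc v N, 1 / ((k : ℝ) * ((k : ℝ) - 1)) := by
        rw [mul_sum]
        exact sum_congr rfl fun k _ => by rw [mul_one_div]
      rw [this, hT N h]
      have h3 : (0 : ℝ) ≤ 1 / N := by positivity
      have h4 : (0 : ℝ) ≤ N := by positivity
      calc (N : ℝ) * (1 / v - 1 / N) ≤ N * (1 / v) := mul_le_mul_of_nonneg_left (by linarith) h4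
        _ = N / v := by ring
  have := hM.trans (hS.trans hS2)
  calc (((Icc 1 N).filter (fun n => Real.log 2 ≤ F n)).card : ℝ)
      = (((Icc 1 N).filter (fun n => Real.log 2 ≤ F n)).card : ℝ) * (1 / 2) * 2 := by ring
    _ ≤ (N : ℝ) / v * 2 := by gcongr
    _ = 2 * N / v := by ring

end Pool.Agent.Lib.MP_629a14_nt.Rob
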