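import Pool.Agent.Lib.MP_629a14_nt.Rob.SDefs
import Pool.Agent.Lib.MP_629a14_nt.Decomp

/-! Mean square of a convolution. -/

set_option autoImplicit false

namespace Pool.Agent.Lib.MP_629a14_nt.Rob

open Finset Pool.Agent.Lib.MP_629a14_nt

namespace ConvL2

theorem pars (N : ℕ) (S : Finset ℕ) (hS : S ⊆ range (2 * N + 1)) (c : ℕ → ℝ) :
    ∑ h ∈ range (2 * N + 1), ‖∑ m ∈ S, (c m : ℂ) * ee (m * fr N h)‖ ^ 2 =
      (2 * (N : ℝ) + 1) * ∑ m ∈ S, c m ^ 2 := by
  have h1 := parseval_poly (M := 2 * N + 1) (by omega) S hS (fun m => (c m : ℂ))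
  have h2 : ∀ h ∈ range (2 * N + 1), ‖∑ m ∈ S, (c m : ℂ) * ee (m * fr N h)‖ ^ 2 =
      ‖∑ m ∈ S, (c m : ℂ) * ee (((m : ℝ) / ((2 * N + 1 : ℕ) : ℝ)) * h)‖ ^ 2 := by
    intro h _
    congr 1
    rw [← RCLike.norm_conj (∑ m ∈ S, (c m : ℂ) * ee (m * fr N h)), map_sum]
    congr 1
    refine sum_congr rfl fun m _ => ?_
    rw [map_mul, conj_ee, Complex.conj_ofReal]
    congr 2
    unfold fr
    ring
  rw [sum_congr rfl h2, h1]
  push_cast
  congr 1
  refine sum_congr rfl fun m _ => ?_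
  rw [Complex.norm_real, Real.norm_eq_abs, sq_abs]

end ConvL2

/-- Parseval's identity modulo `2 N + 1`; for `n ≤ N` the convolution involves only arguments in
`[1, N]`, and sums of two such arguments are at most `2 N`. See `parseval_poly` in `Decomp.lean` and
`sum_ee_range` in `Fourier.lean`. -/
theorem convL2 (N : ℕ) (f g : ℕ → ℝ) :
    ∑ n ∈ Icc 1 N, (∑ m ∈ Ico 1 n, f m * g (n - m)) ^ 2 ≤
      (1 / (2 * (N : ℝ) + 1)) * ∑ h ∈ range (2 * N + 1),
        ‖∑ m ∈ Icc 1 N, (f m : ℂ) * ee (m * fr N h)‖ ^ 2 *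
          ‖∑ m ∈ Icc 1 N, (g m : ℂ) * ee (m * fr N h)‖ ^ 2 := by
  classical
  set I := Icc 1 N with hI
  let C : ℕ → ℝ := fun n => ∑ p ∈ (I ×ˢ I).filter (fun p => p.1 + p.2 = n), f p.1 * g p.2
  have hprod : ∀ h ∈ range (2 * N + 1), ‖∑ m ∈ I, (f m : ℂ) * ee (m * fr N h)‖ ^ 2 *
      ‖∑ m ∈ I, (g m : ℂ) * ee (m * fr N h)‖ ^ 2 =
      ‖∑ n ∈ range (2 * N + 1), (C n : ℂ) * ee (n * fr N h)‖ ^ 2 := by
    intro h _
    rw [← mul_pow, ← norm_mul]
    congr 2
    rw [sum_mul_sum, ← sum_product']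
    rw [← sum_fiberwise_of_maps_to (s := I ×ˢ I) (t := range (2 * N + 1))
      (g := fun p => p.1 + p.2)]
    · refine sum_congr rfl fun n _ => ?_
      show _ = ((∑ p ∈ (I ×ˢ I).filter (fun p => p.1 + p.2 = n), f p.1 * g p.2 : ℝ) : ℂ) *
        ee (n * fr N h)
      rw [Complex.ofReal_sum, sum_mul]
      refine sum_congr rfl fun p hp => ?_
      have hpn := (mem_filter.1 hp).2
      rw [← hpn]
      have : ee (((p.1 + p.2 : ℕ) : ℝ) * fr N h) = ee (p.1 * fr N h) * ee (p.2 * fr N h) := by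
        rw [← ee_add]
        congr 1
        push_cast
        ring
      rw [this]
      push_cast
      ring
    · intro p hp
      rw [mem_product, hI, mem_Icc, mem_Icc] at hp
      rw [mem_range]
      omega
  rw [sum_congr rfl hprod, ConvL2.pars N (range (2 * N + 1)) (subset_refl _) C, ← mul_assoc]
  have hpos : (0 : ℝ) < 2 * (N : ℝ) + 1 := by positivity
  rw [one_div_mul_cancel hpos.ne', one_mul]
  have hsub : I ⊆ range (2 * N + 1) := by
    intro n hn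
    rw [hI, mem_Icc] at hn
    rw [mem_range]
    omega
  have hC : ∀ n ∈ I, (∑ m ∈ Ico 1 n, f m * g (n - m)) ^ 2 = C n ^ 2 := by
    intro n hn
    rw [hI, mem_Icc] at hn
    congr 1
    refine sum_nbij' (fun m => (m, n - m)) (fun p => p.1) ?_ ?_ ?_ ?_ ?_
    · intro m hm
      rw [mem_Ico] at hm
      rw [mem_filter, mem_product, hI, mem_Icc, mem_Icc]
      show ((1 ≤ m ∧ m ≤ N) ∧ (1 ≤ n - m ∧ n - m ≤ N)) ∧ m + (n - m) = n
      omega
    · intro p hp
      rw [mem_filter, mem_product, hI, mem_Icc, mem_Icc] at hp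
      rw [mem_Ico]
      omega
    · intro m _
      rfl
    · intro p hp
      rw [mem_filter, mem_product, hI, mem_Icc, mem_Icc] at hp
      refine Prod.ext rfl ?_
      show n - p.1 = p.2
      omega
    · intro m _
      rfl
  rw [sum_congr rfl hC]
  exact sum_le_sum_of_subset_of_nonneg hsub (fun _ _ _ => sq_nonneg _)

/-- Parseval. -/
theorem parsevalN (N : ℕ) (f : ℕ → ℝ) :
    ∑ h ∈ range (2 * N + 1), ‖∑ m ∈ Icc 1 N, (f m : ℂ) * ee (m * fr N h)‖ ^ 2 =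
      (2 * (N : ℝ) + 1) * ∑ m ∈ Icc 1 N, f m ^ 2 := by
  refine ConvL2.pars N (Icc 1 N) ?_ f
  intro n hn
  rw [mem_Icc] at hn
  rw [mem_range]
  omega

end Pool.Agent.Lib.MP_629a14_nt.Rob
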