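import Pool.Agent.Lib.MP_629a14_nt.Rob.SDefs
import Pool.Agent.Lib.MP_629a14_nt.Rob.PiAP
import Pool.Agent.Lib.MP_629a14_nt.Restrict

/-! Primes on the major arcs with bounded denominators. -/

set_option autoImplicit false

namespace Pool.Agent.Lib.MP_629a14_nt.Rob

open Finset Pool.Agent.Lib.MP_629a14_nt

namespace MajP

theorem ee_diff (s t : ℝ) : ‖ee s - ee t‖ ≤ 2 * Real.pi * |s - t| := by
  have h1 : ee s - ee t = ee t * (ee (s - t) - 1) := by
    rw [mul_sub, ← ee_add, mul_one]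
    congr 2
    ring
  rw [h1, norm_mul, norm_ee, one_mul]
  have h2 : ee (s - t) = Complex.exp (Complex.I * ((2 * Real.pi * (s - t) : ℝ) : ℂ)) := by
    unfold ee
    congr 1
    push_cast
    ring
  rw [h2]
  refine Real.norm_exp_I_mul_ofReal_sub_one_le.trans ?_
  rw [Real.norm_eq_abs, abs_mul, abs_of_pos (by positivity : (0 : ℝ) < 2 * Real.pi)]

theorem abel_id (c : ℕ → ℝ) (β : ℝ) (N : ℕ) :
    ∑ m ∈ Icc 1 N, (c m : ℂ) * ee (m * β) =
      ((∑ m ∈ Icc 1 N, c m : ℝ) : ℂ) * ee (N * β) -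
        ∑ k ∈ range N, ((∑ m ∈ Icc 1 k, c m : ℝ) : ℂ) *
          (ee (((k + 1 : ℕ) : ℝ) * β) - ee (k * β)) := by
  induction N with
  | zero => simp
  | succ N ih =>
    rw [Finset.sum_Icc_succ_top (by omega), ih, Finset.sum_range_succ,
      Finset.sum_Icc_succ_top (by omega) c]
    push_cast
    ring

theorem abel_bound (c : ℕ → ℝ) (β E : ℝ) (N : ℕ)
    (h : ∀ x ≤ N, |∑ m ∈ Icc 1 x, c m| ≤ E) :
    ‖∑ m ∈ Icc 1 N, (c m : ℂ) * ee (m * β)‖ ≤ E * (1 + 2 * Real.pi * (|β| * N)) := by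
  rw [abel_id]
  have h1 : ‖((∑ m ∈ Icc 1 N, c m : ℝ) : ℂ) * ee (N * β)‖ ≤ E := by
    rw [norm_mul, norm_ee, mul_one, Complex.norm_real, Real.norm_eq_abs]
    exact h N le_rfl
  have h2 : ‖∑ k ∈ range N, ((∑ m ∈ Icc 1 k, c m : ℝ) : ℂ) *
      (ee (((k + 1 : ℕ) : ℝ) * β) - ee (k * β))‖ ≤ ∑ k ∈ range N, E * (2 * Real.pi * |β|) := by
    refine (norm_sum_le _ _).trans (sum_le_sum fun k hk => ?_)
    rw [norm_mul, Complex.norm_real, Real.norm_eq_abs]
    have hk' : k ≤ N := by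
      have := mem_range.1 hk
      omega
    have h3 := ee_diff (((k + 1 : ℕ) : ℝ) * β) (k * β)
    have h4 : ((k + 1 : ℕ) : ℝ) * β - k * β = β := by push_cast; ring
    rw [h4] at h3
    have hE : 0 ≤ E := (abs_nonneg _).trans (h k hk')
    exact mul_le_mul (h k hk') h3 (norm_nonneg _) hE
  rw [sum_const, card_range, nsmul_eq_mul] at h2
  calc _ ≤ ‖((∑ m ∈ Icc 1 N, c m : ℝ) : ℂ) * ee (N * β)‖ + ‖∑ k ∈ range N,
        ((∑ m ∈ Icc 1 k, c m : ℝ) : ℂ) * (ee (((k + 1 : ℕ) : ℝ) * β) - ee (k * β))‖ :=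
        norm_sub_le _ _
    _ ≤ E + N * (E * (2 * Real.pi * |β|)) := add_le_add h1 h2
    _ = E * (1 + 2 * Real.pi * (|β| * N)) := by ring

/-- one residue class -/
theorem one_class (q b N : ℕ) (E β : ℝ)
    (h : ∀ x : ℕ, x ≤ N → |Real.log N *
      (((Icc 1 x).filter (fun n => n.Prime ∧ n ≡ b [MOD q])).card : ℝ) -
        (x : ℝ) / q.totient| ≤ E) :
    ‖(Real.log N : ℂ) * ∑ p ∈ (Icc 1 N).filter (fun n => n.Prime ∧ n ≡ b [MOD q]), ee (p * β) -
      (1 / (q.totient : ℂ)) * ∑ m ∈ Icc 1 N, ee (m * β)‖ ≤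
        E * (1 + 2 * Real.pi * (|β| * N)) := by
  have h1 := abel_bound (fun m => (if m.Prime ∧ m ≡ b [MOD q] then Real.log N else 0) -
    1 / (q.totient : ℝ)) β E N (fun x hx => by
      have h2 : ∑ m ∈ Icc 1 x, ((if m.Prime ∧ m ≡ b [MOD q] then Real.log N else 0) -
          1 / (q.totient : ℝ)) = Real.log N *
          (((Icc 1 x).filter (fun n => n.Prime ∧ n ≡ b [MOD q])).card : ℝ) -
            (x : ℝ) / q.totient := by
        rw [sum_sub_distrib, ← sum_filter, sum_const, sum_const, nsmul_eq_mul, nsmul_eq_mul,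
          Nat.card_Icc]
        simp
        ring
      rw [h2]
      exact h x hx)
  have h3 : ∑ m ∈ Icc 1 N, (((if m.Prime ∧ m ≡ b [MOD q] then Real.log N else 0) -
      1 / (q.totient : ℝ) : ℝ) : ℂ) * ee (m * β) =
      (Real.log N : ℂ) * ∑ p ∈ (Icc 1 N).filter (fun n => n.Prime ∧ n ≡ b [MOD q]), ee (p * β) -
      (1 / (q.totient : ℂ)) * ∑ m ∈ Icc 1 N, ee (m * β) := by
    rw [mul_sum, mul_sum, sum_filter, ← sum_sub_distrib]
    refine sum_congr rfl fun m _ => ?_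
    split_ifs
    · push_cast
      ring
    · push_cast
      ring
  rw [← h3]
  exact h1

/-- shifting the numerator to a natural number -/
theorem nat_num (q : ℕ) (hq : 1 ≤ q) (a : ℤ) (ha : IsCoprime a (q : ℤ)) :
    ∃ n : ℕ, Nat.Coprime n q ∧ ∀ b : ℕ, ee ((b : ℝ) * ((a : ℝ) / q)) =
      ee ((n : ℝ) * ((b : ℝ) / q)) := by
  have hq0 : (q : ℤ) ≠ 0 := by exact_mod_cast (by omega : q ≠ 0)
  have hqr : (q : ℝ) ≠ 0 := by exact_mod_cast (by omega : q ≠ 0)
  have hnn : 0 ≤ a % q := Int.emod_nonneg _ hq0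
  obtain ⟨n, hn⟩ := Int.eq_ofNat_of_zero_le hnn
  refine ⟨n, ?_, ?_⟩
  · have h1 : IsCoprime (n : ℤ) (q : ℤ) := by
      rw [← hn]
      have h2 : a % q = a + (-(a / q)) * q := by
        have := Int.emod_add_mul_ediv a q
        linarith
      rw [h2]
      exact IsCoprime.add_mul_right_left_iff.2 ha
    exact Nat.isCoprime_iff_coprime.1 h1
  · intro b
    have h2 : (a : ℝ) = n + q * ((a / q : ℤ) : ℝ) := by
      have := Int.emod_add_mul_ediv a q
      rw [hn] at this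
      exact_mod_cast this.symm
    have h3 : (b : ℝ) * ((a : ℝ) / q) = (n : ℝ) * ((b : ℝ) / q) +
        ((((b : ℤ) * (a / q) : ℤ)) : ℝ) := by
      rw [h2]
      push_cast
      field_simp
    rw [h3, ee_add, ee_int, mul_one]

theorem ee_class (q : ℕ) (hq : 1 ≤ q) (a : ℤ) (p b : ℕ) (h : p ≡ b [MOD q]) :
    ee ((p : ℝ) * ((a : ℝ) / q)) = ee ((b : ℝ) * ((a : ℝ) / q)) := by
  have hqr : (q : ℝ) ≠ 0 := by exact_mod_cast (by omega : q ≠ 0)
  obtain ⟨k, hk⟩ := (Nat.modEq_iff_dvd.1 h)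
  have h1 : (b : ℝ) = p + q * (k : ℝ) := by
    have : (b : ℤ) = p + q * k := by linarith
    exact_mod_cast this
  have h2 : (b : ℝ) * ((a : ℝ) / q) = (p : ℝ) * ((a : ℝ) / q) + (((k * a : ℤ)) : ℝ) := by
    rw [h1]
    push_cast
    field_simp
  rw [h2, ee_add, ee_int, mul_one]

theorem fiber (q N : ℕ) (hq : 1 ≤ q) (a : ℤ) (β : ℝ) :
    ∑ p ∈ ((Icc 1 N).filter Nat.Prime).filter (fun p => Nat.Coprime p q),
      ee (p * (a / q + β)) =
    ∑ b ∈ cop q, ee ((b : ℝ) * ((a : ℝ) / q)) *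
      ∑ p ∈ (Icc 1 N).filter (fun n => n.Prime ∧ n ≡ b [MOD q]), ee (p * β) := by
  classical
  rw [← sum_fiberwise_of_maps_to (s := ((Icc 1 N).filter Nat.Prime).filter
    (fun p => Nat.Coprime p q)) (t := cop q) (g := fun p => p % q)]
  · refine sum_congr rfl fun b hb => ?_
    unfold cop at hb
    rw [mem_filter, mem_range] at hb
    rw [mul_sum]
    have hset : (((Icc 1 N).filter Nat.Prime).filter (fun p => Nat.Coprime p q)).filter
        (fun p => p % q = b) = (Icc 1 N).filter (fun n => n.Prime ∧ n ≡ b [MOD q]) := by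
      ext p
      rw [mem_filter, mem_filter, mem_filter, mem_filter]
      constructor
      · rintro ⟨⟨⟨h1, h2⟩, _⟩, h4⟩
        refine ⟨h1, h2, ?_⟩
        show p % q = b % q
        rw [Nat.mod_eq_of_lt hb.1]
        exact h4
      · rintro ⟨h1, h2, h3⟩
        have h4 : p % q = b := by
          have : p % q = b % q := h3
          rw [Nat.mod_eq_of_lt hb.1] at this
          exact this
        refine ⟨⟨⟨h1, h2⟩, ?_⟩, h4⟩
        have h5 : Nat.gcd p q = Nat.gcd b q := Nat.ModEq.gcd_eq h3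
        show Nat.gcd p q = 1
        rw [h5]
        exact hb.2
    rw [hset]
    refine sum_congr rfl fun p hp => ?_
    have hpb := (mem_filter.1 hp).2.2
    rw [mul_add, ee_add, ee_class q hq a p b hpb]
  · intro p hp
    rw [mem_filter] at hp
    unfold cop
    rw [mem_filter, mem_range]
    refine ⟨Nat.mod_lt _ (by omega), ?_⟩
    have : Nat.gcd (p % q) q = Nat.gcd p q := (Nat.mod_modEq p q).gcd_eq
    show Nat.gcd (p % q) q = 1
    rw [this]
    exact hp.2

theorem bad (q N : ℕ) (hq : 1 ≤ q) (α : ℝ) :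
    ‖∑ p ∈ ((Icc 1 N).filter Nat.Prime).filter (fun p => ¬ Nat.Coprime p q), ee (p * α)‖ ≤ q := by
  have hsub : ((Icc 1 N).filter Nat.Prime).filter (fun p => ¬ Nat.Coprime p q) ⊆ Icc 1 q := by
    intro p hp
    rw [mem_filter, mem_filter] at hp
    have h1 : p ∣ q := by
      by_contra h
      exact hp.2 ((Nat.Prime.coprime_iff_not_dvd hp.1.2).2 h)
    rw [mem_Icc]
    exact ⟨hp.1.2.one_lt.le, Nat.le_of_dvd (by omega) h1⟩
  calc _ ≤ ∑ p ∈ ((Icc 1 N).filter Nat.Prime).filter (fun p => ¬ Nat.Coprime p q), ‖ee (p * α)‖ :=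
        norm_sum_le _ _
    _ = ∑ p ∈ ((Icc 1 N).filter Nat.Prime).filter (fun p => ¬ Nat.Coprime p q), (1 : ℝ) :=
        sum_congr rfl fun p _ => norm_ee _
    _ = (((Icc 1 N).filter Nat.Prime).filter (fun p => ¬ Nat.Coprime p q)).card := by simp
    _ ≤ (Icc 1 q).card := by exact_mod_cast card_le_card hsub
    _ = q := by simp

end MajP

/-- Cut `(0, N]` into `J` intervals `(x_(j-1), x_j]`, `x_j = ⌊j N / J⌋`, `J` a large constant (in terms
of `K`, `ε`); on each replace `e(m β)` by `e(x_j β)` (error at most `2π K / J + o(1)`). By `pi_unif`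
the primes in the interval congruent to `b` (prime to `q`) number
`((x_j - x_(j-1)) / φ(q) + O(ε' N)) / log N`; `∑_{b prime to q} e(a b / q) = μ(q)`
(`ramanujan_coprime` in `Restrict.lean`). The primes dividing `q` contribute at most
`q log N`. -/
theorem majP (q : ℕ) (hq : 1 ≤ q) (K ε : ℝ) (hK : 0 ≤ K) (hε : 0 < ε) : ∃ N₀ : ℕ, ∀ N : ℕ, N₀ ≤ N →
    ∀ a : ℤ, IsCoprime a (q : ℤ) → ∀ β : ℝ, |β| * N ≤ K →
      ‖(Real.log N : ℂ) * SP N (a / q + β) - ((ArithmeticFunction.moebius q : ℤ) : ℂ) / q.totient *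
        ∑ m ∈ Icc 1 N, ee (m * β)‖ ≤ ε * N := by
  classical
  have hqr : (0 : ℝ) < q := by exact_mod_cast hq
  set D : ℝ := 1 + 2 * Real.pi * K with hD
  have hDpos : 0 < D := by positivity
  set ε' : ℝ := ε / (2 * q * D) with hε'
  have hε'pos : 0 < ε' := by positivity
  have hpi : ∀ b : ℕ, ∃ N₀ : ℕ, Nat.Coprime b q → ∀ N : ℕ, N₀ ≤ N → ∀ x : ℕ, x ≤ N →
      |Real.log N * (((Icc 1 x).filter (fun n => n.Prime ∧ n ≡ b [MOD q])).card : ℝ) -
        (x : ℝ) / q.totient| ≤ ε' * N := by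
    intro b
    by_cases hb : Nat.Coprime b q
    · obtain ⟨N₀, h⟩ := pi_unif q b hq hb ε' hε'pos
      exact ⟨N₀, fun _ => h⟩
    · exact ⟨0, fun h => absurd h hb⟩
  choose N1 h1 using hpi
  have hlog := (PiAP.log_pow_div 1)
  have hev : ∀ᶠ N : ℕ in Filter.atTop, Real.log N ^ 1 / (N : ℝ) < ε / (2 * q) :=
    (tendsto_order.1 hlog).2 _ (by positivity)
  obtain ⟨N2, hN2⟩ := Filter.eventually_atTop.1 hev
  refine ⟨max (max N2 1) ((range q).sup N1), fun N hN a ha β hβ => ?_⟩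
  have hNN2 : N2 ≤ N := (le_max_left _ _).trans ((le_max_left _ _).trans hN)
  have hN1 : 1 ≤ N := (le_max_right _ _).trans ((le_max_left _ _).trans hN)
  have hNpos : (0 : ℝ) < N := by exact_mod_cast hN1
  have hsup : (range q).sup N1 ≤ N := (le_max_right _ _).trans hN
  have hlog0 : 0 ≤ Real.log N := Real.log_natCast_nonneg N
  obtain ⟨n, hn, hnb⟩ := MajP.nat_num q hq a ha
  set S := ∑ m ∈ Icc 1 N, ee (m * β) with hS
  have hmu : ∑ b ∈ cop q, ee ((b : ℝ) * ((a : ℝ) / q)) =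
      ((ArithmeticFunction.moebius q : ℤ) : ℂ) := by
    rw [sum_congr rfl (fun b _ => hnb b)]
    exact ramanujan_coprime (by omega) hn
  have hsplit : SP N (a / q + β) =
      (∑ b ∈ cop q, ee ((b : ℝ) * ((a : ℝ) / q)) *
        ∑ p ∈ (Icc 1 N).filter (fun n => n.Prime ∧ n ≡ b [MOD q]), ee (p * β)) +
      ∑ p ∈ ((Icc 1 N).filter Nat.Prime).filter (fun p => ¬ Nat.Coprime p q),
        ee (p * (a / q + β)) := by
    rw [← MajP.fiber q N hq a β]
    unfold SP
    exact (sum_filter_add_sum_filter_not _ _ _).symm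
  have hmain : (Real.log N : ℂ) * SP N (a / q + β) -
      ((ArithmeticFunction.moebius q : ℤ) : ℂ) / q.totient * S =
      (∑ b ∈ cop q, ee ((b : ℝ) * ((a : ℝ) / q)) *
        ((Real.log N : ℂ) * ∑ p ∈ (Icc 1 N).filter (fun n => n.Prime ∧ n ≡ b [MOD q]), ee (p * β) -
          (1 / (q.totient : ℂ)) * S)) +
      (Real.log N : ℂ) * ∑ p ∈ ((Icc 1 N).filter Nat.Prime).filter (fun p => ¬ Nat.Coprime p q),
        ee (p * (a / q + β)) := by
    rw [hsplit, ← hmu]
    have e1 : ∑ b ∈ cop q, ee ((b : ℝ) * ((a : ℝ) / q)) *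
        ((Real.log N : ℂ) * ∑ p ∈ (Icc 1 N).filter (fun n => n.Prime ∧ n ≡ b [MOD q]), ee (p * β) -
          (1 / (q.totient : ℂ)) * S) =
        (Real.log N : ℂ) * (∑ b ∈ cop q, ee ((b : ℝ) * ((a : ℝ) / q)) *
        ∑ p ∈ (Icc 1 N).filter (fun n => n.Prime ∧ n ≡ b [MOD q]), ee (p * β)) -
        (∑ b ∈ cop q, ee ((b : ℝ) * ((a : ℝ) / q))) / q.totient * S := by
      clear_value S
      rw [Finset.mul_sum (cop q), sum_div, Finset.sum_mul (cop q), ← sum_sub_distrib]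
      refine sum_congr rfl fun b _ => ?_
      ring
    rw [e1]
    ring
  rw [hmain]
  have hA : ‖∑ b ∈ cop q, ee ((b : ℝ) * ((a : ℝ) / q)) *
        ((Real.log N : ℂ) * ∑ p ∈ (Icc 1 N).filter (fun n => n.Prime ∧ n ≡ b [MOD q]), ee (p * β) -
          (1 / (q.totient : ℂ)) * S)‖ ≤ ε / 2 * N := by
    calc _ ≤ ∑ b ∈ cop q, ‖ee ((b : ℝ) * ((a : ℝ) / q)) *
        ((Real.log N : ℂ) * ∑ p ∈ (Icc 1 N).filter (fun n => n.Prime ∧ n ≡ b [MOD q]), ee (p * β) -
          (1 / (q.totient : ℂ)) * S)‖ := norm_sum_le _ _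
      _ ≤ ∑ b ∈ cop q, ε' * N * D := by
          refine sum_le_sum fun b hb => ?_
          rw [norm_mul, norm_ee, one_mul]
          unfold cop at hb
          rw [mem_filter, mem_range] at hb
          have hbN : N1 b ≤ N := (Finset.le_sup (f := N1) (mem_range.2 hb.1)).trans hsup
          refine (MajP.one_class q b N (ε' * N) β (h1 b hb.2 N hbN)).trans ?_
          have hD2 : 1 + 2 * Real.pi * (|β| * N) ≤ D := by
            rw [hD]
            gcongr
          exact mul_le_mul_of_nonneg_left hD2 (by positivity)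
      _ = (cop q).card * (ε' * N * D) := by rw [sum_const, nsmul_eq_mul]
      _ ≤ q * (ε' * N * D) := by
          gcongr
          have : (cop q).card ≤ (range q).card := card_le_card (filter_subset _ _)
          rw [card_range] at this
          exact this
      _ = ε / 2 * N := by
          rw [hε']
          field_simp
  have hB : ‖(Real.log N : ℂ) * ∑ p ∈ ((Icc 1 N).filter Nat.Prime).filter
      (fun p => ¬ Nat.Coprime p q), ee (p * (a / q + β))‖ ≤ ε / 2 * N := by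
    rw [norm_mul, Complex.norm_real, Real.norm_eq_abs, abs_of_nonneg hlog0]
    have h3 := hN2 N hNN2
    rw [pow_one, div_lt_iff₀ hNpos] at h3
    calc Real.log N * ‖∑ p ∈ ((Icc 1 N).filter Nat.Prime).filter
          (fun p => ¬ Nat.Coprime p q), ee (p * (a / q + β))‖ ≤ Real.log N * q := by
          gcongr
          exact MajP.bad q N hq _
      _ ≤ (ε / (2 * q) * N) * q := by gcongr
      _ = ε / 2 * N := by
          field_simp
  calc _ ≤ _ := norm_add_le _ _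
    _ ≤ ε / 2 * N + ε / 2 * N := add_le_add hA hB
    _ = ε * N := by ring

end Pool.Agent.Lib.MP_629a14_nt.Rob
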