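import Pool.Agent.Lib.MP_629a14_nt.Rob.SDefs
import Pool.Agent.Lib.MP_629a14_nt.Restrict

/-! The weights `nu` on the major arcs. -/

set_option autoImplicit false

namespace Pool.Agent.Lib.MP_629a14_nt.Rob

open Finset Pool.Agent.Lib.MP_629a14_nt

private theorem nm_ee_sub_le (s t : ℝ) : ‖ee s - ee t‖ ≤ 2 * Real.pi * |s - t| := by
  have h1 : ee s - ee t = ee t * (ee (s - t) - 1) := by
    rw [mul_sub, ← ee_add, mul_one]
    congr 2
    ring
  rw [h1, norm_mul, norm_ee, one_mul]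
  have h2 : ee (s - t) = Complex.exp (Complex.I * ((2 * Real.pi * (s - t) : ℝ) : ℂ)) := by
    unfold ee
    congr 1
    push_cast
    ring
  rw [h2]
  refine (Real.norm_exp_I_mul_ofReal_sub_one_le).trans ?_
  rw [Real.norm_eq_abs, abs_mul, abs_mul, abs_two, abs_of_pos Real.pi_pos]

/-- partial summation -/
private theorem nm_abel {f : ℕ → ℂ} {B : ℝ} (β : ℝ) (hB : ∀ n, ‖∑ m ∈ Icc 1 n, f m‖ ≤ B) (N : ℕ) :
    ‖∑ m ∈ Icc 1 N, f m * ee (m * β)‖ ≤ B * (1 + 2 * Real.pi * |β| * N) := by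
  have h : ∀ N : ℕ, ‖(∑ m ∈ Icc 1 N, f m * ee (m * β)) - (∑ m ∈ Icc 1 N, f m) * ee (N * β)‖ ≤
      B * (2 * Real.pi * |β| * N) := by
    intro N
    induction N with
    | zero => simp
    | succ N ih =>
      rw [sum_Icc_succ_top (by omega), sum_Icc_succ_top (by omega)]
      have e1 : (∑ m ∈ Icc 1 N, f m * ee (m * β)) + f (N + 1) * ee (((N + 1 : ℕ) : ℝ) * β) -
          ((∑ m ∈ Icc 1 N, f m) + f (N + 1)) * ee (((N + 1 : ℕ) : ℝ) * β) =
          ((∑ m ∈ Icc 1 N, f m * ee (m * β)) - (∑ m ∈ Icc 1 N, f m) * ee (N * β)) +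
            (∑ m ∈ Icc 1 N, f m) * (ee (N * β) - ee (((N + 1 : ℕ) : ℝ) * β)) := by ring
      rw [e1]
      refine (norm_add_le _ _).trans ?_
      rw [norm_mul]
      have e2 : ‖ee (N * β) - ee (((N + 1 : ℕ) : ℝ) * β)‖ ≤ 2 * Real.pi * |β| := by
        refine (nm_ee_sub_le _ _).trans (le_of_eq ?_)
        have : (N : ℝ) * β - ((N + 1 : ℕ) : ℝ) * β = -β := by push_cast; ring
        rw [this, abs_neg]
      have e3 : ‖∑ m ∈ Icc 1 N, f m‖ * ‖ee (N * β) - ee (((N + 1 : ℕ) : ℝ) * β)‖ ≤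
          B * (2 * Real.pi * |β|) :=
        mul_le_mul (hB N) e2 (norm_nonneg _) ((norm_nonneg _).trans (hB N))
      have e4 : B * (2 * Real.pi * |β| * ((N + 1 : ℕ) : ℝ)) =
          B * (2 * Real.pi * |β| * N) + B * (2 * Real.pi * |β|) := by
        push_cast
        ring
      rw [e4]
      exact add_le_add ih e3
  have h1 := h N
  have h2 := norm_sub_norm_le (∑ m ∈ Icc 1 N, f m * ee (m * β))
    ((∑ m ∈ Icc 1 N, f m) * ee (N * β))
  rw [norm_mul, norm_ee, mul_one] at h2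
  have h3 := hB N
  linarith

/-- sums of periodic functions with mean zero -/
private theorem nm_per {f : ℕ → ℂ} {P : ℕ} {M : ℝ} (hP : 0 < P) (hper : ∀ m, f (m + P) = f m)
    (h0 : ∑ m ∈ range P, f m = 0) (hM : ∀ m, ‖f m‖ ≤ M) (n : ℕ) :
    ‖∑ m ∈ Icc 1 n, f m‖ ≤ P * M := by
  obtain ⟨F, hF⟩ : ∃ F : ℕ → ℂ, F = fun n => ∑ m ∈ Icc 1 n, f m := ⟨_, rfl⟩
  have hFs : ∀ n, F (n + 1) = F n + f (n + 1) := fun n => by
    rw [hF]
    exact sum_Icc_succ_top (by omega) _
  have hF0 : F 0 = 0 := by rw [hF]; simp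
  have hFr : ∀ n, F n + f 0 = (∑ m ∈ range n, f m) + f n := by
    intro n
    induction n with
    | zero => rw [hF0]; simp
    | succ n ih =>
      rw [hFs, sum_range_succ, ← ih]
      ring
  have hFP : F P = 0 := by
    have h1 := hFr P
    have h2 : f P = f 0 := by
      have := hper 0
      rwa [zero_add] at this
    rw [h0, h2] at h1
    linear_combination h1
  have hperF : Function.Periodic F P := by
    intro n
    induction n with
    | zero => rw [zero_add, hFP, hF0]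
    | succ n ih =>
      have e1 : n + 1 + P = (n + P) + 1 := by ring
      rw [e1, hFs, hFs, ih]
      congr 1
      have e2 : n + P + 1 = (n + 1) + P := by ring
      rw [e2, hper]
  have hM0 : 0 ≤ M := (norm_nonneg _).trans (hM 0)
  have h1 : F n = F (n % P) := (hperF.map_mod_nat n).symm
  have h2 : ‖F (n % P)‖ ≤ P * M := by
    rw [hF]
    refine (norm_sum_le _ _).trans ?_
    refine (sum_le_sum fun m _ => hM m).trans ?_
    rw [sum_const, Nat.card_Icc, nsmul_eq_mul, Nat.add_sub_cancel]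
    refine mul_le_mul_of_nonneg_right ?_ hM0
    exact_mod_cast (Nat.mod_lt n hP).le
  rw [← h1, hF] at h2
  exact h2

private theorem nm_squarefree (v : ℕ) : Squarefree (primorial v) := by
  unfold primorial
  refine Finset.squarefree_prod_of_pairwise_isCoprime (fun p hp q' hq hpq => ?_) (fun p hp => ?_)
  · have hp' : p.Prime := (mem_filter.1 hp).2
    have hq' : q'.Prime := (mem_filter.1 hq).2
    exact Nat.coprime_iff_isRelPrime.1 ((Nat.coprime_primes hp' hq').2 hpq)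
  · exact (mem_filter.1 hp).2.squarefree

private theorem nm_phi {n : ℕ} (hn : 0 < n) :
    ∑ d ∈ n.divisors, ((ArithmeticFunction.moebius d : ℤ) : ℂ) / d = (n.totient : ℂ) / n := by
  have h := (ArithmeticFunction.sum_eq_iff_sum_mul_moebius_eq (R := ℂ)
    (f := fun k => (k.totient : ℂ)) (g := fun k => (k : ℂ))).1 (by
      intro m _
      have := Nat.sum_totient m
      exact_mod_cast this) n hn
  rw [← h, sum_div, Nat.sum_divisorsAntidiagonal
    (f := fun d e => (((ArithmeticFunction.moebius d : ℤ) : ℂ) * (e : ℂ)) / n)]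
  refine sum_congr rfl fun d hd => ?_
  have hdn := Nat.dvd_of_mem_divisors hd
  have hd0 : (d : ℂ) ≠ 0 := by exact_mod_cast (Nat.pos_of_mem_divisors hd).ne'
  have hn0 : (n : ℂ) ≠ 0 := by exact_mod_cast hn.ne'
  rw [Nat.cast_div hdn hd0]
  field_simp

/-- detection of coprimality -/
private theorem nm_cop {W : ℕ} (hW : 0 < W) (m : ℕ) (x : ℂ) :
    (if Nat.Coprime m W then x else 0) =
      ∑ d ∈ W.divisors, (if d ∣ m then ((ArithmeticFunction.moebius d : ℤ) : ℂ) * x else 0) := by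
  have h2 : ∑ d ∈ W.divisors, (if d ∣ m then ((ArithmeticFunction.moebius d : ℤ) : ℂ) * x
      else 0) = (∑ d ∈ (Nat.gcd m W).divisors, ((ArithmeticFunction.moebius d : ℤ) : ℂ)) * x := by
    rw [sum_mul, ← sum_filter]
    refine sum_congr ?_ (fun _ _ => rfl)
    ext d
    rw [mem_filter, Nat.mem_divisors, Nat.mem_divisors]
    constructor
    · rintro ⟨⟨h3, _⟩, h4⟩
      exact ⟨Nat.dvd_gcd h4 h3, (Nat.gcd_pos_of_pos_right _ hW).ne'⟩
    · rintro ⟨h3, _⟩
      exact ⟨⟨h3.trans (Nat.gcd_dvd_right _ _), hW.ne'⟩, h3.trans (Nat.gcd_dvd_left _ _)⟩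
  rw [h2]
  have h3 : (∑ d ∈ (Nat.gcd m W).divisors, ((ArithmeticFunction.moebius d : ℤ) : ℂ)) =
      if Nat.gcd m W = 1 then 1 else 0 := by
    have h4 := congrArg (fun f : ArithmeticFunction ℤ => f (Nat.gcd m W))
      ArithmeticFunction.moebius_mul_coe_zeta
    simp only [ArithmeticFunction.coe_mul_zeta_apply, ArithmeticFunction.one_apply] at h4
    have h5 := congrArg (fun z : ℤ => (z : ℂ)) h4
    push_cast at h5
    exact h5
  rw [h3]
  by_cases h : Nat.Coprime m W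
  · rw [if_pos h, if_pos h, one_mul]
  · rw [if_neg h, if_neg h, zero_mul]

/-- sum over the numbers prime to `W` in a period -/
private theorem nm_sum {W q a₀ : ℕ} (hW : Squarefree W) (hq : 0 < q) (ha : Nat.Coprime a₀ q) :
    ∑ m ∈ range (W * q), (if Nat.Coprime m W then
        ee (((a₀ * W : ℕ) : ℝ) * ((m : ℝ) / ((W * q : ℕ) : ℝ))) else 0) =
      if q ∣ W then ((ArithmeticFunction.moebius q : ℤ) : ℂ) * q * ((W / q : ℕ).totient : ℂ)
        else 0 := by
  have hW0 : 0 < W := Nat.pos_of_ne_zero hW.ne_zero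
  have hP : 0 < W * q := Nat.mul_pos hW0 hq
  rw [sum_congr rfl fun m _ => nm_cop hW0 m _, sum_comm]
  have h1 : ∀ d ∈ W.divisors, ∑ m ∈ range (W * q), (if d ∣ m then
      ((ArithmeticFunction.moebius d : ℤ) : ℂ) *
        ee (((a₀ * W : ℕ) : ℝ) * ((m : ℝ) / ((W * q : ℕ) : ℝ))) else 0) =
      if q ∣ d then ((ArithmeticFunction.moebius d : ℤ) : ℂ) * (((W * q : ℕ) : ℂ) / d) else 0 := by
    intro d hd
    have hdW := Nat.dvd_of_mem_divisors hd
    have hd0 : 0 < d := Nat.pos_of_mem_divisors hd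
    have hdP : d ∣ W * q := hdW.trans (dvd_mul_right _ _)
    rw [← sum_filter, ← mul_sum, sum_multiples (W * q) d (a₀ * W) hP hdP]
    have h2 : (W * q / d ∣ a₀ * W) ↔ q ∣ d := by
      obtain ⟨w, rfl⟩ := hdW
      have hw0 : 0 < w := Nat.pos_of_mul_pos_left hW0
      have e1 : d * w * q / d = w * q := by
        rw [mul_assoc, Nat.mul_div_cancel_left _ hd0]
      have e2 : a₀ * (d * w) = w * (a₀ * d) := by ring
      rw [e1, e2, Nat.mul_dvd_mul_iff_left hw0]
      constructor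
      · intro h
        exact (Nat.Coprime.dvd_of_dvd_mul_left ha.symm h)
      · intro h
        exact h.mul_left _
    by_cases hqd : q ∣ d
    · rw [if_pos (h2.2 hqd), if_pos hqd, Nat.cast_div hdP (by exact_mod_cast hd0.ne')]
    · rw [if_neg (fun h => hqd (h2.1 h)), if_neg hqd, mul_zero]
  rw [sum_congr rfl h1]
  by_cases hqW : q ∣ W
  · rw [if_pos hqW]
    obtain ⟨n, rfl⟩ := hqW
    have hn0 : 0 < n := Nat.pos_of_mul_pos_left hW0
    have hcop : Nat.Coprime q n := Nat.coprime_of_squarefree_mul hW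
    rw [Nat.mul_div_cancel_left _ hq, ← sum_filter]
    have h3 : (q * n).divisors.filter (fun d => q ∣ d) = n.divisors.image (fun e => q * e) := by
      ext d
      rw [mem_filter, Nat.mem_divisors, mem_image]
      constructor
      · rintro ⟨⟨h4, h5⟩, e, rfl⟩
        refine ⟨e, ?_, rfl⟩
        rw [Nat.mem_divisors]
        exact ⟨(Nat.mul_dvd_mul_iff_left hq).1 h4, hn0.ne'⟩
      · rintro ⟨e, he, rfl⟩
        rw [Nat.mem_divisors] at he
        exact ⟨⟨Nat.mul_dvd_mul_left q he.1, hW0.ne'⟩, dvd_mul_right _ _⟩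
    rw [h3, sum_image (fun a _ b _ h => Nat.eq_of_mul_eq_mul_left hq h)]
    have h4 : ∀ e ∈ n.divisors, ((ArithmeticFunction.moebius (q * e) : ℤ) : ℂ) *
        (((q * n * q : ℕ) : ℂ) / ((q * e : ℕ) : ℂ)) =
        (((ArithmeticFunction.moebius q : ℤ) : ℂ) * q * n) *
          (((ArithmeticFunction.moebius e : ℤ) : ℂ) / e) := by
      intro e he
      have hen := Nat.dvd_of_mem_divisors he
      have he0 : (e : ℂ) ≠ 0 := by exact_mod_cast (Nat.pos_of_mem_divisors he).ne'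
      have hq0 : (q : ℂ) ≠ 0 := by exact_mod_cast hq.ne'
      have hce : Nat.Coprime q e := Nat.Coprime.coprime_dvd_right hen hcop
      rw [ArithmeticFunction.isMultiplicative_moebius.map_mul_of_coprime hce]
      push_cast
      field_simp
    rw [sum_congr rfl h4, ← mul_sum, nm_phi hn0]
    have hn0' : (n : ℂ) ≠ 0 := by exact_mod_cast hn0.ne'
    field_simp
  · rw [if_neg hqW]
    refine sum_eq_zero fun d hd => ?_
    rw [if_neg]
    intro h
    exact hqW (h.trans (Nat.dvd_of_mem_divisors hd))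

private theorem nm_ee (q : ℕ) (hq : 1 ≤ q) (W : ℕ) (hW : 0 < W) (a : ℤ)
    (ha : IsCoprime a (q : ℤ)) : ∃ a₀ : ℕ, Nat.Coprime a₀ q ∧ ∀ m : ℕ,
      ee ((m : ℝ) * ((a : ℝ) / q)) =
        ee (((a₀ * W : ℕ) : ℝ) * ((m : ℝ) / ((W * q : ℕ) : ℝ))) := by
  have hq0 : (q : ℤ) ≠ 0 := by
    have : 0 < q := hq
    exact_mod_cast this.ne'
  have hq0' : (q : ℝ) ≠ 0 := by
    have : 0 < q := hq
    exact_mod_cast this.ne'
  have hW0 : (W : ℝ) ≠ 0 := by exact_mod_cast hW.ne'
  obtain ⟨a₀, ha₀⟩ : ∃ a₀ : ℕ, (a₀ : ℤ) = a % q :=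
    ⟨(a % q).toNat, Int.toNat_of_nonneg (Int.emod_nonneg a hq0)⟩
  refine ⟨a₀, ?_, ?_⟩
  · rw [← Nat.isCoprime_iff_coprime, ha₀, Int.emod_def]
    have h1 := ha.add_mul_left_left (-(a / (q : ℤ)))
    have h2 : a + (q : ℤ) * (-(a / (q : ℤ))) = a - q * (a / q) := by ring
    rwa [h2] at h1
  · intro m
    have h1 : (a : ℝ) = q * ((a / (q : ℤ) : ℤ) : ℝ) + a₀ := by
      have h2 := Int.mul_ediv_add_emod a q
      rw [← ha₀] at h2
      exact_mod_cast h2.symm
    have h3 : (m : ℝ) * ((a : ℝ) / q) =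
        ((a₀ * W : ℕ) : ℝ) * ((m : ℝ) / ((W * q : ℕ) : ℝ)) + (((m : ℤ) * (a / (q : ℤ)) : ℤ) : ℝ) := by
      conv_lhs => rw [h1]
      push_cast
      field_simp
      ring
    rw [h3, ee_add, ee_int, mul_one]

/-- Cut `(0, N]` into intervals of length `W q` (last one incomplete, at most `W q` terms); on each
replace `e(m β)` by a constant (error at most `2π K W q / N` for each term). The sum of
`nu v m e(a m / q)` over a period `W q` is `W q μ(q) / φ(q)` if `q ∣ W` and `0` otherwise: with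
`1_{(m, W) = 1} = ∑_{d ∣ (m, W)} μ(d)` the sum over the multiples of `d` is `0` unless `q ∣ d`, and
`∑_{q ∣ d ∣ W} μ(d)/d = μ(q)/q ∏_{p ∣ W/q} (1 - 1/p) = (φ(W)/W) μ(q)/φ(q)` (`W` squarefree). -/
theorem nuMaj (v q : ℕ) (hq : 1 ≤ q) (K ε : ℝ) (hK : 0 ≤ K) (hε : 0 < ε) :
    ∃ N₀ : ℕ, ∀ N : ℕ, N₀ ≤ N → ∀ a : ℤ, IsCoprime a (q : ℤ) → ∀ β : ℝ, |β| * N ≤ K →
      ‖SN v N (a / q + β) - (if q ∣ primorial v then
        ((ArithmeticFunction.moebius q : ℤ) : ℂ) / q.totient else 0) *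
        ∑ m ∈ Icc 1 N, ee (m * β)‖ ≤ ε * N := by
  obtain ⟨W, hW⟩ : ∃ W, W = primorial v := ⟨_, rfl⟩
  have hWsq : Squarefree W := by rw [hW]; exact nm_squarefree v
  have hW0 : 0 < W := Nat.pos_of_ne_zero hWsq.ne_zero
  have hφW : (0 : ℝ) < W.totient := by exact_mod_cast Nat.totient_pos.2 hW0
  have hφq : (0 : ℝ) < q.totient := by exact_mod_cast Nat.totient_pos.2 hq
  obtain ⟨M, hM⟩ : ∃ M : ℝ, M = (W : ℝ) / W.totient + 1 := ⟨_, rfl⟩
  have hM0 : 0 ≤ M := by rw [hM]; positivity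
  obtain ⟨c, hc⟩ : ∃ c : ℂ, c = if q ∣ W then
    ((ArithmeticFunction.moebius q : ℤ) : ℂ) / q.totient else 0 := ⟨_, rfl⟩
  have hc1 : ‖c‖ ≤ 1 := by
    rw [hc]
    split_ifs
    · rw [norm_div, Complex.norm_intCast, Complex.norm_natCast, div_le_one hφq]
      have h1 : |((ArithmeticFunction.moebius q : ℤ) : ℝ)| ≤ 1 := by
        exact_mod_cast ArithmeticFunction.abs_moebius_le_one (n := q)
      have h2 : (1 : ℝ) ≤ q.totient := by exact_mod_cast Nat.totient_pos.2 hq
      linarith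
    · simp
  have hP : 0 < W * q := Nat.mul_pos hW0 hq
  refine ⟨⌈((W * q : ℕ) : ℝ) * M * (1 + 2 * Real.pi * K) / ε⌉₊, ?_⟩
  intro N hN a ha β hβ
  obtain ⟨a₀, ha₀, hee⟩ := nm_ee q hq W hW0 a ha
  obtain ⟨f, hf⟩ : ∃ f : ℕ → ℂ, f = fun m => (nu v m : ℂ) * ee ((m : ℝ) * ((a : ℝ) / q)) - c :=
    ⟨_, rfl⟩
  have hfM : ∀ m, ‖f m‖ ≤ M := by
    intro m
    rw [hf]
    refine (norm_sub_le _ _).trans ?_
    rw [norm_mul, norm_ee, mul_one, Complex.norm_real, Real.norm_eq_abs,
      abs_of_nonneg (nu_nonneg v m), hM]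
    have := nu_le v m
    rw [← hW] at this
    linarith
  have hnuper : ∀ m, nu v (m + W * q) = nu v m := by
    intro m
    unfold nu
    rw [← hW]
    have : Nat.Coprime (m + W * q) W ↔ Nat.Coprime m W := Nat.coprime_add_mul_left_left m W q
    simp only [this]
  have hper : ∀ m, f (m + W * q) = f m := by
    intro m
    rw [hf]
    simp only
    rw [hnuper m]
    congr 2
    have hq0' : (q : ℝ) ≠ 0 := by
      have : 0 < q := hq
      exact_mod_cast this.ne'
    have h1 : ((m + W * q : ℕ) : ℝ) * ((a : ℝ) / q) =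
        (m : ℝ) * ((a : ℝ) / q) + (((W : ℤ) * a : ℤ) : ℝ) := by
      push_cast
      field_simp
    rw [h1, ee_add, ee_int, mul_one]
  have hzero : ∑ m ∈ range (W * q), f m = 0 := by
    have h1 : ∀ m ∈ range (W * q), f m = ((W : ℂ) / W.totient) * (if Nat.Coprime m W then
        ee (((a₀ * W : ℕ) : ℝ) * ((m : ℝ) / ((W * q : ℕ) : ℝ))) else 0) - c := by
      intro m _
      rw [hf]
      simp only
      rw [hee m]
      unfold nu
      rw [← hW]
      split_ifs
      · push_cast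
        ring
      · simp
    rw [sum_congr rfl h1, sum_sub_distrib, ← mul_sum, nm_sum hWsq hq ha₀, sum_const, card_range,
      nsmul_eq_mul, hc]
    have hφW' : (W.totient : ℂ) ≠ 0 := by exact_mod_cast hφW.ne'
    have hφq' : (q.totient : ℂ) ≠ 0 := by exact_mod_cast hφq.ne'
    by_cases hqW : q ∣ W
    · rw [if_pos hqW, if_pos hqW]
      obtain ⟨n, hn⟩ := hqW
      have hcop : Nat.Coprime q n := by
        rw [hn] at hWsq
        exact Nat.coprime_of_squarefree_mul hWsq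
      have h2 : W / q = n := by
        rw [hn, Nat.mul_div_cancel_left _ hq]
      have h3 : (W.totient : ℂ) = q.totient * n.totient := by
        rw [hn, Nat.totient_mul hcop]
        push_cast
        rfl
      rw [h2, h3]
      have hn' : (n.totient : ℂ) ≠ 0 := by
        intro h0
        rw [h3, h0, mul_zero] at hφW'
        exact hφW' rfl
      push_cast
      field_simp
      ring
    · rw [if_neg hqW, if_neg hqW]
      simp
  have hSN : SN v N (a / q + β) - c * ∑ m ∈ Icc 1 N, ee (m * β) =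
      ∑ m ∈ Icc 1 N, f m * ee (m * β) := by
    unfold SN
    rw [mul_sum, ← sum_sub_distrib]
    refine sum_congr rfl fun m _ => ?_
    rw [hf, mul_add, ee_add]
    ring
  rw [← hW, ← hc, hSN]
  refine (nm_abel β (nm_per hP hper hzero hfM) N).trans ?_
  have h1 : ((W * q : ℕ) : ℝ) * M * (1 + 2 * Real.pi * K) ≤ ε * N := by
    have h2 := (Nat.le_ceil (((W * q : ℕ) : ℝ) * M * (1 + 2 * Real.pi * K) / ε)).trans
      (by exact_mod_cast hN : ((⌈((W * q : ℕ) : ℝ) * M * (1 + 2 * Real.pi * K) / ε⌉₊ : ℕ) : ℝ) ≤ N)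
    rw [div_le_iff₀ hε] at h2
    linarith
  refine le_trans ?_ h1
  refine mul_le_mul_of_nonneg_left ?_ (by positivity)
  have h3 : 2 * Real.pi * |β| * N = 2 * Real.pi * (|β| * N) := by ring
  rw [h3]
  have h4 : 2 * Real.pi * (|β| * N) ≤ 2 * Real.pi * K :=
    mul_le_mul_of_nonneg_left hβ (by positivity)
  linarith

end Pool.Agent.Lib.MP_629a14_nt.Rob
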