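import Pool.Agent.Lib.MP_629a14_nt.Rob.Defs

/-! Geometric sums and the kernel gK. -/

set_option autoImplicit false

namespace Pool.Agent.Lib.MP_629a14_nt.Rob

open Finset Pool.Agent.Lib.MP_629a14_nt

/-- Proof: `round` is a nearest integer. -/
theorem nn_nonneg (x : ℝ) : 0 ≤ nn x := abs_nonneg _

theorem nn_le_half (x : ℝ) : nn x ≤ 1 / 2 := abs_sub_round x

theorem nn_add_int (x : ℝ) (k : ℤ) : nn (x + k) = nn x := by
  unfold nn
  rw [round_add_intCast]
  congr 1
  push_cast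
  ring

/-- `nn` is the distance to the nearest integer. -/
private theorem nn_le_aux (x : ℝ) (k : ℤ) : nn x ≤ |x - k| := round_le x k

private theorem nn_neg_le (x : ℝ) : nn (-x) ≤ nn x := by
  have h := nn_le_aux (-x) (-(round x))
  have h2 : |-x - ((-(round x) : ℤ) : ℝ)| = |x - round x| := by
    rw [← abs_neg]
    congr 1
    push_cast
    ring
  rw [h2] at h
  exact h

theorem nn_neg (x : ℝ) : nn (-x) = nn x := by
  apply le_antisymm (nn_neg_le x)
  have h := nn_neg_le (-x)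
  rwa [neg_neg] at h

/-- `nn` is the distance to the nearest integer. -/
theorem nn_le (x : ℝ) (k : ℤ) : nn x ≤ |x - k| := round_le x k

theorem nn_add_le (x y : ℝ) : nn (x + y) ≤ nn x + nn y := by
  have h := nn_le (x + y) (round x + round y)
  refine le_trans h ?_
  have h2 : x + y - ((round x + round y : ℤ) : ℝ) = (x - round x) + (y - round y) := by
    push_cast
    ring
  rw [h2]
  exact abs_add_le _ _

private theorem den_pos {Y : ℝ} (hY : 0 ≤ Y) (x : ℝ) : 0 < 1 + Y * nn x := by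
  have := mul_nonneg hY (nn_nonneg x)
  linarith

theorem gK_nonneg {Y : ℝ} (hY : 0 ≤ Y) (x : ℝ) : 0 ≤ gK Y x := by
  unfold gK
  exact div_nonneg (by linarith) (den_pos hY x).le

theorem gK_le {Y : ℝ} (hY : 0 ≤ Y) (x : ℝ) : gK Y x ≤ 2 * Y := by
  unfold gK
  apply div_le_self (by linarith)
  have := mul_nonneg hY (nn_nonneg x)
  linarith

theorem gK_le_inv {Y : ℝ} (hY : 0 ≤ Y) {x : ℝ} (hx : 0 < nn x) : gK Y x ≤ 2 / nn x := by
  unfold gK
  rw [div_le_div_iff₀ (den_pos hY x) hx]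
  nlinarith

theorem gK_mono {Y Y' : ℝ} (hY : 0 ≤ Y) (h : Y ≤ Y') (x : ℝ) : gK Y x ≤ gK Y' x := by
  unfold gK
  rw [div_le_div_iff₀ (den_pos hY x) (den_pos (le_trans hY h) x)]
  nlinarith

theorem gK_neg (Y x : ℝ) : gK Y (-x) = gK Y x := by
  unfold gK
  rw [nn_neg]

private theorem norm_ee_sub_one (θ : ℝ) : 4 * nn θ ≤ ‖ee θ - 1‖ := by
  have h1 : ee θ = ee (θ - round θ) := by
    have h2 : ee θ = ee (θ - round θ) * ee (round θ) := by
      rw [← ee_add]
      congr 1
      ring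
    rw [h2, ee_int, mul_one]
  have h3 : |θ - round θ| ≤ 1 / 2 := abs_sub_round θ
  have h4 : ‖ee (θ - round θ) - 1‖ = ‖2 * Real.sin (2 * Real.pi * (θ - round θ) / 2)‖ := by
    rw [← Complex.norm_exp_I_mul_ofReal_sub_one]
    unfold ee
    congr 3
    push_cast
    ring
  rw [h1, h4, norm_mul, Real.norm_eq_abs, Real.norm_eq_abs, abs_two]
  have h5 : 2 * Real.pi * (θ - round θ) / 2 = Real.pi * (θ - round θ) := by ring
  rw [h5]
  have hpi := Real.pi_pos
  have h6 : |Real.pi * (θ - round θ)| ≤ Real.pi / 2 := by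
    rw [abs_mul, abs_of_pos hpi]
    nlinarith
  have h7 := Real.mul_abs_le_abs_sin h6
  rw [abs_mul, abs_of_pos hpi] at h7
  have h8 : 2 / Real.pi * (Real.pi * |θ - round θ|) = 2 * |θ - round θ| := by
    field_simp
  rw [h8] at h7
  unfold nn
  linarith

/-- Geometric sums: `|sum| ≤ min (k, 1 / (2 ‖θ‖)) ≤ gK Y θ`. -/
theorem geom (a k : ℕ) (Y θ : ℝ) (hY0 : 0 < Y) (hY : (k : ℝ) ≤ Y) :
    ‖∑ m ∈ Ico a (a + k), ee (m * θ)‖ ≤ gK Y θ := by
  have hnn := nn_nonneg θ
  have htriv : ‖∑ m ∈ Ico a (a + k), ee (m * θ)‖ ≤ k := by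
    refine le_trans (norm_sum_le _ _) ?_
    rw [Finset.sum_congr rfl (fun (m : ℕ) _ => norm_ee (m * θ))]
    simp
  unfold gK
  rcases le_or_gt (Y * nn θ) 1 with h1 | h1
  · rw [le_div_iff₀ (den_pos hY0.le θ)]
    have h2 : 0 ≤ ‖∑ m ∈ Ico a (a + k), ee (m * θ)‖ := norm_nonneg _
    nlinarith [den_pos hY0.le θ]
  · have hpos : 0 < nn θ := by
      by_contra h
      push Not at h
      have : nn θ = 0 := le_antisymm h hnn
      rw [this, mul_zero] at h1
      linarith
    have hz : 4 * nn θ ≤ ‖ee θ - 1‖ := norm_ee_sub_one θ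
    have hz0 : 0 < ‖ee θ - 1‖ := by linarith
    have hz1 : ee θ ≠ 1 := by
      intro h
      rw [h, sub_self, norm_zero] at hz0
      exact lt_irrefl _ hz0
    have hsum : ∑ m ∈ Ico a (a + k), ee (m * θ) = ee θ ^ a * ((ee θ ^ k - 1) / (ee θ - 1)) := by
      rw [← geom_sum_eq hz1, Finset.mul_sum, Finset.sum_Ico_eq_sum_range, add_tsub_cancel_left]
      apply Finset.sum_congr rfl
      intro m _
      rw [ee_nat_mul, pow_add]
    have hb : ‖∑ m ∈ Ico a (a + k), ee (m * θ)‖ ≤ 2 / (4 * nn θ) := by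
      rw [hsum, norm_mul, norm_pow, norm_ee, one_pow, one_mul, norm_div]
      apply div_le_div₀ (by norm_num) _ (by linarith) hz
      refine le_trans (norm_sub_le _ _) ?_
      rw [norm_pow, norm_ee, one_pow, norm_one]
      norm_num
    refine le_trans hb ?_
    rw [div_le_div_iff₀ (by linarith) (den_pos hY0.le θ)]
    nlinarith

/-- Only use this when `θ` is small (no reduction modulo one): `|θ| ≤ 1/2` gives
`gK Y θ = 2 Y / (1 + Y |θ|)`. -/
theorem nn_eq_abs {θ : ℝ} (h : |θ| ≤ 1 / 2) : nn θ = |θ| := by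
  apply le_antisymm
  · have h1 := nn_le θ 0
    simpa using h1
  · unfold nn
    by_contra hlt
    push Not at hlt
    have hne : round θ ≠ 0 := by
      intro h0
      rw [h0] at hlt
      simp at hlt
    have h2 : (1 : ℝ) ≤ |((round θ : ℤ) : ℝ)| := by
      have h3 : (1 : ℤ) ≤ |round θ| := Int.one_le_abs hne
      exact_mod_cast h3
    have h4 : |((round θ : ℤ) : ℝ)| ≤ |θ - round θ| + |θ| := by
      have h5 : ((round θ : ℤ) : ℝ) = θ - (θ - round θ) := by ring
      calc |((round θ : ℤ) : ℝ)| = |θ - (θ - round θ)| := by rw [← h5]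
        _ ≤ |θ| + |θ - round θ| := abs_sub _ _
        _ = _ := add_comm _ _
    linarith

end Pool.Agent.Lib.MP_629a14_nt.Rob
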