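import Pool.Agent.Lib.MP_629a14_nt.Rob.SDefs
import Pool.Agent.Lib.MP_629a14_nt.Rob.Geo

/-! The weights `nu` away from the rationals with denominators at most `W`. -/

set_option autoImplicit false

namespace Pool.Agent.Lib.MP_629a14_nt.Rob

open Finset Pool.Agent.Lib.MP_629a14_nt

private theorem ap_sum (W N b : ℕ) (hW : 0 < W) (hb : b < W) (α : ℝ) (h : 0 < nn (W * α)) :
    ‖∑ m ∈ (Icc 1 N).filter (fun m => m % W = b), ee (m * α)‖ ≤ 2 / nn (W * α) := by
  set k₀ : ℕ := if b = 0 then 1 else 0 with hk₀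
  set k₁ : ℕ := if b ≤ N then (N - b) / W + 1 else 0 with hk₁
  have hset : (Icc 1 N).filter (fun m => m % W = b) = (Ico k₀ k₁).image (fun k => W * k + b) := by
    ext m
    simp only [mem_filter, mem_Icc, mem_image, mem_Ico]
    constructor
    · rintro ⟨⟨h1, h2⟩, h3⟩
      have hm : W * (m / W) + b = m := by rw [← h3]; exact Nat.div_add_mod m W
      refine ⟨m / W, ⟨?_, ?_⟩, hm⟩
      · rw [hk₀]
        split_ifs with hb0
        · by_contra hlt
          have h0 : m / W = 0 := Nat.lt_one_iff.mp (not_le.mp hlt)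
          rw [h0, hb0] at hm
          omega
        · exact Nat.zero_le _
      · have hbN : b ≤ N := by omega
        rw [hk₁, if_pos hbN, Nat.lt_succ_iff, Nat.le_div_iff_mul_le hW]
        rw [mul_comm]
        omega
    · rintro ⟨k, ⟨h1, h2⟩, rfl⟩
      have hbN : b ≤ N := by
        by_contra hcon
        rw [hk₁, if_neg hcon] at h2
        omega
      rw [hk₁, if_pos hbN, Nat.lt_succ_iff, Nat.le_div_iff_mul_le hW, mul_comm] at h2
      refine ⟨⟨?_, by omega⟩, ?_⟩
      · rw [hk₀] at h1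
        split_ifs at h1 with hb0
        · have : W * 1 ≤ W * k := Nat.mul_le_mul_left W h1
          omega
        · omega
      · rw [Nat.mul_add_mod, Nat.mod_eq_of_lt hb]
  have hinj : ∀ x ∈ Ico k₀ k₁, ∀ y ∈ Ico k₀ k₁, W * x + b = W * y + b → x = y := by
    intro x _ y _ hxy
    exact Nat.eq_of_mul_eq_mul_left hW (by omega)
  rw [hset, sum_image hinj]
  have he : ∀ k ∈ Ico k₀ k₁, ee (((W * k + b : ℕ) : ℝ) * α) = ee (b * α) * ee (k * (W * α)) := by
    intro k _
    rw [← ee_add]
    congr 1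
    push_cast
    ring
  rw [sum_congr rfl he, ← mul_sum, norm_mul, norm_ee, one_mul]
  rcases le_or_gt k₀ k₁ with hle | hlt
  · obtain ⟨k, hk⟩ := Nat.exists_eq_add_of_le hle
    rw [hk]
    refine (geom k₀ k ((k : ℝ) + 1) (W * α) (by positivity) (by linarith)).trans ?_
    exact gK_le_inv (by positivity) h
  · rw [Finset.Ico_eq_empty (by omega), sum_empty, norm_zero]
    positivity

/-- `SN v N α = (W / φ(W)) ∑_{d ∣ W} μ(d) ∑_{k ≤ N/d} e(k d α)`, and the inner sum is at most
`1 / (2 ‖d α‖)`, `‖d α‖ = d |α - a/d| ≥ K d / N` for some integer `a`. -/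
theorem nuMin (v : ℕ) : ∃ C : ℝ, 0 < C ∧ ∀ N : ℕ, 1 ≤ N → ∀ K α : ℝ, 0 < K →
    (∀ q : ℕ, 1 ≤ q → q ≤ primorial v → ∀ a : ℤ, K / N < |α - a / q|) →
      ‖SN v N α‖ ≤ C * (N / K) := by
  set W : ℕ := primorial v with hW
  have hW0 : 0 < W := primorial_pos v
  have hWr : (0 : ℝ) < W := by exact_mod_cast hW0
  have hphi : (0 : ℝ) < W.totient := by exact_mod_cast Nat.totient_pos.mpr hW0
  refine ⟨2 * ((W : ℝ) / W.totient), by positivity, ?_⟩
  intro N hN K α hK hα
  have hNr : (0 : ℝ) < N := by exact_mod_cast hN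
  have hnn : W * (K / N) ≤ nn (W * α) := by
    have h1 := hα W hW0 le_rfl (round ((W : ℝ) * α))
    have h2 : (W : ℝ) * α - round ((W : ℝ) * α) = W * (α - round ((W : ℝ) * α) / W) := by
      field_simp
    unfold nn
    rw [h2, abs_mul, abs_of_pos hWr]
    exact mul_le_mul_of_nonneg_left h1.le hWr.le
  have hnn0 : 0 < nn (W * α) := lt_of_lt_of_le (by positivity) hnn
  have hS : SN v N α = ∑ b ∈ range W, (nu v b : ℂ) *
      ∑ m ∈ (Icc 1 N).filter (fun m => m % W = b), ee (m * α) := by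
    unfold SN
    rw [← sum_fiberwise_of_maps_to (g := fun m => m % W) (t := range W)
      (fun m _ => mem_range.mpr (Nat.mod_lt m hW0))]
    refine sum_congr rfl fun b hb => ?_
    rw [mul_sum]
    refine sum_congr rfl fun m hm => ?_
    have hmb : m % W = b := (mem_filter.mp hm).2
    have hnu : nu v m = nu v b := by
      unfold nu
      have hc : Nat.Coprime m (primorial v) ↔ Nat.Coprime b (primorial v) := by
        rw [← hmb, ← hW]
        unfold Nat.Coprime
        rw [(Nat.mod_modEq m W).gcd_eq]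
      by_cases h1 : Nat.Coprime b (primorial v)
      · rw [if_pos (hc.mpr h1), if_pos h1]
      · rw [if_neg (fun h2 => h1 (hc.mp h2)), if_neg h1]
    rw [hnu]
  rw [hS]
  calc ‖∑ b ∈ range W, (nu v b : ℂ) * ∑ m ∈ (Icc 1 N).filter (fun m => m % W = b), ee (m * α)‖
      ≤ ∑ b ∈ range W, ‖(nu v b : ℂ) *
        ∑ m ∈ (Icc 1 N).filter (fun m => m % W = b), ee (m * α)‖ := norm_sum_le _ _
    _ ≤ ∑ b ∈ range W, ((W : ℝ) / W.totient) * (2 / (W * (K / N))) := by
        refine sum_le_sum fun b hb => ?_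
        rw [norm_mul, Complex.norm_real, Real.norm_eq_abs, abs_of_nonneg (nu_nonneg v b)]
        refine mul_le_mul (nu_le v b) ?_ (norm_nonneg _) (by positivity)
        refine (ap_sum W N b hW0 (mem_range.mp hb) α hnn0).trans ?_
        exact div_le_div_of_nonneg_left (by norm_num) (by positivity) hnn
    _ = 2 * ((W : ℝ) / W.totient) * (N / K) := by
        rw [sum_const, card_range, nsmul_eq_mul]
        field_simp

end Pool.Agent.Lib.MP_629a14_nt.Rob
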