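import Pool.Agent.Lib.MP_629a14_nt.Rob.Minor
import Pool.Agent.Lib.MP_629a14_nt.Rob.MajP
import Pool.Agent.Lib.MP_629a14_nt.Rob.NuMaj
import Pool.Agent.Lib.MP_629a14_nt.Rob.NuMin

/-! The Fourier transform of `gg` is uniformly small. -/

set_option autoImplicit false

namespace Pool.Agent.Lib.MP_629a14_nt.Rob

open Finset Pool.Agent.Lib.MP_629a14_nt

namespace Sup

theorem exists_prime (v q : ℕ) (hsq : Squarefree q) (h : ¬ q ∣ primorial v) :
    ∃ p : ℕ, p.Prime ∧ p ∣ q ∧ v < p := by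
  by_contra hcon
  apply h
  have h1 : ∏ p ∈ q.primeFactors, p = q := Nat.prod_primeFactors_of_squarefree hsq
  rw [← h1]
  unfold primorial
  refine Finset.prod_dvd_prod_of_subset _ _ _ ?_
  intro p hp
  rw [mem_filter, mem_range]
  have hpp := Nat.prime_of_mem_primeFactors hp
  refine ⟨?_, hpp⟩
  by_contra hlt
  exact hcon ⟨p, hpp, Nat.dvd_of_mem_primeFactors hp, by omega⟩

theorem main_bound (v q : ℕ) (hv : 3 ≤ v) (hq : 1 ≤ q) :
    ‖((ArithmeticFunction.moebius q : ℤ) : ℂ) / (q.totient : ℂ) -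
      (if q ∣ primorial v then ((ArithmeticFunction.moebius q : ℤ) : ℂ) / q.totient else 0)‖ ≤
        1 / (v : ℝ) := by
  have hv0 : (0 : ℝ) < v := by exact_mod_cast (by omega : 0 < v)
  by_cases hd : q ∣ primorial v
  · rw [if_pos hd, sub_self, norm_zero]
    positivity
  · rw [if_neg hd, sub_zero]
    by_cases hsq : Squarefree q
    · obtain ⟨p, hp, hpq, hvp⟩ := exists_prime v q hsq hd
      have h1 : p - 1 ∣ q.totient := by
        rw [← Nat.totient_prime hp]
        exact Nat.totient_dvd_of_dvd hpq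
      have h2 : 0 < q.totient := Nat.totient_pos.2 hq
      have h3 : p - 1 ≤ q.totient := Nat.le_of_dvd h2 h1
      have h4 : v ≤ q.totient := by omega
      have h5 : (v : ℝ) ≤ q.totient := by exact_mod_cast h4
      rw [norm_div]
      have h6 : ‖((ArithmeticFunction.moebius q : ℤ) : ℂ)‖ ≤ 1 := by
        rw [Complex.norm_intCast]
        exact_mod_cast ArithmeticFunction.abs_moebius_le_one
      have h7 : ‖(q.totient : ℂ)‖ = q.totient := by simp
      rw [h7]
      exact div_le_div₀ zero_le_one h6 hv0 h5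
    · rw [ArithmeticFunction.moebius_eq_zero_of_not_squarefree hsq]
      simp

theorem norm_sum_ee (N : ℕ) (β : ℝ) : ‖∑ m ∈ Icc 1 N, ee (m * β)‖ ≤ N := by
  calc ‖∑ m ∈ Icc 1 N, ee (m * β)‖ ≤ ∑ m ∈ Icc 1 N, ‖ee (m * β)‖ := norm_sum_le _ _
    _ = ∑ m ∈ Icc 1 N, (1 : ℝ) := sum_congr rfl fun m _ => norm_ee _
    _ = N := by simp

theorem reduce (q : ℕ) (a : ℤ) (hq : 1 ≤ q) : ∃ (q' : ℕ) (a' : ℤ), 1 ≤ q' ∧ q' ≤ q ∧
    IsCoprime a' (q' : ℤ) ∧ (a : ℝ) / q = a' / q' := by
  have hg : 0 < Int.gcd a q := Int.gcd_pos_of_ne_zero_right _ (by exact_mod_cast (by omega : q ≠ 0))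
  obtain ⟨b, hb⟩ : ((Int.gcd a q : ℕ) : ℤ) ∣ a := Int.gcd_dvd_left _ _
  obtain ⟨r, hr⟩ : Int.gcd a q ∣ q := by
    have := Int.gcd_dvd_right a (q : ℤ)
    exact_mod_cast this
  have hr0 : 1 ≤ r := by
    rcases Nat.eq_zero_or_pos r with h | h
    · rw [h, mul_zero] at hr; omega
    · exact h
  refine ⟨r, b, hr0, ?_, ?_, ?_⟩
  · rw [hr]
    exact Nat.le_mul_of_pos_left r hg
  · rw [Int.isCoprime_iff_gcd_eq_one]
    have h1 : Int.gcd (((Int.gcd a q : ℕ) : ℤ) * b) (((Int.gcd a q : ℕ) : ℤ) * r) =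
        Int.gcd a q * Int.gcd b r := by
      rw [Int.gcd_mul_left]
      simp
    rw [← hb] at h1
    have h2 : (((Int.gcd a q : ℕ) : ℤ) * r) = q := by
      exact_mod_cast hr.symm
    rw [h2] at h1
    have h3 : Int.gcd a q * 1 = Int.gcd a q * Int.gcd b r := by rw [mul_one]; exact h1
    exact (Nat.eq_of_mul_eq_mul_left hg h3).symm
  · have h1 : (a : ℝ) = (Int.gcd a q : ℝ) * b := by exact_mod_cast hb
    have h2 : (q : ℝ) = (Int.gcd a q : ℝ) * r := by exact_mod_cast hr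
    have h3 : (Int.gcd a q : ℝ) ≠ 0 := by exact_mod_cast hg.ne'
    rw [h2]
    rw [h1]
    rw [mul_div_mul_left _ _ h3]

end Sup

/-- `minor` with `ε = 1/(2v)` gives `Q`, `K`; put `Q' = max Q W`, `K' = max K (2 v C)` with `C` from
`nuMin`. If some `q ≤ Q'`, `a` prime to `q` has `|α - a/q| ≤ K'/N`, use `majP` and `nuMaj` with
`1/(4v)` (finitely many `q`): the difference of the main terms vanishes if `q ∣ W` or `μ(q) = 0`,
and otherwise `q` has a prime factor `p > v`, so `1/φ(q) ≤ 1/(p-1) ≤ 1/v`. Otherwise (reduce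
fractions to lowest terms) the first alternative of `minor` and `nuMin` hold. -/
theorem sup_le (v : ℕ) (hv : 3 ≤ v) : ∃ N₀ : ℕ, ∀ N : ℕ, N₀ ≤ N → ∀ α : ℝ,
    ‖gh v N α‖ ≤ 2 / v * N := by
  classical
  have hv0 : (0 : ℝ) < v := by exact_mod_cast (by omega : 0 < v)
  obtain ⟨Q, K, Nm, hQ, hmin⟩ := minor (1 / (2 * v)) (by positivity)
  obtain ⟨C, hC, hnu⟩ := nuMin v
  set Q' : ℕ := max Q (primorial v) with hQ'
  set K' : ℝ := max (K : ℝ) (2 * v * C) with hK'
  have hKC : 2 * v * C ≤ K' := le_max_right _ _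
  have hK'pos : 0 < K' := lt_of_lt_of_le (by positivity) hKC
  have hmaj : ∀ q : ℕ, ∃ N₀ : ℕ, 1 ≤ q → ∀ N : ℕ, N₀ ≤ N → ∀ a : ℤ, IsCoprime a (q : ℤ) →
      ∀ β : ℝ, |β| * N ≤ K' →
      ‖(Real.log N : ℂ) * SP N (a / q + β) - ((ArithmeticFunction.moebius q : ℤ) : ℂ) / q.totient *
        ∑ m ∈ Icc 1 N, ee (m * β)‖ ≤ (1 / (4 * v)) * N := by
    intro q
    by_cases hq : 1 ≤ q
    · obtain ⟨N₀, h⟩ := majP q hq K' (1 / (4 * v)) hK'pos.le (by positivity)
      exact ⟨N₀, fun _ => h⟩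
    · exact ⟨0, fun h => absurd h hq⟩
  have hnuj : ∀ q : ℕ, ∃ N₀ : ℕ, 1 ≤ q → ∀ N : ℕ, N₀ ≤ N → ∀ a : ℤ, IsCoprime a (q : ℤ) →
      ∀ β : ℝ, |β| * N ≤ K' →
      ‖SN v N (a / q + β) - (if q ∣ primorial v then
        ((ArithmeticFunction.moebius q : ℤ) : ℂ) / q.totient else 0) *
        ∑ m ∈ Icc 1 N, ee (m * β)‖ ≤ (1 / (4 * v)) * N := by
    intro q
    by_cases hq : 1 ≤ q
    · obtain ⟨N₀, h⟩ := nuMaj v q hq K' (1 / (4 * v)) hK'pos.le (by positivity)
      exact ⟨N₀, fun _ => h⟩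
    · exact ⟨0, fun h => absurd h hq⟩
  choose N1 h1 using hmaj
  choose N2 h2 using hnuj
  refine ⟨max (max Nm 2) ((range (Q' + 1)).sup fun q => max (N1 q) (N2 q)), fun N hN α => ?_⟩
  have hNm : Nm ≤ N := (le_max_left _ _).trans ((le_max_left _ _).trans hN)
  have hN2 : 2 ≤ N := (le_max_right _ _).trans ((le_max_left _ _).trans hN)
  have hNpos : (0 : ℝ) < N := by exact_mod_cast (by omega : 0 < N)
  have hsup : ((range (Q' + 1)).sup fun q => max (N1 q) (N2 q)) ≤ N := (le_max_right _ _).trans hN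
  by_cases hA : ∃ (q : ℕ) (a : ℤ), 1 ≤ q ∧ q ≤ Q' ∧ IsCoprime a (q : ℤ) ∧ |α - a / q| ≤ K' / N
  · obtain ⟨q, a, hq1, hqQ, hco, hab⟩ := hA
    have hqN : max (N1 q) (N2 q) ≤ N :=
      (Finset.le_sup (f := fun q => max (N1 q) (N2 q)) (mem_range.2 (by omega))).trans hsup
    have hβ : |α - a / q| * N ≤ K' := by
      rw [le_div_iff₀ hNpos] at hab
      exact hab
    have e1 := h1 q hq1 N ((le_max_left _ _).trans hqN) a hco (α - a / q) hβ
    have e2 := h2 q hq1 N ((le_max_right _ _).trans hqN) a hco (α - a / q) hβ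
    rw [show (a : ℝ) / q + (α - a / q) = α by ring] at e1 e2
    set S := ∑ m ∈ Icc 1 N, ee (m * (α - a / q)) with hS
    set M1 : ℂ := ((ArithmeticFunction.moebius q : ℤ) : ℂ) / q.totient with hM1
    set M2 : ℂ := (if q ∣ primorial v then M1 else 0) with hM2
    have e3 : ‖(M1 - M2) * S‖ ≤ 1 / (v : ℝ) * N := by
      rw [norm_mul]
      exact mul_le_mul (Sup.main_bound v q hv hq1) (Sup.norm_sum_ee N _) (norm_nonneg _)
        (by positivity)
    have e4 : gh v N α = ((Real.log N : ℂ) * SP N α - M1 * S) - (SN v N α - M2 * S) +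
        (M1 - M2) * S := by
      unfold gh
      ring
    rw [e4]
    calc _ ≤ ‖((Real.log N : ℂ) * SP N α - M1 * S) - (SN v N α - M2 * S)‖ + ‖(M1 - M2) * S‖ :=
          norm_add_le _ _
      _ ≤ (‖(Real.log N : ℂ) * SP N α - M1 * S‖ + ‖SN v N α - M2 * S‖) + ‖(M1 - M2) * S‖ := by
          gcongr
          exact norm_sub_le _ _
      _ ≤ (1 / (4 * v) * N + 1 / (4 * v) * N) + 1 / (v : ℝ) * N := by
          gcongr
      _ = (3 / 2) / v * N := by
          field_simp
          ring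
      _ ≤ 2 / v * N := by
          gcongr
          norm_num
  · have hA' : ∀ (q : ℕ) (a : ℤ), 1 ≤ q → q ≤ Q' → IsCoprime a (q : ℤ) →
        K' / N < |α - a / q| := by
      intro q a hq1 hqQ hco
      by_contra hle
      exact hA ⟨q, a, hq1, hqQ, hco, not_lt.1 hle⟩
    have e1 : ‖SP N α‖ ≤ (1 / (2 * v)) * (N / Real.log N) := by
      rcases hmin N hNm α with h | ⟨q, a, hq1, hqQ, hco, hle⟩
      · exact h
      · exfalso
        have := hA' q a hq1 (hqQ.trans (le_max_left _ _)) hco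
        have h3 : (K : ℝ) / N ≤ K' / N := by
          gcongr
          exact le_max_left _ _
        linarith
    have e2 : ‖SN v N α‖ ≤ C * (N / K') := by
      refine hnu N (by omega) K' α hK'pos ?_
      intro q hq1 hqW a
      obtain ⟨q', a', hq', hqq', hco', heq⟩ := Sup.reduce q a hq1
      rw [heq]
      exact hA' q' a' hq' (hqq'.trans (hqW.trans (le_max_right _ _))) hco'
    have hlog : 0 < Real.log N := Real.log_pos (by exact_mod_cast (by omega : 1 < N))
    have e3 : ‖(Real.log N : ℂ) * SP N α‖ ≤ (1 / (2 * v)) * N := by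
      rw [norm_mul, Complex.norm_real, Real.norm_eq_abs, abs_of_pos hlog]
      calc Real.log N * ‖SP N α‖ ≤ Real.log N * ((1 / (2 * v)) * (N / Real.log N)) := by
            gcongr
        _ = (1 / (2 * v)) * N := by
            field_simp
    have e4 : C * (N / K') ≤ (1 / (2 * v)) * N := by
      rw [mul_div_assoc', div_le_iff₀ hK'pos]
      have : C ≤ (1 / (2 * v)) * K' := by
        rw [div_mul_eq_mul_div, one_mul, le_div_iff₀ (by positivity)]
        linarith
      calc C * N ≤ ((1 / (2 * v)) * K') * N := by gcongr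
        _ = (1 / (2 * v)) * N * K' := by ring
    unfold gh
    calc _ ≤ ‖(Real.log N : ℂ) * SP N α‖ + ‖SN v N α‖ := norm_sub_le _ _
      _ ≤ (1 / (2 * v)) * N + (1 / (2 * v)) * N := by
          gcongr
          exact e2.trans e4
      _ = 1 / v * N := by
          field_simp
          ring
      _ ≤ 2 / v * N := by
          gcongr
          norm_num

end Pool.Agent.Lib.MP_629a14_nt.Rob
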