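import Pool.Agent.Lib.MP_629a14_nt.Rob.LDefs
import Pool.Agent.Lib.MP_629a14_nt.Rob.Defs

/-! Counting even integers with prescribed residues. -/

set_option autoImplicit false

namespace Pool.Agent.Lib.MP_629a14_nt.Rob

open Finset Pool.Agent.Lib.MP_629a14_nt

private theorem crt_range (v : ℕ) (hv : 2 ≤ v) :
    (range (v + 1)).filter Nat.Prime = insert 2 ((Icc 3 v).filter Nat.Prime) := by
  ext p
  simp only [mem_filter, mem_range, mem_insert, mem_Icc]
  constructor
  · rintro ⟨h1, h2⟩
    rcases Nat.lt_or_ge 2 p with h | h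
    · exact Or.inr ⟨⟨h, by omega⟩, h2⟩
    · left
      have := h2.two_le
      omega
  · rintro (h | ⟨⟨h1, h2⟩, h3⟩)
    · subst h
      exact ⟨by omega, Nat.prime_two⟩
    · exact ⟨by omega, h3⟩

private theorem crt_dvd (v : ℕ) {a b : ℕ} (hab : a ≤ b) (ha : 2 ∣ a) (hb : 2 ∣ b)
    (h : pr v a = pr v b) : primorial v ∣ b - a := by
  unfold primorial
  apply Finset.prod_primes_dvd
  · intro p hp
    exact (mem_filter.1 hp).2.prime
  · intro p hp
    rw [mem_filter, mem_range] at hp
    rcases Nat.lt_or_ge 2 p with h2 | h2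
    · have hmem : p ∈ (Icc 3 v).filter Nat.Prime := by
        rw [mem_filter, mem_Icc]
        exact ⟨⟨h2, by omega⟩, hp.2⟩
      have h3 : ((a : ℕ) : ZMod p) = (b : ZMod p) := congrFun h ⟨p, hmem⟩
      rw [ZMod.natCast_eq_natCast_iff] at h3
      exact (Nat.modEq_iff_dvd' hab).1 h3
    · have : p = 2 := by
        have := hp.2.two_le
        omega
      subst this
      exact Nat.dvd_sub hb ha

/-- Two such numbers differ by a multiple of `primorial v`. -/
theorem crt (v y h : ℕ) (hv : 2 ≤ v) (x : XX v) :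
    (((Ioc y (y + h)).filter (fun n => 2 ∣ n ∧ pr v n = x)).card : ℝ) ≤
      (h : ℝ) / primorial v + 1 := by
  set S := (Ioc y (y + h)).filter (fun n => 2 ∣ n ∧ pr v n = x) with hS
  rcases S.eq_empty_or_nonempty with h0 | h0
  · rw [h0, Finset.card_empty]
    push_cast
    positivity
  have hW : 0 < primorial v := primorial_pos v
  set n0 := S.min' h0 with hn0
  have hmin : n0 ∈ S := S.min'_mem h0
  have hle : ∀ n ∈ S, n0 ≤ n := fun n hn => S.min'_le n hn
  have hm : ∀ n ∈ S, (y < n ∧ n ≤ y + h) ∧ 2 ∣ n ∧ pr v n = x := by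
    intro n hn
    rw [hS, mem_filter, mem_Ioc] at hn
    exact hn
  have hd : ∀ n ∈ S, primorial v ∣ n - n0 := by
    intro n hn
    exact crt_dvd v (hle n hn) (hm n0 hmin).2.1 (hm n hn).2.1
      ((hm n0 hmin).2.2.trans (hm n hn).2.2.symm)
  have hcard : S.card ≤ (range (h / primorial v + 1)).card := by
    apply Finset.card_le_card_of_injOn (fun n => (n - n0) / primorial v)
    · intro n hn
      rw [Finset.mem_coe] at hn
      rw [Finset.mem_coe, mem_range]
      have h1 := (hm n hn).1
      have h2 := (hm n0 hmin).1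
      have : (n - n0) / primorial v ≤ h / primorial v := Nat.div_le_div_right (by omega)
      show (n - n0) / primorial v < _
      omega
    · intro n hn n' hn' heq
      rw [Finset.mem_coe] at hn hn'
      have e1 := Nat.div_mul_cancel (hd n hn)
      have e2 := Nat.div_mul_cancel (hd n' hn')
      have e3 : (n - n0) / primorial v = (n' - n0) / primorial v := heq
      rw [e3, e2] at e1
      have l1 := hle n hn
      have l2 := hle n' hn'
      omega
  rw [card_range] at hcard
  calc (S.card : ℝ) ≤ ((h / primorial v + 1 : ℕ) : ℝ) := by exact_mod_cast hcard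
    _ = ((h / primorial v : ℕ) : ℝ) + 1 := by push_cast; ring
    _ ≤ (h : ℝ) / primorial v + 1 := by
        have := Nat.cast_div_le (α := ℝ) (m := h) (n := primorial v)
        linarith

private theorem crt_card_XX (v : ℕ) :
    Fintype.card (XX v) = ∏ p ∈ (Icc 3 v).filter Nat.Prime, p := by
  rw [Fintype.card_pi]
  rw [← Finset.prod_coe_sort ((Icc 3 v).filter Nat.Prime) (fun p => p)]
  exact Finset.prod_congr rfl fun i _ => ZMod.card (i : ℕ)

theorem primorial_eq (v : ℕ) (hv : 2 ≤ v) :
    (primorial v : ℝ) = 2 * (Fintype.card (XX v) : ℝ) := by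
  have h : primorial v = 2 * Fintype.card (XX v) := by
    rw [crt_card_XX]
    unfold primorial
    rw [crt_range v hv, Finset.prod_insert]
    rw [mem_filter, mem_Icc]
    rintro ⟨⟨h1, _⟩, _⟩
    omega
  rw [h]
  push_cast
  ring

private theorem crt_card_UU (v : ℕ) :
    (UU v).card = ∏ p ∈ (Icc 3 v).filter Nat.Prime, (p - 1) := by
  have h1 : UU v = Fintype.piFinset (fun i : Idx v => (univ : Finset (ZMod (i : ℕ))).erase 0) := by
    ext a
    unfold UU
    rw [mem_filter, Fintype.mem_piFinset]
    constructor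
    · intro h i
      rw [mem_erase]
      exact ⟨h.2 i, mem_univ _⟩
    · intro h
      refine ⟨mem_univ _, fun i => ?_⟩
      exact (mem_erase.1 (h i)).1
  rw [h1, Fintype.card_piFinset,
    ← Finset.prod_coe_sort ((Icc 3 v).filter Nat.Prime) (fun p => p - 1)]
  refine Finset.prod_congr rfl fun i _ => ?_
  rw [card_erase_of_mem (mem_univ _), card_univ, ZMod.card]

theorem totient_primorial (v : ℕ) (hv : 2 ≤ v) :
    ((primorial v).totient : ℝ) = ((UU v).card : ℝ) := by
  have h := Nat.totient_mul_prod_primeFactors (primorial v)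
  rw [primeFactors_primorial] at h
  have h2 : ∏ p ∈ Nat.primesLE v, p = primorial v := (primorial_eq_prod_primesLE v).symm
  rw [h2] at h
  have h3 : (primorial v).totient = ∏ p ∈ Nat.primesLE v, (p - 1) := by
    rw [mul_comm] at h
    exact Nat.eq_of_mul_eq_mul_left (primorial_pos v) h
  have h4 : Nat.primesLE v = insert 2 ((Icc 3 v).filter Nat.Prime) := by
    rw [← crt_range v hv]
    rfl
  have h5 : (primorial v).totient = (UU v).card := by
    rw [h3, h4, crt_card_UU, Finset.prod_insert]
    · simp
    · rw [mem_filter, mem_Icc]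
      rintro ⟨⟨h1, _⟩, _⟩
      omega
  rw [h5]

end Pool.Agent.Lib.MP_629a14_nt.Rob
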