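import Pool.Agent.Lib.MP_629a14_nt.Rob.SDefs
import Pool.Agent.Lib.MP_629a14_nt.Rob.Crt

/-! The convolution of `nu` with itself. -/

set_option autoImplicit false

namespace Pool.Agent.Lib.MP_629a14_nt.Rob

open Finset Pool.Agent.Lib.MP_629a14_nt

private theorem nunu_coprime (v m : ℕ) (hv : 2 ≤ v) : Nat.Coprime m (primorial v) ↔
    ¬ 2 ∣ m ∧ ∀ i : Idx v, pr v m i ≠ 0 := by
  unfold primorial
  rw [Nat.coprime_prod_right_iff]
  constructor
  · intro h
    constructor
    · have h2 := h 2 (by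
        rw [mem_filter, mem_range]
        exact ⟨by omega, Nat.prime_two⟩)
      rw [Nat.coprime_comm, Nat.Prime.coprime_iff_not_dvd Nat.prime_two] at h2
      exact h2
    · intro i hi
      have hi2 := mem_filter.1 i.2
      have hi3 := mem_Icc.1 hi2.1
      have h2 := h i (by
        rw [mem_filter, mem_range]
        exact ⟨by omega, hi2.2⟩)
      rw [Nat.coprime_comm, Nat.Prime.coprime_iff_not_dvd hi2.2] at h2
      exact h2 ((ZMod.natCast_eq_zero_iff m i).1 hi)
  · rintro ⟨h2, h⟩ p hp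
    rw [mem_filter, mem_range] at hp
    rw [Nat.coprime_comm, Nat.Prime.coprime_iff_not_dvd hp.2]
    intro hd
    rcases Nat.lt_or_ge 2 p with h3 | h3
    · exact h ⟨p, by
        rw [mem_filter, mem_Icc]
        exact ⟨⟨h3, by omega⟩, hp.2⟩⟩ ((ZMod.natCast_eq_zero_iff m p).2 hd)
    · have := hp.2.two_le
      have h4 : p = 2 := by omega
      rw [h4] at hd
      exact h2 hd

/-- good residue vectors -/
private noncomputable def nunuG (v n : ℕ) : Finset (XX v) :=
  univ.filter (fun x => ∀ i, x i ≠ 0 ∧ x i ≠ pr v n i)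

private theorem nunu_cardG (v n : ℕ) : ((nunuG v n).card : ℝ) =
    ∏ p ∈ (Icc 3 v).filter Nat.Prime, (if p ∣ n then ((p : ℝ) - 1) else ((p : ℝ) - 2)) := by
  have h1 : nunuG v n = Fintype.piFinset (fun i : Idx v =>
      ((univ : Finset (ZMod (i : ℕ))).erase 0).erase (pr v n i)) := by
    ext x
    unfold nunuG
    rw [mem_filter, Fintype.mem_piFinset]
    constructor
    · rintro ⟨-, h⟩ i
      rw [mem_erase, mem_erase]
      exact ⟨(h i).2, (h i).1, mem_univ _⟩
    · intro h
      refine ⟨mem_univ _, fun i => ?_⟩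
      have h2 := h i
      rw [mem_erase, mem_erase] at h2
      exact ⟨h2.2.1, h2.1⟩
  rw [h1, Fintype.card_piFinset,
    ← Finset.prod_coe_sort ((Icc 3 v).filter Nat.Prime)
      (fun p => (if p ∣ n then ((p : ℝ) - 1) else ((p : ℝ) - 2)))]
  push_cast
  refine Finset.prod_congr rfl fun i _ => ?_
  have hi2 := mem_filter.1 i.2
  have hi3 := mem_Icc.1 hi2.1
  have hc : ((univ : Finset (ZMod (i : ℕ))).erase 0).card = (i : ℕ) - 1 := by
    rw [card_erase_of_mem (mem_univ _), card_univ, ZMod.card]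
  by_cases hd : (i : ℕ) ∣ n
  · have h3 : pr v n i = 0 := (ZMod.natCast_eq_zero_iff n i).2 hd
    rw [if_pos hd, h3, erase_eq_of_notMem (notMem_erase _ _), hc, Nat.cast_sub (by omega)]
    push_cast
    rfl
  · have h3 : pr v n i ≠ 0 := fun h => hd ((ZMod.natCast_eq_zero_iff n i).1 h)
    rw [if_neg hd, card_erase_of_mem (mem_erase.2 ⟨h3, mem_univ _⟩), hc,
      Nat.sub_sub, Nat.cast_sub (by omega)]
    push_cast
    ring

/-- the odd numbers below `n` with a given residue vector -/
private noncomputable def nunuN (v n : ℕ) (x : XX v) : ℕ :=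
  ((Ico 1 n).filter (fun m => ¬ 2 ∣ m ∧ pr v m = x)).card

private theorem nunu_upper (v n : ℕ) (hv : 2 ≤ v) (x : XX v) :
    (nunuN v n x : ℝ) ≤ (n : ℝ) / primorial v + 1 := by
  have hW : (0 : ℝ) < primorial v := by exact_mod_cast primorial_pos v
  have h1 := crt v 1 (n - 1) hv (fun i => x i + 1)
  have h2 : nunuN v n x ≤
      ((Ioc 1 (1 + (n - 1))).filter (fun m => 2 ∣ m ∧ pr v m = fun i => x i + 1)).card := by
    unfold nunuN
    apply Finset.card_le_card_of_injOn (fun m => m + 1)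
    · intro m hm
      rw [Finset.mem_coe, mem_filter, mem_Ico] at hm
      rw [Finset.mem_coe, mem_filter, mem_Ioc]
      obtain ⟨⟨h3, h4⟩, h5, h6⟩ := hm
      refine ⟨⟨?_, ?_⟩, ?_, ?_⟩
      · show 1 < m + 1
        omega
      · show m + 1 ≤ 1 + (n - 1)
        omega
      · show 2 ∣ m + 1
        omega
      · funext i
        rw [← h6]
        unfold pr
        push_cast
        rfl
    · intro a _ b _ hab
      have : a + 1 = b + 1 := hab
      omega
  have h3 : ((n - 1 : ℕ) : ℝ) ≤ n := by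
    exact_mod_cast Nat.sub_le n 1
  calc (nunuN v n x : ℝ) ≤ _ := by exact_mod_cast h2
    _ ≤ ((n - 1 : ℕ) : ℝ) / primorial v + 1 := h1
    _ ≤ (n : ℝ) / primorial v + 1 := by
        have := div_le_div_of_nonneg_right h3 hW.le
        linarith

private theorem nunu_total (v n : ℕ) : (n : ℝ) / 2 - 1 ≤ ∑ x : XX v, (nunuN v n x : ℝ) := by
  have h1 : ∑ x : XX v, nunuN v n x = ((Ico 1 n).filter (fun m => ¬ 2 ∣ m)).card := by
    unfold nunuN
    rw [Finset.card_eq_sum_card_fiberwise (f := pr v) (t := univ) (fun _ _ => mem_univ _)]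
    refine Finset.sum_congr rfl fun x _ => ?_
    rw [Finset.filter_filter]
  have h2 : n / 2 ≤ ((Ico 1 n).filter (fun m => ¬ 2 ∣ m)).card := by
    have h3 : (range (n / 2)).card ≤ ((Ico 1 n).filter (fun m => ¬ 2 ∣ m)).card := by
      apply Finset.card_le_card_of_injOn (fun j => 2 * j + 1)
      · intro j hj
        rw [Finset.mem_coe, mem_range] at hj
        rw [Finset.mem_coe, mem_filter, mem_Ico]
        refine ⟨⟨?_, ?_⟩, ?_⟩
        · show 1 ≤ 2 * j + 1
          omega
        · show 2 * j + 1 < n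
          omega
        · show ¬ 2 ∣ 2 * j + 1
          omega
      · intro a _ b _ hab
        have : 2 * a + 1 = 2 * b + 1 := hab
        omega
    rwa [card_range] at h3
  have h4 : (n : ℝ) / 2 - 1 ≤ ((n / 2 : ℕ) : ℝ) := by
    have h5 : n < 2 * (n / 2) + 2 := by omega
    have h6 : (n : ℝ) < 2 * ((n / 2 : ℕ) : ℝ) + 2 := by exact_mod_cast h5
    linarith
  have h5 : ((n / 2 : ℕ) : ℝ) ≤ ((∑ x : XX v, nunuN v n x : ℕ) : ℝ) := by
    rw [h1]
    exact_mod_cast h2
  refine h4.trans (h5.trans (le_of_eq ?_))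
  push_cast
  rfl

private theorem nunu_count (v n : ℕ) (hv : 2 ≤ v) :
    |∑ x ∈ nunuG v n, (nunuN v n x : ℝ) - (nunuG v n).card * ((n : ℝ) / primorial v)| ≤
      Fintype.card (XX v) + 1 := by
  have hW : (0 : ℝ) < primorial v := by exact_mod_cast primorial_pos v
  have hq : 0 ≤ (n : ℝ) / primorial v := by positivity
  have hGX : ((nunuG v n).card : ℝ) ≤ Fintype.card (XX v) := by
    exact_mod_cast Finset.card_le_univ _
  have hG0 : (0 : ℝ) ≤ (nunuG v n).card := by positivity
  have hup : ∀ S : Finset (XX v), ∑ x ∈ S, (nunuN v n x : ℝ) ≤ S.card * ((n : ℝ) / primorial v + 1) := by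
    intro S
    rw [← nsmul_eq_mul]
    exact Finset.sum_le_card_nsmul _ _ _ (fun x _ => nunu_upper v n hv x)
  have h1 := hup (nunuG v n)
  have h2 := hup (nunuG v n)ᶜ
  have h3 := Finset.sum_add_sum_compl (nunuG v n) (fun x => (nunuN v n x : ℝ))
  have h4 := nunu_total v n
  have h5 : (((nunuG v n)ᶜ.card : ℕ) : ℝ) = Fintype.card (XX v) - (nunuG v n).card := by
    rw [Finset.card_compl, Nat.cast_sub (Finset.card_le_univ _)]
  rw [h5] at h2
  have h6 : (Fintype.card (XX v) : ℝ) * ((n : ℝ) / primorial v) = n / 2 := by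
    have h7 := primorial_eq v hv
    have h8 : (Fintype.card (XX v) : ℝ) = primorial v / 2 := by linarith
    rw [h8]
    field_simp
  rw [abs_le]
  constructor
  · nlinarith
  · nlinarith

/-- Over a period `W` the number of `m` with `m` and `n - m` prime to `W` is
`∏_{p ∣ n} (p-1) ∏_{p ∤ n} (p-2)` over the odd primes `p ≤ v` (Chinese remainder theorem; `m` is odd),
so the mean of `nu v m nu v (n - m)` is `sig v n`; the incomplete period contributes at most
`W (W/φ(W))^2`. -/
theorem nunu (v : ℕ) (hv : 2 ≤ v) : ∃ C : ℝ, 0 < C ∧ ∀ n : ℕ, 2 ∣ n →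
    |∑ m ∈ Ico 1 n, nu v m * nu v (n - m) - n * sig v n| ≤ C := by
  set W : ℝ := (primorial v : ℝ) with hWdef
  have hW : (0 : ℝ) < W := by rw [hWdef]; exact_mod_cast primorial_pos v
  set F : ℝ := ((primorial v).totient : ℝ) with hFdef
  have hF : (0 : ℝ) < F := by
    rw [hFdef]
    exact_mod_cast Nat.totient_pos.2 (primorial_pos v)
  refine ⟨(W / F) ^ 2 * (Fintype.card (XX v) + 1), by positivity, ?_⟩
  intro n hn
  have h1 : ∑ m ∈ Ico 1 n, nu v m * nu v (n - m) =
      (W / F) ^ 2 * ∑ x ∈ nunuG v n, (nunuN v n x : ℝ) := by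
    have h2 : ∀ m ∈ Ico 1 n, nu v m * nu v (n - m) =
        (if ¬ 2 ∣ m ∧ pr v m ∈ nunuG v n then (W / F) ^ 2 else 0) := by
      intro m hm
      rw [mem_Ico] at hm
      have h3 : (Nat.Coprime m (primorial v) ∧ Nat.Coprime (n - m) (primorial v)) ↔
          (¬ 2 ∣ m ∧ pr v m ∈ nunuG v n) := by
        rw [nunu_coprime v m hv, nunu_coprime v (n - m) hv]
        unfold nunuG
        rw [mem_filter]
        have h4 : ∀ i, pr v (n - m) i = pr v n i - pr v m i := by
          intro i
          unfold pr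
          rw [Nat.cast_sub hm.2.le]
        constructor
        · rintro ⟨⟨h5, h6⟩, h7, h8⟩
          refine ⟨h5, mem_univ _, fun i => ⟨h6 i, fun h9 => h8 i ?_⟩⟩
          rw [h4 i, h9, sub_self]
        · rintro ⟨h5, -, h6⟩
          refine ⟨⟨h5, fun i => (h6 i).1⟩, by omega, fun i h9 => (h6 i).2 ?_⟩
          rw [h4 i] at h9
          exact (sub_eq_zero.1 h9).symm
      unfold nu
      by_cases hc : ¬ 2 ∣ m ∧ pr v m ∈ nunuG v n
      · rw [if_pos hc, if_pos (h3.2 hc).1, if_pos (h3.2 hc).2]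
        ring
      · rw [if_neg hc]
        by_cases h5 : Nat.Coprime m (primorial v)
        · rw [if_neg (fun h6 => hc (h3.1 ⟨h5, h6⟩)), mul_zero]
        · rw [if_neg h5, zero_mul]
    rw [Finset.sum_congr rfl h2, ← Finset.sum_filter, Finset.sum_const, nsmul_eq_mul, mul_comm]
    congr 1
    have h5 : ((Ico 1 n).filter (fun m => ¬ 2 ∣ m ∧ pr v m ∈ nunuG v n)).card =
        ∑ x ∈ nunuG v n, nunuN v n x := by
      rw [Finset.card_eq_sum_card_fiberwise (f := pr v) (t := nunuG v n)
        (fun m hm => ((mem_filter.1 (Finset.mem_coe.1 hm)).2).2)]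
      refine Finset.sum_congr rfl fun x hx => ?_
      unfold nunuN
      congr 1
      ext m
      simp only [mem_filter]
      constructor
      · rintro ⟨⟨a, b, c⟩, d⟩
        exact ⟨a, b, d⟩
      · rintro ⟨a, b, d⟩
        exact ⟨⟨a, b, by rw [d]; exact hx⟩, d⟩
    rw [h5]
    push_cast
    rfl
  have h2 : (n : ℝ) * sig v n = (W / F) ^ 2 * ((nunuG v n).card * ((n : ℝ) / W)) := by
    have h3 : ((nunuG v n).card : ℝ) = F *
        ∏ p ∈ (Icc 3 v).filter (fun p => p.Prime ∧ ¬ p ∣ n), (((p : ℝ) - 2) / ((p : ℝ) - 1)) := by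
      have h4 : F = ∏ p ∈ (Icc 3 v).filter Nat.Prime, ((p : ℝ) - 1) := by
        have h5 := nunu_cardG v 0
        have h6 : nunuG v 0 = UU v := by
          unfold nunuG UU
          ext x
          rw [mem_filter, mem_filter]
          have h7 : ∀ i, pr v 0 i = 0 := by
            intro i
            unfold pr
            rw [Nat.cast_zero]
          constructor
          · rintro ⟨a, b⟩
            exact ⟨a, fun i => (b i).1⟩
          · rintro ⟨a, b⟩
            exact ⟨a, fun i => ⟨b i, by rw [h7 i]; exact b i⟩⟩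
        rw [hFdef, totient_primorial v hv, ← h6, h5]
        refine Finset.prod_congr rfl fun p _ => ?_
        rw [if_pos (dvd_zero p)]
      rw [nunu_cardG, h4]
      have h5 : (Icc 3 v).filter (fun p => p.Prime ∧ ¬ p ∣ n) =
          ((Icc 3 v).filter Nat.Prime).filter (fun p => ¬ p ∣ n) := by
        rw [Finset.filter_filter]
      have h6 : ∏ p ∈ ((Icc 3 v).filter Nat.Prime).filter (fun p => ¬ p ∣ n),
          (((p : ℝ) - 2) / ((p : ℝ) - 1)) = ∏ p ∈ (Icc 3 v).filter Nat.Prime,
          (if ¬ p ∣ n then (((p : ℝ) - 2) / ((p : ℝ) - 1)) else 1) := by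
        rw [Finset.prod_filter (fun p => ¬ p ∣ n)]
      rw [h5, h6, ← Finset.prod_mul_distrib]
      refine Finset.prod_congr rfl fun p hp => ?_
      rw [mem_filter, mem_Icc] at hp
      have hp1 : (3 : ℝ) ≤ p := by exact_mod_cast hp.1.1
      have hp2 : (p : ℝ) - 1 ≠ 0 := by linarith
      by_cases hd : p ∣ n
      · rw [if_pos hd, if_neg (not_not.2 hd), mul_one]
      · rw [if_neg hd, if_pos hd]
        field_simp
    rw [h3]
    unfold sig
    rw [← hWdef, ← hFdef]
    field_simp
  rw [h1, h2, ← mul_sub, abs_mul, abs_of_nonneg (by positivity : (0 : ℝ) ≤ (W / F) ^ 2)]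
  exact mul_le_mul_of_nonneg_left (nunu_count v n hv) (by positivity)

end Pool.Agent.Lib.MP_629a14_nt.Rob
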