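import Pool.Agent.Lib.MP_629a14_nt.Rob.ConvL2
import Pool.Agent.Lib.MP_629a14_nt.Rob.PiAP
import Pool.Agent.Lib.MP_629a14_nt.Decomp

/-! Fourth moment of the Fourier transform of `gg`. -/

set_option autoImplicit false

namespace Pool.Agent.Lib.MP_629a14_nt.Rob

open Finset Pool.Agent.Lib.MP_629a14_nt

private theorem card_aux : ∃ N₀ : ℕ, ∀ N : ℕ, N₀ ≤ N →
    (((Icc 1 N).filter Nat.Prime).card : ℝ) ≤ 2 * (N / Real.log N) := by
  obtain ⟨N₀, h⟩ := pi_unif 1 1 le_rfl (by simp) 1 one_pos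
  refine ⟨max N₀ 2, fun N hN => ?_⟩
  have h1 := h N (le_of_max_le_left hN) N le_rfl
  have hN2 : 2 ≤ N := le_of_max_le_right hN
  have hlog : 0 < Real.log N := Real.log_pos (by exact_mod_cast hN2)
  have hset : (Icc 1 N).filter (fun n => n.Prime ∧ n ≡ 1 [MOD 1]) = (Icc 1 N).filter Nat.Prime := by
    refine filter_congr fun n _ => ?_
    simp [Nat.modEq_one]
  rw [hset] at h1
  simp only [Nat.totient_one, Nat.cast_one, div_one, one_mul] at h1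
  have h2 := (abs_le.1 h1).2
  rw [← mul_div_assoc, le_div_iff₀ hlog]
  linarith

private theorem four_add {E : Type*} [SeminormedAddCommGroup E] (a b : E) :
    ‖a + b‖ ^ 4 ≤ 8 * (‖a‖ ^ 4 + ‖b‖ ^ 4) := by
  have h1 : ‖a + b‖ ^ 4 ≤ (‖a‖ + ‖b‖) ^ 4 := pow_le_pow_left₀ (norm_nonneg _) (norm_add_le _ _) 4
  have h2 : (‖a‖ + ‖b‖) ^ 2 ≤ 2 * (‖a‖ ^ 2 + ‖b‖ ^ 2) := by nlinarith [sq_nonneg (‖a‖ - ‖b‖)]
  have h3 : (‖a‖ + ‖b‖) ^ 4 ≤ (2 * (‖a‖ ^ 2 + ‖b‖ ^ 2)) ^ 2 := by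
    have := pow_le_pow_left₀ (by positivity) h2 2
    calc (‖a‖ + ‖b‖) ^ 4 = ((‖a‖ + ‖b‖) ^ 2) ^ 2 := by ring
      _ ≤ _ := this
  nlinarith [sq_nonneg (‖a‖ ^ 2 - ‖b‖ ^ 2)]

private theorem four_sub {E : Type*} [SeminormedAddCommGroup E] (a b : E) :
    ‖a - b‖ ^ 4 ≤ 8 * (‖a‖ ^ 4 + ‖b‖ ^ 4) := by
  have := four_add a (-b)
  rwa [← sub_eq_add_neg, norm_neg] at this

private theorem log_four {N : ℕ} (hN : 1 ≤ N) : Real.log N ^ 4 ≤ 16 * (N : ℝ) ^ 2 := by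
  have hN0 : (0 : ℝ) < N := by exact_mod_cast hN
  have h1 : Real.log (Real.sqrt N) ≤ Real.sqrt N - 1 :=
    Real.log_le_sub_one_of_pos (Real.sqrt_pos.2 hN0)
  rw [Real.log_sqrt hN0.le] at h1
  have h2 : Real.log N ≤ 2 * Real.sqrt N := by linarith
  have h3 : 0 ≤ Real.log N := Real.log_natCast_nonneg N
  have h4 := pow_le_pow_left₀ h3 h2 4
  have h5 : (2 * Real.sqrt N) ^ 4 = 16 * (N : ℝ) ^ 2 := by
    have h6 : Real.sqrt N ^ 2 = N := Real.sq_sqrt hN0.le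
    calc (2 * Real.sqrt N) ^ 4 = 16 * (Real.sqrt N ^ 2) ^ 2 := by ring
      _ = _ := by rw [h6]
  rwa [h5] at h4

private theorem sn_four (v N : ℕ) (hN : 1 ≤ N) :
    ∑ h ∈ range (2 * N + 1), ‖SN v N (fr N h)‖ ^ 4 ≤
      3 * (N : ℝ) ^ 4 * ((primorial v : ℝ) / (primorial v).totient) ^ 4 := by
  set κ := (primorial v : ℝ) / (primorial v).totient with hκ
  have hκ0 : 0 ≤ κ := by positivity
  have hN1 : (1 : ℝ) ≤ N := by exact_mod_cast hN
  have h1 : ∀ h, ‖SN v N (fr N h)‖ ≤ N * κ := by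
    intro h
    unfold SN
    refine (norm_sum_le _ _).trans ?_
    have : ∀ m ∈ Icc 1 N, ‖(nu v m : ℂ) * ee (m * fr N h)‖ ≤ κ := by
      intro m _
      rw [norm_mul, norm_ee, mul_one, Complex.norm_real, Real.norm_eq_abs,
        abs_of_nonneg (nu_nonneg v m)]
      exact nu_le v m
    refine (sum_le_sum this).trans ?_
    rw [sum_const, Nat.card_Icc, nsmul_eq_mul]
    simp
  have h2 := parsevalN N (nu v)
  have h3 : ∑ m ∈ Icc 1 N, nu v m ^ 2 ≤ N * κ ^ 2 := by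
    have : ∀ m ∈ Icc 1 N, nu v m ^ 2 ≤ κ ^ 2 := fun m _ =>
      pow_le_pow_left₀ (nu_nonneg v m) (nu_le v m) 2
    refine (sum_le_sum this).trans ?_
    rw [sum_const, Nat.card_Icc, nsmul_eq_mul]
    simp
  calc ∑ h ∈ range (2 * N + 1), ‖SN v N (fr N h)‖ ^ 4
      ≤ ∑ h ∈ range (2 * N + 1), (N * κ) ^ 2 * ‖SN v N (fr N h)‖ ^ 2 := by
        refine sum_le_sum fun h _ => ?_
        have := pow_le_pow_left₀ (norm_nonneg _) (h1 h) 2
        have h4 := mul_le_mul_of_nonneg_right this (sq_nonneg ‖SN v N (fr N h)‖)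
        calc _ = ‖SN v N (fr N h)‖ ^ 2 * ‖SN v N (fr N h)‖ ^ 2 := by ring
          _ ≤ _ := h4
    _ = (N * κ) ^ 2 * ((2 * (N : ℝ) + 1) * ∑ m ∈ Icc 1 N, nu v m ^ 2) := by
        rw [← mul_sum, ← h2]
        rfl
    _ ≤ (N * κ) ^ 2 * ((3 * (N : ℝ)) * (N * κ ^ 2)) := by
        refine mul_le_mul_of_nonneg_left ?_ (by positivity)
        refine mul_le_mul (by linarith) h3 (sum_nonneg fun _ _ => sq_nonneg _) (by positivity)
    _ = 3 * (N : ℝ) ^ 4 * κ ^ 4 := by ring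

private theorem sp_four : ∃ N₀ : ℕ, ∀ N : ℕ, N₀ ≤ N →
    ∑ h ∈ range (2 * N + 1), ‖(Real.log N : ℂ) * SP N (fr N h)‖ ^ 4 ≤
      8 * (48 + 17 * 88 ^ 7) * (N : ℝ) ^ 4 := by
  classical
  obtain ⟨N₀, hcard⟩ := card_aux
  refine ⟨max N₀ 3, fun N hN => ?_⟩
  have hN3 : 3 ≤ N := le_of_max_le_right hN
  have hN0 : (0 : ℝ) < N := by
    have : 0 < N := by omega
    exact_mod_cast this
  have hN1 : (1 : ℝ) ≤ N := by
    have : 1 ≤ N := by omega
    exact_mod_cast this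
  have hc := hcard N (le_of_max_le_left hN)
  have hlog : 0 ≤ Real.log N := Real.log_natCast_nonneg N
  obtain ⟨Q, hQ⟩ : ∃ Q : ℕ, Q = ⌊(N : ℝ) ^ (1 / 4 : ℝ)⌋₊ := ⟨_, rfl⟩
  have hQ4 : (Q : ℝ) ^ 4 ≤ N := by
    have h1 : (Q : ℝ) ≤ (N : ℝ) ^ (1 / 4 : ℝ) := by
      rw [hQ]
      exact Nat.floor_le (by positivity)
    have h2 := pow_le_pow_left₀ (by positivity) h1 4
    have h3 : ((N : ℝ) ^ (1 / 4 : ℝ)) ^ 4 = N := by
      rw [← Real.rpow_natCast, ← Real.rpow_mul hN0.le]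
      norm_num
    rwa [h3] at h2
  set A := ((Icc 1 N).filter Nat.Prime).filter (fun p => Q < p) with hA
  set B := ((Icc 1 N).filter Nat.Prime).filter (fun p => ¬ Q < p) with hB
  have hAc : (A.card : ℝ) ≤ 2 * (N / Real.log N) := by
    refine le_trans ?_ hc
    exact_mod_cast card_filter_le _ _
  have hAp : ∀ p ∈ A, p.Prime ∧ Q < p ∧ p ≤ N := by
    intro p hp
    rw [hA, mem_filter, mem_filter, mem_Icc] at hp
    exact ⟨hp.1.2, hp.2, hp.1.1.2⟩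
  have h4 := fourth_total (range (2 * N + 1)) (TT N A) (k0 := 88) (by norm_num)
    (fun h _ => TT_nonneg N A h) (fun R hR => TT_hyp hN3 hQ A hAp hAc R hR)
  have hBc : (B.card : ℝ) ≤ Q := by
    have h5 : B ⊆ Icc 1 Q := by
      intro p hp
      rw [hB, mem_filter, mem_filter, mem_Icc] at hp
      rw [mem_Icc]
      exact ⟨hp.1.1.1, by omega⟩
    have h6 := card_le_card h5
    rw [Nat.card_Icc] at h6
    have : B.card ≤ Q := by omega
    exact_mod_cast this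
  have hsplit : ∀ h, (Real.log N : ℂ) * SP N (fr N h) =
      (Real.log N : ℂ) * (∑ p ∈ B, ee (p * fr N h)) + (Real.log N : ℂ) * fs N A h := by
    intro h
    have h5 : SP N (fr N h) = ∑ p ∈ A, ee (p * fr N h) + ∑ p ∈ B, ee (p * fr N h) := by
      unfold SP
      rw [hA, hB, sum_filter_add_sum_filter_not]
    have h6 : fs N A h = ∑ p ∈ A, ee (p * fr N h) := rfl
    rw [h5, h6]
    ring
  have hA4 : ∀ h, ‖(Real.log N : ℂ) * fs N A h‖ ^ 4 = (N : ℝ) ^ 4 * TT N A h ^ 4 := by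
    intro h
    unfold TT
    rw [norm_mul, Complex.norm_real, Real.norm_eq_abs, abs_of_nonneg hlog]
    field_simp
  have hB4 : ∀ h, ‖(Real.log N : ℂ) * (∑ p ∈ B, ee (p * fr N h))‖ ^ 4 ≤ 16 * (N : ℝ) ^ 3 := by
    intro h
    have h5 : ‖∑ p ∈ B, ee (p * fr N h)‖ ≤ Q := by
      refine (norm_sum_le _ _).trans ?_
      simp only [norm_ee, sum_const, nsmul_eq_mul, mul_one]
      exact hBc
    rw [norm_mul, Complex.norm_real, Real.norm_eq_abs, abs_of_nonneg hlog, mul_pow]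
    have h6 := pow_le_pow_left₀ (norm_nonneg _) h5 4
    calc Real.log N ^ 4 * ‖∑ p ∈ B, ee (p * fr N h)‖ ^ 4
        ≤ (16 * (N : ℝ) ^ 2) * N := mul_le_mul (log_four (by omega)) (h6.trans hQ4)
          (by positivity) (by positivity)
      _ = 16 * (N : ℝ) ^ 3 := by ring
  calc ∑ h ∈ range (2 * N + 1), ‖(Real.log N : ℂ) * SP N (fr N h)‖ ^ 4
      ≤ ∑ h ∈ range (2 * N + 1), 8 * (16 * (N : ℝ) ^ 3 + (N : ℝ) ^ 4 * TT N A h ^ 4) := by
        refine sum_le_sum fun h _ => ?_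
        rw [hsplit]
        refine (four_add _ _).trans ?_
        refine mul_le_mul_of_nonneg_left ?_ (by norm_num)
        exact add_le_add (hB4 h) (hA4 h).le
    _ = 8 * ((2 * (N : ℝ) + 1) * (16 * (N : ℝ) ^ 3) +
          (N : ℝ) ^ 4 * ∑ h ∈ range (2 * N + 1), TT N A h ^ 4) := by
        rw [← mul_sum, sum_add_distrib, sum_const, card_range, nsmul_eq_mul, ← mul_sum]
        push_cast
        ring
    _ ≤ 8 * ((3 * (N : ℝ)) * (16 * (N : ℝ) ^ 3) + (N : ℝ) ^ 4 * (17 * 88 ^ 7)) := by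
        refine mul_le_mul_of_nonneg_left ?_ (by norm_num)
        refine add_le_add ?_ (mul_le_mul_of_nonneg_left h4 (by positivity))
        exact mul_le_mul_of_nonneg_right (by linarith) (by positivity)
    _ = 8 * (48 + 17 * 88 ^ 7) * (N : ℝ) ^ 4 := by ring

/-- The primes in `(N^(1/4), N]`: `TT_hyp` and `fourth_total` (`Decomp.lean`, `LevelSum.lean`; the
number of primes up to `N` is at most `2 N / log N` by `pi_unif` with `q = 1`). The primes up to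
`N^(1/4)`: trivially `(N^(1/4) log N)^4` for each of the `2N + 1` frequencies. `nu`:
`‖SN‖ ≤ N W/φ(W)` and `parsevalN`. -/
theorem ghat4 : ∃ C : ℝ, 0 < C ∧ ∃ N₀ : ℕ, ∀ N : ℕ, N₀ ≤ N → ∀ v : ℕ,
    ∑ h ∈ range (2 * N + 1), ‖gh v N (fr N h)‖ ^ 4 ≤
      C * (N : ℝ) ^ 4 * ((primorial v : ℝ) / (primorial v).totient) ^ 4 := by
  obtain ⟨N₀, hsp⟩ := sp_four
  refine ⟨8 * (8 * (48 + 17 * 88 ^ 7) + 3), by norm_num, max N₀ 1, fun N hN v => ?_⟩
  have h1 := hsp N (le_of_max_le_left hN)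
  have hN1 : 1 ≤ N := le_of_max_le_right hN
  have h2 := sn_four v N hN1
  set κ := (primorial v : ℝ) / (primorial v).totient with hκ
  have hκ1 : 1 ≤ κ := by
    have hp : 0 < primorial v := primorial_pos v
    have ht : 0 < (primorial v).totient := Nat.totient_pos.2 hp
    rw [hκ, one_le_div (by exact_mod_cast ht)]
    exact_mod_cast Nat.totient_le _
  have hκ4 : 1 ≤ κ ^ 4 := one_le_pow₀ hκ1
  calc ∑ h ∈ range (2 * N + 1), ‖gh v N (fr N h)‖ ^ 4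
      ≤ ∑ h ∈ range (2 * N + 1), 8 * (‖(Real.log N : ℂ) * SP N (fr N h)‖ ^ 4 +
          ‖SN v N (fr N h)‖ ^ 4) := by
        refine sum_le_sum fun h _ => ?_
        unfold gh
        exact four_sub _ _
    _ = 8 * (∑ h ∈ range (2 * N + 1), ‖(Real.log N : ℂ) * SP N (fr N h)‖ ^ 4 +
          ∑ h ∈ range (2 * N + 1), ‖SN v N (fr N h)‖ ^ 4) := by
        rw [← mul_sum, sum_add_distrib]
    _ ≤ 8 * (8 * (48 + 17 * 88 ^ 7) * (N : ℝ) ^ 4 * κ ^ 4 + 3 * (N : ℝ) ^ 4 * κ ^ 4) := by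
        refine mul_le_mul_of_nonneg_left (add_le_add ?_ h2) (by norm_num)
        refine h1.trans (le_mul_of_one_le_right (by positivity) hκ4)
    _ = 8 * (8 * (48 + 17 * 88 ^ 7) + 3) * (N : ℝ) ^ 4 * κ ^ 4 := by ring

/-- Chebyshev's bound in the form needed for `TT_hyp`. -/
theorem card_primes_le : ∃ N₀ : ℕ, ∀ N : ℕ, N₀ ≤ N →
    (((Icc 1 N).filter Nat.Prime).card : ℝ) ≤ 2 * (N / Real.log N) := card_aux

end Pool.Agent.Lib.MP_629a14_nt.Rob
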