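import Pool.Agent.Lib.MP_629a14_nt.Rob.BBil

/-! The same near a rational: splitting into residue classes. -/

set_option autoImplicit false

namespace Pool.Agent.Lib.MP_629a14_nt.Rob

open Finset Pool.Agent.Lib.MP_629a14_nt

private lemma bbilq_point (q : ℕ) (hq : 1 ≤ q) (a : ℤ) (β : ℝ) (p m : ℕ) :
    ee ((p : ℝ) * m * (a / q + β)) =
      ee ((a : ℝ) * (p % q : ℕ) * (m % q : ℕ) / q) * ee ((p : ℝ) * m * β) := by
  have hq0 : (q : ℝ) ≠ 0 := by exact_mod_cast (by omega : q ≠ 0)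
  have h1 : (p : ℝ) = q * (p / q : ℕ) + (p % q : ℕ) := by exact_mod_cast (Nat.div_add_mod p q).symm
  have h2 : (m : ℝ) = q * (m / q : ℕ) + (m % q : ℕ) := by exact_mod_cast (Nat.div_add_mod m q).symm
  set u : ℕ := p / q
  set v : ℕ := m / q
  set x : ℕ := p % q
  set y : ℕ := m % q
  have h3 : (p : ℝ) * m * (a / q + β) = (a : ℝ) * x * y / q + (p : ℝ) * m * β +
      ((a * (q * u * v + u * y + x * v) : ℤ) : ℝ) := by
    have h4 : (p : ℝ) * m * (a / q + β) = (p : ℝ) * m * a / q + (p : ℝ) * m * β := by ring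
    rw [h4]
    have h5 : (p : ℝ) * m * a / q = (a : ℝ) * x * y / q +
        ((a * (q * u * v + u * y + x * v) : ℤ) : ℝ) := by
      rw [h1, h2]
      push_cast
      field_simp
      ring
    rw [h5]
    ring
  rw [h3, ee_add, ee_add, ee_int, mul_one]

private lemma bbilq_expand (N z q : ℕ) (hq : 1 ≤ q) (a : ℤ) (β : ℝ) (f g : ℕ → ℂ) :
    GS N z f g (a / q + β) = ∑ b ∈ range q, ∑ b' ∈ range q, ee ((a : ℝ) * b * b' / q) *
      GS N z (fun p => if p % q = b then f p else 0) (fun m => if m % q = b' then g m else 0) β := by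
  have hS : ∀ p m : ℕ, f p * g m * ee ((p : ℝ) * m * (a / q + β)) =
      ∑ b ∈ range q, ∑ b' ∈ range q, ee ((a : ℝ) * b * b' / q) *
        ((if p % q = b then f p else 0) * (if m % q = b' then g m else 0) *
          ee ((p : ℝ) * m * β)) := by
    intro p m
    rw [sum_eq_single (p % q), sum_eq_single (m % q)]
    · rw [if_pos rfl, if_pos rfl, bbilq_point q hq a β p m]
      ring
    · intro b' _ hb'
      rw [if_neg (Ne.symm hb')]
      ring
    · intro h
      exact absurd (mem_range.2 (Nat.mod_lt m (by omega))) h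
    · intro b _ hb
      apply sum_eq_zero
      intro b' _
      rw [if_neg (Ne.symm hb)]
      ring
    · intro h
      exact absurd (mem_range.2 (Nat.mod_lt p (by omega))) h
  unfold GS
  simp only [hS, mul_sum]
  calc ∑ p ∈ (Icc z N).filter Nat.Prime, ∑ m ∈ Icc 1 (N / p), ∑ b ∈ range q, ∑ b' ∈ range q,
        ee ((a : ℝ) * b * b' / q) * ((if p % q = b then f p else 0) *
          (if m % q = b' then g m else 0) * ee ((p : ℝ) * m * β))
      = ∑ p ∈ (Icc z N).filter Nat.Prime, ∑ b ∈ range q, ∑ b' ∈ range q, ∑ m ∈ Icc 1 (N / p),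
        ee ((a : ℝ) * b * b' / q) * ((if p % q = b then f p else 0) *
          (if m % q = b' then g m else 0) * ee ((p : ℝ) * m * β)) := by
        refine sum_congr rfl fun p _ => ?_
        rw [sum_comm]
        refine sum_congr rfl fun b _ => ?_
        rw [sum_comm]
    _ = _ := by
        rw [sum_comm]
        refine sum_congr rfl fun b _ => ?_
        rw [sum_comm]

/-- `e(p m a / q) = ∑_{b, b' < q} 1_{p ≡ b} 1_{m ≡ b'} e(a b b' / q)`, then `bbil` for each pair. -/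
theorem bbilq (κ : ℝ) (hκ : 0 < κ) (hκ1 : κ ≤ 1) (B : ℕ) : ∃ C : ℝ, 0 < C ∧ ∃ N₀ : ℕ,
    ∀ N : ℕ, N₀ ≤ N → ∀ q : ℕ, ∀ a : ℤ, 1 ≤ q → ∀ β : ℝ, 1 ≤ |β| * N →
      |β| * N ≤ Real.log N ^ B → ∀ f g : ℕ → ℂ, (∀ p, ‖f p‖ ≤ 1) → Adm ⌊(N : ℝ) ^ κ⌋₊ g →
        ‖GS N ⌊(N : ℝ) ^ κ⌋₊ f g (a / q + β)‖ ≤
          C * q ^ 2 * ((N / Real.log N) * Real.sqrt ((1 + Real.log (|β| * N)) / (|β| * N)) +
            N / Real.log N ^ 2) := by
  obtain ⟨C, hC, N₀, h⟩ := bbil κ hκ hκ1 B
  refine ⟨C, hC, N₀, ?_⟩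
  intro N hN q a hq β hβ1 hβ2 f g hf hg
  rw [bbilq_expand N _ q hq a β f g]
  have hterm : ∀ b b' : ℕ, ‖ee ((a : ℝ) * b * b' / q) *
      GS N ⌊(N : ℝ) ^ κ⌋₊ (fun p => if p % q = b then f p else 0)
        (fun m => if m % q = b' then g m else 0) β‖ ≤
      C * ((N / Real.log N) * Real.sqrt ((1 + Real.log (|β| * N)) / (|β| * N)) +
            N / Real.log N ^ 2) := by
    intro b b'
    rw [norm_mul, norm_ee, one_mul]
    refine h N hN β hβ1 hβ2 _ _ ?_ ?_
    · intro p
      show ‖(if p % q = b then f p else 0)‖ ≤ 1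
      split_ifs
      · exact hf p
      · simp
    · intro m
      show ‖(if m % q = b' then g m else 0)‖ ≤ 1 ∧ ((if m % q = b' then g m else 0) ≠ 0 → _)
      split_ifs
      · exact hg m
      · simp
  calc ‖∑ b ∈ range q, ∑ b' ∈ range q, ee ((a : ℝ) * b * b' / q) *
        GS N ⌊(N : ℝ) ^ κ⌋₊ (fun p => if p % q = b then f p else 0)
          (fun m => if m % q = b' then g m else 0) β‖
      ≤ ∑ b ∈ range q, ∑ b' ∈ range q,
        C * ((N / Real.log N) * Real.sqrt ((1 + Real.log (|β| * N)) / (|β| * N)) +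
            N / Real.log N ^ 2) :=
        (norm_sum_le _ _).trans (sum_le_sum fun b _ =>
          (norm_sum_le _ _).trans (sum_le_sum fun b' _ => hterm b b'))
    _ = _ := by
        simp only [sum_const, card_range, nsmul_eq_mul]
        ring

end Pool.Agent.Lib.MP_629a14_nt.Rob
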