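import Pool.Agent.Lib.MP_629a14_nt.Rob.Geo

/-! Auxiliary lemmas for the type I sums: residues, blocks of length `q`. -/

set_option autoImplicit false

namespace Pool.Agent.Lib.MP_629a14_nt.Rob.TypeIAux

open Finset Pool.Agent.Lib.MP_629a14_nt Pool.Agent.Lib.MP_629a14_nt.Rob

theorem harm (q : ℕ) : ∑ r ∈ range q, 1 / ((r : ℝ) + 1) ≤ 1 + Real.log q := by
  have h := harmonic_le_one_add_log q
  rw [harmonic] at h
  push_cast at h
  simpa [one_div] using h

theorem nn_frac (q r : ℕ) (hq : 1 ≤ q) (t : ℝ) (h1 : t ≤ r) (h2 : t ≤ (q : ℝ) - r) :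
    t / q ≤ nn ((r : ℝ) / q) := by
  have hq0 : (0 : ℝ) < q := by exact_mod_cast hq
  unfold nn
  obtain ⟨k, hk⟩ : ∃ k : ℤ, k = round ((r : ℝ) / q) := ⟨_, rfl⟩
  rw [← hk]
  rcases le_or_gt k 0 with h | h
  · have hk' : (k : ℝ) ≤ 0 := by exact_mod_cast h
    have h3 : t / q ≤ (r : ℝ) / q := by gcongr
    calc t / q ≤ (r : ℝ) / q - k := by linarith
      _ ≤ _ := le_abs_self _
  · have hk' : (1 : ℝ) ≤ k := by exact_mod_cast h
    have h3 : t / q ≤ ((q : ℝ) - r) / q := by gcongr
    have h4 : ((q : ℝ) - r) / q = 1 - (r : ℝ) / q := by field_simp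
    calc t / q ≤ -((r : ℝ) / q - k) := by linarith
      _ ≤ _ := neg_le_abs _

theorem nn_lower (x e : ℝ) : nn x - |e| ≤ nn (x + e) := by
  have h1 := nn_add_le (x + e) (-e)
  have h2 : x + e + -e = x := by ring
  rw [h2, nn_neg] at h1
  have h3 := nn_le e 0
  simp only [Int.cast_zero, sub_zero] at h3
  linarith

/-- the residue of `b + j a` modulo `q` -/
def rr (q : ℕ) (a b : ℤ) (j : ℕ) : ℕ := ((b + j * a) % (q : ℤ)).toNat

theorem rr_cast (q : ℕ) (hq : 1 ≤ q) (a b : ℤ) (j : ℕ) :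
    ((rr q a b j : ℕ) : ℤ) = (b + j * a) % (q : ℤ) :=
  Int.toNat_of_nonneg (Int.emod_nonneg _ (by exact_mod_cast (by omega : q ≠ 0)))

theorem rr_lt (q : ℕ) (hq : 1 ≤ q) (a b : ℤ) (j : ℕ) : rr q a b j < q := by
  have h1 := rr_cast q hq a b j
  have h2 : (b + j * a) % (q : ℤ) < q := Int.emod_lt_of_pos _ (by exact_mod_cast hq)
  omega

theorem rr_spec (q : ℕ) (hq : 1 ≤ q) (a b : ℤ) (j : ℕ) :
    ∃ k : ℤ, ((b : ℝ) + j * a) / q = (rr q a b j : ℝ) / q + k := by
  have hq0 : (q : ℝ) ≠ 0 := by exact_mod_cast (by omega : q ≠ 0)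
  refine ⟨(b + j * a) / (q : ℤ), ?_⟩
  have h1 := rr_cast q hq a b j
  have h2 := Int.emod_add_mul_ediv (b + j * a) (q : ℤ)
  rw [← h1] at h2
  have h3 : ((rr q a b j : ℕ) : ℝ) + q * (((b + j * a) / (q : ℤ) : ℤ) : ℝ) = b + j * a := by
    exact_mod_cast h2
  rw [← h3]
  field_simp

theorem rr_inj (q : ℕ) (hq : 1 ≤ q) (a b : ℤ) (hc : IsCoprime a (q : ℤ)) {i j : ℕ} (hi : i < q)
    (hj : j < q) (h : rr q a b i = rr q a b j) : i = j := by
  have h1 := rr_cast q hq a b i
  have h2 := rr_cast q hq a b j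
  rw [h, h2] at h1
  have h3 : (q : ℤ) ∣ (b + i * a) - (b + j * a) := Int.ModEq.dvd h1
  have h4 : (b + i * a) - (b + j * a) = ((i : ℤ) - j) * a := by ring
  rw [h4] at h3
  have h5 : (q : ℤ) ∣ (i : ℤ) - j := hc.symm.dvd_of_dvd_mul_right h3
  obtain ⟨k, hk⟩ := h5
  have hk0 : k = 0 := by
    by_contra hne
    rcases lt_or_gt_of_ne hne with h | h
    · nlinarith
    · nlinarith
  rw [hk0, mul_zero] at hk
  omega

/-- sums over residues -/
theorem res_sum (q : ℕ) (hq : 1 ≤ q) (a b : ℤ) (hc : IsCoprime a (q : ℤ)) (S : Finset ℕ)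
    (hS : ∀ j ∈ S, j < q) (f H : ℕ → ℝ) (hH : ∀ r, 0 ≤ H r)
    (hf : ∀ j ∈ S, f j ≤ H (rr q a b j) + H (q - 1 - rr q a b j)) :
    ∑ j ∈ S, f j ≤ 2 * ∑ r ∈ range q, H r := by
  classical
  calc ∑ j ∈ S, f j ≤ ∑ j ∈ S, (H (rr q a b j) + H (q - 1 - rr q a b j)) := sum_le_sum hf
    _ = ∑ r ∈ S.image (rr q a b), (H r + H (q - 1 - r)) := by
        rw [sum_image]
        intro i hi j hj h
        exact rr_inj q hq a b hc (hS i hi) (hS j hj) h
    _ ≤ ∑ r ∈ range q, (H r + H (q - 1 - r)) := by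
        apply sum_le_sum_of_subset_of_nonneg
        · intro r hr
          rw [mem_image] at hr
          obtain ⟨j, -, rfl⟩ := hr
          rw [mem_range]
          exact rr_lt q hq a b j
        · intro r _ _
          exact add_nonneg (hH _) (hH _)
    _ = 2 * ∑ r ∈ range q, H r := by
        rw [sum_add_distrib, sum_range_reflect (fun r => H r) q]
        ring

theorem nn_point (q : ℕ) (hq : 1 ≤ q) (a b : ℤ) (x e : ℝ) (j : ℕ)
    (hx : x = ((b : ℝ) + j * a) / q + e) (t : ℝ) (h1 : t ≤ rr q a b j)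
    (h2 : t ≤ (q : ℝ) - rr q a b j) : t / q - |e| ≤ nn x := by
  obtain ⟨k, hk⟩ := rr_spec q hq a b j
  have h3 : nn (((b : ℝ) + j * a) / q) = nn ((rr q a b j : ℝ) / q) := by
    rw [hk, nn_add_int]
  have h4 := nn_frac q (rr q a b j) hq t h1 h2
  have h5 := nn_lower (((b : ℝ) + j * a) / q) e
  rw [← hx] at h5
  linarith

/-- a block of length `q` -/
theorem block (q : ℕ) (a : ℤ) (α : ℝ) (hq : 1 ≤ q) (hc : IsCoprime a (q : ℤ))
    (hα : |α - a / q| ≤ 1 / (q : ℝ) ^ 2) (Y : ℝ) (hY : 0 ≤ Y) (x0 : ℝ) :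
    ∑ j ∈ range q, gK Y (x0 + j * α) ≤ 12 * Y + 16 * (q * (1 + Real.log q)) := by
  have hq0 : (0 : ℝ) < q := by exact_mod_cast hq
  obtain ⟨b, hb⟩ : ∃ b : ℤ, b = ⌊q * x0⌋ := ⟨_, rfl⟩
  have hb1 : (b : ℝ) ≤ q * x0 := by rw [hb]; exact Int.floor_le _
  have hb2 : q * x0 < b + 1 := by rw [hb]; exact Int.lt_floor_add_one _
  have key := res_sum q hq a b hc (range q) (fun j hj => mem_range.mp hj)
    (fun j => gK Y (x0 + j * α))
    (fun r => (if r ≤ 2 then 2 * Y else 0) + 8 * q / ((r : ℝ) + 1))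
    (fun r => by
      split_ifs
      · positivity
      · positivity) ?_
  · refine key.trans ?_
    have h1 : ∑ r ∈ range q, (if r ≤ 2 then 2 * Y else 0) ≤ 3 * (2 * Y) := by
      rw [← sum_filter, sum_const, nsmul_eq_mul]
      apply mul_le_mul_of_nonneg_right _ (by positivity)
      have : ((range q).filter (fun r => r ≤ 2)).card ≤ (range 3).card := by
        apply card_le_card
        intro r hr
        rw [mem_filter] at hr
        rw [mem_range]
        omega
      rw [card_range] at this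
      exact_mod_cast this
    have h2 : ∑ r ∈ range q, 8 * (q : ℝ) / ((r : ℝ) + 1) ≤ 8 * q * (1 + Real.log q) := by
      have : ∀ r ∈ range q, 8 * (q : ℝ) / ((r : ℝ) + 1) = 8 * q * (1 / ((r : ℝ) + 1)) := by
        intro r _; ring
      rw [sum_congr rfl this, ← mul_sum]
      exact mul_le_mul_of_nonneg_left (harm q) (by positivity)
    rw [sum_add_distrib]
    linarith
  · intro j hj
    have hjq : j < q := mem_range.mp hj
    have hrq := rr_lt q hq a b j
    obtain ⟨r, hr⟩ : ∃ r, r = rr q a b j := ⟨_, rfl⟩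
    obtain ⟨e, he⟩ : ∃ e : ℝ, e = (q * x0 - b) / q + j * (α - a / q) := ⟨_, rfl⟩
    have hx : x0 + j * α = ((b : ℝ) + j * a) / q + e := by
      rw [he]; field_simp; ring
    have hee : |e| ≤ 2 / q := by
      have h1 : |(q * x0 - b) / q| ≤ 1 / q := by
        rw [abs_div, abs_of_pos hq0, div_le_div_iff_of_pos_right hq0, abs_le]
        exact ⟨by linarith, by linarith⟩
      have h2 : |j * (α - a / q)| ≤ 1 / q := by
        rw [abs_mul, Nat.abs_cast]
        have hj2 : (j : ℝ) ≤ q := by exact_mod_cast hjq.le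
        calc (j : ℝ) * |α - a / q| ≤ q * (1 / (q : ℝ) ^ 2) := by gcongr
          _ = 1 / q := by field_simp
      rw [he]
      calc _ ≤ |(q * x0 - b) / q| + |j * (α - a / q)| := abs_add_le _ _
        _ ≤ 1 / q + 1 / q := add_le_add h1 h2
        _ = 2 / q := by ring
    show gK Y (x0 + j * α) ≤ _
    simp only [← hr]
    rw [← hr] at hrq
    have hG2 : 0 ≤ 8 * (q : ℝ) / ((r : ℝ) + 1) := by positivity
    have hG3 : 0 ≤ 8 * (q : ℝ) / (((q - 1 - r : ℕ) : ℝ) + 1) := by positivity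
    by_cases h1 : r ≤ 2
    · rw [if_pos h1]
      have h2 := gK_le hY (x0 + j * α)
      have h3 : 0 ≤ (if q - 1 - r ≤ 2 then 2 * Y else 0) := by
        split_ifs <;> positivity
      linarith
    by_cases h2 : q - 1 - r ≤ 2
    · rw [if_pos h2]
      have h2 := gK_le hY (x0 + j * α)
      have h3 : 0 ≤ (if r ≤ 2 then 2 * Y else 0) := by
        split_ifs <;> positivity
      linarith
    · rw [if_neg h1, if_neg h2, zero_add, zero_add]
      push Not at h1 h2
      have hcast : (((q - 1 - r : ℕ) : ℝ)) = (q : ℝ) - 1 - r := by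
        rw [Nat.cast_sub (by omega), Nat.cast_sub (by omega)]; simp
      have hr3 : (3 : ℝ) ≤ r := by exact_mod_cast h1
      have hr4 : (3 : ℝ) ≤ (q : ℝ) - 1 - r := by
        rw [← hcast]; exact_mod_cast h2
      -- main estimate with a parameter
      have main : ∀ t : ℝ, t ≤ r → t ≤ (q : ℝ) - r → 3 ≤ t →
          gK Y (x0 + j * α) ≤ 8 * q / (t + 1) := by
        intro t ht1 ht2 ht3
        have h5 := nn_point q hq a b (x0 + j * α) e j hx t (by rw [← hr]; exact ht1)
          (by rw [← hr]; exact ht2)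
        have h6 : (t - 2) / q ≤ nn (x0 + j * α) := by
          have : (t - 2) / q = t / q - 2 / q := by ring
          linarith
        have h7 : 0 < (t - 2) / q := by
          apply div_pos _ hq0
          linarith
        calc gK Y (x0 + j * α) ≤ 2 / nn (x0 + j * α) := gK_le_inv hY (lt_of_lt_of_le h7 h6)
          _ ≤ 2 / ((t - 2) / q) := by
              apply div_le_div_of_nonneg_left (by norm_num) h7 h6
          _ = 2 * q / (t - 2) := by
              field_simp
          _ ≤ 8 * q / (t + 1) := by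
              rw [div_le_div_iff₀ (by linarith) (by linarith)]
              nlinarith
      rcases le_total (r : ℝ) ((q : ℝ) - r) with h | h
      · have := main r le_rfl h hr3
        linarith
      · have h8 := main ((q : ℝ) - r) h le_rfl (by linarith)
        have h9 : 8 * (q : ℝ) / ((q : ℝ) - r + 1) ≤ 8 * (q : ℝ) / (((q - 1 - r : ℕ) : ℝ) + 1) := by
          rw [hcast]
          apply div_le_div_of_nonneg_left (by positivity) (by linarith) (by linarith)
        linarith

/-- many blocks -/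
theorem blocks (f : ℕ → ℝ) (q : ℕ) (B : ℕ → ℝ) (n : ℕ)
    (h : ∀ k < n, ∑ j ∈ range q, f (k * q + j) ≤ B k) :
    ∑ l ∈ range (n * q), f l ≤ ∑ k ∈ range n, B k := by
  induction n with
  | zero => simp
  | succ n ih =>
    rw [sum_range_succ, Nat.succ_mul, sum_range_add]
    exact add_le_add (ih (fun k hk => h k (by omega))) (h n (by omega))

/-- shifted version of the first sum -/
theorem sum1_shift (q : ℕ) (a : ℤ) (α : ℝ) (hq : 1 ≤ q) (hc : IsCoprime a (q : ℤ))
    (hα : |α - a / q| ≤ 1 / (q : ℝ) ^ 2) (X : ℕ) (Y : ℝ) (hY : 0 ≤ Y) (x0 : ℝ) :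
    ∑ l ∈ range X, gK Y (x0 + l * α) ≤ 16 * (X / q + 1) * (Y + q * (1 + Real.log q)) := by
  have hq0 : (0 : ℝ) < q := by exact_mod_cast hq
  have hlog : 0 ≤ Real.log q := Real.log_natCast_nonneg q
  obtain ⟨n, hn⟩ : ∃ n, n = X / q + 1 := ⟨_, rfl⟩
  have hXn : X ≤ n * q := by
    rw [hn]
    have := Nat.lt_mul_div_succ X (by omega : 0 < q)
    calc X ≤ q * (X / q + 1) := this.le
      _ = (X / q + 1) * q := by ring
  have hnr : (n : ℝ) ≤ X / q + 1 := by
    rw [hn]; push_cast
    have := @Nat.cast_div_le ℝ _ _ _ X q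
    linarith
  calc ∑ l ∈ range X, gK Y (x0 + l * α) ≤ ∑ l ∈ range (n * q), gK Y (x0 + l * α) := by
        apply sum_le_sum_of_subset_of_nonneg
        · exact range_subset_range.mpr hXn
        · intro l _ _
          exact gK_nonneg hY _
    _ ≤ ∑ k ∈ range n, (12 * Y + 16 * (q * (1 + Real.log q))) := by
        apply blocks
        intro k _
        have := block q a α hq hc hα Y hY (x0 + (k * q : ℕ) * α)
        refine le_trans (le_of_eq ?_) this
        apply sum_congr rfl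
        intro j _
        congr 1
        push_cast
        ring
    _ = n * (12 * Y + 16 * (q * (1 + Real.log q))) := by
        rw [sum_const, card_range, nsmul_eq_mul]
    _ ≤ (X / q + 1) * (16 * (Y + q * (1 + Real.log q))) := by
        have h1 : 12 * Y + 16 * (q * (1 + Real.log q)) ≤ 16 * (Y + q * (1 + Real.log q)) := by
          nlinarith
        have h2 : 0 ≤ 12 * Y + 16 * (q * (1 + Real.log q)) := by positivity
        exact mul_le_mul hnr h1 h2 (by positivity)
    _ = 16 * (X / q + 1) * (Y + q * (1 + Real.log q)) := by ring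

end Pool.Agent.Lib.MP_629a14_nt.Rob.TypeIAux
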