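import Pool.Agent.Lib.MP_629a14_nt.Rob.Geo
import Pool.Agent.Lib.MP_629a14_nt.Rob.TypeIAux

/-! Type I sums: the standard estimates for sums of gK over multiples of a real number. -/

set_option autoImplicit false

namespace Pool.Agent.Lib.MP_629a14_nt.Rob

open Finset Pool.Agent.Lib.MP_629a14_nt

private theorem typeI_Icc (f : ℕ → ℝ) (X : ℕ) :
    ∑ l ∈ Icc 1 X, f l = ∑ l ∈ range X, f (l + 1) := by
  induction X with
  | zero => simp
  | succ n ih => rw [sum_Icc_succ_top (by omega), sum_range_succ, ih]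

/-- Standard: split `[1, X]` into blocks of length at most `q / 2` (or `q`); inside one block the
points `l α` modulo one are separated by `1 / (2 q)`, so the sum over a block is at most
`2 * (2 Y) + C q (1 + log q)`. -/
theorem sum1 : ∃ C : ℝ, 0 < C ∧ ∀ (q : ℕ) (a : ℤ) (α : ℝ), 1 ≤ q → IsCoprime a (q : ℤ) →
    |α - a / q| ≤ 1 / (q : ℝ) ^ 2 → ∀ X : ℕ, ∀ Y : ℝ, 1 ≤ Y →
      ∑ l ∈ Icc 1 X, gK Y (l * α) ≤ C * (X / q + 1) * (Y + q * (1 + Real.log q)) := by
  refine ⟨16, by norm_num, ?_⟩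
  intro q a α hq hc hα X Y hY
  rw [typeI_Icc]
  have h := TypeIAux.sum1_shift q a α hq hc hα X Y (by linarith) α
  refine le_trans (le_of_eq ?_) h
  apply sum_congr rfl
  intro l _
  congr 1
  push_cast
  ring

/-- the range `2 d < q` -/
private theorem sum2_small (q : ℕ) (a : ℤ) (α : ℝ) (hq : 1 ≤ q) (hc : IsCoprime a (q : ℤ))
    (hα : |α - a / q| ≤ 1 / (q : ℝ) ^ 2) (N D : ℕ) :
    ∑ d ∈ (Icc 1 D).filter (fun d => 2 * d < q), gK (N / d) (d * α) ≤
      16 * (q * (1 + Real.log q)) := by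
  have hq0 : (0 : ℝ) < q := by exact_mod_cast hq
  have key := TypeIAux.res_sum q hq a 0 hc ((Icc 1 D).filter (fun d => 2 * d < q))
    (fun d hd => by rw [mem_filter] at hd; omega)
    (fun d => gK (N / d) (d * α)) (fun r => 8 * q / ((r : ℝ) + 1)) (fun r => by positivity) ?_
  · refine key.trans ?_
    have : ∀ r ∈ range q, 8 * (q : ℝ) / ((r : ℝ) + 1) = 8 * q * (1 / ((r : ℝ) + 1)) := by
      intro r _; ring
    rw [sum_congr rfl this, ← mul_sum]
    have h1 := mul_le_mul_of_nonneg_left (TypeIAux.harm q) (by positivity : (0 : ℝ) ≤ 8 * q)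
    linarith
  · intro d hd
    rw [mem_filter, mem_Icc] at hd
    obtain ⟨⟨hd1, -⟩, hd2⟩ := hd
    have hrq := TypeIAux.rr_lt q hq a 0 d
    obtain ⟨r, hr⟩ : ∃ r, r = TypeIAux.rr q a 0 d := ⟨_, rfl⟩
    have hx : (d : ℝ) * α = (((0 : ℤ) : ℝ) + d * a) / q + d * (α - a / q) := by
      push_cast; field_simp; ring
    have hee : |(d : ℝ) * (α - a / q)| ≤ 1 / (2 * q) := by
      rw [abs_mul, Nat.abs_cast]
      have hd3 : (d : ℝ) ≤ q / 2 := by
        have : 2 * (d : ℝ) ≤ q := by exact_mod_cast hd2.le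
        linarith
      calc (d : ℝ) * |α - a / q| ≤ (q / 2) * (1 / (q : ℝ) ^ 2) := by gcongr
        _ = 1 / (2 * q) := by field_simp
    have hr0 : 1 ≤ r := by
      by_contra hcon
      have h0 : r = 0 := by omega
      have h1 := TypeIAux.rr_cast q hq a 0 d
      rw [← hr, h0, zero_add] at h1
      have h2 : (q : ℤ) ∣ (d : ℤ) * a := Int.dvd_of_emod_eq_zero (by rw [← h1]; simp)
      have h3 : (q : ℤ) ∣ (d : ℤ) := hc.symm.dvd_of_dvd_mul_right h2
      have h4 : q ∣ d := by exact_mod_cast h3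
      have := Nat.le_of_dvd (by omega) h4
      omega
    show gK (N / d) (d * α) ≤ 8 * (q : ℝ) / ((TypeIAux.rr q a 0 d : ℕ) + 1) +
      8 * (q : ℝ) / (((q - 1 - TypeIAux.rr q a 0 d : ℕ) : ℝ) + 1)
    rw [← hr]
    rw [← hr] at hrq
    have hcast : (((q - 1 - r : ℕ) : ℝ)) = (q : ℝ) - 1 - r := by
      rw [Nat.cast_sub (by omega), Nat.cast_sub (by omega)]; simp
    have hrr : (1 : ℝ) ≤ r := by exact_mod_cast hr0
    have hrr2 : (1 : ℝ) ≤ (q : ℝ) - r := by
      have : (r : ℝ) + 1 ≤ q := by exact_mod_cast hrq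
      linarith
    have hY : (0 : ℝ) ≤ (N : ℝ) / d := by positivity
    have main : ∀ t : ℝ, t ≤ r → t ≤ (q : ℝ) - r → 1 ≤ t →
        gK (N / d) (d * α) ≤ 8 * q / (t + 1) := by
      intro t ht1 ht2 ht3
      have h5 := TypeIAux.nn_point q hq a 0 (d * α) _ d hx t (by rw [← hr]; exact ht1)
        (by rw [← hr]; exact ht2)
      have h6 : t / (2 * q) ≤ nn (d * α) := by
        have h7 : t / (2 * q) ≤ t / q - 1 / (2 * q) := by
          rw [div_sub_div _ _ hq0.ne' (by positivity), div_le_div_iff₀ (by positivity)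
            (by positivity)]
          nlinarith [mul_pos hq0 hq0, mul_nonneg (mul_pos hq0 hq0).le (sub_nonneg.mpr ht3),
            mul_nonneg (mul_nonneg (mul_pos hq0 hq0).le hq0.le) (sub_nonneg.mpr ht3)]
        linarith
      have h7 : 0 < t / (2 * q) := by positivity
      calc gK (N / d) (d * α) ≤ 2 / nn (d * α) := gK_le_inv hY (lt_of_lt_of_le h7 h6)
        _ ≤ 2 / (t / (2 * q)) := div_le_div_of_nonneg_left (by norm_num) h7 h6
        _ = 4 * q / t := by field_simp; norm_num
        _ ≤ 8 * q / (t + 1) := by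
            rw [div_le_div_iff₀ (by linarith) (by linarith)]
            nlinarith
    have hG2 : 0 ≤ 8 * (q : ℝ) / ((r : ℝ) + 1) := by positivity
    have hG3 : 0 ≤ 8 * (q : ℝ) / (((q - 1 - r : ℕ) : ℝ) + 1) := by positivity
    rcases le_total (r : ℝ) ((q : ℝ) - r) with h | h
    · have := main r le_rfl h hrr
      linarith
    · have h8 := main ((q : ℝ) - r) h le_rfl hrr2
      have h9 : 8 * (q : ℝ) / ((q : ℝ) - r + 1) ≤ 8 * (q : ℝ) / (((q - 1 - r : ℕ) : ℝ) + 1) := by
        rw [hcast]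
        apply div_le_div_of_nonneg_left (by positivity) (by linarith) (by linarith)
      linarith

/-- the range `q ≤ 2 d` -/
private theorem sum2_large (q : ℕ) (a : ℤ) (α : ℝ) (hq : 1 ≤ q) (hc : IsCoprime a (q : ℤ))
    (hα : |α - a / q| ≤ 1 / (q : ℝ) ^ 2) (N D : ℕ) :
    ∑ d ∈ (Icc 1 D).filter (fun d => ¬ 2 * d < q), gK (N / d) (d * α) ≤
      24 * (N / q) * (1 + Real.log ((D / q + 1 : ℕ) : ℝ)) +
        16 * ((D + q) * (1 + Real.log q)) := by
  classical
  have hq0 : (0 : ℝ) < q := by exact_mod_cast hq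
  have hlog : 0 ≤ Real.log q := Real.log_natCast_nonneg q
  obtain ⟨K, hK⟩ : ∃ K, K = D / q + 1 := ⟨_, rfl⟩
  obtain ⟨h, hh⟩ : ∃ h, h = (q + 1) / 2 := ⟨_, rfl⟩
  have hDK : D < K * q := by
    rw [hK]
    have := Nat.lt_mul_div_succ D (by omega : 0 < q)
    calc D < q * (D / q + 1) := this
      _ = (D / q + 1) * q := by ring
  have hKr : (K : ℝ) ≤ D / q + 1 := by
    rw [hK]; push_cast
    have := @Nat.cast_div_le ℝ _ _ _ D q
    linarith
  rw [← hK]
  have hterm : ∀ x y : ℕ, 0 ≤ gK ((x : ℝ) / y) (y * α) := fun x y =>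
    gK_nonneg (by positivity) _
  calc ∑ d ∈ (Icc 1 D).filter (fun d => ¬ 2 * d < q), gK (N / d) (d * α)
      ≤ ∑ d ∈ (range (K * q)).image (fun l => h + l), gK (N / d) (d * α) := by
        apply sum_le_sum_of_subset_of_nonneg
        · intro d hd
          rw [mem_filter, mem_Icc] at hd
          rw [mem_image]
          refine ⟨d - h, ?_, ?_⟩
          · rw [mem_range]; omega
          · omega
        · intro d _ _
          exact hterm N d
    _ = ∑ l ∈ range (K * q), gK (N / (h + l : ℕ)) ((h + l : ℕ) * α) := by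
        rw [sum_image]
        intro x _ y _ hxy
        simpa using hxy
    _ ≤ ∑ k ∈ range K, (12 * (2 * N / ((k + 1) * q)) + 16 * (q * (1 + Real.log q))) := by
        apply TypeIAux.blocks
        intro k _
        have hY : (0 : ℝ) ≤ 2 * N / ((k + 1) * q) := by positivity
        have hb := TypeIAux.block q a α hq hc hα (2 * N / ((k + 1) * q)) hY
          ((h + k * q : ℕ) * α)
        refine le_trans (sum_le_sum ?_) hb
        intro j _
        have h1 : ((h + (k * q + j) : ℕ) : ℝ) * α = (h + k * q : ℕ) * α + j * α := by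
          push_cast; ring
        rw [h1]
        apply gK_mono (by positivity)
        have h2 : ((k : ℝ) + 1) * q ≤ 2 * ((h + (k * q + j) : ℕ) : ℝ) := by
          have h3 : (k + 1) * q ≤ 2 * (h + (k * q + j)) := by
            have : (k + 1) * q = k * q + q := by ring
            omega
          exact_mod_cast h3
        have h4 : (0 : ℝ) < ((k : ℝ) + 1) * q := by positivity
        have h5 : (0 : ℝ) < ((h + (k * q + j) : ℕ) : ℝ) := by linarith
        rw [div_le_div_iff₀ h5 h4]
        have hN : (0 : ℝ) ≤ N := by positivity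
        nlinarith
    _ = 24 * (N / q) * (∑ k ∈ range K, 1 / ((k : ℝ) + 1)) +
          K * (16 * (q * (1 + Real.log q))) := by
        rw [sum_add_distrib, sum_const, card_range, nsmul_eq_mul, mul_sum]
        congr 1
        apply sum_congr rfl
        intro k _
        field_simp
        ring
    _ ≤ 24 * (N / q) * (1 + Real.log (K : ℝ)) + 16 * ((D + q) * (1 + Real.log q)) := by
        apply add_le_add
        · exact mul_le_mul_of_nonneg_left (TypeIAux.harm K) (by positivity)
        · have h1 : (K : ℝ) * q ≤ D + q := by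
            calc (K : ℝ) * q ≤ (D / q + 1) * q := by gcongr
              _ = D + q := by field_simp
          have h2 : 0 ≤ 1 + Real.log q := by linarith
          nlinarith [mul_le_mul_of_nonneg_right h1 h2]

/-- As `sum1`, but with `Y = N / d`: the `d < q / 2` satisfy `nn (d α) ≥ 1 / (2 q)`, for
`d` in `[j q / 2, (j + 1) q / 2)` use `N / d ≤ 2 N / (j q)`. -/
theorem sum2 : ∃ C : ℝ, 0 < C ∧ ∀ (q : ℕ) (a : ℤ) (α : ℝ), 1 ≤ q → IsCoprime a (q : ℤ) →
    |α - a / q| ≤ 1 / (q : ℝ) ^ 2 → ∀ N D : ℕ, 1 ≤ D → D ≤ N → q ≤ N →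
      ∑ d ∈ Icc 1 D, gK (N / d) (d * α) ≤ C * (N / q + D + q) * (1 + Real.log N) := by
  refine ⟨48, by norm_num, ?_⟩
  intro q a α hq hc hα N D hD hDN hqN
  have hq0 : (0 : ℝ) < q := by exact_mod_cast hq
  have hN0 : (0 : ℝ) < N := by
    have : 0 < N := by omega
    exact_mod_cast this
  have h1 := sum2_small q a α hq hc hα N D
  have h2 := sum2_large q a α hq hc hα N D
  rw [← sum_filter_add_sum_filter_not (Icc 1 D) (fun d => 2 * d < q)]
  have hlogq : Real.log q ≤ Real.log N := Real.log_le_log hq0 (by exact_mod_cast hqN)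
  have hlogq0 : 0 ≤ Real.log q := Real.log_natCast_nonneg q
  have hlogN : 0 ≤ Real.log N := Real.log_natCast_nonneg N
  have hK : Real.log ((D / q + 1 : ℕ) : ℝ) ≤ 1 + Real.log N := by
    have h3 : ((D / q + 1 : ℕ) : ℝ) ≤ 2 * N := by
      have : D / q ≤ D := Nat.div_le_self _ _
      have h4 : D / q + 1 ≤ 2 * N := by omega
      exact_mod_cast h4
    calc Real.log ((D / q + 1 : ℕ) : ℝ) ≤ Real.log (2 * N) :=
          Real.log_le_log (by positivity) h3
      _ = Real.log 2 + Real.log N := Real.log_mul (by norm_num) hN0.ne'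
      _ ≤ 1 + Real.log N := by
          have : Real.log 2 ≤ 1 := by
            have := Real.log_two_lt_d9
            linarith
          linarith
  have hNq : (0 : ℝ) ≤ N / q := by positivity
  have hDr : (0 : ℝ) ≤ D := by positivity
  have e1 : (q : ℝ) * (1 + Real.log q) ≤ q * (1 + Real.log N) := by gcongr
  have e2 : ((D : ℝ) + q) * (1 + Real.log q) ≤ (D + q) * (1 + Real.log N) := by gcongr
  have e3 : 24 * ((N : ℝ) / q) * (1 + Real.log ((D / q + 1 : ℕ) : ℝ)) ≤
      24 * (N / q) * (2 * (1 + Real.log N)) := by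
    gcongr
    linarith
  have e4 : 0 ≤ (q : ℝ) * (1 + Real.log N) := by positivity
  have e5 : 0 ≤ (D : ℝ) * (1 + Real.log N) := by positivity
  have e6 : 48 * ((N : ℝ) / q + D + q) * (1 + Real.log N) =
      48 * (N / q * (1 + Real.log N)) + 48 * (D * (1 + Real.log N)) +
        48 * (q * (1 + Real.log N)) := by ring
  rw [e6]
  have e7 : ((D : ℝ) + q) * (1 + Real.log N) = D * (1 + Real.log N) + q * (1 + Real.log N) := by
    ring
  have e8 : 24 * ((N : ℝ) / q) * (2 * (1 + Real.log N)) = 48 * (N / q * (1 + Real.log N)) := by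
    ring
  linarith

end Pool.Agent.Lib.MP_629a14_nt.Rob
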