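import Pool.Agent.Lib.MP_629a14_nt.Rob.Trunc
import Pool.Agent.Lib.MP_629a14_nt.Rob.TypeI

/-! Large denominators: rough numbers with a small sifting limit. -/

set_option autoImplicit false

namespace Pool.Agent.Lib.MP_629a14_nt.Rob

open Finset Pool.Agent.Lib.MP_629a14_nt

private lemma largeR_ev (C : ℝ) : ∃ L₀ : ℝ, ∀ L : ℝ, L₀ ≤ L →
    48 * C + 3 ≤ L ∧ 1 ≤ Real.log L ∧ 3039 * Real.log L ^ 2 ≤ L / 2 ∧
      L ^ 60 ≤ Real.exp (1 / 2 * L) := by
  have h1 : ∀ᶠ L : ℝ in Filter.atTop, 48 * C + 3 ≤ L := Filter.eventually_ge_atTop _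
  have h2 : ∀ᶠ L : ℝ in Filter.atTop, 1 ≤ Real.log L :=
    Real.tendsto_log_atTop.eventually_ge_atTop 1
  have h3 := (Real.isLittleO_pow_log_id_atTop (n := 2)).bound (show (0 : ℝ) < 1 / 6078 by norm_num)
  have h4 := (isLittleO_pow_exp_pos_mul_atTop 60 (show (0 : ℝ) < 1 / 2 by norm_num)).bound
    (show (0 : ℝ) < 1 by norm_num)
  have h5 : ∀ᶠ L : ℝ in Filter.atTop, 0 ≤ L := Filter.eventually_ge_atTop _
  have h := (((h1.and h2).and h3).and h4).and h5
  obtain ⟨L₀, hL₀⟩ := Filter.eventually_atTop.1 h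
  refine ⟨L₀, fun L hL => ?_⟩
  obtain ⟨⟨⟨⟨a1, a2⟩, a3⟩, a4⟩, a5⟩ := hL₀ L hL
  refine ⟨a1, a2, ?_, ?_⟩
  · rw [Real.norm_of_nonneg (by positivity)] at a3
    simp only [id] at a3
    rw [Real.norm_of_nonneg a5] at a3
    linarith
  · rw [Real.norm_of_nonneg (by positivity), Real.norm_of_nonneg (by positivity), one_mul] at a4
    exact a4

private lemma largeR_trunc_exp {L lz lD : ℝ} (hu : 1 ≤ Real.log L) (hL : 0 < L)
    (h3 : 3039 * Real.log L ^ 2 ≤ L / 2) (hz0 : 0 ≤ lz) (hz : lz ≤ 30 * Real.log L)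
    (hD : L / 2 - 1 ≤ lD) :
    Real.exp (3 + 3 * lz - lD / (1 + lz)) ≤ 1 / (8 * L ^ 2) := by
  set u := Real.log L with hu'
  have h8 : Real.log 8 ≤ 3 := by
    have : (8 : ℝ) = 2 ^ 3 := by norm_num
    rw [this, Real.log_pow]
    have := Real.log_two_lt_d9
    push_cast
    linarith
  have hexp : 1 / (8 * L ^ 2) = Real.exp (-(Real.log 8 + 2 * u)) := by
    rw [Real.exp_neg, Real.exp_add, Real.exp_log (by norm_num), two_mul, Real.exp_add, hu',
      Real.exp_log hL, one_div]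
    congr 1
    ring
  rw [hexp]
  apply Real.exp_le_exp.2
  have hkey : (6 + 92 * u) * (1 + lz) ≤ lD := by
    have h1 : (6 + 92 * u) * (1 + lz) ≤ (98 * u) * (31 * u) := by
      apply mul_le_mul <;> nlinarith
    nlinarith
  have h2 : 6 + 92 * u ≤ lD / (1 + lz) := by
    rw [le_div_iff₀ (by linarith)]
    exact hkey
  linarith

/-- `trunc` with `D = ⌊√N⌋`, `geom` and `sum2`. -/
theorem largeR : ∃ N₀ : ℕ, ∀ N : ℕ, N₀ ≤ N → ∀ (q : ℕ) (a : ℤ) (α : ℝ), 1 ≤ q →
    IsCoprime a (q : ℤ) → |α - a / q| ≤ 1 / (q : ℝ) ^ 2 → Real.log N ^ 60 ≤ q →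
      (q : ℝ) ≤ N / Real.log N ^ 60 →
        ‖SR N ⌊Real.log N ^ 30⌋₊ α‖ ≤ N / (4 * Real.log N ^ 2) := by
  obtain ⟨C, hC0, hC⟩ := sum2
  obtain ⟨L₀, hL₀⟩ := largeR_ev C
  have hev : ∀ᶠ N : ℕ in Filter.atTop, L₀ ≤ Real.log N :=
    (Real.tendsto_log_atTop.comp tendsto_natCast_atTop_atTop).eventually_ge_atTop L₀
  obtain ⟨N₁, hN₁⟩ := Filter.eventually_atTop.1 hev
  refine ⟨max N₁ 4, ?_⟩
  intro N hN q a α hq hc hα hq1 hq2
  obtain ⟨e1, e2, e3, e4⟩ := hL₀ _ (hN₁ N (le_trans (le_max_left _ _) hN))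
  have hN4 : 4 ≤ N := le_trans (le_max_right _ _) hN
  have hNpos : (0 : ℝ) < N := by exact_mod_cast (by omega : 0 < N)
  set L := Real.log N with hLdef
  have hL3 : 3 ≤ L := by nlinarith
  have hLpos : 0 < L := by linarith
  have hexpL : Real.exp L = N := Real.exp_log hNpos
  have hq0 : (0 : ℝ) < q := by exact_mod_cast hq
  set z := ⌊L ^ 30⌋₊ with hzdef
  have hL30 : (3 : ℝ) ≤ L ^ 30 := by
    calc (3 : ℝ) ≤ L := hL3
      _ ≤ L ^ 30 := le_self_pow₀ (by linarith) (by norm_num)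
  have hz2 : 2 ≤ z := by
    rw [hzdef]
    apply Nat.le_floor
    push_cast
    linarith
  have hzle : (z : ℝ) ≤ L ^ 30 := Nat.floor_le (by positivity)
  have hz0 : (0 : ℝ) < z := by exact_mod_cast (by omega : 0 < z)
  have hlz0 : 0 ≤ Real.log z := Real.log_nonneg (by exact_mod_cast (by omega : 1 ≤ z))
  have hlz : Real.log z ≤ 30 * Real.log L := by
    calc Real.log z ≤ Real.log (L ^ 30) := Real.log_le_log hz0 hzle
      _ = 30 * Real.log L := by rw [Real.log_pow]; push_cast; ring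
  set D := Nat.sqrt N with hDdef
  have hD1 : 1 ≤ D := by
    rw [hDdef]
    exact Nat.le_sqrt.2 (by omega)
  have hD0 : (0 : ℝ) < D := by exact_mod_cast (by omega : 0 < D)
  have hDN : D ≤ N := Nat.sqrt_le_self N
  have hDsq : D * D ≤ N := Nat.sqrt_le N
  have hDsq2 : N < (D + 1) * (D + 1) := Nat.lt_succ_sqrt N
  have hlD : L / 2 - 1 ≤ Real.log D := by
    have h1 : (N : ℝ) ≤ (2 * D) ^ 2 := by
      have : N ≤ (2 * D) ^ 2 := by nlinarith
      exact_mod_cast this
    have h2 : L ≤ 2 * Real.log (2 * D) := by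
      calc L ≤ Real.log ((2 * D : ℝ) ^ 2) := Real.log_le_log hNpos h1
        _ = 2 * Real.log (2 * D) := by rw [Real.log_pow]; push_cast; ring
    rw [Real.log_mul (by norm_num) hD0.ne'] at h2
    have := Real.log_two_lt_d9
    linarith
  have hDle : (D : ℝ) ≤ N / L ^ 60 := by
    rw [le_div_iff₀ (by positivity)]
    have h1 : (D : ℝ) ≤ Real.exp (1 / 2 * L) := by
      have h2 : (D : ℝ) ^ 2 ≤ Real.exp (1 / 2 * L) ^ 2 := by
        rw [← Real.exp_nat_mul]
        have : ((2 : ℕ) : ℝ) * (1 / 2 * L) = L := by push_cast; ring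
        rw [this, hexpL, sq]
        exact_mod_cast hDsq
      exact le_of_sq_le_sq h2 (Real.exp_pos _).le
    calc (D : ℝ) * L ^ 60 ≤ Real.exp (1 / 2 * L) * Real.exp (1 / 2 * L) :=
          mul_le_mul h1 e4 (by positivity) (by positivity)
      _ = N := by
        rw [← Real.exp_add, ← hexpL]
        congr 1
        ring
  have hL60 : (1 : ℝ) ≤ L ^ 60 := one_le_pow₀ (by linarith)
  have hqN : q ≤ N := by
    have : (q : ℝ) ≤ N := hq2.trans (div_le_self hNpos.le hL60)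
    exact_mod_cast this
  have ht := trunc N z D α hz2 hD1 (by omega)
  have hE : (N : ℝ) * Real.exp (3 + 3 * Real.log z - Real.log D / (1 + Real.log z)) ≤
      N / (8 * L ^ 2) := by
    have h := largeR_trunc_exp e2 hLpos e3 hlz0 hlz hlD
    calc (N : ℝ) * Real.exp (3 + 3 * Real.log z - Real.log D / (1 + Real.log z))
        ≤ N * (1 / (8 * L ^ 2)) := mul_le_mul_of_nonneg_left h hNpos.le
      _ = N / (8 * L ^ 2) := by ring
  have hM : ‖∑ d ∈ (Icc 1 D).filter (fun d => d ∣ primorial (z - 1)),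
      ((ArithmeticFunction.moebius d : ℤ) : ℂ) * ∑ m ∈ Icc 1 (N / d), ee ((d : ℝ) * m * α)‖ ≤
      N / (8 * L ^ 2) := by
    have hterm : ∀ d ∈ Icc 1 D, ‖((ArithmeticFunction.moebius d : ℤ) : ℂ) *
        ∑ m ∈ Icc 1 (N / d), ee ((d : ℝ) * m * α)‖ ≤ gK (N / d) (d * α) := by
      intro d hd
      rw [mem_Icc] at hd
      have hd0 : (0 : ℝ) < d := by exact_mod_cast (by omega : 0 < d)
      have h1 : ‖((ArithmeticFunction.moebius d : ℤ) : ℂ)‖ ≤ 1 := by
        rw [Complex.norm_intCast]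
        exact_mod_cast ArithmeticFunction.abs_moebius_le_one (n := d)
      have h2 : ∑ m ∈ Icc 1 (N / d), ee ((d : ℝ) * m * α) =
          ∑ m ∈ Ico 1 (1 + N / d), ee ((m : ℝ) * (d * α)) := by
        have : Icc 1 (N / d) = Ico 1 (1 + N / d) := by
          ext x
          simp only [mem_Icc, mem_Ico]
          omega
        rw [this]
        refine sum_congr rfl fun m _ => ?_
        congr 1
        ring
      have h3 : ‖∑ m ∈ Icc 1 (N / d), ee ((d : ℝ) * m * α)‖ ≤ gK (N / d) (d * α) := by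
        rw [h2]
        exact geom 1 (N / d) (N / d) (d * α) (by positivity) Nat.cast_div_le
      rw [norm_mul]
      calc _ ≤ 1 * gK (N / d) (d * α) := mul_le_mul h1 h3 (norm_nonneg _) zero_le_one
        _ = gK (N / d) (d * α) := one_mul _
    have hsum : ‖∑ d ∈ (Icc 1 D).filter (fun d => d ∣ primorial (z - 1)),
        ((ArithmeticFunction.moebius d : ℤ) : ℂ) * ∑ m ∈ Icc 1 (N / d), ee ((d : ℝ) * m * α)‖ ≤
        ∑ d ∈ Icc 1 D, gK (N / d) (d * α) := by
      refine (norm_sum_le _ _).trans ?_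
      refine (sum_le_sum (fun d hd => hterm d (mem_filter.1 hd).1)).trans ?_
      apply sum_le_sum_of_subset_of_nonneg (filter_subset _ _)
      intro d _ _
      exact gK_nonneg (by positivity) _
    have hs2 := hC q a α hq hc hα N D hD1 hDN hqN
    refine hsum.trans (hs2.trans ?_)
    have hNq : (N : ℝ) / q ≤ N / L ^ 60 := div_le_div_of_nonneg_left hNpos.le (by positivity) hq1
    have h1 : (N : ℝ) / q + D + q ≤ 3 * (N / L ^ 60) := by linarith
    have h2 : C * (N / q + D + q) * (1 + L) ≤ C * (3 * (N / L ^ 60)) * (2 * L) := by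
      apply mul_le_mul
      · exact mul_le_mul_of_nonneg_left h1 hC0.le
      · linarith
      · linarith
      · positivity
    refine h2.trans ?_
    have h3 : C * (3 * (N / L ^ 60)) * (2 * L) = (N / (8 * L ^ 2)) * (48 * C / L ^ 57) := by
      field_simp
      ring
    rw [h3]
    have h4 : 48 * C / L ^ 57 ≤ 1 := by
      rw [div_le_one (by positivity)]
      calc 48 * C ≤ L := by linarith
        _ ≤ L ^ 57 := le_self_pow₀ (by linarith) (by norm_num)
    calc (N / (8 * L ^ 2)) * (48 * C / L ^ 57) ≤ (N / (8 * L ^ 2)) * 1 :=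
          mul_le_mul_of_nonneg_left h4 (by positivity)
      _ = N / (8 * L ^ 2) := mul_one _
  have hfin := norm_sub_norm_le (SR N z α) (∑ d ∈ (Icc 1 D).filter (fun d => d ∣ primorial (z - 1)),
      ((ArithmeticFunction.moebius d : ℤ) : ℂ) * ∑ m ∈ Icc 1 (N / d), ee ((d : ℝ) * m * α))
  have heq : (N : ℝ) / (4 * L ^ 2) = N / (8 * L ^ 2) + N / (8 * L ^ 2) := by
    field_simp
    ring
  rw [heq]
  linarith

end Pool.Agent.Lib.MP_629a14_nt.Rob
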