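import Pool.Agent.Lib.MP_629a14_nt.Rob.BDefs

/-! Auxiliary facts on blocks for the bilinear bounds. -/

set_option autoImplicit false

namespace Pool.Agent.Lib.MP_629a14_nt.Rob.QAux

open Finset Pool.Agent.Lib.MP_629a14_nt Pool.Agent.Lib.MP_629a14_nt.Rob

theorem norm_ee_sub_le (s t : ℝ) : ‖ee s - ee t‖ ≤ 2 * Real.pi * |s - t| := by
  have h1 : ee s - ee t = ee t * (ee (s - t) - 1) := by
    rw [mul_sub, mul_one, ← ee_add]
    congr 2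
    ring
  rw [h1, norm_mul, norm_ee, one_mul]
  unfold ee
  have h2 : (2 * Real.pi * ((s - t : ℝ) : ℂ) * Complex.I) =
      Complex.I * ((2 * Real.pi * (s - t) : ℝ) : ℂ) := by
    push_cast
    ring
  rw [h2]
  refine (Real.norm_exp_I_mul_ofReal_sub_one_le).trans ?_
  rw [Real.norm_eq_abs, abs_mul, abs_mul, abs_two, abs_of_pos Real.pi_pos]

theorem le_Xs {z : ℕ} (i : ℕ) : z ≤ Xs z i := by
  unfold Xs
  exact Nat.le_mul_of_pos_left z (by positivity)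

theorem Xs_le_Ps (z J i j : ℕ) : Xs z i ≤ Ps z J i j := Nat.le_add_right _ _

theorem le_hs {z J i : ℕ} (hJ : 1 ≤ J) : (Xs z i : ℝ) / J ≤ hs z J i := by
  unfold hs
  have hJ0 : (0 : ℝ) < J := by exact_mod_cast hJ
  rw [div_le_iff₀ hJ0]
  have h := Nat.lt_mul_div_succ (Xs z i) (show 0 < J by omega)
  have h2 : ((Xs z i : ℕ) : ℝ) < ((J * (Xs z i / J + 1) : ℕ) : ℝ) := by exact_mod_cast h
  push_cast at h2 ⊢
  linarith

theorem hs_le {z J i : ℕ} (hJ : 1 ≤ J) (hJz : J ≤ z) : (hs z J i : ℝ) ≤ 2 * Xs z i / J := by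
  unfold hs
  have hJ0 : (0 : ℝ) < J := by exact_mod_cast hJ
  have h1 : ((Xs z i / J : ℕ) : ℝ) ≤ (Xs z i : ℝ) / J := Nat.cast_div_le
  have h2 : (1 : ℝ) ≤ (Xs z i : ℝ) / J := by
    rw [le_div_iff₀ hJ0, one_mul]
    exact_mod_cast hJz.trans (le_Xs i)
  push_cast
  have h3 : 2 * (Xs z i : ℝ) / J = (Xs z i : ℝ) / J + (Xs z i : ℝ) / J := by ring
  rw [h3]
  linarith

theorem card_bl_le (z J i j : ℕ) : (bl z J i j).card ≤ hs z J i := by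
  unfold bl
  refine (card_filter_le _ _).trans ?_
  rw [Nat.card_Ico]
  omega

theorem Y_le {N z J i j : ℕ} (hz : 1 ≤ z) : ((N / Ps z J i j : ℕ) : ℝ) ≤ (N : ℝ) / Xs z i := by
  have h1 : ((N / Ps z J i j : ℕ) : ℝ) ≤ (N : ℝ) / (Ps z J i j : ℝ) := Nat.cast_div_le
  refine h1.trans ?_
  have h2 : (0 : ℝ) < Xs z i := by exact_mod_cast (lt_of_lt_of_le hz (le_Xs i))
  apply div_le_div_of_nonneg_left (by positivity) h2
  exact_mod_cast Xs_le_Ps z J i j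

theorem hY_le {N z J i j : ℕ} (hz : 1 ≤ z) (hJ : 1 ≤ J) (hJz : J ≤ z) :
    (hs z J i : ℝ) * ((N / Ps z J i j : ℕ) : ℝ) ≤ 2 * N / J := by
  have hX : (0 : ℝ) < Xs z i := by exact_mod_cast (lt_of_lt_of_le hz (le_Xs i))
  have hJ0 : (0 : ℝ) < J := by exact_mod_cast hJ
  calc (hs z J i : ℝ) * ((N / Ps z J i j : ℕ) : ℝ)
      ≤ (2 * Xs z i / J) * ((N : ℝ) / Xs z i) := by
        apply mul_le_mul (hs_le hJ hJz) (Y_le hz) (by positivity) (by positivity)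
    _ = 2 * N / J := by
        field_simp

theorem mem_bl {z J i j p : ℕ} (hp : p ∈ bl z J i j) :
    p.Prime ∧ Ps z J i j ≤ p ∧ p < Ps z J i j + hs z J i := by
  unfold bl at hp
  rw [mem_filter, mem_Ico] at hp
  exact ⟨hp.2, hp.1.1, lt_of_lt_of_le hp.1.2 (min_le_left _ _)⟩

/-- replacing `p` by the left end of the block in the smooth phase -/
theorem replace_block {N z J : ℕ} (hz : 1 ≤ z) (hJ : 1 ≤ J) (hJz : J ≤ z) (c : ℕ → ℕ → ℂ)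
    (hc : ∀ p m, ‖c p m‖ ≤ 1) (β : ℝ) (i j : ℕ) :
    ‖(∑ p ∈ bl z J i j, ∑ m ∈ Icc 1 (N / Ps z J i j), c p m * ee ((p : ℝ) * m * β)) -
      ∑ p ∈ bl z J i j, ∑ m ∈ Icc 1 (N / Ps z J i j), c p m * ee ((Ps z J i j : ℝ) * m * β)‖ ≤
      (2 * N / J) * (2 * Real.pi * (2 * N / J * |β|)) := by
  have hJ0 : (0 : ℝ) < J := by exact_mod_cast hJ
  set Y := N / Ps z J i j with hY
  set h := hs z J i with hh
  have hhY : (h : ℝ) * Y ≤ 2 * N / J := hY_le hz hJ hJz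
  have e1 : ∀ p ∈ bl z J i j, ∀ m ∈ Icc 1 Y,
      ‖c p m * ee ((p : ℝ) * m * β) - c p m * ee ((Ps z J i j : ℝ) * m * β)‖ ≤
        2 * Real.pi * (2 * N / J * |β|) := by
    intro p hp m hm
    obtain ⟨-, h1, h2⟩ := mem_bl hp
    rw [← mul_sub, norm_mul]
    have h3 : ‖c p m‖ * ‖ee ((p : ℝ) * m * β) - ee ((Ps z J i j : ℝ) * m * β)‖ ≤
        1 * (2 * Real.pi * |(p : ℝ) * m * β - (Ps z J i j : ℝ) * m * β|) :=
      mul_le_mul (hc p m) (norm_ee_sub_le _ _) (norm_nonneg _) zero_le_one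
    refine h3.trans ?_
    rw [one_mul]
    apply mul_le_mul_of_nonneg_left _ (by positivity)
    have h4 : (p : ℝ) * m * β - (Ps z J i j : ℝ) * m * β = ((p : ℝ) - Ps z J i j) * m * β := by ring
    rw [h4, abs_mul, abs_mul, Nat.abs_cast]
    apply mul_le_mul_of_nonneg_right _ (abs_nonneg _)
    refine le_trans ?_ hhY
    have h5 : |(p : ℝ) - Ps z J i j| ≤ h := by
      rw [abs_of_nonneg (sub_nonneg.2 (by exact_mod_cast h1))]
      have : (p : ℝ) < Ps z J i j + h := by exact_mod_cast h2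
      linarith
    have h6 : (m : ℝ) ≤ Y := by exact_mod_cast (mem_Icc.1 hm).2
    exact mul_le_mul h5 h6 (by positivity) (by positivity)
  rw [← sum_sub_distrib]
  calc ‖∑ p ∈ bl z J i j, ((∑ m ∈ Icc 1 Y, c p m * ee ((p : ℝ) * m * β)) -
      ∑ m ∈ Icc 1 Y, c p m * ee ((Ps z J i j : ℝ) * m * β))‖
      ≤ ∑ p ∈ bl z J i j, ∑ m ∈ Icc 1 Y, 2 * Real.pi * (2 * N / J * |β|) := by
        refine (norm_sum_le _ _).trans (sum_le_sum fun p hp => ?_)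
        rw [← sum_sub_distrib]
        exact (norm_sum_le _ _).trans (sum_le_sum fun m hm => e1 p hp m hm)
    _ = ((bl z J i j).card : ℝ) * Y * (2 * Real.pi * (2 * N / J * |β|)) := by
        rw [sum_const, sum_const, Nat.card_Icc, nsmul_eq_mul, nsmul_eq_mul]
        simp only [Nat.add_sub_cancel]
        ring
    _ ≤ (2 * N / J) * (2 * Real.pi * (2 * N / J * |β|)) := by
        apply mul_le_mul_of_nonneg_right _ (by positivity)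
        refine le_trans ?_ hhY
        apply mul_le_mul_of_nonneg_right _ (by positivity)
        exact_mod_cast card_bl_le z J i j

/-- the replacement in all blocks -/
theorem replace {N z J : ℕ} (hz : 1 ≤ z) (hJ : 1 ≤ J) (hJz : J ≤ z) (c : ℕ → ℕ → ℂ)
    (hc : ∀ p m, ‖c p m‖ ≤ 1) (β : ℝ) :
    ‖(∑ i ∈ range (Nat.log 2 N + 1), ∑ j ∈ range J, ∑ p ∈ bl z J i j,
        ∑ m ∈ Icc 1 (N / Ps z J i j), c p m * ee ((p : ℝ) * m * β)) -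
      ∑ i ∈ range (Nat.log 2 N + 1), ∑ j ∈ range J, ∑ p ∈ bl z J i j,
        ∑ m ∈ Icc 1 (N / Ps z J i j), c p m * ee ((Ps z J i j : ℝ) * m * β)‖ ≤
      (Nat.log 2 N + 1 : ℕ) * (8 * Real.pi * N * (|β| * N) / J) := by
  have hJ0 : (0 : ℝ) < J := by exact_mod_cast hJ
  rw [← sum_sub_distrib]
  calc ‖∑ i ∈ range (Nat.log 2 N + 1), ((∑ j ∈ range J, ∑ p ∈ bl z J i j,
        ∑ m ∈ Icc 1 (N / Ps z J i j), c p m * ee ((p : ℝ) * m * β)) -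
        ∑ j ∈ range J, ∑ p ∈ bl z J i j,
        ∑ m ∈ Icc 1 (N / Ps z J i j), c p m * ee ((Ps z J i j : ℝ) * m * β))‖
      ≤ ∑ i ∈ range (Nat.log 2 N + 1), ∑ j ∈ range J,
        (2 * N / J) * (2 * Real.pi * (2 * N / J * |β|)) := by
        refine (norm_sum_le _ _).trans (sum_le_sum fun i _ => ?_)
        rw [← sum_sub_distrib]
        exact (norm_sum_le _ _).trans (sum_le_sum fun j _ => replace_block hz hJ hJz c hc β i j)
    _ = (Nat.log 2 N + 1 : ℕ) * (8 * Real.pi * N * (|β| * N) / J) := by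
        rw [sum_const, sum_const, card_range, card_range, nsmul_eq_mul, nsmul_eq_mul]
        field_simp
        ring

/-- numerical facts -/
theorem facts (κ : ℝ) (hκ : 0 < κ) (hκ1 : κ ≤ 1) (B : ℕ) : ∃ N₀ : ℕ, ∀ N : ℕ, N₀ ≤ N →
    ∃ T : ℝ, (N : ℝ) ^ (κ / 16) = T ∧ (N : ℝ) ^ (κ / 2) = T ^ 8 ∧ (N : ℝ) ^ κ = T ^ 16 ∧
      T ^ 16 ≤ N ∧ 8 ≤ T ∧ 2 ≤ Real.log N ∧ 8 * Real.log N ^ (B + 6) ≤ T ∧
      (Nat.log 2 N + 1 : ℕ) ≤ 3 * Real.log N ∧ 1 ≤ N := by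
  have h1 : ∀ᶠ x : ℝ in Filter.atTop, Real.log x ^ ((B + 6 : ℕ) : ℝ) ≤ (1 / 8) * x ^ (κ / 16) := by
    have h := isLittleO_log_rpow_rpow_atTop ((B + 6 : ℕ) : ℝ) (show 0 < κ / 16 by positivity)
    have h2 := h.bound (show (0 : ℝ) < 1 / 8 by norm_num)
    filter_upwards [h2, Filter.eventually_ge_atTop 1] with x hx hx1
    rw [Real.norm_of_nonneg (Real.rpow_nonneg (Real.log_nonneg hx1) _),
      Real.norm_of_nonneg (Real.rpow_nonneg (by linarith) _)] at hx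
    exact hx
  have h2 : ∀ᶠ N : ℕ in Filter.atTop, Real.log (N : ℝ) ^ ((B + 6 : ℕ) : ℝ) ≤
      (1 / 8) * (N : ℝ) ^ (κ / 16) := tendsto_natCast_atTop_atTop.eventually h1
  have h3 : ∀ᶠ N : ℕ in Filter.atTop, (2 : ℝ) ≤ Real.log N :=
    (Real.tendsto_log_atTop.comp tendsto_natCast_atTop_atTop).eventually_ge_atTop 2
  obtain ⟨N₀, hN₀⟩ := Filter.eventually_atTop.1 (h2.and (h3.and (Filter.eventually_ge_atTop 2)))
  refine ⟨N₀, fun N hN => ?_⟩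
  obtain ⟨a1, a2, a3⟩ := hN₀ N hN
  have hN1 : (1 : ℝ) ≤ N := by exact_mod_cast (show 1 ≤ N by omega)
  have hN0 : (0 : ℝ) ≤ N := by linarith
  refine ⟨(N : ℝ) ^ (κ / 16), rfl, ?_, ?_, ?_, ?_, a2, ?_, ?_, by omega⟩
  · rw [← Real.rpow_natCast, ← Real.rpow_mul hN0]
    congr 1
    push_cast
    ring
  · rw [← Real.rpow_natCast, ← Real.rpow_mul hN0]
    congr 1
    push_cast
    ring
  · rw [← Real.rpow_natCast, ← Real.rpow_mul hN0]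
    calc (N : ℝ) ^ (κ / 16 * ((16 : ℕ) : ℝ)) ≤ (N : ℝ) ^ (1 : ℝ) := by
          apply Real.rpow_le_rpow_of_exponent_le hN1
          push_cast
          linarith
      _ = N := Real.rpow_one _
  · rw [Real.rpow_natCast] at a1
    have h4 : (1 : ℝ) ≤ Real.log N ^ (B + 6) := one_le_pow₀ (by linarith)
    linarith
  · rw [Real.rpow_natCast] at a1
    linarith
  · have h5 : (Nat.log 2 N : ℝ) * Real.log 2 ≤ Real.log N := by
      rw [← Real.log_pow]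
      apply Real.log_le_log (by positivity)
      exact_mod_cast Nat.pow_log_le_self 2 (show N ≠ 0 by omega)
    have h6 : (0.6931471803 : ℝ) < Real.log 2 := Real.log_two_gt_d9
    have h7 : (0 : ℝ) ≤ Nat.log 2 N := by positivity
    push_cast
    nlinarith

/-- consequences -/
theorem facts2 {κ T : ℝ} {N B : ℕ} (h1 : (N : ℝ) ^ κ = T ^ 16) (h2 : T ^ 16 ≤ N) (h3 : 8 ≤ T)
    (h4 : 2 ≤ Real.log N) (h5 : 8 * Real.log N ^ (B + 6) ≤ T) :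
    4 ≤ ⌊(N : ℝ) ^ κ⌋₊ ∧ 2 ≤ ⌈Real.log N ^ (B + 5)⌉₊ ∧
      ⌈Real.log N ^ (B + 5)⌉₊ ≤ ⌊(N : ℝ) ^ κ⌋₊ ∧ ⌊(N : ℝ) ^ κ⌋₊ ≤ N ∧
      Real.log N ^ (B + 5) ≤ ⌈Real.log N ^ (B + 5)⌉₊ ∧
      (⌈Real.log N ^ (B + 5)⌉₊ : ℝ) ≤ 2 * Real.log N ^ (B + 5) ∧
      T ^ 16 / 2 ≤ ⌊(N : ℝ) ^ κ⌋₊ ∧ (⌈Real.log N ^ (B + 5)⌉₊ : ℝ) ≤ T := by
  have hT1 : (1 : ℝ) ≤ T := by linarith
  have hT16 : T ≤ T ^ 16 := le_self_pow₀ hT1 (by norm_num)
  have hz1 : T ^ 16 < (⌊(N : ℝ) ^ κ⌋₊ : ℝ) + 1 := by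
    rw [← h1]
    exact Nat.lt_floor_add_one _
  have hz2 : (⌊(N : ℝ) ^ κ⌋₊ : ℝ) ≤ T ^ 16 := by
    rw [← h1]
    apply Nat.floor_le
    rw [h1]
    positivity
  have hL5 : (2 : ℝ) ≤ Real.log N ^ (B + 5) :=
    h4.trans (le_self_pow₀ (by linarith) (by omega))
  have hJ1 : Real.log N ^ (B + 5) ≤ (⌈Real.log N ^ (B + 5)⌉₊ : ℝ) := Nat.le_ceil _
  have hJ2 : (⌈Real.log N ^ (B + 5)⌉₊ : ℝ) < Real.log N ^ (B + 5) + 1 :=
    Nat.ceil_lt_add_one (by linarith)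
  have hL6 : Real.log N ^ (B + 5) ≤ Real.log N ^ (B + 6) :=
    pow_le_pow_right₀ (by linarith) (by omega)
  have hz3 : T ^ 16 / 2 ≤ (⌊(N : ℝ) ^ κ⌋₊ : ℝ) := by linarith
  have hJT : (⌈Real.log N ^ (B + 5)⌉₊ : ℝ) ≤ T := by linarith
  have hTT : 8 * T ≤ T ^ 16 := by
    have : T ^ 2 ≤ T ^ 16 := pow_le_pow_right₀ hT1 (by norm_num)
    nlinarith
  refine ⟨?_, ?_, ?_, ?_, hJ1, by linarith, hz3, hJT⟩
  · have : (4 : ℝ) ≤ (⌊(N : ℝ) ^ κ⌋₊ : ℝ) := by linarith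
    exact_mod_cast this
  · have : (2 : ℝ) ≤ (⌈Real.log N ^ (B + 5)⌉₊ : ℝ) := by linarith
    exact_mod_cast this
  · have : (⌈Real.log N ^ (B + 5)⌉₊ : ℝ) ≤ (⌊(N : ℝ) ^ κ⌋₊ : ℝ) := by linarith
    exact_mod_cast this
  · have : (⌊(N : ℝ) ^ κ⌋₊ : ℝ) ≤ (N : ℝ) := by linarith
    exact_mod_cast this

end Pool.Agent.Lib.MP_629a14_nt.Rob.QAux
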