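import Pool.Agent.Lib.MP_629a14_nt.Rob.Blocks
import Pool.Agent.Lib.MP_629a14_nt.Rob.BT
import Pool.Agent.Lib.MP_629a14_nt.Rob.QBilAux

/-! Bilinear bound near rationals with denominators at most a power of log N: saving in q. -/

set_option autoImplicit false

namespace Pool.Agent.Lib.MP_629a14_nt.Rob

open Finset Pool.Agent.Lib.MP_629a14_nt

/-- Auxiliary: the bilinear form with kernel `e(a b b' / q)` has norm at most `√q`. -/
theorem kernel (q : ℕ) (a : ℤ) (hq : 1 ≤ q) (ha : IsCoprime a (q : ℤ)) (F G : ℕ → ℂ) :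
    ‖∑ b ∈ range q, ∑ b' ∈ range q, F b * G b' * ee ((a : ℝ) * b * b' / q)‖ ^ 2 ≤
      q * (∑ b ∈ range q, ‖F b‖ ^ 2) * ∑ b ∈ range q, ‖G b‖ ^ 2 := by
  set H : ℕ → ℂ := fun b => ∑ b' ∈ range q, G b' * ee ((a : ℝ) * b * b' / q) with hH
  have hq0 : (q : ℝ) ≠ 0 := by
    have : (0 : ℝ) < q := by exact_mod_cast hq
    exact this.ne'
  have e1 : ∑ b ∈ range q, ∑ b' ∈ range q, F b * G b' * ee ((a : ℝ) * b * b' / q) =
      ∑ b ∈ range q, F b * H b := by
    refine sum_congr rfl fun b _ => ?_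
    rw [hH, mul_sum]
    refine sum_congr rfl fun b' _ => ?_
    ring
  have e2 : ∑ b ∈ range q, ‖H b‖ ^ 2 = q * ∑ b ∈ range q, ‖G b‖ ^ 2 := by
    have h1 : ((∑ b ∈ range q, ‖H b‖ ^ 2 : ℝ) : ℂ) =
        ∑ b'' ∈ range q, ∑ b' ∈ range q, (G b' * (starRingEnd ℂ) (G b'')) *
          ∑ b ∈ range q, ee ((b : ℝ) * (((a * ((b' : ℤ) - b'') : ℤ) : ℝ) / q)) := by
      rw [Complex.ofReal_sum]
      have h2 : ∀ b ∈ range q, ((‖H b‖ ^ 2 : ℝ) : ℂ) =
          ∑ b'' ∈ range q, ∑ b' ∈ range q, (G b' * (starRingEnd ℂ) (G b'')) *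
            ee ((b : ℝ) * (((a * ((b' : ℤ) - b'') : ℤ) : ℝ) / q)) := by
        intro b _
        rw [Complex.ofReal_pow, ← Complex.mul_conj', hH, map_sum, sum_mul_sum, sum_comm]
        refine sum_congr rfl fun b'' _ => sum_congr rfl fun b' _ => ?_
        rw [map_mul, conj_ee]
        have : ee ((b : ℝ) * (((a * ((b' : ℤ) - b'') : ℤ) : ℝ) / q)) =
            ee ((a : ℝ) * b * b' / q) * ee (-((a : ℝ) * b * b'' / q)) := by
          rw [← ee_add]
          congr 1
          push_cast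
          ring
        rw [this]
        ring
      rw [sum_congr rfl h2, sum_comm]
      refine sum_congr rfl fun b'' _ => ?_
      rw [sum_comm]
      refine sum_congr rfl fun b' _ => ?_
      rw [mul_sum]
    have h3 : ∀ b'' ∈ range q, ∑ b' ∈ range q, (G b' * (starRingEnd ℂ) (G b'')) *
          ∑ b ∈ range q, ee ((b : ℝ) * (((a * ((b' : ℤ) - b'') : ℤ) : ℝ) / q)) =
        (q : ℂ) * ((‖G b''‖ ^ 2 : ℝ) : ℂ) := by
      intro b'' hb''
      rw [sum_eq_single_of_mem b'' hb'']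
      · rw [sum_ee_range q hq, if_pos (by simp), Complex.ofReal_pow, ← Complex.mul_conj']
        ring
      · intro b' hb' hne
        rw [sum_ee_range q hq, if_neg, mul_zero]
        intro hd
        have hd' : (q : ℤ) ∣ (b' : ℤ) - b'' := ha.symm.dvd_of_dvd_mul_left hd
        have h5 : ((b' : ℤ) - b'').natAbs < q := by
          rw [mem_range] at hb' hb''
          omega
        have h6 := Int.eq_zero_of_abs_lt_dvd hd' (by
          rw [Int.abs_eq_natAbs]
          exact_mod_cast h5)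
        apply hne
        omega
    rw [sum_congr rfl h3, ← mul_sum, ← Complex.ofReal_sum] at h1
    exact_mod_cast h1
  rw [e1]
  calc ‖∑ b ∈ range q, F b * H b‖ ^ 2 ≤ (∑ b ∈ range q, ‖F b‖ * ‖H b‖) ^ 2 := by
        gcongr
        refine (norm_sum_le _ _).trans (sum_le_sum fun b _ => ?_)
        rw [norm_mul]
    _ ≤ (∑ b ∈ range q, ‖F b‖ ^ 2) * ∑ b ∈ range q, ‖H b‖ ^ 2 := sum_mul_sq_le_sq_mul_sq _ _ _
    _ = q * (∑ b ∈ range q, ‖F b‖ ^ 2) * ∑ b ∈ range q, ‖G b‖ ^ 2 := by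
        rw [e2]
        ring

/-- a bound for the sum of the squares over the residues -/
private theorem sum_sq_le (q : ℕ) (F : ℕ → ℂ) (K : ℝ)
    (h1 : ∀ b ∈ range q, Nat.Coprime b q → ‖F b‖ ≤ K)
    (h2 : ∀ b ∈ range q, ¬ Nat.Coprime b q → F b = 0) :
    ∑ b ∈ range q, ‖F b‖ ^ 2 ≤ q.totient * K ^ 2 := by
  have h3 : ∑ b ∈ range q, ‖F b‖ ^ 2 ≤
      ∑ b ∈ range q, if Nat.Coprime q b then K ^ 2 else 0 := by
    refine sum_le_sum fun b hb => ?_
    by_cases hc : Nat.Coprime b q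
    · rw [if_pos hc.symm]
      exact pow_le_pow_left₀ (norm_nonneg _) (h1 b hb hc) 2
    · rw [if_neg (fun h => hc h.symm), h2 b hb hc]
      simp
  refine h3.trans (le_of_eq ?_)
  rw [← sum_filter, sum_const, nsmul_eq_mul]
  rfl

private theorem coprime_of_rough {z m q : ℕ} (hq : 1 ≤ q) (hqz : q < z) (hm : Rough z m) :
    Nat.Coprime m q := by
  by_contra hc
  obtain ⟨r, hr, h1, h2⟩ := Nat.Prime.not_coprime_iff_dvd.1 hc
  have h3 := hm r hr h1
  have h4 := Nat.le_of_dvd (by omega) h2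
  omega

private theorem coprime_mod {m q : ℕ} (h : Nat.Coprime m q) : Nat.Coprime (m % q) q := by
  rw [Nat.Coprime, ← Nat.gcd_rec, Nat.gcd_comm]
  exact h

/-- the main term of a block -/
private theorem block_main {N z J q : ℕ} {a : ℤ} {C L : ℝ} (hz : 1 ≤ z) (hJ : 1 ≤ J) (hJz : J ≤ z)
    (hq : 1 ≤ q) (hqz : q < z) (ha : IsCoprime a (q : ℤ)) (hC : 0 < C) (hL : 0 < L)
    (hbt : ∀ y h b : ℕ, Nat.Coprime b q → (z : ℝ) / J ≤ h →
      (cntR y h q b z : ℝ) ≤ C * ((h : ℝ) / ((q.totient : ℝ) * L)))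
    (f g : ℕ → ℂ) (hf : ∀ p, ‖f p‖ ≤ 1) (hg : Adm z g) (β : ℝ) (i j : ℕ) :
    ‖∑ p ∈ bl z J i j, ∑ m ∈ Icc 1 (N / Ps z J i j), f p * g m * ee ((p : ℝ) * m * (a / q)) *
      ee ((Ps z J i j : ℝ) * m * β)‖ ≤
      C ^ 2 * (Real.sqrt q / q.totient) * (2 * N / J) / L ^ 2 := by
  have hJ0 : (0 : ℝ) < J := by exact_mod_cast hJ
  have hq0 : (0 : ℝ) < q := by exact_mod_cast hq
  have hφ : (0 : ℝ) < q.totient := by exact_mod_cast Nat.totient_pos.2 hq
  set P := Ps z J i j with hP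
  set Y := N / P with hY
  set h := hs z J i with hh
  have hzP : z ≤ P := (QAux.le_Xs i).trans (QAux.Xs_le_Ps z J i j)
  have hrhs : 0 ≤ C ^ 2 * (Real.sqrt q / q.totient) * (2 * N / J) / L ^ 2 := by positivity
  rcases lt_or_ge Y z with hYz | hYz
  · have h0 : ∑ p ∈ bl z J i j, ∑ m ∈ Icc 1 Y, f p * g m * ee ((p : ℝ) * m * (a / q)) *
        ee ((P : ℝ) * m * β) = 0 := by
      apply sum_eq_zero
      intro p _
      apply sum_eq_zero
      intro m hm
      have : g m = 0 := by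
        by_contra hne
        have h1 := hg.le hne
        have h2 := (mem_Icc.1 hm).2
        omega
      rw [this]
      ring
    rw [h0, norm_zero]
    exact hrhs
  set F : ℕ → ℂ := fun b => ∑ p ∈ (bl z J i j).filter (fun p => p % q = b), f p with hF
  set G : ℕ → ℂ := fun b => ∑ m ∈ (Icc 1 Y).filter (fun m => m % q = b),
    g m * ee ((P : ℝ) * m * β) with hG
  have e1 : ∑ p ∈ bl z J i j, ∑ m ∈ Icc 1 Y, f p * g m * ee ((p : ℝ) * m * (a / q)) *
        ee ((P : ℝ) * m * β) =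
      ∑ b ∈ range q, ∑ b' ∈ range q, F b * G b' * ee ((a : ℝ) * b * b' / q) := by
    have hphase : ∀ p m : ℕ, ee ((p : ℝ) * m * (a / q)) =
        ee ((a : ℝ) * ((p % q : ℕ) : ℝ) * ((m % q : ℕ) : ℝ) / q) := by
      intro p m
      obtain ⟨p1, hp1⟩ : ∃ x : ℕ, x = p / q := ⟨_, rfl⟩
      obtain ⟨m1, hm1⟩ : ∃ x : ℕ, x = m / q := ⟨_, rfl⟩
      obtain ⟨p0, hp0⟩ : ∃ x : ℕ, x = p % q := ⟨_, rfl⟩
      obtain ⟨m0, hm0⟩ : ∃ x : ℕ, x = m % q := ⟨_, rfl⟩
      have h1 : (p : ℝ) = q * (p1 : ℝ) + (p0 : ℝ) := by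
        rw [hp1, hp0]
        exact_mod_cast (Nat.div_add_mod p q).symm
      have h2 : (m : ℝ) = q * (m1 : ℝ) + (m0 : ℝ) := by
        rw [hm1, hm0]
        exact_mod_cast (Nat.div_add_mod m q).symm
      rw [← hp0, ← hm0]
      have h4 : (p : ℝ) * m = q * ((p1 : ℝ) * m + (p0 : ℝ) * (m1 : ℝ)) + (p0 : ℝ) * (m0 : ℝ) := by
        calc (p : ℝ) * m = (q * (p1 : ℝ) + (p0 : ℝ)) * m := by rw [← h1]
          _ = q * (p1 : ℝ) * m + (p0 : ℝ) * m := by ring
          _ = q * (p1 : ℝ) * m + (p0 : ℝ) * (q * (m1 : ℝ) + (m0 : ℝ)) := by rw [← h2]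
          _ = _ := by ring
      have h3 : (p : ℝ) * m * (a / q) = (a : ℝ) * (p0 : ℝ) * (m0 : ℝ) / q +
          ((a * ((p1 : ℤ) * m + (p0 : ℤ) * (m1 : ℤ)) : ℤ) : ℝ) := by
        rw [h4]
        push_cast
        field_simp
        ring
      rw [h3, ee_add, ee_int, mul_one]
    have hmt : ∀ x : ℕ, x % q ∈ range q := fun x => mem_range.2 (Nat.mod_lt _ hq)
    calc ∑ p ∈ bl z J i j, ∑ m ∈ Icc 1 Y, f p * g m * ee ((p : ℝ) * m * (a / q)) *
          ee ((P : ℝ) * m * β)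
        = ∑ b ∈ range q, ∑ p ∈ (bl z J i j).filter (fun p => p % q = b),
            ∑ b' ∈ range q, ∑ m ∈ (Icc 1 Y).filter (fun m => m % q = b'),
              f p * g m * ee ((p : ℝ) * m * (a / q)) * ee ((P : ℝ) * m * β) := by
          rw [sum_fiberwise_of_maps_to (fun p _ => hmt p)]
          refine sum_congr rfl fun p _ => ?_
          rw [sum_fiberwise_of_maps_to (fun m _ => hmt m)]
      _ = ∑ b ∈ range q, ∑ b' ∈ range q, F b * G b' * ee ((a : ℝ) * b * b' / q) := by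
          refine sum_congr rfl fun b _ => ?_
          rw [sum_comm]
          refine sum_congr rfl fun b' _ => ?_
          rw [hF, hG, sum_mul_sum, sum_mul]
          refine sum_congr rfl fun p hp => ?_
          rw [sum_mul]
          refine sum_congr rfl fun m hm => ?_
          rw [hphase, (mem_filter.1 hp).2, (mem_filter.1 hm).2]
          ring
  have hzJ : (z : ℝ) / J ≤ h := by
    refine le_trans ?_ (QAux.le_hs (z := z) (i := i) hJ)
    apply div_le_div_of_nonneg_right _ hJ0.le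
    exact_mod_cast QAux.le_Xs i
  have hYb : (z : ℝ) / J ≤ Y := by
    have h1 : (z : ℝ) / J ≤ z := div_le_self (by positivity) (by exact_mod_cast hJ)
    exact h1.trans (by exact_mod_cast hYz)
  have hFs : ∑ b ∈ range q, ‖F b‖ ^ 2 ≤ q.totient * (C * ((h : ℝ) / ((q.totient : ℝ) * L))) ^ 2 := by
    apply sum_sq_le
    · intro b hb hc
      rw [hF]
      have h1 : ‖∑ p ∈ (bl z J i j).filter (fun p => p % q = b), f p‖ ≤
          (((bl z J i j).filter (fun p => p % q = b)).card : ℝ) := by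
        refine (norm_sum_le _ _).trans ?_
        calc ∑ p ∈ (bl z J i j).filter (fun p => p % q = b), ‖f p‖
            ≤ ∑ p ∈ (bl z J i j).filter (fun p => p % q = b), (1 : ℝ) :=
              sum_le_sum fun p _ => hf p
          _ = _ := by simp
      refine h1.trans ?_
      refine le_trans ?_ (hbt (P - 1) h b hc hzJ)
      have h2 := primes_le_cntR (P - 1) h q b z (by omega)
      have h3 : (bl z J i j).filter (fun p => p % q = b) ⊆
          (Ioc (P - 1) (P - 1 + h)).filter (fun p => p.Prime ∧ p ≡ b [MOD q]) := by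
        intro p hp
        rw [mem_filter] at hp
        obtain ⟨k1, k2, k3⟩ := QAux.mem_bl hp.1
        rw [mem_filter, mem_Ioc]
        refine ⟨⟨by omega, by omega⟩, k1, ?_⟩
        rw [Nat.ModEq, hp.2, Nat.mod_eq_of_lt (mem_range.1 hb)]
      exact_mod_cast (card_le_card h3).trans h2
    · intro b hb hc
      rw [hF]
      apply sum_eq_zero
      intro p hp
      exfalso
      rw [mem_filter] at hp
      obtain ⟨k1, k2, k3⟩ := QAux.mem_bl hp.1
      apply hc
      rw [← hp.2]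
      apply coprime_mod
      rw [Nat.Prime.coprime_iff_not_dvd k1]
      intro hd
      have := Nat.le_of_dvd hq hd
      omega
  have hGs : ∑ b ∈ range q, ‖G b‖ ^ 2 ≤ q.totient * (C * ((Y : ℝ) / ((q.totient : ℝ) * L))) ^ 2 := by
    apply sum_sq_le
    · intro b hb hc
      rw [hG]
      have h1 : ‖∑ m ∈ (Icc 1 Y).filter (fun m => m % q = b), g m * ee ((P : ℝ) * m * β)‖ ≤
          ∑ m ∈ (Icc 1 Y).filter (fun m => m % q = b), if Rough z m then (1 : ℝ) else 0 := by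
        refine (norm_sum_le _ _).trans (sum_le_sum fun m _ => ?_)
        rw [norm_mul, norm_ee, mul_one]
        by_cases hr : Rough z m
        · rw [if_pos hr]
          exact (hg m).1
        · rw [if_neg hr]
          have : g m = 0 := by
            by_contra hne
            exact hr ((hg m).2 hne).2
          rw [this, norm_zero]
      refine h1.trans ?_
      refine le_trans ?_ (hbt 0 Y b hc hYb)
      rw [← sum_filter, sum_const, nsmul_eq_mul, mul_one, filter_filter]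
      unfold cntR
      have h3 : (Icc 1 Y).filter (fun m => m % q = b ∧ Rough z m) ⊆
          (Ioc 0 (0 + Y)).filter (fun n => n ≡ b [MOD q] ∧ Rough z n) := by
        intro m hm
        rw [mem_filter, mem_Icc] at hm
        rw [mem_filter, mem_Ioc]
        refine ⟨⟨by omega, by omega⟩, ?_, hm.2.2⟩
        rw [Nat.ModEq, hm.2.1, Nat.mod_eq_of_lt (mem_range.1 hb)]
      exact_mod_cast card_le_card h3
    · intro b hb hc
      rw [hG]
      apply sum_eq_zero
      intro m hm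
      rw [mem_filter] at hm
      have : g m = 0 := by
        by_contra hne
        apply hc
        rw [← hm.2]
        exact coprime_mod (coprime_of_rough hq hqz ((hg m).2 hne).2)
      rw [this, zero_mul]
  have hk := kernel q a hq ha F G
  rw [e1]
  have hhY : (h : ℝ) * Y ≤ 2 * N / J := QAux.hY_le hz hJ hJz
  have hsq : ‖∑ b ∈ range q, ∑ b' ∈ range q, F b * G b' * ee ((a : ℝ) * b * b' / q)‖ ^ 2 ≤
      (C ^ 2 * (Real.sqrt q / q.totient) * ((h : ℝ) * Y) / L ^ 2) ^ 2 := by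
    refine hk.trans ?_
    calc (q : ℝ) * (∑ b ∈ range q, ‖F b‖ ^ 2) * ∑ b ∈ range q, ‖G b‖ ^ 2
        ≤ q * (q.totient * (C * ((h : ℝ) / ((q.totient : ℝ) * L))) ^ 2) *
          (q.totient * (C * ((Y : ℝ) / ((q.totient : ℝ) * L))) ^ 2) := by
          gcongr
      _ = (Real.sqrt q) ^ 2 * (q.totient * (C * ((h : ℝ) / ((q.totient : ℝ) * L))) ^ 2) *
          (q.totient * (C * ((Y : ℝ) / ((q.totient : ℝ) * L))) ^ 2) := by
          rw [Real.sq_sqrt hq0.le]
      _ = (C ^ 2 * (Real.sqrt q / q.totient) * ((h : ℝ) * Y) / L ^ 2) ^ 2 := by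
          field_simp
  have hle := abs_le_of_sq_le_sq hsq (by positivity)
  rw [abs_of_nonneg (norm_nonneg _)] at hle
  refine hle.trans ?_
  gcongr

/-- `J = ⌈(log N)^(B+5)⌉`, `blocks`. In the block `(i, j)` (`P = Ps`, `h = hs ≤ 2 X / J`, `Y = N / P`)
replace `e(p m β)` by `e(P m β)`: error at most `2π |β| h Y ≤ 13 (log N)^B / J` for each pair, at most
`h Y` pairs. Then sort by residues modulo `q` and use `kernel` with
`F b = ∑_{p ≡ b} f p`, `G b' = ∑_{m ≡ b', m ≤ Y} g m e(P m β)`; by `bt` (and `primes_le_cntR`)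
`‖F b‖ ≤ C h / (φ(q) L)`, `‖G b'‖ ≤ C Y / (φ(q) L)`, both zero if `b` is not prime to `q`
(`z > q`), and `G = 0` if `Y < z`. The block is at most `C √q / φ(q) * h Y / L^2`; sum over `j`:
`J h ≤ 2 X`, `Y ≤ N / X`; sum over `i`: at most `2 L` values. -/
theorem qbil (κ : ℝ) (hκ : 0 < κ) (hκ1 : κ ≤ 1) (B : ℕ) : ∃ C : ℝ, 0 < C ∧ ∃ N₀ : ℕ,
    ∀ N : ℕ, N₀ ≤ N → ∀ q : ℕ, ∀ a : ℤ, 1 ≤ q → (q : ℝ) ≤ Real.log N ^ B → IsCoprime a (q : ℤ) →
      ∀ β : ℝ, |β| * N ≤ Real.log N ^ B → ∀ f g : ℕ → ℂ, (∀ p, ‖f p‖ ≤ 1) →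
        Adm ⌊(N : ℝ) ^ κ⌋₊ g →
        ‖GS N ⌊(N : ℝ) ^ κ⌋₊ f g (a / q + β)‖ ≤
          C * (Real.sqrt q / q.totient * (N / Real.log N) + N / Real.log N ^ 2) := by
  obtain ⟨C1, hC1, hbl⟩ := blocks
  obtain ⟨C2, hC2, N2, hbt⟩ := bt κ hκ hκ1
  obtain ⟨N3, hN3⟩ := QAux.facts κ hκ hκ1 B
  refine ⟨3 * C1 + 24 * Real.pi + 6 * C2 ^ 2, by positivity, max N2 N3, ?_⟩
  intro N hN q a hq hqL ha β hβ f g hf hg
  obtain ⟨T, hT1, hT2, hT3, hT4, hT5, hL2, hT6, hlog, hN1⟩ := hN3 N (le_trans (le_max_right _ _) hN)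
  obtain ⟨hz4, hJ2, hJz, hzN, hJL, hJL2, hzT, hJT⟩ := QAux.facts2 (B := B) hT3 hT4 hT5 hL2 hT6
  set z := ⌊(N : ℝ) ^ κ⌋₊ with hz
  set J := ⌈Real.log N ^ (B + 5)⌉₊ with hJ
  set L := Real.log N with hL
  have hL0 : 0 < L := by linarith
  have hN0 : (0 : ℝ) < N := by exact_mod_cast hN1
  have hJ0 : (0 : ℝ) < J := by exact_mod_cast (show 0 < J by omega)
  have hLB : L ^ B ≤ T := by
    have h1 : L ^ B ≤ L ^ (B + 6) := pow_le_pow_right₀ (by linarith) (by omega)
    have h2 : 0 ≤ L ^ (B + 6) := by positivity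
    linarith
  have hTT : T ≤ T ^ 16 / 2 := by
    have : T ^ 2 ≤ T ^ 16 := pow_le_pow_right₀ (by linarith) (by norm_num)
    nlinarith
  have hqz : q < z := by
    have : (q : ℝ) < z := by
      have h1 : (T : ℝ) < T ^ 16 / 2 := by
        have : T ^ 2 ≤ T ^ 16 := pow_le_pow_right₀ (by linarith) (by norm_num)
        nlinarith
      linarith
    exact_mod_cast this
  have hbt' : ∀ y h b : ℕ, Nat.Coprime b q → (z : ℝ) / J ≤ h →
      (cntR y h q b z : ℝ) ≤ C2 * ((h : ℝ) / ((q.totient : ℝ) * L)) := by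
    intro y h b hc hh
    apply hbt N (le_trans (le_max_left _ _) hN) y h q b hq (by rw [hT1]; linarith) hc
    rw [hT2]
    refine le_trans ?_ hh
    rw [le_div_iff₀ hJ0]
    calc T ^ 8 * J ≤ T ^ 8 * T := by gcongr
      _ = T ^ 9 := by ring
      _ ≤ T ^ 16 / 2 := by
        have h1 : T ^ 10 ≤ T ^ 16 := pow_le_pow_right₀ (by linarith) (by norm_num)
        have h2 : T ^ 10 = T ^ 9 * T := by ring
        have h3 : 0 ≤ T ^ 9 := by positivity
        nlinarith
      _ ≤ z := hzT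
  -- the blocks
  have s1 := hbl N z J hz4 hJ2 hJz hzN f g (a / q + β) hf hg
  have s1' : ‖GS N z f g (a / q + β) - BS N z J f g (a / q + β)‖ ≤ 3 * C1 * (N / L ^ 2) := by
    refine s1.trans ?_
    have h1 : (N : ℝ) * (1 + L) / J ≤ 2 * (N / L ^ 2) := by
      have h2 : L ^ 3 ≤ J := by
        refine le_trans ?_ hJL
        exact pow_le_pow_right₀ (by linarith) (by omega)
      rw [div_le_iff₀ hJ0]
      calc (N : ℝ) * (1 + L) ≤ N * (2 * L) := by gcongr; linarith
        _ = 2 * (N / L ^ 2) * L ^ 3 := by field_simp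
        _ ≤ 2 * (N / L ^ 2) * J := by gcongr
    have h3 : (N : ℝ) / z ≤ N / L ^ 2 := by
      apply div_le_div_of_nonneg_left hN0.le (by positivity)
      have h4 : L ^ 2 ≤ L ^ (B + 6) := pow_le_pow_right₀ (by linarith) (by omega)
      have h5 : 0 ≤ L ^ (B + 6) := by positivity
      linarith
    have h6 : 0 ≤ (N : ℝ) / L ^ 2 := by positivity
    nlinarith
  -- the smooth phase
  set c : ℕ → ℕ → ℂ := fun p m => f p * g m * ee ((p : ℝ) * m * (a / q)) with hc
  have hc1 : ∀ p m, ‖c p m‖ ≤ 1 := by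
    intro p m
    rw [hc]
    simp only
    rw [norm_mul, norm_ee, mul_one, norm_mul]
    calc ‖f p‖ * ‖g m‖ ≤ 1 * 1 := mul_le_mul (hf p) (hg m).1 (norm_nonneg _) zero_le_one
      _ = 1 := one_mul 1
  have hBS : BS N z J f g (a / q + β) = ∑ i ∈ range (Nat.log 2 N + 1), ∑ j ∈ range J,
      ∑ p ∈ bl z J i j, ∑ m ∈ Icc 1 (N / Ps z J i j), c p m * ee ((p : ℝ) * m * β) := by
    unfold BS
    refine sum_congr rfl fun i _ => sum_congr rfl fun j _ => sum_congr rfl fun p _ =>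
      sum_congr rfl fun m _ => ?_
    rw [hc]
    simp only
    rw [mul_assoc (f p * g m), ← ee_add]
    congr 2
    ring
  have s2 := QAux.replace (N := N) (z := z) (J := J) (by omega) (by omega) hJz c hc1 β
  rw [← hBS] at s2
  set M : ℂ := ∑ i ∈ range (Nat.log 2 N + 1), ∑ j ∈ range J, ∑ p ∈ bl z J i j,
        ∑ m ∈ Icc 1 (N / Ps z J i j), c p m * ee ((Ps z J i j : ℝ) * m * β) with hM
  have s2' : ‖BS N z J f g (a / q + β) - M‖ ≤ 24 * Real.pi * (N / L ^ 2) := by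
    refine s2.trans ?_
    have h1 : |β| * N / J ≤ 1 / L ^ 3 := by
      rw [div_le_div_iff₀ hJ0 (by positivity), one_mul]
      calc |β| * N * L ^ 3 ≤ L ^ B * L ^ 3 := by gcongr
        _ = L ^ (B + 3) := by rw [pow_add]
        _ ≤ L ^ (B + 5) := pow_le_pow_right₀ (by linarith) (by omega)
        _ ≤ J := hJL
    calc ((Nat.log 2 N + 1 : ℕ) : ℝ) * (8 * Real.pi * N * (|β| * N) / J)
        = ((Nat.log 2 N + 1 : ℕ) : ℝ) * (8 * Real.pi * N * (|β| * N / J)) := by ring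
      _ ≤ (3 * L) * (8 * Real.pi * N * (1 / L ^ 3)) := by
          gcongr
      _ = 24 * Real.pi * (N / L ^ 2) := by
          field_simp
          ring
  have s3 : ‖M‖ ≤ 6 * C2 ^ 2 * (Real.sqrt q / q.totient * (N / L)) := by
    have h1 : ‖M‖ ≤ ∑ i ∈ range (Nat.log 2 N + 1), ∑ j ∈ range J,
        C2 ^ 2 * (Real.sqrt q / q.totient) * (2 * N / J) / L ^ 2 := by
      rw [hM]
      refine (norm_sum_le _ _).trans (sum_le_sum fun i _ => ?_)
      refine (norm_sum_le _ _).trans (sum_le_sum fun j _ => ?_)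
      exact block_main (by omega) (by omega) hJz hq hqz ha hC2 hL0 hbt' f g hf hg β i j
    refine h1.trans ?_
    rw [sum_const, sum_const, card_range, card_range, nsmul_eq_mul, nsmul_eq_mul]
    calc ((Nat.log 2 N + 1 : ℕ) : ℝ) *
          (J * (C2 ^ 2 * (Real.sqrt q / q.totient) * (2 * N / J) / L ^ 2))
        ≤ (3 * L) * (J * (C2 ^ 2 * (Real.sqrt q / q.totient) * (2 * N / J) / L ^ 2)) := by
          gcongr
      _ = 6 * C2 ^ 2 * (Real.sqrt q / q.totient * (N / L)) := by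
          field_simp
          ring
  have h7 : GS N z f g (a / q + β) = (GS N z f g (a / q + β) - BS N z J f g (a / q + β)) +
      (BS N z J f g (a / q + β) - M) + M := by ring
  have h8 : 0 ≤ (N : ℝ) / L ^ 2 := by positivity
  have h9 : 0 ≤ Real.sqrt q / q.totient * ((N : ℝ) / L) := by positivity
  have hpi := Real.pi_pos
  calc ‖GS N z f g (a / q + β)‖
      ≤ 3 * C1 * (N / L ^ 2) + 24 * Real.pi * (N / L ^ 2) +
        6 * C2 ^ 2 * (Real.sqrt q / q.totient * (N / L)) := by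
        rw [h7]
        refine (norm_add₃_le).trans ?_
        linarith
    _ ≤ (3 * C1 + 24 * Real.pi + 6 * C2 ^ 2) *
        (Real.sqrt q / q.totient * (N / L) + N / L ^ 2) := by
        have k1 : 0 ≤ (3 * C1 + 24 * Real.pi) * (Real.sqrt q / q.totient * ((N : ℝ) / L)) := by
          positivity
        have k2 : 0 ≤ 6 * C2 ^ 2 * ((N : ℝ) / L ^ 2) := by positivity
        nlinarith

end Pool.Agent.Lib.MP_629a14_nt.Rob
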