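import Mathlib

/-! A lower bound for Euler's function. -/

set_option autoImplicit false

namespace Pool.Agent.Lib.MP_629a14_nt.Rob

open Finset

private noncomputable def hP (p : ℕ) : ℝ := (p : ℝ) * (1 - (p : ℝ)⁻¹) ^ 4

private lemma hP_nonneg (p : ℕ) : 0 ≤ hP p := by
  unfold hP
  have : 0 ≤ (1 - (p : ℝ)⁻¹) ^ 4 := by positivity
  exact mul_nonneg (Nat.cast_nonneg p) this

private lemma hP_ge {p : ℕ} (hp : 5 ≤ p) : 1 ≤ hP p := by
  have h5 : (5 : ℝ) ≤ p := by exact_mod_cast hp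
  have h1 : (p : ℝ)⁻¹ ≤ 1 / 5 := by
    rw [inv_eq_one_div]
    exact one_div_le_one_div_of_le (by norm_num) h5
  have h2 : (4 / 5 : ℝ) ≤ 1 - (p : ℝ)⁻¹ := by linarith
  have h3 : (4 / 5 : ℝ) ^ 4 ≤ (1 - (p : ℝ)⁻¹) ^ 4 := pow_le_pow_left₀ (by norm_num) h2 4
  unfold hP
  calc (1 : ℝ) ≤ 5 * (4 / 5 : ℝ) ^ 4 := by norm_num
    _ ≤ p * (1 - (p : ℝ)⁻¹) ^ 4 := mul_le_mul h5 h3 (by norm_num) (by linarith)

private lemma erase_le (S : Finset ℕ) (a : ℕ) {c : ℝ} (hc : c ≤ hP a) (hc1 : c ≤ 1) :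
    c * ∏ p ∈ S.erase a, hP p ≤ ∏ p ∈ S, hP p := by
  have h0 : 0 ≤ ∏ p ∈ S.erase a, hP p := prod_nonneg fun p _ => hP_nonneg p
  by_cases h : a ∈ S
  · rw [← mul_prod_erase S hP h]
    exact mul_le_mul_of_nonneg_right hc h0
  · rw [erase_eq_of_notMem h] at h0 ⊢
    nlinarith

private lemma prod_ge (S : Finset ℕ) (hS : ∀ p ∈ S, p.Prime) : 1 / 16 ≤ ∏ p ∈ S, hP p := by
  have h2 := erase_le S 2 (c := 1 / 8) (by unfold hP; norm_num) (by norm_num)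
  have h3 := erase_le (S.erase 2) 3 (c := 16 / 27) (by unfold hP; norm_num) (by norm_num)
  have h5 : 1 ≤ ∏ p ∈ (S.erase 2).erase 3, hP p := by
    calc (1 : ℝ) = ∏ p ∈ (S.erase 2).erase 3, 1 := by rw [prod_const_one]
      _ ≤ _ := by
        refine prod_le_prod (fun _ _ => zero_le_one) fun p hp => ?_
        rw [mem_erase, mem_erase] at hp
        obtain ⟨h3, h2, hpS⟩ := hp
        have hpp := hS p hpS
        refine hP_ge ?_
        have := hpp.two_le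
        by_contra hc
        have h4 : p = 4 := by omega
        rw [h4] at hpp
        exact absurd hpp (by norm_num)
  linarith

private lemma cube_le (q : ℕ) (hq : 1 ≤ q) : (q : ℝ) ^ 3 ≤ (2 * (q.totient : ℝ)) ^ 4 := by
  have hq0 : (0 : ℝ) < q := by exact_mod_cast hq
  have h1 : (q.totient : ℝ) = q * ∏ p ∈ q.primeFactors, (1 - (p : ℝ)⁻¹) := by
    have := congrArg (fun x : ℚ => (x : ℝ)) (Nat.totient_eq_mul_prod_factors q)
    push_cast at this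
    exact this
  have h2 : ∏ p ∈ q.primeFactors, (p : ℝ) ≤ q := by
    have h3 : ∏ p ∈ q.primeFactors, p ≤ q :=
      Nat.le_of_dvd hq (Nat.prod_primeFactors_dvd q)
    have h3' : ((∏ p ∈ q.primeFactors, p : ℕ) : ℝ) ≤ q := Nat.cast_le.2 h3
    rw [Nat.cast_prod] at h3'
    exact h3'
  have h4 := prod_ge q.primeFactors fun p hp => Nat.prime_of_mem_primeFactors hp
  unfold hP at h4
  rw [prod_mul_distrib, prod_pow] at h4
  have h5 : 0 ≤ (∏ p ∈ q.primeFactors, (1 - (p : ℝ)⁻¹)) ^ 4 := by positivity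
  have h6 := h4.trans (mul_le_mul_of_nonneg_right h2 h5)
  rw [h1]
  have h7 : (0 : ℝ) ≤ (q : ℝ) ^ 3 := by positivity
  calc (q : ℝ) ^ 3 = 16 * (q : ℝ) ^ 3 * (1 / 16) := by ring
    _ ≤ 16 * (q : ℝ) ^ 3 * (q * (∏ p ∈ q.primeFactors, (1 - (p : ℝ)⁻¹)) ^ 4) :=
        mul_le_mul_of_nonneg_left h6 (by positivity)
    _ = _ := by ring

/-- `φ(q)/q^(3/4) = ∏ p^((e-1)/4) (p^(1/4) (1 - 1/p))`; the factors are at least `1` for `p ≥ 5`,
at least `0.59` for `p = 2` and `0.87` for `p = 3`. -/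
theorem qphi (q : ℕ) (hq : 1 ≤ q) : (q : ℝ) ^ (3 / 4 : ℝ) ≤ 2 * q.totient := by
  have hq0 : (0 : ℝ) ≤ q := Nat.cast_nonneg q
  have h := cube_le q hq
  have h1 : ((q : ℝ) ^ (3 / 4 : ℝ)) ^ 4 = (q : ℝ) ^ 3 := by
    rw [← Real.rpow_natCast, ← Real.rpow_mul hq0]
    norm_num
  rw [← h1] at h
  exact (pow_le_pow_iff_left₀ (Real.rpow_nonneg hq0 _) (by positivity) (by norm_num)).1 h

end Pool.Agent.Lib.MP_629a14_nt.Rob
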