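import Pool.Agent.Lib.MP_629a14_nt.Rob.Fund
import Pool.Agent.Lib.MP_629a14_nt.Rob.Geo
import Pool.Agent.Lib.MP_629a14_nt.Restrict

/-! Rough numbers: exponential sums near rationals with small denominators. -/

set_option autoImplicit false

namespace Pool.Agent.Lib.MP_629a14_nt.Rob

open Finset Pool.Agent.Lib.MP_629a14_nt

private theorem srs_rough_cop {z n q : ℕ} (hq : 1 ≤ q) (hqz : q < z) (h : Rough z n) :
    Nat.Coprime n q := by
  by_contra hc
  obtain ⟨p, hp, h1, h2⟩ := Nat.Prime.not_coprime_iff_dvd.mp hc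
  have h3 := h p hp h1
  have h4 := Nat.le_of_dvd hq h2
  omega

private theorem srs_ee_sub (x y : ℝ) : ‖ee x - ee y‖ ≤ 2 * Real.pi * |x - y| := by
  have h1 : ee x - ee y = ee y * (ee (x - y) - 1) := by
    rw [mul_sub, ← ee_add, mul_one]
    congr 2
    ring
  rw [h1, norm_mul, norm_ee, one_mul, norm_ee_sub_one]
  have h2 := Real.abs_sin_le_abs (x := Real.pi * (x - y))
  rw [abs_mul, abs_of_pos Real.pi_pos] at h2
  linarith

private theorem srs_ee_res (a : ℤ) {q n : ℕ} (hq : 1 ≤ q) :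
    ee ((n : ℝ) * ((a : ℝ) / q)) = ee (((n % q : ℕ) : ℝ) * ((a : ℝ) / q)) := by
  have hq' : (q : ℝ) ≠ 0 := by
    have : 0 < q := hq
    positivity
  have h2 : (n : ℝ) = ((n % q : ℕ) : ℝ) + (q : ℝ) * ((n / q : ℕ) : ℝ) := by
    exact_mod_cast (Nat.mod_add_div n q).symm
  have h1 : (n : ℝ) * ((a : ℝ) / q) =
      ((n % q : ℕ) : ℝ) * ((a : ℝ) / q) + ((((n / q : ℕ) : ℤ) * a : ℤ) : ℝ) := by
    rw [Int.cast_mul, Int.cast_natCast]
    calc (n : ℝ) * ((a : ℝ) / q) = (((n % q : ℕ) : ℝ) + (q : ℝ) * ((n / q : ℕ) : ℝ)) *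
          ((a : ℝ) / q) := by rw [← h2]
      _ = _ := by field_simp
  rw [h1, ee_add, ee_int, mul_one]

private theorem srs_sort (a : ℤ) {q z y h : ℕ} (hq : 1 ≤ q) (hqz : q < z) :
    ∑ n ∈ (Ioc y (y + h)).filter (Rough z), ee ((n : ℝ) * ((a : ℝ) / q)) =
      ∑ b ∈ cop q, (cntR y h q b z : ℂ) * ee ((b : ℝ) * ((a : ℝ) / q)) := by
  have hmap : ∀ n ∈ (Ioc y (y + h)).filter (Rough z), n % q ∈ cop q := by
    intro n hn
    rw [mem_filter] at hn
    unfold cop
    rw [mem_filter, mem_range]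
    refine ⟨Nat.mod_lt _ hq, ?_⟩
    have := srs_rough_cop hq hqz hn.2
    unfold Nat.Coprime at this ⊢
    rw [← Nat.gcd_rec, Nat.gcd_comm]
    exact this
  rw [← Finset.sum_fiberwise_of_maps_to hmap]
  refine sum_congr rfl fun b hb => ?_
  have hb' : b < q := by
    unfold cop at hb
    rw [mem_filter, mem_range] at hb
    exact hb.1
  have h1 : ∀ n ∈ ((Ioc y (y + h)).filter (Rough z)).filter (fun n => n % q = b),
      ee ((n : ℝ) * ((a : ℝ) / q)) = ee ((b : ℝ) * ((a : ℝ) / q)) := by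
    intro n hn
    rw [mem_filter] at hn
    rw [srs_ee_res a hq, hn.2]
  rw [sum_congr rfl h1, sum_const, nsmul_eq_mul]
  congr 2
  unfold cntR
  rw [filter_filter]
  congr 1
  ext n
  simp only [mem_filter]
  constructor
  · rintro ⟨h2, h3, h4⟩
    refine ⟨h2, ?_, h3⟩
    unfold Nat.ModEq
    rw [h4, Nat.mod_eq_of_lt hb']
  · rintro ⟨h2, h3, h4⟩
    refine ⟨h2, h4, ?_⟩
    unfold Nat.ModEq at h3
    rw [h3, Nat.mod_eq_of_lt hb']

private theorem srs_ram {q : ℕ} (a : ℤ) (hq : 1 ≤ q) (ha : IsCoprime a (q : ℤ)) :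
    ‖∑ b ∈ cop q, ee ((b : ℝ) * ((a : ℝ) / q))‖ ≤ 1 := by
  have hq' : (q : ℝ) ≠ 0 := by
    have : 0 < q := hq
    positivity
  have hqz : (q : ℤ) ≠ 0 := by positivity
  obtain ⟨n, hn⟩ : ∃ n : ℕ, (n : ℤ) = a % q := ⟨(a % q).toNat, Int.toNat_of_nonneg (Int.emod_nonneg _ hqz)⟩
  have hc : Nat.Coprime n q := by
    rw [← Nat.isCoprime_iff_coprime, hn]
    have h1 : a % q = a + q * (-(a / q)) := by
      have := Int.emod_add_mul_ediv a q
      linarith
    rw [h1]
    exact (IsCoprime.add_mul_left_left ha (-(a / q)))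
  have h2 : (a : ℝ) = n + (q : ℝ) * ((a / (q : ℤ) : ℤ) : ℝ) := by
    have h3 := Int.emod_add_mul_ediv a q
    rw [← hn] at h3
    exact_mod_cast h3.symm
  have h4 : ∀ b ∈ cop q, ee ((b : ℝ) * ((a : ℝ) / q)) = ee ((n : ℝ) * ((b : ℝ) / q)) := by
    intro b _
    have h5 : (b : ℝ) * ((a : ℝ) / q) =
        (n : ℝ) * ((b : ℝ) / q) + ((((b : ℕ) : ℤ) * (a / (q : ℤ)) : ℤ) : ℝ) := by
      rw [Int.cast_mul, Int.cast_natCast]
      calc (b : ℝ) * ((a : ℝ) / q) =
          (b : ℝ) * ((n + (q : ℝ) * ((a / (q : ℤ) : ℤ) : ℝ)) / q) := by rw [← h2]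
        _ = _ := by field_simp
    rw [h5, ee_add, ee_int, mul_one]
  rw [sum_congr rfl h4, ramanujan_coprime hq hc]
  have h6 : |ArithmeticFunction.moebius q| ≤ 1 := ArithmeticFunction.abs_moebius_le_one
  rw [Complex.norm_intCast]
  exact_mod_cast h6

private theorem srs_cop_card (q : ℕ) : (cop q).card = q.totient := by
  unfold cop
  rw [Nat.totient_eq_card_coprime]
  congr 1
  ext b
  simp only [mem_filter, Nat.coprime_comm]

private theorem srs_block (a : ℤ) {q z y h : ℕ} (β m E : ℝ) (hq : 1 ≤ q) (hqz : q < z)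
    (hE : ∀ b ∈ cop q, |(cntR y h q b z : ℝ) - m| ≤ E) :
    ‖∑ n ∈ (Ioc y (y + h)).filter (Rough z), ee ((n : ℝ) * ((a : ℝ) / q + β)) -
      ((m : ℂ) * ∑ b ∈ cop q, ee ((b : ℝ) * ((a : ℝ) / q))) * ee ((y : ℝ) * β)‖ ≤
      q.totient * E + h * (2 * Real.pi * (|β| * h)) := by
  have h1 : ∑ n ∈ (Ioc y (y + h)).filter (Rough z), ee ((n : ℝ) * ((a : ℝ) / q + β)) -
      ((m : ℂ) * ∑ b ∈ cop q, ee ((b : ℝ) * ((a : ℝ) / q))) * ee ((y : ℝ) * β) =
      (∑ b ∈ cop q, (((cntR y h q b z : ℝ) - m : ℝ) : ℂ) * ee ((b : ℝ) * ((a : ℝ) / q))) *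
        ee ((y : ℝ) * β) +
      ∑ n ∈ (Ioc y (y + h)).filter (Rough z), ee ((n : ℝ) * ((a : ℝ) / q)) *
        (ee ((n : ℝ) * β) - ee ((y : ℝ) * β)) := by
    have h2 : ∑ n ∈ (Ioc y (y + h)).filter (Rough z), ee ((n : ℝ) * ((a : ℝ) / q)) *
        (ee ((n : ℝ) * β) - ee ((y : ℝ) * β)) =
        ∑ n ∈ (Ioc y (y + h)).filter (Rough z), ee ((n : ℝ) * ((a : ℝ) / q + β)) -
        (∑ n ∈ (Ioc y (y + h)).filter (Rough z), ee ((n : ℝ) * ((a : ℝ) / q))) *
          ee ((y : ℝ) * β) := by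
      rw [sum_mul, ← sum_sub_distrib]
      refine sum_congr rfl fun n _ => ?_
      rw [mul_sub, ← ee_add]
      congr 2
      ring
    rw [h2, srs_sort a hq hqz]
    have h3 : ∑ b ∈ cop q, (((cntR y h q b z : ℝ) - m : ℝ) : ℂ) * ee ((b : ℝ) * ((a : ℝ) / q)) =
        ∑ b ∈ cop q, (cntR y h q b z : ℂ) * ee ((b : ℝ) * ((a : ℝ) / q)) -
        (m : ℂ) * ∑ b ∈ cop q, ee ((b : ℝ) * ((a : ℝ) / q)) := by
      rw [mul_sum, ← sum_sub_distrib]
      refine sum_congr rfl fun b _ => ?_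
      push_cast
      ring
    rw [h3]
    ring
  rw [h1]
  refine (norm_add_le _ _).trans ?_
  refine add_le_add ?_ ?_
  · rw [norm_mul, norm_ee, mul_one]
    calc ‖∑ b ∈ cop q, (((cntR y h q b z : ℝ) - m : ℝ) : ℂ) * ee ((b : ℝ) * ((a : ℝ) / q))‖
        ≤ ∑ b ∈ cop q, ‖(((cntR y h q b z : ℝ) - m : ℝ) : ℂ) * ee ((b : ℝ) * ((a : ℝ) / q))‖ :=
          norm_sum_le _ _
      _ ≤ ∑ b ∈ cop q, E := by
          refine sum_le_sum fun b hb => ?_
          rw [norm_mul, norm_ee, mul_one, Complex.norm_real, Real.norm_eq_abs]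
          exact hE b hb
      _ = q.totient * E := by rw [sum_const, nsmul_eq_mul, srs_cop_card]
  · calc ‖∑ n ∈ (Ioc y (y + h)).filter (Rough z), ee ((n : ℝ) * ((a : ℝ) / q)) *
        (ee ((n : ℝ) * β) - ee ((y : ℝ) * β))‖
        ≤ ∑ n ∈ (Ioc y (y + h)).filter (Rough z), ‖ee ((n : ℝ) * ((a : ℝ) / q)) *
        (ee ((n : ℝ) * β) - ee ((y : ℝ) * β))‖ := norm_sum_le _ _
      _ ≤ ∑ n ∈ (Ioc y (y + h)).filter (Rough z), 2 * Real.pi * (|β| * h) := by
          refine sum_le_sum fun n hn => ?_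
          rw [norm_mul, norm_ee, one_mul]
          refine (srs_ee_sub _ _).trans ?_
          rw [mem_filter, mem_Ioc] at hn
          have h4 : (n : ℝ) * β - (y : ℝ) * β = ((n : ℝ) - y) * β := by ring
          have h5 : |(n : ℝ) - y| ≤ h := by
            have h6 : (y : ℝ) < n := by exact_mod_cast hn.1.1
            have h7 : (n : ℝ) ≤ y + h := by exact_mod_cast hn.1.2
            rw [abs_of_pos (by linarith)]
            linarith
          rw [h4, abs_mul, mul_comm |(n : ℝ) - y| |β|]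
          have hpi := Real.pi_pos
          exact mul_le_mul_of_nonneg_left (mul_le_mul_of_nonneg_left h5 (abs_nonneg β))
            (by positivity)
      _ ≤ h * (2 * Real.pi * (|β| * h)) := by
          rw [sum_const, nsmul_eq_mul]
          have h8 : (((Ioc y (y + h)).filter (Rough z)).card : ℝ) ≤ h := by
            have h9 : ((Ioc y (y + h)).filter (Rough z)).card ≤ h := by
              refine (card_filter_le _ _).trans ?_
              rw [Nat.card_Ioc]
              omega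
            exact_mod_cast h9
          have hpi := Real.pi_pos
          exact mul_le_mul_of_nonneg_right h8 (by positivity)

private theorem srs_cut (f : ℕ → ℂ) (z h M : ℕ) :
    ∑ n ∈ (Ioc 0 (M * h)).filter (Rough z), f n =
      ∑ k ∈ range M, ∑ n ∈ (Ioc (k * h) (k * h + h)).filter (Rough z), f n := by
  induction M with
  | zero => simp
  | succ M ih =>
    rw [sum_range_succ, ← ih, sum_filter, sum_filter, sum_filter,
      Finset.sum_Ioc_consecutive _ (Nat.zero_le _) (Nat.le_add_right _ _)]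
    congr 2
    ring

/-- the deterministic part -/
private theorem srs_core (a : ℤ) {N q z h : ℕ} (β m E : ℝ) (hq : 1 ≤ q) (hqz : q < z)
    (ha : IsCoprime a (q : ℤ)) (hh : 1 ≤ h) (hhN : h ≤ N) (hβ : |β| * h ≤ 1 / 2) (hm : 0 ≤ m)
    (hE0 : 0 ≤ E)
    (hE : ∀ y : ℕ, ∀ b ∈ cop q, |(cntR y h q b z : ℝ) - m| ≤ E) :
    ‖SR N z ((a : ℝ) / q + β)‖ ≤ m * (2 * (N / h) / (1 + |β| * N)) + N / h * (q.totient * E) +
      N * (2 * Real.pi * (|β| * h)) + h := by
  have hhr : (0 : ℝ) < h := by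
    have : 0 < h := hh
    positivity
  have hNr : (0 : ℝ) < N := lt_of_lt_of_le hhr (by exact_mod_cast hhN)
  set M := N / h with hM
  have hMN : M * h ≤ N := Nat.div_mul_le_self N h
  have hMr : (M : ℝ) ≤ (N : ℝ) / h := by
    rw [le_div_iff₀ hhr]
    exact_mod_cast hMN
  have hrest : N - M * h ≤ h := by
    have := Nat.mod_lt N (show 0 < h from hh)
    have h2 := Nat.mod_add_div N h
    have h3 : h * (N / h) = M * h := by rw [mul_comm]
    omega
  set α := (a : ℝ) / q + β with hα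
  set S := ∑ b ∈ cop q, ee ((b : ℝ) * ((a : ℝ) / q)) with hS
  have hSR : SR N z α = ∑ k ∈ range M,
      ∑ n ∈ (Ioc (k * h) (k * h + h)).filter (Rough z), ee ((n : ℝ) * α) +
      ∑ n ∈ (Ioc (M * h) N).filter (Rough z), ee ((n : ℝ) * α) := by
    rw [← srs_cut (fun n => ee ((n : ℝ) * α))]
    unfold SR
    have : Icc 1 N = Ioc 0 N := by
      ext n
      simp [mem_Icc, mem_Ioc, Nat.succ_le_iff]
    rw [this, sum_filter, sum_filter, sum_filter,
      Finset.sum_Ioc_consecutive _ (Nat.zero_le _) hMN]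
  have hb1 : ‖∑ n ∈ (Ioc (M * h) N).filter (Rough z), ee ((n : ℝ) * α)‖ ≤ h := by
    refine (norm_sum_le _ _).trans ?_
    rw [sum_congr rfl (fun (n : ℕ) _ => norm_ee ((n : ℝ) * α)), sum_const, nsmul_eq_mul, mul_one]
    have : ((Ioc (M * h) N).filter (Rough z)).card ≤ h := by
      refine (card_filter_le _ _).trans ?_
      rw [Nat.card_Ioc]
      exact hrest
    exact_mod_cast this
  have hb2 : ‖∑ k ∈ range M, (((m : ℂ) * S) * ee (((k * h : ℕ) : ℝ) * β))‖ ≤
      m * (2 * (N / h) / (1 + |β| * N)) := by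
    rw [← mul_sum, norm_mul, norm_mul, Complex.norm_real, Real.norm_of_nonneg hm]
    have hS1 : ‖S‖ ≤ 1 := srs_ram a hq ha
    have hg := geom 0 M ((N : ℝ) / h) ((h : ℝ) * β) (by positivity) hMr
    rw [zero_add, ← Finset.range_eq_Ico] at hg
    have h1 : gK ((N : ℝ) / h) ((h : ℝ) * β) = 2 * (N / h) / (1 + |β| * N) := by
      unfold gK
      have h2 : |(h : ℝ) * β| = |β| * h := by
        rw [abs_mul, abs_of_pos hhr, mul_comm]
      rw [nn_eq_abs (by rw [h2]; exact hβ), h2]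
      congr 2
      field_simp
    rw [h1] at hg
    have h3 : ∑ k ∈ range M, ee (((k * h : ℕ) : ℝ) * β) =
        ∑ k ∈ range M, ee ((k : ℝ) * ((h : ℝ) * β)) := by
      refine sum_congr rfl fun k _ => ?_
      congr 1
      push_cast
      ring
    rw [h3]
    calc m * ‖S‖ * ‖∑ k ∈ range M, ee ((k : ℝ) * ((h : ℝ) * β))‖
        ≤ m * 1 * (2 * (N / h) / (1 + |β| * N)) := by
          refine mul_le_mul (mul_le_mul_of_nonneg_left hS1 hm) hg (norm_nonneg _) (by linarith)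
      _ = _ := by ring
  have hb3 : ‖∑ k ∈ range M, (∑ n ∈ (Ioc (k * h) (k * h + h)).filter (Rough z), ee ((n : ℝ) * α) -
      (((m : ℂ) * S) * ee (((k * h : ℕ) : ℝ) * β)))‖ ≤
      N / h * (q.totient * E + h * (2 * Real.pi * (|β| * h))) := by
    refine (norm_sum_le _ _).trans ?_
    have hpi := Real.pi_pos
    calc ∑ k ∈ range M, ‖(∑ n ∈ (Ioc (k * h) (k * h + h)).filter (Rough z), ee ((n : ℝ) * α) -
      (((m : ℂ) * S) * ee (((k * h : ℕ) : ℝ) * β)))‖
        ≤ ∑ k ∈ range M, (q.totient * E + h * (2 * Real.pi * (|β| * h))) := by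
          refine sum_le_sum fun k _ => ?_
          exact srs_block a β m E hq hqz (hE _)
      _ = M * (q.totient * E + h * (2 * Real.pi * (|β| * h))) := by
          rw [sum_const, card_range, nsmul_eq_mul]
      _ ≤ _ := mul_le_mul_of_nonneg_right hMr (by positivity)
  have hdec : SR N z α = ∑ k ∈ range M, (((m : ℂ) * S) * ee (((k * h : ℕ) : ℝ) * β)) +
      ∑ k ∈ range M, (∑ n ∈ (Ioc (k * h) (k * h + h)).filter (Rough z), ee ((n : ℝ) * α) -
      (((m : ℂ) * S) * ee (((k * h : ℕ) : ℝ) * β))) +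
      ∑ n ∈ (Ioc (M * h) N).filter (Rough z), ee ((n : ℝ) * α) := by
    rw [hSR, sum_sub_distrib]
    ring
  rw [hdec]
  refine (norm_add_le _ _).trans ?_
  have h4 := norm_add_le (∑ k ∈ range M, (((m : ℂ) * S) * ee (((k * h : ℕ) : ℝ) * β)))
    (∑ k ∈ range M, (∑ n ∈ (Ioc (k * h) (k * h + h)).filter (Rough z), ee ((n : ℝ) * α) -
      (((m : ℂ) * S) * ee (((k * h : ℕ) : ℝ) * β))))
  have h5 : (N : ℝ) / h * (q.totient * E + h * (2 * Real.pi * (|β| * h))) =
      N / h * (q.totient * E) + N * (2 * Real.pi * (|β| * h)) := by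
    field_simp
  rw [h5] at hb3
  linarith

private theorem srs_a1 (h φ V N b : ℝ) (hh : h ≠ 0) :
    h / φ * V * (2 * (N / h) / b) = V * (2 * N / (φ * b)) := by
  have e : h / φ * V * (2 * (N / h) / b) = (h / h) * (V * (2 * N / (φ * b))) := by ring
  rw [e, div_self hh, one_mul]

private theorem srs_a2 (h φ N K D : ℝ) (hh : h ≠ 0) (hφ : φ ≠ 0) :
    N / h * (φ * (D * (h / (φ * K)))) = N / K * D := by
  have e : N / h * (φ * (D * (h / (φ * K)))) = (h / h) * (φ / φ) * (N / K * D) := by ring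
  rw [e, div_self hh, div_self hφ, one_mul, one_mul]

private theorem srs_a4 (x y C E : ℝ) (h : x ≤ y) (hE : 0 ≤ E) :
    x + C * E + E ≤ y + (C + 5) * E := by
  nlinarith

private theorem srs_a3 (K N b : ℝ) : 2 / K * (2 * N / b) = N / K * (4 / b) := by
  ring

/-- Cut `(0, N]` into intervals of length `h = ⌈N / (log N)^(B+3)⌉`; on each replace `e(n β)` by its
value at the left end (error `2π |β| h`), sort by residues modulo `q` and use `fund` (rough numbers
are prime to `q`), and `∑_{b prime to q} e(a b / q) = μ(q)` (`ramanujan_coprime` in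
`Restrict.lean`). Main term `Vq 1 z * μ(q)/φ(q) * h * ∑_k e(k h β)`, a geometric sum, at most
`C N / (1 + |β| N)`; `Vq 1 z ≤ 1 / log z ≤ 2 / (κ L)` by `V_le`. -/
theorem srsmall : ∃ C : ℝ, 0 < C ∧ ∃ κ₀ : ℝ, 0 < κ₀ ∧ κ₀ ≤ 1 / 1000 ∧ ∀ κ : ℝ, 0 < κ → κ ≤ κ₀ →
    ∀ B : ℕ, ∃ N₀ : ℕ, ∀ N : ℕ, N₀ ≤ N → ∀ q : ℕ, ∀ a : ℤ, 1 ≤ q → (q : ℝ) ≤ Real.log N ^ B →
      IsCoprime a (q : ℤ) → ∀ β : ℝ, |β| * N ≤ Real.log N ^ B →
        ‖SR N ⌊(N : ℝ) ^ κ⌋₊ (a / q + β)‖ ≤ (N / (κ * Real.log N)) *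
          (C / ((q.totient : ℝ) * (1 + |β| * N)) + C * Real.exp (-(1 / (400 * κ)))) := by
  obtain ⟨C, hC, κ₀, hκ₀, hκ₀', hfund⟩ := fund
  refine ⟨C + 5, by linarith, κ₀, hκ₀, hκ₀', fun κ hκ hκκ B => ?_⟩
  obtain ⟨N₁, hN₁⟩ := hfund κ hκ hκκ
  set E := Real.exp (-(1 / (400 * κ))) with hE
  have hE0 : 0 < E := Real.exp_pos _
  have ht : Filter.Tendsto (fun N : ℕ => Real.log (N : ℝ)) Filter.atTop Filter.atTop :=
    Real.tendsto_log_atTop.comp tendsto_natCast_atTop_atTop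
  have e1 : ∀ᶠ N : ℕ in Filter.atTop, 2 ≤ Real.log (N : ℝ) := ht.eventually_ge_atTop 2
  have e4 : ∀ᶠ N : ℕ in Filter.atTop, 16 * κ / E ≤ Real.log (N : ℝ) := ht.eventually_ge_atTop _
  have e2 : ∀ᶠ N : ℕ in Filter.atTop, Real.log (N : ℝ) ^ (B + 3) ≤ (N : ℝ) ^ (κ / 2) := by
    have h1 := (isLittleO_log_rpow_rpow_atTop ((B + 3 : ℕ) : ℝ) (half_pos hκ)).bound
      (show (0 : ℝ) < 1 by norm_num)
    have h2 := tendsto_natCast_atTop_atTop (R := ℝ) |>.eventually h1
    filter_upwards [h2, e1] with N h3 h4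
    rw [one_mul, Real.rpow_natCast] at h3
    have h5 : 0 ≤ (N : ℝ) ^ (κ / 2) := by positivity
    rw [Real.norm_of_nonneg (by positivity), Real.norm_of_nonneg h5] at h3
    exact h3
  obtain ⟨N₀, hN₀⟩ := Filter.eventually_atTop.mp (e1.and (e2.and e4))
  refine ⟨max N₀ N₁, fun N hN q a hq hqL ha β hβ => ?_⟩
  obtain ⟨h1, h2, h4⟩ := hN₀ N (le_trans (le_max_left _ _) hN)
  have hf := hN₁ N (le_trans (le_max_right _ _) hN)
  set L := Real.log (N : ℝ) with hL
  have hL0 : 0 < L := by linarith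
  have hN1 : (1 : ℝ) < N := by
    by_contra hcon
    push Not at hcon
    have : L ≤ 0 := Real.log_nonpos (by positivity) hcon
    linarith
  have hN0 : (0 : ℝ) < N := by linarith
  have hP0 : 0 < L ^ (B + 3) := by positivity
  have hP1 : L ^ B ≤ L ^ (B + 3) := pow_le_pow_right₀ (by linarith) (by omega)
  have hP2 : (8 : ℝ) ≤ L ^ (B + 3) := by
    calc (8 : ℝ) = 1 ^ B * 2 ^ 3 := by norm_num
      _ ≤ L ^ B * L ^ 3 := by
        refine mul_le_mul (pow_le_pow_left₀ (by norm_num) (by linarith) _)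
          (pow_le_pow_left₀ (by norm_num) h1 _) (by norm_num) (by positivity)
      _ = L ^ (B + 3) := by rw [pow_add]
  have hκ1 : κ ≤ 1 / 1000 := hκκ.trans hκ₀'
  have hW1 : (N : ℝ) ^ (κ / 2) ≤ (N : ℝ) ^ (1 / 4 : ℝ) :=
    Real.rpow_le_rpow_of_exponent_le hN1.le (by linarith)
  have hW2 : (N : ℝ) ^ (κ / 2) ≤ N := by
    calc (N : ℝ) ^ (κ / 2) ≤ (N : ℝ) ^ (1 : ℝ) :=
          Real.rpow_le_rpow_of_exponent_le hN1.le (by linarith)
      _ = N := Real.rpow_one _
  have hW0 : (8 : ℝ) ≤ (N : ℝ) ^ (κ / 2) := hP2.trans h2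
  have hW3 : (N : ℝ) ^ κ = (N : ℝ) ^ (κ / 2) * (N : ℝ) ^ (κ / 2) := by
    rw [← Real.rpow_add hN0]
    congr 1
    ring
  have hW4 : (N : ℝ) ^ (κ / 2) + 1 ≤ (N : ℝ) ^ κ := by
    rw [hW3]
    nlinarith
  set z := ⌊(N : ℝ) ^ κ⌋₊ with hz
  have hz1 : (N : ℝ) ^ (κ / 2) ≤ z := by
    have := Nat.sub_one_lt_floor ((N : ℝ) ^ κ)
    rw [← hz] at this
    linarith
  have hqW : (q : ℝ) ≤ (N : ℝ) ^ (κ / 2) := hqL.trans (hP1.trans h2)
  have hqz : q < z := by
    have h5 : ((q + 1 : ℕ) : ℝ) ≤ (N : ℝ) ^ κ := by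
      push_cast
      linarith
    exact Nat.le_floor h5
  have hz2 : 2 ≤ z := by
    have : (2 : ℝ) ≤ z := by linarith
    exact_mod_cast this
  have hlogz : κ * L / 2 ≤ Real.log z := by
    have h5 := Real.log_le_log (by positivity) hz1
    rw [Real.log_rpow hN0, ← hL] at h5
    linarith
  have hV : Vq 1 z ≤ 2 / (κ * L) := by
    refine (V_le z hz2).trans ?_
    rw [div_le_div_iff₀ (lt_of_lt_of_le (by positivity) hlogz) (by positivity)]
    linarith
  have hV0 : 0 < Vq 1 z := Vq_pos 1 z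
  -- the length of the blocks
  set h := ⌈(N : ℝ) / L ^ (B + 3)⌉₊ with hh
  have hh1 : (N : ℝ) / L ^ (B + 3) ≤ h := Nat.le_ceil _
  have hNP : 1 ≤ (N : ℝ) / L ^ (B + 3) := by
    rw [le_div_iff₀ hP0, one_mul]
    exact h2.trans hW2
  have hh0 : (1 : ℝ) ≤ h := hNP.trans hh1
  have hh2 : (h : ℝ) ≤ 2 * (N / L ^ (B + 3)) := by
    have := Nat.ceil_lt_add_one (show 0 ≤ (N : ℝ) / L ^ (B + 3) by positivity)
    rw [← hh] at this
    linarith
  have hhN : h ≤ N := by
    rw [hh, Nat.ceil_le]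
    exact div_le_self hN0.le (by linarith)
  have hh34 : (N : ℝ) ^ (3 / 4 : ℝ) ≤ h := by
    refine le_trans ?_ hh1
    rw [le_div_iff₀ hP0]
    calc (N : ℝ) ^ (3 / 4 : ℝ) * L ^ (B + 3) ≤ (N : ℝ) ^ (3 / 4 : ℝ) * (N : ℝ) ^ (1 / 4 : ℝ) :=
          mul_le_mul_of_nonneg_left (h2.trans hW1) (by positivity)
      _ = N := by
        rw [← Real.rpow_add hN0]
        norm_num
  have hφ : 0 < (q.totient : ℝ) := by
    have := Nat.totient_pos.mpr (show 0 < q from hq)
    positivity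
  have hhr : (0 : ℝ) < h := by linarith
  -- bound on |β| h
  have hβh : |β| * h ≤ 2 / L ^ 3 := by
    calc |β| * h ≤ |β| * (2 * (N / L ^ (B + 3))) :=
          mul_le_mul_of_nonneg_left hh2 (abs_nonneg _)
      _ = 2 * (|β| * N) / L ^ (B + 3) := by ring
      _ ≤ 2 * L ^ B / L ^ (B + 3) := by
          apply div_le_div_of_nonneg_right _ hP0.le
          linarith
      _ = 2 / L ^ 3 := by
          rw [pow_add]
          field_simp
  have hL3 : (8 : ℝ) ≤ L ^ 3 := by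
    calc (8 : ℝ) = 2 ^ 3 := by norm_num
      _ ≤ L ^ 3 := pow_le_pow_left₀ (by norm_num) h1 _
  have hβh2 : |β| * h ≤ 1 / 2 := by
    refine hβh.trans ?_
    rw [div_le_div_iff₀ (by positivity) (by norm_num)]
    linarith
  have hh3 : (h : ℝ) ≤ 2 * N / L ^ 3 := by
    refine hh2.trans ?_
    rw [← mul_div_assoc]
    apply div_le_div_of_nonneg_left (by positivity) (by positivity)
    exact pow_le_pow_right₀ (by linarith) (by omega)
  have hcore := srs_core a β ((h : ℝ) / q.totient * Vq 1 z)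
    (C * E * ((h : ℝ) / ((q.totient : ℝ) * (κ * L)))) hq hqz ha
    (by exact_mod_cast hh0) hhN hβh2 (by positivity) (by positivity)
    (fun y b hb => hf y h q b hq hqW (by
      unfold cop at hb
      rw [mem_filter] at hb
      exact hb.2) hh34 (by exact_mod_cast hhN))
  refine hcore.trans ?_
  have hbN : 0 < 1 + |β| * N := by positivity
  have t1 : (h : ℝ) / q.totient * Vq 1 z * (2 * (N / h) / (1 + |β| * N)) ≤
      N / (κ * L) * (4 / ((q.totient : ℝ) * (1 + |β| * N))) := by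
    rw [srs_a1 _ _ _ _ _ hhr.ne']
    calc Vq 1 z * (2 * N / ((q.totient : ℝ) * (1 + |β| * N))) ≤
        2 / (κ * L) * (2 * N / ((q.totient : ℝ) * (1 + |β| * N))) :=
          mul_le_mul_of_nonneg_right hV (by positivity)
      _ = _ := srs_a3 _ _ _
  have t2 : (N : ℝ) / h * (q.totient * (C * E * ((h : ℝ) / ((q.totient : ℝ) * (κ * L))))) =
      N / (κ * L) * (C * E) := srs_a2 _ _ _ _ _ hhr.ne' hφ.ne'
  have t3 : (N : ℝ) * (2 * Real.pi * (|β| * h)) + h ≤ N / (κ * L) * E := by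
    have hpi := Real.pi_pos
    have hpi2 := Real.pi_lt_d2
    calc (N : ℝ) * (2 * Real.pi * (|β| * h)) + h ≤
        N * (2 * Real.pi * (2 / L ^ 3)) + 2 * N / L ^ 3 := by
          refine add_le_add ?_ hh3
          exact mul_le_mul_of_nonneg_left (mul_le_mul_of_nonneg_left hβh (by positivity)) hN0.le
      _ = (N / L ^ 3) * (4 * Real.pi + 2) := by ring
      _ ≤ (N / L ^ 3) * 16 := by
          apply mul_le_mul_of_nonneg_left _ (by positivity)
          linarith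
      _ ≤ N / (κ * L) * E := by
          rw [div_le_iff₀ hE0] at h4
          rw [div_mul_eq_mul_div, div_mul_eq_mul_div, div_le_div_iff₀ (by positivity) (by positivity)]
          have h7 : 16 * κ ≤ L ^ 2 * E := by
            refine h4.trans ?_
            apply mul_le_mul_of_nonneg_right _ hE0.le
            nlinarith
          calc (N : ℝ) * 16 * (κ * L) = N * L * (16 * κ) := by ring
            _ ≤ N * L * (L ^ 2 * E) := mul_le_mul_of_nonneg_left h7 (by positivity)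
            _ = N * E * L ^ 3 := by ring
  have t4 : N / (κ * L) * (4 / ((q.totient : ℝ) * (1 + |β| * N))) + N / (κ * L) * (C * E) +
      N / (κ * L) * E ≤ (N / (κ * L)) *
        ((C + 5) / ((q.totient : ℝ) * (1 + |β| * N)) + (C + 5) * E) := by
    rw [← mul_add, ← mul_add]
    apply mul_le_mul_of_nonneg_left _ (by positivity)
    have h8 : 4 / ((q.totient : ℝ) * (1 + |β| * N)) ≤
        (C + 5) / ((q.totient : ℝ) * (1 + |β| * N)) := by
      apply div_le_div_of_nonneg_right _ (by positivity)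
      linarith
    exact srs_a4 _ _ _ _ h8 hE0.le
  rw [t2]
  linarith

end Pool.Agent.Lib.MP_629a14_nt.Rob
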