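import Pool.Agent.Lib.MP_629a14_nt.Rob.LargeB
import Pool.Agent.Lib.MP_629a14_nt.Rob.LargeR
import Pool.Agent.Lib.MP_629a14_nt.Rob.SRSmall
import Pool.Agent.Lib.MP_629a14_nt.Rob.QBil
import Pool.Agent.Lib.MP_629a14_nt.Rob.BBilQ
import Pool.Agent.Lib.MP_629a14_nt.Rob.QPhi

/-! Log-free minor arc bound for the primes. -/

set_option autoImplicit false

namespace Pool.Agent.Lib.MP_629a14_nt.Rob

open Finset Pool.Agent.Lib.MP_629a14_nt

private theorem mev_log (c : ℝ) : ∀ᶠ N : ℕ in Filter.atTop, c ≤ Real.log N :=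
  (Real.tendsto_log_atTop.comp tendsto_natCast_atTop_atTop).eventually_ge_atTop c

private theorem mev_pow (k : ℕ) (δ : ℝ) (hδ : 0 < δ) :
    ∀ᶠ N : ℕ in Filter.atTop, Real.log N ^ k ≤ δ * N := by
  have h := (Real.isLittleO_pow_log_id_atTop (n := k)).comp_tendsto
    (tendsto_natCast_atTop_atTop (R := ℝ))
  have h1 := h.bound hδ
  filter_upwards [h1] with N hN
  simp only [Function.comp_apply, id_eq, Real.norm_eq_abs, Nat.abs_cast] at hN
  exact (le_abs_self _).trans hN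

private theorem mev_rpow (r δ : ℝ) (hr : 0 < r) (hδ : 0 < δ) :
    ∀ᶠ N : ℕ in Filter.atTop, Real.log N ≤ δ * (N : ℝ) ^ r := by
  have h := (isLittleO_log_rpow_atTop hr).comp_tendsto
    (tendsto_natCast_atTop_atTop (R := ℝ))
  have h1 := h.bound hδ
  filter_upwards [h1] with N hN
  simp only [Function.comp_apply, Real.norm_eq_abs] at hN
  rw [abs_of_nonneg (Real.rpow_nonneg (Nat.cast_nonneg N) r)] at hN
  exact (le_abs_self _).trans hN

/-- `ramare` with `z = ⌊(log N)^30⌋`, `largeB`, `largeR`. -/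
theorem largeq : ∃ N₀ : ℕ, ∀ N : ℕ, N₀ ≤ N → ∀ (q : ℕ) (a : ℤ) (α : ℝ), 1 ≤ q →
    IsCoprime a (q : ℤ) → |α - a / q| ≤ 1 / (q : ℝ) ^ 2 → Real.log N ^ 60 ≤ q →
      (q : ℝ) ≤ N / Real.log N ^ 60 → ‖SP N α‖ ≤ N / Real.log N ^ 2 := by
  obtain ⟨N1, h1⟩ := largeB
  obtain ⟨N2, h2⟩ := largeR
  have hev : ∀ᶠ N : ℕ in Filter.atTop, N1 ≤ N ∧ N2 ≤ N ∧ 1 ≤ N ∧ 2 ≤ Real.log N ∧
      Real.log N ^ 32 ≤ (1 / 8) * N := by
    filter_upwards [Filter.eventually_ge_atTop N1, Filter.eventually_ge_atTop N2,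
      Filter.eventually_ge_atTop 1, mev_log 2, mev_pow 32 (1 / 8) (by norm_num)] with N a b c d e
    exact ⟨a, b, c, d, e⟩
  obtain ⟨N₀, hN₀⟩ := Filter.eventually_atTop.1 hev
  refine ⟨N₀, fun N hN q a α hq hc hα hq1 hq2 => ?_⟩
  obtain ⟨hN1, hN2, hN3, hL, hLN⟩ := hN₀ N hN
  have hNpos : (0 : ℝ) < N := by exact_mod_cast hN3
  have hB := h1 N hN1 q a α hq hc hα hq1 hq2 (fun _ => 1)
    (fun m => (cc ⌊Real.log N ^ 30⌋₊ m : ℂ)) (fun _ => by simp) (Adm_cc _)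
  have hR := h2 N hN2 q a α hq hc hα hq1 hq2
  set L : ℝ := Real.log N with hLdef
  set z : ℕ := ⌊L ^ 30⌋₊ with hz
  have hLpos : 0 < L := by linarith
  have hL30 : (1024 : ℝ) ≤ L ^ 30 := by
    calc (1024 : ℝ) ≤ 2 ^ 30 := by norm_num
      _ ≤ L ^ 30 := pow_le_pow_left₀ (by norm_num) hL 30
  have hzle : (z : ℝ) ≤ L ^ 30 := Nat.floor_le (by positivity)
  have hzge : L ^ 30 / 2 ≤ (z : ℝ) := by
    have := Nat.lt_floor_add_one (L ^ 30)
    rw [← hz] at this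
    linarith
  have hz2 : 2 ≤ z := by
    have : (2 : ℝ) ≤ z := by linarith
    exact_mod_cast this
  have hL2 : (1 : ℝ) ≤ L ^ 2 := by nlinarith
  have hzN : z ≤ N := by
    have h3 : L ^ 30 ≤ L ^ 32 := pow_le_pow_right₀ (by linarith) (by norm_num)
    have : (z : ℝ) ≤ N := by linarith
    exact_mod_cast this
  have hram := ramare N z α hz2 hzN
  rw [← SB_eq] at hB
  have hzpos : (0 : ℝ) < z := by positivity
  have e1 : 2 * (z : ℝ) ≤ N / (4 * L ^ 2) := by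
    rw [le_div_iff₀ (by positivity)]
    have : 2 * (z : ℝ) * (4 * L ^ 2) ≤ 8 * L ^ 32 := by
      have : (z : ℝ) * L ^ 2 ≤ L ^ 30 * L ^ 2 := mul_le_mul_of_nonneg_right hzle (by positivity)
      calc 2 * (z : ℝ) * (4 * L ^ 2) = 8 * (z * L ^ 2) := by ring
        _ ≤ 8 * (L ^ 30 * L ^ 2) := by linarith
        _ = 8 * L ^ 32 := by ring
    linarith
  have e2 : 4 * (N : ℝ) / z ≤ N / (4 * L ^ 2) := by
    rw [div_le_div_iff₀ hzpos (by positivity)]
    have h28 : (32 : ℝ) ≤ L ^ 28 := by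
      calc (32 : ℝ) ≤ 2 ^ 28 := by norm_num
        _ ≤ L ^ 28 := pow_le_pow_left₀ (by norm_num) hL 28
    have : 16 * L ^ 2 ≤ z := by
      have : 16 * L ^ 2 ≤ L ^ 30 / 2 := by
        have h4 : L ^ 30 = L ^ 28 * L ^ 2 := by ring
        rw [h4]
        nlinarith
      linarith
    calc 4 * (N : ℝ) * (4 * L ^ 2) = (N : ℝ) * (16 * L ^ 2) := by ring
      _ ≤ (N : ℝ) * (z : ℝ) := mul_le_mul_of_nonneg_left this hNpos.le
  have e3 : ‖SP N α‖ ≤ ‖SP N α - (SR N z α - SB N z α)‖ + ‖SR N z α‖ + ‖SB N z α‖ := by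
    have : SP N α = (SP N α - (SR N z α - SB N z α)) + SR N z α - SB N z α := by ring
    calc ‖SP N α‖ = ‖(SP N α - (SR N z α - SB N z α)) + SR N z α - SB N z α‖ := by rw [← this]
      _ ≤ _ := (norm_sub_le _ _).trans (by gcongr; exact norm_add_le _ _)
  have e4 : (N : ℝ) / L ^ 2 = 4 * (N / (4 * L ^ 2)) := by
    field_simp
  rw [e4]
  linarith

private theorem choose_kappa (C κ₀ ε : ℝ) (hC : 0 < C) (hκ₀ : 0 < κ₀) (hε : 0 < ε) :
    ∃ κ : ℝ, 0 < κ ∧ κ ≤ κ₀ ∧ C * Real.exp (-(1 / (400 * κ))) / κ ≤ ε := by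
  refine ⟨min κ₀ (ε / (320000 * C)), lt_min hκ₀ (by positivity), min_le_left _ _, ?_⟩
  set κ := min κ₀ (ε / (320000 * C)) with hκ
  have hκp : 0 < κ := lt_min hκ₀ (by positivity)
  have hκ2 : κ ≤ ε / (320000 * C) := min_le_right _ _
  have hy : 0 ≤ 1 / (400 * κ) := by positivity
  have h1 := Real.quadratic_le_exp_of_nonneg hy
  have h2 : (1 / (400 * κ)) ^ 2 / 2 ≤ Real.exp (1 / (400 * κ)) := by linarith
  have h3 : Real.exp (-(1 / (400 * κ))) ≤ 320000 * κ ^ 2 := by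
    rw [Real.exp_neg]
    have h4 : ((1 / (400 * κ)) ^ 2 / 2)⁻¹ = 320000 * κ ^ 2 := by
      field_simp
      norm_num
    rw [← h4]
    exact inv_anti₀ (by positivity) h2
  rw [div_le_iff₀ hκp]
  calc C * Real.exp (-(1 / (400 * κ))) ≤ C * (320000 * κ ^ 2) :=
        mul_le_mul_of_nonneg_left h3 hC.le
    _ = (320000 * C * κ) * κ := by ring
    _ ≤ ε * κ := by
        apply mul_le_mul_of_nonneg_right _ hκp.le
        calc 320000 * C * κ ≤ 320000 * C * (ε / (320000 * C)) :=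
              mul_le_mul_of_nonneg_left hκ2 (by positivity)
          _ = ε := by field_simp

private theorem choose_Q (C C' κ ε : ℝ) (hκ : 0 < κ) (hε : 0 < ε) :
    ∃ Q : ℕ, 1 ≤ Q ∧ ∀ q : ℕ, Q < q →
      C' * (Real.sqrt q / q.totient) ≤ ε ∧ C / (κ * q.totient) ≤ ε := by
  have h1 : Filter.Tendsto (fun q : ℕ => (q : ℝ) ^ (1 / 4 : ℝ)) Filter.atTop Filter.atTop :=
    (tendsto_rpow_atTop (by norm_num)).comp tendsto_natCast_atTop_atTop
  obtain ⟨Q, hQ⟩ := Filter.eventually_atTop.1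
    ((h1.eventually_ge_atTop (2 * C' / ε)).and (h1.eventually_ge_atTop (2 * C / (κ * ε))))
  refine ⟨max 1 Q, le_max_left _ _, fun q hq => ?_⟩
  have hq1 : 1 < q := lt_of_le_of_lt (le_max_left _ _) hq
  obtain ⟨ha, hb⟩ := hQ q ((le_max_right 1 Q).trans hq.le)
  have hq0 : (0 : ℝ) < q := by positivity
  have hq1' : (1 : ℝ) ≤ q := by exact_mod_cast hq1.le
  have hphi := qphi q hq1.le
  have hp0 : (0 : ℝ) < q.totient := by
    exact_mod_cast Nat.totient_pos.2 (by omega)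
  have hr : (0 : ℝ) < (q : ℝ) ^ (1 / 4 : ℝ) := Real.rpow_pos_of_pos hq0 _
  have e34 : (q : ℝ) ^ (3 / 4 : ℝ) = Real.sqrt q * (q : ℝ) ^ (1 / 4 : ℝ) := by
    rw [Real.sqrt_eq_rpow, ← Real.rpow_add hq0]
    norm_num
  have hsq : 1 ≤ Real.sqrt q := by
    rw [Real.one_le_sqrt]
    exact hq1'
  constructor
  · rw [← mul_div_assoc, div_le_iff₀ hp0]
    rw [div_le_iff₀ hε] at ha
    have : C' * Real.sqrt q ≤ ε / 2 * (q : ℝ) ^ (3 / 4 : ℝ) := by
      rw [e34]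
      have := mul_le_mul_of_nonneg_right ha (Real.sqrt_nonneg q)
      nlinarith
    nlinarith
  · rw [div_le_iff₀ (by positivity)]
    rw [div_le_iff₀ (by positivity)] at hb
    have h5 : (q : ℝ) ^ (1 / 4 : ℝ) ≤ (q : ℝ) ^ (3 / 4 : ℝ) :=
      Real.rpow_le_rpow_of_exponent_le hq1' (by norm_num)
    have h6 : (q : ℝ) ^ (1 / 4 : ℝ) ≤ 2 * q.totient := h5.trans hphi
    have h7 : (q : ℝ) ^ (1 / 4 : ℝ) * (κ * ε) ≤ 2 * q.totient * (κ * ε) :=
      mul_le_mul_of_nonneg_right h6 (by positivity)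
    nlinarith

private theorem choose_K (C C' κ ε : ℝ) (hκ : 0 < κ) (hε : 0 < ε) :
    ∃ K : ℕ, 1 ≤ K ∧ ∀ t : ℝ, (K : ℝ) < t →
      C' * Real.sqrt ((1 + Real.log t) / t) ≤ ε ∧ C / (κ * (1 + t)) ≤ ε := by
  have h1 : Filter.Tendsto (fun t : ℝ => (1 + Real.log t) / t) Filter.atTop (nhds 0) := by
    have ha : Filter.Tendsto (fun t : ℝ => 1 / t) Filter.atTop (nhds 0) := by
      simpa using tendsto_inv_atTop_zero (𝕜 := ℝ)
    have hb : Filter.Tendsto (fun t : ℝ => Real.log t / t) Filter.atTop (nhds 0) := by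
      have := (Real.isLittleO_log_id_atTop).tendsto_div_nhds_zero
      simpa using this
    have hc := ha.add hb
    simp only [add_zero] at hc
    refine hc.congr fun t => ?_
    rw [add_div]
  have h2 : Filter.Tendsto (fun t : ℝ => C' * Real.sqrt ((1 + Real.log t) / t)) Filter.atTop
      (nhds 0) := by
    have := (h1.sqrt).const_mul C'
    simpa using this
  have h3 : Filter.Tendsto (fun t : ℝ => κ * (1 + t)) Filter.atTop Filter.atTop :=
    (Filter.tendsto_atTop_add_const_left _ 1 Filter.tendsto_id).const_mul_atTop hκ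
  have h4 : ∀ᶠ t : ℝ in Filter.atTop, C' * Real.sqrt ((1 + Real.log t) / t) ≤ ε ∧
      C / ε ≤ κ * (1 + t) ∧ 0 < κ * (1 + t) := by
    filter_upwards [h2.eventually_le_const hε, h3.eventually_ge_atTop (C / ε),
      h3.eventually_gt_atTop 0] with t a b c
    exact ⟨a, b, c⟩
  obtain ⟨T, hT⟩ := Filter.eventually_atTop.1 h4
  refine ⟨max 1 ⌈T⌉₊, le_max_left _ _, fun t ht => ?_⟩
  have hTt : T ≤ t := by
    have h5 : T ≤ (⌈T⌉₊ : ℝ) := Nat.le_ceil T
    have h6 : ((⌈T⌉₊ : ℕ) : ℝ) ≤ ((max 1 ⌈T⌉₊ : ℕ) : ℝ) := by exact_mod_cast le_max_right _ _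
    linarith
  obtain ⟨a, b, c⟩ := hT t hTt
  refine ⟨a, ?_⟩
  rw [div_le_iff₀ c]
  rw [div_le_iff₀ hε] at b
  linarith

/-- Dirichlet's approximation theorem (`Real.exists_rat_abs_sub_le_and_den_le` with
`n = ⌊N / (log N)^60⌋`): `α = a/q + β`, `|β| ≤ 1/((n+1) q)`. If `q ≥ (log N)^60` use `largeq`.
Otherwise `q ≤ (log N)^60`, `|β| N ≤ (log N)^60`, `B = 60`: choose `κ` with
`C exp (-1/(400 κ)) / κ ≤ ε/8`, `ramare` with `z = ⌊N^κ⌋`, `srsmall`, and `qbil` if `q > Q`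
(`√q/φ(q) ≤ 2 q^(-1/4)` by `qphi`), `bbilq` if `q ≤ Q` and `|β| > K/N`. -/
theorem minor (ε : ℝ) (hε : 0 < ε) : ∃ Q K N₀ : ℕ, 1 ≤ Q ∧ ∀ N : ℕ, N₀ ≤ N → ∀ α : ℝ,
    ‖SP N α‖ ≤ ε * (N / Real.log N) ∨
      ∃ (q : ℕ) (a : ℤ), 1 ≤ q ∧ q ≤ Q ∧ IsCoprime a (q : ℤ) ∧ |α - a / q| ≤ (K : ℝ) / N := by
  obtain ⟨Cs, hCs, κ₀, hκ₀, hκ₀1, hs⟩ := srsmall
  obtain ⟨κ, hκ, hκκ, hκε⟩ := choose_kappa Cs κ₀ (ε / 8) hCs hκ₀ (by positivity)
  have hκ1 : κ ≤ 1 := by linarith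
  obtain ⟨Ns, hs⟩ := hs κ hκ hκκ 60
  obtain ⟨Cq, hCq, Nq, hqb⟩ := qbil κ hκ hκ1 60
  obtain ⟨Cb, hCb, Nb, hbb⟩ := bbilq κ hκ hκ1 60
  obtain ⟨Nl, hl⟩ := largeq
  obtain ⟨Q, hQ1, hQ⟩ := choose_Q Cs Cq κ (ε / 8) hκ (by positivity)
  obtain ⟨K, hK1, hK⟩ := choose_K Cs (Cb * Q ^ 2) κ (ε / 8) hκ (by positivity)
  have hev : ∀ᶠ N : ℕ in Filter.atTop, Ns ≤ N ∧ Nq ≤ N ∧ Nb ≤ N ∧ Nl ≤ N ∧ 1 ≤ N ∧
      1 ≤ Real.log N ∧ 1 / ε ≤ Real.log N ∧ 8 * Cq / ε ≤ Real.log N ∧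
      8 * (Cb * Q ^ 2) / ε ≤ Real.log N ∧ Real.log N ^ 60 ≤ 1 * N ∧
      Real.log N ≤ (ε / 80) * (N : ℝ) ^ κ ∧ (2 : ℝ) ≤ (N : ℝ) ^ κ := by
    have h2 : Filter.Tendsto (fun N : ℕ => (N : ℝ) ^ κ) Filter.atTop Filter.atTop :=
      (tendsto_rpow_atTop hκ).comp tendsto_natCast_atTop_atTop
    filter_upwards [Filter.eventually_ge_atTop Ns, Filter.eventually_ge_atTop Nq,
      Filter.eventually_ge_atTop Nb, Filter.eventually_ge_atTop Nl, Filter.eventually_ge_atTop 1,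
      mev_log 1, mev_log (1 / ε), mev_log (8 * Cq / ε), mev_log (8 * (Cb * Q ^ 2) / ε),
      mev_pow 60 1 one_pos, mev_rpow κ (ε / 80) hκ (by positivity),
      h2.eventually_ge_atTop 2] with N a1 a2 a3 a4 a5 a6 a7 a8 a9 a10 a11 a12
    exact ⟨a1, a2, a3, a4, a5, a6, a7, a8, a9, a10, a11, a12⟩
  obtain ⟨N₀, hN₀⟩ := Filter.eventually_atTop.1 hev
  refine ⟨Q, K, N₀, hQ1, fun N hN α => ?_⟩
  obtain ⟨g1, g2, g3, g4, g5, g6, g7, g8, g9, g10, g11, g12⟩ := hN₀ N hN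
  rw [one_mul] at g10
  have hNpos : (0 : ℝ) < N := by exact_mod_cast g5
  set L : ℝ := Real.log N with hLdef
  have hL : 0 < L := by linarith
  have hL60 : 0 < L ^ 60 := by positivity
  have hn : 0 < ⌊(N : ℝ) / L ^ 60⌋₊ := by
    rw [Nat.floor_pos, le_div_iff₀ hL60]
    linarith
  obtain ⟨r, hr1, hr2⟩ := Real.exists_rat_abs_sub_le_and_den_le α hn
  set n : ℕ := ⌊(N : ℝ) / L ^ 60⌋₊ with hndef
  set q : ℕ := r.den with hqdef
  set a : ℤ := r.num with hadef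
  have hq1 : 1 ≤ q := r.den_pos
  have hq0 : (0 : ℝ) < q := by exact_mod_cast hq1
  have hq1' : (1 : ℝ) ≤ q := by exact_mod_cast hq1
  have hra : (r : ℝ) = (a : ℝ) / (q : ℝ) := by
    rw [Rat.cast_def]
  rw [hra] at hr1
  have hcop : IsCoprime a (q : ℤ) := by
    rw [Int.isCoprime_iff_gcd_eq_one]
    exact r.reduced
  have hqn : (q : ℝ) ≤ n := by exact_mod_cast hr2
  have hnN : (n : ℝ) ≤ N / L ^ 60 := Nat.floor_le (by positivity)
  have hα1 : |α - a / q| ≤ 1 / (q : ℝ) ^ 2 := by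
    refine hr1.trans ?_
    apply one_div_le_one_div_of_le (by positivity)
    rw [sq]
    apply mul_le_mul_of_nonneg_right _ hq0.le
    linarith
  by_cases hbig : L ^ 60 ≤ q
  · left
    refine (hl N g4 q a α hq1 hcop hα1 hbig (hqn.trans hnN)).trans ?_
    rw [div_le_iff₀ (by positivity)]
    have : ε * (N / L) * L ^ 2 = (ε * L) * N := by
      field_simp
    rw [this]
    have h1 : 1 ≤ ε * L := by
      rw [div_le_iff₀ hε] at g7
      linarith
    nlinarith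
  push Not at hbig
  set β : ℝ := α - a / q with hβ
  have hαβ : α = a / q + β := by rw [hβ]; ring
  have hβN : |β| * N ≤ L ^ 60 := by
    have h1 : |β| ≤ 1 / ((n : ℝ) + 1) := by
      refine hr1.trans ?_
      apply one_div_le_one_div_of_le (by positivity)
      nlinarith [Nat.cast_nonneg (α := ℝ) n]
    have h2 : (N : ℝ) / L ^ 60 < n + 1 := Nat.lt_floor_add_one _
    rw [div_lt_iff₀ hL60] at h2
    have h3 : (0 : ℝ) < n + 1 := by positivity
    calc |β| * N ≤ 1 / ((n : ℝ) + 1) * (((n : ℝ) + 1) * L ^ 60) := by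
          apply mul_le_mul h1 h2.le hNpos.le (by positivity)
      _ = L ^ 60 := by field_simp
  -- the parameter z
  set z : ℕ := ⌊(N : ℝ) ^ κ⌋₊ with hz
  have hzle : (z : ℝ) ≤ (N : ℝ) ^ κ := Nat.floor_le (by positivity)
  have hz2 : 2 ≤ z := by
    rw [hz]
    exact Nat.le_floor (by exact_mod_cast g12)
  have hzge : (N : ℝ) ^ κ / 2 ≤ z := by
    have := Nat.lt_floor_add_one ((N : ℝ) ^ κ)
    rw [← hz] at this
    have h2 : (2 : ℝ) ≤ z := by exact_mod_cast hz2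
    linarith
  have hN1 : (1 : ℝ) ≤ N := by exact_mod_cast g5
  have hzN : z ≤ N := by
    have h1 : (N : ℝ) ^ κ ≤ (N : ℝ) ^ (1 : ℝ) := Real.rpow_le_rpow_of_exponent_le hN1 hκ1
    rw [Real.rpow_one] at h1
    have : (z : ℝ) ≤ N := hzle.trans h1
    exact_mod_cast this
  have hram := ramare N z α hz2 hzN
  have hzpos : (0 : ℝ) < z := by positivity
  have hNκ : (0 : ℝ) < (N : ℝ) ^ κ := Real.rpow_pos_of_pos hNpos κ
  have herr : 2 * (z : ℝ) + 4 * N / z ≤ ε / 8 * (N / L) := by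
    have hzz : (z : ℝ) ≤ N / (N : ℝ) ^ κ := by
      rw [le_div_iff₀ hNκ]
      calc (z : ℝ) * (N : ℝ) ^ κ ≤ (N : ℝ) ^ κ * (N : ℝ) ^ κ :=
            mul_le_mul_of_nonneg_right hzle hNκ.le
        _ = (N : ℝ) ^ (κ + κ) := by rw [← Real.rpow_add hNpos]
        _ ≤ (N : ℝ) ^ (1 : ℝ) := Real.rpow_le_rpow_of_exponent_le hN1 (by linarith)
        _ = N := Real.rpow_one _
    have h2 : 4 * (N : ℝ) / z ≤ 8 * (N / (N : ℝ) ^ κ) := by
      rw [div_le_iff₀ hzpos]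
      calc 4 * (N : ℝ) = 8 * (N / (N : ℝ) ^ κ) * ((N : ℝ) ^ κ / 2) := by
            field_simp
            norm_num
        _ ≤ 8 * (N / (N : ℝ) ^ κ) * z := by
            apply mul_le_mul_of_nonneg_left hzge (by positivity)
    have h3 : 10 * ((N : ℝ) / (N : ℝ) ^ κ) ≤ ε / 8 * (N / L) := by
      rw [← mul_div_assoc, ← mul_div_assoc, div_le_div_iff₀ hNκ hL]
      have := mul_le_mul_of_nonneg_left g11 (by positivity : (0 : ℝ) ≤ 10 * N)
      calc 10 * (N : ℝ) * L ≤ 10 * N * (ε / 80 * (N : ℝ) ^ κ) := this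
        _ = ε / 8 * N * (N : ℝ) ^ κ := by ring
    linarith
  have e3 : ‖SP N α‖ ≤ ‖SP N α - (SR N z α - SB N z α)‖ + ‖SR N z α‖ + ‖SB N z α‖ := by
    have : SP N α = (SP N α - (SR N z α - SB N z α)) + SR N z α - SB N z α := by ring
    calc ‖SP N α‖ = ‖(SP N α - (SR N z α - SB N z α)) + SR N z α - SB N z α‖ := by rw [← this]
      _ ≤ _ := (norm_sub_le _ _).trans (by gcongr; exact norm_add_le _ _)
  have hRs := hs N g1 q a hq1 hbig.le hcop β hβN
  rw [← hz, ← hαβ] at hRs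
  have hφ : (0 : ℝ) < q.totient := by exact_mod_cast Nat.totient_pos.2 (by omega)
  have hφ1 : (1 : ℝ) ≤ q.totient := by
    have : 1 ≤ q.totient := Nat.totient_pos.2 (by omega)
    exact_mod_cast this
  have hβ0 : 0 ≤ |β| * N := by positivity
  have hRs' : ‖SR N z α‖ ≤ (N / L) * (Cs / (κ * (q.totient * (1 + |β| * N)))) +
      ε / 8 * (N / L) := by
    refine hRs.trans ?_
    have : (N : ℝ) / (κ * L) * (Cs / ((q.totient : ℝ) * (1 + |β| * N)) +
        Cs * Real.exp (-(1 / (400 * κ)))) =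
        (N / L) * (Cs / (κ * (q.totient * (1 + |β| * N)))) +
          (Cs * Real.exp (-(1 / (400 * κ))) / κ) * (N / L) := by
      field_simp
    rw [this]
    have := mul_le_mul_of_nonneg_right hκε (by positivity : (0 : ℝ) ≤ N / L)
    linarith
  have hNL : 0 ≤ (N : ℝ) / L := by positivity
  have hNL2 : (N : ℝ) / L ^ 2 = (N / L) * (1 / L) := by
    field_simp
  by_cases hqQ : Q < q
  · left
    obtain ⟨b1, b2⟩ := hQ q hqQ
    have hB := hqb N g2 q a hq1 hbig.le hcop β hβN (fun _ => 1) (fun m => (cc z m : ℂ))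
      (fun _ => by simp) (Adm_cc _)
    rw [← hz, ← hαβ, ← SB_eq] at hB
    have hB' : ‖SB N z α‖ ≤ ε / 8 * (N / L) + ε / 8 * (N / L) := by
      refine hB.trans ?_
      have h1 : Cq * (Real.sqrt q / q.totient * (N / L) + N / L ^ 2) =
          (Cq * (Real.sqrt q / q.totient)) * (N / L) + (Cq / L) * (N / L) := by
        rw [hNL2]
        ring
      rw [h1]
      have h2 : Cq / L ≤ ε / 8 := by
        rw [div_le_iff₀ hL]
        rw [div_le_iff₀ hε] at g8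
        linarith
      exact add_le_add (mul_le_mul_of_nonneg_right b1 hNL) (mul_le_mul_of_nonneg_right h2 hNL)
    have hR' : (N / L) * (Cs / (κ * (q.totient * (1 + |β| * N)))) ≤ ε / 8 * (N / L) := by
      rw [mul_comm]
      apply mul_le_mul_of_nonneg_right _ hNL
      refine le_trans ?_ b2
      apply div_le_div_of_nonneg_left hCs.le (by positivity)
      apply mul_le_mul_of_nonneg_left _ hκ.le
      exact le_mul_of_one_le_right hφ.le (by linarith)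
    have hεN : 0 ≤ ε * (N / L) := by positivity
    have hT : ε / 8 * ((N : ℝ) / L) = (ε * (N / L)) / 8 := by ring
    rw [hT] at herr hRs' hB' hR'
    linarith
  push Not at hqQ
  by_cases hβK : (K : ℝ) < |β| * N
  · left
    obtain ⟨b1, b2⟩ := hK _ hβK
    have hK1' : (1 : ℝ) ≤ K := by exact_mod_cast hK1
    have hB := hbb N g3 q a hq1 β (by linarith) hβN (fun _ => 1) (fun m => (cc z m : ℂ))
      (fun _ => by simp) (Adm_cc _)
    rw [← hz, ← hαβ, ← SB_eq] at hB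
    have hB' : ‖SB N z α‖ ≤ ε / 8 * (N / L) + ε / 8 * (N / L) := by
      refine hB.trans ?_
      have hqQ' : (q : ℝ) ^ 2 ≤ (Q : ℝ) ^ 2 := by
        have : (q : ℝ) ≤ Q := by exact_mod_cast hqQ
        exact pow_le_pow_left₀ hq0.le this 2
      have h0 : 0 ≤ (N / L) * Real.sqrt ((1 + Real.log (|β| * N)) / (|β| * N)) + N / L ^ 2 := by
        positivity
      have h1 : Cb * (q : ℝ) ^ 2 * ((N / L) * Real.sqrt ((1 + Real.log (|β| * N)) / (|β| * N)) +
          N / L ^ 2) ≤ Cb * (Q : ℝ) ^ 2 *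
            ((N / L) * Real.sqrt ((1 + Real.log (|β| * N)) / (|β| * N)) + N / L ^ 2) := by
        apply mul_le_mul_of_nonneg_right _ h0
        exact mul_le_mul_of_nonneg_left hqQ' hCb.le
      refine h1.trans ?_
      have h2 : Cb * (Q : ℝ) ^ 2 *
            ((N / L) * Real.sqrt ((1 + Real.log (|β| * N)) / (|β| * N)) + N / L ^ 2) =
          (Cb * (Q : ℝ) ^ 2 * Real.sqrt ((1 + Real.log (|β| * N)) / (|β| * N))) * (N / L) +
            (Cb * (Q : ℝ) ^ 2 / L) * (N / L) := by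
        rw [hNL2]
        ring
      rw [h2]
      have h3 : Cb * (Q : ℝ) ^ 2 / L ≤ ε / 8 := by
        rw [div_le_iff₀ hL]
        rw [div_le_iff₀ hε] at g9
        linarith
      exact add_le_add (mul_le_mul_of_nonneg_right b1 hNL) (mul_le_mul_of_nonneg_right h3 hNL)
    have hR' : (N / L) * (Cs / (κ * (q.totient * (1 + |β| * N)))) ≤ ε / 8 * (N / L) := by
      rw [mul_comm]
      apply mul_le_mul_of_nonneg_right _ hNL
      refine le_trans ?_ b2
      apply div_le_div_of_nonneg_left hCs.le (by positivity)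
      apply mul_le_mul_of_nonneg_left _ hκ.le
      exact le_mul_of_one_le_left (by linarith) hφ1
    have hεN : 0 ≤ ε * (N / L) := by positivity
    have hT : ε / 8 * ((N : ℝ) / L) = (ε * (N / L)) / 8 := by ring
    rw [hT] at herr hRs' hB' hR'
    linarith
  push Not at hβK
  right
  refine ⟨q, a, hq1, hqQ, hcop, ?_⟩
  rw [le_div_iff₀ hNpos]
  exact hβK

end Pool.Agent.Lib.MP_629a14_nt.Rob
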