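import Pool.Agent.Lib.MP_629a14_nt.Rob.Defs

/-! Definitions for the convolutions with `nu` and `gg`. -/

set_option autoImplicit false

namespace Pool.Agent.Lib.MP_629a14_nt.Rob

open Finset Pool.Agent.Lib.MP_629a14_nt

/-- Convolution of the primes of `B` (with weight `log N`) with `nu`. -/
noncomputable def fB (v N : ℕ) (B : Set ℕ) (n : ℕ) : ℝ := by
  classical exact ∑ b ∈ (Ico 1 n).filter (fun b => b.Prime ∧ b ∈ B), Real.log N * nu v (n - b)

/-- Convolution of the primes of `B` (with weight `log N`) with `gg`. -/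
noncomputable def fG (v N : ℕ) (B : Set ℕ) (n : ℕ) : ℝ := by
  classical exact ∑ b ∈ (Ico 1 n).filter (fun b => b.Prime ∧ b ∈ B), Real.log N * gg v N (n - b)

/-- Convolution of `nu` with `gg`. -/
noncomputable def nG (v N n : ℕ) : ℝ := ∑ m ∈ Ico 1 n, nu v m * gg v N (n - m)

/-- The frequency `-(h / (2 N + 1))`. -/
noncomputable def fr (N h : ℕ) : ℝ := -((h : ℝ) / (2 * N + 1 : ℕ))

/-- The Fourier transform of `gg`. -/
noncomputable def gh (v N : ℕ) (α : ℝ) : ℂ := (Real.log N : ℂ) * SP N α - SN v N α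

theorem gh_eq (v N : ℕ) (α : ℝ) :
    gh v N α = ∑ m ∈ Icc 1 N, (gg v N m : ℂ) * ee (m * α) := by
  unfold gh SP SN gg
  rw [mul_sum, sum_filter, ← sum_sub_distrib]
  refine sum_congr rfl fun m _ => ?_
  split_ifs
  · push_cast
    ring
  · push_cast
    ring

theorem nu_nonneg (v m : ℕ) : 0 ≤ nu v m := by
  unfold nu
  split_ifs
  · positivity
  · exact le_rfl

theorem nu_le (v m : ℕ) : nu v m ≤ (primorial v : ℝ) / (primorial v).totient := by
  unfold nu
  split_ifs
  · exact le_rfl
  · positivity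

end Pool.Agent.Lib.MP_629a14_nt.Rob
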