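import Pool.Agent.Lib.MP_629a14_nt.Rob.Blocks
import Pool.Agent.Lib.MP_629a14_nt.Rob.BT
import Pool.Agent.Lib.MP_629a14_nt.Rob.Geo
import Pool.Agent.Lib.MP_629a14_nt.Rob.QBilAux

/-! Bilinear bound near rationals with bounded denominators: saving in beta. -/

set_option autoImplicit false

namespace Pool.Agent.Lib.MP_629a14_nt.Rob

open Finset Pool.Agent.Lib.MP_629a14_nt

/-- dyadic decomposition of the weight -/
private theorem dyadic {D : ℝ} (hD : 0 < D) {n s0 K : ℕ} (hs0 : D ≤ s0) (hn : n ≤ 2 ^ K * s0) :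
    1 / (1 + (n : ℝ) / D) ≤
      ∑ k ∈ range (K + 1), (2 / 2 ^ k : ℝ) * (if n ≤ 2 ^ k * s0 then 1 else 0) := by
  classical
  have hex : ∃ k, n ≤ 2 ^ k * s0 := ⟨K, hn⟩
  set k := Nat.find hex with hk
  have hk1 : n ≤ 2 ^ k * s0 := Nat.find_spec hex
  have hkK : k ≤ K := Nat.find_min' hex hn
  have hterm : (2 / 2 ^ k : ℝ) ≤
      ∑ k ∈ range (K + 1), (2 / 2 ^ k : ℝ) * (if n ≤ 2 ^ k * s0 then 1 else 0) := by
    have h := single_le_sum (s := range (K + 1))
      (f := fun k => (2 / 2 ^ k : ℝ) * (if n ≤ 2 ^ k * s0 then 1 else 0))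
      (fun i _ => by split_ifs <;> positivity) (mem_range.2 (Nat.lt_succ_of_le hkK))
    simp only [if_pos hk1, mul_one] at h
    exact h
  refine le_trans ?_ hterm
  have hnD : 0 ≤ (n : ℝ) / D := by positivity
  rcases Nat.eq_zero_or_pos k with h0 | h0
  · rw [h0, pow_zero, div_one, div_le_iff₀ (by linarith)]
    linarith
  · have h1 : ¬ n ≤ 2 ^ (k - 1) * s0 := Nat.find_min hex (by omega)
    have h2 : ((2 ^ (k - 1) * s0 : ℕ) : ℝ) < n := by exact_mod_cast not_le.1 h1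
    push_cast at h2
    have h3 : (2 : ℝ) ^ k = 2 * 2 ^ (k - 1) := by
      rw [← pow_succ']
      congr 1
      omega
    rw [h3, div_le_div_iff₀ (by linarith) (by positivity)]
    have h4 : (2 : ℝ) ^ (k - 1) ≤ (n : ℝ) / D := by
      rw [le_div_iff₀ hD]
      have h5 : (2 : ℝ) ^ (k - 1) * D ≤ 2 ^ (k - 1) * s0 := by gcongr
      linarith
    linarith

private theorem cnt_near (z m s Y : ℕ) :
    ((Icc 1 Y).filter (fun n => Rough z n ∧ ((m : ℤ) - n).natAbs ≤ s)).card ≤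
      cntR (m - s - 1) (2 * s + 1) 1 0 z := by
  unfold cntR
  apply card_le_card
  intro n hn
  rw [mem_filter, mem_Icc] at hn
  rw [mem_filter, mem_Ioc]
  obtain ⟨⟨h1, h2⟩, h3, h4⟩ := hn
  refine ⟨⟨?_, ?_⟩, Nat.modEq_one, h3⟩
  · omega
  · omega

/-- an antitone predicate cuts out an initial segment -/
private theorem filter_range (J : ℕ) (p : ℕ → Prop) [DecidablePred p]
    (hp : ∀ a b, a ≤ b → p b → p a) : ∃ J' ≤ J, (range J).filter p = range J' := by
  induction J with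
  | zero => exact ⟨0, le_rfl, by simp⟩
  | succ J ih =>
    by_cases h : p J
    · refine ⟨J + 1, le_rfl, ?_⟩
      rw [filter_eq_self]
      intro a ha
      exact hp a J (by rw [mem_range] at ha; omega) h
    · obtain ⟨J', h1, h2⟩ := ih
      refine ⟨J', by omega, ?_⟩
      rw [range_add_one, filter_insert, if_neg h, h2]

/-- the sum over the blocks -/
private theorem geo_block {N z J i : ℕ} (hz : 1 ≤ z) (hJ : 1 ≤ J) (hJz : J ≤ z) {β : ℝ}
    (hβ : 2 * (N * |β|) / J ≤ 1 / 2) {m m' : ℕ} (hm : m ≤ N / Xs z i) (hm' : m' ≤ N / Xs z i) :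
    ‖∑ j ∈ (range J).filter (fun j => m ≤ N / Ps z J i j ∧ m' ≤ N / Ps z J i j),
      ee ((Ps z J i j : ℝ) * ((m : ℝ) - m') * β)‖ ≤
      2 * J * (1 / (1 + ((((m : ℤ) - m').natAbs : ℕ) : ℝ) / (1 / (Xs z i * |β|)))) := by
  have hX : (0 : ℝ) < Xs z i := by exact_mod_cast (lt_of_lt_of_le hz (QAux.le_Xs i))
  have hJ0 : (0 : ℝ) < J := by exact_mod_cast hJ
  have hXN : 0 < Xs z i := lt_of_lt_of_le hz (QAux.le_Xs i)
  obtain ⟨J', hJ', hfil⟩ := filter_range J
    (fun j => m ≤ N / Ps z J i j ∧ m' ≤ N / Ps z J i j) (by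
      intro a b hab h
      have hP : Ps z J i a ≤ Ps z J i b := by
        unfold Ps
        gcongr
      have hPa : 0 < Ps z J i a := lt_of_lt_of_le hXN (QAux.Xs_le_Ps z J i a)
      have h1 := Nat.div_le_div_left (a := N) hP hPa
      exact ⟨h.1.trans h1, h.2.trans h1⟩)
  rw [hfil]
  set θ : ℝ := (hs z J i : ℝ) * ((m : ℝ) - m') * β with hθ
  have habs : |(m : ℝ) - m'| = ((((m : ℤ) - m').natAbs : ℕ) : ℝ) := by
    rw [Nat.cast_natAbs]
    push_cast
    rfl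
  set n : ℕ := ((m : ℤ) - m').natAbs with hn
  have hnY : n ≤ N / Xs z i := by omega
  have hnX : (n : ℝ) ≤ N / Xs z i := by
    refine le_trans (b := (((N / Xs z i : ℕ)) : ℝ)) (by exact_mod_cast hnY) Nat.cast_div_le
  have hθabs : |θ| = (hs z J i : ℝ) * n * |β| := by
    rw [hθ, abs_mul, abs_mul, Nat.abs_cast, habs]
  have hθ2 : |θ| ≤ 1 / 2 := by
    rw [hθabs]
    refine le_trans ?_ hβ
    calc (hs z J i : ℝ) * n * |β| ≤ (2 * Xs z i / J) * (N / Xs z i) * |β| := by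
          gcongr
          exact QAux.hs_le hJ hJz
      _ = 2 * (N * |β|) / J := by field_simp
  have e1 : ∑ j ∈ range J', ee ((Ps z J i j : ℝ) * ((m : ℝ) - m') * β) =
      ee ((Xs z i : ℝ) * ((m : ℝ) - m') * β) * ∑ j ∈ Ico 0 (0 + J'), ee (j * θ) := by
    rw [mul_sum, zero_add, ← range_eq_Ico]
    refine sum_congr rfl fun j _ => ?_
    rw [← ee_add]
    congr 1
    rw [hθ]
    unfold Ps
    push_cast
    ring
  rw [e1, norm_mul, norm_ee, one_mul]
  refine (geom 0 J' J θ hJ0 (by exact_mod_cast hJ')).trans ?_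
  unfold gK
  rw [nn_eq_abs hθ2, hθabs, mul_one_div]
  apply div_le_div_of_nonneg_left (by positivity) (by positivity)
  have h3 : (n : ℝ) / (1 / (Xs z i * |β|)) = Xs z i * |β| * n := by
    rw [div_div_eq_mul_div, div_one]
    ring
  rw [h3]
  have h4 := QAux.le_hs (z := z) (i := i) hJ
  rw [div_le_iff₀ hJ0] at h4
  have h5 : (Xs z i : ℝ) * (|β| * n) ≤ (hs z J i : ℝ) * J * (|β| * n) := by gcongr
  linarith

/-- expansion of the square -/
private theorem square_block {N z J i : ℕ} (hz : 1 ≤ z) (hJ : 1 ≤ J) (hJz : J ≤ z) {β : ℝ}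
    (hβ : 2 * (N * |β|) / J ≤ 1 / 2) {g : ℕ → ℂ} (hg : Adm z g) :
    ∑ j ∈ range J, ‖∑ m ∈ Icc 1 (N / Ps z J i j), g m * ee ((Ps z J i j : ℝ) * m * β)‖ ^ 2 ≤
      ∑ m' ∈ (Icc 1 (N / Xs z i)).filter (Rough z), ∑ m ∈ (Icc 1 (N / Xs z i)).filter (Rough z),
        2 * J * (1 / (1 + ((((m : ℤ) - m').natAbs : ℕ) : ℝ) / (1 / (Xs z i * |β|)))) := by
  classical
  set R0 := (Icc 1 (N / Xs z i)).filter (Rough z) with hR0
  have hXN : 0 < Xs z i := lt_of_lt_of_le hz (QAux.le_Xs i)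
  have e0 : ∀ j ∈ range J, ∑ m ∈ Icc 1 (N / Ps z J i j), g m * ee ((Ps z J i j : ℝ) * m * β) =
      ∑ m ∈ R0, if m ≤ N / Ps z J i j then g m * ee ((Ps z J i j : ℝ) * m * β) else 0 := by
    intro j _
    rw [← sum_filter]
    symm
    apply sum_subset
    · intro m hm
      rw [mem_filter, hR0, mem_filter, mem_Icc] at hm
      rw [mem_Icc]
      exact ⟨hm.1.1.1, hm.2⟩
    · intro m hm hm'
      rw [mem_Icc] at hm
      have hle : N / Ps z J i j ≤ N / Xs z i :=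
        Nat.div_le_div_left (a := N) (QAux.Xs_le_Ps z J i j) hXN
      have : g m = 0 := by
        by_contra hne
        apply hm'
        rw [mem_filter, hR0, mem_filter, mem_Icc]
        exact ⟨⟨⟨hm.1, hm.2.trans hle⟩, ((hg m).2 hne).2⟩, hm.2⟩
      rw [this, zero_mul]
  have h1 : ((∑ j ∈ range J,
      ‖∑ m ∈ Icc 1 (N / Ps z J i j), g m * ee ((Ps z J i j : ℝ) * m * β)‖ ^ 2 : ℝ) : ℂ) =
      ∑ m' ∈ R0, ∑ m ∈ R0, (g m * (starRingEnd ℂ) (g m')) *
        ∑ j ∈ (range J).filter (fun j => m ≤ N / Ps z J i j ∧ m' ≤ N / Ps z J i j),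
          ee ((Ps z J i j : ℝ) * ((m : ℝ) - m') * β) := by
    rw [Complex.ofReal_sum]
    have h2 : ∀ j ∈ range J,
        ((‖∑ m ∈ Icc 1 (N / Ps z J i j), g m * ee ((Ps z J i j : ℝ) * m * β)‖ ^ 2 : ℝ) : ℂ) =
        ∑ m' ∈ R0, ∑ m ∈ R0, if m ≤ N / Ps z J i j ∧ m' ≤ N / Ps z J i j then
          (g m * (starRingEnd ℂ) (g m')) * ee ((Ps z J i j : ℝ) * ((m : ℝ) - m') * β) else 0 := by
      intro j hj
      rw [e0 j hj, Complex.ofReal_pow, ← Complex.mul_conj', map_sum, sum_mul_sum, sum_comm]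
      refine sum_congr rfl fun m' _ => sum_congr rfl fun m _ => ?_
      by_cases k1 : m ≤ N / Ps z J i j
      · by_cases k2 : m' ≤ N / Ps z J i j
        · rw [if_pos k1, if_pos k2, if_pos ⟨k1, k2⟩, map_mul, conj_ee]
          have : ee ((Ps z J i j : ℝ) * ((m : ℝ) - m') * β) =
              ee ((Ps z J i j : ℝ) * m * β) * ee (-((Ps z J i j : ℝ) * m' * β)) := by
            rw [← ee_add]
            congr 1
            ring
          rw [this]
          ring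
        · rw [if_neg k2, map_zero, mul_zero]
          exact (if_neg (fun h => k2 h.2)).symm
      · rw [if_neg k1, zero_mul]
        exact (if_neg (fun h => k1 h.1)).symm
    rw [sum_congr rfl h2, sum_comm]
    refine sum_congr rfl fun m' _ => ?_
    rw [sum_comm]
    refine sum_congr rfl fun m _ => ?_
    rw [mul_sum, sum_filter]
  have h3 : (∑ j ∈ range J,
      ‖∑ m ∈ Icc 1 (N / Ps z J i j), g m * ee ((Ps z J i j : ℝ) * m * β)‖ ^ 2 : ℝ) =
      ‖((∑ j ∈ range J,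
      ‖∑ m ∈ Icc 1 (N / Ps z J i j), g m * ee ((Ps z J i j : ℝ) * m * β)‖ ^ 2 : ℝ) : ℂ)‖ := by
    rw [Complex.norm_real, Real.norm_eq_abs, abs_of_nonneg]
    exact sum_nonneg fun p _ => by positivity
  rw [h3, h1]
  refine (norm_sum_le _ _).trans (sum_le_sum fun m' hm' => ?_)
  refine (norm_sum_le _ _).trans (sum_le_sum fun m hm => ?_)
  rw [norm_mul, norm_mul, RCLike.norm_conj]
  have h5 : ‖g m‖ * ‖g m'‖ ≤ 1 := by
    calc ‖g m‖ * ‖g m'‖ ≤ 1 * 1 := mul_le_mul (hg m).1 (hg m').1 (norm_nonneg _) zero_le_one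
      _ = 1 := one_mul 1
  rw [hR0, mem_filter, mem_Icc] at hm hm'
  have h6 := geo_block (i := i) hz hJ hJz hβ hm.1.2 hm'.1.2
  calc ‖g m‖ * ‖g m'‖ * ‖∑ j ∈ (range J).filter (fun j => m ≤ N / Ps z J i j ∧
          m' ≤ N / Ps z J i j), ee ((Ps z J i j : ℝ) * ((m : ℝ) - m') * β)‖
      ≤ 1 * (2 * J * (1 / (1 + ((((m : ℤ) - m').natAbs : ℕ) : ℝ) / (1 / (Xs z i * |β|))))) :=
        mul_le_mul h5 h6 (norm_nonneg _) zero_le_one
    _ = _ := one_mul _

/-- the sum over a row -/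
private theorem row_sum {z Y0 s0 K : ℕ} {D C L : ℝ} (hD : 0 < D) (hs0 : D ≤ s0) (h1s : 1 ≤ s0)
    (hC : 0 < C) (hL : 0 < L) (hK : Y0 ≤ 2 ^ K * s0)
    (hbt : ∀ y h : ℕ, s0 ≤ h → (cntR y h 1 0 z : ℝ) ≤ C * (h / L)) {m' : ℕ} (hm' : m' ≤ Y0) :
    ∑ m ∈ (Icc 1 Y0).filter (Rough z), 1 / (1 + ((((m : ℤ) - m').natAbs : ℕ) : ℝ) / D) ≤
      6 * C * s0 * (K + 1) / L := by
  classical
  calc ∑ m ∈ (Icc 1 Y0).filter (Rough z), 1 / (1 + ((((m : ℤ) - m').natAbs : ℕ) : ℝ) / D)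
      ≤ ∑ m ∈ (Icc 1 Y0).filter (Rough z), ∑ k ∈ range (K + 1),
          (2 / 2 ^ k : ℝ) * (if ((m : ℤ) - m').natAbs ≤ 2 ^ k * s0 then 1 else 0) := by
        refine sum_le_sum fun m hm => dyadic hD hs0 ?_
        rw [mem_filter, mem_Icc] at hm
        omega
    _ = ∑ k ∈ range (K + 1), (2 / 2 ^ k : ℝ) *
          (((Icc 1 Y0).filter (fun n => Rough z n ∧
            ((m' : ℤ) - n).natAbs ≤ 2 ^ k * s0)).card : ℝ) := by
        rw [sum_comm]
        refine sum_congr rfl fun k _ => ?_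
        rw [← mul_sum, sum_boole, filter_filter]
        congr 3
        ext n
        simp only [mem_filter]
        rw [← Int.natAbs_neg, neg_sub]
    _ ≤ ∑ k ∈ range (K + 1), 6 * C * s0 / L := by
        refine sum_le_sum fun k _ => ?_
        have h1 : s0 ≤ 2 ^ k * s0 := Nat.le_mul_of_pos_left _ (by positivity)
        have h2 := cnt_near z m' (2 ^ k * s0) Y0
        have h3 := hbt (m' - 2 ^ k * s0 - 1) (2 * (2 ^ k * s0) + 1) (by omega)
        have h4 : (((Icc 1 Y0).filter (fun n => Rough z n ∧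
            ((m' : ℤ) - n).natAbs ≤ 2 ^ k * s0)).card : ℝ) ≤
            C * (((2 * (2 ^ k * s0) + 1 : ℕ) : ℝ) / L) := le_trans (by exact_mod_cast h2) h3
        calc (2 / 2 ^ k : ℝ) * (((Icc 1 Y0).filter (fun n => Rough z n ∧
            ((m' : ℤ) - n).natAbs ≤ 2 ^ k * s0)).card : ℝ)
            ≤ (2 / 2 ^ k : ℝ) * (C * (((2 * (2 ^ k * s0) + 1 : ℕ) : ℝ) / L)) := by gcongr
          _ ≤ (2 / 2 ^ k : ℝ) * (C * ((3 * (2 ^ k * s0) : ℝ) / L)) := by
              gcongr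
              push_cast
              have h5 : (1 : ℝ) ≤ 2 ^ k * s0 := by
                exact_mod_cast h1s.trans h1
              linarith
          _ = 6 * C * s0 / L := by
              field_simp
              ring
    _ = 6 * C * s0 * (K + 1) / L := by
        rw [sum_const, card_range, nsmul_eq_mul]
        push_cast
        ring

/-- the main term of the range `i` -/
private theorem range_main {N z J i K : ℕ} {β C L : ℝ} (hz : 1 ≤ z) (hJ : 1 ≤ J) (hJz : J ≤ z)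
    (hβ : 2 * (N * |β|) / J ≤ 1 / 2) (hβ0 : 0 < |β|) (hN : 1 ≤ N) (hC : 0 < C) (hL : 0 < L)
    (hK : |β| * N ≤ 2 ^ K) (hβz : |β| * N ≤ z)
    (hbt : ∀ y h : ℕ, (z : ℝ) / max (J : ℝ) (|β| * N) ≤ h → (cntR y h 1 0 z : ℝ) ≤ C * (h / L))
    (f g : ℕ → ℂ) (hf : ∀ p, ‖f p‖ ≤ 1) (hg : Adm z g) :
    ‖∑ j ∈ range J, ∑ p ∈ bl z J i j, ∑ m ∈ Icc 1 (N / Ps z J i j), f p * g m *
      ee ((Ps z J i j : ℝ) * m * β)‖ ≤
      10 * C ^ 2 * (N / L ^ 2) * Real.sqrt ((K + 1) / (|β| * N)) := by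
  have hJ0 : (0 : ℝ) < J := by exact_mod_cast hJ
  have hX : (0 : ℝ) < Xs z i := by exact_mod_cast (lt_of_lt_of_le hz (QAux.le_Xs i))
  have hXN : 0 < Xs z i := lt_of_lt_of_le hz (QAux.le_Xs i)
  have hN0 : (0 : ℝ) < N := by exact_mod_cast hN
  set Y0 := N / Xs z i with hY0
  set h := hs z J i with hh
  set D : ℝ := 1 / (Xs z i * |β|) with hD
  have hD0 : 0 < D := by positivity
  have hrhs : 0 ≤ 10 * C ^ 2 * (N / L ^ 2) * Real.sqrt ((K + 1) / (|β| * N)) := by positivity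
  rcases lt_or_ge Y0 z with hYz | hYz
  · have h0 : ∑ j ∈ range J, ∑ p ∈ bl z J i j, ∑ m ∈ Icc 1 (N / Ps z J i j), f p * g m *
      ee ((Ps z J i j : ℝ) * m * β) = 0 := by
      apply sum_eq_zero
      intro j _
      apply sum_eq_zero
      intro p _
      apply sum_eq_zero
      intro m hm
      have : g m = 0 := by
        by_contra hne
        have h1 := hg.le hne
        have h2 := (mem_Icc.1 hm).2
        have hle : N / Ps z J i j ≤ N / Xs z i :=
          Nat.div_le_div_left (a := N) (QAux.Xs_le_Ps z J i j) hXN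
        omega
      rw [this]
      ring
    rw [h0, norm_zero]
    exact hrhs
  -- sizes
  have hY0N : (Y0 : ℝ) ≤ N / Xs z i := Nat.cast_div_le
  have hzY : (z : ℝ) ≤ N / Xs z i := le_trans (by exact_mod_cast hYz) hY0N
  have hD1 : (z : ℝ) / (|β| * N) ≤ D := by
    rw [hD, div_le_div_iff₀ (by positivity) (by positivity), one_mul]
    rw [le_div_iff₀ hX] at hzY
    nlinarith
  have hD2 : 1 ≤ D := by
    refine le_trans ?_ hD1
    rw [le_div_iff₀ (by positivity), one_mul]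
    exact hβz
  have hz0 : (0 : ℝ) < z := by exact_mod_cast hz
  set s0 : ℕ := ⌈D⌉₊ with hs0
  have hs1 : D ≤ s0 := Nat.le_ceil _
  have hs2 : (s0 : ℝ) ≤ 2 * D := by
    have := Nat.ceil_lt_add_one hD0.le
    linarith
  have hs3 : 1 ≤ s0 := by
    have : (1 : ℝ) ≤ s0 := hD2.trans hs1
    exact_mod_cast this
  have hYK : Y0 ≤ 2 ^ K * s0 := by
    have h1 : (Y0 : ℝ) ≤ 2 ^ K * s0 := by
      calc (Y0 : ℝ) ≤ N / Xs z i := hY0N
        _ = (|β| * N) * D := by
          rw [hD]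
          field_simp
        _ ≤ 2 ^ K * s0 := by gcongr
    exact_mod_cast h1
  have hmax1 : (z : ℝ) / max (J : ℝ) (|β| * N) ≤ z / J :=
    div_le_div_of_nonneg_left hz0.le hJ0 (le_max_left _ _)
  have hmax2 : (z : ℝ) / max (J : ℝ) (|β| * N) ≤ z / (|β| * N) :=
    div_le_div_of_nonneg_left hz0.le (by positivity) (le_max_right _ _)
  have hbt2 : ∀ y h : ℕ, s0 ≤ h → (cntR y h 1 0 z : ℝ) ≤ C * (h / L) := by
    intro y h hh
    apply hbt
    have h2 : (s0 : ℝ) ≤ h := by exact_mod_cast hh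
    linarith
  -- the first factor
  set F : ℕ → ℂ := fun j => ∑ p ∈ bl z J i j, f p with hF
  set S : ℕ → ℂ := fun j => ∑ m ∈ Icc 1 (N / Ps z J i j), g m * ee ((Ps z J i j : ℝ) * m * β) with hS
  have e1 : ∑ j ∈ range J, ∑ p ∈ bl z J i j, ∑ m ∈ Icc 1 (N / Ps z J i j), f p * g m *
      ee ((Ps z J i j : ℝ) * m * β) = ∑ j ∈ range J, F j * S j := by
    refine sum_congr rfl fun j _ => ?_
    rw [hF, hS, sum_mul]
    refine sum_congr rfl fun p _ => ?_
    rw [mul_sum]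
    refine sum_congr rfl fun m _ => ?_
    ring
  have hFj : ∀ j, ‖F j‖ ≤ C * (h / L) := by
    intro j
    rw [hF]
    have h1 : ‖∑ p ∈ bl z J i j, f p‖ ≤ ((bl z J i j).card : ℝ) := by
      refine (norm_sum_le _ _).trans ?_
      calc ∑ p ∈ bl z J i j, ‖f p‖ ≤ ∑ p ∈ bl z J i j, (1 : ℝ) := sum_le_sum fun p _ => hf p
        _ = _ := by simp
    refine h1.trans ?_
    have hzh : (z : ℝ) / J ≤ h := by
      refine le_trans ?_ (QAux.le_hs (z := z) (i := i) hJ)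
      apply div_le_div_of_nonneg_right _ hJ0.le
      exact_mod_cast QAux.le_Xs i
    have hzP : z ≤ Ps z J i j := (QAux.le_Xs i).trans (QAux.Xs_le_Ps z J i j)
    refine le_trans ?_ (hbt (Ps z J i j - 1) h (hmax1.trans hzh))
    have h2 := primes_le_cntR (Ps z J i j - 1) h 1 0 z (by omega)
    have h3 : bl z J i j ⊆ (Ioc (Ps z J i j - 1) (Ps z J i j - 1 + h)).filter
        (fun p => p.Prime ∧ p ≡ 0 [MOD 1]) := by
      intro p hp
      obtain ⟨k1, k2, k3⟩ := QAux.mem_bl hp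
      rw [mem_filter, mem_Ioc]
      exact ⟨⟨by omega, by omega⟩, k1, Nat.modEq_one⟩
    exact_mod_cast (card_le_card h3).trans h2
  have hF2 : ∑ j ∈ range J, ‖F j‖ ^ 2 ≤ J * (C * (h / L)) ^ 2 := by
    calc ∑ j ∈ range J, ‖F j‖ ^ 2 ≤ ∑ j ∈ range J, (C * ((h : ℝ) / L)) ^ 2 := by
          refine sum_le_sum fun j _ => ?_
          exact pow_le_pow_left₀ (norm_nonneg _) (hFj j) 2
      _ = _ := by
          rw [sum_const, card_range, nsmul_eq_mul]
  -- the second factor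
  have hR0 : (((Icc 1 Y0).filter (Rough z)).card : ℝ) ≤ C * (Y0 / L) := by
    have h0 : (z : ℝ) / J ≤ Y0 := by
      have h1 : (z : ℝ) / J ≤ z := div_le_self hz0.le (by exact_mod_cast hJ)
      exact h1.trans (by exact_mod_cast hYz)
    have h1 := hbt 0 Y0 (hmax1.trans h0)
    refine le_trans ?_ h1
    unfold cntR
    have h3 : (Icc 1 Y0).filter (Rough z) ⊆
        (Ioc 0 (0 + Y0)).filter (fun n => n ≡ 0 [MOD 1] ∧ Rough z n) := by
      intro m hm
      rw [mem_filter, mem_Icc] at hm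
      rw [mem_filter, mem_Ioc]
      exact ⟨⟨by omega, by omega⟩, Nat.modEq_one, hm.2⟩
    exact_mod_cast card_le_card h3
  have hS2 : ∑ j ∈ range J, ‖S j‖ ^ 2 ≤
      C * (Y0 / L) * (2 * J * (6 * C * s0 * (K + 1) / L)) := by
    refine (square_block (i := i) hz hJ hJz hβ hg).trans ?_
    calc ∑ m' ∈ (Icc 1 Y0).filter (Rough z), ∑ m ∈ (Icc 1 Y0).filter (Rough z),
          2 * (J : ℝ) * (1 / (1 + ((((m : ℤ) - m').natAbs : ℕ) : ℝ) / D))
        ≤ ∑ m' ∈ (Icc 1 Y0).filter (Rough z), 2 * J * (6 * C * s0 * (K + 1) / L) := by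
          refine sum_le_sum fun m' hm' => ?_
          rw [← mul_sum]
          apply mul_le_mul_of_nonneg_left _ (by positivity)
          rw [mem_filter, mem_Icc] at hm'
          exact row_sum hD0 hs1 hs3 hC hL hYK hbt2 hm'.1.2
      _ = (((Icc 1 Y0).filter (Rough z)).card : ℝ) * (2 * J * (6 * C * s0 * (K + 1) / L)) := by
          rw [sum_const, nsmul_eq_mul]
      _ ≤ C * (Y0 / L) * (2 * J * (6 * C * s0 * (K + 1) / L)) := by
          gcongr
  rw [e1]
  have hhJ : (h : ℝ) * J ≤ 2 * Xs z i := by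
    have := QAux.hs_le (i := i) hJ hJz
    rwa [le_div_iff₀ hJ0] at this
  have hsq : ‖∑ j ∈ range J, F j * S j‖ ^ 2 ≤
      (10 * C ^ 2 * (N / L ^ 2) * Real.sqrt ((K + 1) / (|β| * N))) ^ 2 := by
    calc ‖∑ j ∈ range J, F j * S j‖ ^ 2 ≤ (∑ j ∈ range J, ‖F j‖ * ‖S j‖) ^ 2 := by
          gcongr
          refine (norm_sum_le _ _).trans (sum_le_sum fun b _ => ?_)
          rw [norm_mul]
      _ ≤ (∑ j ∈ range J, ‖F j‖ ^ 2) * ∑ j ∈ range J, ‖S j‖ ^ 2 := sum_mul_sq_le_sq_mul_sq _ _ _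
      _ ≤ (J * (C * (h / L)) ^ 2) * (C * (Y0 / L) * (2 * J * (6 * C * s0 * (K + 1) / L))) := by
          gcongr
      _ = 12 * C ^ 4 / L ^ 4 * (K + 1) * (h * J) ^ 2 * (Y0 * s0) := by
          field_simp
          ring
      _ ≤ 12 * C ^ 4 / L ^ 4 * (K + 1) * (2 * Xs z i) ^ 2 * ((N / Xs z i) * (2 * D)) := by
          gcongr
      _ = 96 * C ^ 4 / L ^ 4 * (K + 1) * (N / |β|) := by
          rw [hD]
          field_simp
          ring
      _ ≤ 100 * C ^ 4 / L ^ 4 * (K + 1) * (N / |β|) := by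
          gcongr
          norm_num
      _ = (10 * C ^ 2 * (N / L ^ 2) * Real.sqrt ((K + 1) / (|β| * N))) ^ 2 := by
          rw [mul_pow, Real.sq_sqrt (by positivity)]
          field_simp
          ring
  have hle := abs_le_of_sq_le_sq hsq hrhs
  rwa [abs_of_nonneg (norm_nonneg _)] at hle

/-- `J = ⌈(log N)^(B+5)⌉`, `blocks`, and in the block `(i, j)` replace `e(p m β)` by `e(Ps m β)` as in
`QBil`. For fixed `i` (`X = Xs z i`, `h = hs z J i`), with `F j = ∑_{p ∈ bl} f p`, `|F j| ≤ C h / L`: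
Cauchy-Schwarz over `j` gives `(∑_j |F j|^2) (∑_j |∑_{m ≤ N / Ps} g m e(Ps m β)|^2)`; expand the
square, the sum over `j` (an initial segment of `range J`) is a geometric sum with ratio
`e(h (m - m') β)`, `|h (m - m') β| ≤ 1/2`, so at most `J * min 1 (D / |m - m'|)`, `D = 1/(X |β|)`.
For each `m` the number of rough `m'` with `|m - m'| ≤ t`, `t ≥ D`, is at most `C t / L` by `bt`, so
`∑_{m'} min 1 (D/|m-m'|) ≤ C (D / L) (1 + log (|β| N))` by a dyadic decomposition. In total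
`C (N / L^2)^2 (1 + log (|β| N)) / (|β| N)` for the square; sum over at most `2 L` values of `i`.
If `N / X < z` the sum over `m` is empty. -/
theorem bbil (κ : ℝ) (hκ : 0 < κ) (hκ1 : κ ≤ 1) (B : ℕ) : ∃ C : ℝ, 0 < C ∧ ∃ N₀ : ℕ,
    ∀ N : ℕ, N₀ ≤ N → ∀ β : ℝ, 1 ≤ |β| * N → |β| * N ≤ Real.log N ^ B → ∀ f g : ℕ → ℂ,
      (∀ p, ‖f p‖ ≤ 1) → Adm ⌊(N : ℝ) ^ κ⌋₊ g →
        ‖GS N ⌊(N : ℝ) ^ κ⌋₊ f g β‖ ≤
          C * ((N / Real.log N) * Real.sqrt ((1 + Real.log (|β| * N)) / (|β| * N)) +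
            N / Real.log N ^ 2) := by
  obtain ⟨C1, hC1, hbl⟩ := blocks
  obtain ⟨C2, hC2, N2, hbt⟩ := bt κ hκ hκ1
  obtain ⟨N3, hN3⟩ := QAux.facts κ hκ hκ1 B
  refine ⟨3 * C1 + 24 * Real.pi + 60 * C2 ^ 2, by positivity, max N2 N3, ?_⟩
  intro N hN β hβ1 hβ f g hf hg
  obtain ⟨T, hT1, hT2, hT3, hT4, hT5, hL2, hT6, hlog, hN1⟩ := hN3 N (le_trans (le_max_right _ _) hN)
  obtain ⟨hz4, hJ2, hJz, hzN, hJL, hJL2, hzT, hJT⟩ := QAux.facts2 (B := B) hT3 hT4 hT5 hL2 hT6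
  set z := ⌊(N : ℝ) ^ κ⌋₊ with hz
  set J := ⌈Real.log N ^ (B + 5)⌉₊ with hJ
  set L := Real.log N with hL
  have hL0 : 0 < L := by linarith
  have hN0 : (0 : ℝ) < N := by exact_mod_cast hN1
  have hJ0 : (0 : ℝ) < J := by exact_mod_cast (show 0 < J by omega)
  have hβ0 : 0 < |β| := by
    by_contra h0
    have h1 : |β| = 0 := le_antisymm (not_lt.1 h0) (abs_nonneg _)
    rw [h1, zero_mul] at hβ1
    linarith
  have hLB : L ^ B ≤ T := by
    have h1 : L ^ B ≤ L ^ (B + 6) := pow_le_pow_right₀ (by linarith) (by omega)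
    have h2 : 0 ≤ L ^ (B + 6) := by positivity
    linarith
  have hTT : T ≤ T ^ 16 / 2 := by
    have : T ^ 2 ≤ T ^ 16 := pow_le_pow_right₀ (by linarith) (by norm_num)
    nlinarith
  have hbt' : ∀ y h : ℕ, (z : ℝ) / max (J : ℝ) (|β| * N) ≤ h →
      (cntR y h 1 0 z : ℝ) ≤ C2 * ((h : ℝ) / L) := by
    intro y h hh
    have h1 := hbt N (le_trans (le_max_left _ _) hN) y h 1 0 le_rfl
      (by rw [hT1]; push_cast; linarith) (Nat.coprime_one_right 0) (by
        rw [hT2]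
        refine le_trans ?_ hh
        have hmax : max (J : ℝ) (|β| * N) ≤ T := max_le hJT (hβ.trans hLB)
        have hmax0 : 0 < max (J : ℝ) (|β| * N) := lt_of_lt_of_le hJ0 (le_max_left _ _)
        rw [le_div_iff₀ hmax0]
        calc T ^ 8 * max (J : ℝ) (|β| * N) ≤ T ^ 8 * T := by gcongr
          _ = T ^ 9 := by ring
          _ ≤ T ^ 16 / 2 := by
            have h1 : T ^ 10 ≤ T ^ 16 := pow_le_pow_right₀ (by linarith) (by norm_num)
            have h2 : T ^ 10 = T ^ 9 * T := by ring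
            have h3 : 0 ≤ T ^ 9 := by positivity
            nlinarith
          _ ≤ z := hzT)
    rw [Nat.totient_one, Nat.cast_one, one_mul] at h1
    exact h1
  -- the blocks
  have s1 := hbl N z J hz4 hJ2 hJz hzN f g β hf hg
  have s1' : ‖GS N z f g β - BS N z J f g β‖ ≤ 3 * C1 * (N / L ^ 2) := by
    refine s1.trans ?_
    have h1 : (N : ℝ) * (1 + L) / J ≤ 2 * (N / L ^ 2) := by
      have h2 : L ^ 3 ≤ J := by
        refine le_trans ?_ hJL
        exact pow_le_pow_right₀ (by linarith) (by omega)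
      rw [div_le_iff₀ hJ0]
      calc (N : ℝ) * (1 + L) ≤ N * (2 * L) := by gcongr; linarith
        _ = 2 * (N / L ^ 2) * L ^ 3 := by field_simp
        _ ≤ 2 * (N / L ^ 2) * J := by gcongr
    have h3 : (N : ℝ) / z ≤ N / L ^ 2 := by
      apply div_le_div_of_nonneg_left hN0.le (by positivity)
      have h4 : L ^ 2 ≤ L ^ (B + 6) := pow_le_pow_right₀ (by linarith) (by omega)
      have h5 : 0 ≤ L ^ (B + 6) := by positivity
      linarith
    have h6 : 0 ≤ (N : ℝ) / L ^ 2 := by positivity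
    nlinarith
  -- the smooth phase
  set c : ℕ → ℕ → ℂ := fun p m => f p * g m with hc
  have hc1 : ∀ p m, ‖c p m‖ ≤ 1 := by
    intro p m
    rw [hc]
    simp only
    rw [norm_mul]
    calc ‖f p‖ * ‖g m‖ ≤ 1 * 1 := mul_le_mul (hf p) (hg m).1 (norm_nonneg _) zero_le_one
      _ = 1 := one_mul 1
  have s2 := QAux.replace (N := N) (z := z) (J := J) (by omega) (by omega) hJz c hc1 β
  have hBS : BS N z J f g β = ∑ i ∈ range (Nat.log 2 N + 1), ∑ j ∈ range J,
      ∑ p ∈ bl z J i j, ∑ m ∈ Icc 1 (N / Ps z J i j), c p m * ee ((p : ℝ) * m * β) := rfl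
  rw [← hBS] at s2
  set M : ℂ := ∑ i ∈ range (Nat.log 2 N + 1), ∑ j ∈ range J, ∑ p ∈ bl z J i j,
        ∑ m ∈ Icc 1 (N / Ps z J i j), c p m * ee ((Ps z J i j : ℝ) * m * β) with hM
  have s2' : ‖BS N z J f g β - M‖ ≤ 24 * Real.pi * (N / L ^ 2) := by
    refine s2.trans ?_
    have h1 : |β| * N / J ≤ 1 / L ^ 3 := by
      rw [div_le_div_iff₀ hJ0 (by positivity), one_mul]
      calc |β| * N * L ^ 3 ≤ L ^ B * L ^ 3 := by gcongr
        _ = L ^ (B + 3) := by rw [pow_add]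
        _ ≤ L ^ (B + 5) := pow_le_pow_right₀ (by linarith) (by omega)
        _ ≤ J := hJL
    calc ((Nat.log 2 N + 1 : ℕ) : ℝ) * (8 * Real.pi * N * (|β| * N) / J)
        = ((Nat.log 2 N + 1 : ℕ) : ℝ) * (8 * Real.pi * N * (|β| * N / J)) := by ring
      _ ≤ (3 * L) * (8 * Real.pi * N * (1 / L ^ 3)) := by
          gcongr
      _ = 24 * Real.pi * (N / L ^ 2) := by
          field_simp
          ring
  -- the dyadic exponent
  set A : ℝ := |β| * N with hA
  obtain ⟨K, hK1, hK2⟩ : ∃ K : ℕ, A ≤ 2 ^ K ∧ (K : ℝ) + 1 ≤ 3 * (1 + Real.log A) := by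
    have hlogA : 0 ≤ Real.log A := Real.log_nonneg hβ1
    refine ⟨⌈Real.log A / Real.log 2⌉₊, ?_, ?_⟩
    · have h2 : (0 : ℝ) < Real.log 2 := Real.log_pos one_lt_two
      have h3 : Real.log A / Real.log 2 ≤ (⌈Real.log A / Real.log 2⌉₊ : ℝ) := Nat.le_ceil _
      rw [div_le_iff₀ h2, ← Real.log_pow] at h3
      exact (Real.log_le_log_iff (by linarith) (by positivity)).1 h3
    · have h2 : (0.6931471803 : ℝ) < Real.log 2 := Real.log_two_gt_d9
      have h3 := Nat.ceil_lt_add_one (div_nonneg hlogA (by linarith : (0 : ℝ) ≤ Real.log 2))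
      have h4 : Real.log A / Real.log 2 ≤ 2 * Real.log A := by
        rw [div_le_iff₀ (by linarith)]
        nlinarith
      linarith
  have hβJ : 2 * (N * |β|) / J ≤ 1 / 2 := by
    rw [div_le_iff₀ hJ0]
    have h1 : (N : ℝ) * |β| = A := by rw [hA]; ring
    rw [h1]
    have h2 : L ^ B * 4 ≤ J := by
      refine le_trans ?_ hJL
      rw [pow_add]
      have h3 : (4 : ℝ) ≤ L ^ 5 := by
        calc (4 : ℝ) ≤ 2 ^ 5 := by norm_num
          _ ≤ L ^ 5 := by gcongr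
      gcongr
    linarith
  have hβz : A ≤ z := by linarith
  have s3 : ‖M‖ ≤ 60 * C2 ^ 2 * ((N / L) * Real.sqrt ((1 + Real.log A) / A)) := by
    have h1 : ‖M‖ ≤ ∑ i ∈ range (Nat.log 2 N + 1),
        10 * C2 ^ 2 * (N / L ^ 2) * Real.sqrt ((K + 1) / A) := by
      rw [hM]
      refine (norm_sum_le _ _).trans (sum_le_sum fun i _ => ?_)
      exact range_main (by omega) (by omega) hJz hβJ hβ0 hN1 hC2 hL0 hK1 hβz hbt' f g hf hg
    refine h1.trans ?_
    rw [sum_const, card_range, nsmul_eq_mul]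
    have hlogA : 0 ≤ Real.log A := Real.log_nonneg hβ1
    have h5 : Real.sqrt ((K + 1) / A) ≤ 2 * Real.sqrt ((1 + Real.log A) / A) := by
      have h6 : (2 : ℝ) = Real.sqrt 4 := by
        rw [show (4 : ℝ) = 2 ^ 2 by norm_num, Real.sqrt_sq (by norm_num)]
      rw [h6, ← Real.sqrt_mul (by norm_num)]
      apply Real.sqrt_le_sqrt
      rw [← mul_div_assoc]
      apply div_le_div_of_nonneg_right _ (by linarith)
      linarith
    calc ((Nat.log 2 N + 1 : ℕ) : ℝ) * (10 * C2 ^ 2 * (N / L ^ 2) * Real.sqrt ((K + 1) / A))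
        ≤ (3 * L) * (10 * C2 ^ 2 * (N / L ^ 2) * (2 * Real.sqrt ((1 + Real.log A) / A))) := by
          gcongr
      _ = 60 * C2 ^ 2 * ((N / L) * Real.sqrt ((1 + Real.log A) / A)) := by
          field_simp
          ring
  have h7 : GS N z f g β = (GS N z f g β - BS N z J f g β) + (BS N z J f g β - M) + M := by ring
  have h8 : 0 ≤ (N : ℝ) / L ^ 2 := by positivity
  have h9 : 0 ≤ ((N : ℝ) / L) * Real.sqrt ((1 + Real.log A) / A) := by positivity
  have hpi := Real.pi_pos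
  calc ‖GS N z f g β‖
      ≤ 3 * C1 * (N / L ^ 2) + 24 * Real.pi * (N / L ^ 2) +
        60 * C2 ^ 2 * ((N / L) * Real.sqrt ((1 + Real.log A) / A)) := by
        rw [h7]
        refine (norm_add₃_le).trans ?_
        linarith
    _ ≤ (3 * C1 + 24 * Real.pi + 60 * C2 ^ 2) *
        ((N / L) * Real.sqrt ((1 + Real.log A) / A) + N / L ^ 2) := by
        have k1 : 0 ≤ (3 * C1 + 24 * Real.pi) *
            (((N : ℝ) / L) * Real.sqrt ((1 + Real.log A) / A)) := by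
          positivity
        have k2 : 0 ≤ 60 * C2 ^ 2 * ((N : ℝ) / L ^ 2) := by positivity
        nlinarith

end Pool.Agent.Lib.MP_629a14_nt.Rob
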