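import Pool.Agent.Lib.MP_629a14_nt.Rob.Defs

/-! Ramaré's identity. -/

set_option autoImplicit false

namespace Pool.Agent.Lib.MP_629a14_nt.Rob

open Finset Pool.Agent.Lib.MP_629a14_nt

private theorem cc_nonneg' (z m : ℕ) : 0 ≤ cc z m := by
  unfold cc
  split_ifs
  · positivity
  · exact le_rfl

private theorem cc_ne_zero' {z m : ℕ} (h : cc z m ≠ 0) : 1 < m ∧ Rough z m := by
  unfold cc at h
  by_contra hc
  rw [if_neg hc] at h
  exact h rfl

/-- the total weight of `n` -/
private noncomputable def rw' (N z n : ℕ) : ℝ :=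
  ∑ p ∈ (Icc z N).filter Nat.Prime, if p ∣ n then cc z (n / p) else 0

private lemma rw_notRough {N z n : ℕ} (hn : 1 ≤ n) (h : ¬ Rough z n) : rw' N z n = 0 := by
  unfold rw'
  refine sum_eq_zero fun p hp => ?_
  rw [mem_filter, mem_Icc] at hp
  obtain ⟨⟨hp1, _⟩, hp3⟩ := hp
  split_ifs with hd
  · by_contra hne
    obtain ⟨_, hr⟩ := cc_ne_zero' hne
    apply h
    intro q hq hqn
    obtain ⟨m, rfl⟩ := hd
    rw [Nat.mul_div_cancel_left m hp3.pos] at hr
    rcases (Nat.Prime.dvd_mul hq).1 hqn with h1 | h1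
    · rw [(Nat.prime_dvd_prime_iff_eq hq hp3).1 h1]
      exact hp1
    · exact hr q hq h1
  · rfl

private lemma rw_one {N z : ℕ} : rw' N z 1 = 0 := by
  unfold rw'
  refine sum_eq_zero fun p hp => ?_
  rw [mem_filter, mem_Icc] at hp
  rw [if_neg]
  intro hd
  exact hp.2.one_lt.ne' (Nat.dvd_one.1 hd)

private lemma rw_prime {N z n : ℕ} (hn : n.Prime) : rw' N z n = 0 := by
  unfold rw'
  refine sum_eq_zero fun p hp => ?_
  rw [mem_filter, mem_Icc] at hp
  split_ifs with hd
  · have : p = n := (Nat.prime_dvd_prime_iff_eq hp.2 hn).1 hd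
    subst this
    rw [Nat.div_self hn.pos]
    unfold cc
    rw [if_neg]
    rintro ⟨h, _⟩
    exact absurd h (lt_irrefl _)
  · rfl

private lemma rw_comp {N z n : ℕ} (hnN : n ≤ N) (h1 : 1 < n) (hnp : ¬ n.Prime)
    (hr : Rough z n) :
    rw' N z n = (ArithmeticFunction.cardDistinctFactors n : ℝ)
      / (ArithmeticFunction.cardFactors n : ℝ) := by
  unfold rw'
  rw [← sum_filter]
  have hset : ((Icc z N).filter Nat.Prime).filter (fun p => p ∣ n) = n.primeFactors := by
    ext p
    rw [mem_filter, mem_filter, mem_Icc, Nat.mem_primeFactors]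
    constructor
    · rintro ⟨⟨_, h2⟩, h3⟩
      exact ⟨h2, h3, by omega⟩
    · rintro ⟨h2, h3, _⟩
      exact ⟨⟨⟨hr p h2 h3, (Nat.le_of_dvd (by omega) h3).trans hnN⟩, h2⟩, h3⟩
  rw [hset]
  have hterm : ∀ p ∈ n.primeFactors, cc z (n / p)
      = 1 / (ArithmeticFunction.cardFactors n : ℝ) := by
    intro p hp
    rw [Nat.mem_primeFactors] at hp
    obtain ⟨hp1, ⟨m, rfl⟩, hp3⟩ := hp
    rw [Nat.mul_div_cancel_left m hp1.pos]
    have hm0 : m ≠ 0 := by
      rintro rfl
      exact hp3 (mul_zero _)
    have hm1 : m ≠ 1 := by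
      rintro rfl
      rw [mul_one] at hnp
      exact hnp hp1
    have hrm : Rough z m := fun q hq hqm => hr q hq (hqm.mul_left p)
    unfold cc
    rw [if_pos ⟨by omega, hrm⟩, ArithmeticFunction.cardFactors_mul hp1.ne_zero hm0,
      ArithmeticFunction.cardFactors_apply_prime hp1]
    push_cast
    ring
  rw [sum_congr rfl hterm, sum_const, nsmul_eq_mul]
  have hcard : n.primeFactors.card = ArithmeticFunction.cardDistinctFactors n := by
    rw [ArithmeticFunction.cardDistinctFactors_apply, ← List.card_toFinset]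
    rfl
  rw [hcard]
  ring

/-- the bound of the error coefficient -/
private lemma coef_le {N z n : ℕ} (hz : 2 ≤ z) (hn : 1 ≤ n) (hnN : n ≤ N) :
    |(if n.Prime then (1 : ℝ) else 0) - ((if Rough z n then (1 : ℝ) else 0) - rw' N z n)| ≤
      (if n < z then (1 : ℝ) else 0) + ∑ k ∈ Icc z N, if k ^ 2 ∣ n then (1 : ℝ) else 0 := by
  have hsum : (0 : ℝ) ≤ ∑ k ∈ Icc z N, if k ^ 2 ∣ n then (1 : ℝ) else 0 :=
    sum_nonneg fun k _ => by split_ifs <;> norm_num
  have hind : (0 : ℝ) ≤ (if n < z then (1 : ℝ) else 0) := by split_ifs <;> norm_num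
  by_cases hr : Rough z n
  · rw [if_pos hr]
    rcases hn.eq_or_lt with h1 | h1
    · subst h1
      rw [rw_one, if_neg Nat.not_prime_one, if_pos (by omega : 1 < z)]
      have e1 : |(0 : ℝ) - (1 - 0)| = 1 := by norm_num
      rw [e1]
      linarith
    · by_cases hp : n.Prime
      · rw [if_pos hp, rw_prime hp]
        norm_num
        linarith
      · rw [if_neg hp, rw_comp hnN h1 hp hr]
        by_cases hsq : Squarefree n
        · rw [(ArithmeticFunction.cardDistinctFactors_eq_cardFactors_iff_squarefree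
            (by omega)).2 hsq, div_self]
          · norm_num
            linarith
          · have := ArithmeticFunction.cardFactors_pos_iff_one_lt.2 h1
            positivity
        · rw [Nat.squarefree_iff_prime_squarefree] at hsq
          push Not at hsq
          obtain ⟨p, hp1, hp2⟩ := hsq
          have hpn : p ∣ n := (Dvd.intro _ rfl).trans hp2
          have hge : (1 : ℝ) ≤ ∑ k ∈ Icc z N, if k ^ 2 ∣ n then (1 : ℝ) else 0 := by
            have hmem : p ∈ Icc z N :=
              mem_Icc.2 ⟨hr p hp1 hpn, (Nat.le_of_dvd (by omega) hpn).trans hnN⟩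
            have := single_le_sum (f := fun k => if k ^ 2 ∣ n then (1 : ℝ) else 0)
              (fun k _ => by split_ifs <;> norm_num) hmem
            rw [if_pos (by rw [pow_two]; exact hp2)] at this
            exact this
          have hO : (0 : ℝ) < (ArithmeticFunction.cardFactors n : ℝ) := by
            have := ArithmeticFunction.cardFactors_pos_iff_one_lt.2 h1
            exact_mod_cast this
          have hle : (ArithmeticFunction.cardDistinctFactors n : ℝ)
              ≤ (ArithmeticFunction.cardFactors n : ℝ) := by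
            have : ArithmeticFunction.cardDistinctFactors n ≤ ArithmeticFunction.cardFactors n := by
              rw [ArithmeticFunction.cardDistinctFactors_apply,
                ArithmeticFunction.cardFactors_apply]
              exact n.primeFactorsList.dedup_sublist.length_le
            exact_mod_cast this
          have hq0 : 0 ≤ (ArithmeticFunction.cardDistinctFactors n : ℝ)
              / (ArithmeticFunction.cardFactors n : ℝ) := by positivity
          have hq1 : (ArithmeticFunction.cardDistinctFactors n : ℝ)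
              / (ArithmeticFunction.cardFactors n : ℝ) ≤ 1 := by
            rw [div_le_one hO]
            exact hle
          rw [abs_le]
          constructor <;> linarith
  · rw [if_neg hr, rw_notRough hn hr]
    by_cases hp : n.Prime
    · have hlt : n < z := by
        by_contra hc
        apply hr
        intro q hq hqn
        rw [(Nat.prime_dvd_prime_iff_eq hq hp).1 hqn]
        omega
      rw [if_pos hp, if_pos hlt]
      have e1 : |(1 : ℝ) - (0 - 0)| = 1 := by norm_num
      rw [e1]
      linarith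
    · rw [if_neg hp]
      norm_num
      linarith

private lemma SB_eq (N z : ℕ) (α : ℝ) (hz : 2 ≤ z) :
    SB N z α = ∑ n ∈ Icc 1 N, (rw' N z n : ℂ) * ee (n * α) := by
  unfold SB rw'
  have h1 : ∀ p ∈ (Icc z N).filter Nat.Prime,
      ∑ m ∈ Icc 1 (N / p), (cc z m : ℂ) * ee ((p : ℝ) * m * α)
        = ∑ n ∈ Icc 1 N, if p ∣ n then (cc z (n / p) : ℂ) * ee (n * α) else 0 := by
    intro p hp
    rw [mem_filter, mem_Icc] at hp
    have hp0 : 0 < p := hp.2.pos
    rw [← sum_filter]
    refine sum_nbij' (fun m => p * m) (fun n => n / p) ?_ ?_ ?_ ?_ ?_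
    · intro m hm
      rw [mem_Icc] at hm
      rw [mem_filter, mem_Icc]
      refine ⟨⟨?_, ?_⟩, Dvd.intro _ rfl⟩
      · have : 0 < p * m := Nat.mul_pos hp0 (by omega)
        omega
      · calc p * m ≤ p * (N / p) := Nat.mul_le_mul_left _ hm.2
          _ ≤ N := Nat.mul_div_le N p
    · intro n hn
      rw [mem_filter, mem_Icc] at hn
      rw [mem_Icc]
      obtain ⟨⟨h1, h2⟩, ⟨m, rfl⟩⟩ := hn
      rw [Nat.mul_div_cancel_left m hp0]
      constructor
      · rcases Nat.eq_zero_or_pos m with h | h
        · rw [h, mul_zero] at h1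
          omega
        · exact h
      · rw [Nat.le_div_iff_mul_le hp0, mul_comm]
        exact h2
    · intro m _
      exact Nat.mul_div_cancel_left m hp0
    · intro n hn
      rw [mem_filter] at hn
      exact Nat.mul_div_cancel' hn.2
    · intro m _
      rw [Nat.mul_div_cancel_left m hp0]
      push_cast
      rfl
  rw [sum_congr rfl h1, sum_comm]
  refine sum_congr rfl fun n _ => ?_
  push_cast
  rw [sum_mul]
  refine sum_congr rfl fun p _ => ?_
  split_ifs
  · rfl
  · rw [Complex.ofReal_zero, zero_mul]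

/-- The rough numbers up to `N` are `1`, the primes in `[z, N]` and composite numbers; a composite
squarefree rough `n` has `∑_{p | n} 1 / (1 + Ω (n / p)) = ω(n) / Ω(n) = 1`; for the others the
left side is in `[0, 1]` and there are at most `∑_{p ≥ z} N / p ^ 2 ≤ 2 N / z` of them. -/
theorem ramare (N z : ℕ) (α : ℝ) (hz : 2 ≤ z) (hzN : z ≤ N) :
    ‖SP N α - (SR N z α - SB N z α)‖ ≤ 2 * z + 4 * N / z := by
  have hz0 : (0 : ℝ) < z := by
    have : 0 < z := by omega
    exact_mod_cast this
  have e : SP N α - (SR N z α - SB N z α) = ∑ n ∈ Icc 1 N,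
      (((if n.Prime then (1 : ℝ) else 0) - ((if Rough z n then (1 : ℝ) else 0) - rw' N z n) : ℝ)
        : ℂ) * ee (n * α) := by
    rw [SB_eq N z α hz]
    unfold SP SR
    rw [sum_filter, sum_filter, ← sum_sub_distrib, ← sum_sub_distrib]
    refine sum_congr rfl fun n _ => ?_
    push_cast
    split_ifs <;> simp only [Complex.ofReal_one, Complex.ofReal_zero] <;> ring
  rw [e]
  have h1 : ‖∑ n ∈ Icc 1 N,
      (((if n.Prime then (1 : ℝ) else 0) - ((if Rough z n then (1 : ℝ) else 0) - rw' N z n) : ℝ)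
        : ℂ) * ee (n * α)‖ ≤ ∑ n ∈ Icc 1 N, ((if n < z then (1 : ℝ) else 0)
          + ∑ k ∈ Icc z N, if k ^ 2 ∣ n then (1 : ℝ) else 0) := by
    refine (norm_sum_le _ _).trans (sum_le_sum fun n hn => ?_)
    rw [mem_Icc] at hn
    rw [norm_mul, norm_ee, mul_one, Complex.norm_real, Real.norm_eq_abs]
    exact coef_le hz hn.1 hn.2
  refine h1.trans ?_
  rw [sum_add_distrib]
  have h2 : ∑ n ∈ Icc 1 N, (if n < z then (1 : ℝ) else 0) ≤ z := by
    rw [← sum_filter, sum_const, nsmul_eq_mul, mul_one]
    have : ((Icc 1 N).filter (fun n => n < z)).card ≤ z := by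
      calc ((Icc 1 N).filter (fun n => n < z)).card ≤ (range z).card := by
            apply card_le_card
            intro n hn
            rw [mem_filter] at hn
            exact mem_range.2 hn.2
        _ = z := card_range z
    exact_mod_cast this
  have h3 : ∑ n ∈ Icc 1 N, ∑ k ∈ Icc z N, (if k ^ 2 ∣ n then (1 : ℝ) else 0) ≤ 2 * N / z := by
    rw [sum_comm]
    have h4 : ∀ k ∈ Icc z N, ∑ n ∈ Icc 1 N, (if k ^ 2 ∣ n then (1 : ℝ) else 0)
        ≤ N * ((k : ℝ) ^ 2)⁻¹ := by
      intro k hk
      rw [← sum_filter, sum_const, nsmul_eq_mul, mul_one]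
      have h5 : ((Icc 1 N).filter (fun n => k ^ 2 ∣ n)).card = N / k ^ 2 :=
        Nat.Ioc_filter_dvd_card_eq_div N (k ^ 2)
      rw [h5]
      refine Nat.cast_div_le.trans ?_
      rw [div_eq_mul_inv]
      push_cast
      exact le_rfl
    refine (sum_le_sum h4).trans ?_
    rw [← mul_sum]
    have h6 := sum_Ioo_inv_sq_le (α := ℝ) (z - 1) (N + 1)
    have h7 : Ioo (z - 1) (N + 1) = Icc z N := by
      ext k
      rw [mem_Ioo, mem_Icc]
      omega
    rw [h7] at h6
    have h8 : ((z - 1 : ℕ) : ℝ) + 1 = z := by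
      have : z - 1 + 1 = z := by omega
      exact_mod_cast this
    rw [h8] at h6
    calc (N : ℝ) * ∑ k ∈ Icc z N, ((k : ℝ) ^ 2)⁻¹ ≤ N * (2 / z) :=
          mul_le_mul_of_nonneg_left h6 (Nat.cast_nonneg N)
      _ = 2 * N / z := by ring
  have h9 : (0 : ℝ) ≤ 2 * N / z := by positivity
  have h10 : (4 : ℝ) * N / z = 2 * N / z + 2 * N / z := by ring
  linarith

theorem cc_nonneg (z m : ℕ) : 0 ≤ cc z m := cc_nonneg' z m

theorem cc_le_one (z m : ℕ) : cc z m ≤ 1 := by
  unfold cc
  split_ifs
  · rw [div_le_one (by positivity)]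
    have : (0 : ℝ) ≤ (ArithmeticFunction.cardFactors m : ℝ) := Nat.cast_nonneg _
    linarith
  · exact zero_le_one

theorem cc_ne_zero {z m : ℕ} (h : cc z m ≠ 0) : 1 < m ∧ Rough z m := cc_ne_zero' h

end Pool.Agent.Lib.MP_629a14_nt.Rob
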