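import Pool.Agent.Lib.MP_629a14_nt.Rob.Defs
import Pool.Agent.Lib.MP_629a14_nt.Rob.Ramare

/-! Definitions for the bilinear sums: dyadic ranges and short blocks. -/

set_option autoImplicit false

namespace Pool.Agent.Lib.MP_629a14_nt.Rob

open Finset Pool.Agent.Lib.MP_629a14_nt

/-- Dyadic points. -/
def Xs (z i : ℕ) : ℕ := 2 ^ i * z

/-- Block length. -/
def hs (z J i : ℕ) : ℕ := Xs z i / J + 1

/-- Left end of the block. -/
def Ps (z J i j : ℕ) : ℕ := Xs z i + j * hs z J i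

/-- The primes of the block `j < J` of `[X, 2X)`, `X = Xs z i`. -/
def bl (z J i j : ℕ) : Finset ℕ :=
  (Ico (Ps z J i j) (min (Ps z J i j + hs z J i) (2 * Xs z i))).filter Nat.Prime

/-- The bilinear sum with hyperbolic summation condition. -/
noncomputable def GS (N z : ℕ) (f g : ℕ → ℂ) (α : ℝ) : ℂ :=
  ∑ p ∈ (Icc z N).filter Nat.Prime, ∑ m ∈ Icc 1 (N / p), f p * g m * ee ((p : ℝ) * m * α)

/-- The bilinear sum in product blocks. -/
noncomputable def BS (N z J : ℕ) (f g : ℕ → ℂ) (α : ℝ) : ℂ :=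
  ∑ i ∈ range (Nat.log 2 N + 1), ∑ j ∈ range J, ∑ p ∈ bl z J i j,
    ∑ m ∈ Icc 1 (N / Ps z J i j), f p * g m * ee ((p : ℝ) * m * α)

/-- Admissible coefficients: bounded by one, supported on rough numbers `m > 1`. -/
def Adm (z : ℕ) (g : ℕ → ℂ) : Prop := ∀ m, ‖g m‖ ≤ 1 ∧ (g m ≠ 0 → 1 < m ∧ Rough z m)

theorem Adm.le {z m : ℕ} {g : ℕ → ℂ} (hg : Adm z g) (h : g m ≠ 0) : z ≤ m := by
  obtain ⟨h1, h2⟩ := (hg m).2 h
  have h3 := h2 m.minFac (Nat.minFac_prime (by omega)) (Nat.minFac_dvd m)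
  exact h3.trans (Nat.minFac_le (by omega))

theorem Adm_cc (z : ℕ) : Adm z (fun m => (cc z m : ℂ)) := by
  intro m
  refine ⟨?_, fun h => ?_⟩
  · rw [Complex.norm_real, Real.norm_of_nonneg (cc_nonneg z m)]
    exact cc_le_one z m
  · have h' : (cc z m : ℂ) ≠ 0 := h
    exact cc_ne_zero (by exact_mod_cast h')

theorem SB_eq (N z : ℕ) (α : ℝ) :
    SB N z α = GS N z (fun _ => 1) (fun m => (cc z m : ℂ)) α := by
  unfold SB GS
  simp

end Pool.Agent.Lib.MP_629a14_nt.Rob
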