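import Pool.Agent.Lib.MP_629a14_nt.Rob.TypeI
import Pool.Agent.Lib.MP_629a14_nt.Rob.TypeIAux

/-! The classical bilinear estimate. -/

set_option autoImplicit false

namespace Pool.Agent.Lib.MP_629a14_nt.Rob

open Finset Pool.Agent.Lib.MP_629a14_nt

private theorem bil_Icc (f : ℕ → ℝ) (X : ℕ) :
    ∑ l ∈ Icc 1 X, f l = ∑ l ∈ range X, f (l + 1) := by
  induction X with
  | zero => simp
  | succ n ih => rw [sum_Icc_succ_top (by omega), sum_range_succ, ih]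

/-- Cauchy-Schwarz over `p`. -/
private theorem bil_cauchy (X : ℕ) (u F : ℕ → ℂ) (hu : ∀ n, ‖u n‖ ≤ 1) :
    ‖∑ p ∈ Icc 1 X, u p * F p‖ ^ 2 ≤ X * ∑ p ∈ Icc 1 X, ‖F p‖ ^ 2 := by
  have h1 : ‖∑ p ∈ Icc 1 X, u p * F p‖ ≤ ∑ p ∈ Icc 1 X, 1 * ‖F p‖ := by
    refine (norm_sum_le _ _).trans (sum_le_sum fun p _ => ?_)
    rw [norm_mul]
    exact mul_le_mul_of_nonneg_right (hu p) (norm_nonneg _)
  calc ‖∑ p ∈ Icc 1 X, u p * F p‖ ^ 2 ≤ (∑ p ∈ Icc 1 X, 1 * ‖F p‖) ^ 2 := by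
        gcongr
    _ ≤ (∑ p ∈ Icc 1 X, (1 : ℝ) ^ 2) * ∑ p ∈ Icc 1 X, ‖F p‖ ^ 2 :=
        sum_mul_sq_le_sq_mul_sq _ _ _
    _ = X * ∑ p ∈ Icc 1 X, ‖F p‖ ^ 2 := by
        simp

/-- Expansion of the square. -/
private theorem bil_square (X Y : ℕ) (hX : 1 ≤ X) (c : ℕ → ℂ) (hc : ∀ n, ‖c n‖ ≤ 1) (α : ℝ) :
    ∑ p ∈ Icc 1 X, ‖∑ m ∈ Icc 1 Y, c m * ee ((p : ℝ) * m * α)‖ ^ 2 ≤
      ∑ m' ∈ Icc 1 Y, ∑ m ∈ Icc 1 Y, gK X (((m : ℝ) - m') * α) := by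
  have h1 : ((∑ p ∈ Icc 1 X, ‖∑ m ∈ Icc 1 Y, c m * ee ((p : ℝ) * m * α)‖ ^ 2 : ℝ) : ℂ) =
      ∑ m' ∈ Icc 1 Y, ∑ m ∈ Icc 1 Y, (c m * (starRingEnd ℂ) (c m')) *
        ∑ p ∈ Ico 1 (1 + X), ee ((p : ℝ) * (((m : ℝ) - m') * α)) := by
    have hI : Ico 1 (1 + X) = Icc 1 X := by
      ext x; simp only [mem_Ico, mem_Icc]; omega
    rw [hI, Complex.ofReal_sum]
    have h2 : ∀ p ∈ Icc 1 X,
        ((‖∑ m ∈ Icc 1 Y, c m * ee ((p : ℝ) * m * α)‖ ^ 2 : ℝ) : ℂ) =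
        ∑ m' ∈ Icc 1 Y, ∑ m ∈ Icc 1 Y, (c m * (starRingEnd ℂ) (c m')) *
          ee ((p : ℝ) * (((m : ℝ) - m') * α)) := by
      intro p _
      rw [Complex.ofReal_pow, ← Complex.mul_conj', map_sum, sum_mul_sum, sum_comm]
      refine sum_congr rfl fun m' _ => sum_congr rfl fun m _ => ?_
      rw [map_mul, conj_ee]
      have : ee ((p : ℝ) * (((m : ℝ) - m') * α)) =
          ee ((p : ℝ) * m * α) * ee (-((p : ℝ) * m' * α)) := by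
        rw [← ee_add]
        congr 1
        ring
      rw [this]
      ring
    rw [sum_congr rfl h2, sum_comm]
    refine sum_congr rfl fun m' _ => ?_
    rw [sum_comm]
    refine sum_congr rfl fun m _ => ?_
    rw [mul_sum]
  have h3 : (∑ p ∈ Icc 1 X, ‖∑ m ∈ Icc 1 Y, c m * ee ((p : ℝ) * m * α)‖ ^ 2 : ℝ) =
      ‖((∑ p ∈ Icc 1 X, ‖∑ m ∈ Icc 1 Y, c m * ee ((p : ℝ) * m * α)‖ ^ 2 : ℝ) : ℂ)‖ := by
    rw [Complex.norm_real, Real.norm_eq_abs, abs_of_nonneg]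
    exact sum_nonneg fun p _ => by positivity
  rw [h3, h1]
  refine (norm_sum_le _ _).trans (sum_le_sum fun m' _ => ?_)
  refine (norm_sum_le _ _).trans (sum_le_sum fun m _ => ?_)
  rw [norm_mul, norm_mul, RCLike.norm_conj]
  have hX0 : (0 : ℝ) < X := by exact_mod_cast hX
  have h4 := geom 1 X X (((m : ℝ) - m') * α) hX0 le_rfl
  have h5 : ‖c m‖ * ‖c m'‖ ≤ 1 := by
    calc ‖c m‖ * ‖c m'‖ ≤ 1 * 1 := mul_le_mul (hc m) (hc m') (norm_nonneg _) zero_le_one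
      _ = 1 := one_mul 1
  calc ‖c m‖ * ‖c m'‖ * ‖∑ p ∈ Ico 1 (1 + X), ee ((p : ℝ) * (((m : ℝ) - m') * α))‖
      ≤ 1 * gK X (((m : ℝ) - m') * α) :=
        mul_le_mul h5 h4 (norm_nonneg _) zero_le_one
    _ = gK X (((m : ℝ) - m') * α) := one_mul _

/-- Cauchy-Schwarz over `p`, expansion of the square, geometric sums over `p` and `sum1`. -/
theorem bil : ∃ C : ℝ, 0 < C ∧ ∀ (q : ℕ) (a : ℤ) (α : ℝ), 1 ≤ q → IsCoprime a (q : ℤ) →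
    |α - a / q| ≤ 1 / (q : ℝ) ^ 2 → ∀ X Y : ℕ, 1 ≤ X → 1 ≤ Y → ∀ u c : ℕ → ℂ,
      (∀ n, ‖u n‖ ≤ 1) → (∀ n, ‖c n‖ ≤ 1) →
      ‖∑ p ∈ Icc 1 X, ∑ m ∈ Icc 1 Y, u p * c m * ee ((p : ℝ) * m * α)‖ ^ 2 ≤
        C * X * Y * (Y / q + 1) * (X + q * (1 + Real.log q)) := by
  refine ⟨16, by norm_num, ?_⟩
  intro q a α hq hcop hα X Y hX hY u c hu hc
  have h1 : ∑ p ∈ Icc 1 X, ∑ m ∈ Icc 1 Y, u p * c m * ee ((p : ℝ) * m * α) =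
      ∑ p ∈ Icc 1 X, u p * ∑ m ∈ Icc 1 Y, c m * ee ((p : ℝ) * m * α) := by
    refine sum_congr rfl fun p _ => ?_
    rw [mul_sum]
    refine sum_congr rfl fun m _ => ?_
    ring
  rw [h1]
  have hX0 : (0 : ℝ) ≤ X := by positivity
  calc ‖∑ p ∈ Icc 1 X, u p * ∑ m ∈ Icc 1 Y, c m * ee ((p : ℝ) * m * α)‖ ^ 2
      ≤ X * ∑ p ∈ Icc 1 X, ‖∑ m ∈ Icc 1 Y, c m * ee ((p : ℝ) * m * α)‖ ^ 2 :=
        bil_cauchy X u _ hu
    _ ≤ X * ∑ m' ∈ Icc 1 Y, ∑ m ∈ Icc 1 Y, gK X (((m : ℝ) - m') * α) :=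
        mul_le_mul_of_nonneg_left (bil_square X Y hX c hc α) hX0
    _ ≤ X * ∑ m' ∈ Icc 1 Y, (16 * (Y / q + 1) * (X + q * (1 + Real.log q))) := by
        apply mul_le_mul_of_nonneg_left _ hX0
        apply sum_le_sum
        intro m' _
        rw [bil_Icc]
        have h := TypeIAux.sum1_shift q a α hq hcop hα Y X hX0 ((1 - (m' : ℝ)) * α)
        refine le_trans (le_of_eq ?_) h
        refine sum_congr rfl fun l _ => ?_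
        congr 1
        push_cast
        ring
    _ = 16 * X * Y * (Y / q + 1) * (X + q * (1 + Real.log q)) := by
        rw [sum_const, Nat.card_Icc, nsmul_eq_mul]
        simp only [Nat.add_sub_cancel]
        ring

end Pool.Agent.Lib.MP_629a14_nt.Rob
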