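import Pool.Agent.Lib.MP_629a14_nt.Rob.BDefs

/-! Replacing the hyperbolic condition by product blocks. -/

set_option autoImplicit false

namespace Pool.Agent.Lib.MP_629a14_nt.Rob

open Finset Pool.Agent.Lib.MP_629a14_nt

namespace BlocksAux

theorem Xs_zero (z : ℕ) : Xs z 0 = z := by simp [Xs]

theorem Xs_succ (z i : ℕ) : Xs z (i + 1) = 2 * Xs z i := by
  simp only [Xs, pow_succ]
  ring

theorem le_Xs (z i : ℕ) : z ≤ Xs z i := Nat.le_mul_of_pos_left z (by positivity)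

theorem lt_mul_hs {z J : ℕ} (hJ : 0 < J) (i : ℕ) : Xs z i < J * hs z J i := by
  unfold hs
  exact Nat.lt_mul_div_succ _ hJ

theorem mul_hs_le {z J : ℕ} (hJz : J ≤ z) (i : ℕ) : J * hs z J i ≤ 2 * Xs z i := by
  have h1 : J ≤ Xs z i := hJz.trans (le_Xs z i)
  have h2 : J * (Xs z i / J) ≤ Xs z i := Nat.mul_div_le _ _
  unfold hs
  rw [mul_add, mul_one]
  omega

/-- telescoping of consecutive intervals -/
theorem sum_tele (c : ℕ → ℕ) (hc : Monotone c) (F : ℕ → ℂ) (K : ℕ) :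
    ∑ j ∈ range K, ∑ p ∈ Ico (c j) (c (j + 1)), F p = ∑ p ∈ Ico (c 0) (c K), F p := by
  induction K with
  | zero => simp
  | succ K ih =>
    rw [sum_range_succ, ih, sum_Ico_consecutive F (hc (Nat.zero_le K)) (hc (Nat.le_succ K))]

theorem sum_blocks {z J : ℕ} (hJ : 0 < J) (i : ℕ) (F : ℕ → ℂ) :
    ∑ j ∈ range J, ∑ p ∈ bl z J i j, F p =
      ∑ p ∈ Ico (Xs z i) (Xs z (i + 1)), if p.Prime then F p else 0 := by
  have hc : Monotone (fun j => min (Ps z J i j) (2 * Xs z i)) := by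
    intro j k hjk
    apply min_le_min_right
    unfold Ps
    exact Nat.add_le_add_left (Nat.mul_le_mul_right _ hjk) _
  have h1 := sum_tele (fun j => min (Ps z J i j) (2 * Xs z i)) hc
    (fun p => if p.Prime then F p else 0) J
  have h2 : ∀ j, ∑ p ∈ bl z J i j, F p =
      ∑ p ∈ Ico (min (Ps z J i j) (2 * Xs z i)) (min (Ps z J i (j + 1)) (2 * Xs z i)),
        if p.Prime then F p else 0 := by
    intro j
    unfold bl
    rw [sum_filter]
    have h3 : Ps z J i (j + 1) = Ps z J i j + hs z J i := by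
      unfold Ps
      ring
    rw [h3]
    rcases le_total (Ps z J i j) (2 * Xs z i) with h4 | h4
    · rw [min_eq_left h4]
    · rw [min_eq_right h4, min_eq_right (h4.trans (Nat.le_add_right _ _)), Ico_self,
        Ico_eq_empty_of_le h4]
  rw [sum_congr rfl fun j _ => h2 j, h1]
  have h5 : min (Ps z J i 0) (2 * Xs z i) = Xs z i := by
    unfold Ps
    rw [zero_mul, add_zero]
    exact min_eq_left (by omega)
  have h6 : min (Ps z J i J) (2 * Xs z i) = Xs z (i + 1) := by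
    rw [Xs_succ]
    apply min_eq_right
    have := lt_mul_hs (z := z) hJ i
    unfold Ps
    omega
  simp only [h5, h6]

theorem sum_all {z J : ℕ} (hJ : 0 < J) (K : ℕ) (F : ℕ → ℂ) :
    ∑ i ∈ range K, ∑ j ∈ range J, ∑ p ∈ bl z J i j, F p =
      ∑ p ∈ Ico z (Xs z K), if p.Prime then F p else 0 := by
  have hc : Monotone (Xs z) := by
    intro i j hij
    exact Nat.mul_le_mul_right z (Nat.pow_le_pow_right (by norm_num) hij)
  have h1 := sum_tele (Xs z) hc (fun p => if p.Prime then F p else 0) K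
  rw [Xs_zero] at h1
  rw [← h1]
  exact sum_congr rfl fun i _ => sum_blocks hJ i F

theorem GS_eq {N z J : ℕ} (hJ : 0 < J) (hz : 0 < z) (f g : ℕ → ℂ) (α : ℝ) :
    GS N z f g α = ∑ i ∈ range (Nat.log 2 N + 1), ∑ j ∈ range J, ∑ p ∈ bl z J i j,
      ∑ m ∈ Icc 1 (N / p), f p * g m * ee ((p : ℝ) * m * α) := by
  rw [sum_all hJ]
  unfold GS
  rw [sum_filter]
  have hN : N < Xs z (Nat.log 2 N + 1) := by
    have h1 : N < 2 ^ (Nat.log 2 N + 1) := Nat.lt_pow_succ_log_self (by norm_num) N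
    exact lt_of_lt_of_le h1 (Nat.le_mul_of_pos_right _ hz)
  have hsub : Icc z N ⊆ Ico z (Xs z (Nat.log 2 N + 1)) := by
    intro p hp
    rw [mem_Icc] at hp
    rw [mem_Ico]
    exact ⟨hp.1, lt_of_le_of_lt hp.2 hN⟩
  apply sum_subset hsub
  intro p hp1 hp2
  rw [mem_Ico] at hp1
  rw [mem_Icc, not_and] at hp2
  have h1 : N < p := by
    have := hp2 hp1.1
    omega
  have h2 : N / p = 0 := Nat.div_eq_of_lt h1
  rw [h2]
  simp

theorem Icc_split {A B : ℕ} (h : B ≤ A) : Icc 1 A = Icc 1 B ∪ Ioc B A := by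
  ext m
  simp only [mem_union, mem_Icc, mem_Ioc]
  omega

theorem inner_le {N z P p : ℕ} (hP : 0 < P) (hPp : P ≤ p) {f g : ℕ → ℂ} {α : ℝ}
    (hf : ∀ p, ‖f p‖ ≤ 1) (hg : Adm z g) :
    ‖∑ m ∈ Icc 1 (N / P), f p * g m * ee ((p : ℝ) * m * α)
      - ∑ m ∈ Icc 1 (N / p), f p * g m * ee ((p : ℝ) * m * α)‖ ≤
      if z * P ≤ N then ((N / P : ℕ) : ℝ) - ((N / p : ℕ) : ℝ) else 0 := by
  have h1 : N / p ≤ N / P := Nat.div_le_div_left hPp hP
  have h2 : ∑ m ∈ Icc 1 (N / P), f p * g m * ee ((p : ℝ) * m * α)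
      - ∑ m ∈ Icc 1 (N / p), f p * g m * ee ((p : ℝ) * m * α) =
      ∑ m ∈ Ioc (N / p) (N / P), f p * g m * ee ((p : ℝ) * m * α) := by
    rw [sub_eq_iff_eq_add, add_comm]
    rw [Icc_split h1, sum_union]
    rw [disjoint_left]
    intro m hm1 hm2
    rw [mem_Icc] at hm1
    rw [mem_Ioc] at hm2
    omega
  rw [h2]
  split_ifs with hz
  · calc ‖∑ m ∈ Ioc (N / p) (N / P), f p * g m * ee ((p : ℝ) * m * α)‖
        ≤ ∑ m ∈ Ioc (N / p) (N / P), ‖f p * g m * ee ((p : ℝ) * m * α)‖ := norm_sum_le _ _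
      _ ≤ ∑ _m ∈ Ioc (N / p) (N / P), (1 : ℝ) := by
          apply sum_le_sum
          intro m _
          rw [norm_mul, norm_mul, norm_ee, mul_one]
          exact mul_le_one₀ (hf p) (norm_nonneg _) (hg m).1
      _ = ((N / P : ℕ) : ℝ) - ((N / p : ℕ) : ℝ) := by
          rw [sum_const, Nat.card_Ioc, nsmul_eq_mul, mul_one, Nat.cast_sub h1]
  · apply le_of_eq
    rw [norm_eq_zero]
    apply sum_eq_zero
    intro m hm
    rw [mem_Ioc] at hm
    have h3 : g m = 0 := by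
      by_contra hne
      have h4 := hg.le hne
      apply hz
      calc z * P ≤ (N / P) * P := Nat.mul_le_mul_right P (h4.trans hm.2)
        _ ≤ N := Nat.div_mul_le_self N P
    rw [h3, mul_zero, zero_mul]

theorem quot_le {N X h P p : ℕ} (hX : 0 < X) (hXP : X ≤ P) (hPp : P ≤ p) (hp : p < P + h) :
    ((N / P : ℕ) : ℝ) - ((N / p : ℕ) : ℝ) ≤ (N : ℝ) * h / (X : ℝ) ^ 2 + 1 := by
  have hXR : (0 : ℝ) < X := by exact_mod_cast hX
  have hPR : (X : ℝ) ≤ P := by exact_mod_cast hXP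
  have hpR : (P : ℝ) ≤ p := by exact_mod_cast hPp
  have hP0 : (0 : ℝ) < P := lt_of_lt_of_le hXR hPR
  have hp0 : (0 : ℝ) < p := lt_of_lt_of_le hP0 hpR
  have h1 : ((N / P : ℕ) : ℝ) ≤ (N : ℝ) / P := Nat.cast_div_le
  have h2 : (N : ℝ) / p ≤ ((N / p : ℕ) : ℝ) + 1 := by
    rw [div_le_iff₀ hp0]
    have h3 : N < p * (N / p + 1) := Nat.lt_mul_div_succ N (by omega)
    have h4 : (N : ℝ) < (p : ℝ) * (((N / p : ℕ) : ℝ) + 1) := by exact_mod_cast h3
    linarith
  have h3 : (N : ℝ) / P - (N : ℝ) / p ≤ (N : ℝ) * h / (X : ℝ) ^ 2 := by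
    rw [div_sub_div _ _ hP0.ne' hp0.ne', div_le_div_iff₀ (by positivity) (by positivity)]
    have h4 : (p : ℝ) - P ≤ h := by
      have : p ≤ P + h := hp.le
      have h5 : (p : ℝ) ≤ (P : ℝ) + h := by exact_mod_cast this
      linarith
    have h5 : (X : ℝ) ^ 2 ≤ P * p := by nlinarith
    have h6 : (0 : ℝ) ≤ N := Nat.cast_nonneg N
    have h7 : (0 : ℝ) ≤ (p : ℝ) - P := by linarith
    have h8 : ((p : ℝ) - P) * (X : ℝ) ^ 2 ≤ h * (P * p) :=
      mul_le_mul h4 h5 (by positivity) (by linarith)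
    calc ((N : ℝ) * p - P * N) * (X : ℝ) ^ 2 = (N : ℝ) * (((p : ℝ) - P) * (X : ℝ) ^ 2) := by ring
      _ ≤ (N : ℝ) * ((h : ℝ) * ((P : ℝ) * p)) := mul_le_mul_of_nonneg_left h8 h6
      _ = (N : ℝ) * h * ((P : ℝ) * p) := by ring
  linarith

theorem geom_le {N z : ℕ} (hz : 0 < z) (K : ℕ) :
    ∑ i ∈ range K, (if z * Xs z i ≤ N then (Xs z i : ℝ) else 0) ≤ Xs z K ∧
    ∑ i ∈ range K, (if z * Xs z i ≤ N then (Xs z i : ℝ) else 0) ≤ 2 * ((N : ℝ) / z) := by
  have hzR : (0 : ℝ) < z := by exact_mod_cast hz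
  induction K with
  | zero =>
    simp only [range_zero, sum_empty]
    exact ⟨Nat.cast_nonneg _, by positivity⟩
  | succ K ih =>
    have hX : (Xs z (K + 1) : ℝ) = 2 * Xs z K := by
      rw [Xs_succ]
      push_cast
      ring
    rw [sum_range_succ]
    split_ifs with h1
    · have h2 : (Xs z K : ℝ) ≤ (N : ℝ) / z := by
        rw [le_div_iff₀ hzR]
        have : (z : ℝ) * Xs z K ≤ N := by exact_mod_cast h1
        linarith
      constructor
      · rw [hX]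
        linarith [ih.1]
      · linarith [ih.1]
    · rw [add_zero]
      refine ⟨?_, ih.2⟩
      rw [hX]
      have : (0 : ℝ) ≤ Xs z K := Nat.cast_nonneg _
      linarith [ih.1]

theorem log_le {N : ℕ} (hN : 1 ≤ N) : ((Nat.log 2 N + 1 : ℕ) : ℝ) ≤ 2 * (1 + Real.log N) := by
  have hNR : (1 : ℝ) ≤ N := by exact_mod_cast hN
  have h1 : (2 : ℕ) ^ Nat.log 2 N ≤ N := Nat.pow_log_le_self 2 (by omega)
  have h2 : (2 : ℝ) ^ Nat.log 2 N ≤ N := by exact_mod_cast h1
  have h3 := Real.log_le_log (by positivity) h2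
  rw [Real.log_pow] at h3
  have h4 := Real.log_two_gt_d9
  have h5 : (0 : ℝ) ≤ (Nat.log 2 N : ℝ) := Nat.cast_nonneg _
  push_cast
  nlinarith

end BlocksAux

/-- Only pairs with `m ≥ z`, so `Ps ≤ N / z`, matter. In the block `(i, j)` the difference consists of
the pairs with `N / p < m ≤ N / Ps` (real quotients differ by at most `N h / X^2`, so at most
`N h / X^2 + 1` values of `m`), `h = hs ≤ 2 X / J`, `J h ≤ 2 X`. Sum over `j`: `4 N / J + 2 X`; sum
over `i` with `X ≤ N / z`. Every prime of `[z, N]` lies in exactly one block with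
`i ≤ Nat.log 2 N`. -/
theorem blocks : ∃ C : ℝ, 0 < C ∧ ∀ N z J : ℕ, 4 ≤ z → 2 ≤ J → J ≤ z → z ≤ N → ∀ f g : ℕ → ℂ,
    ∀ α : ℝ, (∀ p, ‖f p‖ ≤ 1) → Adm z g →
      ‖GS N z f g α - BS N z J f g α‖ ≤ C * ((N : ℝ) * (1 + Real.log N) / J + (N : ℝ) / z) := by
  refine ⟨8, by norm_num, ?_⟩
  intro N z J hz hJ hJz hzN f g α hf hg
  have hJ0 : 0 < J := by omega
  have hz0 : 0 < z := by omega
  have hJR : (0 : ℝ) < J := by exact_mod_cast hJ0
  have hzR : (0 : ℝ) < z := by exact_mod_cast hz0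
  have hN0 : (0 : ℝ) ≤ N := Nat.cast_nonneg N
  rw [norm_sub_rev, BlocksAux.GS_eq hJ0 hz0]
  unfold BS
  simp only [← sum_sub_distrib]
  have hblock : ∀ i j, ‖∑ p ∈ bl z J i j, (∑ m ∈ Icc 1 (N / Ps z J i j),
      f p * g m * ee ((p : ℝ) * m * α) - ∑ m ∈ Icc 1 (N / p), f p * g m * ee ((p : ℝ) * m * α))‖ ≤
      if z * Xs z i ≤ N then (hs z J i : ℝ) * ((N : ℝ) * hs z J i / (Xs z i : ℝ) ^ 2 + 1)
        else 0 := by
    intro i j
    have hX0 : 0 < Xs z i := lt_of_lt_of_le hz0 (BlocksAux.le_Xs z i)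
    have hXP : Xs z i ≤ Ps z J i j := Nat.le_add_right _ _
    have hP0 : 0 < Ps z J i j := lt_of_lt_of_le hX0 hXP
    have hterm : ∀ p ∈ bl z J i j, ‖∑ m ∈ Icc 1 (N / Ps z J i j),
        f p * g m * ee ((p : ℝ) * m * α)
          - ∑ m ∈ Icc 1 (N / p), f p * g m * ee ((p : ℝ) * m * α)‖ ≤
        if z * Xs z i ≤ N then ((N : ℝ) * hs z J i / (Xs z i : ℝ) ^ 2 + 1) else 0 := by
      intro p hp
      unfold bl at hp
      rw [mem_filter, mem_Ico, lt_min_iff] at hp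
      have hPp : Ps z J i j ≤ p := hp.1.1
      refine (BlocksAux.inner_le hP0 hPp hf hg).trans ?_
      split_ifs with h1 h2 h2
      · exact BlocksAux.quot_le hX0 hXP hPp hp.1.2.1
      · exact absurd ((Nat.mul_le_mul_left z hXP).trans h1) h2
      · positivity
      · exact le_refl _
    refine (norm_sum_le _ _).trans ((sum_le_sum hterm).trans ?_)
    rw [sum_const, nsmul_eq_mul]
    have hcard : (bl z J i j).card ≤ hs z J i := by
      unfold bl
      refine (card_filter_le _ _).trans ?_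
      rw [Nat.card_Ico]
      omega
    have hcardR : ((bl z J i j).card : ℝ) ≤ hs z J i := by exact_mod_cast hcard
    split_ifs with h1
    · exact mul_le_mul_of_nonneg_right hcardR (by positivity)
    · rw [mul_zero]
  have hi : ∀ i, ‖∑ j ∈ range J, ∑ p ∈ bl z J i j, (∑ m ∈ Icc 1 (N / Ps z J i j),
      f p * g m * ee ((p : ℝ) * m * α) - ∑ m ∈ Icc 1 (N / p), f p * g m * ee ((p : ℝ) * m * α))‖ ≤
      4 * N / J + 2 * (if z * Xs z i ≤ N then (Xs z i : ℝ) else 0) := by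
    intro i
    refine (norm_sum_le _ _).trans ((sum_le_sum fun j _ => hblock i j).trans ?_)
    rw [sum_const, card_range, nsmul_eq_mul]
    split_ifs with h1
    · have hX0 : 0 < Xs z i := lt_of_lt_of_le hz0 (BlocksAux.le_Xs z i)
      have hXR : (0 : ℝ) < Xs z i := by exact_mod_cast hX0
      have h2 : (J : ℝ) * hs z J i ≤ 2 * Xs z i := by
        exact_mod_cast BlocksAux.mul_hs_le hJz i
      have h3 : (0 : ℝ) ≤ (hs z J i : ℝ) := Nat.cast_nonneg _
      have h4 : (J : ℝ) * (hs z J i * ((N : ℝ) * hs z J i / (Xs z i : ℝ) ^ 2)) ≤ 4 * N / J := by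
        rw [le_div_iff₀ hJR]
        have h5 : (J : ℝ) * (hs z J i * ((N : ℝ) * hs z J i / (Xs z i : ℝ) ^ 2)) * J =
            N * (((J : ℝ) * hs z J i) ^ 2 / (Xs z i : ℝ) ^ 2) := by ring
        rw [h5]
        have h6 : ((J : ℝ) * hs z J i) ^ 2 / (Xs z i : ℝ) ^ 2 ≤ 4 := by
          rw [div_le_iff₀ (by positivity)]
          have h7 := pow_le_pow_left₀ (by positivity) h2 2
          nlinarith
        nlinarith
      calc (J : ℝ) * ((hs z J i : ℝ) * ((N : ℝ) * hs z J i / (Xs z i : ℝ) ^ 2 + 1))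
          = (J : ℝ) * ((hs z J i : ℝ) * ((N : ℝ) * hs z J i / (Xs z i : ℝ) ^ 2))
            + (J : ℝ) * (hs z J i : ℝ) := by ring
        _ ≤ 4 * (N : ℝ) / J + 2 * (Xs z i : ℝ) := add_le_add h4 h2
    · rw [mul_zero, mul_zero, add_zero]
      positivity
  refine (norm_sum_le _ _).trans ((sum_le_sum fun i _ => hi i).trans ?_)
  rw [sum_add_distrib, sum_const, card_range, nsmul_eq_mul, ← mul_sum]
  have h8 := (BlocksAux.geom_le (N := N) hz0 (Nat.log 2 N + 1)).2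
  have h9 := BlocksAux.log_le (N := N) (by omega)
  have h10 : (0 : ℝ) ≤ 4 * N / J := by positivity
  have h11 : ((Nat.log 2 N + 1 : ℕ) : ℝ) * (4 * N / J) ≤ 2 * (1 + Real.log N) * (4 * N / J) :=
    mul_le_mul_of_nonneg_right h9 h10
  have h12 : 2 * (1 + Real.log N) * (4 * N / J) = 8 * ((N : ℝ) * (1 + Real.log N) / J) := by ring
  have h13 : (0 : ℝ) ≤ (N : ℝ) / z := by positivity
  linarith

end Pool.Agent.Lib.MP_629a14_nt.Rob
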