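import Mathlib

/-! Dirichlet's divisor problem, compared with the logarithm. -/

set_option autoImplicit false

namespace Pool.Agent.Lib.MP_629a14_nt.Rob

open Finset

namespace DivSum

theorem log_succ_le (y : ℕ) (hy : 1 ≤ y) :
    Real.log ((y : ℝ) + 1) ≤ Real.log y + 1 / y := by
  have hy' : (0 : ℝ) < y := by exact_mod_cast hy
  have h1 := Real.log_le_sub_one_of_pos (show 0 < ((y : ℝ) + 1) / y by positivity)
  rw [Real.log_div (by positivity) (by positivity)] at h1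
  have h2 : ((y : ℝ) + 1) / y - 1 = 1 / y := by
    field_simp
    ring
  linarith

theorem log_succ_ge (y : ℕ) (hy : 1 ≤ y) :
    Real.log y + 1 / ((y : ℝ) + 1) ≤ Real.log ((y : ℝ) + 1) := by
  have hy' : (0 : ℝ) < y := by exact_mod_cast hy
  have h1 := Real.log_le_sub_one_of_pos (show 0 < (y : ℝ) / ((y : ℝ) + 1) by positivity)
  rw [Real.log_div (by positivity) (by positivity)] at h1
  have h2 : (y : ℝ) / ((y : ℝ) + 1) - 1 = -(1 / ((y : ℝ) + 1)) := by
    field_simp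
    ring
  linarith

theorem log_sum (y : ℕ) (hy : 1 ≤ y) :
    (y : ℝ) * Real.log y - y ≤ ∑ m ∈ Icc 1 y, Real.log m ∧
    ∑ m ∈ Icc 1 y, Real.log m ≤ (y : ℝ) * Real.log y - y + 1 + Real.log y := by
  induction y, hy using Nat.le_induction with
  | base => simp
  | succ y hy ih =>
    have hy' : (0 : ℝ) < y := by exact_mod_cast hy
    rw [Finset.sum_Icc_succ_top (by omega)]
    push_cast
    have h1 := log_succ_le y hy
    have h2 := log_succ_ge y hy
    have h3 : (y : ℝ) * (Real.log ((y : ℝ) + 1) - Real.log y) ≤ 1 := by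
      have : (y : ℝ) * (Real.log ((y : ℝ) + 1) - Real.log y) ≤ y * (1 / y) :=
        mul_le_mul_of_nonneg_left (by linarith) hy'.le
      rwa [mul_one_div_cancel hy'.ne'] at this
    have h4 : 1 ≤ ((y : ℝ) + 1) * (Real.log ((y : ℝ) + 1) - Real.log y) := by
      have hy1 : (0 : ℝ) < (y : ℝ) + 1 := by positivity
      have : ((y : ℝ) + 1) * (1 / ((y : ℝ) + 1)) ≤
          ((y : ℝ) + 1) * (Real.log ((y : ℝ) + 1) - Real.log y) :=
        mul_le_mul_of_nonneg_left (by linarith) hy1.le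
      rwa [mul_one_div_cancel hy1.ne'] at this
    constructor
    · nlinarith [ih.1]
    · nlinarith [ih.2]

theorem harm (s : ℕ) (hs : 1 ≤ s) :
    Real.log s + Real.eulerMascheroniConstant ≤ ((harmonic s : ℚ) : ℝ) ∧
    ((harmonic s : ℚ) : ℝ) ≤ Real.log s + Real.eulerMascheroniConstant + 1 / s := by
  have h1 := Real.eulerMascheroniSeq_lt_eulerMascheroniConstant s
  have h2 := Real.eulerMascheroniConstant_lt_eulerMascheroniSeq' s
  have h3 := log_succ_le s hs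
  rw [Real.eulerMascheroniSeq] at h1
  rw [Real.eulerMascheroniSeq', if_neg (by omega)] at h2
  constructor
  · linarith
  · linarith

/-- the points under the hyperbola -/
def PP (y : ℕ) : Finset (ℕ × ℕ) := (Ioc 0 y ×ˢ Ioc 0 y).filter (fun v => v.1 * v.2 ≤ y)

theorem fib_card (y a : ℕ) (ha : 1 ≤ a) :
    ((Ioc 0 y).filter (fun b => a * b ≤ y)).card = y / a := by
  have h : (Ioc 0 y).filter (fun b => a * b ≤ y) = Ioc 0 (y / a) := by
    ext b
    rw [mem_filter, mem_Ioc, mem_Ioc, Nat.le_div_iff_mul_le (by omega), mul_comm b a]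
    constructor
    · rintro ⟨⟨h1, _⟩, h2⟩
      exact ⟨h1, h2⟩
    · rintro ⟨h1, h2⟩
      exact ⟨⟨h1, by nlinarith⟩, h2⟩
  rw [h, Nat.card_Ioc, Nat.sub_zero]

theorem card_left (y s : ℕ) (hs : s ≤ y) :
    ((PP y).filter (fun v => v.1 ≤ s)).card = ∑ a ∈ Ioc 0 s, y / a := by
  rw [Finset.card_eq_sum_card_fiberwise (f := fun v : ℕ × ℕ => v.1) (t := Ioc 0 s)]
  · refine Finset.sum_congr rfl fun a ha => ?_
    rw [mem_Ioc] at ha
    rw [← fib_card y a ha.1]
    refine Finset.card_bij (fun v _ => v.2) ?_ ?_ ?_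
    · intro v hv
      rw [mem_filter, mem_filter, PP, mem_filter, mem_product] at hv
      obtain ⟨⟨⟨⟨_, h2⟩, h3⟩, _⟩, h5⟩ := hv
      rw [mem_filter]
      exact ⟨h2, h5 ▸ h3⟩
    · intro v hv w hw hvw
      rw [mem_filter] at hv hw
      exact Prod.ext (hv.2.trans hw.2.symm) hvw
    · intro b hb
      rw [mem_filter, mem_Ioc] at hb
      refine ⟨(a, b), ?_, rfl⟩
      rw [mem_filter, mem_filter, PP, mem_filter, mem_product, mem_Ioc, mem_Ioc]
      exact ⟨⟨⟨⟨⟨ha.1, ha.2.trans hs⟩, hb.1⟩, hb.2⟩, ha.2⟩, rfl⟩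
  · intro v hv
    have hv := mem_coe.1 hv
    rw [mem_filter, PP, mem_filter, mem_product, mem_Ioc] at hv
    exact mem_coe.2 (mem_Ioc.2 ⟨hv.1.1.1.1, hv.2⟩)

theorem card_right (y s : ℕ) (hs : s ≤ y) :
    ((PP y).filter (fun v => v.2 ≤ s)).card = ∑ a ∈ Ioc 0 s, y / a := by
  rw [← card_left y s hs]
  refine Finset.card_bij (fun v _ => (v.2, v.1)) ?_ ?_ ?_
  · intro v hv
    rw [mem_filter, PP, mem_filter, mem_product] at hv ⊢
    refine ⟨⟨⟨hv.1.1.2, hv.1.1.1⟩, ?_⟩, hv.2⟩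
    show v.2 * v.1 ≤ y
    rw [mul_comm]
    exact hv.1.2
  · intro v _ w _ h
    rw [Prod.mk.injEq] at h
    exact Prod.ext h.2 h.1
  · intro v hv
    refine ⟨(v.2, v.1), ?_, rfl⟩
    rw [mem_filter, PP, mem_filter, mem_product] at hv ⊢
    refine ⟨⟨⟨hv.1.1.2, hv.1.1.1⟩, ?_⟩, hv.2⟩
    show v.2 * v.1 ≤ y
    rw [mul_comm]
    exact hv.1.2

/-- Dirichlet's hyperbola method -/
theorem hyper (y : ℕ) :
    ∑ a ∈ Ioc 0 y, y / a + Nat.sqrt y ^ 2 = 2 * ∑ a ∈ Ioc 0 (Nat.sqrt y), y / a := by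
  set s := Nat.sqrt y with hs
  have hsy : s ≤ y := Nat.sqrt_le_self y
  have hss : s * s ≤ y := Nat.sqrt_le y
  have hsl : y < (s + 1) * (s + 1) := Nat.lt_succ_sqrt y
  have h0 : (PP y).card = ∑ a ∈ Ioc 0 y, y / a := by
    rw [← card_left y y le_rfl]
    congr 1
    rw [Finset.filter_true_of_mem]
    intro v hv
    rw [PP, mem_filter, mem_product, mem_Ioc] at hv
    exact hv.1.1.2
  have h1 : (PP y).filter (fun v => v.1 ≤ s) ∪ (PP y).filter (fun v => v.2 ≤ s) = PP y := by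
    ext v
    rw [mem_union, mem_filter, mem_filter]
    constructor
    · rintro (h | h)
      · exact h.1
      · exact h.1
    · intro h
      have h2 := h
      rw [PP, mem_filter] at h2
      rcases Nat.lt_or_ge s v.1 with h3 | h3
      · rcases Nat.lt_or_ge s v.2 with h4 | h4
        · exfalso
          have h5 : (s + 1) * (s + 1) ≤ v.1 * v.2 := Nat.mul_le_mul h3 h4
          omega
        · exact Or.inr ⟨h, h4⟩
      · exact Or.inl ⟨h, h3⟩
  have h2 : (PP y).filter (fun v => v.1 ≤ s) ∩ (PP y).filter (fun v => v.2 ≤ s) =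
      Ioc 0 s ×ˢ Ioc 0 s := by
    ext v
    rw [mem_inter, mem_filter, mem_filter, PP, mem_filter, mem_product, mem_product, mem_Ioc,
      mem_Ioc, mem_Ioc, mem_Ioc]
    constructor
    · rintro ⟨⟨h, h3⟩, ⟨_, h4⟩⟩
      exact ⟨⟨h.1.1.1, h3⟩, ⟨h.1.2.1, h4⟩⟩
    · rintro ⟨⟨h3, h4⟩, ⟨h5, h6⟩⟩
      have h7 : v.1 * v.2 ≤ s * s := Nat.mul_le_mul h4 h6
      exact ⟨⟨⟨⟨⟨h3, h4.trans hsy⟩, ⟨h5, h6.trans hsy⟩⟩, h7.trans hss⟩, h4⟩,
        ⟨⟨⟨⟨h3, h4.trans hsy⟩, ⟨h5, h6.trans hsy⟩⟩, h7.trans hss⟩, h6⟩⟩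
  have h3 := Finset.card_union_add_card_inter ((PP y).filter (fun v => v.1 ≤ s))
    ((PP y).filter (fun v => v.2 ≤ s))
  rw [h1, h2, h0, card_left y s hsy, card_right y s hsy, card_product, Nat.card_Ioc, Nat.sub_zero]
    at h3
  rw [pow_two]
  omega

theorem floor_sum (y s : ℕ) :
    (y : ℝ) * ((harmonic s : ℚ) : ℝ) - s ≤ ((∑ a ∈ Ioc 0 s, y / a : ℕ) : ℝ) ∧
    ((∑ a ∈ Ioc 0 s, y / a : ℕ) : ℝ) ≤ (y : ℝ) * ((harmonic s : ℚ) : ℝ) := by
  have hH : ((harmonic s : ℚ) : ℝ) = ∑ a ∈ Ioc 0 s, (1 : ℝ) / a := by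
    rw [harmonic_eq_sum_Icc]
    push_cast
    have : Icc 1 s = Ioc 0 s := by
      ext a
      simp only [mem_Icc, mem_Ioc]
      omega
    rw [this]
    exact Finset.sum_congr rfl fun a _ => by rw [one_div]
  rw [hH, Finset.mul_sum]
  push_cast
  constructor
  · have h1 : (s : ℝ) = ∑ a ∈ Ioc 0 s, (1 : ℝ) := by simp
    conv_lhs => rw [h1]
    rw [← Finset.sum_sub_distrib]
    refine Finset.sum_le_sum fun a ha => ?_
    rw [mem_Ioc] at ha
    have ha' : (0 : ℝ) < a := by exact_mod_cast ha.1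
    have h2 : (y : ℝ) < a * ((y / a : ℕ) : ℝ) + a := by
      have := Nat.lt_mul_div_succ y ha.1
      have h3 : ((y : ℕ) : ℝ) < ((a * (y / a + 1) : ℕ) : ℝ) := by exact_mod_cast this
      push_cast at h3
      push_cast
      linarith
    rw [mul_one_div, sub_le_iff_le_add, div_le_iff₀ ha']
    push_cast at h2
    nlinarith
  · refine Finset.sum_le_sum fun a ha => ?_
    rw [mem_Ioc] at ha
    have ha' : (0 : ℝ) < a := by exact_mod_cast ha.1
    rw [mul_one_div]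
    have := Nat.cast_div_le (α := ℝ) (m := y) (n := a)
    exact this

end DivSum

/-- `∑ τ = y log y + (2γ - 1) y + O(√y)` (hyperbola method, `harmonic n = log n + γ + O(1/n)`) and
`∑ log = y log y - y + O(1 + log y)`. -/
theorem divsum : ∃ C : ℝ, 0 < C ∧ ∀ y : ℕ,
    |∑ m ∈ Icc 1 y, (Real.log m - (m.divisors.card : ℝ) + 2 * Real.eulerMascheroniConstant)| ≤
      C * Real.sqrt y := by
  refine ⟨8, by norm_num, fun y => ?_⟩
  rcases Nat.eq_zero_or_pos y with h0 | hy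
  · subst h0
    simp
  set γ := Real.eulerMascheroniConstant with hγ
  set r := Real.sqrt y with hr
  set s := Nat.sqrt y with hs
  have hy' : (1 : ℝ) ≤ y := by exact_mod_cast hy
  have hr1 : 1 ≤ r := by
    rw [hr, show (1 : ℝ) = Real.sqrt 1 by simp]
    exact Real.sqrt_le_sqrt hy'
  have hrr : r * r = y := Real.mul_self_sqrt (by linarith)
  have hs1 : 1 ≤ s := by
    rw [hs]
    exact Nat.sqrt_pos.2 hy
  have hs1' : (1 : ℝ) ≤ s := by exact_mod_cast hs1
  have hsr : (s : ℝ) ≤ r := Real.nat_sqrt_le_real_sqrt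
  have hrs : r ≤ s + 1 := by
    have h := Real.real_sqrt_lt_nat_sqrt_succ (a := y)
    exact h.le
  have hr2 : r ≤ 2 * s := by linarith
  -- the divisor sum
  have hD : ((∑ m ∈ Icc 1 y, m.divisors.card : ℕ) : ℝ) =
      2 * ((∑ a ∈ Ioc 0 s, y / a : ℕ) : ℝ) - (s : ℝ) ^ 2 := by
    have h1 := ArithmeticFunction.sum_Ioc_sigma0_eq_sum_div y
    have h2 : Icc 1 y = Ioc 0 y := by
      ext a
      simp only [mem_Icc, mem_Ioc]
      omega
    have h3 : ∑ m ∈ Icc 1 y, m.divisors.card = ∑ n ∈ Ioc 0 y, (y / n) := by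
      rw [h2, ← h1]
      exact Finset.sum_congr rfl fun m _ => (ArithmeticFunction.sigma_zero_apply m).symm
    rw [h3]
    have h4 := DivSum.hyper y
    have h5 : ((∑ a ∈ Ioc 0 y, y / a + Nat.sqrt y ^ 2 : ℕ) : ℝ) =
        ((2 * ∑ a ∈ Ioc 0 (Nat.sqrt y), y / a : ℕ) : ℝ) := by rw [h4]
    rw [Nat.cast_add, Nat.cast_mul, Nat.cast_pow, Nat.cast_ofNat] at h5
    linarith
  obtain ⟨hF1, hF2⟩ := DivSum.floor_sum y s
  obtain ⟨hH1, hH2⟩ := DivSum.harm s hs1
  obtain ⟨hL1, hL2⟩ := DivSum.log_sum y hy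
  -- logarithms
  have hlogr : Real.log y = 2 * Real.log r := by
    rw [← hrr, Real.log_mul (by linarith) (by linarith)]
    ring
  have hls1 : Real.log s ≤ Real.log r := Real.log_le_log (by linarith) hsr
  have hls2 : Real.log r ≤ Real.log s + 1 / s := by
    have h1 := Real.log_le_sub_one_of_pos (show 0 < r / s by positivity)
    rw [Real.log_div (by linarith) (by linarith)] at h1
    have h2 : r / s - 1 ≤ 1 / s := by
      rw [sub_le_iff_le_add, div_add' _ _ _ (by linarith), div_le_div_iff_of_pos_right (by linarith)]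
      linarith
    linarith
  have hys : (y : ℝ) * (1 / s) ≤ 2 * r := by
    rw [mul_one_div, div_le_iff₀ (by linarith), ← hrr]
    nlinarith
  have hlr : Real.log r ≤ r - 1 := Real.log_le_sub_one_of_pos (by linarith)
  have hsum : ∑ m ∈ Icc 1 y, (Real.log m - (m.divisors.card : ℝ) + 2 * γ) =
      ∑ m ∈ Icc 1 y, Real.log m - ((∑ m ∈ Icc 1 y, m.divisors.card : ℕ) : ℝ) + 2 * γ * y := by
    rw [Finset.sum_add_distrib, Finset.sum_sub_distrib, Finset.sum_const, Nat.card_Icc,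
      nsmul_eq_mul]
    push_cast
    simp
    ring
  rw [hsum, hD]
  have hy0 : (0 : ℝ) ≤ y := by linarith
  -- bounds for `y * H`
  have hU : (y : ℝ) * ((harmonic s : ℚ) : ℝ) ≤ y * Real.log r + γ * y + 2 * r := by
    have h1 := mul_le_mul_of_nonneg_left hH2 hy0
    have h2 := mul_le_mul_of_nonneg_left hls1 hy0
    nlinarith
  have hLo : y * Real.log r + γ * y - 2 * r ≤ (y : ℝ) * ((harmonic s : ℚ) : ℝ) := by
    have h1 := mul_le_mul_of_nonneg_left hH1 hy0
    have h2 := mul_le_mul_of_nonneg_left hls2 hy0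
    nlinarith
  have hs2 : (s : ℝ) ^ 2 ≤ y := by
    rw [← hrr]
    nlinarith
  have hs3 : (y : ℝ) - 2 * r ≤ (s : ℝ) ^ 2 := by
    rw [← hrr]
    nlinarith
  rw [hlogr] at hL1 hL2
  rw [abs_le]
  constructor
  · nlinarith
  · nlinarith

end Pool.Agent.Lib.MP_629a14_nt.Rob
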