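import Pool.Agent.Lib.MP_629a14_nt.Rob.Defs

/-! The extremal function. -/

set_option autoImplicit false

namespace Pool.Agent.Lib.MP_629a14_nt.Rob

open Finset

open Filter Topology

/-- Upper relative density of a set in the primes. -/
noncomputable def relDens (B : Set ℕ) : ℝ :=
  limsup (fun x : ℕ => (cntB B x : ℝ) / cntB Set.univ x) atTop

/-- Upper density of the even numbers with at most `c n^2 / (φ(n) log^2 n)` representations as a
sum of two primes outside `B` (for `c = 0`: no such representation). -/
noncomputable def excDens (c : ℝ) (B : Set ℕ) : ℝ :=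
  limsup (fun N : ℕ => (((Icc 1 N).filter (fun n : ℕ => Even n ∧
    (reps B B n : ℝ) ≤ c * ((n : ℝ) ^ 2 / ((n.totient : ℝ) * Real.log n ^ 2)))).card : ℝ) / N) atTop

/-- The largest upper density of exceptional even numbers for sets of primes of upper relative
density at most `η`. -/
noncomputable def EE (c η : ℝ) : ℝ := sSup {d : ℝ | ∃ B : Set ℕ, relDens B ≤ η ∧ d = excDens c B}

end Pool.Agent.Lib.MP_629a14_nt.Rob
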