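import Pool.Agent.Lib.MP_629a14_nt.Rob.Defs

/-! The example: definitions. -/

set_option autoImplicit false

namespace Pool.Agent.Lib.MP_629a14_nt.Rob

open Finset Pool.Agent.Lib.MP_629a14_nt

/-- The residues `a` with `a` and `2 - a` prime to `W = primorial w`. -/
def T2 (w : ℕ) : Finset ℕ :=
  (range (primorial w)).filter (fun a => Nat.Coprime a (primorial w) ∧
    Nat.Coprime (primorial w + 2 - a) (primorial w))

/-- One residue of each pair `a`, `2 - a`. -/
def HH (w : ℕ) : Finset ℕ := (T2 w).filter (fun a => a ≤ (primorial w + 2 - a) % primorial w)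

/-- The set of the example. -/
def BB (w : ℕ) : Set ℕ := {p | p ≤ w ∨ p % primorial w ∈ HH w}

end Pool.Agent.Lib.MP_629a14_nt.Rob
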