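import Pool.Agent.Lib.MP_629a14_nt.Rob.ExDefs
import Pool.Agent.Lib.MP_629a14_nt.Rob.PiAP

/-! The example: the density. -/

set_option autoImplicit false

namespace Pool.Agent.Lib.MP_629a14_nt.Rob

open Finset Pool.Agent.Lib.MP_629a14_nt

open Filter Topology

private theorem exd_HH_mem {w b : ℕ} (hb : b ∈ HH w) :
    b < primorial w ∧ Nat.Coprime b (primorial w) := by
  unfold HH T2 at hb
  rw [mem_filter, mem_filter, mem_range] at hb
  exact ⟨hb.1.1, hb.1.2.1⟩

private theorem exd_lower (w x : ℕ) :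
    ∑ b ∈ HH w, ((Icc 1 x).filter (fun n => n.Prime ∧ n ≡ b [MOD primorial w])).card ≤
      cntB (BB w) x := by
  classical
  unfold cntB
  rw [← card_biUnion]
  · apply card_le_card
    intro n hn
    rw [mem_biUnion] at hn
    obtain ⟨b, hb, hn⟩ := hn
    rw [mem_filter] at hn ⊢
    refine ⟨hn.1, hn.2.1, ?_⟩
    right
    have h1 := hn.2.2
    unfold Nat.ModEq at h1
    rw [Nat.mod_eq_of_lt (exd_HH_mem hb).1] at h1
    rw [h1]
    exact hb
  · intro b hb b' hb' hne
    rw [Function.onFun, disjoint_left]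
    intro n hn hn'
    rw [mem_filter] at hn hn'
    apply hne
    have h1 := hn.2.2
    have h2 := hn'.2.2
    unfold Nat.ModEq at h1 h2
    rw [Nat.mod_eq_of_lt (exd_HH_mem hb).1] at h1
    rw [Nat.mod_eq_of_lt (exd_HH_mem hb').1] at h2
    rw [← h1, ← h2]

private theorem exd_upper (w x : ℕ) : cntB (BB w) x ≤
    ∑ b ∈ HH w, ((Icc 1 x).filter (fun n => n.Prime ∧ n ≡ b [MOD primorial w])).card + w := by
  classical
  unfold cntB
  have h1 : (Icc 1 x).filter (fun p => p.Prime ∧ p ∈ BB w) ⊆
      (HH w).biUnion (fun b => (Icc 1 x).filter (fun n => n.Prime ∧ n ≡ b [MOD primorial w])) ∪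
        Icc 1 w := by
    intro n hn
    rw [mem_filter, mem_Icc] at hn
    rw [mem_union, mem_biUnion]
    rcases hn.2.2 with h2 | h2
    · right
      rw [mem_Icc]
      exact ⟨hn.1.1, h2⟩
    · left
      refine ⟨n % primorial w, h2, ?_⟩
      rw [mem_filter, mem_Icc]
      exact ⟨hn.1, hn.2.1, (Nat.mod_modEq _ _).symm⟩
  refine (card_le_card h1).trans ((card_union_le _ _).trans ?_)
  refine add_le_add card_biUnion_le ?_
  rw [Nat.card_Icc]
  omega

/-- `pi_ap` modulo `primorial w` for the residues of `HH w`, and modulo `1`. -/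
theorem dens_BB (w : ℕ) : Tendsto (fun x : ℕ => (cntB (BB w) x : ℝ) / cntB Set.univ x) atTop
    (𝓝 (((HH w).card : ℝ) / (primorial w).totient)) := by
  classical
  have hW : 1 ≤ primorial w := primorial_pos w
  have h1 : Tendsto (fun x : ℕ => ∑ b ∈ HH w,
      ((((Icc 1 x).filter (fun n => n.Prime ∧ n ≡ b [MOD primorial w])).card : ℝ) *
        Real.log x / (x : ℝ))) atTop (𝓝 (∑ _b ∈ HH w, 1 / ((primorial w).totient : ℝ))) :=
    tendsto_finsetSum _ fun b hb => pi_ap (primorial w) b hW (exd_HH_mem hb).2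
  have h2 : ∑ _b ∈ HH w, 1 / ((primorial w).totient : ℝ) =
      ((HH w).card : ℝ) / (primorial w).totient := by
    rw [sum_const, nsmul_eq_mul, mul_one_div]
  rw [h2] at h1
  have h3 : Tendsto (fun x : ℕ => (w : ℝ) * (Real.log x / (x : ℝ))) atTop (𝓝 ((w : ℝ) * 0)) := by
    apply Tendsto.const_mul
    have h4 := (Real.isLittleO_log_id_atTop).tendsto_div_nhds_zero
    exact h4.comp tendsto_natCast_atTop_atTop
  rw [mul_zero] at h3
  have h4 : Tendsto (fun x : ℕ => (cntB (BB w) x : ℝ) * (Real.log x / (x : ℝ))) atTop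
      (𝓝 (((HH w).card : ℝ) / (primorial w).totient)) := by
    have h5 := h1.add h3
    rw [add_zero] at h5
    refine tendsto_of_tendsto_of_tendsto_of_le_of_le h1 h5 ?_ ?_
    · intro x
      have h6 : 0 ≤ Real.log x / (x : ℝ) := div_nonneg (Real.log_natCast_nonneg x) (Nat.cast_nonneg x)
      have h7 : ((∑ b ∈ HH w,
          ((Icc 1 x).filter (fun n => n.Prime ∧ n ≡ b [MOD primorial w])).card : ℕ) : ℝ) ≤
          cntB (BB w) x := by exact_mod_cast exd_lower w x
      have h8 := mul_le_mul_of_nonneg_right h7 h6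
      refine le_trans (le_of_eq ?_) h8
      push_cast
      rw [sum_mul]
      refine sum_congr rfl fun b _ => ?_
      rw [mul_div_assoc]
    · intro x
      have h6 : 0 ≤ Real.log x / (x : ℝ) := div_nonneg (Real.log_natCast_nonneg x) (Nat.cast_nonneg x)
      have h7 : (cntB (BB w) x : ℝ) ≤ ((∑ b ∈ HH w,
          ((Icc 1 x).filter (fun n => n.Prime ∧ n ≡ b [MOD primorial w])).card + w : ℕ) : ℝ) := by
        exact_mod_cast exd_upper w x
      have h8 := mul_le_mul_of_nonneg_right h7 h6
      refine le_trans h8 (le_of_eq ?_)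
      push_cast
      rw [add_mul, sum_mul]
      congr 1
      refine sum_congr rfl fun b _ => ?_
      rw [mul_div_assoc]
  have h5 : Tendsto (fun x : ℕ => (cntB Set.univ x : ℝ) * (Real.log x / (x : ℝ))) atTop (𝓝 1) := by
    have h6 := pi_ap 1 0 le_rfl (by simp)
    simp only [Nat.totient_one, Nat.cast_one, div_one] at h6
    refine h6.congr fun x => ?_
    rw [mul_div_assoc]
    congr 2
    unfold cntB
    congr 1
    ext n
    simp [Nat.modEq_one]
  have h6 := h4.div h5 one_ne_zero
  rw [div_one] at h6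
  refine h6.congr' ?_
  filter_upwards [eventually_ge_atTop 2] with x hx
  have hx' : (0 : ℝ) < x := by positivity
  have hx1 : (1 : ℝ) < x := by exact_mod_cast hx
  have h7 : 0 < Real.log x / (x : ℝ) := div_pos (Real.log_pos hx1) hx'
  rw [Pi.div_apply, mul_div_mul_right _ _ h7.ne']

end Pool.Agent.Lib.MP_629a14_nt.Rob
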