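import Pool.Agent.Lib.MP_629a14_nt.Rob.ExDefs

/-! The example: halving the residues. -/

set_option autoImplicit false

namespace Pool.Agent.Lib.MP_629a14_nt.Rob

open Finset Pool.Agent.Lib.MP_629a14_nt

private theorem prim_eq (w : ℕ) (hw : 3 ≤ w) : ∃ D, primorial w = 2 * D ∧ Odd D ∧ 3 ≤ D := by
  have h1 := primorial_add 2 (w - 2)
  rw [show 2 + (w - 2) = w by omega, primorial_two] at h1
  refine ⟨_, h1, ?_, ?_⟩
  · refine Finset.prod_induction _ Odd (fun a b ha hb => ha.mul hb) odd_one ?_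
    intro p hp
    rw [mem_filter, mem_Ico] at hp
    exact hp.2.odd_of_ne_two (by omega)
  · have h2 : 3 ∣ primorial w := Nat.prime_three.dvd_primorial_iff.2 hw
    rw [h1] at h2
    have h3 := (Nat.Coprime.dvd_mul_left (by norm_num : Nat.Coprime 3 2)).1 h2
    refine Nat.le_of_dvd ?_ h3
    refine Finset.prod_pos fun p hp => ?_
    exact (mem_filter.1 hp).2.pos

/-- the involution -/
private def sg (W a : ℕ) : ℕ := (W + 2 - a) % W

private theorem sg_cases (W a : ℕ) (hW : 3 ≤ W) (ha : a < W) (h2 : 1 ≤ a) (h3 : a ≠ 2) :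
    (a = 1 ∧ sg W a = 1) ∨ (3 ≤ a ∧ sg W a = W + 2 - a) := by
  unfold sg
  rcases Nat.lt_or_ge a 3 with h | h
  · left
    have h4 : a = 1 := by omega
    subst h4
    refine ⟨rfl, ?_⟩
    rw [show W + 2 - 1 = 1 + W by omega, Nat.add_mod_right, Nat.mod_eq_of_lt (by omega)]
  · right
    exact ⟨h, Nat.mod_eq_of_lt (by omega)⟩

private theorem mem_T2 (w : ℕ) (hw : 3 ≤ w) {a : ℕ} (ha : a ∈ T2 w) :
    a < primorial w ∧ 1 ≤ a ∧ a ≠ 2 ∧ Nat.Coprime a (primorial w) ∧
      Nat.Coprime (primorial w + 2 - a) (primorial w) := by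
  obtain ⟨D, hD, hodd, h3⟩ := prim_eq w hw
  unfold T2 at ha
  rw [mem_filter, mem_range] at ha
  refine ⟨ha.1, ?_, ?_, ha.2.1, ha.2.2⟩
  · rcases Nat.eq_zero_or_pos a with h | h
    · subst h
      have h1 := ha.2.1
      rw [Nat.coprime_zero_left] at h1
      omega
    · exact h
  · rintro rfl
    have h1 := ha.2.1
    rw [hD] at h1
    have h2 : 2 ∣ Nat.gcd 2 (2 * D) := Nat.dvd_gcd (dvd_refl 2) ⟨D, rfl⟩
    rw [h1] at h2
    omega

private theorem sg_mem (w : ℕ) (hw : 3 ≤ w) {a : ℕ} (ha : a ∈ T2 w) :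
    sg (primorial w) a ∈ T2 w ∧ sg (primorial w) (sg (primorial w) a) = a := by
  obtain ⟨D, hD, hodd, h3⟩ := prim_eq w hw
  obtain ⟨h4, h5, h6, h7, h8⟩ := mem_T2 w hw ha
  rcases sg_cases (primorial w) a (by omega) h4 h5 h6 with ⟨h9, h10⟩ | ⟨h9, h10⟩
  · rw [h9] at ha h10
    rw [h9, h10, h10]
    exact ⟨ha, rfl⟩
  · have h11 : sg (primorial w) a ∈ T2 w := by
      unfold T2
      rw [mem_filter, mem_range]
      refine ⟨Nat.mod_lt _ (by omega), ?_, ?_⟩
      · rw [h10]; exact h8
      · rw [h10, show primorial w + 2 - (primorial w + 2 - a) = a by omega]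
        exact h7
    refine ⟨h11, ?_⟩
    obtain ⟨k4, k5, k6, -, -⟩ := mem_T2 w hw h11
    rcases sg_cases (primorial w) (sg (primorial w) a) (by omega) k4 k5 k6 with
      ⟨k9, k10⟩ | ⟨k9, k10⟩
    · rw [h10] at k9
      omega
    · rw [k10, h10]
      omega

private theorem sg_fix (w : ℕ) (hw : 3 ≤ w) {a : ℕ} (ha : a ∈ T2 w)
    (h : sg (primorial w) a = a) : a = 1 := by
  obtain ⟨D, hD, hodd, h3⟩ := prim_eq w hw
  obtain ⟨h4, h5, h6, h7, h8⟩ := mem_T2 w hw ha
  rcases sg_cases (primorial w) a (by omega) h4 h5 h6 with ⟨h9, h10⟩ | ⟨h9, h10⟩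
  · exact h9
  · exfalso
    rw [h10, hD] at h
    obtain ⟨e, he⟩ := hodd
    have h11 : a = 2 * (e + 1) := by omega
    rw [hD, h11] at h7
    have h12 : 2 ∣ Nat.gcd (2 * (e + 1)) (2 * D) := Nat.dvd_gcd ⟨_, rfl⟩ ⟨D, rfl⟩
    rw [h7] at h12
    omega

private theorem one_mem (w : ℕ) (hw : 3 ≤ w) : 1 ∈ T2 w ∧ sg (primorial w) 1 = 1 := by
  obtain ⟨D, hD, hodd, h3⟩ := prim_eq w hw
  constructor
  · unfold T2
    rw [mem_filter, mem_range]
    refine ⟨by omega, Nat.coprime_one_left _, ?_⟩
    rw [show primorial w + 2 - 1 = primorial w + 1 by omega]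
    simp
  · unfold sg
    rw [show primorial w + 2 - 1 = 1 + primorial w by omega, Nat.add_mod_right,
      Nat.mod_eq_of_lt (by omega)]

/-- `a ↦ (W + 2 - a) % W` is an involution of `T2 w`, whose only fixed point is `1` (the residue
`1 + W/2` is even). -/
theorem card_HH (w : ℕ) (hw : 3 ≤ w) : 2 * (HH w).card = (T2 w).card + 1 := by
  have hHH : HH w = (T2 w).filter (fun a => a ≤ sg (primorial w) a) := rfl
  have hHH2 : (HH w).card = ((T2 w).filter (fun a => sg (primorial w) a ≤ a)).card := by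
    rw [hHH]
    refine Finset.card_bij' (fun a _ => sg (primorial w) a) (fun a _ => sg (primorial w) a)
      ?_ ?_ ?_ ?_
    · intro a ha
      rw [mem_filter] at ha ⊢
      refine ⟨(sg_mem w hw ha.1).1, ?_⟩
      rw [(sg_mem w hw ha.1).2]
      exact ha.2
    · intro a ha
      rw [mem_filter] at ha ⊢
      refine ⟨(sg_mem w hw ha.1).1, ?_⟩
      rw [(sg_mem w hw ha.1).2]
      exact ha.2
    · intro a ha
      exact (sg_mem w hw (mem_filter.1 ha).1).2
    · intro a ha
      exact (sg_mem w hw (mem_filter.1 ha).1).2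
  have hunion : (T2 w).filter (fun a => a ≤ sg (primorial w) a) ∪
      (T2 w).filter (fun a => sg (primorial w) a ≤ a) = T2 w := by
    rw [← filter_or]
    refine filter_true_of_mem fun a _ => le_total _ _
  have hinter : (T2 w).filter (fun a => a ≤ sg (primorial w) a) ∩
      (T2 w).filter (fun a => sg (primorial w) a ≤ a) = {1} := by
    ext a
    rw [mem_inter, mem_filter, mem_filter, mem_singleton]
    constructor
    · rintro ⟨⟨h1, h2⟩, _, h3⟩
      exact sg_fix w hw h1 (le_antisymm h3 h2)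
    · rintro rfl
      obtain ⟨h1, h2⟩ := one_mem w hw
      exact ⟨⟨h1, h2.ge⟩, h1, h2.le⟩
  have h := Finset.card_union_add_card_inter ((T2 w).filter (fun a => a ≤ sg (primorial w) a))
    ((T2 w).filter (fun a => sg (primorial w) a ≤ a))
  rw [hunion, hinter, card_singleton, ← hHH, ← hHH2] at h
  omega

private theorem res_coprime (w p : ℕ) (hp : p.Prime) (hpw : w < p) :
    Nat.Coprime (p % primorial w) (primorial w) := by
  have h1 : Nat.Coprime p (primorial w) := by
    rw [hp.coprime_iff_not_dvd, hp.dvd_primorial_iff]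
    omega
  have h2 : Nat.gcd (p % primorial w) (primorial w) = Nat.gcd p (primorial w) :=
    Nat.ModEq.gcd_eq (Nat.mod_modEq p (primorial w))
  exact h2.trans h1

private theorem res_sg (w p q : ℕ) (hw : 3 ≤ w) (h : (p + q) % primorial w = 2) :
    q % primorial w = sg (primorial w) (p % primorial w) := by
  obtain ⟨D, hD, hodd, h3⟩ := prim_eq w hw
  have hW : 0 < primorial w := primorial_pos w
  set W := primorial w with hWdef
  have ha : p % W < W := Nat.mod_lt _ hW
  have h1 : (W + 2 - p % W) ≡ q [MOD W] := by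
    have h2 : (W + 2 - p % W) + p % W ≡ q + p % W [MOD W] := by
      rw [show W + 2 - p % W + p % W = 2 + W by omega]
      have h4 : q + p % W ≡ q + p [MOD W] := Nat.ModEq.add_left q (Nat.mod_modEq p W)
      have h5 : q + p ≡ 2 [MOD W] := by
        show (q + p) % W = 2 % W
        rw [add_comm, h, Nat.mod_eq_of_lt (by omega)]
      have h6 : 2 + W ≡ 2 [MOD W] := by
        show (2 + W) % W = 2 % W
        rw [Nat.add_mod_right]
      exact h6.trans (h4.trans h5).symm
    exact Nat.ModEq.add_right_cancel' _ h2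
  exact h1.symm

/-- If `n = p + q` with primes `p, q > w` and `n ≡ 2`, the residues of `p`, `q` lie in `T2 w` and are
exchanged by the involution, so one of them lies in `HH w`. -/
theorem reps_BB (w n : ℕ) (hw : 3 ≤ w) (hn : n % primorial w = 2) : reps (BB w) (BB w) n = 0 := by
  classical
  unfold reps
  rw [Finset.card_eq_zero, Finset.filter_eq_empty_iff]
  rintro p hp ⟨hp1, hp2, hp3, hp4⟩
  rw [mem_range] at hp
  set q := n - p with hq
  have hpq : p + q = n := by omega
  have hW : 0 < primorial w := primorial_pos w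
  have e1 : ¬ (p ≤ w ∨ p % primorial w ∈ HH w) := hp3
  have e2 : ¬ (q ≤ w ∨ q % primorial w ∈ HH w) := hp4
  rw [not_or, not_le] at e1 e2
  have s1 : q % primorial w = sg (primorial w) (p % primorial w) :=
    res_sg w p q hw (by rw [hpq]; exact hn)
  have s2 : p % primorial w = sg (primorial w) (q % primorial w) :=
    res_sg w q p hw (by rw [add_comm, hpq]; exact hn)
  have c1 := res_coprime w p hp1 e1.1
  have c2 := res_coprime w q hp2 e2.1
  have key : ∀ a b : ℕ, a < primorial w → b = sg (primorial w) a →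
      Nat.Coprime a (primorial w) → Nat.Coprime b (primorial w) → a ∈ T2 w := by
    intro a b ha hb h1 h2
    unfold T2
    rw [mem_filter, mem_range]
    refine ⟨ha, h1, ?_⟩
    have h3 : Nat.gcd b (primorial w) = Nat.gcd (primorial w + 2 - a) (primorial w) := by
      rw [hb]
      exact Nat.ModEq.gcd_eq (Nat.mod_modEq _ (primorial w))
    exact h3.symm.trans h2
  have t1 := key _ _ (Nat.mod_lt _ hW) s1 c1 c2
  have t2 := key _ _ (Nat.mod_lt _ hW) s2 c2 c1
  rcases le_total (p % primorial w) (q % primorial w) with h | h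
  · apply e1.2
    unfold HH
    rw [mem_filter]
    refine ⟨t1, ?_⟩
    rw [s1] at h
    exact h
  · apply e2.2
    unfold HH
    rw [mem_filter]
    refine ⟨t2, ?_⟩
    rw [s2] at h
    exact h

end Pool.Agent.Lib.MP_629a14_nt.Rob
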