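import Pool.Agent.Lib.MP_629a14_nt.Rob.ExDefs
import Pool.Agent.Lib.MP_629a14_nt.Rob.Crt

/-! The example: the number of residues. -/

set_option autoImplicit false

namespace Pool.Agent.Lib.MP_629a14_nt.Rob

open Finset Pool.Agent.Lib.MP_629a14_nt

namespace ExT2Aux

private theorem range_eq (v : ℕ) (hv : 2 ≤ v) :
    (range (v + 1)).filter Nat.Prime = insert 2 ((Icc 3 v).filter Nat.Prime) := by
  ext p
  simp only [mem_filter, mem_range, mem_insert, mem_Icc]
  constructor
  · rintro ⟨h1, h2⟩
    rcases Nat.lt_or_ge 2 p with h | h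
    · exact Or.inr ⟨⟨h, by omega⟩, h2⟩
    · left
      have := h2.two_le
      omega
  · rintro (h | ⟨⟨h1, h2⟩, h3⟩)
    · subst h
      exact ⟨by omega, Nat.prime_two⟩
    · exact ⟨by omega, h3⟩

private theorem cop_iff (w a : ℕ) :
    Nat.Coprime a (primorial w) ↔ ∀ p ∈ (range (w + 1)).filter Nat.Prime, ¬ p ∣ a := by
  unfold primorial
  rw [Nat.coprime_prod_right_iff]
  refine forall₂_congr fun p hp => ?_
  rw [Nat.coprime_comm]
  exact (mem_filter.1 hp).2.coprime_iff_not_dvd

private theorem dvd_prim (w p : ℕ) (hp : p ∈ (range (w + 1)).filter Nat.Prime) :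
    p ∣ primorial w := by
  unfold primorial
  exact Finset.dvd_prod_of_mem (fun p => p) hp

private theorem idx_mem (w : ℕ) (i : Idx w) : (i : ℕ) ∈ (range (w + 1)).filter Nat.Prime := by
  have h := mem_filter.1 i.2
  rw [mem_Icc] at h
  rw [mem_filter, mem_range]
  exact ⟨by omega, h.2⟩

private theorem mem_T2_iff (w : ℕ) (hw : 2 ≤ w) (a : ℕ) :
    a ∈ T2 w ↔ (a < primorial w ∧ ¬ 2 ∣ a) ∧ ∀ i : Idx w, pr w a i ≠ 0 ∧ pr w a i ≠ 2 := by
  have h2W : 2 ∣ primorial w := dvd_prim w 2 (by
    rw [mem_filter, mem_range]; exact ⟨by omega, Nat.prime_two⟩)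
  unfold T2
  rw [mem_filter, mem_range, cop_iff, cop_iff]
  have key : ∀ i : Idx w, a < primorial w → ((i : ℕ) ∣ (primorial w + 2 - a) ↔ pr w a i = 2) := by
    intro i ha
    have h1 : (i : ℕ) ∣ primorial w := dvd_prim w i (idx_mem w i)
    rw [← ZMod.natCast_eq_zero_iff, Nat.cast_sub (by omega), Nat.cast_add,
      (ZMod.natCast_eq_zero_iff _ _).2 h1, zero_add]
    unfold pr
    constructor
    · intro h
      have := sub_eq_zero.1 h
      rw [← this]
      rfl
    · intro h
      rw [h]
      simp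
  constructor
  · rintro ⟨ha, h1, h2⟩
    refine ⟨⟨ha, h1 2 ?_⟩, fun i => ⟨?_, ?_⟩⟩
    · rw [mem_filter, mem_range]; exact ⟨by omega, Nat.prime_two⟩
    · intro h
      exact h1 i (idx_mem w i) ((ZMod.natCast_eq_zero_iff _ _).1 h)
    · intro h
      exact h2 i (idx_mem w i) ((key i ha).2 h)
  · rintro ⟨⟨ha, h2a⟩, h⟩
    refine ⟨ha, ?_, ?_⟩
    · intro p hp
      rw [range_eq w hw, mem_insert] at hp
      rcases hp with hp | hp
      · rw [hp]; exact h2a
      · intro hd
        exact (h ⟨p, hp⟩).1 ((ZMod.natCast_eq_zero_iff _ _).2 hd)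
    · intro p hp
      rw [range_eq w hw, mem_insert] at hp
      rcases hp with hp | hp
      · rw [hp]
        omega
      · intro hd
        exact (h ⟨p, hp⟩).2 ((key ⟨p, hp⟩ ha).1 hd)

private theorem dvd_sub_of (v : ℕ) {a b : ℕ} (hab : a ≤ b) (ha : ¬ 2 ∣ a) (hb : ¬ 2 ∣ b)
    (h : pr v a = pr v b) : primorial v ∣ b - a := by
  unfold primorial
  apply Finset.prod_primes_dvd
  · intro p hp
    exact (mem_filter.1 hp).2.prime
  · intro p hp
    rw [mem_filter, mem_range] at hp
    rcases Nat.lt_or_ge 2 p with h2 | h2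
    · have hmem : p ∈ (Icc 3 v).filter Nat.Prime := by
        rw [mem_filter, mem_Icc]
        exact ⟨⟨h2, by omega⟩, hp.2⟩
      have h3 : ((a : ℕ) : ZMod p) = (b : ZMod p) := congrFun h ⟨p, hmem⟩
      rw [ZMod.natCast_eq_natCast_iff] at h3
      exact (Nat.modEq_iff_dvd' hab).1 h3
    · have : p = 2 := by
        have := hp.2.two_le
        omega
      subst this
      omega

private def SS (w : ℕ) : Finset ℕ := (range (primorial w)).filter (fun a => ¬ 2 ∣ a)

private theorem inj_SS (w : ℕ) : Set.InjOn (pr w) (SS w : Set ℕ) := by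
  have main : ∀ a ∈ SS w, ∀ b ∈ SS w, pr w a = pr w b → a ≤ b → a = b := by
    intro a ha b hb h hab
    unfold SS at ha hb
    rw [mem_filter, mem_range] at ha hb
    have h1 := dvd_sub_of w hab ha.2 hb.2 h
    have h2 : b - a = 0 := Nat.eq_zero_of_dvd_of_lt h1 (by omega)
    omega
  intro a ha b hb h
  rw [Finset.mem_coe] at ha hb
  rcases le_total a b with hab | hab
  · exact main a ha b hb h hab
  · exact (main b hb a ha h.symm hab).symm

private theorem primorial_nat (v : ℕ) (hv : 2 ≤ v) :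
    primorial v = 2 * Fintype.card (XX v) := by
  have h := primorial_eq v hv
  exact_mod_cast h

private theorem card_SS (w : ℕ) (hw : 2 ≤ w) : (SS w).card = Fintype.card (XX w) := by
  have h : SS w = (range (Fintype.card (XX w))).image (fun j => 2 * j + 1) := by
    ext a
    unfold SS
    rw [mem_filter, mem_range, mem_image, primorial_nat w hw]
    constructor
    · rintro ⟨h1, h2⟩
      refine ⟨a / 2, ?_, ?_⟩
      · rw [mem_range]
        omega
      · show 2 * (a / 2) + 1 = a
        omega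
    · rintro ⟨j, h1, h2⟩
      rw [mem_range] at h1
      have h2' : 2 * j + 1 = a := h2
      omega
  rw [h, card_image_of_injective, card_range]
  intro i j hij
  have : 2 * i + 1 = 2 * j + 1 := hij
  omega

private theorem image_SS (w : ℕ) (hw : 2 ≤ w) : (SS w).image (pr w) = univ := by
  rw [← Finset.card_eq_iff_eq_univ, card_image_of_injOn (inj_SS w), card_SS w hw]

private def VV (w : ℕ) : Finset (XX w) := univ.filter (fun x => ∀ i, x i ≠ 0 ∧ x i ≠ 2)

private theorem image_T2 (w : ℕ) (hw : 2 ≤ w) : (T2 w).image (pr w) = VV w := by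
  ext x
  unfold VV
  rw [mem_image, mem_filter]
  constructor
  · rintro ⟨a, ha, rfl⟩
    exact ⟨mem_univ _, ((mem_T2_iff w hw a).1 ha).2⟩
  · rintro ⟨_, hx⟩
    have h1 : x ∈ (SS w).image (pr w) := by rw [image_SS w hw]; exact mem_univ _
    obtain ⟨a, ha, rfl⟩ := mem_image.1 h1
    refine ⟨a, (mem_T2_iff w hw a).2 ⟨?_, hx⟩, rfl⟩
    unfold SS at ha
    rw [mem_filter, mem_range] at ha
    exact ha

private theorem card_VV (w : ℕ) :
    (VV w).card = ∏ p ∈ (Icc 3 w).filter Nat.Prime, (p - 2) := by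
  have h1 : VV w = Fintype.piFinset
      (fun i : Idx w => ((univ : Finset (ZMod (i : ℕ))).erase 0).erase 2) := by
    ext a
    unfold VV
    rw [mem_filter, Fintype.mem_piFinset]
    constructor
    · intro h i
      rw [mem_erase, mem_erase]
      exact ⟨(h.2 i).2, (h.2 i).1, mem_univ _⟩
    · intro h
      refine ⟨mem_univ _, fun i => ?_⟩
      have h2 := h i
      rw [mem_erase, mem_erase] at h2
      exact ⟨h2.2.1, h2.1⟩
  rw [h1, Fintype.card_piFinset,
    ← Finset.prod_coe_sort ((Icc 3 w).filter Nat.Prime) (fun p => p - 2)]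
  refine Finset.prod_congr rfl fun i _ => ?_
  have hi := mem_filter.1 i.2
  rw [mem_Icc] at hi
  have h20 : (2 : ZMod (i : ℕ)) ≠ 0 := by
    intro h
    have h' : ((2 : ℕ) : ZMod (i : ℕ)) = 0 := by exact_mod_cast h
    rw [ZMod.natCast_eq_zero_iff] at h'
    have := Nat.le_of_dvd (by norm_num) h'
    omega
  rw [card_erase_of_mem, card_erase_of_mem (mem_univ _), card_univ, ZMod.card]
  · omega
  · rw [mem_erase]
    exact ⟨h20, mem_univ _⟩

private theorem card_UU' (v : ℕ) :
    (UU v).card = ∏ p ∈ (Icc 3 v).filter Nat.Prime, (p - 1) := by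
  have h1 : UU v = Fintype.piFinset (fun i : Idx v => (univ : Finset (ZMod (i : ℕ))).erase 0) := by
    ext a
    unfold UU
    rw [mem_filter, Fintype.mem_piFinset]
    constructor
    · intro h i
      rw [mem_erase]
      exact ⟨h.2 i, mem_univ _⟩
    · intro h
      refine ⟨mem_univ _, fun i => ?_⟩
      exact (mem_erase.1 (h i)).1
  rw [h1, Fintype.card_piFinset,
    ← Finset.prod_coe_sort ((Icc 3 v).filter Nat.Prime) (fun p => p - 1)]
  refine Finset.prod_congr rfl fun i _ => ?_
  rw [card_erase_of_mem (mem_univ _), card_univ, ZMod.card]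

end ExT2Aux

open ExT2Aux in
/-- Chinese remainder theorem (for instance by induction over the primes, or with `crt`). -/
theorem card_T2 (w : ℕ) (hw : 2 ≤ w) :
    (T2 w).card = ∏ p ∈ (Icc 3 w).filter Nat.Prime, (p - 2) := by
  rw [← card_VV, ← image_T2 w hw]
  symm
  apply card_image_of_injOn
  apply (inj_SS w).mono
  intro a ha
  rw [Finset.mem_coe] at ha ⊢
  unfold SS
  rw [mem_filter, mem_range]
  exact ((mem_T2_iff w hw a).1 ha).1

open ExT2Aux in
/-- `∏ (p-1)` over the odd primes up to `w` is `φ(primorial w)`. -/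
theorem card_T2_div (w : ℕ) (hw : 2 ≤ w) :
    ((T2 w).card : ℝ) / (primorial w).totient = Del w := by
  rw [totient_primorial w hw, card_T2 w hw, card_UU']
  unfold Del
  rw [Finset.prod_div_distrib]
  push_cast
  congr 1
  · apply Finset.prod_congr rfl
    intro p hp
    rw [mem_filter, mem_Icc] at hp
    rw [Nat.cast_sub (by omega)]
    norm_num
  · apply Finset.prod_congr rfl
    intro p hp
    rw [mem_filter, mem_Icc] at hp
    rw [Nat.cast_sub (by omega)]
    norm_num

end Pool.Agent.Lib.MP_629a14_nt.Rob
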