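import Pool.Agent.Lib.MP_629a14_nt.Rob.SDefs

/-! The decomposition of the number of representations. -/

set_option autoImplicit false

namespace Pool.Agent.Lib.MP_629a14_nt.Rob

open Finset Pool.Agent.Lib.MP_629a14_nt

private theorem ident_reflect (n : ℕ) (F : ℕ → ℕ → ℝ) :
    ∑ m ∈ Ico 1 n, F m (n - m) = ∑ m ∈ Ico 1 n, F (n - m) m := by
  refine sum_nbij' (fun m => n - m) (fun m => n - m) ?_ ?_ ?_ ?_ ?_
  · intro m hm
    simp only [mem_Ico] at hm ⊢
    omega
  · intro m hm
    simp only [mem_Ico] at hm ⊢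
    omega
  · intro m hm
    simp only [mem_Ico] at hm
    omega
  · intro m hm
    simp only [mem_Ico] at hm
    omega
  · intro m hm
    simp only [mem_Ico] at hm
    have h1 : n - (n - m) = m := by omega
    rw [h1]

/-- With `f m = log N` for primes `m` and `0` otherwise, `f = nu + gg`: `f * f = nu * nu + nu * gg + f * gg`
(convolutions over `m + m' = n`, `m, m' ≥ 1`), and the pairs of primes with the first in `B₁` or the
second in `B₂` contribute at most `∑_{b ∈ B₁} log N f(n-b) + ∑_{b ∈ B₂} log N f(n-b)`. -/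
theorem ident (v N n : ℕ) (B₁ B₂ : Set ℕ) :
    (∑ m ∈ Ico 1 n, nu v m * nu v (n - m)) + nG v N n + fG v N Set.univ n -
      fB v N B₁ n - fB v N B₂ n - fG v N B₁ n - fG v N B₂ n ≤
        Real.log N ^ 2 * (reps B₁ B₂ n : ℝ) := by
  classical
  set f : ℕ → ℝ := fun m => if m.Prime then Real.log N else 0 with hf
  have hgg : ∀ m, gg v N m = f m - nu v m := fun m => rfl
  have hlog : 0 ≤ Real.log N := Real.log_natCast_nonneg N
  have hf0 : ∀ m, 0 ≤ f m := by
    intro m
    simp only [hf]
    split_ifs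
    · exact hlog
    · exact le_rfl
  -- the sums over the primes of a set
  have hB : ∀ B : Set ℕ, fB v N B n + fG v N B n =
      ∑ m ∈ Ico 1 n, (if m ∈ B then (1 : ℝ) else 0) * (f m * f (n - m)) := by
    intro B
    unfold fB fG
    rw [← sum_add_distrib, sum_filter]
    refine sum_congr rfl fun m _ => ?_
    by_cases h1 : m.Prime
    · by_cases h2 : m ∈ B
      · rw [if_pos ⟨h1, h2⟩, if_pos h2, hgg]
        simp only [hf, if_pos h1]
        ring
      · rw [if_neg (fun h => h2 h.2), if_neg h2]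
        ring
    · rw [if_neg (fun h => h1 h.1)]
      simp only [hf, if_neg h1]
      ring
  have hU : fG v N Set.univ n = ∑ m ∈ Ico 1 n, f m * gg v N (n - m) := by
    unfold fG
    rw [sum_filter]
    refine sum_congr rfl fun m _ => ?_
    by_cases h1 : m.Prime
    · rw [if_pos ⟨h1, Set.mem_univ _⟩]
      simp only [hf, if_pos h1]
    · rw [if_neg (fun h => h1 h.1)]
      simp only [hf, if_neg h1]
      ring
  have hN : (∑ m ∈ Ico 1 n, nu v m * nu v (n - m)) + nG v N n =
      ∑ m ∈ Ico 1 n, f m * nu v (n - m) := by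
    rw [ident_reflect n (fun a b => f a * nu v b)]
    unfold nG
    rw [← sum_add_distrib]
    refine sum_congr rfl fun m _ => ?_
    rw [hgg]
    ring
  have hB1 := hB B₁
  have hB2 := hB B₂
  rw [ident_reflect n (fun a b => (if a ∈ B₂ then (1 : ℝ) else 0) * (f a * f b))] at hB2
  have htot : (∑ m ∈ Ico 1 n, nu v m * nu v (n - m)) + nG v N n + fG v N Set.univ n -
      fB v N B₁ n - fB v N B₂ n - fG v N B₁ n - fG v N B₂ n =
      ∑ m ∈ Ico 1 n, (1 - (if m ∈ B₁ then (1 : ℝ) else 0) - (if n - m ∈ B₂ then (1 : ℝ) else 0)) *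
        (f m * f (n - m)) := by
    have e1 : (∑ m ∈ Ico 1 n, nu v m * nu v (n - m)) + nG v N n + fG v N Set.univ n -
      fB v N B₁ n - fB v N B₂ n - fG v N B₁ n - fG v N B₂ n =
      ((∑ m ∈ Ico 1 n, nu v m * nu v (n - m)) + nG v N n) + fG v N Set.univ n -
      (fB v N B₁ n + fG v N B₁ n) - (fB v N B₂ n + fG v N B₂ n) := by ring
    rw [e1, hN, hU, hB1, hB2, ← sum_add_distrib, ← sum_sub_distrib, ← sum_sub_distrib]
    refine sum_congr rfl fun m _ => ?_
    rw [hgg]
    ring
  rw [htot]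
  have hle : ∀ m ∈ Ico 1 n,
      (1 - (if m ∈ B₁ then (1 : ℝ) else 0) - (if n - m ∈ B₂ then (1 : ℝ) else 0)) *
        (f m * f (n - m)) ≤
      if (m.Prime ∧ (n - m).Prime ∧ m ∉ B₁ ∧ n - m ∉ B₂) then Real.log N ^ 2 else 0 := by
    intro m _
    have hff : 0 ≤ f m * f (n - m) := mul_nonneg (hf0 _) (hf0 _)
    by_cases h1 : m.Prime
    · by_cases h2 : (n - m).Prime
      · have hff2 : f m * f (n - m) = Real.log N ^ 2 := by
          simp only [hf, if_pos h1, if_pos h2]
          ring
        rw [hff2] at hff ⊢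
        by_cases h3 : m ∈ B₁
        · have h5 : ¬ (m.Prime ∧ (n - m).Prime ∧ m ∉ B₁ ∧ n - m ∉ B₂) := fun h => h.2.2.1 h3
          rw [if_pos h3, if_neg h5]
          split_ifs
          · nlinarith
          · nlinarith
        · by_cases h4 : n - m ∈ B₂
          · have h5 : ¬ (m.Prime ∧ (n - m).Prime ∧ m ∉ B₁ ∧ n - m ∉ B₂) := fun h => h.2.2.2 h4
            rw [if_neg h3, if_pos h4, if_neg h5]
            nlinarith
          · rw [if_neg h3, if_neg h4, if_pos ⟨h1, h2, h3, h4⟩]
            nlinarith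
      · have hff2 : f m * f (n - m) = 0 := by
          simp only [hf, if_neg h2]
          ring
        rw [hff2, mul_zero, if_neg (fun h : _ ∧ _ ∧ _ ∧ _ => h2 h.2.1)]
    · have hff2 : f m * f (n - m) = 0 := by
        simp only [hf, if_neg h1]
        ring
      rw [hff2, mul_zero, if_neg (fun h : _ ∧ _ ∧ _ ∧ _ => h1 h.1)]
  refine (sum_le_sum hle).trans ?_
  rw [← sum_filter, sum_const, nsmul_eq_mul, mul_comm]
  refine mul_le_mul_of_nonneg_left ?_ (sq_nonneg _)
  unfold reps
  norm_cast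
  refine card_le_card fun m hm => ?_
  simp only [mem_filter, mem_Ico, mem_range] at hm ⊢
  exact ⟨by omega, hm.2⟩

end Pool.Agent.Lib.MP_629a14_nt.Rob
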