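import Pool.Agent.Lib.MP_629a14_nt.Rob.LOne

/-! The local moment lemma, general form. -/

set_option autoImplicit false

namespace Pool.Agent.Lib.MP_629a14_nt.Rob

open Finset

private lemma core_jensen {α : Type*} (s : Finset α) (β g : α → ℝ) (hβ : ∀ a ∈ s, 0 ≤ β a)
    (hg : ∀ a ∈ s, 0 ≤ g a) (k : ℕ) (hk : 1 ≤ k) :
    (∑ a ∈ s, β a * g a) ^ k ≤ (∑ a ∈ s, β a) ^ (k - 1) * ∑ a ∈ s, β a * g a ^ k := by
  rcases (sum_nonneg hβ).eq_or_lt with h0 | h0
  · have hz : ∀ a ∈ s, β a = 0 := (sum_eq_zero_iff_of_nonneg hβ).1 h0.symm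
    have h1 : ∑ a ∈ s, β a * g a = 0 := sum_eq_zero fun a ha => by rw [hz a ha, zero_mul]
    have h2 : ∑ a ∈ s, β a * g a ^ k = 0 := sum_eq_zero fun a ha => by rw [hz a ha, zero_mul]
    rw [h1, h2, zero_pow (by omega), mul_zero]
  · have h3 := Real.pow_arith_mean_le_arith_mean_pow s (fun a => β a / ∑ b ∈ s, β b) g
      (fun a ha => div_nonneg (hβ a ha) h0.le) (by rw [← sum_div, div_self h0.ne']) hg k
    have h4 : ∑ a ∈ s, β a / (∑ b ∈ s, β b) * g a = (∑ a ∈ s, β a * g a) / (∑ b ∈ s, β b) := by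
      rw [sum_div]
      exact sum_congr rfl fun a _ => by ring
    have h5 : ∑ a ∈ s, β a / (∑ b ∈ s, β b) * g a ^ k =
        (∑ a ∈ s, β a * g a ^ k) / (∑ b ∈ s, β b) := by
      rw [sum_div]
      exact sum_congr rfl fun a _ => by ring
    rw [h4, h5, div_pow, div_le_div_iff₀ (pow_pos h0 k) h0] at h3
    have h6 : (∑ b ∈ s, β b) ^ k = (∑ b ∈ s, β b) ^ (k - 1) * (∑ b ∈ s, β b) := by
      rw [← pow_succ, Nat.sub_add_cancel hk]
    rw [h6, ← mul_assoc] at h3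
    have h7 := le_of_mul_le_mul_right h3 h0
    rw [mul_comm] at h7
    exact h7

/-- the local quotient. -/
private noncomputable def coreV {k : ℕ} (p : ℕ) [NeZero p] (m : Fin k → ZMod p) : ℝ :=
  (∑ b ∈ univ.filter (fun b : ZMod p => b ≠ 0), ∏ j, wp p (m j) b) / ((p : ℝ) - 1)

private lemma coreV_nonneg {k : ℕ} {p : ℕ} [NeZero p] (hp : 3 ≤ p) (m : Fin k → ZMod p) :
    0 ≤ coreV p m := by
  have h3 : (3 : ℝ) ≤ p := by exact_mod_cast hp
  unfold coreV
  exact div_nonneg (sum_nonneg fun b _ => prod_nonneg fun j _ => wp_nonneg hp _ _) (by linarith)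

private lemma core_filter {ι : Type*} [Fintype ι] [DecidableEq ι] (P : ι → ℕ)
    [∀ i, NeZero (P i)] :
    univ.filter (fun a : ∀ i, ZMod (P i) => ∀ i, a i ≠ 0) =
      Fintype.piFinset (fun i => univ.filter (fun b : ZMod (P i) => b ≠ 0)) := by
  ext a
  simp [Fintype.mem_piFinset]

private lemma core_prodV {ι : Type*} [Fintype ι] [DecidableEq ι] (P : ι → ℕ)
    [∀ i, NeZero (P i)] {k : ℕ} (x : Fin k → ∀ i, ZMod (P i)) :
    (∑ a ∈ univ.filter (fun a : ∀ i, ZMod (P i) => ∀ i, a i ≠ 0), ∏ j, wt P (x j) a) /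
      ∏ i, ((P i : ℝ) - 1) = ∏ i, coreV (P i) (fun j => x j i) := by
  have h1 : ∀ a : ∀ i, ZMod (P i), ∏ j, wt P (x j) a =
      ∏ i, ∏ j, wp (P i) (x j i) (a i) := by
    intro a
    simp only [wt]
    rw [prod_comm]
  simp only [coreV, h1]
  rw [prod_div_distrib, core_filter, prod_univ_sum]

private lemma core_sumVr {ι : Type*} [Fintype ι] [DecidableEq ι] (P : ι → ℕ)
    [∀ i, NeZero (P i)] (k r : ℕ) :
    ∑ x : Fin k → ∀ i, ZMod (P i), (∏ i, coreV (P i) (fun j => x j i)) ^ r =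
      ∏ i, ∑ m : Fin k → ZMod (P i), coreV (P i) m ^ r := by
  rw [prod_univ_sum, Fintype.piFinset_univ]
  refine Fintype.sum_equiv (Equiv.piComm (fun (_ : Fin k) (i : ι) => ZMod (P i))) _ _ ?_
  intro x
  rw [prod_pow]
  rfl

private lemma core_telesc (r : ℕ) (hr : 2 ≤ r) (M : ℕ) (hM : r ≤ M) :
    ∑ m ∈ Ioc r M, 1 / (((m : ℝ) - 1) * ((m : ℝ) - 2)) = 1 / ((r : ℝ) - 1) - 1 / ((M : ℝ) - 1) := by
  induction M, hM using Nat.le_induction with
  | base => simp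
  | succ M hM ih =>
    rw [sum_Ioc_succ_top hM, ih]
    have h2 : (2 : ℝ) ≤ M := by exact_mod_cast hr.trans hM
    have h3 : (M : ℝ) - 1 ≠ 0 := by linarith
    have h4 : (M : ℝ) ≠ 0 := by linarith
    push_cast
    have h5 : (M : ℝ) + 1 - 1 = M := by ring
    have h6 : (M : ℝ) + 1 - 2 = M - 1 := by ring
    rw [h5, h6]
    field_simp
    ring

private lemma core_recip {ι : Type*} [Fintype ι] [DecidableEq ι] (P : ι → ℕ)
    (hinj : Function.Injective P) (r : ℕ) (hr : 2 ≤ r) :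
    ∑ i ∈ univ.filter (fun i => ¬ P i ≤ r), 1 / (((P i : ℝ) - 1) * ((P i : ℝ) - 2)) ≤
      1 / ((r : ℝ) - 1) := by
  have hr2 : (2 : ℝ) ≤ r := by exact_mod_cast hr
  set M : ℕ := r + ∑ i, P i with hM
  have h1 : ∑ i ∈ univ.filter (fun i => ¬ P i ≤ r), 1 / (((P i : ℝ) - 1) * ((P i : ℝ) - 2)) =
      ∑ m ∈ (univ.filter (fun i => ¬ P i ≤ r)).image P,
        1 / (((m : ℝ) - 1) * ((m : ℝ) - 2)) := by
    rw [sum_image (fun a _ b _ h => hinj h)]
  rw [h1]
  have h2 : ∑ m ∈ (univ.filter (fun i => ¬ P i ≤ r)).image P,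
      1 / (((m : ℝ) - 1) * ((m : ℝ) - 2)) ≤
      ∑ m ∈ Ioc r M, 1 / (((m : ℝ) - 1) * ((m : ℝ) - 2)) := by
    apply sum_le_sum_of_subset_of_nonneg
    · intro m hm
      rw [mem_image] at hm
      obtain ⟨i, hi, rfl⟩ := hm
      rw [mem_filter] at hi
      rw [mem_Ioc]
      refine ⟨not_le.1 hi.2, ?_⟩
      have := single_le_sum (f := P) (fun i _ => Nat.zero_le _) (mem_univ i)
      omega
    · intro m hm _
      rw [mem_Ioc] at hm
      have h3 : (2 : ℝ) < m := by exact_mod_cast lt_of_le_of_lt hr hm.1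
      exact div_nonneg zero_le_one (mul_nonneg (by linarith) (by linarith))
  rw [core_telesc r hr M (by omega)] at h2
  have h3 : (r : ℝ) ≤ M := by exact_mod_cast (by omega : r ≤ M)
  have h4 : 0 ≤ 1 / ((M : ℝ) - 1) := div_nonneg zero_le_one (by linarith)
  linarith

private lemma core_mean {k : ℕ} {p : ℕ} [NeZero p] (hp : 3 ≤ p) (r : ℕ) :
    (∑ m : Fin k → ZMod p, coreV p m ^ r) / (p : ℝ) ^ k ≤
      if p ≤ r then (((p : ℝ) - 1) / ((p : ℝ) - 2)) ^ (k * r) else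
        Real.exp (3 * (k : ℝ) ^ 2 * r / (((p : ℝ) - 1) * ((p : ℝ) - 2))) := by
  have h3 : (3 : ℝ) ≤ p := by exact_mod_cast hp
  by_cases h : p ≤ r
  · rw [if_pos h]
    rw [div_le_iff₀ (by positivity)]
    have h1 : ∀ m : Fin k → ZMod p, coreV p m ^ r ≤
        (((p : ℝ) - 1) / ((p : ℝ) - 2)) ^ (k * r) := by
      intro m
      rw [pow_mul]
      exact pow_le_pow_left₀ (coreV_nonneg hp m) (vp_small hp m) r
    refine (sum_le_sum fun m _ => h1 m).trans ?_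
    rw [sum_const, nsmul_eq_mul, card_univ]
    have h2 : Fintype.card (Fin k → ZMod p) = p ^ k := by
      rw [Fintype.card_fun, ZMod.card, Fintype.card_fin]
    rw [h2]
    push_cast
    rw [mul_comm]
  · rw [if_neg h]
    exact vp_big hp k r (by omega)

/-- Write `U` for the vectors `a` with all `a i ≠ 0`, `e = |E| / ∏ P i`, and `G a` for the mean over
all `n` of `1_E(n) wt n a`. (1) `θ e ≤ mean_U (β G)`. (2) `(∑ β G)^k ≤ (∑ β)^(k-1) ∑ β G^k`
(`inner_le_nnorm_mul_nnorm` or `Real.inner_le...`/Jensen for natural powers), so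
`(θ e)^k ≤ (mean β)^(k-1) C mean_U (G^k)`. (3) `mean_U (G^k)` is the mean over all `k`-tuples
`(n_1, .., n_k)` of `1_{E^k} V`, `V = mean_{a ∈ U} ∏_j wt (n_j) a = ∏_i V_i`. (4) again Jensen:
`(mean 1_{E^k} V)^r ≤ e^(k(r-1)) mean (V^r)`. (5) `mean (V^r) = ∏_i mean (V_i^r)`, bounded by
`vp_small` for `P i ≤ r` and by `vp_big` for `P i > r`. (6) the `P i` are distinct, so
`∑_{P i > r} 1/((P i - 1)(P i - 2)) ≤ 1/(r-1)`. -/
theorem core {ι : Type*} [Fintype ι] [DecidableEq ι] (P : ι → ℕ) [∀ i, NeZero (P i)]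
    (hP : ∀ i, 3 ≤ P i) (hinj : Function.Injective P) (k r : ℕ) (hk : 1 ≤ k) (hr : 2 ≤ r)
    (β : (∀ i, ZMod (P i)) → ℝ) (C : ℝ) (hβ0 : ∀ a, 0 ≤ β a) (hβC : ∀ a, β a ≤ C)
    (E : Finset (∀ i, ZMod (P i))) (θ : ℝ) (hθ : 0 ≤ θ)
    (h : ∀ n ∈ E, θ * ∏ i, ((P i : ℝ) - 1) ≤
      ∑ a ∈ univ.filter (fun a : ∀ i, ZMod (P i) => ∀ i, a i ≠ 0), β a * wt P n a) :
    θ ^ (k * r) * ((E.card : ℝ) / ∏ i, (P i : ℝ)) ^ k ≤
      C ^ r * ((∑ a ∈ univ.filter (fun a : ∀ i, ZMod (P i) => ∀ i, a i ≠ 0), β a) /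
        ∏ i, ((P i : ℝ) - 1)) ^ ((k - 1) * r) *
      (∏ i ∈ univ.filter (fun i => P i ≤ r), (((P i : ℝ) - 1) / ((P i : ℝ) - 2))) ^ (k * r) *
      Real.exp (3 * (k : ℝ) ^ 2 * r / ((r : ℝ) - 1)) := by
  set U := univ.filter (fun a : ∀ i, ZMod (P i) => ∀ i, a i ≠ 0) with hU
  set N1 : ℝ := ∏ i, ((P i : ℝ) - 1) with hN1
  set N0 : ℝ := ∏ i, (P i : ℝ) with hN0
  have hP3 : ∀ i, (3 : ℝ) ≤ P i := fun i => by exact_mod_cast hP i
  have hN1p : 0 < N1 := prod_pos fun i _ => by linarith [hP3 i]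
  have hN0p : 0 < N0 := prod_pos fun i _ => by linarith [hP3 i]
  have hC0 : 0 ≤ C := (hβ0 (fun _ => 0)).trans (hβC _)
  set e : ℝ := (E.card : ℝ) / N0 with he
  have he0 : 0 ≤ e := by positivity
  set B : ℝ := (∑ a ∈ U, β a) / N1 with hB
  have hB0 : 0 ≤ B := div_nonneg (sum_nonneg fun a _ => hβ0 a) hN1p.le
  have hwt : ∀ n a : ∀ i, ZMod (P i), 0 ≤ wt P n a := fun n a =>
    prod_nonneg fun i _ => wp_nonneg (hP i) _ _
  set g : (∀ i, ZMod (P i)) → ℝ := fun a => ∑ n ∈ E, wt P n a with hg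
  have hg0 : ∀ a, 0 ≤ g a := fun a => sum_nonneg fun n _ => hwt n a
  -- step 1
  have s1 : θ * E.card * N1 ≤ ∑ a ∈ U, β a * g a := by
    have h1 : ∑ n ∈ E, θ * N1 ≤ ∑ n ∈ E, ∑ a ∈ U, β a * wt P n a := sum_le_sum h
    rw [sum_const, nsmul_eq_mul, sum_comm] at h1
    calc θ * E.card * N1 = E.card * (θ * N1) := by ring
      _ ≤ _ := h1
      _ = ∑ a ∈ U, β a * g a := sum_congr rfl fun a _ => by rw [hg, mul_sum]
  -- step 2
  have s2 : (θ * E.card * N1) ^ k ≤ (∑ a ∈ U, β a) ^ (k - 1) * (C * ∑ a ∈ U, g a ^ k) := by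
    refine (pow_le_pow_left₀ (by positivity) s1 k).trans ?_
    refine (core_jensen U β g (fun a _ => hβ0 a) (fun a _ => hg0 a) k hk).trans ?_
    apply mul_le_mul_of_nonneg_left _ (pow_nonneg (sum_nonneg fun a _ => hβ0 a) _)
    rw [mul_sum]
    exact sum_le_sum fun a _ => mul_le_mul_of_nonneg_right (hβC a) (pow_nonneg (hg0 a) _)
  -- step 3
  set EK : Finset (Fin k → ∀ i, ZMod (P i)) := Fintype.piFinset (fun _ => E) with hEK
  set V : (Fin k → ∀ i, ZMod (P i)) → ℝ := fun x => ∏ i, coreV (P i) (fun j => x j i) with hV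
  have hV0 : ∀ x, 0 ≤ V x := fun x => prod_nonneg fun i _ => coreV_nonneg (hP i) _
  have s3 : ∑ a ∈ U, g a ^ k = N1 * ∑ x ∈ EK, V x := by
    have h1 : ∀ a, g a ^ k = ∑ x ∈ EK, ∏ j, wt P (x j) a := by
      intro a
      have h2 := prod_univ_sum (fun _ : Fin k => E) (fun _ n => wt P n a)
      rw [← h2, prod_const, card_univ, Fintype.card_fin]
    rw [sum_congr rfl fun a _ => h1 a, sum_comm, mul_sum]
    refine sum_congr rfl fun x _ => ?_
    have h2 := core_prodV P x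
    rw [div_eq_iff hN1p.ne'] at h2
    rw [h2, mul_comm]
  -- step 4
  have hEKc : (EK.card : ℝ) = (E.card : ℝ) ^ k := by
    rw [hEK, Fintype.card_piFinset, prod_const, card_univ, Fintype.card_fin]
    push_cast
    rfl
  have s4 : (∑ x ∈ EK, V x) ^ r ≤ ((E.card : ℝ) ^ k) ^ (r - 1) * ∑ x, V x ^ r := by
    have h1 := core_jensen EK (fun _ => 1) V (fun _ _ => zero_le_one) (fun x _ => hV0 x) r
      (by omega)
    simp only [one_mul, sum_const, nsmul_eq_mul, mul_one] at h1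
    rw [hEKc] at h1
    refine h1.trans (mul_le_mul_of_nonneg_left ?_ (by positivity))
    exact sum_le_sum_of_subset_of_nonneg (subset_univ _) fun x _ _ => pow_nonneg (hV0 x) _
  -- step 5
  set R : ℝ := (∏ i ∈ univ.filter (fun i => P i ≤ r),
    (((P i : ℝ) - 1) / ((P i : ℝ) - 2))) ^ (k * r) *
      Real.exp (3 * (k : ℝ) ^ 2 * r / ((r : ℝ) - 1)) with hR
  have s5 : (∑ x, V x ^ r) / N0 ^ k ≤ R := by
    have h1 : (∑ x, V x ^ r) / N0 ^ k =
        ∏ i, (∑ m : Fin k → ZMod (P i), coreV (P i) m ^ r) / (P i : ℝ) ^ k := by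
      rw [hV, core_sumVr, hN0, prod_div_distrib, prod_pow]
    rw [h1]
    have h2 : ∏ i, (∑ m : Fin k → ZMod (P i), coreV (P i) m ^ r) / (P i : ℝ) ^ k ≤
        ∏ i, (if P i ≤ r then (((P i : ℝ) - 1) / ((P i : ℝ) - 2)) ^ (k * r) else
          Real.exp (3 * (k : ℝ) ^ 2 * r / (((P i : ℝ) - 1) * ((P i : ℝ) - 2)))) := by
      apply prod_le_prod
      · intro i _
        exact div_nonneg (sum_nonneg fun m _ => pow_nonneg (coreV_nonneg (hP i) m) _)
          (by positivity)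
      · intro i _
        exact core_mean (hP i) r
    refine h2.trans ?_
    rw [prod_ite, prod_pow, hR]
    apply mul_le_mul_of_nonneg_left
    · rw [← Real.exp_sum]
      apply Real.exp_le_exp.2
      have h3 : ∑ i ∈ univ.filter (fun i => ¬ P i ≤ r),
          3 * (k : ℝ) ^ 2 * r / (((P i : ℝ) - 1) * ((P i : ℝ) - 2)) =
          3 * (k : ℝ) ^ 2 * r * ∑ i ∈ univ.filter (fun i => ¬ P i ≤ r),
            1 / (((P i : ℝ) - 1) * ((P i : ℝ) - 2)) := by
        rw [mul_sum]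
        exact sum_congr rfl fun i _ => by ring
      rw [h3]
      calc 3 * (k : ℝ) ^ 2 * r * ∑ i ∈ univ.filter (fun i => ¬ P i ≤ r),
            1 / (((P i : ℝ) - 1) * ((P i : ℝ) - 2))
          ≤ 3 * (k : ℝ) ^ 2 * r * (1 / ((r : ℝ) - 1)) :=
            mul_le_mul_of_nonneg_left (core_recip P hinj r hr) (by positivity)
        _ = _ := by ring
    · apply pow_nonneg
      apply prod_nonneg
      intro i _
      have := hP3 i
      exact div_nonneg (by linarith) (by linarith)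
  have hR0 : 0 ≤ R := by
    rw [hR]
    apply mul_nonneg _ (Real.exp_pos _).le
    apply pow_nonneg
    apply prod_nonneg
    intro i _
    have := hP3 i
    exact div_nonneg (by linarith) (by linarith)
  -- assembly
  have s6 : (θ * e) ^ (k * r) ≤ B ^ ((k - 1) * r) * C ^ r * (e ^ (k * (r - 1)) * R) := by
    have h1 : (θ * e) ^ k ≤ B ^ (k - 1) * (C * ((∑ x ∈ EK, V x) / N0 ^ k)) := by
      rw [s3] at s2
      have h2 : (θ * e) ^ k = (θ * E.card * N1) ^ k / (N0 ^ k * N1 ^ k) := by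
        rw [he, ← mul_pow, ← div_pow]
        congr 1
        field_simp
      have h3 : B ^ (k - 1) * (C * ((∑ x ∈ EK, V x) / N0 ^ k)) =
          ((∑ a ∈ U, β a) ^ (k - 1) * (C * (N1 * ∑ x ∈ EK, V x))) / (N0 ^ k * N1 ^ k) := by
        have h4 : N1 ^ k = N1 ^ (k - 1) * N1 := by rw [← pow_succ, Nat.sub_add_cancel hk]
        rw [hB, div_pow, h4]
        field_simp
      rw [h2, h3]
      exact div_le_div_of_nonneg_right s2 (by positivity)
    have h2 : ((∑ x ∈ EK, V x) / N0 ^ k) ^ r ≤ e ^ (k * (r - 1)) * R := by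
      have h3 : ((∑ x ∈ EK, V x) / N0 ^ k) ^ r ≤
          (((E.card : ℝ) ^ k) ^ (r - 1) * ∑ x, V x ^ r) / (N0 ^ k) ^ r := by
        rw [div_pow]
        exact div_le_div_of_nonneg_right s4 (by positivity)
      have h4 : (((E.card : ℝ) ^ k) ^ (r - 1) * ∑ x, V x ^ r) / (N0 ^ k) ^ r =
          e ^ (k * (r - 1)) * ((∑ x, V x ^ r) / N0 ^ k) := by
        have h5 : (N0 ^ k) ^ r = (N0 ^ k) ^ (r - 1) * N0 ^ k := by
          rw [← pow_succ, Nat.sub_add_cancel (by omega : 1 ≤ r)]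
        rw [h5, he, pow_mul, div_pow, div_pow]
        field_simp
      rw [h4] at h3
      exact h3.trans (mul_le_mul_of_nonneg_left s5 (by positivity))
    have hS0 : 0 ≤ (∑ x ∈ EK, V x) / N0 ^ k :=
      div_nonneg (sum_nonneg fun x _ => hV0 x) (by positivity)
    calc (θ * e) ^ (k * r) = ((θ * e) ^ k) ^ r := by rw [pow_mul]
      _ ≤ (B ^ (k - 1) * (C * ((∑ x ∈ EK, V x) / N0 ^ k))) ^ r :=
          pow_le_pow_left₀ (by positivity) h1 r
      _ = B ^ ((k - 1) * r) * C ^ r * ((∑ x ∈ EK, V x) / N0 ^ k) ^ r := by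
          rw [mul_pow, mul_pow, ← pow_mul]; ring
      _ ≤ _ := mul_le_mul_of_nonneg_left h2 (by positivity)
  have hrhs : C ^ r * B ^ ((k - 1) * r) *
      (∏ i ∈ univ.filter (fun i => P i ≤ r), (((P i : ℝ) - 1) / ((P i : ℝ) - 2))) ^ (k * r) *
      Real.exp (3 * (k : ℝ) ^ 2 * r / ((r : ℝ) - 1)) = C ^ r * B ^ ((k - 1) * r) * R := by
    rw [hR]; ring
  rw [hrhs]
  rcases he0.eq_or_lt with h0 | h0
  · rw [← h0, zero_pow (by omega), mul_zero]
    positivity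
  · have h1 : k * r = k + k * (r - 1) := by
      obtain ⟨t, rfl⟩ : ∃ t, r = t + 1 := ⟨r - 1, by omega⟩
      rw [Nat.add_sub_cancel]
      ring
    have h2 : (θ * e) ^ (k * r) = θ ^ (k * r) * e ^ k * e ^ (k * (r - 1)) := by
      rw [mul_pow, mul_assoc, ← pow_add, ← h1]
    rw [h2] at s6
    have h3 : B ^ ((k - 1) * r) * C ^ r * (e ^ (k * (r - 1)) * R) =
        (C ^ r * B ^ ((k - 1) * r) * R) * e ^ (k * (r - 1)) := by ring
    rw [h3] at s6
    exact le_of_mul_le_mul_right s6 (pow_pos h0 _)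

end Pool.Agent.Lib.MP_629a14_nt.Rob
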