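import Mathlib

/-! Definitions for the local moment lemma. -/

set_option autoImplicit false

namespace Pool.Agent.Lib.MP_629a14_nt.Rob

open Finset

/-- The local weight: normalised indicator of `m ≠ b`, for `b ≠ 0`. -/
noncomputable def wp (p : ℕ) (m b : ZMod p) : ℝ :=
  if m = 0 then 1 else if m = b then 0 else ((p : ℝ) - 1) / ((p : ℝ) - 2)

/-- The product of the local weights. -/
noncomputable def wt {ι : Type*} [Fintype ι] (P : ι → ℕ) (n a : ∀ i, ZMod (P i)) : ℝ :=
  ∏ i, wp (P i) (n i) (a i)

/-- The odd primes up to `v`. -/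
abbrev Idx (v : ℕ) : Type := {p // p ∈ (Icc 3 v).filter Nat.Prime}

instance (v : ℕ) (i : Idx v) : NeZero (i : ℕ) :=
  ⟨by
    have h := (mem_filter.1 i.2).2
    exact h.ne_zero⟩

/-- Residues modulo all odd primes up to `v`. -/
abbrev XX (v : ℕ) : Type := ∀ i : Idx v, ZMod (i : ℕ)

/-- The vectors of nonzero residues. -/
def UU (v : ℕ) : Finset (XX v) := univ.filter (fun a => ∀ i, a i ≠ 0)

/-- The vector of residues of a natural number. -/
def pr (v n : ℕ) : XX v := fun _ => (n : ZMod _)

end Pool.Agent.Lib.MP_629a14_nt.Rob
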