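import Pool.Agent.Lib.MP_629a14_nt.Rob.LCore
import Pool.Agent.Lib.MP_629a14_nt.Rob.Defs

/-! The local moment lemma for the odd primes up to v. -/

set_option autoImplicit false

namespace Pool.Agent.Lib.MP_629a14_nt.Rob

open Finset Pool.Agent.Lib.MP_629a14_nt

theorem card_UU (v : ℕ) : ((UU v).card : ℝ) = ∏ i : Idx v, (((i : ℕ) : ℝ) - 1) := by
  have h1 : UU v = Fintype.piFinset (fun i : Idx v => (univ : Finset (ZMod (i : ℕ))).erase 0) := by
    ext a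
    simp [UU, Fintype.mem_piFinset]
  rw [h1, Fintype.card_piFinset, Nat.cast_prod]
  apply Finset.prod_congr rfl
  intro i _
  rw [Finset.card_erase_of_mem (mem_univ _), Finset.card_univ, ZMod.card]
  have h2 := (mem_filter.1 i.2).1
  rw [mem_Icc] at h2
  rw [Nat.cast_sub (by omega)]
  simp

theorem card_XX (v : ℕ) : (Fintype.card (XX v) : ℝ) = ∏ i : Idx v, ((i : ℕ) : ℝ) := by
  rw [Fintype.card_pi, Nat.cast_prod]
  apply Finset.prod_congr rfl
  intro i _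
  rw [ZMod.card]

private theorem lfinal_Del_ge (w : ℕ) (hw : 2 ≤ w) : 1 / ((w : ℝ) - 1) ≤ Del w := by
  induction w, hw using Nat.le_induction with
  | base =>
    unfold Del
    have h1 : (Icc 3 2 : Finset ℕ) = ∅ := by decide
    rw [h1]
    norm_num
  | succ w hw ih =>
    have hw2 : (2 : ℝ) ≤ w := by exact_mod_cast hw
    unfold Del at ih ⊢
    rw [Finset.prod_filter] at ih ⊢
    rw [Finset.prod_Icc_succ_top (by omega)]
    have h1 : ((w : ℝ) - 1) / w ≤ if (w + 1).Prime then (((w + 1 : ℕ) : ℝ) - 2) /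
        (((w + 1 : ℕ) : ℝ) - 1) else 1 := by
      split_ifs
      · push_cast
        apply le_of_eq
        congr 1 <;> ring
      · rw [div_le_one (by linarith)]
        linarith
    have h2 : 1 / (((w + 1 : ℕ) : ℝ) - 1) = 1 / ((w : ℝ) - 1) * (((w : ℝ) - 1) / w) := by
      have h3 : (w : ℝ) - 1 ≠ 0 := by linarith
      have h4 : (w : ℝ) ≠ 0 := by linarith
      have h5 : (((w + 1 : ℕ) : ℝ) - 1) = w := by
        push_cast
        ring
      rw [h5]
      field_simp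
    rw [h2]
    apply mul_le_mul ih h1
    · apply div_nonneg <;> linarith
    · refine le_trans ?_ ih
      apply div_nonneg <;> linarith

/-- `∏_{3 ≤ m ≤ w} (m-2)/(m-1) = 1/(w-1)`. -/
theorem Del_ge (w : ℕ) (hw : 1 ≤ w) : 1 / (w : ℝ) ≤ Del w := by
  rcases Nat.lt_or_ge w 2 with h | h
  · have h1 : w = 1 := by omega
    subst h1
    unfold Del
    have h1 : (Icc 3 1 : Finset ℕ) = ∅ := by decide
    rw [h1]
    simp
  · refine le_trans ?_ (lfinal_Del_ge w h)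
    have hw2 : (2 : ℝ) ≤ w := by exact_mod_cast h
    apply one_div_le_one_div_of_le
    · linarith
    · linarith

theorem Del_le_one (w : ℕ) : Del w ≤ 1 := by
  unfold Del
  apply Finset.prod_le_one
  · intro p hp
    have h1 := (mem_Icc.1 (mem_filter.1 hp).1).1
    have h2 : (3 : ℝ) ≤ p := by exact_mod_cast h1
    apply div_nonneg <;> linarith
  · intro p hp
    have h1 := (mem_Icc.1 (mem_filter.1 hp).1).1
    have h2 : (3 : ℝ) ≤ p := by exact_mod_cast h1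
    rw [div_le_one (by linarith)]
    linarith

private theorem lfinal_prod {w v : ℕ} (hwv : w ≤ v) :
    ∏ i ∈ univ.filter (fun i : Idx v => (i : ℕ) ≤ w),
      ((((i : ℕ) : ℝ) - 1) / (((i : ℕ) : ℝ) - 2)) = (Del w)⁻¹ := by
  rw [Finset.prod_filter]
  have h1 : ∏ i : Idx v, (if (i : ℕ) ≤ w then ((((i : ℕ) : ℝ) - 1) / (((i : ℕ) : ℝ) - 2)) else 1) =
      ∏ p ∈ (Icc 3 v).filter Nat.Prime,
        (if p ≤ w then (((p : ℝ) - 1) / ((p : ℝ) - 2)) else 1) :=
    Finset.prod_coe_sort ((Icc 3 v).filter Nat.Prime)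
      (fun p => if p ≤ w then (((p : ℝ) - 1) / ((p : ℝ) - 2)) else 1)
  rw [h1, ← Finset.prod_filter, Finset.filter_filter]
  have h2 : (Icc 3 v).filter (fun p => p.Prime ∧ p ≤ w) = (Icc 3 w).filter Nat.Prime := by
    ext p
    simp only [mem_filter, mem_Icc]
    constructor
    · rintro ⟨⟨a, b⟩, c, d⟩
      exact ⟨⟨a, d⟩, c⟩
    · rintro ⟨⟨a, b⟩, c⟩
      exact ⟨⟨a, b.trans hwv⟩, c, b⟩
  rw [h2]
  unfold Del
  rw [← Finset.prod_inv_distrib]
  apply Finset.prod_congr rfl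
  intro p _
  rw [inv_div]

private theorem lfinal_large (ε : ℝ) (hε : 0 < ε) : ∃ w₀ : ℕ, ∀ w : ℕ, w₀ ≤ w → 2 ≤ w ∧
    20 * Real.log (40 * w) / ε + 1 ≤ ε * (w - 1) / 60 := by
  have hc : 0 < ε ^ 2 / 96000 := by positivity
  have h1 := Real.isLittleO_log_id_atTop.def hc
  have h2 : Filter.Tendsto (fun w : ℕ => (40 : ℝ) * w) Filter.atTop Filter.atTop :=
    Filter.Tendsto.const_mul_atTop (by norm_num) tendsto_natCast_atTop_atTop
  have h3 := h2.eventually h1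
  have h4 : ∀ᶠ w : ℕ in Filter.atTop, 120 / ε + 2 ≤ (w : ℝ) :=
    tendsto_natCast_atTop_atTop.eventually_ge_atTop _
  obtain ⟨w₀, hw₀⟩ := Filter.eventually_atTop.1 (h3.and h4)
  refine ⟨max w₀ 2, fun w hw => ?_⟩
  obtain ⟨h5, h6⟩ := hw₀ w (le_trans (le_max_left _ _) hw)
  refine ⟨le_trans (le_max_right _ _) hw, ?_⟩
  have hw0 : (0 : ℝ) ≤ w := Nat.cast_nonneg _
  have h7 : Real.log (40 * w) ≤ ε ^ 2 / 96000 * (40 * w) := by
    have h8 := le_trans (le_abs_self _) h5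
    simp only [id_eq, Real.norm_eq_abs] at h8
    rw [abs_of_nonneg (by positivity : (0 : ℝ) ≤ 40 * w)] at h8
    exact h8
  have h9 : 20 * Real.log (40 * w) / ε ≤ ε * w / 120 := by
    rw [div_le_iff₀ hε]
    nlinarith
  have h10 : 1 + ε / 60 ≤ ε * w / 120 := by
    have h11 : 120 + 2 * ε ≤ ε * w := by
      have h12 := mul_le_mul_of_nonneg_left h6 hε.le
      have h13 : ε * (120 / ε + 2) = 120 + 2 * ε := by
        field_simp
      linarith
    linarith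
  linarith

/-- `core` with `r = w`, `C = 4`, `θ = 1 - 3ε/10`, `k = ⌈20 log (40 w) / ε⌉`:
`|E|/|X| ≤ ((40 w)^(1/k) (1 - 9ε/10)/(1 - 3ε/10) exp (3k/(w-1)))^w`
`≤ exp (w (ε/20 - 6ε/10 + ε/20))`. -/
theorem lfinal (ε : ℝ) (hε : 0 < ε) (hε1 : ε ≤ 1) : ∃ w₀ : ℕ, ∀ w v : ℕ, w₀ ≤ w → w ≤ v →
    ∀ β : XX v → ℝ, (∀ a, 0 ≤ β a) → (∀ a, β a ≤ 4) →
      ∑ a ∈ UU v, β a ≤ (1 - 9 / 10 * ε) * Del w * (UU v).card →
      ∀ E : Finset (XX v),
        (∀ n ∈ E, (1 - 3 / 10 * ε) * (UU v).card ≤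
          ∑ a ∈ UU v, β a * wt (fun i : Idx v => (i : ℕ)) n a) →
        (E.card : ℝ) ≤ Real.exp (-(ε * w / 2)) * Fintype.card (XX v) := by
  obtain ⟨w₀, hw₀⟩ := lfinal_large ε hε
  refine ⟨w₀, fun w v hw hwv β hβ0 hβ4 hsum E hE => ?_⟩
  obtain ⟨hw2, hlog⟩ := hw₀ w hw
  have hw2' : (2 : ℝ) ≤ w := by exact_mod_cast hw2
  have hP3 : ∀ i : Idx v, 3 ≤ (i : ℕ) := fun i => (mem_Icc.1 (mem_filter.1 i.2).1).1
  have hP3' : ∀ i : Idx v, (3 : ℝ) ≤ ((i : ℕ) : ℝ) := fun i => by exact_mod_cast hP3 i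
  have hinj : Function.Injective (fun i : Idx v => (i : ℕ)) := Subtype.val_injective
  have hlogpos : 0 < Real.log (40 * w) := Real.log_pos (by linarith)
  obtain ⟨k, hk⟩ : ∃ k : ℕ, k = ⌈20 * Real.log (40 * w) / ε⌉₊ := ⟨_, rfl⟩
  have hk1 : 20 * Real.log (40 * w) / ε ≤ k := by rw [hk]; exact Nat.le_ceil _
  have hk2 : (k : ℝ) < 20 * Real.log (40 * w) / ε + 1 := by
    rw [hk]
    exact Nat.ceil_lt_add_one (by positivity)
  have hkpos : 0 < k := by
    have h1 : (0 : ℝ) < k := lt_of_lt_of_le (by positivity) hk1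
    exact_mod_cast h1
  have hkpos' : (0 : ℝ) < k := by exact_mod_cast hkpos
  have hk3 : Real.log (40 * w) ≤ ε * k / 20 := by
    rw [div_le_iff₀ hε] at hk1
    linarith
  have hk4 : 3 * (k : ℝ) ≤ ε * (w - 1) / 20 := by linarith
  have hcore := core (fun i : Idx v => (i : ℕ)) hP3 hinj k w hkpos hw2 β 4 hβ0 hβ4 E
    (1 - 3 / 10 * ε) (by linarith) (fun n hn => by
      have := hE n hn
      rw [card_UU] at this
      exact this)
  rw [lfinal_prod hwv] at hcore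
  have hUpos : 0 < ∏ i : Idx v, (((i : ℕ) : ℝ) - 1) :=
    Finset.prod_pos (fun i _ => by have := hP3' i; linarith)
  have hXpos : 0 < ∏ i : Idx v, ((i : ℕ) : ℝ) :=
    Finset.prod_pos (fun i _ => by have := hP3' i; linarith)
  have hDel0 : 0 < Del w := lt_of_lt_of_le (by positivity) (Del_ge w (by omega))
  have hmean : (∑ a ∈ univ.filter (fun a : XX v => ∀ i, a i ≠ 0), β a) /
      ∏ i : Idx v, (((i : ℕ) : ℝ) - 1) ≤ (1 - 9 / 10 * ε) * Del w := by
    rw [div_le_iff₀ hUpos, ← card_UU]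
    exact hsum
  have hmean0 : 0 ≤ (∑ a ∈ univ.filter (fun a : XX v => ∀ i, a i ≠ 0), β a) /
      ∏ i : Idx v, (((i : ℕ) : ℝ) - 1) :=
    div_nonneg (Finset.sum_nonneg (fun a _ => hβ0 a)) hUpos.le
  obtain ⟨e, he⟩ : ∃ e : ℝ, e = (E.card : ℝ) / ∏ i : Idx v, ((i : ℕ) : ℝ) := ⟨_, rfl⟩
  have he0 : 0 ≤ e := by rw [he]; exact div_nonneg (Nat.cast_nonneg _) hXpos.le
  rw [← he] at hcore
  obtain ⟨θ, hθ⟩ : ∃ θ : ℝ, θ = 1 - 3 / 10 * ε := ⟨_, rfl⟩
  obtain ⟨A, hA⟩ : ∃ A : ℝ, A = 1 - 9 / 10 * ε := ⟨_, rfl⟩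
  have hθ0 : 0 < θ := by rw [hθ]; linarith
  have hA0 : 1 / 10 ≤ A := by rw [hA]; linarith
  have hA0' : 0 < A := by linarith
  rw [← hθ] at hcore
  rw [← hA] at hmean
  -- the bound for `e ^ k`
  have hb1 : ((∑ a ∈ univ.filter (fun a : XX v => ∀ i, a i ≠ 0), β a) /
      ∏ i : Idx v, (((i : ℕ) : ℝ) - 1)) ^ ((k - 1) * w) ≤ (A * Del w) ^ ((k - 1) * w) :=
    pow_le_pow_left₀ hmean0 hmean _
  have hb2 : (A * Del w) ^ ((k - 1) * w) * (Del w)⁻¹ ^ (k * w) ≤ A ^ (k * w) * (10 * w) ^ w := by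
    have e1 : k * w = (k - 1) * w + w := by
      obtain ⟨k', rfl⟩ : ∃ k', k = k' + 1 := ⟨k - 1, by omega⟩
      rw [Nat.add_sub_cancel]
      ring
    rw [e1, pow_add, pow_add, mul_pow]
    have e2 : A ^ ((k - 1) * w) * Del w ^ ((k - 1) * w) *
        ((Del w)⁻¹ ^ ((k - 1) * w) * (Del w)⁻¹ ^ w) = A ^ ((k - 1) * w) * (Del w)⁻¹ ^ w := by
      rw [inv_pow, inv_pow]
      have : Del w ^ ((k - 1) * w) ≠ 0 := by positivity
      field_simp
    rw [e2, mul_assoc]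
    apply mul_le_mul_of_nonneg_left _ (by positivity)
    rw [← mul_pow]
    apply pow_le_pow_left₀ (by positivity)
    have e3 : (Del w)⁻¹ ≤ w := by
      rw [inv_le_comm₀ hDel0 (by linarith)]
      have := Del_ge w (by omega)
      rwa [one_div] at this
    calc (Del w)⁻¹ ≤ w := e3
      _ = (1 / 10) * (10 * w) := by ring
      _ ≤ A * (10 * w) := mul_le_mul_of_nonneg_right hA0 (by positivity)
  have hb3 : θ ^ (k * w) * e ^ k ≤ (40 * w) ^ w * A ^ (k * w) *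
      Real.exp (3 * (k : ℝ) ^ 2 * w / ((w : ℝ) - 1)) := by
    refine le_trans hcore ?_
    apply mul_le_mul_of_nonneg_right _ (Real.exp_pos _).le
    calc (4 : ℝ) ^ w * ((∑ a ∈ univ.filter (fun a : XX v => ∀ i, a i ≠ 0), β a) /
          ∏ i : Idx v, (((i : ℕ) : ℝ) - 1)) ^ ((k - 1) * w) * (Del w)⁻¹ ^ (k * w)
        ≤ (4 : ℝ) ^ w * (A * Del w) ^ ((k - 1) * w) * (Del w)⁻¹ ^ (k * w) := by
          apply mul_le_mul_of_nonneg_right _ (by positivity)
          exact mul_le_mul_of_nonneg_left hb1 (by positivity)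
      _ = (4 : ℝ) ^ w * ((A * Del w) ^ ((k - 1) * w) * (Del w)⁻¹ ^ (k * w)) := by ring
      _ ≤ (4 : ℝ) ^ w * (A ^ (k * w) * (10 * w) ^ w) :=
          mul_le_mul_of_nonneg_left hb2 (by positivity)
      _ = (40 * w) ^ w * A ^ (k * w) := by
          have : (40 * (w : ℝ)) ^ w = 4 ^ w * (10 * w) ^ w := by
            rw [← mul_pow]
            congr 1
            ring
          rw [this]
          ring
  have hAθ : A ≤ θ * Real.exp (-(6 / 10 * ε)) := by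
    have h1 := Real.add_one_le_exp (-(6 / 10 * ε))
    have h2 : θ * (-(6 / 10 * ε) + 1) ≤ θ * Real.exp (-(6 / 10 * ε)) :=
      mul_le_mul_of_nonneg_left h1 hθ0.le
    refine le_trans ?_ h2
    rw [hA, hθ]
    nlinarith
  have hb4 : A ^ (k * w) ≤ θ ^ (k * w) * Real.exp (-(6 / 10 * ε * (k * w))) := by
    have h1 := pow_le_pow_left₀ hA0'.le hAθ (k * w)
    rw [mul_pow, ← Real.exp_nat_mul] at h1
    refine le_trans h1 (le_of_eq ?_)
    congr 2
    push_cast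
    ring
  have hb5 : (40 * (w : ℝ)) ^ w = Real.exp (w * Real.log (40 * w)) := by
    rw [Real.exp_nat_mul, Real.exp_log (by positivity)]
  have hb6 : e ^ k ≤ Real.exp (-(ε * w / 2)) ^ k := by
    have hθk : 0 < θ ^ (k * w) := by positivity
    have h1 : θ ^ (k * w) * e ^ k ≤ θ ^ (k * w) * (Real.exp (w * Real.log (40 * w)) *
        Real.exp (-(6 / 10 * ε * (k * w))) * Real.exp (3 * (k : ℝ) ^ 2 * w / ((w : ℝ) - 1))) := by
      refine le_trans hb3 ?_
      rw [hb5]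
      calc Real.exp (w * Real.log (40 * w)) * A ^ (k * w) *
            Real.exp (3 * (k : ℝ) ^ 2 * w / ((w : ℝ) - 1))
          ≤ Real.exp (w * Real.log (40 * w)) * (θ ^ (k * w) *
            Real.exp (-(6 / 10 * ε * (k * w)))) * Real.exp (3 * (k : ℝ) ^ 2 * w / ((w : ℝ) - 1)) := by
            apply mul_le_mul_of_nonneg_right _ (Real.exp_pos _).le
            exact mul_le_mul_of_nonneg_left hb4 (Real.exp_pos _).le
        _ = _ := by ring
    have h2 := le_of_mul_le_mul_left h1 hθk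
    refine le_trans h2 ?_
    rw [← Real.exp_add, ← Real.exp_add, ← Real.exp_nat_mul, Real.exp_le_exp]
    have h3 : 3 * (k : ℝ) ^ 2 * w / ((w : ℝ) - 1) ≤ ε * k * w / 20 := by
      rw [div_le_iff₀ (by linarith)]
      have h4 := mul_le_mul_of_nonneg_right hk4 (by positivity : (0 : ℝ) ≤ k * w)
      nlinarith
    have h5 := mul_le_mul_of_nonneg_left hk3 (by positivity : (0 : ℝ) ≤ (w : ℝ))
    nlinarith
  have hb7 : e ≤ Real.exp (-(ε * w / 2)) :=
    le_of_pow_le_pow_left₀ hkpos.ne' (Real.exp_pos _).le hb6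
  rw [he, div_le_iff₀ hXpos, ← card_XX] at hb7
  exact hb7

end Pool.Agent.Lib.MP_629a14_nt.Rob
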