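import Pool.Agent.Lib.MP_629a14_nt.Rob.LDefs

/-! The local moment lemma at one prime. -/

set_option autoImplicit false

namespace Pool.Agent.Lib.MP_629a14_nt.Rob

open Finset

private theorem LOne_pos {p : ℕ} (hp : 3 ≤ p) :
    (0 : ℝ) < (p : ℝ) - 2 ∧ (0 : ℝ) < (p : ℝ) - 1 ∧ (0 : ℝ) < p := by
  have h : (3 : ℝ) ≤ p := by exact_mod_cast hp
  refine ⟨by linarith, by linarith, by linarith⟩

private theorem LOne_one_le {p : ℕ} (hp : 3 ≤ p) : 1 ≤ ((p : ℝ) - 1) / ((p : ℝ) - 2) := by
  obtain ⟨h2, -, -⟩ := LOne_pos hp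
  rw [one_le_div h2]
  linarith

theorem wp_nonneg {p : ℕ} (hp : 3 ≤ p) (m b : ZMod p) : 0 ≤ wp p m b := by
  have h := LOne_one_le hp
  unfold wp
  split_ifs
  · exact zero_le_one
  · exact le_rfl
  · linarith

theorem wp_le {p : ℕ} (hp : 3 ≤ p) (m b : ZMod p) : wp p m b ≤ ((p : ℝ) - 1) / ((p : ℝ) - 2) := by
  have h := LOne_one_le hp
  unfold wp
  split_ifs
  · exact h
  · linarith
  · exact le_rfl

private theorem LOne_card {p : ℕ} [NeZero p] (S : Finset (ZMod p)) :
    ((univ.filter (fun b : ZMod p => b ∉ S)).card : ℝ) = (p : ℝ) - S.card := by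
  have h1 := Finset.card_filter_add_card_filter_not (s := (univ : Finset (ZMod p)))
    (fun b => b ∈ S)
  have h2 : (univ.filter (fun b : ZMod p => b ∈ S)) = S := by
    ext b
    simp
  rw [h2, Finset.card_univ, ZMod.card] at h1
  have h3 : (S.card : ℝ) + ((univ.filter (fun b : ZMod p => b ∉ S)).card : ℝ) = p := by
    exact_mod_cast h1
  linarith

private theorem LOne_card_ne {p : ℕ} [NeZero p] :
    ((univ.filter (fun b : ZMod p => b ≠ 0)).card : ℝ) = (p : ℝ) - 1 := by
  have h := LOne_card ({0} : Finset (ZMod p))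
  rw [Finset.card_singleton] at h
  rw [← Nat.cast_one, ← h]
  congr 2
  ext b
  simp

theorem vp_small {p : ℕ} [NeZero p] (hp : 3 ≤ p) {k : ℕ} (m : Fin k → ZMod p) :
    (∑ b ∈ univ.filter (fun b : ZMod p => b ≠ 0), ∏ j, wp p (m j) b) / ((p : ℝ) - 1) ≤
      (((p : ℝ) - 1) / ((p : ℝ) - 2)) ^ k := by
  obtain ⟨-, h1, -⟩ := LOne_pos hp
  rw [div_le_iff₀ h1]
  have h : ∑ b ∈ univ.filter (fun b : ZMod p => b ≠ 0), ∏ j, wp p (m j) b ≤
      ∑ b ∈ univ.filter (fun b : ZMod p => b ≠ 0), (((p : ℝ) - 1) / ((p : ℝ) - 2)) ^ k := by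
    refine Finset.sum_le_sum fun b _ => ?_
    have := Finset.prod_le_prod (s := (univ : Finset (Fin k))) (f := fun j => wp p (m j) b)
      (g := fun _ => ((p : ℝ) - 1) / ((p : ℝ) - 2)) (fun j _ => wp_nonneg hp _ _)
      (fun j _ => wp_le hp _ _)
    rwa [Finset.prod_const, Finset.card_univ, Fintype.card_fin] at this
  rw [Finset.sum_const, nsmul_eq_mul, LOne_card_ne] at h
  linarith

/-- the product of the weights. -/
private theorem LOne_prod {p : ℕ} {k : ℕ} (m : Fin k → ZMod p) {b : ZMod p}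
    (hm : b ∉ univ.image m) : ∏ j, wp p (m j) b =
      (((p : ℝ) - 1) / ((p : ℝ) - 2)) ^ (univ.filter (fun j => m j ≠ 0)).card := by
  have h : ∀ j, wp p (m j) b = if m j ≠ 0 then ((p : ℝ) - 1) / ((p : ℝ) - 2) else 1 := by
    intro j
    have hj : m j ≠ b := fun hc => hm (Finset.mem_image.mpr ⟨j, Finset.mem_univ j, hc⟩)
    unfold wp
    by_cases h0 : m j = 0
    · simp [h0]
    · rw [if_neg h0, if_neg hj, if_pos h0]
  rw [Finset.prod_congr rfl (fun j _ => h j), Finset.prod_ite, Finset.prod_const,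
    Finset.prod_const_one, mul_one]

private theorem LOne_prod_zero {p : ℕ} {k : ℕ} (m : Fin k → ZMod p) {b : ZMod p} (hb : b ≠ 0)
    (hm : b ∈ univ.image m) : ∏ j, wp p (m j) b = 0 := by
  obtain ⟨j, -, hj⟩ := Finset.mem_image.mp hm
  refine Finset.prod_eq_zero (Finset.mem_univ j) ?_
  unfold wp
  rw [hj, if_neg hb, if_pos rfl]

private theorem LOne_sum {p : ℕ} [NeZero p] {k : ℕ} (m : Fin k → ZMod p) :
    ∑ b ∈ univ.filter (fun b : ZMod p => b ≠ 0), ∏ j, wp p (m j) b =
      ((p : ℝ) - (insert 0 (univ.image m)).card) *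
        (((p : ℝ) - 1) / ((p : ℝ) - 2)) ^ (univ.filter (fun j => m j ≠ 0)).card := by
  rw [← LOne_card, ← nsmul_eq_mul, ← Finset.sum_const, Finset.sum_filter, Finset.sum_filter]
  refine Finset.sum_congr rfl fun b _ => ?_
  by_cases hb : b = 0
  · simp [hb]
  · rw [if_pos hb]
    by_cases hm : b ∈ univ.image m
    · rw [LOne_prod_zero m hb hm, if_neg]
      simp only [Finset.mem_insert, not_or, not_and, not_not]
      intro _
      exact hm
    · rw [LOne_prod m hm, if_pos]
      simp only [Finset.mem_insert, not_or]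
      exact ⟨hb, hm⟩

/-- the pointwise bound. -/
private theorem LOne_le {p : ℕ} [NeZero p] (hp : 3 ≤ p) {k : ℕ} (m : Fin k → ZMod p) :
    (∑ b ∈ univ.filter (fun b : ZMod p => b ≠ 0), ∏ j, wp p (m j) b) / ((p : ℝ) - 1) ≤
      Real.exp (((k : ℝ) - (univ.image m).card) / ((p : ℝ) - 1) +
        (k : ℝ) / (((p : ℝ) - 1) * ((p : ℝ) - 2))) := by
  obtain ⟨h2, h1, h0⟩ := LOne_pos hp
  rw [LOne_sum]
  set s : ℕ := (univ.filter (fun j => m j ≠ 0)).card with hs
  set D : ℕ := (univ.image m).card with hD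
  set D' : ℕ := (insert 0 (univ.image m)).card with hD'
  have hsk : s ≤ k := by
    have := Finset.card_filter_le (univ : Finset (Fin k)) (fun j => m j ≠ 0)
    rwa [Finset.card_univ, Fintype.card_fin] at this
  have hkey : s + D + 1 ≤ k + D' := by
    by_cases hz : (0 : ZMod p) ∈ univ.image m
    · have e1 : D' = D := by rw [hD', Finset.insert_eq_of_mem hz]
      obtain ⟨j, -, hj⟩ := Finset.mem_image.mp hz
      have e2 : s < k := by
        have := Finset.card_lt_card (s := univ.filter (fun j => m j ≠ 0))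
          (t := (univ : Finset (Fin k))) ?_
        · rwa [Finset.card_univ, Fintype.card_fin] at this
        · rw [Finset.filter_ssubset]
          exact ⟨j, Finset.mem_univ j, by simp [hj]⟩
      omega
    · have e1 : D' = D + 1 := by rw [hD', Finset.card_insert_of_notMem hz]
      omega
  have e1 : (((p : ℝ) - 1) / ((p : ℝ) - 2)) ^ s ≤ Real.exp ((s : ℝ) / ((p : ℝ) - 2)) := by
    have h3 : ((p : ℝ) - 1) / ((p : ℝ) - 2) = 1 / ((p : ℝ) - 2) + 1 := by
      field_simp
      ring
    have h4 : ((p : ℝ) - 1) / ((p : ℝ) - 2) ≤ Real.exp (1 / ((p : ℝ) - 2)) := by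
      rw [h3]
      exact Real.add_one_le_exp _
    calc (((p : ℝ) - 1) / ((p : ℝ) - 2)) ^ s ≤ (Real.exp (1 / ((p : ℝ) - 2))) ^ s :=
          pow_le_pow_left₀ (zero_le_one.trans (LOne_one_le hp)) h4 s
      _ = Real.exp ((s : ℝ) / ((p : ℝ) - 2)) := by
          rw [← Real.exp_nat_mul]
          congr 1
          ring
  have e2 : ((p : ℝ) - D') / ((p : ℝ) - 1) ≤ Real.exp (-((D' : ℝ) - 1) / ((p : ℝ) - 1)) := by
    have h3 : ((p : ℝ) - D') / ((p : ℝ) - 1) = -((D' : ℝ) - 1) / ((p : ℝ) - 1) + 1 := by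
      field_simp
      ring
    rw [h3]
    exact Real.add_one_le_exp _
  calc ((p : ℝ) - D') * (((p : ℝ) - 1) / ((p : ℝ) - 2)) ^ s / ((p : ℝ) - 1)
      = ((p : ℝ) - D') / ((p : ℝ) - 1) * (((p : ℝ) - 1) / ((p : ℝ) - 2)) ^ s := by ring
    _ ≤ Real.exp (-((D' : ℝ) - 1) / ((p : ℝ) - 1)) * Real.exp ((s : ℝ) / ((p : ℝ) - 2)) := by
        refine mul_le_mul e2 e1 (pow_nonneg (zero_le_one.trans (LOne_one_le hp)) s)
          (Real.exp_pos _).le
    _ = Real.exp (-((D' : ℝ) - 1) / ((p : ℝ) - 1) + (s : ℝ) / ((p : ℝ) - 2)) := by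
        rw [Real.exp_add]
    _ ≤ _ := by
        apply Real.exp_le_exp.mpr
        have h5 : (s : ℝ) / ((p : ℝ) - 2) = (s : ℝ) / ((p : ℝ) - 1) +
            (s : ℝ) / (((p : ℝ) - 1) * ((p : ℝ) - 2)) := by
          field_simp
          ring
        have h6 : (s : ℝ) / (((p : ℝ) - 1) * ((p : ℝ) - 2)) ≤
            (k : ℝ) / (((p : ℝ) - 1) * ((p : ℝ) - 2)) := by
          gcongr
        have h7 : (s : ℝ) + D + 1 ≤ k + D' := by exact_mod_cast hkey
        have h8 : -((D' : ℝ) - 1) / ((p : ℝ) - 1) + (s : ℝ) / ((p : ℝ) - 1) ≤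
            ((k : ℝ) - D) / ((p : ℝ) - 1) := by
          rw [← add_div]
          gcongr
          linarith
        rw [h5]
        linarith

/-- exponential moment of the number of collisions. -/
private theorem LOne_moment {p : ℕ} [NeZero p] (t : ℝ) (ht : 0 ≤ t) (K : ℕ) :
    ∀ k : ℕ, k ≤ K → ∑ m : Fin k → ZMod p, Real.exp (t * ((k : ℝ) - (univ.image m).card)) ≤
      ((p : ℝ) + K * (Real.exp t - 1)) ^ k := by
  intro k
  induction k with
  | zero => intro _; simp
  | succ k ih =>
    intro hk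
    have hE : 0 ≤ Real.exp t - 1 := by
      have := Real.one_le_exp ht
      linarith
    have h1 := ih (by omega)
    have h2 : ∑ m : Fin (k + 1) → ZMod p,
        Real.exp (t * (((k + 1 : ℕ) : ℝ) - (univ.image m).card)) =
        ∑ m : Fin k → ZMod p, ∑ a : ZMod p,
          Real.exp (t * ((k : ℝ) - (univ.image m).card)) *
            (if a ∈ univ.image m then Real.exp t else 1) := by
      rw [Finset.sum_comm, ← Finset.sum_product', Finset.univ_product_univ]
      refine (Fintype.sum_equiv (Fin.consEquiv (fun _ => ZMod p)) _ _ fun x => ?_).symm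
      have h3 : univ.image ((Fin.consEquiv (fun _ => ZMod p)) x : Fin (k + 1) → ZMod p) =
          insert x.1 (univ.image x.2) := by
        ext c
        simp only [Finset.mem_image, Finset.mem_univ, true_and, Finset.mem_insert,
          Fin.exists_fin_succ, Fin.consEquiv_apply, Fin.cons_zero, Fin.cons_succ]
        constructor
        · rintro (h | h)
          · exact Or.inl h.symm
          · exact Or.inr h
        · rintro (h | h)
          · exact Or.inl h.symm
          · exact Or.inr h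
      rw [h3]
      by_cases hx : x.1 ∈ univ.image x.2
      · rw [if_pos hx, Finset.insert_eq_of_mem hx, ← Real.exp_add]
        congr 1
        push_cast
        ring
      · rw [if_neg hx, Finset.card_insert_of_notMem hx, mul_one]
        congr 1
        push_cast
        ring
    rw [h2]
    have h4 : ∀ m : Fin k → ZMod p, ∑ a : ZMod p,
          Real.exp (t * ((k : ℝ) - (univ.image m).card)) *
            (if a ∈ univ.image m then Real.exp t else 1) ≤
        Real.exp (t * ((k : ℝ) - (univ.image m).card)) * ((p : ℝ) + K * (Real.exp t - 1)) := by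
      intro m
      rw [← Finset.mul_sum]
      refine mul_le_mul_of_nonneg_left ?_ (Real.exp_pos _).le
      have h5 : ∀ a : ZMod p, (if a ∈ univ.image m then Real.exp t else 1) =
          1 + (if a ∈ univ.image m then (Real.exp t - 1) else 0) := by
        intro a
        split_ifs <;> ring
      rw [Finset.sum_congr rfl (fun a _ => h5 a), Finset.sum_add_distrib, Finset.sum_const,
        Finset.card_univ, ZMod.card, nsmul_eq_mul, mul_one, Finset.sum_ite_mem,
        Finset.univ_inter, Finset.sum_const, nsmul_eq_mul]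
      have h6 : (univ.image m).card ≤ K := by
        have := Finset.card_image_le (s := (univ : Finset (Fin k))) (f := m)
        rw [Finset.card_univ, Fintype.card_fin] at this
        omega
      have h7 : ((univ.image m).card : ℝ) ≤ K := by exact_mod_cast h6
      have := mul_le_mul_of_nonneg_right h7 hE
      linarith
    refine (Finset.sum_le_sum fun m _ => h4 m).trans ?_
    rw [← Finset.sum_mul, pow_succ]
    refine mul_le_mul_of_nonneg_right h1 ?_
    positivity

/-- With `s` the number of nonzero `m j` and `d` the number of distinct nonzero values, the inner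
quotient is `((p-1)/(p-2))^s (1 - d/(p-1)) ≤ exp (x/(p-1) + k/((p-1)(p-2)))`, where `x = s - d` is at
most the number of `j` with `m j = m i` for some `i < j`. Induction on `k`: the mean of
`exp (t x)` over all `m` is at most `(1 + (k/p) (exp t - 1))^k`, with `t = r/(p-1) ≤ 1`,
`exp t - 1 ≤ 2 t`. -/
theorem vp_big {p : ℕ} [NeZero p] (hp : 3 ≤ p) (k r : ℕ) (hr : r + 1 ≤ p) :
    (∑ m : Fin k → ZMod p, ((∑ b ∈ univ.filter (fun b : ZMod p => b ≠ 0), ∏ j, wp p (m j) b) /
      ((p : ℝ) - 1)) ^ r) / (p : ℝ) ^ k ≤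
      Real.exp (3 * (k : ℝ) ^ 2 * r / (((p : ℝ) - 1) * ((p : ℝ) - 2))) := by
  obtain ⟨h2, h1, h0⟩ := LOne_pos hp
  set t : ℝ := (r : ℝ) / ((p : ℝ) - 1) with ht
  have ht0 : 0 ≤ t := by positivity
  have ht1 : t ≤ 1 := by
    rw [ht, div_le_one h1]
    have : (r : ℝ) + 1 ≤ p := by exact_mod_cast hr
    linarith
  set c : ℝ := (r : ℝ) * ((k : ℝ) / (((p : ℝ) - 1) * ((p : ℝ) - 2))) with hc
  -- pointwise
  have e1 : ∀ m : Fin k → ZMod p,
      ((∑ b ∈ univ.filter (fun b : ZMod p => b ≠ 0), ∏ j, wp p (m j) b) /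
        ((p : ℝ) - 1)) ^ r ≤ Real.exp c * Real.exp (t * ((k : ℝ) - (univ.image m).card)) := by
    intro m
    have h3 : 0 ≤ (∑ b ∈ univ.filter (fun b : ZMod p => b ≠ 0), ∏ j, wp p (m j) b) /
        ((p : ℝ) - 1) := by
      refine div_nonneg (Finset.sum_nonneg fun b _ => Finset.prod_nonneg fun j _ =>
        wp_nonneg hp _ _) h1.le
    refine (pow_le_pow_left₀ h3 (LOne_le hp m) r).trans (le_of_eq ?_)
    rw [← Real.exp_nat_mul, ← Real.exp_add]
    congr 1
    rw [hc, ht]
    ring
  have hE : Real.exp t - 1 ≤ 2 * t := by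
    have := Real.abs_exp_sub_one_le (x := t) (by rwa [abs_of_nonneg ht0])
    rw [abs_of_nonneg ht0] at this
    exact (le_abs_self _).trans this
  have hE0 : 0 ≤ Real.exp t - 1 := by
    have := Real.one_le_exp ht0
    linarith
  have e2 : ∑ m : Fin k → ZMod p, ((∑ b ∈ univ.filter (fun b : ZMod p => b ≠ 0),
      ∏ j, wp p (m j) b) / ((p : ℝ) - 1)) ^ r ≤
      Real.exp c * ((p : ℝ) + k * (Real.exp t - 1)) ^ k := by
    refine (Finset.sum_le_sum fun m _ => e1 m).trans ?_
    rw [← Finset.mul_sum]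
    exact mul_le_mul_of_nonneg_left (LOne_moment t ht0 k k le_rfl) (Real.exp_pos _).le
  have e3 : ((p : ℝ) + k * (Real.exp t - 1)) ≤ p * Real.exp (2 * k * t / p) := by
    have h3 := Real.add_one_le_exp (2 * k * t / (p : ℝ))
    calc (p : ℝ) + k * (Real.exp t - 1) ≤ (p : ℝ) + k * (2 * t) := by gcongr
      _ = p * (2 * k * t / p + 1) := by
          field_simp
          ring
      _ ≤ p * Real.exp (2 * k * t / p) := by gcongr
  have e4 : ((p : ℝ) + k * (Real.exp t - 1)) ^ k ≤ (p : ℝ) ^ k * Real.exp (k * (2 * k * t / p)) := by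
    refine (pow_le_pow_left₀ (by positivity) e3 k).trans (le_of_eq ?_)
    rw [mul_pow, ← Real.exp_nat_mul]
  rw [div_le_iff₀ (pow_pos h0 k)]
  calc _ ≤ Real.exp c * ((p : ℝ) + k * (Real.exp t - 1)) ^ k := e2
    _ ≤ Real.exp c * ((p : ℝ) ^ k * Real.exp (k * (2 * k * t / p))) := by gcongr
    _ = Real.exp (c + k * (2 * k * t / p)) * (p : ℝ) ^ k := by
        rw [Real.exp_add]
        ring
    _ ≤ Real.exp (3 * (k : ℝ) ^ 2 * r / (((p : ℝ) - 1) * ((p : ℝ) - 2))) * (p : ℝ) ^ k := by
        refine mul_le_mul_of_nonneg_right (Real.exp_le_exp.mpr ?_) (by positivity)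
        have h5 : c ≤ (k : ℝ) ^ 2 * r / (((p : ℝ) - 1) * ((p : ℝ) - 2)) := by
          have h6 : (k : ℝ) ≤ (k : ℝ) ^ 2 := by
            have : k ≤ k ^ 2 := Nat.le_self_pow (by norm_num) k
            exact_mod_cast this
          have h7 : c = (k : ℝ) * r / (((p : ℝ) - 1) * ((p : ℝ) - 2)) := by
            rw [hc]
            ring
          rw [h7]
          gcongr
        have h8 : (k : ℝ) * (2 * k * t / p) ≤
            2 * ((k : ℝ) ^ 2 * r / (((p : ℝ) - 1) * ((p : ℝ) - 2))) := by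
          have h9 : (k : ℝ) * (2 * k * t / p) =
              2 * ((k : ℝ) ^ 2 * r / (((p : ℝ) - 1) * (p : ℝ))) := by
            rw [ht]
            field_simp
          rw [h9]
          gcongr
          linarith
        have h10 : 3 * (k : ℝ) ^ 2 * r / (((p : ℝ) - 1) * ((p : ℝ) - 2)) =
            (k : ℝ) ^ 2 * r / (((p : ℝ) - 1) * ((p : ℝ) - 2)) +
              2 * ((k : ℝ) ^ 2 * r / (((p : ℝ) - 1) * ((p : ℝ) - 2))) := by
          ring
        rw [h10]
        linarith

end Pool.Agent.Lib.MP_629a14_nt.Rob
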