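import Pool.Agent.Lib.MP_629a14_nt.Rob.Blocks
import Pool.Agent.Lib.MP_629a14_nt.Rob.Bil

/-! Large denominators: the bilinear sum. -/

set_option autoImplicit false

namespace Pool.Agent.Lib.MP_629a14_nt.Rob

open Finset Pool.Agent.Lib.MP_629a14_nt

private theorem largeB_reindex (z J i j Y : ℕ) (f g : ℕ → ℂ) (α : ℝ) :
    ∑ p ∈ bl z J i j, ∑ m ∈ Icc 1 Y, f p * g m * ee ((p : ℝ) * m * α) =
      ∑ p ∈ Icc 1 (2 * Xs z i), ∑ m ∈ Icc 1 Y,
        (if p ∈ bl z J i j then f p else 0) * g m * ee ((p : ℝ) * m * α) := by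
  have hsub : bl z J i j ⊆ Icc 1 (2 * Xs z i) := by
    intro p hp
    unfold bl at hp
    rw [mem_filter, mem_Ico] at hp
    rw [mem_Icc]
    exact ⟨hp.2.pos, (lt_of_lt_of_le hp.1.2 (min_le_right _ _)).le⟩
  rw [← sum_subset hsub]
  · refine sum_congr rfl fun p hp => sum_congr rfl fun m _ => ?_
    rw [if_pos hp]
  · intro p _ hp
    refine sum_eq_zero fun m _ => ?_
    rw [if_neg hp, zero_mul, zero_mul]

/-- the real inequality behind one block -/
private theorem largeB_real {C K N X Y z q L l : ℝ} (hC : 0 < C) (hK : K = 24 * C + 1)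
    (hN : 0 < N) (hX : 0 ≤ X) (hY : 0 ≤ Y) (hL : 1 ≤ L) (hq : 0 < q) (hXY : X * Y ≤ 2 * N)
    (hz : L ^ 30 / 2 ≤ z) (hzX : z * X ≤ 2 * N) (hzY : z * Y ≤ N)
    (hq1 : L ^ 60 ≤ q) (hq2 : q ≤ N / L ^ 60) (hl0 : 0 ≤ l) (hl : l ≤ L) :
    C * X * Y * (Y / q + 1) * (X + q * (1 + l)) ≤ (K * N / L ^ 14) ^ 2 := by
  have hL0 : 0 < L := by linarith
  have hA : 1 ≤ L ^ 30 := one_le_pow₀ hL
  have hA0 : 0 < L ^ 30 := by positivity
  have hz0 : 0 < z := lt_of_lt_of_le (by positivity) hz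
  have h60 : L ^ 60 = L ^ 30 * L ^ 30 := by ring
  have h60pos : 0 < L ^ 60 := by positivity
  have hXle : X ≤ 4 * N / L ^ 30 := by
    rw [le_div_iff₀ hA0]
    have := mul_le_mul_of_nonneg_right hz hX
    nlinarith
  have hYle : Y ≤ 2 * N / L ^ 30 := by
    rw [le_div_iff₀ hA0]
    have := mul_le_mul_of_nonneg_right hz hY
    nlinarith
  have hinv : 1 / L ^ 60 ≤ 1 / L ^ 30 := by
    apply one_div_le_one_div_of_le hA0
    rw [h60]
    nlinarith
  have t1 : X * Y / q ≤ 2 * N * (1 / L ^ 30) := by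
    calc X * Y / q ≤ 2 * N / L ^ 60 := div_le_div₀ (by positivity) hXY h60pos hq1
      _ = 2 * N * (1 / L ^ 60) := by ring
      _ ≤ 2 * N * (1 / L ^ 30) := mul_le_mul_of_nonneg_left hinv (by positivity)
  have t2 : Y * (1 + l) ≤ 4 * N * L * (1 / L ^ 30) := by
    calc Y * (1 + l) ≤ (2 * N / L ^ 30) * (2 * L) :=
          mul_le_mul hYle (by linarith) (by linarith) (by positivity)
      _ = 4 * N * L * (1 / L ^ 30) := by ring
  have t3 : X ≤ 4 * N * (1 / L ^ 30) := by
    calc X ≤ 4 * N / L ^ 30 := hXle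
      _ = 4 * N * (1 / L ^ 30) := by ring
  have t4 : q * (1 + l) ≤ 2 * N * L * (1 / L ^ 30) := by
    calc q * (1 + l) ≤ (N / L ^ 60) * (2 * L) :=
          mul_le_mul hq2 (by linarith) (by linarith) (by positivity)
      _ = 2 * N * L * (1 / L ^ 60) := by ring
      _ ≤ 2 * N * L * (1 / L ^ 30) := mul_le_mul_of_nonneg_left hinv (by positivity)
  have hS : (Y / q + 1) * (X + q * (1 + l)) ≤ 12 * N * L * (1 / L ^ 30) := by
    have e : (Y / q + 1) * (X + q * (1 + l)) = X * Y / q + Y * (1 + l) + X + q * (1 + l) := by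
      field_simp
      ring
    rw [e]
    have hp : 0 ≤ N * (1 / L ^ 30) := by positivity
    have hp2 : N * (1 / L ^ 30) ≤ N * (1 / L ^ 30) * L := le_mul_of_one_le_right hp hL
    nlinarith
  have hXY0 : 0 ≤ X * Y := mul_nonneg hX hY
  have hS0 : 0 ≤ 12 * N * L * (1 / L ^ 30) := by positivity
  calc C * X * Y * (Y / q + 1) * (X + q * (1 + l))
      = C * ((X * Y) * ((Y / q + 1) * (X + q * (1 + l)))) := by ring
    _ ≤ C * ((X * Y) * (12 * N * L * (1 / L ^ 30))) :=
        mul_le_mul_of_nonneg_left (mul_le_mul_of_nonneg_left hS hXY0) hC.le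
    _ ≤ C * ((2 * N) * (12 * N * L * (1 / L ^ 30))) :=
        mul_le_mul_of_nonneg_left (mul_le_mul_of_nonneg_right hXY hS0) hC.le
    _ = 24 * C * (N ^ 2 / L ^ 28) * (1 / L) := by
        field_simp
        ring
    _ ≤ 24 * C * (N ^ 2 / L ^ 28) * 1 := by
        apply mul_le_mul_of_nonneg_left _ (by positivity)
        rw [div_le_one hL0]
        exact hL
    _ ≤ K ^ 2 * (N ^ 2 / L ^ 28) := by
        rw [mul_one]
        apply mul_le_mul_of_nonneg_right _ (by positivity)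
        rw [hK]
        nlinarith
    _ = (K * N / L ^ 14) ^ 2 := by
        rw [div_pow, mul_pow]
        ring

/-- `z = ⌊(log N)^30⌋`, `J = ⌈(log N)^5⌉`, `blocks` (error `C N (log N)^(-4)`), and `bil` on each of the
at most `2 (log N)^6` blocks (with `X = 2 Xs`, `Y = N / Ps`, `z ≤ Y`): each is at most
`C N (log N)^(-14)`. -/
theorem largeB : ∃ N₀ : ℕ, ∀ N : ℕ, N₀ ≤ N → ∀ (q : ℕ) (a : ℤ) (α : ℝ), 1 ≤ q →
    IsCoprime a (q : ℤ) → |α - a / q| ≤ 1 / (q : ℝ) ^ 2 → Real.log N ^ 60 ≤ q →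
      (q : ℝ) ≤ N / Real.log N ^ 60 → ∀ f g : ℕ → ℂ, (∀ p, ‖f p‖ ≤ 1) →
        Adm ⌊Real.log N ^ 30⌋₊ g →
        ‖GS N ⌊Real.log N ^ 30⌋₊ f g α‖ ≤ N / (4 * Real.log N ^ 2) := by
  obtain ⟨C1, hC1, hb⟩ := blocks
  obtain ⟨C2, hC2, hbil⟩ := bil
  refine ⟨⌈Real.exp (4 + 32 * C1 + 48 * (24 * C2 + 1))⌉₊, ?_⟩
  intro N hN q a α hq hcop hα hq1 hq2 f g hf hg
  have hNexp : Real.exp (4 + 32 * C1 + 48 * (24 * C2 + 1)) ≤ N :=
    (Nat.le_ceil _).trans (by exact_mod_cast hN)
  have hNpos : (0 : ℝ) < N := lt_of_lt_of_le (Real.exp_pos _) hNexp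
  have hLM : 4 + 32 * C1 + 48 * (24 * C2 + 1) ≤ Real.log N := by
    rw [Real.le_log_iff_exp_le hNpos]
    exact hNexp
  set L := Real.log N with hLdef
  set K := 24 * C2 + 1 with hKdef
  have hK1 : 1 ≤ K := by rw [hKdef]; linarith
  have hL4 : 4 ≤ L := by linarith
  have hL1 : 1 ≤ L := by linarith
  have hL0 : 0 < L := by linarith
  have hp5 : L ≤ L ^ 5 := le_self_pow₀ hL1 (by norm_num)
  have hp30 : L ≤ L ^ 30 := le_self_pow₀ hL1 (by norm_num)
  set z := ⌊L ^ 30⌋₊ with hzdef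
  set J := ⌈L ^ 5⌉₊ with hJdef
  have hz4 : 4 ≤ z := Nat.le_floor (by push_cast; linarith)
  have hzle : (z : ℝ) ≤ L ^ 30 := Nat.floor_le (by positivity)
  have hzge : L ^ 30 / 2 ≤ z := by
    have := Nat.lt_floor_add_one (L ^ 30)
    rw [← hzdef] at this
    linarith
  have hJge : L ^ 5 ≤ J := Nat.le_ceil _
  have hJle : (J : ℝ) ≤ 2 * L ^ 5 := by
    have := Nat.ceil_lt_add_one (show 0 ≤ L ^ 5 by positivity)
    rw [← hJdef] at this
    linarith
  have hJ2 : 2 ≤ J := by
    have : (2 : ℝ) ≤ J := by linarith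
    exact_mod_cast this
  have hJz : J ≤ z := by
    apply Nat.le_floor
    have h1 : L ^ 30 = L ^ 5 * L ^ 25 := by ring
    have h2 : 2 ≤ L ^ 25 := by
      have : L ≤ L ^ 25 := le_self_pow₀ hL1 (by norm_num)
      linarith
    have h3 : 0 < L ^ 5 := by positivity
    nlinarith
  have hq0 : (0 : ℝ) < q := by exact_mod_cast hq
  have h60 : 1 ≤ L ^ 60 := one_le_pow₀ hL1
  have hqN : (q : ℝ) ≤ N := by
    refine hq2.trans ?_
    exact div_le_self hNpos.le h60
  have hzN : z ≤ N := by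
    have h1 : L ^ 30 ≤ L ^ 60 := pow_le_pow_right₀ hL1 (by norm_num)
    have : (z : ℝ) ≤ N := by linarith
    exact_mod_cast this
  have hl0 : 0 ≤ Real.log q := Real.log_nonneg (by exact_mod_cast hq)
  have hl1 : Real.log q ≤ L := Real.log_le_log hq0 hqN
  -- one block
  have hblock : ∀ i j : ℕ, ‖∑ p ∈ bl z J i j, ∑ m ∈ Icc 1 (N / Ps z J i j),
      f p * g m * ee ((p : ℝ) * m * α)‖ ≤ K * N / L ^ 14 := by
    intro i j
    have hB0 : 0 ≤ K * N / L ^ 14 := by positivity
    rcases lt_or_ge (N / Ps z J i j) z with hY | hY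
    · have h0 : ∑ p ∈ bl z J i j, ∑ m ∈ Icc 1 (N / Ps z J i j),
          f p * g m * ee ((p : ℝ) * m * α) = 0 := by
        refine sum_eq_zero fun p _ => sum_eq_zero fun m hm => ?_
        have hg0 : g m = 0 := by
          by_contra hne
          have h1 := hg.le hne
          rw [mem_Icc] at hm
          omega
        rw [hg0, mul_zero, zero_mul]
      rw [h0, norm_zero]
      exact hB0
    · have hXz : z ≤ Xs z i := by
        unfold Xs
        exact Nat.le_mul_of_pos_left _ (by positivity)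
      have hPX : Xs z i ≤ Ps z J i j := by
        unfold Ps
        omega
      have hP0 : 0 < Ps z J i j := by omega
      have hPY : Ps z J i j * (N / Ps z J i j) ≤ N := Nat.mul_div_le _ _
      have n1 : Xs z i * (N / Ps z J i j) ≤ N := (Nat.mul_le_mul_right _ hPX).trans hPY
      have n2 : z * (N / Ps z J i j) ≤ N := (Nat.mul_le_mul_right _ hXz).trans n1
      have n3 : z * Xs z i ≤ N := by
        rw [mul_comm]
        exact (Nat.mul_le_mul_left _ hY).trans n1
      have r1 : ((2 * Xs z i : ℕ) : ℝ) * ((N / Ps z J i j : ℕ) : ℝ) ≤ 2 * N := by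
        have h : 2 * Xs z i * (N / Ps z J i j) ≤ 2 * N := by
          rw [mul_assoc]
          exact Nat.mul_le_mul_left 2 n1
        exact_mod_cast h
      have r2 : (z : ℝ) * ((2 * Xs z i : ℕ) : ℝ) ≤ 2 * N := by
        have h : z * (2 * Xs z i) ≤ 2 * N := by
          calc z * (2 * Xs z i) = 2 * (z * Xs z i) := by ring
            _ ≤ 2 * N := Nat.mul_le_mul_left 2 n3
        exact_mod_cast h
      have r3 : (z : ℝ) * ((N / Ps z J i j : ℕ) : ℝ) ≤ N := by exact_mod_cast n2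
      have h1 := hbil q a α hq hcop hα (2 * Xs z i) (N / Ps z J i j) (by omega) (by omega)
        (fun p => if p ∈ bl z J i j then f p else 0) g
        (fun p => by
          split_ifs
          · exact hf p
          · rw [norm_zero]
            exact zero_le_one)
        (fun m => (hg m).1)
      rw [largeB_reindex]
      rw [← sq_le_sq₀ (norm_nonneg _) hB0]
      refine h1.trans ?_
      exact largeB_real hC2 hKdef hNpos (Nat.cast_nonneg _) (Nat.cast_nonneg _) hL1 hq0 r1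
        hzge r2 r3 hq1 hq2 hl0 hl1
  -- the number of blocks
  have hlog2 : ((Nat.log 2 N : ℕ) : ℝ) ≤ 2 * L := by
    have h1 : (2 : ℕ) ^ Nat.log 2 N ≤ N := Nat.pow_log_le_self 2 (by
      rintro rfl
      simp at hNpos)
    have h2 : ((2 : ℝ)) ^ Nat.log 2 N ≤ N := by exact_mod_cast h1
    have h3 := Real.log_le_log (by positivity) h2
    rw [Real.log_pow] at h3
    have h4 : (1 / 2 : ℝ) ≤ Real.log 2 := by
      have := Real.log_two_gt_d9
      linarith
    have h5 : (0 : ℝ) ≤ (Nat.log 2 N : ℕ) := Nat.cast_nonneg _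
    nlinarith
  have hBS : ‖BS N z J f g α‖ ≤ N / (8 * L ^ 2) := by
    have h1 : ‖BS N z J f g α‖ ≤
        ∑ i ∈ range (Nat.log 2 N + 1), ∑ j ∈ range J, K * N / L ^ 14 := by
      unfold BS
      refine (norm_sum_le _ _).trans (sum_le_sum fun i _ => ?_)
      exact (norm_sum_le _ _).trans (sum_le_sum fun j _ => hblock i j)
    refine h1.trans ?_
    rw [sum_const, sum_const, card_range, card_range, nsmul_eq_mul, nsmul_eq_mul]
    push_cast
    have h2 : ((Nat.log 2 N : ℕ) : ℝ) + 1 ≤ 3 * L := by linarith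
    have h3 : (((Nat.log 2 N : ℕ) : ℝ) + 1) * (J * (K * N / L ^ 14)) ≤
        (3 * L) * ((2 * L ^ 5) * (K * N / L ^ 14)) := by
      apply mul_le_mul h2 _ (by positivity) (by positivity)
      exact mul_le_mul_of_nonneg_right hJle (by positivity)
    refine h3.trans ?_
    have h4 : (3 * L) * ((2 * L ^ 5) * (K * N / L ^ 14)) = N / (8 * L ^ 2) * (48 * K / L ^ 6) := by
      field_simp
      ring
    rw [h4]
    apply mul_le_of_le_one_right (by positivity)
    rw [div_le_one (by positivity)]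
    have h6 : L ≤ L ^ 6 := le_self_pow₀ hL1 (by norm_num)
    linarith
  have hGB : ‖GS N z f g α - BS N z J f g α‖ ≤ N / (8 * L ^ 2) := by
    refine (hb N z J hz4 hJ2 hJz hzN f g α hf hg).trans ?_
    have h1 : (N : ℝ) * (1 + L) / J ≤ 2 * N / L ^ 4 := by
      calc (N : ℝ) * (1 + L) / J ≤ (N * (2 * L)) / L ^ 5 :=
            div_le_div₀ (by positivity) (mul_le_mul_of_nonneg_left (by linarith) hNpos.le)
              (by positivity) hJge
        _ = 2 * N / L ^ 4 := by
            field_simp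
    have h2 : (N : ℝ) / z ≤ 2 * N / L ^ 4 := by
      calc (N : ℝ) / z ≤ N / (L ^ 30 / 2) :=
            div_le_div_of_nonneg_left hNpos.le (by positivity) hzge
        _ = 2 * N / L ^ 30 := by
            field_simp
        _ ≤ 2 * N / L ^ 4 := by
            apply div_le_div_of_nonneg_left (by positivity) (by positivity)
            exact pow_le_pow_right₀ hL1 (by norm_num)
    have h3 : C1 * ((N : ℝ) * (1 + L) / J + N / z) ≤ C1 * (2 * N / L ^ 4 + 2 * N / L ^ 4) :=
      mul_le_mul_of_nonneg_left (by linarith) hC1.le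
    refine h3.trans ?_
    have h4 : C1 * (2 * N / L ^ 4 + 2 * N / L ^ 4) = N / (8 * L ^ 2) * (32 * C1 / L ^ 2) := by
      field_simp
      ring
    rw [h4]
    apply mul_le_of_le_one_right (by positivity)
    rw [div_le_one (by positivity)]
    have h6 : L ≤ L ^ 2 := le_self_pow₀ hL1 (by norm_num)
    linarith
  have hfin : ‖GS N z f g α‖ ≤ ‖GS N z f g α - BS N z J f g α‖ + ‖BS N z J f g α‖ := by
    have := norm_add_le (GS N z f g α - BS N z J f g α) (BS N z J f g α)
    rwa [sub_add_cancel] at this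
  have hsum : (N : ℝ) / (8 * L ^ 2) + N / (8 * L ^ 2) = N / (4 * L ^ 2) := by
    field_simp
    ring
  linarith

end Pool.Agent.Lib.MP_629a14_nt.Rob
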