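import Pool.Agent.Lib.MP_629a14_nt.Rob.Mert

/-! The first theorem on sums over primes. -/

set_option autoImplicit false

namespace Pool.Agent.Lib.MP_629a14_nt.Rob

open Finset

private theorem one_log_fact (n : ℕ) (hn : 1 ≤ n) :
    (n : ℝ) * Real.log n - n ≤ ∑ k ∈ Ioc 0 n, Real.log k := by
  have hn0 : (0 : ℝ) < n := by exact_mod_cast hn
  have h1 : ∀ m : ℕ, ∑ k ∈ Ioc 0 m, Real.log k = Real.log (m.factorial : ℝ) := by
    intro m
    induction m with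
    | zero => simp
    | succ m ih =>
      rw [Finset.sum_Ioc_succ_top (Nat.zero_le m), ih, Nat.factorial_succ, Nat.cast_mul,
        Real.log_mul (by exact_mod_cast (Nat.succ_ne_zero m))
          (by exact_mod_cast m.factorial_ne_zero), add_comm]
  rw [h1]
  have h2 := Real.pow_div_factorial_le_exp (n : ℝ) hn0.le n
  have hf : (0 : ℝ) < n.factorial := by exact_mod_cast n.factorial_pos
  rw [div_le_iff₀ hf] at h2
  have h3 := Real.log_le_log (pow_pos hn0 n) h2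
  rw [Real.log_pow, Real.log_mul (Real.exp_pos _).ne' hf.ne', Real.log_exp] at h3
  linarith

open ArithmeticFunction in
open scoped ArithmeticFunction.zeta in
private theorem one_lambda (N : ℕ) (hN : 1 ≤ N) :
    Real.log N - 1 ≤ ∑ n ∈ Ioc 0 N, vonMangoldt n / n := by
  have hN0 : (0 : ℝ) < N := by exact_mod_cast hN
  have h1 : ∑ n ∈ Ioc 0 N, Real.log n = ∑ n ∈ Ioc 0 N, vonMangoldt n * ((N / n : ℕ) : ℝ) := by
    rw [← sum_Ioc_mul_zeta_eq_sum]
    refine Finset.sum_congr rfl fun n _ => ?_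
    rw [vonMangoldt_mul_zeta, log_apply]
  have h2 := one_log_fact N hN
  rw [h1] at h2
  have h3 : ∑ n ∈ Ioc 0 N, vonMangoldt n * ((N / n : ℕ) : ℝ) ≤
      N * ∑ n ∈ Ioc 0 N, vonMangoldt n / n := by
    rw [Finset.mul_sum]
    refine Finset.sum_le_sum fun n hn => ?_
    have h4 : ((N / n : ℕ) : ℝ) ≤ (N : ℝ) / n := Nat.cast_div_le
    calc vonMangoldt n * ((N / n : ℕ) : ℝ) ≤ vonMangoldt n * ((N : ℝ) / n) :=
          mul_le_mul_of_nonneg_left h4 vonMangoldt_nonneg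
      _ = N * (vonMangoldt n / n) := by ring
  have h4 : (N : ℝ) * (Real.log N - 1) ≤ N * ∑ n ∈ Ioc 0 N, vonMangoldt n / n := by linarith
  exact le_of_mul_le_mul_left h4 hN0

private theorem one_geom (p : ℕ) (hp : p.Prime) (N : ℕ) :
    ∑ k ∈ Icc 2 N, Real.log p / (p : ℝ) ^ k ≤ 4 * (1 / (p : ℝ) ^ (3 / 2 : ℝ)) := by
  have hp2 : (2 : ℝ) ≤ p := by exact_mod_cast hp.two_le
  have hp0 : (0 : ℝ) < p := by linarith
  have hlog : Real.log p ≤ 2 * Real.sqrt p := by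
    have h1 : Real.log (Real.sqrt p) ≤ Real.sqrt p - 1 :=
      Real.log_le_sub_one_of_pos (Real.sqrt_pos.mpr hp0)
    rw [Real.log_sqrt hp0.le] at h1
    linarith
  have hlog0 : 0 ≤ Real.log p := Real.log_nonneg (by linarith)
  have hgeo : ∑ k ∈ Icc 2 N, ((p : ℝ)⁻¹) ^ k ≤ 2 * ((p : ℝ)⁻¹) ^ 2 := by
    have hr0 : 0 ≤ (p : ℝ)⁻¹ := inv_nonneg.mpr hp0.le
    have hr1 : (p : ℝ)⁻¹ ≤ 1 / 2 := by
      rw [inv_eq_one_div]
      exact one_div_le_one_div_of_le (by norm_num) hp2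
    have h1 : ∑ k ∈ Icc 2 N, ((p : ℝ)⁻¹) ^ k ≤ ∑ k ∈ range N, ((p : ℝ)⁻¹) ^ (k + 2) := by
      rw [← Finset.sum_image (f := fun k => ((p : ℝ)⁻¹) ^ k) (s := range N) (g := fun k => k + 2)
        (fun a _ b _ h => by simpa using h)]
      apply Finset.sum_le_sum_of_subset_of_nonneg
      · intro k hk
        rw [mem_Icc] at hk
        rw [mem_image]
        exact ⟨k - 2, by rw [mem_range]; omega, by omega⟩
      · intro k _ _
        exact pow_nonneg hr0 k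
    refine h1.trans ?_
    simp only [pow_add]
    rw [← Finset.sum_mul]
    have h2 : ∑ k ∈ range N, ((p : ℝ)⁻¹) ^ k ≤ 2 := by
      calc ∑ k ∈ range N, ((p : ℝ)⁻¹) ^ k ≤ ∑ k ∈ range N, (1 / 2 : ℝ) ^ k :=
            Finset.sum_le_sum fun k _ => pow_le_pow_left₀ hr0 hr1 k
        _ ≤ 2 := sum_geometric_two_le N
    exact mul_le_mul_of_nonneg_right h2 (by positivity)
  have h3 : ∑ k ∈ Icc 2 N, Real.log p / (p : ℝ) ^ k =
      Real.log p * ∑ k ∈ Icc 2 N, ((p : ℝ)⁻¹) ^ k := by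
    rw [Finset.mul_sum]
    refine Finset.sum_congr rfl fun k _ => ?_
    rw [inv_pow, div_eq_mul_inv]
  rw [h3]
  have h4 : Real.sqrt p * ((p : ℝ)⁻¹) ^ 2 = 1 / (p : ℝ) ^ (3 / 2 : ℝ) := by
    have h5 : 1 / (p : ℝ) ^ (3 / 2 : ℝ) = (p : ℝ) ^ (-(3 / 2) : ℝ) := by
      rw [Real.rpow_neg hp0.le, one_div]
    rw [h5, Real.sqrt_eq_rpow, ← Real.rpow_natCast, ← Real.rpow_neg_one, ← Real.rpow_mul hp0.le,
      ← Real.rpow_add hp0]
    congr 1
    norm_num
  calc Real.log p * ∑ k ∈ Icc 2 N, ((p : ℝ)⁻¹) ^ k ≤ (2 * Real.sqrt p) * (2 * ((p : ℝ)⁻¹) ^ 2) :=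
        mul_le_mul hlog hgeo (Finset.sum_nonneg fun k _ => by positivity) (by positivity)
    _ = 4 * (Real.sqrt p * ((p : ℝ)⁻¹) ^ 2) := by ring
    _ = 4 * (1 / (p : ℝ) ^ (3 / 2 : ℝ)) := by rw [h4]

open ArithmeticFunction in
private theorem one_powers : ∃ C : ℝ, ∀ x : ℕ, 1 ≤ x →
    ∑ n ∈ Ioc 0 x, vonMangoldt n / n ≤
      (∑ p ∈ (Icc 1 x).filter Nat.Prime, Real.log p / p) + C := by
  have hsum : Summable (fun n : ℕ => 1 / (n : ℝ) ^ (3 / 2 : ℝ)) :=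
    Real.summable_one_div_nat_rpow.mpr (by norm_num)
  refine ⟨4 * ∑' n : ℕ, 1 / (n : ℝ) ^ (3 / 2 : ℝ), fun x hx => ?_⟩
  have hx0 : (0 : ℝ) ≤ x := Nat.cast_nonneg x
  set N : ℕ := ⌊Real.log x / Real.log 2⌋₊ + 1 with hN
  have h1 := Chebyshev.sum_PrimePow_eq_sum_sum' (fun n => vonMangoldt n / (n : ℝ)) hx0
    (N := N) (by omega)
  rw [Nat.floor_natCast] at h1
  have h2 : ∑ n ∈ Ioc 0 x with IsPrimePow n, vonMangoldt n / (n : ℝ) =
      ∑ n ∈ Ioc 0 x, vonMangoldt n / (n : ℝ) := by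
    rw [Finset.sum_filter]
    refine Finset.sum_congr rfl fun n _ => ?_
    split_ifs with h
    · rfl
    · rw [vonMangoldt_apply, if_neg h, zero_div]
  rw [← h2, h1]
  have h3 : Icc 1 N = insert 1 (Icc 2 N) := by
    ext k
    rw [mem_insert, mem_Icc, mem_Icc]
    omega
  rw [h3, Finset.sum_insert (by simp)]
  have hval : ∀ (p k : ℕ), p.Prime → k ≠ 0 →
      vonMangoldt (p ^ k) / ((p ^ k : ℕ) : ℝ) = Real.log p / (p : ℝ) ^ k := by
    intro p k hp hk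
    rw [vonMangoldt_apply_pow hk, vonMangoldt_apply_prime hp, Nat.cast_pow]
  apply add_le_add
  · apply le_of_eq
    have h4 : ⌊(x : ℝ) ^ ((1 : ℝ) / ((1 : ℕ) : ℝ))⌋₊ = x := by
      rw [Nat.cast_one, div_one, Real.rpow_one, Nat.floor_natCast]
    rw [h4]
    have h5 : Ioc 0 x = Icc 1 x := rfl
    rw [h5]
    refine Finset.sum_congr rfl fun p hp => ?_
    rw [mem_filter] at hp
    rw [hval p 1 hp.2 one_ne_zero, pow_one]
  · have h4 : ∀ k ∈ Icc 2 N, (∑ p ∈ Ioc 0 ⌊(x : ℝ) ^ ((1 : ℝ) / (k : ℝ))⌋₊ with p.Prime,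
        vonMangoldt (p ^ k) / ((p ^ k : ℕ) : ℝ)) ≤
        ∑ p ∈ (Icc 1 x).filter Nat.Prime, Real.log p / (p : ℝ) ^ k := by
      intro k hk
      rw [mem_Icc] at hk
      have h5 : ∀ p ∈ (Ioc 0 ⌊(x : ℝ) ^ ((1 : ℝ) / (k : ℝ))⌋₊).filter Nat.Prime,
          vonMangoldt (p ^ k) / ((p ^ k : ℕ) : ℝ) = Real.log p / (p : ℝ) ^ k := by
        intro p hp
        rw [mem_filter] at hp
        exact hval p k hp.2 (by omega)
      rw [Finset.sum_congr rfl h5]
      apply Finset.sum_le_sum_of_subset_of_nonneg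
      · intro p hp
        rw [mem_filter, mem_Ioc] at hp
        rw [mem_filter, mem_Icc]
        refine ⟨⟨hp.1.1, ?_⟩, hp.2⟩
        have hx1 : (1 : ℝ) ≤ x := by exact_mod_cast hx
        have h6 : (x : ℝ) ^ ((1 : ℝ) / (k : ℝ)) ≤ x := by
          have hk1 : (1 : ℝ) / (k : ℝ) ≤ 1 := by
            have : (1 : ℝ) ≤ k := by exact_mod_cast (by omega : 1 ≤ k)
            rw [div_le_one (by linarith)]
            exact this
          calc (x : ℝ) ^ ((1 : ℝ) / (k : ℝ)) ≤ (x : ℝ) ^ (1 : ℝ) :=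
                Real.rpow_le_rpow_of_exponent_le hx1 hk1
            _ = x := Real.rpow_one _
        have h7 := Nat.floor_mono h6
        rw [Nat.floor_natCast] at h7
        exact hp.1.2.trans h7
      · intro p hp _
        rw [mem_filter, mem_Icc] at hp
        have : (1 : ℝ) ≤ p := by exact_mod_cast hp.1.1
        exact div_nonneg (Real.log_nonneg this) (by positivity)
    calc (∑ k ∈ Icc 2 N, ∑ p ∈ Ioc 0 ⌊(x : ℝ) ^ ((1 : ℝ) / (k : ℝ))⌋₊ with p.Prime,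
          vonMangoldt (p ^ k) / ((p ^ k : ℕ) : ℝ))
        ≤ ∑ k ∈ Icc 2 N, ∑ p ∈ (Icc 1 x).filter Nat.Prime, Real.log p / (p : ℝ) ^ k :=
          Finset.sum_le_sum h4
      _ = ∑ p ∈ (Icc 1 x).filter Nat.Prime, ∑ k ∈ Icc 2 N, Real.log p / (p : ℝ) ^ k :=
          Finset.sum_comm
      _ ≤ ∑ p ∈ (Icc 1 x).filter Nat.Prime, 4 * (1 / (p : ℝ) ^ (3 / 2 : ℝ)) :=
          Finset.sum_le_sum fun p hp => one_geom p (mem_filter.mp hp).2 N
      _ = 4 * ∑ p ∈ (Icc 1 x).filter Nat.Prime, 1 / (p : ℝ) ^ (3 / 2 : ℝ) := by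
          rw [Finset.mul_sum]
      _ ≤ 4 * ∑' n : ℕ, 1 / (n : ℝ) ^ (3 / 2 : ℝ) := by
          apply mul_le_mul_of_nonneg_left _ (by norm_num)
          exact hsum.sum_le_tsum _ (fun n _ => by positivity)

/-- Upper bound: `mert`. Lower bound: `x log x - x ≤ log x! = ∑_{n ≤ x} Λ(n) ⌊x/n⌋ ≤ x ∑_{n ≤ x} Λ(n)/n`,
and the prime powers `p^k`, `k ≥ 2`, contribute at most `∑ log p/(p (p-1))`, a constant. -/
theorem mert_one : ∃ C : ℝ, ∀ x : ℕ, 1 ≤ x →
    |(∑ p ∈ (Icc 1 x).filter Nat.Prime, Real.log p / p) - Real.log x| ≤ C := by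
  obtain ⟨C, hC⟩ := one_powers
  refine ⟨max (C + 1) 7, fun x hx => ?_⟩
  have h1 := hC x hx
  have h2 := one_lambda x hx
  have h3 := mert (x + 1) (by omega)
  have h4 : (range (x + 1)).filter Nat.Prime = (Icc 1 x).filter Nat.Prime := by
    ext p
    rw [mem_filter, mem_filter, mem_range, mem_Icc]
    constructor
    · rintro ⟨h, hp⟩
      exact ⟨⟨hp.one_lt.le, by omega⟩, hp⟩
    · rintro ⟨h, hp⟩
      exact ⟨by omega, hp⟩
  rw [h4] at h3
  have hx1 : (1 : ℝ) ≤ x := by exact_mod_cast hx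
  have h5 : Real.log ((x + 1 : ℕ) : ℝ) ≤ Real.log x + 1 := by
    have h6 : Real.log ((x + 1 : ℕ) : ℝ) ≤ Real.log (2 * x) := by
      apply Real.log_le_log
      · positivity
      · push_cast
        linarith
    rw [Real.log_mul (by norm_num) (by positivity)] at h6
    have := Real.log_two_lt_d9
    linarith
  rw [abs_le]
  constructor
  · have := le_max_left (C + 1) 7
    linarith
  · have := le_max_right (C + 1) 7
    linarith

end Pool.Agent.Lib.MP_629a14_nt.Rob
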