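import Pool.Agent.Lib.MP_629a14_nt.Rob.SDefs
import Pool.Agent.Lib.MP_629a14_nt.Rob.LFinal
import Pool.Agent.Lib.MP_629a14_nt.Rob.Crt
import Pool.Agent.Lib.MP_629a14_nt.Rob.PiAP

/-! The convolution of the primes of a set with `nu` in terms of the local weights. -/

set_option autoImplicit false

namespace Pool.Agent.Lib.MP_629a14_nt.Rob

open Finset Pool.Agent.Lib.MP_629a14_nt

/-- The number of primes `b ∈ B`, `v < b ≤ x`, with residue vector `a`. -/
noncomputable def CB (v : ℕ) (B : Set ℕ) (x : ℕ) (a : XX v) : ℕ := by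
  classical exact ((Icc 1 x).filter (fun b => b.Prime ∧ b ∈ B ∧ v < b ∧ pr v b = a)).card

private theorem nuwt_coprime_iff (v m : ℕ) (hv : 2 ≤ v) (hm : ¬ 2 ∣ m) :
    Nat.Coprime m (primorial v) ↔ ∀ p ∈ (Icc 3 v).filter Nat.Prime, ¬ p ∣ m := by
  unfold primorial
  rw [Nat.coprime_prod_right_iff]
  constructor
  · intro h p hp
    rw [mem_filter, mem_Icc] at hp
    have := h p (mem_filter.2 ⟨mem_range.2 (by omega), hp.2⟩)
    exact (Nat.Prime.coprime_iff_not_dvd hp.2).1 this.symm
  · intro h p hp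
    rw [mem_filter, mem_range] at hp
    apply Nat.Coprime.symm
    rw [Nat.Prime.coprime_iff_not_dvd hp.2]
    rcases Nat.lt_or_ge 2 p with h2 | h2
    · exact h p (mem_filter.2 ⟨mem_Icc.2 ⟨h2, by omega⟩, hp.2⟩)
    · have : p = 2 := by
        have := hp.2.two_le
        omega
      subst this
      exact hm

private theorem nuwt_local (v n b p : ℕ) (hb : b.Prime) (hvb : v < b)
    (hbn : b < n) (hp : p ∈ (Icc 3 v).filter Nat.Prime) :
    (if ¬ p ∣ n then (((p : ℝ) - 2) / ((p : ℝ) - 1)) else 1) * wp p (n : ZMod p) (b : ZMod p) =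
      if p ∣ n - b then 0 else 1 := by
  rw [mem_filter, mem_Icc] at hp
  obtain ⟨⟨hp3, hpv⟩, hpp⟩ := hp
  have hp3' : (3 : ℝ) ≤ p := by exact_mod_cast hp3
  unfold wp
  by_cases h : p ∣ n
  · have h0 : (n : ZMod p) = 0 := (ZMod.natCast_eq_zero_iff n p).2 h
    have h1 : ¬ p ∣ n - b := by
      intro hd
      have h2 : p ∣ b := by
        have := Nat.dvd_sub h hd
        have h3 : n - (n - b) = b := by omega
        rwa [h3] at this
      have h4 := (Nat.prime_dvd_prime_iff_eq hpp hb).1 h2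
      omega
    rw [if_neg (by simpa using h), if_pos h0, if_neg h1, one_mul]
  · have h0 : ¬ (n : ZMod p) = 0 := fun h' => h ((ZMod.natCast_eq_zero_iff n p).1 h')
    rw [if_pos h, if_neg h0]
    have hiff : ((n : ZMod p) = (b : ZMod p)) ↔ p ∣ n - b := by
      rw [eq_comm, ZMod.natCast_eq_natCast_iff]
      exact Nat.modEq_iff_dvd' hbn.le
    by_cases h2 : p ∣ n - b
    · rw [if_pos (hiff.2 h2), if_pos h2, mul_zero]
    · rw [if_neg (fun h' => h2 (hiff.1 h')), if_neg h2]
      have h3 : (p : ℝ) - 2 ≠ 0 := by linarith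
      have h4 : (p : ℝ) - 1 ≠ 0 := by linarith
      field_simp

/-- For a prime `b > v` and even `n > b`: `n - b` is prime to `W` if and only if
`pr v n i ≠ pr v b i` for all `i`; `b` is odd and its residues are nonzero. -/
theorem nu_eq_wt (v n b : ℕ) (hv : 2 ≤ v) (hn : 2 ∣ n) (hb : b.Prime) (hvb : v < b) (hbn : b < n) :
    nu v (n - b) = sig v n * wt (fun i : Idx v => (i : ℕ)) (pr v n) (pr v b) := by
  have hodd : ¬ 2 ∣ n - b := by
    intro hd
    have h2 : 2 ∣ b := by
      have := Nat.dvd_sub hn hd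
      have h3 : n - (n - b) = b := by omega
      rwa [h3] at this
    have h4 := (Nat.prime_dvd_prime_iff_eq Nat.prime_two hb).1 h2
    omega
  have hwt : wt (fun i : Idx v => (i : ℕ)) (pr v n) (pr v b) =
      ∏ p ∈ (Icc 3 v).filter Nat.Prime, wp p (n : ZMod p) (b : ZMod p) := by
    unfold wt pr
    exact Finset.prod_coe_sort ((Icc 3 v).filter Nat.Prime)
      (fun p => wp p (n : ZMod p) (b : ZMod p))
  have hsig : ∏ p ∈ (Icc 3 v).filter (fun p => p.Prime ∧ ¬ p ∣ n),
      (((p : ℝ) - 2) / ((p : ℝ) - 1)) = ∏ p ∈ (Icc 3 v).filter Nat.Prime,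
        (if ¬ p ∣ n then (((p : ℝ) - 2) / ((p : ℝ) - 1)) else 1) := by
    rw [← Finset.prod_filter, Finset.filter_filter]
  unfold sig
  rw [hwt, hsig, mul_assoc, ← Finset.prod_mul_distrib,
    Finset.prod_congr rfl (fun p hp => nuwt_local v n b p hb hvb hbn hp)]
  unfold nu
  by_cases h : ∀ p ∈ (Icc 3 v).filter Nat.Prime, ¬ p ∣ n - b
  · rw [if_pos ((nuwt_coprime_iff v (n - b) hv hodd).2 h), Finset.prod_eq_one, mul_one]
    intro p hp
    rw [if_neg (h p hp)]
  · rw [if_neg (fun h' => h ((nuwt_coprime_iff v (n - b) hv hodd).1 h'))]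
    push Not at h
    obtain ⟨p, hp, hd⟩ := h
    rw [Finset.prod_eq_zero hp (by rw [if_pos hd]), mul_zero]

private theorem nuwt_wt_nonneg (v : ℕ) (x a : XX v) :
    0 ≤ wt (fun i : Idx v => (i : ℕ)) x a := by
  unfold wt
  apply Finset.prod_nonneg
  intro i _
  have := (mem_Icc.1 (mem_filter.1 i.2).1).1
  exact wp_nonneg this _ _

private theorem nuwt_sig_nonneg (v n : ℕ) : 0 ≤ sig v n := by
  unfold sig
  apply mul_nonneg (by positivity)
  apply Finset.prod_nonneg
  intro p hp
  have h := (mem_Icc.1 (mem_filter.1 hp).1).1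
  have h3 : (3 : ℝ) ≤ p := by exact_mod_cast h
  apply div_nonneg <;> linarith

private theorem nuwt_pr_mem (v b : ℕ) (hb : b.Prime) (hvb : v < b) : pr v b ∈ UU v := by
  unfold UU
  rw [mem_filter]
  refine ⟨mem_univ _, ?_⟩
  intro i h0
  have h1 : (i : ℕ) ∣ b := (ZMod.natCast_eq_zero_iff b (i : ℕ)).1 h0
  have h2 := mem_filter.1 i.2
  have h3 := (Nat.prime_dvd_prime_iff_eq h2.2 hb).1 h1
  have h4 := (mem_Icc.1 h2.1).2
  omega

/-- `nu_eq_wt` for the primes larger than `v`; the others contribute at most `v log N W/φ(W)`. -/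
theorem fB_le (v N n x : ℕ) (B : Set ℕ) (hv : 2 ≤ v) (hn : 2 ∣ n) (hnx : n ≤ x) (hN : 1 ≤ N) :
    fB v N B n ≤ sig v n * (∑ a ∈ UU v, Real.log N * (CB v B x a : ℝ) *
      wt (fun i : Idx v => (i : ℕ)) (pr v n) a) +
        v * Real.log N * ((primorial v : ℝ) / (primorial v).totient) := by
  classical
  have hlog : 0 ≤ Real.log N := Real.log_natCast_nonneg N
  have hW : 0 ≤ ((primorial v : ℝ) / (primorial v).totient) := by positivity
  have hfB : fB v N B n = ∑ b ∈ (Ico 1 n).filter (fun b => b.Prime ∧ b ∈ B),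
      Real.log N * nu v (n - b) := by
    unfold fB
    congr
  rw [hfB, ← Finset.sum_filter_add_sum_filter_not _ (fun b => v < b)]
  apply add_le_add
  · -- large primes
    set S := ((Ico 1 n).filter (fun b => b.Prime ∧ b ∈ B)).filter (fun b => v < b) with hS
    set T := (Icc 1 x).filter (fun b => b.Prime ∧ b ∈ B ∧ v < b) with hT
    have hST : S ⊆ T := by
      intro b hb
      rw [hS, mem_filter, mem_filter, mem_Ico] at hb
      rw [hT, mem_filter, mem_Icc]
      exact ⟨⟨hb.1.1.1, by omega⟩, hb.1.2.1, hb.1.2.2, hb.2⟩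
    have h1 : ∑ b ∈ S, Real.log N * nu v (n - b) =
        ∑ b ∈ S, sig v n * (Real.log N * wt (fun i : Idx v => (i : ℕ)) (pr v n) (pr v b)) := by
      apply Finset.sum_congr rfl
      intro b hb
      rw [hS, mem_filter, mem_filter, mem_Ico] at hb
      rw [nu_eq_wt v n b hv hn hb.1.2.1 hb.2 hb.1.1.2]
      ring
    rw [h1, ← Finset.mul_sum]
    apply mul_le_mul_of_nonneg_left _ (nuwt_sig_nonneg v n)
    calc ∑ b ∈ S, Real.log N * wt (fun i : Idx v => (i : ℕ)) (pr v n) (pr v b)
        ≤ ∑ b ∈ T, Real.log N * wt (fun i : Idx v => (i : ℕ)) (pr v n) (pr v b) :=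
          Finset.sum_le_sum_of_subset_of_nonneg hST
            (fun b _ _ => mul_nonneg hlog (nuwt_wt_nonneg v _ _))
      _ = ∑ a ∈ UU v, ∑ b ∈ T.filter (fun b => pr v b = a),
            Real.log N * wt (fun i : Idx v => (i : ℕ)) (pr v n) (pr v b) := by
          rw [Finset.sum_fiberwise_of_maps_to]
          intro b hb
          rw [hT, mem_filter] at hb
          exact nuwt_pr_mem v b hb.2.1 hb.2.2.2
      _ = _ := by
          apply Finset.sum_congr rfl
          intro a _
          have h2 : ∀ b ∈ T.filter (fun b => pr v b = a),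
              Real.log N * wt (fun i : Idx v => (i : ℕ)) (pr v n) (pr v b) =
              Real.log N * wt (fun i : Idx v => (i : ℕ)) (pr v n) a := by
            intro b hb
            rw [(mem_filter.1 hb).2]
          rw [Finset.sum_congr rfl h2, Finset.sum_const, nsmul_eq_mul]
          have h3 : ((T.filter (fun b => pr v b = a)).card : ℝ) = (CB v B x a : ℝ) := by
            have : (T.filter (fun b => pr v b = a)).card = CB v B x a := by
              unfold CB
              rw [hT, Finset.filter_filter]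
              congr 1
              ext b
              rw [mem_filter, mem_filter]
              constructor
              · rintro ⟨h, ⟨h4, h5, h6⟩, h7⟩
                exact ⟨h, h4, h5, h6, h7⟩
              · rintro ⟨h, h4, h5, h6, h7⟩
                exact ⟨h, ⟨h4, h5, h6⟩, h7⟩
            rw [this]
          rw [h3]
          ring
  · -- small primes
    set S := ((Ico 1 n).filter (fun b => b.Prime ∧ b ∈ B)).filter (fun b => ¬ v < b) with hS
    have hcard : S.card ≤ v := by
      have : S ⊆ Icc 1 v := by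
        intro b hb
        rw [hS, mem_filter, mem_filter, mem_Ico] at hb
        rw [mem_Icc]
        omega
      calc S.card ≤ (Icc 1 v).card := Finset.card_le_card this
        _ = v := by rw [Nat.card_Icc]; omega
    calc ∑ b ∈ S, Real.log N * nu v (n - b)
        ≤ ∑ _b ∈ S, Real.log N * ((primorial v : ℝ) / (primorial v).totient) :=
          Finset.sum_le_sum (fun b _ => mul_le_mul_of_nonneg_left (nu_le v _) hlog)
      _ = S.card * (Real.log N * ((primorial v : ℝ) / (primorial v).totient)) := by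
          rw [Finset.sum_const, nsmul_eq_mul]
      _ ≤ v * (Real.log N * ((primorial v : ℝ) / (primorial v).totient)) := by
          apply mul_le_mul_of_nonneg_right _ (mul_nonneg hlog hW)
          exact_mod_cast hcard
      _ = _ := by ring

theorem CB_sum (v x : ℕ) (B : Set ℕ) : ∑ a ∈ UU v, CB v B x a ≤ cntB B x := by
  classical
  unfold CB cntB
  rw [← Finset.card_biUnion]
  · apply Finset.card_le_card
    intro b hb
    rw [mem_biUnion] at hb
    obtain ⟨a, _, hb⟩ := hb
    rw [mem_filter] at hb ⊢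
    exact ⟨hb.1, hb.2.1, hb.2.2.1⟩
  · intro a _ a' _ hne
    rw [Function.onFun, Finset.disjoint_left]
    intro b hb hb'
    rw [mem_filter] at hb hb'
    exact hne (hb.2.2.2.2.symm.trans hb'.2.2.2.2)

private theorem nuwt_dvd (v : ℕ) {a b : ℕ} (hab : a ≤ b) (ha : ¬ 2 ∣ a) (hb : ¬ 2 ∣ b)
    (h : pr v a = pr v b) : primorial v ∣ b - a := by
  unfold primorial
  apply Finset.prod_primes_dvd
  · intro p hp
    exact (mem_filter.1 hp).2.prime
  · intro p hp
    rw [mem_filter, mem_range] at hp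
    rcases Nat.lt_or_ge 2 p with h2 | h2
    · have hmem : p ∈ (Icc 3 v).filter Nat.Prime := by
        rw [mem_filter, mem_Icc]
        exact ⟨⟨h2, by omega⟩, hp.2⟩
      have h3 : ((a : ℕ) : ZMod p) = (b : ZMod p) := congrFun h ⟨p, hmem⟩
      rw [ZMod.natCast_eq_natCast_iff] at h3
      exact (Nat.modEq_iff_dvd' hab).1 h3
    · have : p = 2 := by
        have := hp.2.two_le
        omega
      subst this
      omega

private theorem nuwt_modEq (v : ℕ) {a b : ℕ} (ha : ¬ 2 ∣ a) (hb : ¬ 2 ∣ b)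
    (h : pr v a = pr v b) : a ≡ b [MOD primorial v] := by
  rcases Nat.le_total a b with hab | hab
  · exact (Nat.modEq_iff_dvd' hab).2 (nuwt_dvd v hab ha hb h)
  · exact ((Nat.modEq_iff_dvd' hab).2 (nuwt_dvd v hab hb ha h.symm)).symm

private theorem nuwt_odd {v b : ℕ} (hv : 2 ≤ v) (hb : b.Prime) (hvb : v < b) : ¬ 2 ∣ b := by
  intro h
  have := (Nat.prime_dvd_prime_iff_eq Nat.prime_two hb).1 h
  omega

private theorem nuwt_one (v : ℕ) (hv : 2 ≤ v) (ε : ℝ) (hε : 0 < ε) (a : XX v) :
    ∃ N₀ : ℕ, ∀ N : ℕ, N₀ ≤ N → ∀ x : ℕ, x ≤ N → ∀ (B : Set ℕ),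
      Real.log N * (CB v B x a : ℝ) ≤ (x : ℝ) / (UU v).card + ε * N := by
  classical
  by_cases hex : ∃ b0 : ℕ, b0.Prime ∧ v < b0 ∧ pr v b0 = a
  · obtain ⟨b0, hb0, hvb0, hpr⟩ := hex
    have hcop : Nat.Coprime b0 (primorial v) := by
      rw [nuwt_coprime_iff v b0 hv (nuwt_odd hv hb0 hvb0)]
      intro p hp hd
      rw [mem_filter, mem_Icc] at hp
      have := (Nat.prime_dvd_prime_iff_eq hp.2 hb0).1 hd
      omega
    obtain ⟨N₀, hN₀⟩ := pi_unif (primorial v) b0 (primorial_pos v) hcop ε hε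
    refine ⟨N₀, fun N hN x hx B => ?_⟩
    have h1 := (abs_le.1 (hN₀ N hN x hx)).2
    rw [← totient_primorial v hv]
    have h2 : (CB v B x a : ℝ) ≤
        (((Icc 1 x).filter (fun n => n.Prime ∧ n ≡ b0 [MOD primorial v])).card : ℝ) := by
      have : CB v B x a ≤ ((Icc 1 x).filter (fun n => n.Prime ∧ n ≡ b0 [MOD primorial v])).card := by
        unfold CB
        apply Finset.card_le_card
        intro b hb
        rw [mem_filter] at hb ⊢
        refine ⟨hb.1, hb.2.1, ?_⟩
        apply nuwt_modEq v (nuwt_odd hv hb.2.1 hb.2.2.2.1) (nuwt_odd hv hb0 hvb0)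
        rw [hb.2.2.2.2, hpr]
      exact_mod_cast this
    have hlog : 0 ≤ Real.log N := Real.log_natCast_nonneg N
    have h3 := mul_le_mul_of_nonneg_left h2 hlog
    linarith
  · refine ⟨0, fun N _ x _ B => ?_⟩
    have h0 : CB v B x a = 0 := by
      unfold CB
      rw [Finset.card_eq_zero, Finset.filter_eq_empty_iff]
      intro b _ hb
      exact hex ⟨b, hb.1, hb.2.2.1, hb.2.2.2⟩
    rw [h0]
    simp only [Nat.cast_zero, mul_zero]
    positivity

/-- The primes counted by `CB v B x a` lie in one residue class modulo `primorial v`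
(`totient_primorial` in `Crt.lean`), `pi_unif` for the finitely many residue classes. -/
theorem CB_le (v : ℕ) (hv : 2 ≤ v) (ε : ℝ) (hε : 0 < ε) : ∃ N₀ : ℕ, ∀ N : ℕ, N₀ ≤ N → ∀ x : ℕ,
    x ≤ N → ∀ (B : Set ℕ) (a : XX v), a ∈ UU v →
      Real.log N * (CB v B x a : ℝ) ≤ (x : ℝ) / (UU v).card + ε * N := by
  classical
  choose f hf using fun a : XX v => nuwt_one v hv ε hε a
  refine ⟨(UU v).sup f, fun N hN x hx B a ha => ?_⟩
  exact hf a N ((Finset.le_sup ha).trans hN) x hx B

end Pool.Agent.Lib.MP_629a14_nt.Rob
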