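import Pool.Agent.Lib.MP_629a14_nt.Rob.Defs
import Pool.Agent.Lib.MP_629a14_nt.Rob.Mert

/-! An upper bound for `W / φ(W)`. -/

set_option autoImplicit false

namespace Pool.Agent.Lib.MP_629a14_nt.Rob

open Finset Pool.Agent.Lib.MP_629a14_nt

private theorem wphi_tele (n : ℕ) :
    ∑ k ∈ Ico 2 (n + 2), (1 / ((k : ℝ) - 1) - 1 / k) = 1 - 1 / ((n : ℝ) + 1) := by
  induction n with
  | zero => simp
  | succ n ih =>
    rw [Finset.sum_Ico_succ_top (by omega), ih]
    push_cast
    ring

private theorem wphi_sum (v : ℕ) :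
    ∑ p ∈ (range (v + 1)).filter Nat.Prime, 1 / ((p : ℝ) - 1) ≤
      1 + ∑ p ∈ (range (v + 1)).filter Nat.Prime, 1 / (p : ℝ) := by
  have h1 : ∑ p ∈ (range (v + 1)).filter Nat.Prime, (1 / ((p : ℝ) - 1) - 1 / p) ≤
      ∑ k ∈ Ico 2 (v + 2), (1 / ((k : ℝ) - 1) - 1 / k) := by
    apply Finset.sum_le_sum_of_subset_of_nonneg
    · intro p hp
      rw [mem_filter, mem_range] at hp
      rw [mem_Ico]
      exact ⟨hp.2.two_le, by omega⟩
    · intro k hk _
      rw [mem_Ico] at hk
      have h2 : (2 : ℝ) ≤ k := by exact_mod_cast hk.1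
      have : 1 / (k : ℝ) ≤ 1 / ((k : ℝ) - 1) :=
        one_div_le_one_div_of_le (by linarith) (by linarith)
      linarith
  rw [wphi_tele, Finset.sum_sub_distrib] at h1
  have h3 : (0 : ℝ) ≤ 1 / ((v : ℝ) + 1) := by positivity
  linarith

private theorem wphi_prod (v : ℕ) :
    (primorial v : ℝ) / (primorial v).totient =
      ∏ p ∈ (range (v + 1)).filter Nat.Prime, (1 + 1 / ((p : ℝ) - 1)) := by
  have h1 := Nat.totient_eq_mul_prod_factors (primorial v)
  have h2 : ((primorial v).totient : ℝ) =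
      (primorial v : ℝ) * ∏ p ∈ (primorial v).primeFactors, (1 - (p : ℝ)⁻¹) := by
    have := congrArg (fun x : ℚ => (x : ℝ)) h1
    push_cast at this
    exact this
  rw [primeFactors_primorial] at h2
  have h0 : (primorial v : ℝ) ≠ 0 := by
    exact_mod_cast primorial_ne_zero v
  rw [h2]
  have h3 : (∏ p ∈ (range (v + 1)).filter Nat.Prime, (1 + 1 / ((p : ℝ) - 1))) *
      ∏ p ∈ (range (v + 1)).filter Nat.Prime, (1 - (p : ℝ)⁻¹) = 1 := by
    rw [← Finset.prod_mul_distrib]
    apply Finset.prod_eq_one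
    intro p hp
    have hp2 : (2 : ℝ) ≤ p := by exact_mod_cast (mem_filter.mp hp).2.two_le
    have ha : (p : ℝ) - 1 ≠ 0 := by
      have : (0 : ℝ) < (p : ℝ) - 1 := by linarith
      exact this.ne'
    have hb : (p : ℝ) ≠ 0 := by
      have : (0 : ℝ) < (p : ℝ) := by linarith
      exact this.ne'
    field_simp
    ring
  have h4 : (∏ p ∈ (range (v + 1)).filter Nat.Prime, (1 - (p : ℝ)⁻¹)) ≠ 0 :=
    right_ne_zero_of_mul_eq_one h3
  have h5 : Nat.primesLE v = (range (v + 1)).filter Nat.Prime := rfl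
  rw [h5, div_eq_iff (mul_ne_zero h0 h4)]
  rw [mul_left_comm, h3, mul_one]

/-- `W / φ(W) = ∏_{p ≤ v} p/(p-1) ≤ exp (∑_{p ≤ v} 1/(p-1)) ≤ exp (1 + ∑_{p ≤ v} 1/p)`, and for
`P = ⌈exp 64⌉`: `∑_{P < p ≤ v} 1/p ≤ (1/log P) ∑_{p ≤ v} log p / p ≤ (log (v+1) + 6)/64` by `mert`. -/
theorem wphi : ∃ C : ℝ, 0 < C ∧ ∀ v : ℕ, 1 ≤ v →
    (primorial v : ℝ) / (primorial v).totient ≤ C * (v : ℝ) ^ (1 / 32 : ℝ) := by
  set P : ℕ := ⌈Real.exp 64⌉₊ with hP
  set S : ℝ := ∑ p ∈ (range P).filter Nat.Prime, 1 / (p : ℝ) with hS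
  refine ⟨Real.exp (1 + S + (Real.log 2 + 6) / 64), Real.exp_pos _, fun v hv => ?_⟩
  have hv1 : (1 : ℝ) ≤ v := by exact_mod_cast hv
  have h1 : (primorial v : ℝ) / (primorial v).totient ≤
      Real.exp (∑ p ∈ (range (v + 1)).filter Nat.Prime, 1 / ((p : ℝ) - 1)) := by
    rw [wphi_prod, Real.exp_sum]
    apply Finset.prod_le_prod
    · intro p hp
      have hp2 : (2 : ℝ) ≤ p := by exact_mod_cast (mem_filter.mp hp).2.two_le
      have : (0 : ℝ) < (p : ℝ) - 1 := by linarith
      positivity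
    · intro p hp
      have := Real.add_one_le_exp (1 / ((p : ℝ) - 1))
      linarith
  have h2 := wphi_sum v
  have h3 : ∑ p ∈ (range (v + 1)).filter Nat.Prime, 1 / (p : ℝ) ≤
      S + (1 / 64) * ∑ p ∈ (range (v + 1)).filter Nat.Prime, Real.log p / p := by
    rw [Finset.mul_sum, hS,
      ← Finset.sum_filter_add_sum_filter_not ((range (v + 1)).filter Nat.Prime) (fun p => p < P)]
    apply add_le_add
    · apply Finset.sum_le_sum_of_subset_of_nonneg
      · intro p hp
        rw [mem_filter, mem_filter] at hp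
        rw [mem_filter, mem_range]
        exact ⟨hp.2, hp.1.2⟩
      · intro p _ _
        positivity
    · refine (Finset.sum_le_sum (g := fun p : ℕ => 1 / 64 * (Real.log p / p)) ?_).trans ?_
      · intro p hp
        rw [mem_filter, mem_filter] at hp
        have hp3 : P ≤ p := not_lt.mp hp.2
        have hp4 : Real.exp 64 ≤ p := (Nat.le_ceil _).trans (by exact_mod_cast hp3)
        have hp5 : (0 : ℝ) < p := (Real.exp_pos _).trans_le hp4
        have hp6 : 64 ≤ Real.log p := by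
          rw [Real.le_log_iff_exp_le hp5]
          exact hp4
        have h7 : 1 / 64 * (Real.log p / p) = (Real.log p / 64) / p := by ring
        rw [h7]
        apply div_le_div_of_nonneg_right _ hp5.le
        linarith
      · apply Finset.sum_le_sum_of_subset_of_nonneg
        · intro p hp
          exact (mem_filter.mp hp).1
        · intro p _ _
          have : (0 : ℝ) ≤ Real.log p := Real.log_natCast_nonneg p
          positivity
  have h4 := mert (v + 1) (by omega)
  have h5 : Real.log ((v + 1 : ℕ) : ℝ) ≤ Real.log 2 + Real.log v := by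
    rw [← Real.log_mul (by norm_num) (by linarith)]
    apply Real.log_le_log
    · positivity
    · push_cast
      linarith
  have h6 : (v : ℝ) ^ (1 / 32 : ℝ) = Real.exp (Real.log v / 32) := by
    rw [Real.rpow_def_of_pos (by linarith)]
    congr 1
    ring
  have h7 : (0 : ℝ) ≤ Real.log v := Real.log_nonneg hv1
  rw [h6, ← Real.exp_add]
  refine h1.trans (Real.exp_le_exp.mpr ?_)
  linarith

end Pool.Agent.Lib.MP_629a14_nt.Rob
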