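import Pool.Agent.Lib.MP_629a14_nt.Rob.ConvL2
import Pool.Agent.Lib.MP_629a14_nt.Rob.Sup
import Pool.Agent.Lib.MP_629a14_nt.Rob.Wphi

/-! Transference for `nu`. -/

set_option autoImplicit false

namespace Pool.Agent.Lib.MP_629a14_nt.Rob

open Finset Pool.Agent.Lib.MP_629a14_nt

/-- `convL2`, `sup_le`, `parsevalN` and `wphi`: the sum of the squares is at most
`(2N/v)^2 N (W/φ(W))^2 ≤ C N^3 v^(-2 + 1/16)`. -/
theorem transNu (η : ℝ) (hη : 0 < η) : ∃ v₀ : ℕ, ∀ v : ℕ, v₀ ≤ v → ∃ N₀ : ℕ, ∀ N : ℕ, N₀ ≤ N →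
    (((Icc 1 N).filter (fun n => η * N ≤ |nG v N n|)).card : ℝ) ≤ η * N := by
  obtain ⟨C, hC, hw⟩ := wphi
  obtain ⟨v₁, hv₁⟩ := exists_nat_ge (4 * C ^ 2 / η ^ 3)
  refine ⟨max 3 v₁, fun v hv => ?_⟩
  have hv3 : 3 ≤ v := (le_max_left _ _).trans hv
  have hvr : (0 : ℝ) < v := by
    have : 0 < v := by omega
    exact_mod_cast this
  have hv1 : (1 : ℝ) ≤ v := by
    have : 1 ≤ v := by omega
    exact_mod_cast this
  have hvη : 4 * C ^ 2 / η ^ 3 ≤ v := hv₁.trans (by exact_mod_cast (le_max_right _ _).trans hv)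
  obtain ⟨N₁, hN₁⟩ := sup_le v hv3
  refine ⟨max 1 N₁, fun N hN => ?_⟩
  have hN1 : 1 ≤ N := (le_max_left _ _).trans hN
  have hNr : (0 : ℝ) < N := by exact_mod_cast hN1
  have hsup := hN₁ N ((le_max_right _ _).trans hN)
  set w : ℝ := (primorial v : ℝ) / (primorial v).totient with hwdef
  have hw0 : 0 ≤ w := by positivity
  -- the square of `w`
  have hw2 : w ^ 2 ≤ C ^ 2 * v := by
    have h1 := hw v (by omega)
    have h2 : w ^ 2 ≤ (C * (v : ℝ) ^ (1 / 32 : ℝ)) ^ 2 := pow_le_pow_left₀ hw0 h1 2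
    refine h2.trans ?_
    rw [mul_pow]
    refine mul_le_mul_of_nonneg_left ?_ (sq_nonneg C)
    rw [← Real.rpow_natCast, ← Real.rpow_mul hvr.le]
    calc (v : ℝ) ^ ((1 / 32 : ℝ) * ((2 : ℕ) : ℝ)) ≤ (v : ℝ) ^ (1 : ℝ) :=
          Real.rpow_le_rpow_of_exponent_le hv1 (by norm_num)
      _ = v := Real.rpow_one _
  -- the sum of the squares
  have hsum : ∑ n ∈ Icc 1 N, nG v N n ^ 2 ≤ (2 / v * N) ^ 2 * (N * w ^ 2) := by
    have h1 := convL2 N (nu v) (gg v N)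
    have h2 := parsevalN N (nu v)
    have hd : (0 : ℝ) < 2 * (N : ℝ) + 1 := by positivity
    calc ∑ n ∈ Icc 1 N, nG v N n ^ 2
        = ∑ n ∈ Icc 1 N, (∑ m ∈ Ico 1 n, nu v m * gg v N (n - m)) ^ 2 := rfl
      _ ≤ _ := h1
      _ ≤ (1 / (2 * (N : ℝ) + 1)) * ∑ h ∈ range (2 * N + 1),
        ‖∑ m ∈ Icc 1 N, (nu v m : ℂ) * ee (m * fr N h)‖ ^ 2 * (2 / v * N) ^ 2 := by
          refine mul_le_mul_of_nonneg_left (sum_le_sum fun h _ => ?_) (by positivity)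
          refine mul_le_mul_of_nonneg_left ?_ (sq_nonneg _)
          rw [← gh_eq]
          exact pow_le_pow_left₀ (norm_nonneg _) (hsup _) 2
      _ = (2 / v * N) ^ 2 * ∑ m ∈ Icc 1 N, nu v m ^ 2 := by
          rw [← sum_mul, h2]
          field_simp
      _ ≤ (2 / v * N) ^ 2 * (N * w ^ 2) := by
          refine mul_le_mul_of_nonneg_left ?_ (sq_nonneg _)
          calc ∑ m ∈ Icc 1 N, nu v m ^ 2 ≤ ∑ m ∈ Icc 1 N, w ^ 2 :=
                sum_le_sum fun m _ => pow_le_pow_left₀ (nu_nonneg v m) (nu_le v m) 2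
            _ = N * w ^ 2 := by
                rw [sum_const, Nat.card_Icc, nsmul_eq_mul]
                norm_num
  -- Chebyshev's inequality
  have hch : (((Icc 1 N).filter (fun n => η * N ≤ |nG v N n|)).card : ℝ) * (η * N) ^ 2 ≤
      ∑ n ∈ Icc 1 N, nG v N n ^ 2 := by
    calc (((Icc 1 N).filter (fun n => η * N ≤ |nG v N n|)).card : ℝ) * (η * N) ^ 2
        = ∑ n ∈ (Icc 1 N).filter (fun n => η * N ≤ |nG v N n|), (η * N) ^ 2 := by
          rw [sum_const, nsmul_eq_mul]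
      _ ≤ ∑ n ∈ (Icc 1 N).filter (fun n => η * N ≤ |nG v N n|), nG v N n ^ 2 := by
          refine sum_le_sum fun n hn => ?_
          rw [← sq_abs (nG v N n)]
          exact pow_le_pow_left₀ (by positivity) (mem_filter.mp hn).2 2
      _ ≤ ∑ n ∈ Icc 1 N, nG v N n ^ 2 :=
          sum_le_sum_of_subset_of_nonneg (filter_subset _ _) fun _ _ _ => sq_nonneg _
  have hfin : (2 / v * N) ^ 2 * (N * w ^ 2) ≤ (η * N) * (η * N) ^ 2 := by
    rw [div_le_iff₀ (by positivity)] at hvη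
    calc (2 / v * N) ^ 2 * (N * w ^ 2) ≤ (2 / v * N) ^ 2 * (N * (C ^ 2 * v)) := by gcongr
      _ = (N : ℝ) ^ 3 / v * (4 * C ^ 2) := by
          field_simp
          ring
      _ ≤ (N : ℝ) ^ 3 / v * (v * η ^ 3) := by gcongr
      _ = (η * N) * (η * N) ^ 2 := by
          field_simp
  have hpos : (0 : ℝ) < (η * N) ^ 2 := by positivity
  exact le_of_mul_le_mul_right ((hch.trans hsum).trans hfin) hpos

end Pool.Agent.Lib.MP_629a14_nt.Rob
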