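import Pool.Agent.Lib.MP_629a14_nt.Rob.Scale
import Pool.Agent.Lib.MP_629a14_nt.Rob.TransB
import Pool.Agent.Lib.MP_629a14_nt.Rob.TransNu
import Pool.Agent.Lib.MP_629a14_nt.Rob.NuNu
import Pool.Agent.Lib.MP_629a14_nt.Rob.Ident

/-! The robustness theorem. -/

set_option autoImplicit false

namespace Pool.Agent.Lib.MP_629a14_nt.Rob

open Finset Pool.Agent.Lib.MP_629a14_nt

/-- the count of the small `n` -/
private theorem PartA_small (N : ℕ) (t : ℝ) (ht : 0 ≤ t) :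
    (((Icc 1 N).filter (fun n : ℕ => (n : ℝ) < t)).card : ℝ) ≤ t := by
  have h1 : (Icc 1 N).filter (fun n : ℕ => (n : ℝ) < t) ⊆ Icc 1 ⌊t⌋₊ := by
    intro n hn
    rw [mem_filter, mem_Icc] at hn
    rw [mem_Icc]
    exact ⟨hn.1.1, Nat.le_floor hn.2.le⟩
  have h2 := card_le_card h1
  rw [Nat.card_Icc, Nat.add_sub_cancel] at h2
  calc (((Icc 1 N).filter (fun n : ℕ => (n : ℝ) < t)).card : ℝ) ≤ (⌊t⌋₊ : ℝ) := by exact_mod_cast h2
    _ ≤ t := Nat.floor_le ht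

/-- the count of `n` in a union of seven sets -/
private theorem PartA_union (S S0 S1 S2 S3 S4 S5 S6 : Finset ℕ)
    (h : ∀ n ∈ S, n ∈ S0 ∨ n ∈ S1 ∨ n ∈ S2 ∨ n ∈ S3 ∨ n ∈ S4 ∨ n ∈ S5 ∨ n ∈ S6) :
    (S.card : ℝ) ≤ S0.card + S1.card + S2.card + S3.card + S4.card + S5.card + S6.card := by
  have h1 : S ⊆ S0 ∪ S1 ∪ S2 ∪ S3 ∪ S4 ∪ S5 ∪ S6 := by
    intro n hn
    have := h n hn
    simp only [mem_union]
    tauto
  have h2 := card_le_card h1
  have h3 := card_union_le (S0 ∪ S1 ∪ S2 ∪ S3 ∪ S4 ∪ S5) S6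
  have h4 := card_union_le (S0 ∪ S1 ∪ S2 ∪ S3 ∪ S4) S5
  have h5 := card_union_le (S0 ∪ S1 ∪ S2 ∪ S3) S4
  have h6 := card_union_le (S0 ∪ S1 ∪ S2) S3
  have h7 := card_union_le (S0 ∪ S1) S2
  have h8 := card_union_le S0 S1
  have h9 : S.card ≤ S0.card + S1.card + S2.card + S3.card + S4.card + S5.card + S6.card := by
    omega
  exact_mod_cast h9

/-- the last comparison -/
private theorem PartA_final (ε X r a ln lN : ℝ) (hε : 0 < ε) (ha : 0 ≤ a) (hlN : 0 < lN)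
    (hln : 2 / 5 * lN ≤ ln) (hX : ε / 32 * a ≤ X) (hr : X ≤ lN ^ 2 * r) (φ n : ℝ)
    (ha' : a = n ^ 2 / φ) : ε / 200 * (n ^ 2 / (φ * ln ^ 2)) ≤ r := by
  have hln0 : 0 < ln := lt_of_lt_of_le (by positivity) hln
  have h1 : n ^ 2 / (φ * ln ^ 2) = a / ln ^ 2 := by
    rw [ha', div_div]
  rw [h1]
  have h2 : (4 / 25) * lN ^ 2 ≤ ln ^ 2 := by nlinarith
  have h3 : ε / 32 * a ≤ lN ^ 2 * r := hX.trans hr
  rw [mul_div_assoc', div_le_iff₀ (by positivity)]
  have hr0 : 0 ≤ r := by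
    by_contra hneg
    push Not at hneg
    have h4 : lN ^ 2 * r < 0 := mul_neg_of_pos_of_neg (by positivity) hneg
    have h5 : 0 ≤ ε / 32 * a := by positivity
    linarith
  calc ε / 200 * a = (4 / 25) * (ε / 32 * a) := by ring
    _ ≤ (4 / 25) * (lN ^ 2 * r) := by linarith
    _ = r * ((4 / 25) * lN ^ 2) := by ring
    _ ≤ r * ln ^ 2 := mul_le_mul_of_nonneg_left h2 hr0

/-- `δ = exp (-ε w/2) / 4`, `η = ε δ / 40` (so `4 η ≤ exp (-ε w/2)/4`), `v` large (`v ≥ w`,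
`2/v ≤ exp (-ε w/2)/4`, and `v ≥ v₀` for `transB η`, `transNu η`). Outside the exceptional sets of
`scale` (`B₁`, `B₂`), `transB` (`B₁`, `B₂`, `univ`), `transNu`, `phiTail` and the `n < 2 δ N` (even),
`ident` and `nunu` give
`log² N reps ≥ n sig - C - (1 - ε/5) n sig - 4 η N ≥ (ε/8) n sig` (`4 η N ≤ 2 (η/δ) n ≤ (ε/20) n sig`),
and `sig ≥ n/(4 φ(n))` by `div_phi_le`; `log² n ≥ (32/200) log² N` for `n ≥ 2 δ N`, `N` large. The
exceptional sets have at most `(2 exp (-ε w/2) + 4 η + 2/v + 2 δ) N ≤ 4 exp (-ε w/2) N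
≤ exp (-ε w/3) N` elements for `w ≥ 12/ε`. -/
theorem partA (ε : ℝ) (hε : 0 < ε) (hε1 : ε ≤ 1) : ∃ w₀ : ℕ, ∀ w : ℕ, w₀ ≤ w → ∃ δ : ℝ, 0 < δ ∧
    ∃ N₀ : ℕ, ∀ N : ℕ, N₀ ≤ N → ∀ B₁ B₂ : Set ℕ,
      (∀ x : ℕ, δ * N ≤ x → x ≤ N →
        (cntB B₁ x : ℝ) + cntB B₂ x ≤ (1 - ε) * Del w * cntB Set.univ x) →
      (((Icc 1 N).filter (fun n : ℕ => Even n ∧ (reps B₁ B₂ n : ℝ) <
        ε / 200 * ((n : ℝ) ^ 2 / ((n.totient : ℝ) * Real.log n ^ 2)))).card : ℝ) ≤
          Real.exp (-(ε * w / 3)) * N := by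
  obtain ⟨w₁, hw₁⟩ := scale ε hε hε1
  obtain ⟨w₂, hw₂⟩ := exists_nat_ge (12 / ε)
  refine ⟨max w₁ w₂, fun w hw => ?_⟩
  have hw1 : w₁ ≤ w := (le_max_left _ _).trans hw
  have hw2 : w₂ ≤ w := (le_max_right _ _).trans hw
  have hww : 12 ≤ ε * w := by
    have h1 : (12 : ℝ) / ε ≤ w := hw₂.trans (by exact_mod_cast hw2)
    rw [div_le_iff₀ hε] at h1
    linarith
  set E : ℝ := Real.exp (-(ε * w / 2)) with hE
  have hE0 : 0 < E := Real.exp_pos _
  have hE1 : E ≤ 1 := Real.exp_le_one_iff.2 (by linarith)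
  set δ : ℝ := E / 4 with hδ
  have hδ0 : 0 < δ := by positivity
  have hδ1 : δ ≤ 1 := by
    rw [hδ]
    linarith
  set η : ℝ := ε * δ / 40 with hη
  have hη0 : 0 < η := by positivity
  obtain ⟨v₁, hv₁⟩ := transB η hη0
  obtain ⟨v₂, hv₂⟩ := transNu η hη0
  obtain ⟨v₃, hv₃⟩ := exists_nat_ge (8 / E)
  obtain ⟨v, hvw, hv2, hvv1, hvv2, hvv3⟩ :
      ∃ v : ℕ, w ≤ v ∧ 2 ≤ v ∧ v₁ ≤ v ∧ v₂ ≤ v ∧ v₃ ≤ v :=
    ⟨w + 2 + v₁ + v₂ + v₃, by omega, by omega, by omega, by omega, by omega⟩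
  have hvR : (0 : ℝ) < v := by
    have : 0 < v := by omega
    exact_mod_cast this
  have hvE : 2 / (v : ℝ) ≤ E / 4 := by
    have h1 : 8 / E ≤ (v : ℝ) := hv₃.trans (by exact_mod_cast hvv3)
    rw [div_le_iff₀ hE0] at h1
    rw [div_le_iff₀ hvR]
    linarith
  obtain ⟨N₁, hN₁⟩ := hw₁ w v hw1 hvw δ hδ0 hδ1
  obtain ⟨N₂, hN₂⟩ := hv₁ v hvv1
  obtain ⟨N₃, hN₃⟩ := hv₂ v hvv2
  obtain ⟨C, hC0, hC⟩ := nunu v hv2
  obtain ⟨N₄, hN₄⟩ := exists_nat_ge (20 * C / (ε * δ))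
  obtain ⟨N₅, hN₅⟩ := exists_nat_ge (Real.exp (5 / 3 * Real.log (1 / (2 * δ))))
  refine ⟨δ, hδ0, N₁ + N₂ + N₃ + N₄ + N₅, fun N hN B₁ B₂ hB => ?_⟩
  have hNC : C ≤ ε * δ * N / 20 := by
    have h1 : 20 * C / (ε * δ) ≤ (N : ℝ) := hN₄.trans (by
      have : N₄ ≤ N := by omega
      exact_mod_cast this)
    rw [div_le_iff₀ (by positivity)] at h1
    linarith
  have hNl : Real.exp (5 / 3 * Real.log (1 / (2 * δ))) ≤ N := hN₅.trans (by
    have : N₅ ≤ N := by omega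
    exact_mod_cast this)
  have hN0 : (0 : ℝ) < N := (Real.exp_pos _).trans_le hNl
  have hlog : 5 / 3 * Real.log (1 / (2 * δ)) ≤ Real.log N := by
    rw [Real.le_log_iff_exp_le hN0]
    exact hNl
  have hld : 0 < Real.log (1 / (2 * δ)) := by
    refine Real.log_pos ?_
    rw [lt_div_iff₀ (by positivity)]
    rw [hδ]
    linarith
  have hlN : 0 < Real.log N := lt_of_lt_of_le (by positivity) hlog
  -- the exceptional sets
  have hc0 := PartA_small N (2 * δ * N) (by positivity)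
  have hc1 := hN₁ N (by omega) B₁ B₂ hB
  have hc2 := hN₂ N (by omega) B₁
  have hc3 := hN₂ N (by omega) B₂
  have hc4 := hN₂ N (by omega) Set.univ
  have hc5 := hN₃ N (by omega)
  have hc6 := phiTail v N hv2
  have hmain := PartA_union ((Icc 1 N).filter (fun n : ℕ => Even n ∧ (reps B₁ B₂ n : ℝ) <
        ε / 200 * ((n : ℝ) ^ 2 / ((n.totient : ℝ) * Real.log n ^ 2))))
    ((Icc 1 N).filter (fun n : ℕ => (n : ℝ) < 2 * δ * N))
    ((Icc 1 N).filter (fun n : ℕ => 2 * δ * N ≤ n ∧ 2 ∣ n ∧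
            (1 - ε / 5) * (n * sig v n) ≤ fB v N B₁ n + fB v N B₂ n))
    ((Icc 1 N).filter (fun n => η * N ≤ |fG v N B₁ n|))
    ((Icc 1 N).filter (fun n => η * N ≤ |fG v N B₂ n|))
    ((Icc 1 N).filter (fun n => η * N ≤ |fG v N Set.univ n|))
    ((Icc 1 N).filter (fun n => η * N ≤ |nG v N n|))
    ((Icc 1 N).filter (fun n => Real.log 2 ≤
      ∑ p ∈ n.primeFactors.filter (fun p => v < p), 1 / (((p : ℕ) : ℝ) - 1))) ?_
  · have h4 : 4 * E ≤ Real.exp (-(ε * w / 3)) := by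
      have h5 : Real.exp (-(ε * w / 3)) = E * Real.exp (ε * w / 6) := by
        rw [hE, ← Real.exp_add]
        congr 1
        ring
      have h6 : (4 : ℝ) ≤ Real.exp (ε * w / 6) := by
        have h7 : (2 : ℝ) ≤ ε * w / 6 := by linarith
        have h8 : Real.exp 2 ≤ Real.exp (ε * w / 6) := Real.exp_le_exp.2 h7
        have h9 : Real.exp 2 = Real.exp 1 * Real.exp 1 := by
          rw [← Real.exp_add]
          norm_num
        have h10 : (2 : ℝ) ≤ Real.exp 1 := by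
          have := Real.add_one_le_exp (1 : ℝ)
          linarith
        have h20 : (2 : ℝ) * 2 ≤ Real.exp 1 * Real.exp 1 :=
          mul_le_mul h10 h10 (by norm_num) (Real.exp_pos _).le
        linarith
      rw [h5, mul_comm (4 : ℝ) E]
      exact mul_le_mul_of_nonneg_left h6 hE0.le
    have h11 : 2 * (N : ℝ) / v ≤ E / 4 * N := by
      calc 2 * (N : ℝ) / v = 2 / (v : ℝ) * N := by ring
        _ ≤ E / 4 * N := mul_le_mul_of_nonneg_right hvE hN0.le
    have h12 : η ≤ E / 160 := by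
      rw [hη, hδ]
      have h20 := mul_le_mul_of_nonneg_right hε1 hE0.le
      linarith
    have h13 : η * N ≤ E / 160 * N := mul_le_mul_of_nonneg_right h12 hN0.le
    have h14 : 2 * δ * N = E / 2 * N := by
      rw [hδ]
      ring
    have h15 : 4 * E * N ≤ Real.exp (-(ε * w / 3)) * N := mul_le_mul_of_nonneg_right h4 hN0.le
    have hEN : 0 < E * N := by positivity
    rw [← hE] at hc1
    have hc0' := hc0.trans_eq h14
    refine le_trans ?_ h15
    clear hc0 hN₁ hN₂ hN₃ hw₁ hv₁ hv₂ hC hB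
    linarith
  · intro n hn
    rw [mem_filter] at hn
    obtain ⟨hnI, hne, hlt⟩ := hn
    by_contra hcon
    push Not at hcon
    obtain ⟨k0, k1, k2, k3, k4, k5, k6⟩ := hcon
    simp only [mem_filter, not_and, not_le, not_lt] at k0 k1 k2 k3 k4 k5 k6
    have e0 := k0 hnI
    have h2n : 2 ∣ n := hne.two_dvd
    have e1 := k1 hnI e0 h2n
    have e2 := abs_lt.1 (k2 hnI)
    have e3 := abs_lt.1 (k3 hnI)
    have e4 := abs_lt.1 (k4 hnI)
    have e5 := abs_lt.1 (k5 hnI)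
    have e6 := k6 hnI
    have hn1 : 1 ≤ n := (mem_Icc.1 hnI).1
    have hnR : (1 : ℝ) ≤ n := by exact_mod_cast hn1
    have hid := ident v N n B₁ B₂
    have hnn := (abs_le.1 (hC n h2n)).1
    have hs1 := one_le_sig v n hv2
    have hphi := div_phi_le v n hv2 hn1 h2n
    have hexp : Real.exp (∑ p ∈ n.primeFactors.filter (fun p => v < p),
        1 / (((p : ℕ) : ℝ) - 1)) ≤ 2 := by
      have := Real.exp_le_exp.2 e6.le
      rwa [Real.exp_log (by norm_num)] at this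
    have hs0 : 0 ≤ sig v n := by linarith
    have hphi2 : (n : ℝ) / n.totient ≤ 4 * sig v n := by
      refine hphi.trans ?_
      have := mul_le_mul_of_nonneg_left hexp (by positivity : 0 ≤ 2 * sig v n)
      linarith
    have hηN : 4 * (η * N) ≤ ε / 20 * (n * sig v n) := by
      have h1 : 4 * (η * N) = ε / 20 * (2 * δ * N) := by
        rw [hη]
        ring
      rw [h1]
      refine mul_le_mul_of_nonneg_left ?_ (by positivity)
      exact e0.trans (le_mul_of_one_le_right (by positivity) hs1)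
    have hCn : C ≤ ε / 40 * (n * sig v n) := by
      have h1 : ε * δ * N / 20 = ε / 40 * (2 * δ * N) := by ring
      rw [h1] at hNC
      refine hNC.trans (mul_le_mul_of_nonneg_left ?_ (by positivity))
      exact e0.trans (le_mul_of_one_le_right (by positivity) hs1)
    have hX : ε / 8 * (n * sig v n) ≤ Real.log N ^ 2 * (reps B₁ B₂ n : ℝ) := by
      linarith [e2.1, e2.2, e3.1, e3.2, e4.1, e4.2, e5.1, e5.2]
    have htot : (0 : ℝ) < n.totient := by
      exact_mod_cast Nat.totient_pos.2 hn1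
    have hX2 : ε / 32 * ((n : ℝ) ^ 2 / n.totient) ≤ ε / 8 * (n * sig v n) := by
      have h1 : (n : ℝ) ^ 2 / n.totient = n * (n / n.totient) := by ring
      rw [h1]
      have h2 : (n : ℝ) * (n / n.totient) ≤ n * (4 * sig v n) :=
        mul_le_mul_of_nonneg_left hphi2 (by positivity)
      calc ε / 32 * ((n : ℝ) * (n / n.totient)) ≤ ε / 32 * (n * (4 * sig v n)) :=
            mul_le_mul_of_nonneg_left h2 (by positivity)
        _ = ε / 8 * (n * sig v n) := by ring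
    have hlogn : 2 / 5 * Real.log N ≤ Real.log n := by
      have h1 : Real.log (2 * δ * N) ≤ Real.log n := Real.log_le_log (by positivity) e0
      rw [Real.log_mul (by positivity) hN0.ne'] at h1
      have h3 : Real.log (1 / (2 * δ)) = -Real.log (2 * δ) := by
        rw [one_div, Real.log_inv]
      rw [h3] at hlog
      linarith
    have hfin := PartA_final ε (ε / 8 * (n * sig v n)) (reps B₁ B₂ n) ((n : ℝ) ^ 2 / n.totient)
      (Real.log n) (Real.log N) hε (by positivity) hlN hlogn hX2 hX n.totient n rfl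
    exact absurd hlt (not_lt.2 hfin)

end Pool.Agent.Lib.MP_629a14_nt.Rob
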