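import Pool.Agent.Lib.MP_629a14_nt.Rob.ExT2
import Pool.Agent.Lib.MP_629a14_nt.Rob.ExH
import Pool.Agent.Lib.MP_629a14_nt.Rob.ExDens

/-! The example. -/

set_option autoImplicit false

namespace Pool.Agent.Lib.MP_629a14_nt.Rob

open Finset Pool.Agent.Lib.MP_629a14_nt

open Filter Topology

/-- `card_T2_div`, `card_HH`, `dens_BB`, `reps_BB`; at least `N/W - 1` of the `n ≤ N` are congruent to
`2` modulo `W = primorial w ≤ 4^w` (`primorial_le_four_pow`), and they are even. -/
theorem partB (w : ℕ) (hw : 3 ≤ w) : ∃ B : Set ℕ,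
    Tendsto (fun x : ℕ => (cntB B x : ℝ) / cntB Set.univ x) atTop
      (𝓝 ((Del w + 1 / (primorial w).totient) / 2)) ∧
    (∀ n : ℕ, n % primorial w = 2 → reps B B n = 0) ∧
    ∀ N : ℕ, (N : ℝ) / 4 ^ w - 1 ≤
      (((Icc 1 N).filter (fun n => Even n ∧ reps B B n = 0)).card : ℝ) := by
  classical
  have hφ : (0 : ℝ) < (primorial w).totient := by
    exact_mod_cast Nat.totient_pos.2 (primorial_pos w)
  have h2d : 2 ∣ primorial w := by
    unfold primorial
    exact Finset.dvd_prod_of_mem (fun p => p)
      (Finset.mem_filter.2 ⟨Finset.mem_range.2 (by omega), Nat.prime_two⟩)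
  have h3d : 3 ∣ primorial w := by
    unfold primorial
    exact Finset.dvd_prod_of_mem (fun p => p)
      (Finset.mem_filter.2 ⟨Finset.mem_range.2 (by omega), Nat.prime_three⟩)
  have hW0 : 0 < primorial w := primorial_pos w
  have hW : 2 < primorial w := by
    have := Nat.le_of_dvd hW0 h3d
    omega
  refine ⟨BB w, ?_, fun n hn => reps_BB w n hw hn, ?_⟩
  · have h1 := dens_BB w
    have h2 := card_HH w hw
    have h3 := card_T2_div w (by omega)
    have h4 : (2 : ℝ) * (HH w).card = (T2 w).card + 1 := by exact_mod_cast h2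
    have h5 : ((HH w).card : ℝ) / (primorial w).totient =
        (Del w + 1 / (primorial w).totient) / 2 := by
      rw [← h3]
      have : ((HH w).card : ℝ) = ((T2 w).card + 1) / 2 := by linarith
      rw [this]
      field_simp
    rw [← h5]
    exact h1
  · intro N
    set W := primorial w with hWd
    have hsub : (range (N / W)).image (fun k => 2 + k * W) ⊆
        (Icc 1 N).filter (fun n => Even n ∧ reps (BB w) (BB w) n = 0) := by
      intro n hn
      obtain ⟨k, hk, rfl⟩ := Finset.mem_image.1 hn
      have hk' : k + 1 ≤ N / W := Finset.mem_range.1 hk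
      have h6 : (k + 1) * W ≤ N := (Nat.mul_le_mul_right W hk').trans (Nat.div_mul_le_self N W)
      have h7 : 2 + k * W ≤ N := by
        have : (k + 1) * W = k * W + W := by ring
        omega
      refine Finset.mem_filter.2 ⟨Finset.mem_Icc.2 ⟨by omega, h7⟩, ?_, ?_⟩
      · exact (even_iff_two_dvd.2 (dvd_add (dvd_refl 2) (Dvd.dvd.mul_left h2d k)))
      · apply reps_BB w _ hw
        rw [← hWd, Nat.add_mul_mod_self_right, Nat.mod_eq_of_lt hW]
    have hcard : N / W ≤
        ((Icc 1 N).filter (fun n => Even n ∧ reps (BB w) (BB w) n = 0)).card := by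
      calc N / W = ((range (N / W)).image (fun k => 2 + k * W)).card := by
            rw [Finset.card_image_of_injective, Finset.card_range]
            intro a b hab
            have hab' : 2 + a * W = 2 + b * W := hab
            have : a * W = b * W := by omega
            exact Nat.eq_of_mul_eq_mul_right hW0 this
        _ ≤ _ := Finset.card_le_card hsub
    have hWle : W ≤ 4 ^ w := primorial_le_four_pow w
    have h8 : (N : ℝ) / 4 ^ w ≤ (N : ℝ) / W := by
      apply div_le_div_of_nonneg_left (Nat.cast_nonneg N) (by exact_mod_cast hW0)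
      exact_mod_cast hWle
    have h9 : (N : ℝ) / W - 1 ≤ ((N / W : ℕ) : ℝ) := by
      have h10 : N < W * (N / W + 1) := Nat.lt_mul_div_succ N hW0
      have h11 : (N : ℝ) < W * (((N / W : ℕ) : ℝ) + 1) := by exact_mod_cast h10
      have h12 : (N : ℝ) / W < ((N / W : ℕ) : ℝ) + 1 := by
        rw [div_lt_iff₀ (by exact_mod_cast hW0)]
        linarith
      linarith
    have h13 : ((N / W : ℕ) : ℝ) ≤
        (((Icc 1 N).filter (fun n => Even n ∧ reps (BB w) (BB w) n = 0)).card : ℝ) := by
      exact_mod_cast hcard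
    linarith

end Pool.Agent.Lib.MP_629a14_nt.Rob
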