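import Pool.Agent.Lib.MP_629a14_nt.Rob.EDefs
import Pool.Agent.Lib.MP_629a14_nt.Rob.PartA
import Pool.Agent.Lib.MP_629a14_nt.Rob.PartB
import Pool.Agent.Lib.MP_629a14_nt.Rob.M3Third

/-! The asymptotic behaviour of the extremal function. -/

set_option autoImplicit false

namespace Pool.Agent.Lib.MP_629a14_nt.Rob

open Finset

open Filter Topology

private theorem pc_del_pos (w : ℕ) : 0 < Del w := by
  unfold Del
  apply Finset.prod_pos
  intro p hp
  rw [mem_filter, mem_Icc] at hp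
  have h3 : (3 : ℝ) ≤ p := by exact_mod_cast hp.1.1
  apply div_pos <;> linarith

private theorem pc_cnt_le (B : Set ℕ) (x : ℕ) : (cntB B x : ℝ) ≤ cntB Set.univ x := by
  unfold cntB
  have : ∀ {s t : Finset ℕ}, s ⊆ t → (s.card : ℝ) ≤ t.card := fun h => by
    exact_mod_cast Finset.card_le_card h
  apply this
  intro p hp
  simp only [Finset.mem_filter] at hp ⊢
  exact ⟨hp.1, hp.2.1, Set.mem_univ _⟩

private theorem pc_ratio_le (B : Set ℕ) (x : ℕ) : (cntB B x : ℝ) / cntB Set.univ x ≤ 1 :=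
  div_le_one_of_le₀ (pc_cnt_le B x) (Nat.cast_nonneg _)

private theorem pc_u_le (c : ℝ) (B : Set ℕ) (N : ℕ) :
    (((Icc 1 N).filter (fun n : ℕ => Even n ∧
    (reps B B n : ℝ) ≤ c * ((n : ℝ) ^ 2 / ((n.totient : ℝ) * Real.log n ^ 2)))).card : ℝ) / N
      ≤ 1 := by
  apply div_le_one_of_le₀ _ (Nat.cast_nonneg _)
  have h := Finset.card_filter_le (Icc 1 N) (fun n : ℕ => Even n ∧
    (reps B B n : ℝ) ≤ c * ((n : ℝ) ^ 2 / ((n.totient : ℝ) * Real.log n ^ 2)))
  rw [Nat.card_Icc, Nat.add_sub_cancel] at h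
  exact_mod_cast h

private theorem pc_u_nonneg (c : ℝ) (B : Set ℕ) (N : ℕ) :
    0 ≤ (((Icc 1 N).filter (fun n : ℕ => Even n ∧
    (reps B B n : ℝ) ≤ c * ((n : ℝ) ^ 2 / ((n.totient : ℝ) * Real.log n ^ 2)))).card : ℝ) / N := by
  positivity

private theorem pc_exc_le (c : ℝ) (B : Set ℕ) {a : ℝ}
    (h : ∀ᶠ N : ℕ in atTop,
      (((Icc 1 N).filter (fun n : ℕ => Even n ∧
    (reps B B n : ℝ) ≤ c * ((n : ℝ) ^ 2 / ((n.totient : ℝ) * Real.log n ^ 2)))).card : ℝ) / N
      ≤ a) :
    excDens c B ≤ a := by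
  unfold excDens
  exact limsup_le_of_le (isCoboundedUnder_le_of_le atTop (x := 0) (pc_u_nonneg c B)) h

private theorem pc_bdd (c η : ℝ) :
    BddAbove {d : ℝ | ∃ B : Set ℕ, relDens B ≤ η ∧ d = excDens c B} := by
  refine ⟨1, ?_⟩
  rintro d ⟨B, -, rfl⟩
  exact pc_exc_le c B (Eventually.of_forall (pc_u_le c B))

private theorem pc_rel_empty : relDens ∅ = 0 := by
  unfold relDens
  have : (fun x : ℕ => (cntB ∅ x : ℝ) / cntB Set.univ x) = fun _ => 0 := by
    funext x
    have h0 : cntB ∅ x = 0 := by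
      unfold cntB
      rw [Finset.card_eq_zero]
      ext p
      simp only [Finset.mem_filter, Finset.notMem_empty, iff_false]
      rintro ⟨_, _, hp⟩
      exact hp
    rw [h0, Nat.cast_zero, zero_div]
  rw [this]
  exact limsup_const 0

/-- If `relDens B ≤ η` then `2 cntB B x ≤ (1 - ε) Del w cntB univ x` for all large `x` (strict
inequality in the hypothesis), so for `N` large the hypothesis of `partA` holds with
`B₁ = B₂ = B`; for even `n ≥ 2` the threshold in `partA` is larger than the one with `c`. -/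
theorem EE_le (ε : ℝ) (hε : 0 < ε) (hε1 : ε ≤ 1) : ∃ w₀ : ℕ, ∀ w : ℕ, w₀ ≤ w → ∀ c η : ℝ,
    c < ε / 200 → 0 ≤ η → 2 * η < (1 - ε) * Del w → EE c η ≤ Real.exp (-(ε * w / 3)) := by
  obtain ⟨w₀, hw₀⟩ := partA ε hε hε1
  refine ⟨w₀, fun w hw c η hc hη hlt => ?_⟩
  obtain ⟨δ, hδ, N₀, hN₀⟩ := hw₀ w hw
  unfold EE
  apply csSup_le
  · exact ⟨excDens c ∅, ∅, by rw [pc_rel_empty]; exact hη, rfl⟩
  rintro d ⟨B, hB, rfl⟩
  apply pc_exc_le
  have h1 : ∀ᶠ x : ℕ in atTop, (cntB B x : ℝ) / cntB Set.univ x < (1 - ε) * Del w / 2 := by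
    apply eventually_lt_of_limsup_lt
    · have : relDens B < (1 - ε) * Del w / 2 := by linarith
      exact this
    · exact isBoundedUnder_of ⟨1, pc_ratio_le B⟩
  obtain ⟨x0, hx0⟩ := eventually_atTop.mp h1
  obtain ⟨N₁, hN₁⟩ := exists_nat_ge ((x0 : ℝ) / δ)
  filter_upwards [eventually_ge_atTop (max (max N₀ N₁) 1)] with N hN
  have hN0 : N₀ ≤ N := (le_max_left _ _).trans ((le_max_left _ _).trans hN)
  have hN1 : N₁ ≤ N := (le_max_right _ _).trans ((le_max_left _ _).trans hN)
  have hN2 : 1 ≤ N := (le_max_right _ _).trans hN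
  have hNpos : (0 : ℝ) < N := by exact_mod_cast hN2
  have hδN : (x0 : ℝ) ≤ δ * N := by
    have h2 : (x0 : ℝ) / δ ≤ N := hN₁.trans (by exact_mod_cast hN1)
    rw [div_le_iff₀ hδ] at h2
    linarith
  have h3 := hN₀ N hN0 B B (fun x hx1 _ => by
    have h4 : x0 ≤ x := by exact_mod_cast hδN.trans hx1
    have h5 := hx0 x h4
    rcases Nat.eq_zero_or_pos (cntB Set.univ x) with h6 | h6
    · have h7 := pc_cnt_le B x
      rw [h6, Nat.cast_zero] at h7
      rw [h6, Nat.cast_zero, mul_zero]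
      linarith
    · have h7 : (0 : ℝ) < cntB Set.univ x := by exact_mod_cast h6
      rw [div_lt_iff₀ h7] at h5
      linarith)
  rw [div_le_iff₀ hNpos]
  refine le_trans ?_ h3
  have hsub : ∀ {s t : Finset ℕ}, s ⊆ t → (s.card : ℝ) ≤ t.card := fun h => by
    exact_mod_cast Finset.card_le_card h
  apply hsub
  intro n hn
  rw [mem_filter] at hn ⊢
  refine ⟨hn.1, hn.2.1, ?_⟩
  refine lt_of_le_of_lt hn.2.2 ?_
  have hn1 := (mem_Icc.mp hn.1).1
  have hn2 : 2 ≤ n := by
    rcases hn.2.1 with ⟨m, hm⟩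
    omega
  have hn2' : (2 : ℝ) ≤ n := by exact_mod_cast hn2
  have hlog : 0 < Real.log n := Real.log_pos (by linarith)
  have htot : (0 : ℝ) < n.totient := by exact_mod_cast Nat.totient_pos.mpr (by omega)
  have hT : 0 < (n : ℝ) ^ 2 / ((n.totient : ℝ) * Real.log n ^ 2) := by positivity
  exact mul_lt_mul_of_pos_right hc hT

/-- `partB`. -/
theorem EE_ge (w : ℕ) (hw : 3 ≤ w) (c η : ℝ) (hc : 0 ≤ c)
    (hη : (Del w + 1 / (primorial w).totient) / 2 ≤ η) : 1 / (4 : ℝ) ^ w ≤ EE c η := by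
  obtain ⟨B, hB1, -, hB2⟩ := partB w hw
  have hrel : relDens B ≤ η := by
    unfold relDens
    rw [hB1.limsup_eq]
    exact hη
  have hexc : 1 / (4 : ℝ) ^ w ≤ excDens c B := by
    have hlim : Tendsto (fun N : ℕ => 1 / (4 : ℝ) ^ w - 1 / (N : ℝ)) atTop
        (𝓝 (1 / (4 : ℝ) ^ w)) := by
      have := (tendsto_const_nhds (x := 1 / (4 : ℝ) ^ w) (f := (atTop : Filter ℕ))).sub
        tendsto_one_div_atTop_nhds_zero_nat
      rwa [sub_zero] at this
    rw [← hlim.limsup_eq]
    unfold excDens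
    apply limsup_le_limsup
    · filter_upwards [eventually_ge_atTop 1] with N hN
      have hN0 : (0 : ℝ) < N := by exact_mod_cast hN
      rw [le_div_iff₀ hN0]
      have h := hB2 N
      have h2 : (1 / (4 : ℝ) ^ w - 1 / (N : ℝ)) * N = (N : ℝ) / 4 ^ w - 1 := by
        field_simp
      rw [h2]
      refine h.trans ?_
      have hsub : ∀ {s t : Finset ℕ}, s ⊆ t → (s.card : ℝ) ≤ t.card := fun h => by
        exact_mod_cast Finset.card_le_card h
      apply hsub
      intro n hn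
      rw [mem_filter] at hn ⊢
      refine ⟨hn.1, hn.2.1, ?_⟩
      rw [hn.2.2, Nat.cast_zero]
      positivity
    · exact hlim.isCoboundedUnder_le
    · exact isBoundedUnder_of ⟨1, pc_u_le c B⟩
  exact hexc.trans (le_csSup (pc_bdd c η) ⟨B, hrel, rfl⟩)

private theorem pc_cross (D : ℕ → ℝ) (hD : Tendsto D atTop (𝓝 0)) {η : ℝ} (hη : 0 < η) {W : ℕ}
    (hW : η < D W) : ∃ w, W ≤ w ∧ η < D w ∧ D (w + 1) ≤ η := by
  classical
  have hex : ∃ k, D (W + k + 1) ≤ η := by
    have h1 : ∀ᶠ n : ℕ in atTop, D n < η := hD.eventually_lt_const hη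
    obtain ⟨n, hn⟩ := eventually_atTop.mp h1
    exact ⟨n, (hn (W + n + 1) (by omega)).le⟩
  obtain ⟨k, hk0⟩ : ∃ k, k = Nat.find hex := ⟨_, rfl⟩
  have hk : D (W + k + 1) ≤ η := by
    rw [hk0]
    exact Nat.find_spec hex
  refine ⟨W + k, by omega, ?_, hk⟩
  rcases Nat.eq_zero_or_pos k with h0 | hpos
  · rw [h0, add_zero]
    exact hW
  · have h2 := Nat.find_min hex (m := k - 1) (by omega)
    push Not at h2
    have h3 : W + (k - 1) + 1 = W + k := by omega
    rw [h3] at h2
    exact h2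

private theorem pc_log_atTop : Tendsto (fun w : ℕ => Real.log w) atTop atTop :=
  Real.tendsto_log_atTop.comp tendsto_natCast_atTop_atTop

private theorem pc_del_zero : Tendsto Del atTop (𝓝 0) := by
  have h1 := del_lim.div_atTop pc_log_atTop
  refine h1.congr' ?_
  filter_upwards [eventually_ge_atTop 2] with w hw
  have : (0 : ℝ) < Real.log w := Real.log_pos (by exact_mod_cast hw)
  field_simp

/-- `φ(primorial w) ≥ (w - 1)/2` -/
private theorem pc_phi (w : ℕ) (hw : 2 ≤ w) : ((w : ℝ) - 1) / 2 ≤ (primorial w).totient := by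
  obtain ⟨p, hp, h1, h2⟩ := Nat.exists_prime_lt_and_le_two_mul (w / 2) (by omega)
  have hpw : p ≤ w := by omega
  have hdvd : p ∣ primorial w := by
    unfold primorial
    exact Finset.dvd_prod_of_mem (fun p => p)
      (Finset.mem_filter.2 ⟨Finset.mem_range.2 (by omega), hp⟩)
  have h3 : p.totient ∣ (primorial w).totient := Nat.totient_dvd_of_dvd hdvd
  have h4 : p.totient ≤ (primorial w).totient :=
    Nat.le_of_dvd (Nat.totient_pos.mpr (primorial_pos w)) h3
  rw [Nat.totient_prime hp] at h4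
  have h5 : w ≤ 2 * (primorial w).totient + 1 := by omega
  have h6 : (w : ℝ) ≤ 2 * (primorial w).totient + 1 := by exact_mod_cast h5
  linarith

/-- `Del w * log (c w + d)` has the same limit -/
private theorem pc_del_log {c : ℝ} {F : ℕ → ℝ}
    (hF : Tendsto (fun w : ℕ => F w - Real.log w) atTop (𝓝 c)) :
    Tendsto (fun w : ℕ => Del w * F w) atTop
      (𝓝 (2 * (C2 * Real.exp (-Real.eulerMascheroniConstant)))) := by
  have h1 := del_lim.add (pc_del_zero.mul hF)
  rw [zero_mul, add_zero] at h1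
  refine h1.congr ?_
  intro w
  ring

private theorem pc_log_four : 1 < Real.log 4 := by
  rw [Real.lt_log_iff_exp_lt (by norm_num)]
  have := Real.exp_one_lt_d9
  linarith

private theorem pc_small : Tendsto (fun w : ℕ => 1 / ((primorial w).totient : ℝ) *
    Real.log (((w : ℝ) + 1) * Real.log 4)) atTop (𝓝 0) := by
  have hl4 := pc_log_four
  have h1 : Tendsto (fun w : ℕ => (w : ℝ) + 1) atTop atTop :=
    tendsto_atTop_add_const_right _ _ tendsto_natCast_atTop_atTop
  have h2 := (Real.tendsto_pow_log_div_mul_add_atTop (1 / 2) (-1) 1 (by norm_num)).comp h1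
  have h3 := (Real.tendsto_pow_log_div_mul_add_atTop (1 / 2) (-1) 0 (by norm_num)).comp h1
  have h4 := h2.add (h3.const_mul (Real.log (Real.log 4)))
  rw [mul_zero, add_zero] at h4
  refine squeeze_zero' ?_ ?_ h4
  · filter_upwards [eventually_ge_atTop 1] with w hw
    apply mul_nonneg (by positivity)
    apply Real.log_nonneg
    have : (0 : ℝ) ≤ w := Nat.cast_nonneg w
    nlinarith
  · filter_upwards [eventually_ge_atTop 2] with w hw
    have h5 := pc_phi w hw
    have hw2 : (2 : ℝ) ≤ w := by exact_mod_cast hw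
    simp only [Function.comp, pow_one, pow_zero]
    have hlm : Real.log (((w : ℝ) + 1) * Real.log 4) =
        Real.log ((w : ℝ) + 1) + Real.log (Real.log 4) :=
      Real.log_mul (by positivity) (by linarith)
    have hnn : 0 ≤ Real.log (((w : ℝ) + 1) * Real.log 4) := by
      apply Real.log_nonneg
      nlinarith
    have h7 : 1 / ((primorial w).totient : ℝ) ≤ 1 / (1 / 2 * ((w : ℝ) + 1) + -1) := by
      apply one_div_le_one_div_of_le
      · linarith
      · linarith
    calc 1 / ((primorial w).totient : ℝ) * Real.log (((w : ℝ) + 1) * Real.log 4)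
        ≤ 1 / (1 / 2 * ((w : ℝ) + 1) + -1) * Real.log (((w : ℝ) + 1) * Real.log 4) :=
          mul_le_mul_of_nonneg_right h7 hnn
      _ = _ := by
          rw [hlm]
          ring

private theorem pc_log_shift {a b : ℝ} (ha : 0 < a) :
    Tendsto (fun w : ℕ => Real.log (((w : ℝ) + b) * a) - Real.log w) atTop
      (𝓝 (Real.log a)) := by
  have h1 : Tendsto (fun w : ℕ => (1 + b / (w : ℝ)) * a) atTop (𝓝 ((1 + 0) * a)) := by
    apply Tendsto.mul_const
    apply Tendsto.const_add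
    exact tendsto_const_div_atTop_nhds_zero_nat b
  rw [add_zero, one_mul] at h1
  have h2 := h1.log (ne_of_gt ha)
  refine h2.congr' ?_
  obtain ⟨n, hn⟩ := exists_nat_gt (-b)
  filter_upwards [eventually_ge_atTop (n + 1)] with w hw
  have hw1 : (n : ℝ) + 1 ≤ w := by exact_mod_cast hw
  have hn0 : (0 : ℝ) ≤ n := Nat.cast_nonneg n
  have hw0 : (0 : ℝ) < w := by linarith
  have hwb : 0 < (w : ℝ) + b := by linarith
  rw [← Real.log_div (by positivity) (by positivity)]
  congr 1
  field_simp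

private theorem pc_D2_zero : Tendsto (fun w : ℕ => (Del w + 1 / ((primorial w).totient : ℝ)) / 2)
    atTop (𝓝 0) := by
  have h1 : Tendsto (fun w : ℕ => 1 / ((primorial w).totient : ℝ)) atTop (𝓝 0) := by
    refine squeeze_zero' (Eventually.of_forall fun w => by positivity) ?_ pc_small
    have h2 : Tendsto (fun w : ℕ => ((w : ℝ) + 1) * Real.log 4) atTop atTop := by
      have h3 : Tendsto (fun w : ℕ => (w : ℝ) + 1) atTop atTop :=
        tendsto_atTop_add_const_right _ _ tendsto_natCast_atTop_atTop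
      exact h3.atTop_mul_const (by linarith [pc_log_four])
    have h4 := Real.tendsto_log_atTop.comp h2
    filter_upwards [h4.eventually_ge_atTop 1] with w hw
    have h5 : (0 : ℝ) ≤ 1 / ((primorial w).totient : ℝ) := by positivity
    have h6 : 1 ≤ Real.log (((w : ℝ) + 1) * Real.log 4) := hw
    nlinarith
  have h2 := (pc_del_zero.add h1).div_const 2
  rw [add_zero, zero_div] at h2
  exact h2

private theorem pc_EE_pos {c η : ℝ} (hc : 0 ≤ c) (hη : 0 < η) : 0 < EE c η := by
  have h1 : ∀ᶠ w : ℕ in atTop, (Del w + 1 / ((primorial w).totient : ℝ)) / 2 < η :=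
    pc_D2_zero.eventually_lt_const hη
  obtain ⟨w, hw⟩ := (h1.and (eventually_ge_atTop 3)).exists
  have h2 := EE_ge w hw.2 c η hc hw.1.le
  have h3 : (0 : ℝ) < 1 / (4 : ℝ) ^ w := by positivity
  linarith

private theorem pc_h_lim : Tendsto (fun w : ℕ => (Del w + 1 / ((primorial w).totient : ℝ)) / 2 *
    Real.log (((w : ℝ) + 1) * Real.log 4)) atTop
      (𝓝 (C2 * Real.exp (-Real.eulerMascheroniConstant))) := by
  have h1 := pc_del_log (pc_log_shift (a := Real.log 4) (b := 1) (by linarith [pc_log_four]))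
  have h2 := (h1.add pc_small).div_const 2
  have h3 : (2 * (C2 * Real.exp (-Real.eulerMascheroniConstant)) + 0) / 2 =
      C2 * Real.exp (-Real.eulerMascheroniConstant) := by ring
  rw [h3] at h2
  refine h2.congr ?_
  intro w
  ring

private theorem pc_g_lim {ε : ℝ} (hε : 0 < ε) : Tendsto (fun w : ℕ => (1 - ε) / 2 *
    Del (w + 1) * Real.log ((w : ℝ) * (ε / 3))) atTop
      (𝓝 ((1 - ε) * (C2 * Real.exp (-Real.eulerMascheroniConstant)))) := by
  have h1 := pc_del_log (pc_log_shift (a := ε / 3) (b := -1) (by linarith))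
  have h2 := (h1.comp (tendsto_add_atTop_nat 1)).const_mul ((1 - ε) / 2)
  have h3 : (1 - ε) / 2 * (2 * (C2 * Real.exp (-Real.eulerMascheroniConstant))) =
      (1 - ε) * (C2 * Real.exp (-Real.eulerMascheroniConstant)) := by ring
  rw [h3] at h2
  refine h2.congr ?_
  intro w
  simp only [Function.comp]
  push_cast
  rw [show (w : ℝ) + 1 + -1 = w by ring]
  ring

/-- Put `κ = C2 exp (-γ)`, `ε` fixed. Lower bound for the limit: for small `η` let `w` be the largest
natural number with `2 η < (1 - ε) Del w` (`Del` is antitone and tends to `0`), so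
`2 η ≥ (1 - ε) Del (w+1)` and `η log (w+1) ≥ (1 - ε) Del (w+1) log (w+1) / 2 → (1 - ε) κ` by `del_lim`,
while `-log (EE η) ≥ ε w/3`. Upper bound: let `w ≥ 4` be minimal with
`(Del w + 1/φ(W))/2 ≤ η`; then `η < (Del (w-1) + 1/φ(W'))/2`,
`φ(W') = ∏ (p - 1) ≥` the largest prime up to `w - 1` minus one, at least `(w-3)/2` (Bertrand), so
`η log (w-1) ≤ κ + o(1) + O(log w / w)`, while `-log (EE η) ≤ w log 4`. -/
theorem EE_lim (c : ℝ → ℝ) (hc : ∀ η, 0 < η → 0 ≤ c η) (hc0 : Tendsto c (𝓝[>] 0) (𝓝 0)) :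
    Tendsto (fun η : ℝ => η * Real.log (-Real.log (EE (c η) η))) (𝓝[>] 0)
      (𝓝 (C2 * Real.exp (-Real.eulerMascheroniConstant))) := by
  have hκ : 0 < C2 * Real.exp (-Real.eulerMascheroniConstant) := mul_pos C2_pos (Real.exp_pos _)
  obtain ⟨κ, hκe⟩ : ∃ κ, κ = C2 * Real.exp (-Real.eulerMascheroniConstant) := ⟨_, rfl⟩
  rw [← hκe] at hκ ⊢
  rw [tendsto_order]
  constructor
  · intro a ha
    obtain ⟨ε, hε0, hε1, hεa⟩ : ∃ ε : ℝ, 0 < ε ∧ ε < 1 ∧ a < (1 - ε) * κ := by
      refine ⟨min (1 / 2) ((κ - a) / (2 * κ)), ?_, ?_, ?_⟩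
      · apply lt_min (by norm_num)
        apply div_pos <;> linarith
      · exact lt_of_le_of_lt (min_le_left _ _) (by norm_num)
      · have h1 : min (1 / 2) ((κ - a) / (2 * κ)) * κ ≤ (κ - a) / (2 * κ) * κ :=
          mul_le_mul_of_nonneg_right (min_le_right _ _) hκ.le
        have h2 : (κ - a) / (2 * κ) * κ = (κ - a) / 2 := by field_simp
        rw [h2] at h1
        rw [sub_mul, one_mul]
        linarith
    obtain ⟨w₀, hw₀⟩ := EE_le ε hε0 hε1.le
    have hg := pc_g_lim hε0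
    rw [← hκe] at hg
    have hg1 := hg.eventually_const_lt hεa
    obtain ⟨W1, hW1⟩ := eventually_atTop.mp hg1
    obtain ⟨W2, hW2⟩ := exists_nat_ge (3 / ε)
    obtain ⟨W, hW⟩ : ∃ W, W = max (max w₀ W1) W2 := ⟨_, rfl⟩
    have hD0 : Tendsto (fun w : ℕ => (1 - ε) / 2 * Del w) atTop (𝓝 0) := by
      have := pc_del_zero.const_mul ((1 - ε) / 2)
      rwa [mul_zero] at this
    have hDpos : ∀ w, 0 < (1 - ε) / 2 * Del w := fun w => by
      have := pc_del_pos w
      have h2 : 0 < (1 - ε) / 2 := by linarith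
      positivity
    have hsm : ∀ᶠ η : ℝ in 𝓝[>] 0, η < (1 - ε) / 2 * Del W :=
      (eventually_lt_nhds (hDpos W)).filter_mono nhdsWithin_le_nhds
    have hcs : ∀ᶠ η : ℝ in 𝓝[>] 0, c η < ε / 200 :=
      hc0.eventually_lt_const (by linarith)
    filter_upwards [hsm, hcs, self_mem_nhdsWithin] with η h1 h2 h3
    have hη : 0 < η := h3
    obtain ⟨w, hwW, hw1, hw2⟩ := pc_cross _ hD0 hη h1
    have hww0 : w₀ ≤ w := by omega
    have hwW1 : W1 ≤ w := by omega
    have hwW2 : W2 ≤ w := by omega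
    have hle := hw₀ w hww0 (c η) η h2 hη.le (by
      have h4 : η < (1 - ε) / 2 * Del w := hw1
      linarith)
    have hpos := pc_EE_pos (hc η hη) hη
    have hlog : ε * w / 3 ≤ -Real.log (EE (c η) η) := by
      have h5 := Real.log_le_log hpos hle
      rw [Real.log_exp] at h5
      linarith
    have hw3 : 1 ≤ (w : ℝ) * (ε / 3) := by
      have h6 : 3 / ε ≤ (w : ℝ) := hW2.trans (by exact_mod_cast hwW2)
      rw [div_le_iff₀ hε0] at h6
      linarith
    have hlog0 : 0 ≤ Real.log ((w : ℝ) * (ε / 3)) := Real.log_nonneg hw3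
    have hlog1 : Real.log ((w : ℝ) * (ε / 3)) ≤ Real.log (-Real.log (EE (c η) η)) := by
      apply Real.log_le_log (by linarith)
      linarith
    have hg2 := hW1 w hwW1
    have hw2' : (1 - ε) / 2 * Del (w + 1) ≤ η := hw2
    calc a < (1 - ε) / 2 * Del (w + 1) * Real.log ((w : ℝ) * (ε / 3)) := hg2
      _ ≤ η * Real.log ((w : ℝ) * (ε / 3)) := mul_le_mul_of_nonneg_right hw2' hlog0
      _ ≤ η * Real.log (-Real.log (EE (c η) η)) := mul_le_mul_of_nonneg_left hlog1 hη.le
  · intro b hb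
    have hh := pc_h_lim
    rw [← hκe] at hh
    have hh1 := hh.eventually_lt_const hb
    obtain ⟨W1, hW1⟩ := eventually_atTop.mp hh1
    obtain ⟨w₀, hw₀⟩ := EE_le (1 / 2) (by norm_num) (by norm_num)
    obtain ⟨W, hW⟩ : ∃ W, W = max W1 3 := ⟨_, rfl⟩
    have hDpos : 0 < (Del W + 1 / ((primorial W).totient : ℝ)) / 2 := by
      have h1 := pc_del_pos W
      have h2 : (0 : ℝ) ≤ 1 / ((primorial W).totient : ℝ) := by positivity
      linarith
    have hsm : ∀ᶠ η : ℝ in 𝓝[>] 0, η < (Del W + 1 / ((primorial W).totient : ℝ)) / 2 :=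
      (eventually_lt_nhds hDpos).filter_mono nhdsWithin_le_nhds
    have hsm2 : ∀ᶠ η : ℝ in 𝓝[>] 0, η < Del (w₀ + 1) / 4 :=
      (eventually_lt_nhds (by
        have := pc_del_pos (w₀ + 1)
        linarith)).filter_mono nhdsWithin_le_nhds
    have hcs : ∀ᶠ η : ℝ in 𝓝[>] 0, c η < 1 / 2 / 200 :=
      hc0.eventually_lt_const (by norm_num)
    filter_upwards [hsm, hcs, self_mem_nhdsWithin, hsm2] with η h1 h2 h3 h4
    have hη : 0 < η := h3
    obtain ⟨w, hwW, hw1, hw2⟩ := pc_cross _ pc_D2_zero hη h1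
    have hle := hw₀ (w₀ + 1) (by omega) (c η) η h2 hη.le (by linarith)
    have hpos := pc_EE_pos (hc η hη) hη
    have hlogpos : 0 < -Real.log (EE (c η) η) := by
      have h5 := Real.log_le_log hpos hle
      rw [Real.log_exp] at h5
      have h6 : (0 : ℝ) < 1 / 2 * ((w₀ + 1 : ℕ) : ℝ) / 3 := by positivity
      linarith
    have hge := EE_ge (w + 1) (by omega) (c η) η (hc η hη) hw2
    have hlogle : -Real.log (EE (c η) η) ≤ ((w : ℝ) + 1) * Real.log 4 := by
      have h7 : (0 : ℝ) < 1 / (4 : ℝ) ^ (w + 1) := by positivity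
      have h5 := Real.log_le_log h7 hge
      rw [one_div, Real.log_inv, Real.log_pow] at h5
      push_cast at h5
      linarith
    have hl4 := pc_log_four
    have hw0 : (0 : ℝ) ≤ w := Nat.cast_nonneg w
    have hlog0 : 0 ≤ Real.log (((w : ℝ) + 1) * Real.log 4) := by
      apply Real.log_nonneg
      nlinarith
    have hlog1 : Real.log (-Real.log (EE (c η) η)) ≤ Real.log (((w : ℝ) + 1) * Real.log 4) :=
      Real.log_le_log hlogpos hlogle
    have hw1' : η < (Del w + 1 / ((primorial w).totient : ℝ)) / 2 := hw1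
    have hh2 := hW1 w (by omega)
    calc η * Real.log (-Real.log (EE (c η) η))
        ≤ η * Real.log (((w : ℝ) + 1) * Real.log 4) := mul_le_mul_of_nonneg_left hlog1 hη.le
      _ ≤ (Del w + 1 / ((primorial w).totient : ℝ)) / 2 *
            Real.log (((w : ℝ) + 1) * Real.log 4) := mul_le_mul_of_nonneg_right hw1'.le hlog0
      _ < b := hh2

end Pool.Agent.Lib.MP_629a14_nt.Rob
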