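import Mathlib
import Pool.Agent.Lib.MP_3e612f_nt.MuPNT

/-! The prime number theorem for non-principal characters. -/

set_option autoImplicit false

namespace Pool.Agent.Lib.MP_629a14_nt.Rob

open Finset

open Filter Topology

private theorem pc_log (Y : ℕ) : Real.log ((Y : ℝ) + 1) ≤ 2 * Real.sqrt Y := by
  have h0 : (0 : ℝ) ≤ (Y : ℝ) + 1 := by positivity
  have h1 : Real.log (Real.sqrt ((Y : ℝ) + 1)) = Real.log ((Y : ℝ) + 1) / 2 := Real.log_sqrt h0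
  have h2 : Real.log (Real.sqrt ((Y : ℝ) + 1)) ≤ Real.sqrt ((Y : ℝ) + 1) - 1 :=
    Real.log_le_sub_one_of_pos (Real.sqrt_pos.2 (by positivity))
  have h3 : Real.sqrt ((Y : ℝ) + 1) ≤ Real.sqrt Y + 1 := by
    rw [Real.sqrt_le_iff]
    have h4 := Real.sq_sqrt (Nat.cast_nonneg (α := ℝ) Y)
    have h5 := Real.sqrt_nonneg (Y : ℝ)
    constructor
    · linarith
    · nlinarith
  linarith

private theorem pc_sum (y : ℕ) : ∑ d ∈ Ioc 0 y, 1 / Real.sqrt d ≤ 2 * Real.sqrt y := by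
  induction y with
  | zero => simp
  | succ y ih =>
    rw [Finset.sum_Ioc_succ_top (Nat.zero_le y)]
    push_cast
    have h1 : 0 < Real.sqrt ((y : ℝ) + 1) := Real.sqrt_pos.2 (by positivity)
    have h2 := Real.sqrt_nonneg (y : ℝ)
    have h3 := Real.sq_sqrt (Nat.cast_nonneg (α := ℝ) y)
    have h4 := Real.sq_sqrt (show (0 : ℝ) ≤ (y : ℝ) + 1 by positivity)
    have h5 : Real.sqrt (y : ℝ) ≤ Real.sqrt ((y : ℝ) + 1) := Real.sqrt_le_sqrt (by linarith)
    have h6 : 1 / Real.sqrt ((y : ℝ) + 1) ≤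
        2 * (Real.sqrt ((y : ℝ) + 1) - Real.sqrt (y : ℝ)) := by
      rw [div_le_iff₀ h1]
      nlinarith
    linarith

private theorem pc_F {q : ℕ} [NeZero q] (χ : DirichletCharacter ℂ q) (hχ : χ ≠ 1) :
    ∃ C : ℝ, 0 ≤ C ∧ ∀ y : ℕ, ‖∑ m ∈ Ioc 0 y, χ (m : ZMod q) * ((Real.log m : ℝ) : ℂ)‖ ≤
      C * Real.sqrt y := by
  obtain ⟨K, hK⟩ := Pool.Agent.Lib.MP_3e612f_nt.DS.hH_periodic q
    (Nat.one_le_iff_ne_zero.mpr (NeZero.ne q))
    (fun n => χ (n : ZMod q))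
    (fun n => Pool.Agent.Lib.MP_3e612f_nt.DS.hH_period (fun a => χ a) n) (by
      rw [Pool.Agent.Lib.MP_3e612f_nt.DS.hH_sum_range (fun a => χ a)]
      exact MulChar.sum_eq_zero_of_ne_one hχ)
  have hK0 : 0 ≤ K := (norm_nonneg _).trans (hK 0)
  refine ⟨6 * K, by positivity, fun Y => ?_⟩
  have hab := Pool.Agent.Lib.MP_3e612f_nt.DS.hH_abel (fun n => χ (n : ZMod q))
    (fun n => max 0 (Real.log ((Y : ℝ) + 1) - Real.log n)) K 0 hK
    (fun n hn => by
      have h1 : Real.log n ≤ Real.log ((n + 1 : ℕ) : ℝ) := by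
        apply Real.log_le_log
        · exact_mod_cast hn
        · push_cast; linarith
      exact max_le_max le_rfl (by linarith))
    (fun n _ => le_max_left _ _) Y (Nat.zero_le Y)
  have hlogY : 0 ≤ Real.log ((Y : ℝ) + 1) := Real.log_nonneg (by
    have := Nat.cast_nonneg (α := ℝ) Y
    linarith)
  have e1 : ∑ n ∈ Ioc 0 Y, ((max 0 (Real.log ((Y : ℝ) + 1) - Real.log n) : ℝ) : ℂ) *
      χ (n : ZMod q) = (Real.log ((Y : ℝ) + 1) : ℂ) * ∑ n ∈ Ioc 0 Y, χ (n : ZMod q) -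
      ∑ n ∈ Ioc 0 Y, χ (n : ZMod q) * ((Real.log n : ℝ) : ℂ) := by
    rw [Finset.mul_sum, ← Finset.sum_sub_distrib]
    refine Finset.sum_congr rfl fun n hn => ?_
    have hn1 := (Finset.mem_Ioc.1 hn)
    have h2 : Real.log n ≤ Real.log ((Y : ℝ) + 1) := by
      apply Real.log_le_log
      · exact_mod_cast hn1.1
      · have : (n : ℝ) ≤ Y := by exact_mod_cast hn1.2
        linarith
    rw [max_eq_right (by linarith)]
    push_cast
    ring
  rw [e1] at hab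
  have e2 : max 0 (Real.log ((Y : ℝ) + 1) - Real.log ((0 + 1 : ℕ) : ℝ)) =
      Real.log ((Y : ℝ) + 1) := by
    simp [hlogY]
  rw [e2] at hab
  have h3 : ‖(Real.log ((Y : ℝ) + 1) : ℂ) * ∑ n ∈ Ioc 0 Y, χ (n : ZMod q)‖ ≤
      K * Real.log ((Y : ℝ) + 1) := by
    rw [norm_mul, Complex.norm_real, Real.norm_eq_abs, abs_of_nonneg hlogY]
    have := hK Y
    nlinarith [mul_le_mul_of_nonneg_left this hlogY]
  have h4 : ‖∑ n ∈ Ioc 0 Y, χ (n : ZMod q) * ((Real.log n : ℝ) : ℂ)‖ ≤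
      3 * K * Real.log ((Y : ℝ) + 1) := by
    have e3 : ∑ n ∈ Ioc 0 Y, χ (n : ZMod q) * ((Real.log n : ℝ) : ℂ) =
        (Real.log ((Y : ℝ) + 1) : ℂ) * ∑ n ∈ Ioc 0 Y, χ (n : ZMod q) -
        ((Real.log ((Y : ℝ) + 1) : ℂ) * ∑ n ∈ Ioc 0 Y, χ (n : ZMod q) -
      ∑ n ∈ Ioc 0 Y, χ (n : ZMod q) * ((Real.log n : ℝ) : ℂ)) := by ring
    rw [e3]
    refine (norm_sub_le _ _).trans ?_
    linarith
  refine h4.trans ?_
  have h5 := pc_log Y
  nlinarith [mul_le_mul_of_nonneg_left h5 hK0]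

private theorem pc_hyp {q : ℕ} [NeZero q] (χ : DirichletCharacter ℂ q) (N : ℕ) :
    ∑ n ∈ Ioc 0 N, χ (n : ZMod q) * (ArithmeticFunction.vonMangoldt n : ℂ) =
      ∑ d ∈ Ioc 0 N, (χ (d : ZMod q) * ((ArithmeticFunction.moebius d : ℤ) : ℂ)) *
        ∑ m ∈ Ioc 0 (N / d), χ (m : ZMod q) * ((Real.log m : ℝ) : ℂ) := by
  let f : ArithmeticFunction ℂ :=
    ⟨fun n => χ (n : ZMod q) * ((ArithmeticFunction.moebius n : ℤ) : ℂ), by simp⟩
  let g : ArithmeticFunction ℂ := ⟨fun n => χ (n : ZMod q) * ((Real.log n : ℝ) : ℂ), by simp⟩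
  have key := ArithmeticFunction.sum_Ioc_mul_eq_sum_sum f g N
  have hfg : ∀ n, (f * g) n = χ (n : ZMod q) * (ArithmeticFunction.vonMangoldt n : ℂ) := by
    intro n
    rw [ArithmeticFunction.mul_apply]
    have e1 : ∀ p ∈ n.divisorsAntidiagonal, f p.1 * g p.2
        = χ (n : ZMod q) * ((((ArithmeticFunction.moebius p.1 : ℤ) : ℝ) * Real.log p.2 : ℝ) : ℂ) := by
      intro p hp
      obtain ⟨h2, h3⟩ := Nat.mem_divisorsAntidiagonal.mp hp
      change (χ (p.1 : ZMod q) * ((ArithmeticFunction.moebius p.1 : ℤ) : ℂ)) *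
        (χ (p.2 : ZMod q) * ((Real.log p.2 : ℝ) : ℂ)) = _
      rw [← h2]
      push_cast
      rw [map_mul]
      ring
    rw [Finset.sum_congr rfl e1, ← Finset.mul_sum, ← Complex.ofReal_sum]
    congr 2
    have h5 := congrArg (fun F : ArithmeticFunction ℝ => F n)
      ArithmeticFunction.moebius_mul_log_eq_vonMangoldt
    simp only [ArithmeticFunction.mul_apply] at h5
    rw [← h5]
    refine Finset.sum_congr rfl fun p hp => ?_
    simp [ArithmeticFunction.log_apply]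
  rw [Finset.sum_congr rfl fun n _ => hfg n] at key
  exact key

private theorem pc_trunc (f g : ℕ → ℂ) (N K : ℕ) :
    ∑ d ∈ Ioc 0 N, f d * ∑ m ∈ Ioc 0 (min (N / d) K), g m =
      ∑ m ∈ Ioc 0 K, g m * ∑ d ∈ Ioc 0 (N / m), f d := by
  have h1 : ∀ d ∈ Ioc 0 N, f d * ∑ m ∈ Ioc 0 (min (N / d) K), g m =
      ∑ m ∈ Ioc 0 K, if m ≤ N / d then g m * f d else 0 := by
    intro d _
    rw [← Finset.sum_filter, Finset.mul_sum]
    refine Finset.sum_congr ?_ fun m _ => mul_comm _ _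
    ext m
    simp only [Finset.mem_Ioc, Finset.mem_filter]
    omega
  rw [Finset.sum_congr rfl h1, Finset.sum_comm]
  refine Finset.sum_congr rfl fun m hm => ?_
  rw [← Finset.sum_filter, Finset.mul_sum]
  refine Finset.sum_congr ?_ fun d _ => rfl
  have hm1 := (Finset.mem_Ioc.1 hm).1
  ext d
  simp only [Finset.mem_Ioc, Finset.mem_filter]
  constructor
  · rintro ⟨⟨h2, h3⟩, h4⟩
    refine ⟨h2, ?_⟩
    rw [Nat.le_div_iff_mul_le h2] at h4
    rw [Nat.le_div_iff_mul_le hm1]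
    rwa [mul_comm]
  · rintro ⟨h2, h3⟩
    rw [Nat.le_div_iff_mul_le hm1] at h3
    refine ⟨⟨h2, ?_⟩, ?_⟩
    · exact le_trans (Nat.le_mul_of_pos_right d hm1) h3
    · rw [Nat.le_div_iff_mul_le h2]
      rwa [mul_comm]

/-- From `∑ μ χ = o(N)` (`t8_char` in `MP_3e612f_nt.MuPNTCore` with `tauber`):
`Λ χ = (μ χ) * (χ log)`, the partial sums of `χ log` are `O(1 + log y)` by Abel summation.
Hyperbola with a fixed parameter `K`: `∑_{d ≤ x/K} C (1 + log (x/d)) ≤ C (2 + log K) x / K`, and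
`∑_{m ≤ K} χ(m) log m (M(x/m) - M(x/K)) = o(x)`. -/
theorem psi_chi {q : ℕ} [NeZero q] (χ : DirichletCharacter ℂ q) (hχ : χ ≠ 1) :
    Tendsto (fun N : ℕ => (∑ n ∈ Icc 1 N, χ (n : ZMod q) * (ArithmeticFunction.vonMangoldt n : ℂ)) /
      (N : ℂ)) atTop (𝓝 0) := by
  have hIcc : ∀ N : ℕ, Icc 1 N = Ioc 0 N := fun N => by
    ext n; simp only [Finset.mem_Icc, Finset.mem_Ioc]; omega
  have hT := Pool.Agent.Lib.MP_3e612f_nt.SA.t8_char
    (fun _ hf G hG hGf => Pool.Agent.Lib.MP_3e612f_nt.SA.tauber hf G hG hGf) χ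
  simp only [hIcc] at hT ⊢
  obtain ⟨C, hC0, hC⟩ := pc_F χ hχ
  set f : ℕ → ℂ := fun d => χ (d : ZMod q) * ((ArithmeticFunction.moebius d : ℤ) : ℂ) with hfdef
  set g : ℕ → ℂ := fun m => χ (m : ZMod q) * ((Real.log m : ℝ) : ℂ) with hgdef
  have hf1 : ∀ n : ℕ, ‖f n‖ ≤ 1 := by
    intro n
    simp only [hfdef]
    rw [norm_mul]
    calc _ ≤ 1 * 1 := mul_le_mul (χ.norm_le_one _)
            (Pool.Agent.Lib.MP_3e612f_nt.DS.hH_mu_norm n) (norm_nonneg _) (by norm_num)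
      _ = 1 := one_mul _
  -- the sums of `f`
  have hM : ∀ m : ℕ, 0 < m → Tendsto (fun N : ℕ => ‖∑ d ∈ Ioc 0 (N / m), f d‖ / (N : ℝ)) atTop
      (𝓝 0) := by
    intro m hm
    have h1 : Tendsto (fun N : ℕ => ‖(∑ d ∈ Ioc 0 (N / m), f d) / ((N / m : ℕ) : ℂ)‖) atTop
        (𝓝 0) := by
      have := (hT.comp (Nat.tendsto_div_const_atTop hm.ne')).norm
      simpa using this
    refine squeeze_zero (fun N => by positivity) (fun N => ?_) h1
    rcases Nat.eq_zero_or_pos (N / m) with h0 | h0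
    · rw [h0]; simp
    · rw [norm_div, Complex.norm_natCast]
      have h2 : (0 : ℝ) < ((N / m : ℕ) : ℝ) := by exact_mod_cast h0
      have h3 : ((N / m : ℕ) : ℝ) ≤ N := by exact_mod_cast Nat.div_le_self N m
      exact div_le_div_of_nonneg_left (norm_nonneg _) h2 h3
  -- the remainder
  have hR : ∀ K N : ℕ, 0 < K → 0 < N →
      ‖∑ n ∈ Ioc 0 N, χ (n : ZMod q) * (ArithmeticFunction.vonMangoldt n : ℂ) -
        ∑ m ∈ Ioc 0 K, g m * ∑ d ∈ Ioc 0 (N / m), f d‖ ≤ 4 * C * N / Real.sqrt K := by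
    intro K N hK hN
    rw [pc_hyp χ N, ← pc_trunc f g N K, ← Finset.sum_sub_distrib]
    have hKr : (0 : ℝ) < K := by exact_mod_cast hK
    have hNr : (0 : ℝ) < N := by exact_mod_cast hN
    have h1 : ∀ d ∈ Ioc 0 N, ‖f d * ∑ m ∈ Ioc 0 (N / d), g m -
        f d * ∑ m ∈ Ioc 0 (min (N / d) K), g m‖ ≤
        if d ≤ N / K then 2 * C * Real.sqrt N * (1 / Real.sqrt d) else 0 := by
      intro d hd
      have hd0 := (Finset.mem_Ioc.1 hd).1
      have hdr : (0 : ℝ) < d := by exact_mod_cast hd0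
      split_ifs with h2
      · rw [← mul_sub, norm_mul]
        have hK2 : K ≤ N / d := by
          rw [Nat.le_div_iff_mul_le hK] at h2
          rw [Nat.le_div_iff_mul_le hd0]
          rwa [mul_comm]
        rw [min_eq_right hK2]
        have h3 : ‖∑ m ∈ Ioc 0 (N / d), g m - ∑ m ∈ Ioc 0 K, g m‖ ≤
            C * Real.sqrt ((N / d : ℕ) : ℝ) + C * Real.sqrt K :=
          (norm_sub_le _ _).trans (add_le_add (hC _) (hC _))
        have h4 : Real.sqrt K ≤ Real.sqrt ((N / d : ℕ) : ℝ) :=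
          Real.sqrt_le_sqrt (by exact_mod_cast hK2)
        have h5 : Real.sqrt ((N / d : ℕ) : ℝ) ≤ Real.sqrt N * (1 / Real.sqrt d) := by
          rw [mul_one_div, ← Real.sqrt_div hNr.le]
          exact Real.sqrt_le_sqrt Nat.cast_div_le
        have h6 : ‖∑ m ∈ Ioc 0 (N / d), g m - ∑ m ∈ Ioc 0 K, g m‖ ≤
            2 * C * Real.sqrt N * (1 / Real.sqrt d) := by
          refine h3.trans ?_
          nlinarith [mul_le_mul_of_nonneg_left h4 hC0, mul_le_mul_of_nonneg_left h5 hC0]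
        calc ‖f d‖ * ‖∑ m ∈ Ioc 0 (N / d), g m - ∑ m ∈ Ioc 0 K, g m‖
            ≤ 1 * ‖∑ m ∈ Ioc 0 (N / d), g m - ∑ m ∈ Ioc 0 K, g m‖ :=
              mul_le_mul_of_nonneg_right (hf1 d) (norm_nonneg _)
          _ ≤ _ := by rw [one_mul]; exact h6
      · have h3 : N / d ≤ K := by
          by_contra hc
          push Not at hc
          apply h2
          rw [Nat.le_div_iff_mul_le hK]
          have h4 : K ≤ N / d := hc.le
          rw [Nat.le_div_iff_mul_le hd0] at h4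
          rwa [mul_comm]
        rw [min_eq_left h3, sub_self, norm_zero]
    refine (norm_sum_le _ _).trans ((Finset.sum_le_sum h1).trans ?_)
    rw [← Finset.sum_filter]
    have h7 : (Ioc 0 N).filter (fun d => d ≤ N / K) = Ioc 0 (N / K) := by
      ext d
      simp only [Finset.mem_filter, Finset.mem_Ioc]
      have := Nat.div_le_self N K
      omega
    rw [h7, ← Finset.mul_sum]
    have h8 := pc_sum (N / K)
    have h9 : Real.sqrt ((N / K : ℕ) : ℝ) ≤ Real.sqrt N / Real.sqrt K := by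
      rw [← Real.sqrt_div hNr.le]
      exact Real.sqrt_le_sqrt Nat.cast_div_le
    have hsN : 0 ≤ Real.sqrt (N : ℝ) := Real.sqrt_nonneg _
    have hsK : 0 < Real.sqrt (K : ℝ) := Real.sqrt_pos.2 hKr
    calc 2 * C * Real.sqrt N * ∑ d ∈ Ioc 0 (N / K), 1 / Real.sqrt d
        ≤ 2 * C * Real.sqrt N * (2 * (Real.sqrt N / Real.sqrt K)) :=
          mul_le_mul_of_nonneg_left (h8.trans (by linarith)) (by positivity)
      _ = 4 * C * (Real.sqrt N * Real.sqrt N) / Real.sqrt K := by ring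
      _ = 4 * C * N / Real.sqrt K := by rw [Real.mul_self_sqrt hNr.le]
  -- the conclusion
  rw [Metric.tendsto_atTop]
  intro ε hε
  obtain ⟨K, hK⟩ := exists_nat_gt ((8 * C / ε) ^ 2)
  have hK0 : 0 < K := by
    have : (0 : ℝ) < K := lt_of_le_of_lt (by positivity) hK
    exact_mod_cast this
  have hsK : 8 * C / ε < Real.sqrt K := by
    rw [Real.lt_sqrt (by positivity)]
    exact hK
  have hKr : 0 < Real.sqrt (K : ℝ) := Real.sqrt_pos.2 (by exact_mod_cast hK0)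
  have hfin : Tendsto (fun N : ℕ => ∑ m ∈ Ioc 0 K, ‖g m‖ *
      (‖∑ d ∈ Ioc 0 (N / m), f d‖ / (N : ℝ))) atTop (𝓝 0) := by
    have h1 : Tendsto (fun N : ℕ => ∑ m ∈ Ioc 0 K, ‖g m‖ *
        (‖∑ d ∈ Ioc 0 (N / m), f d‖ / (N : ℝ))) atTop (𝓝 (∑ m ∈ Ioc 0 K, ‖g m‖ * 0)) :=
      tendsto_finsetSum _ fun m hm => (hM m (Finset.mem_Ioc.1 hm).1).const_mul _
    simpa using h1
  obtain ⟨N0, hN0⟩ := (Metric.tendsto_atTop.1 hfin) (ε / 2) (by positivity)
  refine ⟨max N0 1, fun N hN => ?_⟩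
  have hN1 : 0 < N := lt_of_lt_of_le one_pos ((le_max_right _ _).trans hN)
  have hNr : (0 : ℝ) < N := by exact_mod_cast hN1
  have h2 := hN0 N ((le_max_left _ _).trans hN)
  rw [Real.dist_eq, sub_zero] at h2
  have h3 := lt_of_abs_lt h2
  rw [dist_zero_right, norm_div, Complex.norm_natCast, div_lt_iff₀ hNr]
  have h4 := hR K N hK0 hN1
  have h5 : ‖∑ m ∈ Ioc 0 K, g m * ∑ d ∈ Ioc 0 (N / m), f d‖ ≤
      (∑ m ∈ Ioc 0 K, ‖g m‖ * (‖∑ d ∈ Ioc 0 (N / m), f d‖ / (N : ℝ))) * N := by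
    rw [Finset.sum_mul]
    refine (norm_sum_le _ _).trans (Finset.sum_le_sum fun m _ => ?_)
    rw [norm_mul, mul_assoc, div_mul_cancel₀ _ hNr.ne']
  have h6 : 4 * C * N / Real.sqrt K < ε / 2 * N := by
    rw [div_lt_iff₀ hKr]
    rw [div_lt_iff₀ hε] at hsK
    nlinarith [mul_lt_mul_of_pos_right hsK hNr]
  have h7 := norm_sub_norm_le (∑ n ∈ Ioc 0 N, χ (n : ZMod q) *
    (ArithmeticFunction.vonMangoldt n : ℂ)) (∑ m ∈ Ioc 0 K, g m * ∑ d ∈ Ioc 0 (N / m), f d)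
  nlinarith [mul_lt_mul_of_pos_right h3 hNr]

end Pool.Agent.Lib.MP_629a14_nt.Rob
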