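import Pool.Agent.Lib.MP_629a14_nt.Rob.Mert
import Pool.Agent.Lib.MP_629a14_nt.Rob.VBound

/-! Lower bound for the Selberg sum by Rankin's trick. -/

set_option autoImplicit false

namespace Pool.Agent.Lib.MP_629a14_nt.Rob

open Finset Pool.Agent.Lib.MP_629a14_nt

/-- Product of the primes `p < z` not dividing `q`. -/
def Pq (q z : ℕ) : ℕ := ∏ p ∈ (range z).filter (fun p => p.Prime ∧ ¬ p ∣ q), p

theorem Pq_squarefree (q z : ℕ) : Squarefree (Pq q z) := by
  unfold Pq
  refine Finset.squarefree_prod_of_pairwise_isCoprime (fun p hp q' hq hpq => ?_) (fun p hp => ?_)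
  · have hp' : p.Prime := (mem_filter.1 hp).2.1
    have hq' : q'.Prime := (mem_filter.1 hq).2.1
    exact Nat.coprime_iff_isRelPrime.1 ((Nat.coprime_primes hp' hq').2 hpq)
  · exact (mem_filter.1 hp).2.1.squarefree

theorem prime_dvd_Pq {q z p : ℕ} (hp : p.Prime) : p ∣ Pq q z ↔ p < z ∧ ¬ p ∣ q := by
  unfold Pq
  rw [hp.prime.dvd_finsetProd_iff]
  constructor
  · rintro ⟨r, hr, hpr⟩
    rw [mem_filter, mem_range] at hr
    rw [(Nat.prime_dvd_prime_iff_eq hp hr.2.1).1 hpr]
    exact ⟨hr.1, hr.2.2⟩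
  · rintro ⟨h1, h2⟩
    exact ⟨p, mem_filter.2 ⟨mem_range.2 h1, hp, h2⟩, dvd_rfl⟩

private theorem rankin_primes (q z : ℕ) :
    (Pq q z).primeFactors = (range z).filter (fun p => p.Prime ∧ ¬ p ∣ q) := by
  unfold Pq
  exact Nat.primeFactors_prod (fun p hp => (mem_filter.1 hp).2.1)

/-- the arithmetic function `d^δ / φ(d)` -/
private noncomputable def rankinF (δ : ℝ) : ArithmeticFunction ℝ :=
  ⟨fun d => (d : ℝ) ^ δ / (d.totient : ℝ), by simp⟩

private theorem rankinF_apply (δ : ℝ) (d : ℕ) : rankinF δ d = (d : ℝ) ^ δ / (d.totient : ℝ) := rfl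

private theorem rankinF_mult (δ : ℝ) : (rankinF δ).IsMultiplicative := by
  refine ⟨by simp [rankinF_apply], ?_⟩
  intro m n hmn
  rw [rankinF_apply, rankinF_apply, rankinF_apply, Nat.totient_mul hmn]
  push_cast
  rw [Real.mul_rpow (Nat.cast_nonneg m) (Nat.cast_nonneg n)]
  rw [mul_div_mul_comm]

private theorem rankin_sum (δ : ℝ) (q z : ℕ) :
    ∑ d ∈ (Pq q z).divisors, (d : ℝ) ^ δ / (d.totient : ℝ)
      = ∏ p ∈ (range z).filter (fun p => p.Prime ∧ ¬ p ∣ q), (1 + (p : ℝ) ^ δ / ((p : ℝ) - 1)) := by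
  have h := (rankinF_mult δ).prodPrimeFactors_one_add_of_squarefree (Pq_squarefree q z)
  rw [rankin_primes] at h
  simp only [rankinF_apply δ] at h
  rw [← h]
  refine prod_congr rfl fun p hp => ?_
  have hp' := (mem_filter.1 hp).2.1
  rw [Nat.totient_prime hp', Nat.cast_sub hp'.one_lt.le, Nat.cast_one]

private theorem rankin_exp {x : ℝ} (h0 : 0 ≤ x) (h1 : x ≤ 1) : Real.exp x - 1 ≤ 2 * x := by
  have h := (abs_le.1 (Real.abs_exp_sub_one_sub_id_le (abs_le.2 ⟨by linarith, h1⟩))).2
  nlinarith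

/-- `∑_{d | P} 1/φ(d) = ∏ (1 + 1/(p-1)) = V_q(z)⁻¹`, and the `d > R` contribute at most
`R^(-δ) ∏ (1 + p^δ/(p-1)) ≤ R^(-δ) V_q(z)⁻¹ exp (∑_{p < z} (p^δ - 1)/p)` with `δ = 1 / log z`;
`p^δ - 1 ≤ 2 log p / log z` for `p ≤ z`, then `mert`. -/
theorem rankin : ∃ C₀ : ℝ, 1 ≤ C₀ ∧ ∀ q z R : ℕ, 1 ≤ q → 2 ≤ z → 1 ≤ R →
    (1 - C₀ * Real.exp (-(Real.log R / Real.log z))) * (Vq q z)⁻¹ ≤
      ∑ d ∈ (Pq q z).divisors.filter (fun d => d ≤ R), 1 / (d.totient : ℝ) := by
  refine ⟨Real.exp 20, Real.one_le_exp (by norm_num), ?_⟩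
  intro q z R hq hz hR
  set S := (range z).filter (fun p => p.Prime ∧ ¬ p ∣ q) with hS
  have hlz : 0 < Real.log z := Real.log_pos (by exact_mod_cast (by omega : 1 < z))
  set δ : ℝ := 1 / Real.log z with hδ
  have hδ0 : 0 < δ := by positivity
  have hR0 : (0 : ℝ) < R := by exact_mod_cast (by omega : 0 < R)
  have hp2 : ∀ p ∈ S, (2 : ℝ) ≤ p := fun p hp => by
    exact_mod_cast (mem_filter.1 hp).2.1.two_le
  -- the full sum
  have hfull : ∑ d ∈ (Pq q z).divisors, 1 / (d.totient : ℝ) = (Vq q z)⁻¹ := by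
    have h := rankin_sum 0 q z
    simp only [Real.rpow_zero] at h
    rw [h]
    unfold Vq
    rw [← prod_inv_distrib]
    refine prod_congr rfl fun p hp => ?_
    have := hp2 p hp
    have h1 : (p : ℝ) - 1 ≠ 0 := by linarith
    have h2 : (p : ℝ) ≠ 0 := by linarith
    have h3 : (1 - 1 / (p : ℝ)) ≠ 0 := by
      rw [sub_ne_zero]
      intro h4
      rw [eq_div_iff h2] at h4
      linarith
    have h5 : 1 - 1 / (p : ℝ) = ((p : ℝ) - 1) / p := by field_simp
    rw [h5, inv_div]
    field_simp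
    ring
  have hVpos := Vq_pos q z
  -- the tail
  have htail : ∑ d ∈ (Pq q z).divisors.filter (fun d => ¬ d ≤ R), 1 / (d.totient : ℝ)
      ≤ Real.exp 20 * Real.exp (-(Real.log R / Real.log z)) * (Vq q z)⁻¹ := by
    have hRδ : (R : ℝ) ^ δ = Real.exp (Real.log R / Real.log z) := by
      rw [Real.rpow_def_of_pos hR0, hδ]
      congr 1
      ring
    have h1 : ∑ d ∈ (Pq q z).divisors.filter (fun d => ¬ d ≤ R), 1 / (d.totient : ℝ)
        ≤ ∑ d ∈ (Pq q z).divisors,
          Real.exp (-(Real.log R / Real.log z)) * ((d : ℝ) ^ δ / (d.totient : ℝ)) := by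
      calc _ ≤ ∑ d ∈ (Pq q z).divisors.filter (fun d => ¬ d ≤ R),
            Real.exp (-(Real.log R / Real.log z)) * ((d : ℝ) ^ δ / (d.totient : ℝ)) := by
            apply sum_le_sum
            intro d hd
            obtain ⟨hd1, hd2⟩ := mem_filter.1 hd
            have hd3 : (R : ℝ) ≤ d := by exact_mod_cast (by omega : R ≤ d)
            have hd4 : (R : ℝ) ^ δ ≤ (d : ℝ) ^ δ := Real.rpow_le_rpow hR0.le hd3 hδ0.le
            rw [hRδ] at hd4
            have h5 : 1 ≤ Real.exp (-(Real.log R / Real.log z)) * (d : ℝ) ^ δ := by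
              rw [Real.exp_neg, inv_mul_eq_div, le_div_iff₀ (Real.exp_pos _), one_mul]
              exact hd4
            rw [← mul_div_assoc]
            exact div_le_div_of_nonneg_right h5 (Nat.cast_nonneg _)
        _ ≤ _ := by
            apply sum_le_sum_of_subset_of_nonneg (filter_subset _ _)
            intro d _ _
            positivity
    rw [← mul_sum, rankin_sum] at h1
    have h2 : ∏ p ∈ S, (1 + (p : ℝ) ^ δ / ((p : ℝ) - 1)) ≤ Real.exp 20 * (Vq q z)⁻¹ := by
      have h3 : ∏ p ∈ S, (1 + (p : ℝ) ^ δ / ((p : ℝ) - 1))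
          ≤ ∏ p ∈ S, (Real.exp (2 * δ * (Real.log p / p)) * (1 - 1 / (p : ℝ))⁻¹) := by
        apply prod_le_prod
        · intro p hp
          have := hp2 p hp
          have h4 : (0 : ℝ) ≤ (p : ℝ) - 1 := by linarith
          positivity
        · intro p hp
          have hpz : p < z := mem_range.1 (mem_filter.1 hp).1
          have hp2' := hp2 p hp
          have hp0 : (0 : ℝ) < p := by linarith
          have hp1 : (0 : ℝ) < (p : ℝ) - 1 := by linarith
          have hlp : 0 ≤ Real.log p := Real.log_nonneg (by linarith)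
          have hlpz : Real.log p ≤ Real.log z :=
            Real.log_le_log hp0 (by exact_mod_cast hpz.le)
          have hx0 : 0 ≤ Real.log p * δ := by positivity
          have hx1 : Real.log p * δ ≤ 1 := by
            rw [hδ, mul_one_div, div_le_one hlz]
            exact hlpz
          have h4 : (p : ℝ) ^ δ - 1 ≤ 2 * (Real.log p * δ) := by
            rw [Real.rpow_def_of_pos hp0]
            exact rankin_exp hx0 hx1
          have h5 : 1 + (p : ℝ) ^ δ / ((p : ℝ) - 1)
              = (1 + ((p : ℝ) ^ δ - 1) / p) * (1 - 1 / (p : ℝ))⁻¹ := by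
            have h6 : (1 - 1 / (p : ℝ))⁻¹ = p / ((p : ℝ) - 1) := by
              rw [inv_eq_one_div]
              field_simp
            rw [h6]
            field_simp
            ring
          rw [h5]
          have h7 : 0 ≤ (1 - 1 / (p : ℝ))⁻¹ := by
            apply inv_nonneg.2
            rw [sub_nonneg, div_le_one hp0]
            linarith
          apply mul_le_mul_of_nonneg_right _ h7
          have h8 : ((p : ℝ) ^ δ - 1) / p ≤ 2 * δ * (Real.log p / p) := by
            rw [← mul_div_assoc]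
            apply div_le_div_of_nonneg_right _ hp0.le
            linarith
          calc 1 + ((p : ℝ) ^ δ - 1) / p ≤ 1 + 2 * δ * (Real.log p / p) := by linarith
            _ ≤ Real.exp (2 * δ * (Real.log p / p)) := by
              have := Real.add_one_le_exp (2 * δ * (Real.log p / p))
              linarith
      refine h3.trans ?_
      rw [prod_mul_distrib, ← Real.exp_sum]
      have h9 : ∏ p ∈ S, (1 - 1 / (p : ℝ))⁻¹ = (Vq q z)⁻¹ := by
        unfold Vq
        rw [← prod_inv_distrib]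
      rw [h9]
      apply mul_le_mul_of_nonneg_right _ (inv_nonneg.2 hVpos.le)
      apply Real.exp_le_exp.2
      rw [← mul_sum]
      have h10 : ∑ p ∈ S, Real.log p / p ≤ Real.log z + 6 := by
        refine le_trans ?_ (mert z (by omega))
        apply sum_le_sum_of_subset_of_nonneg
        · intro p hp
          rw [mem_filter] at hp ⊢
          exact ⟨hp.1, hp.2.1⟩
        · intro p hp _
          have : (1 : ℝ) ≤ p := by exact_mod_cast (mem_filter.1 hp).2.one_lt.le
          exact div_nonneg (Real.log_nonneg this) (by linarith)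
      have h11 : (0.6931471803 : ℝ) < Real.log 2 := Real.log_two_gt_d9
      have h12 : Real.log 2 ≤ Real.log z :=
        Real.log_le_log (by norm_num) (by exact_mod_cast hz)
      calc 2 * δ * ∑ p ∈ S, Real.log p / p ≤ 2 * δ * (Real.log z + 6) :=
            mul_le_mul_of_nonneg_left h10 (by positivity)
        _ = 2 + 12 * (1 / Real.log z) := by
            rw [hδ]
            field_simp
            ring
        _ ≤ 20 := by
            have h13 : 1 / Real.log z ≤ 3 / 2 := by
              rw [div_le_iff₀ hlz]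
              linarith
            linarith
    calc _ ≤ Real.exp (-(Real.log R / Real.log z)) *
          ∏ p ∈ S, (1 + (p : ℝ) ^ δ / ((p : ℝ) - 1)) := h1
      _ ≤ Real.exp (-(Real.log R / Real.log z)) * (Real.exp 20 * (Vq q z)⁻¹) :=
          mul_le_mul_of_nonneg_left h2 (Real.exp_pos _).le
      _ = _ := by ring
  have hsplit := sum_filter_add_sum_filter_not (Pq q z).divisors (fun d => d ≤ R)
    (fun d => 1 / (d.totient : ℝ))
  rw [hfull] at hsplit
  have : (1 - Real.exp 20 * Real.exp (-(Real.log R / Real.log z))) * (Vq q z)⁻¹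
      = (Vq q z)⁻¹ - Real.exp 20 * Real.exp (-(Real.log R / Real.log z)) * (Vq q z)⁻¹ := by ring
  rw [this]
  linarith

end Pool.Agent.Lib.MP_629a14_nt.Rob
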