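import Pool.Agent.Lib.MP_629a14_nt.Rob.ScaleOne

/-! The exceptional set on all scales. -/

set_option autoImplicit false

namespace Pool.Agent.Lib.MP_629a14_nt.Rob

open Finset Pool.Agent.Lib.MP_629a14_nt

/-- Cover `[2 δ N, N]` by the intervals `(y, min (y + h) N]`, `y = j h`, `h = ⌈N / J⌉`,
`J = ⌈200/(ε δ)⌉`, with `y ≥ δ N`, and apply `scaleOne` to each: the total is at most
`exp (-ε w/2) (N + (J + 1) primorial v)`. -/
theorem scale (ε : ℝ) (hε : 0 < ε) (hε1 : ε ≤ 1) : ∃ w₀ : ℕ, ∀ w v : ℕ, w₀ ≤ w → w ≤ v →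
    ∀ δ : ℝ, 0 < δ → δ ≤ 1 → ∃ N₀ : ℕ, ∀ N : ℕ, N₀ ≤ N → ∀ B₁ B₂ : Set ℕ,
      (∀ x : ℕ, δ * N ≤ x → x ≤ N →
        (cntB B₁ x : ℝ) + cntB B₂ x ≤ (1 - ε) * Del w * cntB Set.univ x) →
          (((Icc 1 N).filter (fun n : ℕ => 2 * δ * N ≤ n ∧ 2 ∣ n ∧
            (1 - ε / 5) * (n * sig v n) ≤ fB v N B₁ n + fB v N B₂ n)).card : ℝ) ≤
              2 * Real.exp (-(ε * w / 2)) * N := by
  obtain ⟨w₀, hw₀⟩ := scaleOne ε hε hε1
  refine ⟨w₀, fun w v hw hwv δ hδ hδ1 => ?_⟩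
  obtain ⟨N₁, hN₁⟩ := hw₀ w v hw hwv δ hδ hδ1
  set J : ℕ := ⌈200 / (ε * δ)⌉₊ with hJ
  have hεδ : 0 < ε * δ := mul_pos hε hδ
  have hJr : 200 / (ε * δ) ≤ (J : ℝ) := Nat.le_ceil _
  have hJ0r : (0 : ℝ) < J := lt_of_lt_of_le (by positivity) hJr
  have hJ0 : 0 < J := by exact_mod_cast hJ0r
  refine ⟨max N₁ (max J (J * primorial v)), fun N hN B₁ B₂ hB => ?_⟩
  have hNN₁ : N₁ ≤ N := (le_max_left _ _).trans hN
  have hNJ : J ≤ N := ((le_max_left _ _).trans (le_max_right _ _)).trans hN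
  have hNP : J * primorial v ≤ N := ((le_max_right _ _).trans (le_max_right _ _)).trans hN
  have hN0 : 0 < N := lt_of_lt_of_le hJ0 hNJ
  have hNr : (0 : ℝ) < N := by exact_mod_cast hN0
  have hNJr : 200 / (ε * δ) ≤ (N : ℝ) := hJr.trans (by exact_mod_cast hNJ)
  have hNε : 200 ≤ N * (ε * δ) := by rwa [div_le_iff₀ hεδ] at hNJr
  set h : ℕ := N / J + 1 with hh
  have hh0 : 0 < h := Nat.succ_pos _
  have hhJ : N < J * h := by
    rw [hh, mul_comm]
    have := Nat.lt_mul_div_succ N hJ0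
    rwa [mul_comm] at this
  -- `h ≤ ε δ N / 100`
  have hhr : (h : ℝ) ≤ ε * δ * N / 100 := by
    have h1 : ((N / J : ℕ) : ℝ) ≤ N / J := Nat.cast_div_le
    have h2 : (N : ℝ) / J ≤ ε * δ * N / 200 := by
      rw [div_le_div_iff₀ hJ0r (by norm_num)]
      rw [div_le_iff₀ hεδ] at hJr
      nlinarith
    have h3 : (h : ℝ) = ((N / J : ℕ) : ℝ) + 1 := by rw [hh]; push_cast; ring
    rw [h3]
    linarith
  have hhδ : (h : ℝ) ≤ δ * N := by
    have h1 : ε * δ * N ≤ δ * N := by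
      have : ε * (δ * N) ≤ 1 * (δ * N) := mul_le_mul_of_nonneg_right hε1 (by positivity)
      linarith
    have h2 : 0 ≤ δ * N := by positivity
    linarith
  set y : ℕ → ℕ := fun j => min (j * h) N with hy
  have hymono : ∀ j, y j ≤ y (j + 1) := by
    intro j
    simp only [hy]
    exact min_le_min (Nat.mul_le_mul_right h (Nat.le_succ j)) le_rfl
  have hystep : ∀ j, y (j + 1) ≤ y j + h := by
    intro j
    simp only [hy]
    have h1 : (j + 1) * h = j * h + h := by ring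
    rw [h1]
    omega
  have hyN : ∀ j, y j ≤ N := fun j => min_le_right _ _
  set E : ℝ := Real.exp (-(ε * w / 2)) with hE
  have hE0 : 0 < E := Real.exp_pos _
  set Q : ℕ → Prop := fun n => 2 ∣ n ∧
    (1 - ε / 5) * (n * sig v n) ≤ fB v N B₁ n + fB v N B₂ n with hQ
  classical
  have hone : ∀ j, δ * N ≤ y j →
      (((Ioc (y j) (y (j + 1))).filter Q).card : ℝ) ≤
        E * (((y (j + 1) : ℕ) : ℝ) - (y j : ℕ) + primorial v) := by
    intro j hj
    have h1 : ((y (j + 1) : ℕ) : ℝ) ≤ (1 + ε / 100) * (y j : ℕ) := by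
      have h2 : ((y (j + 1) : ℕ) : ℝ) ≤ (y j : ℕ) + h := by exact_mod_cast hystep j
      have h3 : ε * (δ * N) ≤ ε * (y j : ℕ) := mul_le_mul_of_nonneg_left hj hε.le
      linarith
    have h4 := hN₁ N hNN₁ (y j) (y (j + 1)) hj (hymono j) (hyN _) h1 B₁ B₂
      (hB (y (j + 1)) (hj.trans (by exact_mod_cast hymono j)) (hyN _))
    convert h4 using 1
  have hsub : (Icc 1 N).filter (fun n : ℕ => 2 * δ * N ≤ n ∧ 2 ∣ n ∧
      (1 - ε / 5) * (n * sig v n) ≤ fB v N B₁ n + fB v N B₂ n) ⊆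
      ((range J).filter (fun j => δ * N ≤ y j)).biUnion
        (fun j => (Ioc (y j) (y (j + 1))).filter Q) := by
    intro n hn
    simp only [mem_filter, mem_Icc] at hn
    obtain ⟨⟨hn1, hnN⟩, hnδ, hnQ⟩ := hn
    simp only [mem_biUnion, mem_filter, mem_range, mem_Ioc]
    have e1 : (n - 1) / h * h ≤ n - 1 := Nat.div_mul_le_self _ _
    have e2 : n - 1 < ((n - 1) / h + 1) * h := by
      have := Nat.lt_mul_div_succ (n - 1) hh0
      rwa [mul_comm] at this
    set j := (n - 1) / h with hj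
    have hyj : y j = j * h := by
      simp only [hy]
      exact min_eq_left (by omega)
    have e3 : n ≤ (j + 1) * h := by omega
    have e4 : (j + 1) * h = j * h + h := by ring
    refine ⟨j, ⟨?_, ?_⟩, ⟨?_, ?_⟩, hnQ⟩
    · by_contra hcon
      have h1 : J * h ≤ j * h := Nat.mul_le_mul_right h (not_lt.mp hcon)
      omega
    · rw [hyj]
      have h1 : (n : ℝ) ≤ ((j * h : ℕ) : ℝ) + h := by
        have : n ≤ j * h + h := by omega
        exact_mod_cast this
      linarith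
    · rw [hyj]
      omega
    · simp only [hy]
      exact le_min e3 hnN
  calc (((Icc 1 N).filter (fun n : ℕ => 2 * δ * N ≤ n ∧ 2 ∣ n ∧
            (1 - ε / 5) * (n * sig v n) ≤ fB v N B₁ n + fB v N B₂ n)).card : ℝ)
      ≤ ((((range J).filter (fun j => δ * N ≤ y j)).biUnion
        (fun j => (Ioc (y j) (y (j + 1))).filter Q)).card : ℝ) := by
        exact_mod_cast card_le_card hsub
    _ ≤ ((∑ j ∈ (range J).filter (fun j => δ * N ≤ y j),
        ((Ioc (y j) (y (j + 1))).filter Q).card : ℕ) : ℝ) := by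
        exact_mod_cast card_biUnion_le
    _ = ∑ j ∈ (range J).filter (fun j => δ * N ≤ y j),
        (((Ioc (y j) (y (j + 1))).filter Q).card : ℝ) := by push_cast; rfl
    _ ≤ ∑ j ∈ (range J).filter (fun j => δ * N ≤ y j),
        E * (((y (j + 1) : ℕ) : ℝ) - (y j : ℕ) + primorial v) :=
        sum_le_sum fun j hj => hone j (mem_filter.mp hj).2
    _ ≤ ∑ j ∈ range J, E * (((y (j + 1) : ℕ) : ℝ) - (y j : ℕ) + primorial v) := by
        refine sum_le_sum_of_subset_of_nonneg (filter_subset _ _) fun j _ _ => ?_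
        have h1 : ((y j : ℕ) : ℝ) ≤ (y (j + 1) : ℕ) := by exact_mod_cast hymono j
        have h2 : (0 : ℝ) ≤ primorial v := by positivity
        exact mul_nonneg hE0.le (by linarith)
    _ = E * (((y J : ℕ) : ℝ) - (y 0 : ℕ) + J * primorial v) := by
        rw [← mul_sum, sum_add_distrib, Finset.sum_range_sub (fun j => ((y j : ℕ) : ℝ)), sum_const,
          card_range, nsmul_eq_mul]
    _ ≤ E * (N + N) := by
        refine mul_le_mul_of_nonneg_left ?_ hE0.le
        have h1 : ((y J : ℕ) : ℝ) ≤ N := by exact_mod_cast hyN J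
        have h2 : (0 : ℝ) ≤ (y 0 : ℕ) := Nat.cast_nonneg _
        have h3 : (J : ℝ) * primorial v ≤ N := by exact_mod_cast hNP
        linarith
    _ = 2 * E * N := by ring

end Pool.Agent.Lib.MP_629a14_nt.Rob
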