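import Pool.Agent.Lib.MP_629a14_nt.Rob.NuWt
import Pool.Agent.Lib.MP_629a14_nt.Rob.SigLow

/-! The exceptional set in a short interval. -/

set_option autoImplicit false

namespace Pool.Agent.Lib.MP_629a14_nt.Rob

open Finset Pool.Agent.Lib.MP_629a14_nt

private theorem scaleOne_log (c : ℝ) (hc : 0 < c) : ∃ N₀ : ℕ, ∀ N : ℕ, N₀ ≤ N →
    Real.log N ≤ c * N := by
  have h1 := PiAP.log_pow_div 1
  have h2 := Metric.tendsto_nhds.1 h1 c hc
  obtain ⟨N₀, hN₀⟩ := Filter.eventually_atTop.1 h2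
  refine ⟨max N₀ 1, fun N hN => ?_⟩
  have h3 := hN₀ N (le_trans (le_max_left _ _) hN)
  have hN1 : 1 ≤ N := le_trans (le_max_right _ _) hN
  have hNpos : (0 : ℝ) < N := by exact_mod_cast hN1
  rw [Real.dist_eq, sub_zero, pow_one] at h3
  have h4 := (abs_lt.1 h3).2
  rw [div_lt_iff₀ hNpos] at h4
  exact h4.le

private theorem scaleOne_card_UU_pos (v : ℕ) : (0 : ℝ) < ((UU v).card : ℝ) := by
  rw [card_UU]
  refine Finset.prod_pos fun i _ => ?_
  have h := (mem_Icc.1 (mem_filter.1 i.2).1).1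
  have h2 : (3 : ℝ) ≤ ((i : ℕ) : ℝ) := by exact_mod_cast h
  linarith

private theorem scaleOne_wt_nonneg (v : ℕ) (n a : XX v) :
    0 ≤ wt (fun i : Idx v => (i : ℕ)) n a := by
  unfold wt
  refine Finset.prod_nonneg fun i _ => ?_
  unfold wp
  have h := (mem_Icc.1 (mem_filter.1 i.2).1).1
  have h2 : (3 : ℝ) ≤ ((i : ℕ) : ℝ) := by exact_mod_cast h
  split_ifs
  · exact zero_le_one
  · exact le_rfl
  · apply div_nonneg <;> linarith

private theorem scaleOne_count (v y x : ℕ) (hv : 2 ≤ v) (hyx : y ≤ x) (P : ℕ → Prop)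
    [DecidablePred P] (E : Finset (XX v))
    (hE : ∀ n, y < n → n ≤ x → 2 ∣ n → P n → pr v n ∈ E) :
    (((Ioc y x).filter (fun n => 2 ∣ n ∧ P n)).card : ℝ) ≤
      (E.card : ℝ) * (((x : ℝ) - y) / primorial v + 1) := by
  classical
  have hsub : (Ioc y x).filter (fun n => 2 ∣ n ∧ P n) ⊆
      E.biUnion (fun e => (Ioc y (y + (x - y))).filter (fun n => 2 ∣ n ∧ pr v n = e)) := by
    intro n hn
    rw [mem_filter, mem_Ioc] at hn
    rw [mem_biUnion]
    refine ⟨pr v n, hE n hn.1.1 hn.1.2 hn.2.1 hn.2.2, ?_⟩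
    rw [mem_filter, mem_Ioc]
    refine ⟨⟨hn.1.1, ?_⟩, hn.2.1, rfl⟩
    omega
  have h1 : ((Ioc y x).filter (fun n => 2 ∣ n ∧ P n)).card ≤
      ∑ e ∈ E, ((Ioc y (y + (x - y))).filter (fun n => 2 ∣ n ∧ pr v n = e)).card :=
    (card_le_card hsub).trans card_biUnion_le
  have h2 : (((Ioc y x).filter (fun n => 2 ∣ n ∧ P n)).card : ℝ) ≤
      ∑ e ∈ E, (((Ioc y (y + (x - y))).filter (fun n => 2 ∣ n ∧ pr v n = e)).card : ℝ) := by
    exact_mod_cast h1
  refine h2.trans ?_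
  have h3 : ∀ e ∈ E, (((Ioc y (y + (x - y))).filter (fun n => 2 ∣ n ∧ pr v n = e)).card : ℝ) ≤
      ((x : ℝ) - y) / primorial v + 1 := by
    intro e _
    have h4 := crt v y (x - y) hv e
    rw [Nat.cast_sub hyx] at h4
    exact h4
  refine (sum_le_sum h3).trans ?_
  rw [sum_const, nsmul_eq_mul]

/-- `lfinal` with `β a = log N |U| (CB v B₁ x a + CB v B₂ x a) / y`: `β ≤ 4` by `CB_le` (twice
`(1 + ε/100) + small`), `∑ β ≤ (1 - 9ε/10) Del w |U|` by `CB_sum`, the density hypothesis and `pi_unif`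
(`q = 1`). If `n` is counted, `fB_le` and `one_le_sig` give
`(1 - ε/5) n ≤ (y/|U|) ∑ β wt + small`, so `pr v n ∈ E`, where
`E = {e | (1 - 3ε/10) |U| ≤ ∑ β a wt e a}`; then `crt` for each element of `E`, and `primorial_eq`. -/
theorem scaleOne (ε : ℝ) (hε : 0 < ε) (hε1 : ε ≤ 1) : ∃ w₀ : ℕ, ∀ w v : ℕ, w₀ ≤ w → w ≤ v →
    ∀ δ : ℝ, 0 < δ → δ ≤ 1 → ∃ N₀ : ℕ, ∀ N : ℕ, N₀ ≤ N → ∀ y x : ℕ, δ * N ≤ y → y ≤ x → x ≤ N →
      (x : ℝ) ≤ (1 + ε / 100) * y → ∀ B₁ B₂ : Set ℕ,
        (cntB B₁ x : ℝ) + cntB B₂ x ≤ (1 - ε) * Del w * cntB Set.univ x →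
          (((Ioc y x).filter (fun n => 2 ∣ n ∧
            (1 - ε / 5) * (n * sig v n) ≤ fB v N B₁ n + fB v N B₂ n)).card : ℝ) ≤
              Real.exp (-(ε * w / 2)) * (((x : ℝ) - y) + primorial v) := by
  classical
  obtain ⟨w₀, hw₀⟩ := lfinal ε hε hε1
  refine ⟨max w₀ 2, fun w v hw hwv δ hδ hδ1 => ?_⟩
  have hv : 2 ≤ v := (le_trans (le_max_right _ _) hw).trans hwv
  have hw2 : 1 ≤ w := by
    have := le_trans (le_max_right w₀ 2) hw
    omega
  have hwv' := hw₀ w v (le_trans (le_max_left _ _) hw) hwv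
  obtain ⟨U, hU⟩ : ∃ U : ℝ, U = ((UU v).card : ℝ) := ⟨_, rfl⟩
  have hUpos : 0 < U := by rw [hU]; exact scaleOne_card_UU_pos v
  obtain ⟨K, hK⟩ : ∃ K : ℝ, K = (primorial v : ℝ) / (primorial v).totient := ⟨_, rfl⟩
  have hK0 : 0 ≤ K := by rw [hK]; positivity
  have hDel0 : 0 < Del w := lt_of_lt_of_le (by
    have : (0 : ℝ) < w := by exact_mod_cast hw2
    positivity) (Del_ge w hw2)
  obtain ⟨N₁, hN₁⟩ := CB_le v hv (δ / (4 * U)) (by positivity)
  obtain ⟨N₂, hN₂⟩ := pi_unif 1 0 le_rfl (Nat.coprime_one_right 0) (ε * δ / 100) (by positivity)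
  obtain ⟨N₃, hN₃⟩ := scaleOne_log (ε * δ / (20 * (v * K + 1))) (by positivity)
  refine ⟨max (max N₁ N₂) (max N₃ 1), fun N hN y x hy hyx hxN hxy B₁ B₂ hB => ?_⟩
  have hNN₁ : N₁ ≤ N := le_trans (le_trans (le_max_left _ _) (le_max_left _ _)) hN
  have hNN₂ : N₂ ≤ N := le_trans (le_trans (le_max_right _ _) (le_max_left _ _)) hN
  have hNN₃ : N₃ ≤ N := le_trans (le_trans (le_max_left _ _) (le_max_right _ _)) hN
  have hN1 : 1 ≤ N := le_trans (le_trans (le_max_right _ _) (le_max_right _ _)) hN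
  have hN0 : (0 : ℝ) < N := by exact_mod_cast hN1
  have hy0 : (0 : ℝ) < y := lt_of_lt_of_le (by positivity) hy
  have hlog : 0 ≤ Real.log N := Real.log_natCast_nonneg N
  -- the weights
  obtain ⟨γ, hγ⟩ : ∃ γ : XX v → ℝ, ∀ a, γ a =
      Real.log N * (CB v B₁ x a : ℝ) + Real.log N * (CB v B₂ x a : ℝ) := ⟨_, fun _ => rfl⟩
  have hγ0 : ∀ a, 0 ≤ γ a := fun a => by rw [hγ]; positivity
  obtain ⟨β, hβ⟩ : ∃ β : XX v → ℝ, ∀ a, β a = if a ∈ UU v then U * γ a / y else 0 :=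
    ⟨_, fun _ => rfl⟩
  have hβ0 : ∀ a, 0 ≤ β a := by
    intro a
    rw [hβ]
    split_ifs
    · have := hγ0 a
      positivity
    · exact le_rfl
  have hγU : ∀ a ∈ UU v, U * γ a ≤ 4 * y := by
    intro a ha
    have h1 := hN₁ N hNN₁ x hxN B₁ a ha
    have h2 := hN₁ N hNN₁ x hxN B₂ a ha
    rw [← hU] at h1 h2
    have h3 : U * γ a ≤ U * (2 * ((x : ℝ) / U + δ / (4 * U) * N)) := by
      rw [hγ]
      apply mul_le_mul_of_nonneg_left _ hUpos.le
      linarith
    have h4 : U * (2 * ((x : ℝ) / U + δ / (4 * U) * N)) = 2 * x + δ * N / 2 := by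
      field_simp
      ring
    rw [h4] at h3
    have h5 : (x : ℝ) ≤ 1.01 * y := by
      refine hxy.trans ?_
      apply mul_le_mul_of_nonneg_right _ hy0.le
      linarith
    linarith
  have hβ4 : ∀ a, β a ≤ 4 := by
    intro a
    rw [hβ]
    split_ifs with ha
    · rw [div_le_iff₀ hy0]
      exact hγU a ha
    · norm_num
  have hsumγ : ∑ a ∈ UU v, γ a ≤ (1 - ε) * Del w * ((1 + ε / 50) * y) := by
    have h1 : ∑ a ∈ UU v, γ a = Real.log N *
        (((∑ a ∈ UU v, CB v B₁ x a : ℕ) : ℝ) + ((∑ a ∈ UU v, CB v B₂ x a : ℕ) : ℝ)) := by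
      push_cast
      rw [mul_add, mul_sum, mul_sum, ← sum_add_distrib]
      exact sum_congr rfl fun a _ => hγ a
    have h2 : ((∑ a ∈ UU v, CB v B₁ x a : ℕ) : ℝ) ≤ cntB B₁ x := by
      exact_mod_cast CB_sum v x B₁
    have h3 : ((∑ a ∈ UU v, CB v B₂ x a : ℕ) : ℝ) ≤ cntB B₂ x := by
      exact_mod_cast CB_sum v x B₂
    have h4 : Real.log N * (cntB Set.univ x : ℝ) ≤ (1 + ε / 50) * y := by
      have h5 := hN₂ N hNN₂ x hxN
      have h6 : cntB Set.univ x = ((Icc 1 x).filter (fun n => n.Prime ∧ n ≡ 0 [MOD 1])).card := by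
        unfold cntB
        congr 1
        ext n
        simp [Nat.modEq_one]
      rw [h6]
      have h7 := (abs_le.1 h5).2
      rw [Nat.totient_one, Nat.cast_one, div_one] at h7
      have h8 : ε * δ / 100 * N ≤ ε / 100 * y := by
        have h9 := mul_le_mul_of_nonneg_left hy (by positivity : 0 ≤ ε / 100)
        linarith
      linarith
    calc ∑ a ∈ UU v, γ a ≤ Real.log N * ((cntB B₁ x : ℝ) + cntB B₂ x) := by
          rw [h1]
          exact mul_le_mul_of_nonneg_left (add_le_add h2 h3) hlog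
      _ ≤ Real.log N * ((1 - ε) * Del w * cntB Set.univ x) :=
          mul_le_mul_of_nonneg_left hB hlog
      _ = (1 - ε) * Del w * (Real.log N * (cntB Set.univ x : ℝ)) := by ring
      _ ≤ (1 - ε) * Del w * ((1 + ε / 50) * y) := by
          apply mul_le_mul_of_nonneg_left h4
          apply mul_nonneg (by linarith) hDel0.le
  have hsumβ : ∑ a ∈ UU v, β a ≤ (1 - 9 / 10 * ε) * Del w * (UU v).card := by
    have h1 : ∑ a ∈ UU v, β a = U / y * ∑ a ∈ UU v, γ a := by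
      rw [mul_sum]
      refine sum_congr rfl fun a ha => ?_
      rw [hβ, if_pos ha]
      ring
    rw [h1, ← hU]
    have h2 : U / y * ∑ a ∈ UU v, γ a ≤ U / y * ((1 - ε) * Del w * ((1 + ε / 50) * y)) :=
      mul_le_mul_of_nonneg_left hsumγ (by positivity)
    refine h2.trans ?_
    have h3 : U / y * ((1 - ε) * Del w * ((1 + ε / 50) * y)) =
        ((1 - ε) * (1 + ε / 50)) * (Del w * U) := by
      field_simp
    rw [h3]
    have h4 : (1 - 9 / 10 * ε) * Del w * U = (1 - 9 / 10 * ε) * (Del w * U) := by ring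
    rw [h4]
    have h5 : (1 - ε) * (1 + ε / 50) ≤ 1 - 9 / 10 * ε := by nlinarith
    exact mul_le_mul_of_nonneg_right h5 (by positivity)
  -- the exceptional residues
  obtain ⟨E, hEdef⟩ : ∃ E : Finset (XX v), ∀ e, e ∈ E ↔ (1 - 3 / 10 * ε) * (UU v).card ≤
      ∑ a ∈ UU v, β a * wt (fun i : Idx v => (i : ℕ)) e a :=
    ⟨univ.filter (fun e => (1 - 3 / 10 * ε) * (UU v).card ≤
      ∑ a ∈ UU v, β a * wt (fun i : Idx v => (i : ℕ)) e a), fun e => by
        rw [mem_filter]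
        exact ⟨fun h => h.2, fun h => ⟨mem_univ _, h⟩⟩⟩
  have hEcard := hwv' β hβ0 hβ4 hsumβ E (fun n hn => (hEdef n).1 hn)
  have hcount := scaleOne_count v y x hv hyx
    (fun n => (1 - ε / 5) * (n * sig v n) ≤ fB v N B₁ n + fB v N B₂ n) E (by
      intro n hyn hnx h2n hP
      rw [hEdef, ← hU]
      have h1 := fB_le v N n x B₁ hv h2n hnx hN1
      have h2 := fB_le v N n x B₂ hv h2n hnx hN1
      rw [← hK] at h1 h2
      have hs := one_le_sig v n hv
      have hs0 : 0 < sig v n := by linarith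
      obtain ⟨S, hS⟩ : ∃ S : ℝ, S = ∑ a ∈ UU v, γ a * wt (fun i : Idx v => (i : ℕ)) (pr v n) a :=
        ⟨_, rfl⟩
      have h3 : (∑ a ∈ UU v, Real.log N * (CB v B₁ x a : ℝ) *
          wt (fun i : Idx v => (i : ℕ)) (pr v n) a) + (∑ a ∈ UU v, Real.log N * (CB v B₂ x a : ℝ) *
          wt (fun i : Idx v => (i : ℕ)) (pr v n) a) = S := by
        rw [hS, ← sum_add_distrib]
        refine sum_congr rfl fun a _ => ?_
        rw [hγ]
        ring
      have h4 : (1 - ε / 5) * (n * sig v n) ≤ sig v n * S + 2 * (v * Real.log N * K) := by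
        rw [← h3]
        linarith
      have h5 : (0 : ℝ) ≤ v * Real.log N * K := by positivity
      have h6 : (1 - ε / 5) * (n : ℝ) ≤ S + 2 * (v * Real.log N * K) := by
        have h7 : (1 - ε / 5) * (n : ℝ) * sig v n ≤ (S + 2 * (v * Real.log N * K)) * sig v n := by
          have h8 : 2 * (v * Real.log N * K) ≤ 2 * (v * Real.log N * K) * sig v n :=
            le_mul_of_one_le_right (by positivity) hs
          linarith
        exact le_of_mul_le_mul_right h7 hs0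
      have h7 : 2 * (v * Real.log N * K) ≤ ε / 10 * y := by
        have h8 := hN₃ N hNN₃
        have h9 : (v : ℝ) * Real.log N * K ≤ (v * K + 1) * Real.log N := by
          nlinarith
        have h10 : (v * K + 1) * Real.log N ≤ (v * K + 1) * (ε * δ / (20 * (v * K + 1)) * N) :=
          mul_le_mul_of_nonneg_left h8 (by positivity)
        have h11 : (v * K + 1) * (ε * δ / (20 * (v * K + 1)) * N) = ε / 20 * (δ * N) := by
          have : (v : ℝ) * K + 1 ≠ 0 := by positivity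
          field_simp
        have h12 : ε / 20 * (δ * N) ≤ ε / 20 * y := mul_le_mul_of_nonneg_left hy (by positivity)
        linarith
      have h8 : (y : ℝ) ≤ n := by exact_mod_cast hyn.le
      have h9 : (1 - ε / 5) * (y : ℝ) ≤ (1 - ε / 5) * n :=
        mul_le_mul_of_nonneg_left h8 (by linarith)
      have h10 : (1 - 3 / 10 * ε) * (y : ℝ) ≤ S := by linarith
      have h11 : ∑ a ∈ UU v, β a * wt (fun i : Idx v => (i : ℕ)) (pr v n) a = U / y * S := by
        rw [hS, mul_sum]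
        refine sum_congr rfl fun a ha => ?_
        rw [hβ, if_pos ha]
        ring
      rw [h11]
      have h12 : U / y * ((1 - 3 / 10 * ε) * (y : ℝ)) ≤ U / y * S :=
        mul_le_mul_of_nonneg_left h10 (by positivity)
      have h13 : U / y * ((1 - 3 / 10 * ε) * (y : ℝ)) = (1 - 3 / 10 * ε) * U := by
        field_simp
      linarith)
  refine hcount.trans ?_
  have hW := primorial_eq v hv
  have hX0 : (0 : ℝ) ≤ (Fintype.card (XX v) : ℝ) := Nat.cast_nonneg _
  have hWpos : (0 : ℝ) < primorial v := by exact_mod_cast primorial_pos v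
  have hxy0 : 0 ≤ (x : ℝ) - y := by
    have : (y : ℝ) ≤ x := by exact_mod_cast hyx
    linarith
  have h1 : (0 : ℝ) ≤ ((x : ℝ) - y) / primorial v + 1 := by positivity
  refine (mul_le_mul_of_nonneg_right hEcard h1).trans ?_
  rw [mul_assoc]
  apply mul_le_mul_of_nonneg_left _ (Real.exp_pos _).le
  have h2 : (Fintype.card (XX v) : ℝ) = primorial v / 2 := by linarith
  rw [h2, mul_add]
  have h3 : (primorial v : ℝ) / 2 * (((x : ℝ) - y) / primorial v) = ((x : ℝ) - y) / 2 := by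
    field_simp
  rw [h3]
  linarith

end Pool.Agent.Lib.MP_629a14_nt.Rob
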