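import Pool.Agent.Lib.MP_629a14_nt.Rob.GHat
import Pool.Agent.Lib.MP_629a14_nt.Rob.Sup
import Pool.Agent.Lib.MP_629a14_nt.Rob.Wphi

/-! The mixed moment of the primes of a set and `gg`. -/

set_option autoImplicit false

namespace Pool.Agent.Lib.MP_629a14_nt.Rob

open Finset Pool.Agent.Lib.MP_629a14_nt

namespace TTg

/-- the large values -/
theorem part_one (H : Finset ℕ) (X G : ℕ → ℝ) (lam v Nr M : ℝ) (hv : 0 < v)
    (hlam : 1 / v ≤ lam ^ 2) (hlam0 : 0 < lam) (hX : ∀ h, 0 ≤ X h) (hG0 : ∀ h, 0 ≤ G h)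
    (hG : ∀ h, G h ≤ 2 / v * Nr) (hM : ∑ h ∈ H, X h ^ 4 ≤ M) :
    ∑ h ∈ H.filter (fun h => ¬ X h ≤ lam), X h ^ 2 * G h ^ 2 ≤ 4 * M / v * Nr ^ 2 := by
  have h1 : ∀ h ∈ H.filter (fun h => ¬ X h ≤ lam), X h ^ 2 * G h ^ 2 ≤
      4 / v * Nr ^ 2 * X h ^ 4 := by
    intro h hh
    have hXl : lam < X h := not_le.1 (mem_filter.1 hh).2
    have h2 : 1 ≤ v * X h ^ 2 := by
      have h3 : lam ^ 2 ≤ X h ^ 2 := pow_le_pow_left₀ hlam0.le hXl.le 2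
      have h4 : 1 / v ≤ X h ^ 2 := hlam.trans h3
      rw [div_le_iff₀ hv] at h4
      linarith
    have h5 : G h ^ 2 ≤ (2 / v * Nr) ^ 2 := pow_le_pow_left₀ (hG0 h) (hG h) 2
    calc X h ^ 2 * G h ^ 2 ≤ X h ^ 2 * (2 / v * Nr) ^ 2 := by gcongr
      _ = (X h ^ 2 * (2 / v * Nr) ^ 2) * 1 := by ring
      _ ≤ (X h ^ 2 * (2 / v * Nr) ^ 2) * (v * X h ^ 2) := by gcongr
      _ = 4 / v * Nr ^ 2 * X h ^ 4 := by
          field_simp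
          ring
  calc ∑ h ∈ H.filter (fun h => ¬ X h ≤ lam), X h ^ 2 * G h ^ 2
      ≤ ∑ h ∈ H.filter (fun h => ¬ X h ≤ lam), 4 / v * Nr ^ 2 * X h ^ 4 := sum_le_sum h1
    _ ≤ ∑ h ∈ H, 4 / v * Nr ^ 2 * X h ^ 4 :=
        sum_le_sum_of_subset_of_nonneg (filter_subset _ _) (fun h _ _ => by
          have := hX h
          positivity)
    _ = 4 / v * Nr ^ 2 * ∑ h ∈ H, X h ^ 4 := by rw [mul_sum]
    _ ≤ 4 / v * Nr ^ 2 * M := by gcongr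
    _ = 4 * M / v * Nr ^ 2 := by ring

/-- the small values -/
theorem part_two (H : Finset ℕ) (X G : ℕ → ℝ) (lam a b c : ℝ)
    (ha : ∑ h ∈ H.filter (fun h => X h ≤ lam), X h ^ 4 ≤ a) (hb : ∑ h ∈ H, G h ^ 4 ≤ b)
    (hG0 : ∀ h, 0 ≤ G h) (ha0 : 0 ≤ a) (hc : 0 ≤ c) (habc : a * b ≤ c ^ 2) :
    ∑ h ∈ H.filter (fun h => X h ≤ lam), X h ^ 2 * G h ^ 2 ≤ c := by
  have h1 := Finset.sum_mul_sq_le_sq_mul_sq (H.filter (fun h => X h ≤ lam))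
    (fun h => X h ^ 2) (fun h => G h ^ 2)
  have h2 : ∑ h ∈ H.filter (fun h => X h ≤ lam), (X h ^ 2) ^ 2 ≤ a := by
    have : ∀ h, (X h ^ 2) ^ 2 = X h ^ 4 := fun h => by ring
    simp only [this]
    exact ha
  have h3 : ∑ h ∈ H.filter (fun h => X h ≤ lam), (G h ^ 2) ^ 2 ≤ b := by
    have : ∀ h, (G h ^ 2) ^ 2 = G h ^ 4 := fun h => by ring
    simp only [this]
    exact (sum_le_sum_of_subset_of_nonneg (filter_subset _ _)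
      (fun h _ _ => pow_nonneg (hG0 h) 4)).trans hb
  have h4 : 0 ≤ ∑ h ∈ H.filter (fun h => X h ≤ lam), (G h ^ 2) ^ 2 :=
    sum_nonneg fun h _ => by positivity
  have h5 : (∑ h ∈ H.filter (fun h => X h ≤ lam), X h ^ 2 * G h ^ 2) ^ 2 ≤ c ^ 2 :=
    h1.trans ((mul_le_mul h2 h3 h4 ha0).trans habc)
  exact abs_le_of_sq_le_sq' h5 hc |>.2

end TTg

/-- Put `k0 = 88` (`TT_hyp`), `λ = (1/2)^j0` with `λ ≤ 2 v^(-1/2)` and `v^(-1/2) ≤ λ`. The `h` with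
`TT > λ`: `∑ TT^2 |gh|^2 ≤ (2N/v)^2 λ^(-2) ∑ TT^4 ≤ 4 N^2 v^(-1) 17 k0^7` by `sup_le`,
`fourth_total`. The `h` with `TT ≤ λ`: Cauchy-Schwarz, `fourth_tail` and `ghat4`, `wphi`:
`(16 k0^3 λ)^(1/2) (C N^4 (C' v^(1/32))^4)^(1/2) ≤ C'' N^2 v^(-1/4 + 1/16)`. -/
theorem ttg (η : ℝ) (hη : 0 < η) : ∃ v₀ : ℕ, ∀ v : ℕ, v₀ ≤ v → ∃ N₀ : ℕ, ∀ N : ℕ, N₀ ≤ N →
    ∀ A : Finset ℕ, (∀ p ∈ A, p.Prime ∧ ⌊(N : ℝ) ^ (1 / 4 : ℝ)⌋₊ < p ∧ p ≤ N) →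
      ∑ h ∈ range (2 * N + 1), TT N A h ^ 2 * ‖gh v N (fr N h)‖ ^ 2 ≤ η * (N : ℝ) ^ 2 := by
  classical
  obtain ⟨C, hC, N1, hN1⟩ := ghat4
  obtain ⟨C', hC', hw⟩ := wphi
  obtain ⟨N2, hN2⟩ := card_primes_le
  set k0 : ℝ := 88 with hk0
  have hcast : Filter.Tendsto (fun v : ℕ => (v : ℝ)) Filter.atTop Filter.atTop :=
    tendsto_natCast_atTop_atTop
  have t1 : Filter.Tendsto (fun v : ℕ => 4 * (17 * k0 ^ 7) / (v : ℝ)) Filter.atTop (nhds 0) :=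
    hcast.const_div_atTop _
  have t2 : Filter.Tendsto (fun v : ℕ => (32 * k0 ^ 3 * C * C' ^ 4) * (v : ℝ) ^ (-(3 / 8) : ℝ))
      Filter.atTop (nhds 0) := by
    have := ((tendsto_rpow_neg_atTop (y := 3 / 8) (by norm_num)).comp hcast).const_mul
      (32 * k0 ^ 3 * C * C' ^ 4)
    simpa using this
  obtain ⟨v₁, hv₁⟩ := Filter.eventually_atTop.1 ((tendsto_order.1 t1).2 (η / 2) (by positivity))
  obtain ⟨v₂, hv₂⟩ := Filter.eventually_atTop.1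
    ((tendsto_order.1 t2).2 ((η / 2) ^ 2) (by positivity))
  refine ⟨max (max v₁ v₂) 3, fun v hv => ?_⟩
  have hvv1 : v₁ ≤ v := (le_max_left _ _).trans ((le_max_left _ _).trans hv)
  have hvv2 : v₂ ≤ v := (le_max_right _ _).trans ((le_max_left _ _).trans hv)
  have hv3 : 3 ≤ v := (le_max_right _ _).trans hv
  have hvr : (0 : ℝ) < v := by exact_mod_cast (by omega : 0 < v)
  have hv1r : (1 : ℝ) ≤ v := by exact_mod_cast (by omega : 1 ≤ v)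
  obtain ⟨N3, hN3⟩ := sup_le v hv3
  refine ⟨max (max N1 N2) (max N3 3), fun N hN A hA => ?_⟩
  have hNN1 : N1 ≤ N := (le_max_left _ _).trans ((le_max_left _ _).trans hN)
  have hNN2 : N2 ≤ N := (le_max_right _ _).trans ((le_max_left _ _).trans hN)
  have hNN3 : N3 ≤ N := (le_max_left _ _).trans ((le_max_right _ _).trans hN)
  have hN3' : 3 ≤ N := (le_max_right _ _).trans ((le_max_right _ _).trans hN)
  have hNr : (0 : ℝ) < N := by exact_mod_cast (by omega : 0 < N)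
  -- the level `lam`
  have hs0 : (0 : ℝ) < (v : ℝ) ^ (-(1 / 2) : ℝ) := Real.rpow_pos_of_pos hvr _
  have hs1 : (v : ℝ) ^ (-(1 / 2) : ℝ) ≤ 1 :=
    Real.rpow_le_one_of_one_le_of_nonpos hv1r (by norm_num)
  obtain ⟨j, hj1, hj2⟩ := exists_nat_pow_near_of_lt_one hs0 hs1
    (show (0 : ℝ) < 1 / 2 by norm_num) (by norm_num)
  set lam : ℝ := (1 / 2) ^ j with hlam
  have hlam0 : 0 < lam := by positivity
  have hlam2 : lam ≤ 2 * (v : ℝ) ^ (-(1 / 2) : ℝ) := by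
    rw [pow_succ, ← hlam] at hj1
    linarith
  have hlam1 : 1 / (v : ℝ) ≤ lam ^ 2 := by
    have h1 : ((v : ℝ) ^ (-(1 / 2) : ℝ)) ^ 2 = 1 / (v : ℝ) := by
      rw [← Real.rpow_natCast, ← Real.rpow_mul hvr.le]
      norm_num
      rw [Real.rpow_neg_one]
    rw [← h1]
    exact pow_le_pow_left₀ hs0.le hj2 2
  set X : ℕ → ℝ := fun h => TT N A h with hX
  set G : ℕ → ℝ := fun h => ‖gh v N (fr N h)‖ with hG
  have hX0 : ∀ h, 0 ≤ X h := fun h => TT_nonneg N A h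
  have hG0 : ∀ h, 0 ≤ G h := fun h => norm_nonneg _
  have hAc : (A.card : ℝ) ≤ 2 * (N / Real.log N) := by
    refine le_trans ?_ (hN2 N hNN2)
    have : A ⊆ (Icc 1 N).filter Nat.Prime := by
      intro p hp
      obtain ⟨h1, _, h3⟩ := hA p hp
      rw [mem_filter, mem_Icc]
      exact ⟨⟨h1.one_lt.le, h3⟩, h1⟩
    exact_mod_cast card_le_card this
  have hyp : ∀ R ⊆ range (2 * N + 1), ∑ h ∈ R, X h ^ 2 ≤ k0 ^ 2 * (R.card : ℝ) ^ (1 / 3 : ℝ) :=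
    fun R hR => TT_hyp hN3' rfl A hA hAc R hR
  have hk1 : (1 : ℝ) ≤ k0 := by rw [hk0]; norm_num
  have htot := fourth_total (range (2 * N + 1)) X hk1 (fun h _ => hX0 h) hyp
  have htail := fourth_tail (range (2 * N + 1)) X hk1 (fun h _ => hX0 h) hyp j
  rw [← hlam] at htail
  have hg4 := hN1 N hNN1 v
  have hp1 := TTg.part_one (range (2 * N + 1)) X G lam v N (17 * k0 ^ 7) hvr hlam1 hlam0 hX0 hG0
    (fun h => hN3 N hNN3 (fr N h)) htot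
  have hwv := hw v (by omega)
  have hWpos : (0 : ℝ) ≤ (primorial v : ℝ) / (primorial v).totient := by positivity
  have habc : (16 * k0 ^ 3 * lam) * (C * (N : ℝ) ^ 4 *
      ((primorial v : ℝ) / (primorial v).totient) ^ 4) ≤ (η / 2 * (N : ℝ) ^ 2) ^ 2 := by
    have h1 : ((primorial v : ℝ) / (primorial v).totient) ^ 4 ≤
        (C' * (v : ℝ) ^ (1 / 32 : ℝ)) ^ 4 := pow_le_pow_left₀ hWpos hwv 4
    have h2 : (C' * (v : ℝ) ^ (1 / 32 : ℝ)) ^ 4 = C' ^ 4 * (v : ℝ) ^ (1 / 8 : ℝ) := by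
      rw [mul_pow, ← Real.rpow_natCast ((v : ℝ) ^ (1 / 32 : ℝ)), ← Real.rpow_mul hvr.le]
      norm_num
    have h3 : (v : ℝ) ^ (-(1 / 2) : ℝ) * (v : ℝ) ^ (1 / 8 : ℝ) = (v : ℝ) ^ (-(3 / 8) : ℝ) := by
      rw [← Real.rpow_add hvr]
      norm_num
    calc (16 * k0 ^ 3 * lam) * (C * (N : ℝ) ^ 4 *
          ((primorial v : ℝ) / (primorial v).totient) ^ 4)
        ≤ (16 * k0 ^ 3 * (2 * (v : ℝ) ^ (-(1 / 2) : ℝ))) * (C * (N : ℝ) ^ 4 *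
          (C' ^ 4 * (v : ℝ) ^ (1 / 8 : ℝ))) := by
          rw [← h2]
          gcongr
      _ = (32 * k0 ^ 3 * C * C' ^ 4) * ((v : ℝ) ^ (-(1 / 2) : ℝ) * (v : ℝ) ^ (1 / 8 : ℝ)) *
          (N : ℝ) ^ 4 := by ring
      _ = (32 * k0 ^ 3 * C * C' ^ 4) * (v : ℝ) ^ (-(3 / 8) : ℝ) * (N : ℝ) ^ 4 := by rw [h3]
      _ ≤ (η / 2) ^ 2 * (N : ℝ) ^ 4 := by
          have := (hv₂ v hvv2).le
          gcongr
      _ = (η / 2 * (N : ℝ) ^ 2) ^ 2 := by ring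
  have hp2 := TTg.part_two (range (2 * N + 1)) X G lam (16 * k0 ^ 3 * lam)
    (C * (N : ℝ) ^ 4 * ((primorial v : ℝ) / (primorial v).totient) ^ 4) (η / 2 * (N : ℝ) ^ 2)
    htail hg4 hG0 (by positivity) (by positivity) habc
  calc ∑ h ∈ range (2 * N + 1), TT N A h ^ 2 * ‖gh v N (fr N h)‖ ^ 2
      = ∑ h ∈ (range (2 * N + 1)).filter (fun h => X h ≤ lam), X h ^ 2 * G h ^ 2 +
        ∑ h ∈ (range (2 * N + 1)).filter (fun h => ¬ X h ≤ lam), X h ^ 2 * G h ^ 2 :=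
        (sum_filter_add_sum_filter_not _ _ _).symm
    _ ≤ η / 2 * (N : ℝ) ^ 2 + 4 * (17 * k0 ^ 7) / v * (N : ℝ) ^ 2 := add_le_add hp2 hp1
    _ ≤ η / 2 * (N : ℝ) ^ 2 + η / 2 * (N : ℝ) ^ 2 := by
        have := (hv₁ v hvv1).le
        gcongr
    _ = η * (N : ℝ) ^ 2 := by ring

end Pool.Agent.Lib.MP_629a14_nt.Rob
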