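import Pool.Agent.Lib.MP_629a14_nt.Rob.Defs

/-! Rough numbers with a small sifting limit: truncated Möbius inversion and Rankin's trick. -/

set_option autoImplicit false

namespace Pool.Agent.Lib.MP_629a14_nt.Rob

open Finset Pool.Agent.Lib.MP_629a14_nt

private lemma trunc_rough_iff (n z : ℕ) (hz : 2 ≤ z) :
    Rough z n ↔ n.gcd (primorial (z - 1)) = 1 := by
  constructor
  · intro h
    by_contra hne
    obtain ⟨p, hp, hpd⟩ := Nat.exists_prime_and_dvd hne
    have h1 := Nat.dvd_gcd_iff.1 hpd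
    have h2 := h p hp h1.1
    have h3 := (hp.dvd_primorial_iff).1 h1.2
    omega
  · intro h p hp hpn
    by_contra hlt
    push Not at hlt
    have h1 : p ∣ n.gcd (primorial (z - 1)) :=
      Nat.dvd_gcd hpn (hp.dvd_primorial_iff.2 (by omega))
    rw [h] at h1
    exact hp.one_lt.ne' (Nat.dvd_one.1 h1)

private lemma trunc_sum_mu (n P : ℕ) (hP : P ≠ 0) :
    ∑ d ∈ P.divisors.filter (fun d => d ∣ n), ArithmeticFunction.moebius d =
      if n.gcd P = 1 then 1 else 0 := by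
  have h1 : P.divisors.filter (fun d => d ∣ n) = (n.gcd P).divisors := by
    ext d
    simp only [mem_filter, Nat.mem_divisors, Nat.dvd_gcd_iff]
    constructor
    · rintro ⟨⟨h1, _⟩, h2⟩
      exact ⟨⟨h2, h1⟩, (Nat.gcd_pos_of_pos_right _ (Nat.pos_of_ne_zero hP)).ne'⟩
    · rintro ⟨⟨h1, h2⟩, _⟩
      exact ⟨⟨h2, hP⟩, h1⟩
  rw [h1, ← ArithmeticFunction.coe_mul_zeta_apply, ArithmeticFunction.moebius_mul_coe_zeta,
    ArithmeticFunction.one_apply]

private lemma trunc_bij (N d : ℕ) (hd : 0 < d) (α : ℝ) :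
    ∑ n ∈ (Icc 1 N).filter (fun n => d ∣ n), ee ((n : ℝ) * α) =
      ∑ m ∈ Icc 1 (N / d), ee ((d : ℝ) * m * α) := by
  have h1 : (Icc 1 N).filter (fun n => d ∣ n) = (Icc 1 (N / d)).image (fun m => d * m) := by
    ext n
    simp only [mem_filter, mem_Icc, mem_image]
    constructor
    · rintro ⟨⟨h1, h2⟩, m, rfl⟩
      refine ⟨m, ⟨?_, ?_⟩, rfl⟩
      · by_contra h3
        have : m = 0 := by omega
        subst this
        omega
      · rw [Nat.le_div_iff_mul_le hd, mul_comm]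
        exact h2
    · rintro ⟨m, ⟨h1, h2⟩, rfl⟩
      rw [Nat.le_div_iff_mul_le hd, mul_comm] at h2
      exact ⟨⟨Nat.one_le_iff_ne_zero.2 (Nat.mul_ne_zero hd.ne' (by omega)), h2⟩,
        Dvd.intro _ rfl⟩
  rw [h1, sum_image (fun a _ b _ h => Nat.eq_of_mul_eq_mul_left hd h)]
  refine sum_congr rfl fun m _ => ?_
  push_cast
  rfl

private lemma trunc_expand (N z : ℕ) (α : ℝ) (hz : 2 ≤ z) :
    SR N z α = ∑ d ∈ (primorial (z - 1)).divisors,
      ((ArithmeticFunction.moebius d : ℤ) : ℂ) * ∑ m ∈ Icc 1 (N / d), ee ((d : ℝ) * m * α) := by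
  set P := primorial (z - 1) with hP
  have hP0 : P ≠ 0 := primorial_ne_zero _
  have h1 : ∀ n ∈ Icc 1 N, (if Rough z n then ee ((n : ℝ) * α) else 0) =
      ∑ d ∈ P.divisors, (if d ∣ n then
        ((ArithmeticFunction.moebius d : ℤ) : ℂ) * ee ((n : ℝ) * α) else 0) := by
    intro n _
    rw [← sum_filter, ← sum_mul, ← Int.cast_sum, trunc_sum_mu n P hP0]
    by_cases h : Rough z n
    · rw [if_pos h, if_pos ((trunc_rough_iff n z hz).1 h)]
      simp
    · rw [if_neg h, if_neg (fun h2 => h ((trunc_rough_iff n z hz).2 h2))]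
      simp
  unfold SR
  rw [sum_filter, sum_congr rfl h1, sum_comm]
  refine sum_congr rfl fun d hd => ?_
  rw [← sum_filter, ← mul_sum, trunc_bij N d (Nat.pos_of_mem_divisors hd)]

private lemma trunc_euler (P : ℕ) (hP : Squarefree P) (s : ℝ) :
    ∑ d ∈ P.divisors, (d : ℝ) ^ s = ∏ p ∈ P.primeFactors, (1 + (p : ℝ) ^ s) := by
  let f : ArithmeticFunction ℝ := ⟨fun d => if d = 0 then 0 else (d : ℝ) ^ s, by simp⟩
  have hf : f.IsMultiplicative := by
    rw [ArithmeticFunction.IsMultiplicative.iff_ne_zero]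
    refine ⟨by simp [f], fun {m n} hm hn _ => ?_⟩
    show (if m * n = 0 then 0 else ((m * n : ℕ) : ℝ) ^ s) =
      (if m = 0 then 0 else (m : ℝ) ^ s) * (if n = 0 then 0 else (n : ℝ) ^ s)
    rw [if_neg (Nat.mul_ne_zero hm hn), if_neg hm, if_neg hn]
    push_cast
    exact Real.mul_rpow (Nat.cast_nonneg _) (Nat.cast_nonneg _)
  have h := hf.prodPrimeFactors_one_add_of_squarefree hP
  have h1 : ∑ d ∈ P.divisors, f d = ∑ d ∈ P.divisors, (d : ℝ) ^ s := by
    refine sum_congr rfl fun d hd => ?_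
    show (if d = 0 then 0 else (d : ℝ) ^ s) = _
    rw [if_neg (Nat.pos_of_mem_divisors hd).ne']
  have h2 : ∏ p ∈ P.primeFactors, (1 + f p) = ∏ p ∈ P.primeFactors, (1 + (p : ℝ) ^ s) := by
    refine prod_congr rfl fun p hp => ?_
    show 1 + (if p = 0 then 0 else (p : ℝ) ^ s) = _
    rw [if_neg (Nat.prime_of_mem_primeFactors hp).ne_zero]
  rw [← h1, ← h2, h]

private lemma trunc_recip (z : ℕ) (hz : 2 ≤ z) :
    ∑ p ∈ (primorial (z - 1)).primeFactors, (1 : ℝ) / p ≤ 1 + Real.log z := by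
  have h1 : ((harmonic (z - 1) : ℚ) : ℝ) ≤ 1 + Real.log ((z - 1 : ℕ) : ℝ) :=
    harmonic_le_one_add_log (z - 1)
  have h2 : Real.log ((z - 1 : ℕ) : ℝ) ≤ Real.log z := by
    apply Real.log_le_log
    · exact_mod_cast (by omega : 0 < z - 1)
    · exact_mod_cast (by omega : z - 1 ≤ z)
  have h3 : ∑ p ∈ (primorial (z - 1)).primeFactors, (1 : ℝ) / p ≤
      ((harmonic (z - 1) : ℚ) : ℝ) := by
    have h4 : ((harmonic (z - 1) : ℚ) : ℝ) = ∑ i ∈ Icc 1 (z - 1), (1 : ℝ) / i := by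
      rw [harmonic_eq_sum_Icc]
      push_cast
      exact sum_congr rfl fun i _ => by rw [one_div]
    rw [h4]
    apply sum_le_sum_of_subset_of_nonneg
    · intro p hp
      have hpp := Nat.prime_of_mem_primeFactors hp
      have hpd := Nat.dvd_of_mem_primeFactors hp
      rw [mem_Icc]
      exact ⟨hpp.one_lt.le, hpp.dvd_primorial_iff.1 hpd⟩
    · intro i _ _
      positivity
  linarith

/-- `1_{rough}(n) = ∑_{d | n, d | P(z)} μ(d)`; the divisors `d > D` contribute at most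
`N ∑_{d | P(z), d > D} 1/d ≤ N D^(-δ) ∏_{p < z} (1 + p^(δ-1))` with `δ = 1 / (1 + log z)`, and
`p^δ ≤ e`, `∑_{p < z} 1/p ≤ log z`. -/
theorem trunc (N z D : ℕ) (α : ℝ) (hz : 2 ≤ z) (hD : 1 ≤ D) (hN : 1 ≤ N) :
    ‖SR N z α - ∑ d ∈ (Icc 1 D).filter (fun d => d ∣ primorial (z - 1)),
      ((ArithmeticFunction.moebius d : ℤ) : ℂ) * ∑ m ∈ Icc 1 (N / d), ee ((d : ℝ) * m * α)‖ ≤
      N * Real.exp (3 + 3 * Real.log z - Real.log D / (1 + Real.log z)) := by
  have hlz : 0 ≤ Real.log z := Real.log_nonneg (by exact_mod_cast (by omega : 1 ≤ z))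
  have hz0 : (0 : ℝ) < z := by exact_mod_cast (by omega : 0 < z)
  have hD0 : (0 : ℝ) < D := by exact_mod_cast (by omega : 0 < D)
  set δ : ℝ := 1 / (1 + Real.log z) with hδ
  have hδ0 : 0 < δ := by positivity
  set P := primorial (z - 1) with hP
  have hP0 : P ≠ 0 := primorial_ne_zero _
  have hfil : (Icc 1 D).filter (fun d => d ∣ P) = P.divisors.filter (fun d => d ≤ D) := by
    ext d
    simp only [mem_filter, mem_Icc, Nat.mem_divisors]
    constructor
    · rintro ⟨⟨_, h2⟩, h3⟩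
      exact ⟨⟨h3, hP0⟩, h2⟩
    · rintro ⟨⟨h1, _⟩, h3⟩
      exact ⟨⟨Nat.pos_of_dvd_of_pos h1 (Nat.pos_of_ne_zero hP0), h3⟩, h1⟩
  rw [trunc_expand N z α hz, hfil,
    ← sum_filter_add_sum_filter_not P.divisors (fun d => d ≤ D), add_sub_cancel_left]
  have hterm : ∀ d ∈ P.divisors.filter (fun d => ¬ d ≤ D),
      ‖((ArithmeticFunction.moebius d : ℤ) : ℂ) * ∑ m ∈ Icc 1 (N / d), ee ((d : ℝ) * m * α)‖ ≤
        N * (D : ℝ) ^ (-δ) * (d : ℝ) ^ (δ - 1) := by
    intro d hd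
    rw [mem_filter] at hd
    obtain ⟨hd1, hd2⟩ := hd
    push Not at hd2
    have hd0 : (0 : ℝ) < d := by exact_mod_cast Nat.pos_of_mem_divisors hd1
    have h1 : ‖((ArithmeticFunction.moebius d : ℤ) : ℂ)‖ ≤ 1 := by
      rw [Complex.norm_intCast]
      exact_mod_cast ArithmeticFunction.abs_moebius_le_one (n := d)
    have h2 : ‖∑ m ∈ Icc 1 (N / d), ee ((d : ℝ) * m * α)‖ ≤ (N : ℝ) / d := by
      refine (norm_sum_le _ _).trans ?_
      simp only [norm_ee, sum_const, Nat.card_Icc, nsmul_eq_mul, mul_one,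
        Nat.add_sub_cancel]
      exact Nat.cast_div_le
    have h3 : (1 : ℝ) ≤ (D : ℝ) ^ (-δ) * (d : ℝ) ^ δ := by
      rw [Real.rpow_neg hD0.le, inv_mul_eq_div, one_le_div (Real.rpow_pos_of_pos hD0 _)]
      exact Real.rpow_le_rpow hD0.le (by exact_mod_cast hd2.le) hδ0.le
    calc ‖((ArithmeticFunction.moebius d : ℤ) : ℂ) * ∑ m ∈ Icc 1 (N / d), ee ((d : ℝ) * m * α)‖
        ≤ 1 * ((N : ℝ) / d) := by
          rw [norm_mul]
          exact mul_le_mul h1 h2 (norm_nonneg _) zero_le_one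
      _ ≤ ((D : ℝ) ^ (-δ) * (d : ℝ) ^ δ) * ((N : ℝ) / d) :=
          mul_le_mul_of_nonneg_right h3 (by positivity)
      _ = N * (D : ℝ) ^ (-δ) * (d : ℝ) ^ (δ - 1) := by
          rw [Real.rpow_sub_one hd0.ne']
          ring
  have hsum : ∑ d ∈ P.divisors, (d : ℝ) ^ (δ - 1) ≤ Real.exp (3 + 3 * Real.log z) := by
    rw [trunc_euler P (squarefree_primorial _)]
    have h1 : ∀ p ∈ P.primeFactors, (1 + (p : ℝ) ^ (δ - 1)) ≤ Real.exp (3 * (1 / p)) := by
      intro p hp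
      have hpp := Nat.prime_of_mem_primeFactors hp
      have hp0 : (0 : ℝ) < p := by exact_mod_cast hpp.pos
      have hple : p ≤ z - 1 := hpp.dvd_primorial_iff.1 (Nat.dvd_of_mem_primeFactors hp)
      have hple' : (p : ℝ) ≤ z := by exact_mod_cast (by omega : p ≤ z)
      have h2 : (p : ℝ) ^ δ ≤ 3 := by
        have h4 : (p : ℝ) ^ δ ≤ (z : ℝ) ^ δ := Real.rpow_le_rpow hp0.le hple' hδ0.le
        have h5 : (z : ℝ) ^ δ ≤ Real.exp 1 := by
          rw [Real.rpow_def_of_pos hz0]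
          apply Real.exp_le_exp.2
          rw [hδ, mul_one_div, div_le_one (by positivity)]
          linarith
        have h6 : Real.exp 1 < 3 := lt_trans Real.exp_one_lt_d9 (by norm_num)
        linarith
      have h3 : (p : ℝ) ^ (δ - 1) ≤ 3 * (1 / p) := by
        rw [Real.rpow_sub_one hp0.ne', mul_one_div]
        exact div_le_div_of_nonneg_right h2 hp0.le
      have h7 := Real.add_one_le_exp (3 * (1 / (p : ℝ)))
      linarith
    calc ∏ p ∈ P.primeFactors, (1 + (p : ℝ) ^ (δ - 1))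
        ≤ ∏ p ∈ P.primeFactors, Real.exp (3 * (1 / p)) :=
          prod_le_prod (fun p _ => by positivity) h1
      _ = Real.exp (3 * ∑ p ∈ P.primeFactors, (1 : ℝ) / p) := by
          rw [← Real.exp_sum, mul_sum]
      _ ≤ Real.exp (3 + 3 * Real.log z) := by
          apply Real.exp_le_exp.2
          have := trunc_recip z hz
          linarith
  calc ‖∑ d ∈ P.divisors.filter (fun d => ¬ d ≤ D),
        ((ArithmeticFunction.moebius d : ℤ) : ℂ) * ∑ m ∈ Icc 1 (N / d), ee ((d : ℝ) * m * α)‖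
      ≤ ∑ d ∈ P.divisors.filter (fun d => ¬ d ≤ D), N * (D : ℝ) ^ (-δ) * (d : ℝ) ^ (δ - 1) :=
        (norm_sum_le _ _).trans (sum_le_sum hterm)
    _ ≤ ∑ d ∈ P.divisors, N * (D : ℝ) ^ (-δ) * (d : ℝ) ^ (δ - 1) := by
        apply sum_le_sum_of_subset_of_nonneg (filter_subset _ _)
        intro i _ _
        positivity
    _ = N * (D : ℝ) ^ (-δ) * ∑ d ∈ P.divisors, (d : ℝ) ^ (δ - 1) := by rw [mul_sum]
    _ ≤ N * (D : ℝ) ^ (-δ) * Real.exp (3 + 3 * Real.log z) :=
        mul_le_mul_of_nonneg_left hsum (by positivity)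
    _ = N * Real.exp (3 + 3 * Real.log z - Real.log D / (1 + Real.log z)) := by
        rw [Real.rpow_def_of_pos hD0, mul_assoc, ← Real.exp_add]
        congr 2
        rw [hδ]
        ring

end Pool.Agent.Lib.MP_629a14_nt.Rob
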